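import Pool.Agent.P.MP_5af56b_co.Tor.Stmt

namespace Pool.Agent.P.MP_5af56b_co.Tor

open Relation

namespace A1aux

theorem ext' {G H : SG} (h : ∀ x y, G.A x y ↔ H.A x y) : G = H := by
  obtain ⟨A, _, _, _⟩ := G
  obtain ⟨B, _, _, _⟩ := H
  have e : A = B := funext fun x => funext fun y => propext (h x y)
  subst e
  rfl

theorem trans' {H G K : SG} (h1 : SMinor H G) (h2 : SMinor G K) : SMinor H K := by
  obtain ⟨U, f, M⟩ := h1
  obtain ⟨V, g, N⟩ := h2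
  have fib : ∀ s ∈ V, ∀ t ∈ V, g s = g t → g s ∈ U →
      ReflTransGen (FR K {x | x ∈ V ∧ g x ∈ U} (fun x => f (g x))) s t := by
    intro s hs t ht e hU
    refine (rtg_fib (s := FR K {x | x ∈ V ∧ g x ∈ U} (fun x => f (g x))) id
      (N.conn s hs t ht e) ?_).2
    rintro p q ⟨hp, hq, hpq, hA⟩ hps
    refine ReflTransGen.single ⟨⟨hp, ?_⟩, ⟨hq, ?_⟩, ?_, hA⟩
    · simp only [id]
      rw [hps]
      exact hU
    · simp only [id]
      rw [← hpq, hps]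
      exact hU
    · simp only [id]
      rw [hpq]
  refine ⟨{x | x ∈ V ∧ g x ∈ U}, fun x => f (g x), ⟨?_, ?_⟩⟩
  · rintro u ⟨huV, huU⟩ v ⟨hvV, hvU⟩ e
    have key : ∀ z, ReflTransGen (FR G U f) (g u) z → ∀ v ∈ V, g v = z →
        ReflTransGen (FR K {x | x ∈ V ∧ g x ∈ U} (fun x => f (g x))) u v := by
      intro z hz
      induction hz with
      | refl => exact fun v hv e => fib u huV v hv e.symm huU
      | tail _ h2 ih =>
        intro v hv e
        obtain ⟨hp, hq, hpq, hA⟩ := h2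
        obtain ⟨s, hs, t, ht, e1, e2, hB⟩ := N.edge _ _ hA
        have st : FR K {x | x ∈ V ∧ g x ∈ U} (fun x => f (g x)) s t :=
          ⟨⟨hs, by rw [e1]; exact hp⟩, ⟨ht, by rw [e2]; exact hq⟩,
            by simp only []; rw [e1, e2, hpq], hB⟩
        exact ((ih s hs e1).tail st).trans
          (fib t ht v hv (e2.trans e.symm) (by rw [e2]; exact hq))
    exact key _ (M.conn _ huU _ hvU e) v hvV rfl
  · intro x y hxy
    obtain ⟨u, hu, v, hv, e1, e2, hA⟩ := M.edge x y hxy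
    obtain ⟨s, hs, t, ht, e3, e4, hB⟩ := N.edge u v hA
    exact ⟨s, ⟨hs, by rw [e3]; exact hu⟩, t, ⟨ht, by rw [e4]; exact hv⟩,
      by rw [e3, e1], by rw [e4, e2], hB⟩

theorem mn' {G G' : SG} (h : SMinor G' G) : Mn G G' :=
  ⟨fun hr => hr.minor h, fun ⟨H, hH, hm⟩ => ⟨H, hH, trans' hm h⟩⟩

theorem eqv' {G G' : SG} (h1 : SMinor G' G) (h2 : SMinor G G') : Eqv G G' :=
  ⟨⟨(mn' h1).1, (mn' h2).1⟩, ⟨(mn' h2).2, (mn' h1).2⟩⟩

theorem map_fix {α : Type} (F : α → α) : ∀ l : List α, l = l.map F → ∀ x ∈ l, F x = x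
  | [], _, _, hx => by simp at hx
  | a :: l, h, x, hx => by
    rw [List.map_cons, List.cons.injEq] at h
    rcases List.mem_cons.1 hx with rfl | hx
    · exact h.1.symm
    · exact map_fix F l h.2 x hx

theorem mem_mp {φ : ℕ → ℕ} {E : List (ℕ × ℕ)} {x y : ℕ} (h : (x, y) ∈ mp φ E) :
    ∃ p q, (p, q) ∈ E ∧ φ p = x ∧ φ q = y := by
  obtain ⟨⟨p, q⟩, h1, h2⟩ := List.mem_map.1 h
  simp only [Prod.map, Prod.mk.injEq] at h2
  exact ⟨p, q, h1, h2.1, h2.2⟩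

theorem gr_mp {φ : ℕ → ℕ} {E : List (ℕ × ℕ)} {x y : ℕ} (h : (gr (mp φ E)).A x y) :
    ∃ p q, p ≠ q ∧ ((p, q) ∈ E ∨ (q, p) ∈ E) ∧ φ p = x ∧ φ q = y := by
  obtain ⟨hne, h | h⟩ := h
  · obtain ⟨p, q, h1, rfl, rfl⟩ := mem_mp h
    exact ⟨p, q, fun e => hne (by rw [e]), Or.inl h1, rfl, rfl⟩
  · obtain ⟨p, q, h1, rfl, rfl⟩ := mem_mp h
    exact ⟨q, p, fun e => hne (by rw [e]), Or.inr h1, rfl, rfl⟩

theorem iso1 {E E' : List (ℕ × ℕ)} {φ ψ : ℕ → ℕ} (h1 : E' = mp φ E) (h2 : E = mp ψ E') :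
    SMinor (gr E') (gr E) := by
  have h3 : E = E.map (Prod.map ψ ψ ∘ Prod.map φ φ) := by
    rw [← List.map_map]
    rw [h1] at h2
    exact h2
  have h4 := map_fix _ E h3
  have h5 : ∀ x, (∃ y, (x, y) ∈ E ∨ (y, x) ∈ E) → ψ (φ x) = x := by
    rintro x ⟨y, h | h⟩
    · exact congrArg Prod.fst (h4 _ h)
    · exact congrArg Prod.snd (h4 _ h)
  refine ⟨{x | ∃ y, (x, y) ∈ E ∨ (y, x) ∈ E}, φ, ⟨?_, ?_⟩⟩
  · intro u hu v hv e
    have : u = v := by rw [← h5 u hu, e, h5 v hv]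
    rw [this]
  · intro x y hxy
    rw [h1] at hxy
    obtain ⟨p, q, hne, h, e1, e2⟩ := gr_mp hxy
    exact ⟨p, ⟨q, h⟩, q, ⟨p, h.symm⟩, e1, e2, hne, h⟩

theorem con' (a b : ℕ) (E : List (ℕ × ℕ)) :
    SMinor (gr (mp (ren a b) E)) (gr ((a, b) :: E)) := by
  refine ⟨Set.univ, ren a b, ⟨?_, ?_⟩⟩
  · have key : ∀ v, v ≠ b → ren a b b = ren a b v →
        FR (gr ((a, b) :: E)) Set.univ (ren a b) b v := by
      intro v hv e
      have e' : a = v := by simpa [ren, hv] using e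
      refine ⟨trivial, trivial, e, hv.symm, Or.inr ?_⟩
      rw [← e']
      exact List.mem_cons_self
    intro u _ v _ e
    by_cases hu : u = b <;> by_cases hv : v = b
    · rw [hu, hv]
    · rw [hu] at e ⊢
      exact ReflTransGen.single (key v hv e)
    · rw [hv] at e ⊢
      exact ReflTransGen.single (key u hu e.symm).symm
    · have : u = v := by simpa [ren, hu, hv] using e
      rw [this]
  · intro x y hxy
    obtain ⟨p, q, hne, h, e1, e2⟩ := gr_mp hxy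
    exact ⟨p, trivial, q, trivial, e1, e2, hne,
      h.imp (List.mem_cons_of_mem _) (List.mem_cons_of_mem _)⟩

theorem peel {G : SG} {a b c d : ℕ} (h : ∀ x y, G.A x y → x = a ∨ T3 b c d x)
    (hr : (∀ x y, (G.elim a).A x y → T3 b c d x) → Rd (G.elim a)) : Rd G := by
  have h1 : ∀ x, G.A a x → T3 b c d x := fun x hx =>
    (h x a (G.symm _ _ hx)).resolve_left fun e => G.irr a (e ▸ hx)
  obtain ⟨n, hn⟩ := hr (by
    rintro x y ⟨-, hx, -, hA | hA⟩
    · exact (h x y hA).resolve_left hx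
    · exact h1 x hA.1)
  exact ⟨n + 1, red_elim h1 hn⟩

theorem small' (G : SG) (a b c d : ℕ) (h : ∀ x y, G.A x y → x = a ∨ x = b ∨ x = c ∨ x = d) :
    Rd G := by
  refine peel (a := a) (b := b) (c := c) (d := d) h fun h1 => ?_
  refine peel (a := b) (b := c) (c := d) (d := d) (fun x y hxy => ?_) fun h2 => ?_
  · have := h1 x y hxy
    unfold T3 at *
    omega
  refine peel (a := c) (b := d) (c := d) (d := d) (fun x y hxy => ?_) fun h3 => ?_
  · have := h2 x y hxy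
    unfold T3 at *
    omega
  refine ⟨0, Red.nil _ _ fun x y hxy => ?_⟩
  have e1 := h3 x y hxy
  have e2 := h3 y x (SG.symm _ _ _ hxy)
  have e3 : x ≠ y := hxy.1
  unfold T3 at *
  omega

theorem rd_elim' {G : SG} {v a b c : ℕ} (h : ∀ x, G.A v x → T3 a b c x) :
    Rd G ↔ Rd (G.elim v) := by
  classical
  refine ⟨fun hr => ?_, fun ⟨n, hn⟩ => ⟨n + 1, red_elim h hn⟩⟩
  by_cases hp : ∃ p, G.A v p
  swap
  · refine hr.minor (sminor_of_sub ?_)
    rintro x y ⟨-, -, -, hA | hA⟩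
    · exact hA
    · exact absurd ⟨x, hA.1⟩ hp
  obtain ⟨p, hp⟩ := hp
  have ch : ∀ z, ∃ z', G.A v z' ∧ (G.A v z → z' = z) := by
    intro z
    by_cases hz : G.A v z
    · exact ⟨z, hz, fun _ => rfl⟩
    · exact ⟨p, hp, fun h => absurd h hz⟩
  obtain ⟨a', ha, ha'⟩ := ch a
  obtain ⟨b', hb, hb'⟩ := ch b
  obtain ⟨c', hc, hc'⟩ := ch c
  have t1 : ∀ x, T3 a' b' c' x → G.A v x := by
    rintro x (e | e | e) <;> rw [e] <;> assumption
  have t2 : ∀ x, G.A v x → T3 a' b' c' x := by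
    intro x hx
    rcases h x hx with e | e | e
    · exact Or.inl (by rw [ha' (e ▸ hx), e])
    · exact Or.inr (Or.inl (by rw [hb' (e ▸ hx), e]))
    · exact Or.inr (Or.inr (by rw [hc' (e ▸ hx), e]))
  have hm : SMinor ((G.elim v).dy a' b' c' v) G := by
    refine sminor_of_sub ?_
    rintro x y ⟨-, ⟨⟨-, -, -, hA | hA⟩, hT⟩ | ⟨e, hy⟩ | ⟨e, hx⟩⟩
    · exact hA
    · exact absurd ⟨t2 x hA.1, t2 y hA.2⟩ hT
    · rw [e]
      exact t1 y hy
    · rw [e]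
      exact G.symm _ _ (t1 x hx)
  obtain ⟨n, hn⟩ := hr.minor hm
  exact ⟨n + 1, red_dy (fun x hx => hx.2.1 rfl) (fun hT => G.irr v (t1 v hT)) hn⟩

end A1aux

theorem pA1 : SA1 where
  ext := A1aux.ext'
  trans := A1aux.trans'
  mn := A1aux.mn'
  eqv := A1aux.eqv'
  iso := fun h1 h2 => A1aux.eqv' (A1aux.iso1 h1 h2) (A1aux.iso1 h2 h1)
  con := A1aux.con'
  small := A1aux.small'
  rd_elim := A1aux.rd_elim'

end Pool.Agent.P.MP_5af56b_co.Tor
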