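import Pool.Agent.P.MP_5af56b_co.Tor.Stmt

namespace Pool.Agent.P.MP_5af56b_co.Tor

open Relation

namespace A2aux

theorem sminor_of_map {H G : SG} (g : ℕ → ℕ)
    (hinj : ∀ x y, (∃ z, H.A x z) → (∃ z, H.A y z) → g x = g y → x = y)
    (hA : ∀ x y, H.A x y → G.A (g x) (g y)) : SMinor H G := by
  classical
  let f : ℕ → ℕ := fun u => if h : ∃ x, (∃ z, H.A x z) ∧ g x = u then h.choose else 0
  have hf : ∀ x, (∃ z, H.A x z) → f (g x) = x := by
    intro x hx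
    have h : ∃ x', (∃ z, H.A x' z) ∧ g x' = g x := ⟨x, hx, rfl⟩
    have e : f (g x) = h.choose := dif_pos h
    rw [e]
    exact hinj _ _ h.choose_spec.1 hx h.choose_spec.2
  refine ⟨{u | ∃ x, (∃ z, H.A x z) ∧ g x = u}, f, ⟨?_, ?_⟩⟩
  · rintro u ⟨x, hx, rfl⟩ v ⟨y, hy, rfl⟩ e
    rw [hf x hx, hf y hy] at e
    rw [e]
  · intro x y hxy
    exact ⟨g x, ⟨x, ⟨y, hxy⟩, rfl⟩, g y, ⟨y, ⟨x, H.symm _ _ hxy⟩, rfl⟩, hf x ⟨y, hxy⟩,
      hf y ⟨x, H.symm _ _ hxy⟩, hA x y hxy⟩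

def adj (L : List (ℕ × ℕ)) (x y : ℕ) : Bool :=
  !(Nat.beq x y) && L.any fun e => (Nat.beq e.1 x && Nat.beq e.2 y) || (Nat.beq e.1 y && Nat.beq e.2 x)

theorem adj_iff {L : List (ℕ × ℕ)} {x y : ℕ} : adj L x y = true ↔ (gr L).A x y := by
  show _ ↔ x ≠ y ∧ ((x, y) ∈ L ∨ (y, x) ∈ L)
  simp only [adj, Bool.and_eq_true, Bool.not_eq_true', List.any_eq_true, Bool.or_eq_true,
    Nat.beq_eq]
  constructor
  · rintro ⟨h, ⟨p, q⟩, he, ⟨h1, h2⟩ | ⟨h1, h2⟩⟩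
    · refine ⟨fun e => ?_, Or.inl ?_⟩
      · rw [e, Nat.beq_refl] at h
        exact absurd h (by simp)
      · simp only at h1 h2
        rw [← h1, ← h2]
        exact he
    · refine ⟨fun e => ?_, Or.inr ?_⟩
      · rw [e, Nat.beq_refl] at h
        exact absurd h (by simp)
      · simp only at h1 h2
        rw [← h1, ← h2]
        exact he
  · rintro ⟨h, h1⟩
    refine ⟨?_, ?_⟩
    · cases hb : Nat.beq x y
      · rfl
      · exact absurd (Nat.eq_of_beq_eq_true hb) h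
    · rcases h1 with h1 | h1
      · exact ⟨_, h1, Or.inl ⟨rfl, rfl⟩⟩
      · exact ⟨_, h1, Or.inr ⟨rfl, rfl⟩⟩

def t3 (a b c x : ℕ) : Bool := Nat.beq x a || Nat.beq x b || Nat.beq x c

theorem t3_iff {a b c x : ℕ} : t3 a b c x = true ↔ T3 a b c x := by
  simp only [t3, T3, Bool.or_eq_true, Nat.beq_eq, or_assoc]

def inj (g : List ℕ) : Bool :=
  (List.range 10).all fun x => (List.range 10).all fun y =>
    Nat.beq x y || !(Nat.beq (g.getD x 0) (g.getD y 0))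

theorem inj_spec {g : List ℕ} (h : inj g = true) {x y : ℕ} (hx : x < 10) (hy : y < 10)
    (e : g.getD x 0 = g.getD y 0) : x = y := by
  simp only [inj, List.all_eq_true, List.mem_range, Bool.or_eq_true, Nat.beq_eq,
    Bool.not_eq_true'] at h
  rcases h x hx y hy with h | h
  · exact h
  · rw [e, Nat.beq_refl] at h
    exact absurd h (by simp)

/-- the relabelled graph number `e.1` lies in the relation `R` -/
def ok (R : ℕ → ℕ → Bool) (e : ℕ × List ℕ) : Bool :=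
  Nat.blt e.1 8 && (LL.getD e.1 []).all (fun p => R (e.2.getD p.1 0) (e.2.getD p.2 0)) && inj e.2

theorem lab : ∀ L ∈ LL, ∀ p ∈ L, p.1 < 10 ∧ p.2 < 10 := by decide +kernel

theorem lt10 {L : List (ℕ × ℕ)} (hL : L ∈ LL) {x y : ℕ} (h : (gr L).A x y) : x < 10 := by
  rcases h.2 with h | h
  · exact (lab L hL _ h).1
  · exact (lab L hL _ h).2

theorem getD_mem {j : ℕ} (hj : j < 8) : LL.getD j [] ∈ LL := by
  have hl : j < LL.length := hj
  rw [List.getD_eq_getElem _ _ hl]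
  exact List.getElem_mem hl

theorem ex_idx {L : List (ℕ × ℕ)} (hL : L ∈ LL) : ∃ i, i < 8 ∧ LL.getD i [] = L := by
  obtain ⟨i, hi, rfl⟩ := List.getElem_of_mem hL
  exact ⟨i, hi, List.getD_eq_getElem _ _ hi⟩

theorem ok_bad {R : ℕ → ℕ → Bool} {e : ℕ × List ℕ} (h : ok R e = true) {G : SG} (r : ℕ → ℕ)
    (hR : ∀ p q, R p q = true → G.A (r p) (r q))
    (hr : ∀ p q, (∃ z, R p z = true ∨ R z p = true) → (∃ z, R q z = true ∨ R z q = true) →
      r p = r q → p = q) : Bad G := by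
  simp only [ok, Bool.and_eq_true, Nat.blt_eq, List.all_eq_true] at h
  obtain ⟨⟨h1, h2⟩, h3⟩ := h
  have hL := getD_mem h1
  refine ⟨_, hL, sminor_of_map (fun x => r (e.2.getD x 0)) ?_ ?_⟩
  · have key : ∀ x, (∃ z, (gr (LL.getD e.1 [])).A x z) →
        ∃ z, R (e.2.getD x 0) z = true ∨ R z (e.2.getD x 0) = true := by
      rintro x ⟨z, -, hz | hz⟩
      · exact ⟨_, Or.inl (h2 _ hz)⟩
      · exact ⟨_, Or.inr (h2 _ hz)⟩
    intro x y hx hy hxy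
    exact inj_spec h3 (lt10 hL hx.choose_spec) (lt10 hL hy.choose_spec)
      (hr _ _ (key x hx) (key y hy) hxy)
  · rintro x y ⟨-, hz | hz⟩
    · exact hR _ _ (h2 _ hz)
    · exact G.symm _ _ (hR _ _ (h2 _ hz))

def rD (L : List (ℕ × ℕ)) (x y z p q : ℕ) : Bool :=
  (adj L p q && !(t3 x y z p && t3 x y z q)) || (Nat.beq p 10 && t3 x y z q) ||
    (Nat.beq q 10 && t3 x y z p)

def rE (L : List (ℕ × ℕ)) (x p q : ℕ) : Bool :=
  !(Nat.beq p q) && !(Nat.beq p x) && !(Nat.beq q x) && (adj L p q || (adj L x p && adj L x q))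

def tabD : List (List (ℕ × List ℕ)) :=
  [[],
   [(0, [1, 2, 3, 4, 10, 6, 7, 8, 9, 5])],
   [(1, [11, 1, 6, 8, 5, 7, 10, 9, 3, 4]), (1, [11, 1, 6, 9, 4, 5, 10, 8, 7, 3]), (1, [11, 1, 6, 8, 3, 7, 10, 9, 5, 4]), (1, [11, 1, 6, 8, 3, 4, 10, 9, 5, 7])],
   [(2, [11, 5, 12, 1, 6, 3, 4, 7, 10, 9]), (6, [10, 1, 11, 3, 4, 5, 6, 7, 12, 9]), (2, [11, 5, 12, 1, 4, 3, 6, 7, 10, 9]), (2, [11, 5, 12, 1, 4, 3, 7, 6, 10, 9]), (2, [11, 3, 12, 1, 6, 5, 4, 7, 10, 9]), (2, [11, 3, 12, 1, 4, 5, 6, 7, 10, 9]), (2, [11, 3, 12, 1, 4, 5, 7, 6, 10, 9]), (2, [11, 1, 12, 3, 6, 5, 4, 7, 10, 9]), (2, [11, 1, 12, 3, 4, 5, 6, 7, 10, 9]), (2, [11, 1, 12, 3, 4, 5, 7, 6, 10, 9])],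
   [(2, [11, 1, 12, 5, 7, 9, 10, 8, 4, 3]), (2, [11, 1, 12, 4, 5, 8, 10, 9, 3, 7]), (2, [11, 1, 12, 4, 5, 7, 10, 9, 3, 8]), (2, [11, 1, 12, 3, 7, 9, 10, 8, 4, 5]), (2, [11, 1, 12, 3, 7, 5, 10, 8, 4, 9]), (2, [11, 1, 12, 3, 4, 9, 10, 8, 7, 5]), (2, [11, 1, 12, 3, 4, 9, 10, 7, 8, 5]), (2, [11, 1, 12, 3, 4, 5, 10, 8, 7, 9]), (2, [11, 1, 12, 3, 4, 5, 10, 7, 8, 9])],
   [(3, [11, 5, 12, 6, 1, 7, 3, 4, 13, 10]), (3, [11, 4, 12, 6, 1, 7, 3, 5, 13, 10]), (3, [11, 4, 12, 5, 1, 7, 3, 6, 13, 10]), (3, [11, 4, 12, 5, 1, 6, 3, 7, 13, 10]), (3, [11, 3, 12, 6, 1, 7, 4, 5, 13, 10]), (3, [11, 3, 12, 5, 1, 7, 4, 6, 13, 10]), (3, [11, 3, 12, 5, 1, 6, 4, 7, 13, 10]), (3, [11, 3, 12, 4, 1, 7, 5, 6, 13, 10]), (3, [11, 3, 12, 4, 1, 6, 5, 7, 13, 10]), (3, [11, 3, 12, 4, 1, 5, 6, 7, 13, 10]), (3, [11, 1, 12, 6, 3, 7, 4, 5, 13, 10]), (3, [11, 1, 12, 5, 3, 7, 4, 6, 13, 10]), (3, [11, 1, 12, 5, 3, 6, 4, 7, 13,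 10]), (3, [11, 1, 12, 4, 3, 7, 5, 6, 13, 10]), (3, [11, 1, 12, 4, 3, 6, 5, 7, 13, 10]), (3, [11, 1, 12, 4, 3, 5, 6, 7, 13, 10]), (3, [11, 1, 12, 3, 4, 7, 5, 6, 13, 10]), (3, [11, 1, 12, 3, 4, 6, 5, 7, 13, 10]), (3, [11, 1, 12, 3, 4, 5, 6, 7, 13, 10]), (3, [11, 1, 12, 3, 5, 4, 6, 7, 13, 10])],
   [],
   []]

def tabE : List (List (ℕ × List ℕ)) :=
  [[(1, [11, 1, 2, 3, 4, 5, 6, 7, 8, 9]), (1, [11, 0, 4, 3, 2, 6, 5, 9, 8, 7]), (1, [11, 1, 0, 4, 3, 7, 6, 5, 9, 8]), (1, [11, 2, 1, 0, 4, 8, 7, 6, 5, 9]), (1, [11, 0, 1, 2, 3, 9, 5, 6, 7, 8]), (1, [11, 0, 1, 2, 7, 8, 4, 6, 3, 9]), (1, [11, 1, 0, 5, 8, 9, 2, 4, 7, 3]), (1, [11, 2, 1, 0, 5, 9, 3, 6, 4, 8]), (1, [11, 3, 2, 7, 5, 6, 4, 1, 9, 0]), (1, [11, 4, 0, 1, 6, 7, 3, 5, 2, 8])],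
   [(1, [11, 1, 2, 3, 4, 5, 6, 7, 8, 9]), (2, [11, 1, 12, 3, 4, 5, 6, 7, 8, 9]), (2, [11, 4, 12, 1, 2, 8, 9, 5, 6, 7]), (2, [11, 1, 12, 4, 5, 8, 2, 9, 3, 7]), (2, [11, 5, 12, 1, 2, 9, 8, 4, 6, 3]), (2, [11, 5, 12, 1, 4, 3, 7, 6, 2, 9]), (2, [11, 4, 12, 1, 5, 7, 3, 6, 2, 8])],
   [(2, [11, 1, 12, 3, 4, 5, 6, 7, 8, 9]), (2, [11, 1, 12, 3, 4, 5, 6, 7, 8, 9]), (4, [11, 1, 12, 3, 4, 5, 13, 7, 8, 9]), (3, [11, 1, 12, 3, 4, 5, 6, 7, 13, 9]), (3, [11, 1, 12, 4, 3, 7, 5, 6, 13, 8])],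
   [(3, [11, 1, 12, 3, 4, 5, 6, 7, 13, 9]), (3, [11, 1, 12, 3, 4, 5, 6, 7, 13, 9]), (3, [11, 1, 12, 3, 4, 5, 6, 7, 13, 9]), (5, [11, 1, 12, 3, 4, 5, 6, 7, 13, 14])],
   [(4, [11, 1, 12, 3, 4, 5, 13, 7, 8, 9]), (4, [11, 1, 12, 3, 4, 5, 13, 7, 8, 9]), (4, [11, 1, 12, 3, 4, 5, 13, 7, 8, 9])],
   [(5, [11, 1, 12, 3, 4, 5, 6, 7, 13, 14]), (5, [11, 1, 12, 3, 4, 5, 6, 7, 13, 14]), (5, [11, 1, 12, 3, 4, 5, 6, 7, 13, 14]), (5, [11, 1, 12, 3, 4, 5, 6, 7, 13, 14])],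
   [(3, [11, 1, 12, 3, 4, 5, 6, 7, 13, 9]), (6, [0, 1, 11, 3, 4, 5, 6, 7, 12, 9]), (6, [0, 1, 11, 3, 4, 5, 6, 7, 12, 9]), (3, [11, 4, 12, 6, 1, 7, 3, 5, 13, 0])],
   []]

def chkD (i : ℕ) : Bool :=
  (List.range 10).all fun x => (List.range 10).all fun y => !(adj (LL.getD i []) x y) ||
    (List.range 10).all fun z => !(adj (LL.getD i []) y z && adj (LL.getD i []) z x) ||
      (tabD.getD i []).any (ok (rD (LL.getD i []) x y z))

def nbs (L : List (ℕ × ℕ)) (x : ℕ) : List ℕ := (List.range 10).filter (adj L x)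

def chkE (i : ℕ) : Bool :=
  (List.range 10).all fun x => Nat.ble 4 (nbs (LL.getD i []) x).length ||
    (tabE.getD i []).any (ok (rE (LL.getD i []) x))

theorem chkD_all : ∀ i < 8, chkD i = true := by decide +kernel

theorem chkE_all : ∀ i < 8, chkE i = true := by decide +kernel

theorem beq_false {x y : ℕ} (h : Nat.beq x y = false) : x ≠ y := fun e => by
  rw [e, Nat.beq_refl] at h
  exact absurd h (by simp)

theorem bad_elim {L : List (ℕ × ℕ)} (hL : L ∈ LL) {x a b c : ℕ}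
    (h : ∀ y, (gr L).A x y → T3 a b c y) : Bad ((gr L).elim x) := by
  by_cases hx : x < 10
  swap
  · refine ⟨L, hL, sminor_of_sub fun p q hpq => ⟨hpq.1, ?_, ?_, Or.inl hpq⟩⟩
    · exact fun e => hx (e ▸ lt10 hL hpq)
    · exact fun e => hx (e ▸ lt10 hL ((gr L).symm _ _ hpq))
  obtain ⟨i, hi, rfl⟩ := ex_idx hL
  have hc := chkE_all i hi
  simp only [chkE, List.all_eq_true, List.mem_range, Bool.or_eq_true, Nat.ble_eq,
    List.any_eq_true] at hc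
  rcases hc x hx with hc | ⟨e, -, he⟩
  · exfalso
    have hn : (nbs (LL.getD i []) x).Nodup := List.nodup_range.filter _
    have hs : nbs (LL.getD i []) x ⊆ [a, b, c] := by
      intro y hy
      have := h y (adj_iff.1 (List.mem_filter.1 hy).2)
      simpa [T3] using this
    have := (List.subperm_of_subset hn hs).length_le
    simp only [List.length_cons, List.length_nil] at this
    omega
  · refine ok_bad he id (fun p q hpq => ?_) (fun p q _ _ e => e)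
    simp only [rE, Bool.and_eq_true, Bool.not_eq_true', Bool.or_eq_true, adj_iff] at hpq
    exact ⟨beq_false hpq.1.1.1, beq_false hpq.1.1.2, beq_false hpq.1.2, hpq.2⟩

theorem bad_dy {L : List (ℕ × ℕ)} (hL : L ∈ LL) {x y z w : ℕ} (h1 : ∀ p, ¬ (gr L).A w p)
    (hw : ¬ T3 x y z w) : Bad ((gr L).dy x y z w) := by
  have h2 : ∀ p q, (gr L).A p q → ¬ (T3 x y z p ∧ T3 x y z q) → ((gr L).dy x y z w).A p q :=
    fun p q hpq hT => ⟨hpq.1, Or.inl ⟨hpq, hT⟩⟩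
  have h3 : ∀ p, T3 x y z p → ((gr L).dy x y z w).A w p :=
    fun p hp => ⟨fun e => hw (e ▸ hp), Or.inr (Or.inl ⟨rfl, hp⟩)⟩
  have M : Model (gr L) (gr L) Set.univ id := by
    refine ⟨fun u _ v _ e => ?_, fun p q hpq => ⟨p, trivial, q, trivial, rfl, rfl, hpq⟩⟩
    have : u = v := e
    rw [this]
  have irr : ∀ p, ¬ (gr L).A p p := (gr L).irr
  have sy : ∀ p q, (gr L).A p q → (gr L).A q p := (gr L).symm
  by_cases hxy : (gr L).A x y
  swap
  · refine ⟨L, hL, sminor_center M h1 h2 h3 (p := z) (Or.inr (Or.inr rfl)) trivial ?_⟩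
    rintro s t (rfl | rfl | rfl) (rfl | rfl | rfl) - - hA <;>
      first
        | exact Or.inl rfl
        | exact Or.inr rfl
        | exact absurd hA (irr _)
        | exact absurd hA hxy
        | exact absurd (sy _ _ hA) hxy
  by_cases hyz : (gr L).A y z
  swap
  · refine ⟨L, hL, sminor_center M h1 h2 h3 (p := x) (Or.inl rfl) trivial ?_⟩
    rintro s t (rfl | rfl | rfl) (rfl | rfl | rfl) - - hA <;>
      first
        | exact Or.inl rfl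
        | exact Or.inr rfl
        | exact absurd hA (irr _)
        | exact absurd hA hyz
        | exact absurd (sy _ _ hA) hyz
  by_cases hzx : (gr L).A z x
  swap
  · refine ⟨L, hL, sminor_center M h1 h2 h3 (p := y) (Or.inr (Or.inl rfl)) trivial ?_⟩
    rintro s t (rfl | rfl | rfl) (rfl | rfl | rfl) - - hA <;>
      first
        | exact Or.inl rfl
        | exact Or.inr rfl
        | exact absurd hA (irr _)
        | exact absurd hA hzx
        | exact absurd (sy _ _ hA) hzx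
  have hx := lt10 hL hxy
  have hy := lt10 hL hyz
  have hz := lt10 hL hzx
  have hT10 : ∀ p, T3 x y z p → p ≠ 10 := by
    rintro p (rfl | rfl | rfl) <;> omega
  obtain ⟨i, hi, rfl⟩ := ex_idx hL
  have hc := chkD_all i hi
  simp only [chkD, List.all_eq_true, List.mem_range, Bool.or_eq_true, Bool.not_eq_true',
    List.any_eq_true] at hc
  rcases hc x hx y hy with hc | hc
  · rw [adj_iff.2 hxy] at hc
    exact absurd hc (by simp)
  rcases hc z hz with hc | ⟨e, -, he⟩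
  · rw [adj_iff.2 hyz, adj_iff.2 hzx] at hc
    exact absurd hc (by simp)
  have hR : ∀ p q, rD (LL.getD i []) x y z p q = true →
      ((gr (LL.getD i [])).A p q ∧ ¬ (T3 x y z p ∧ T3 x y z q)) ∨ (p = 10 ∧ T3 x y z q) ∨
        (q = 10 ∧ T3 x y z p) := by
    intro p q hpq
    simp only [rD, Bool.and_eq_true, Bool.not_eq_true', Bool.or_eq_true, adj_iff, Nat.beq_eq,
      t3_iff] at hpq
    rcases hpq with (⟨k1, k2⟩ | k) | k
    · refine Or.inl ⟨k1, fun hT => ?_⟩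
      rw [t3_iff.2 hT.1, t3_iff.2 hT.2] at k2
      exact absurd k2 (by simp)
    · exact Or.inr (Or.inl k)
    · exact Or.inr (Or.inr k)
  have hne : ∀ p, (∃ q, rD (LL.getD i []) x y z p q = true ∨ rD (LL.getD i []) x y z q p = true) →
      p ≠ 10 → p ≠ w := by
    rintro p ⟨q, k | k⟩ hp e
    · rcases hR _ _ k with k | k | k
      · exact h1 q (e ▸ k.1)
      · exact hp k.1
      · exact hw (e ▸ k.2)
    · rcases hR _ _ k with k | k | k
      · exact h1 q (e ▸ sy _ _ k.1)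
      · exact hw (e ▸ k.2)
      · exact hp k.1
  refine ok_bad he (fun p => if p = 10 then w else p) (fun p q hpq => ?_) (fun p q hp hq e => ?_)
  · rcases hR p q hpq with k | k | k
    · have b1 := lt10 hL k.1
      have b2 := lt10 hL (sy _ _ k.1)
      rw [if_neg (by omega), if_neg (by omega)]
      exact h2 p q k.1 k.2
    · rw [if_pos k.1, if_neg (hT10 q k.2)]
      exact h3 q k.2
    · rw [if_pos k.1, if_neg (hT10 p k.2)]
      exact SG.symm _ _ _ (h3 p k.2)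
  · by_cases b1 : p = 10 <;> by_cases b2 : q = 10
    · rw [b1, b2]
    · rw [if_pos b1, if_neg b2] at e
      exact absurd e.symm (hne q hq b2)
    · rw [if_neg b1, if_pos b2] at e
      exact absurd e (hne p hp b1)
    · rwa [if_neg b1, if_neg b2] at e

theorem minor_elim {H G G' : SG} {U : Set ℕ} {f : ℕ → ℕ} (M : Model H G U f) {v a b c : ℕ}
    (h1 : ∀ x, G.A v x → T3 a b c x) (h2 : ∀ x y, G.A x y → x ≠ v → y ≠ v → G'.A x y)
    (h3 : ∀ x y, G.A v x → G.A v y → x ≠ y → G'.A x y) :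
    SMinor H G' ∨ ∃ x p q r, (∀ y, H.A x y → T3 p q r y) ∧ SMinor (H.elim x) G' := by
  classical
  by_cases hv : v ∈ U
  swap
  · refine Or.inl ⟨U, f, ⟨?_, ?_⟩⟩
    · intro u hu u' hu' e
      refine (rtg_fib (s := FR G' U f) id (M.conn u hu u' hu' e) ?_).2
      rintro s t ⟨hs, ht, hst, hA⟩ -
      exact ReflTransGen.single
        ⟨hs, ht, hst, h2 s t hA (fun e => hv (e ▸ hs)) (fun e => hv (e ▸ ht))⟩
    · intro x y hxy
      obtain ⟨s, hs, t, ht, e1, e2, hA⟩ := M.edge x y hxy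
      exact ⟨s, hs, t, ht, e1, e2, h2 s t hA (fun e => hv (e ▸ hs)) (fun e => hv (e ▸ ht))⟩
  set U' : Set ℕ := {x | x ∈ U ∧ x ≠ v} with hU'
  by_cases hn : ∃ u0 ∈ U, f u0 = f v ∧ G.A v u0
  · obtain ⟨u0, hu0, e0, hA0⟩ := hn
    have hu0v : u0 ≠ v := fun e => G.irr v (e ▸ hA0)
    set g : ℕ → ℕ := fun x => if x = v then u0 else x with hg
    have hgv : g v = u0 := by simp [hg]
    have hgx : ∀ x, x ≠ v → g x = x := fun x hx => by simp [hg, hx]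
    have hstep : ∀ t, FR G U f v t → ReflTransGen (FR G' U' f) u0 t := by
      rintro t ⟨-, ht, hst, hA⟩
      have htv : t ≠ v := fun e => G.irr v (e ▸ hA)
      by_cases e : u0 = t
      · rw [e]
      · exact ReflTransGen.single ⟨⟨hu0, hu0v⟩, ⟨ht, htv⟩, e0.trans hst, h3 u0 t hA0 hA e⟩
    refine Or.inl ⟨U', f, ⟨?_, ?_⟩⟩
    · rintro u ⟨hu, huv⟩ u' ⟨hu', huv'⟩ e
      have := (rtg_fib (s := FR G' U' f) g (M.conn u hu u' hu' e) ?_).2
      · rwa [hgx u huv, hgx u' huv'] at this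
      intro s t hst _
      by_cases hsv : s = v
      · subst hsv
        have htv : t ≠ s := fun e => G.irr s (e ▸ hst.2.2.2)
        rw [hgv, hgx t htv]
        exact hstep t hst
      · by_cases htv : t = v
        · subst htv
          rw [hgv, hgx s hsv]
          exact rtg_symm (fun _ _ => FR.symm) (hstep s hst.symm)
        · rw [hgx s hsv, hgx t htv]
          exact ReflTransGen.single
            ⟨⟨hst.1, hsv⟩, ⟨hst.2.1, htv⟩, hst.2.2.1, h2 s t hst.2.2.2 hsv htv⟩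
    · intro x y hxy
      obtain ⟨s, hs, t, ht, e1, e2, hA⟩ := M.edge x y hxy
      have hne : x ≠ y := fun e => H.irr x (e ▸ hxy)
      by_cases hsv : s = v
      · subst hsv
        have htv : t ≠ s := fun e => G.irr s (e ▸ hA)
        refine ⟨u0, ⟨hu0, hu0v⟩, t, ⟨ht, htv⟩, e0.trans e1, e2, h3 u0 t hA0 hA ?_⟩
        intro e
        exact hne (by rw [← e1, ← e2, ← e, e0])
      · by_cases htv : t = v
        · subst htv
          refine ⟨s, ⟨hs, hsv⟩, u0, ⟨hu0, hu0v⟩, e1, e0.trans e2,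
            h3 s u0 (G.symm _ _ hA) hA0 ?_⟩
          intro e
          exact hne (by rw [← e1, ← e2, e, e0])
        · exact ⟨s, ⟨hs, hsv⟩, t, ⟨ht, htv⟩, e1, e2, h2 s t hA hsv htv⟩
  · have hn' : ∀ t, ¬ FR G U f v t := fun t ht => hn ⟨t, ht.2.1, ht.2.2.1.symm, ht.2.2.2⟩
    have hsing : ∀ u ∈ U, f u = f v → u = v := by
      intro u hu e
      rcases (M.conn v hv u hu e.symm).cases_head with h | ⟨t, ht, -⟩
      · exact h.symm
      · exact absurd ht (hn' t)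
    have hnb : ∀ y, H.A (f v) y → ∃ t ∈ U, f t = y ∧ G.A v t := by
      intro y hy
      obtain ⟨s, hs, t, ht, e1, e2, hA⟩ := M.edge _ _ hy
      exact ⟨t, ht, e2, hsing s hs e1 ▸ hA⟩
    refine Or.inr ⟨f v, f a, f b, f c, ?_, U', f, ⟨?_, ?_⟩⟩
    · intro y hy
      obtain ⟨t, -, rfl, hA⟩ := hnb y hy
      rcases h1 t hA with h | h | h
      · exact Or.inl (by rw [h])
      · exact Or.inr (Or.inl (by rw [h]))
      · exact Or.inr (Or.inr (by rw [h]))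
    · rintro u ⟨hu, -⟩ u' ⟨hu', -⟩ e
      refine (rtg_fib (s := FR G' U' f) id (M.conn u hu u' hu' e) ?_).2
      intro s t hst _
      have hsv : s ≠ v := fun e => hn' t (e ▸ hst)
      have htv : t ≠ v := fun e => hn' s (e ▸ hst.symm)
      exact ReflTransGen.single
        ⟨⟨hst.1, hsv⟩, ⟨hst.2.1, htv⟩, hst.2.2.1, h2 s t hst.2.2.2 hsv htv⟩
    · rintro x y ⟨hxy, hx, hy, hA | ⟨hA1, hA2⟩⟩
      · obtain ⟨s, hs, t, ht, rfl, rfl, hB⟩ := M.edge x y hA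
        have hsv : s ≠ v := fun e => hx (by rw [e])
        have htv : t ≠ v := fun e => hy (by rw [e])
        exact ⟨s, ⟨hs, hsv⟩, t, ⟨ht, htv⟩, rfl, rfl, h2 s t hB hsv htv⟩
      · obtain ⟨s, hs, rfl, hB1⟩ := hnb x hA1
        obtain ⟨t, ht, rfl, hB2⟩ := hnb y hA2
        have hsv : s ≠ v := fun e => hx (by rw [e])
        have htv : t ≠ v := fun e => hy (by rw [e])
        exact ⟨s, ⟨hs, hsv⟩, t, ⟨ht, htv⟩, rfl, rfl,
          h3 s t hB1 hB2 (fun e => hxy (by rw [e]))⟩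

theorem minor_dy {H G G' : SG} {U : Set ℕ} {f : ℕ → ℕ} (M : Model H G U f) {a b c w : ℕ}
    (h1 : ∀ x, ¬ G.A w x) (h2 : ∀ x y, G.A x y → ¬ (T3 a b c x ∧ T3 a b c y) → G'.A x y)
    (h3 : ∀ x, T3 a b c x → G'.A w x) :
    SMinor H G' ∨ ∃ p q r z, (∀ x, ¬ H.A z x) ∧ ¬ T3 p q r z ∧ SMinor (H.dy p q r z) G' := by
  classical
  by_cases hc : ∃ p, T3 a b c p ∧ p ∈ U ∧ ∀ s t, T3 a b c s → T3 a b c t → s ∈ U → t ∈ U →
      G.A s t → f s = f p ∨ f t = f p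
  · obtain ⟨p, hp, hpU, hc⟩ := hc
    exact Or.inl (sminor_center M h1 h2 h3 hp hpU hc)
  by_cases hT : ∃ p, T3 a b c p ∧ p ∈ U
  swap
  · have hT' : ∀ s t, s ∈ U → ¬ (T3 a b c s ∧ T3 a b c t) := fun s t hs h => hT ⟨s, h.1, hs⟩
    refine Or.inl ⟨U, f, ⟨?_, ?_⟩⟩
    · intro u hu u' hu' e
      refine (rtg_fib (s := FR G' U f) id (M.conn u hu u' hu' e) ?_).2
      rintro s t ⟨hs, ht, hst, hA⟩ -
      exact ReflTransGen.single ⟨hs, ht, hst, h2 s t hA (hT' s t hs)⟩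
    · intro x y hxy
      obtain ⟨s, hs, t, ht, e1, e2, hA⟩ := M.edge x y hxy
      exact ⟨s, hs, t, ht, e1, e2, h2 s t hA (hT' s t hs)⟩
  have hall : (∀ s, T3 a b c s → s ∈ U) ∧
      ∀ s t, T3 a b c s → T3 a b c t → f s = f t → s = t := by
    push Not at hc
    obtain ⟨p, hp, hpU⟩ := hT
    obtain ⟨s, t, hs, ht, hsU, htU, hA, e1, e2⟩ := hc p hp hpU
    have hst : s ≠ t := fun e => G.irr s (e ▸ hA)
    have hsp : s ≠ p := fun e => e1 (by rw [e])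
    have htp : t ≠ p := fun e => e2 (by rw [e])
    have hall : ∀ z, T3 a b c z → z = p ∨ z = s ∨ z = t := by
      intro z hz
      unfold T3 at *
      omega
    have hfst : f s ≠ f t := by
      intro e
      obtain ⟨s', t', hs', ht', -, -, hA', e1', e2'⟩ := hc s hs hsU
      have hst' : s' ≠ t' := fun e => G.irr s' (e ▸ hA')
      rcases hall s' hs' with h | h | h
      · rcases hall t' ht' with h' | h' | h'
        · exact hst' (h.trans h'.symm)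
        · exact e2' (by rw [h'])
        · exact e2' (by rw [h', e])
      · exact e1' (by rw [h])
      · exact e1' (by rw [h, e])
    refine ⟨fun z hz => ?_, fun y z hy hz e => ?_⟩
    · rcases hall z hz with h | h | h <;> rw [h] <;> assumption
    · rcases hall y hy with h | h | h <;> rcases hall z hz with h' | h' | h' <;>
        subst h <;> subst h' <;> first | rfl | (exfalso; omega)
  obtain ⟨N, hN⟩ := H.bdd
  set w' : ℕ := N + f a + f b + f c + 1 with hw'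
  have hTw : ∀ x, T3 a b c x → x ≠ w := fun x hx e => G'.irr w (e ▸ h3 x hx)
  have hAw : ∀ x y, G.A x y → x ≠ w ∧ y ≠ w := fun x y hxy =>
    ⟨fun e => h1 y (e ▸ hxy), fun e => h1 x (e ▸ G.symm _ _ hxy)⟩
  set f' : ℕ → ℕ := fun x => if x = w then w' else f x with hf'
  have hfw : f' w = w' := by simp [hf']
  have hfx : ∀ x, x ≠ w → f' x = f x := fun x hx => by simp [hf', hx]
  set U' : Set ℕ := {x | (x ∈ U ∧ x ≠ w ∧ f x ≠ w') ∨ x = w} with hU'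
  have hwU : w ∈ U' := Or.inr rfl
  have hTf : ∀ y, T3 (f a) (f b) (f c) y → ∃ t, T3 a b c t ∧ f t = y := by
    rintro y (h | h | h)
    · exact ⟨a, Or.inl rfl, h.symm⟩
    · exact ⟨b, Or.inr (Or.inl rfl), h.symm⟩
    · exact ⟨c, Or.inr (Or.inr rfl), h.symm⟩
  have hTf' : ∀ t, T3 a b c t → T3 (f a) (f b) (f c) (f t) := by
    rintro t (h | h | h)
    · exact Or.inl (by rw [h])
    · exact Or.inr (Or.inl (by rw [h]))
    · exact Or.inr (Or.inr (by rw [h]))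
  have hw'T : ¬ T3 (f a) (f b) (f c) w' := by
    unfold T3
    omega
  have hTU : ∀ t, T3 a b c t → t ∈ U' := fun t ht =>
    Or.inl ⟨hall.1 t ht, hTw t ht, fun e => hw'T (e ▸ hTf' t ht)⟩
  refine Or.inr ⟨f a, f b, f c, w', ?_, hw'T, U', f', ⟨?_, ?_⟩⟩
  · intro x hx
    have := hN _ _ hx
    omega
  · rintro u (⟨hu, huw, huw'⟩ | hu) u' (⟨hu', huw2, huw2'⟩ | hu') e
    · rw [hfx u huw, hfx u' huw2] at e
      refine (rtg_fib (s := FR G' U' f') id (M.conn u hu u' hu' e) ?_).2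
      rintro s t ⟨hs, ht, hst, hA⟩ hsu
      obtain ⟨hsw, htw⟩ := hAw _ _ hA
      refine ReflTransGen.single ⟨Or.inl ⟨hs, hsw, by simp only [id]; rw [hsu]; exact huw'⟩,
        Or.inl ⟨ht, htw, by simp only [id]; rw [← hst, hsu]; exact huw'⟩,
        by simp only [id]; rw [hfx s hsw, hfx t htw, hst], h2 s t hA ?_⟩
      rintro ⟨a1, a2⟩
      have := hall.2 s t a1 a2 hst
      exact G.irr s (this ▸ hA)
    · rw [hu', hfw, hfx u huw] at e
      exact absurd e huw'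
    · rw [hu, hfw, hfx u' huw2] at e
      exact absurd e.symm huw2'
    · rw [hu, hu']
  · rintro x y ⟨hxy, ⟨hA, hT'⟩ | ⟨rfl, hy⟩ | ⟨rfl, hx⟩⟩
    · obtain ⟨s, hs, t, ht, rfl, rfl, hB⟩ := M.edge x y hA
      obtain ⟨hsw, htw⟩ := hAw _ _ hB
      have b1 := hN _ _ hA
      have b2 := hN _ _ (H.symm _ _ hA)
      exact ⟨s, Or.inl ⟨hs, hsw, by omega⟩, t, Or.inl ⟨ht, htw, by omega⟩, hfx s hsw, hfx t htw,
        h2 s t hB fun h => hT' ⟨hTf' s h.1, hTf' t h.2⟩⟩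
    · obtain ⟨t, ht, rfl⟩ := hTf y hy
      exact ⟨w, hwU, t, hTU t ht, hfw, hfx t (hTw t ht), h3 t ht⟩
    · obtain ⟨t, ht, rfl⟩ := hTf x hx
      exact ⟨t, hTU t ht, w, hwU, hfx t (hTw t ht), hfw, G'.symm _ _ (h3 t ht)⟩

theorem badE (a1 : SA1) {G G' : SG} {v a b c : ℕ}
    (h1 : ∀ x, G.A v x → T3 a b c x) (h2 : ∀ x y, G.A x y → x ≠ v → y ≠ v → G'.A x y)
    (h3 : ∀ x y, G.A v x → G.A v y → x ≠ y → G'.A x y) (h : Bad G) : Bad G' := by
  obtain ⟨L, hL, U, f, M⟩ := h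
  rcases minor_elim M h1 h2 h3 with k | ⟨x, p, q, r, k1, k2⟩
  · exact ⟨L, hL, k⟩
  · obtain ⟨L', hL', k⟩ := bad_elim hL k1
    exact ⟨L', hL', a1.trans k k2⟩

theorem badD (a1 : SA1) {G G' : SG} {a b c w : ℕ}
    (h1 : ∀ x, ¬ G.A w x) (h2 : ∀ x y, G.A x y → ¬ (T3 a b c x ∧ T3 a b c y) → G'.A x y)
    (h3 : ∀ x, T3 a b c x → G'.A w x) (h : Bad G) : Bad G' := by
  obtain ⟨L, hL, U, f, M⟩ := h
  rcases minor_dy M h1 h2 h3 with k | ⟨p, q, r, z, k1, k2, k3⟩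
  · exact ⟨L, hL, k⟩
  · obtain ⟨L', hL', k⟩ := bad_dy hL k1 k2
    exact ⟨L', hL', a1.trans k k3⟩

theorem has_edge : ∀ L ∈ LL, ∃ p ∈ L, p.1 ≠ p.2 := by decide +kernel

theorem red_not_bad (a1 : SA1) {n : ℕ} {G : SG} (h : Red n G) : ¬ Bad G := by
  induction h with
  | nil n G h =>
    rintro ⟨L, hL, U, f, M⟩
    obtain ⟨p, hp, hne⟩ := has_edge L hL
    obtain ⟨u, -, v, -, -, -, hA⟩ := M.edge p.1 p.2 ⟨hne, Or.inl hp⟩
    exact h u v hA
  | elim n G G' v a b c h1 h2 h3 _ ih => exact fun hb => ih (badE a1 h1 h2 h3 hb)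
  | dy n G G' a b c w h1 h2 h3 _ ih => exact fun hb => ih (badD a1 h1 h2 h3 hb)

theorem bad_of_elim (a1 : SA1) {G : SG} {v a b c : ℕ} (h : ∀ x, G.A v x → T3 a b c x)
    (hb : Bad (G.elim v)) : Bad G := by
  classical
  by_cases hn : ∃ u, G.A v u
  · obtain ⟨u, hu⟩ := hn
    let k : ℕ → ℕ := fun x => if G.A v x then x else u
    have k1 : ∀ x, G.A v (k x) := by
      intro x
      by_cases hx : G.A v x
      · rw [show k x = x from if_pos hx]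
        exact hx
      · rw [show k x = u from if_neg hx]
        exact hu
    have k2 : ∀ x, G.A v x → T3 (k a) (k b) (k c) x := by
      intro x hx
      have e : k x = x := if_pos hx
      rcases h x hx with rfl | rfl | rfl
      · exact Or.inl e.symm
      · exact Or.inr (Or.inl e.symm)
      · exact Or.inr (Or.inr e.symm)
    refine badD a1 (G := G.elim v) (a := k a) (b := k b) (c := k c) (w := v)
      (fun x hx => hx.2.1 rfl) ?_ ?_ hb
    · rintro x y ⟨-, -, -, hA | hA⟩ hT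
      · exact hA
      · exact absurd ⟨k2 x hA.1, k2 y hA.2⟩ hT
    · rintro x (rfl | rfl | rfl) <;> exact k1 _
  · obtain ⟨L, hL, k⟩ := hb
    refine ⟨L, hL, a1.trans k (sminor_of_sub ?_)⟩
    rintro x y ⟨-, -, -, hA | hA⟩
    · exact hA
    · exact absurd ⟨x, hA.1⟩ hn

end A2aux

theorem pA2 (a1 : SA1) : SA2 := by
  refine ⟨fun {G v a b c} h => ⟨a1.rd_elim h, ?_, A2aux.bad_of_elim a1 h⟩,
    fun h => let ⟨_, hn⟩ := h; A2aux.red_not_bad a1 hn⟩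
  refine A2aux.badE a1 h ?_ ?_
  · intro x y hxy hx hy
    exact ⟨fun e => G.irr x (e ▸ hxy), hx, hy, Or.inl hxy⟩
  · intro x y hx hy hxy
    exact ⟨hxy, fun e => G.irr v (e ▸ hx), fun e => G.irr v (e ▸ hy), Or.inr ⟨hx, hy⟩⟩

end Pool.Agent.P.MP_5af56b_co.Tor
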