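import Pool.Agent.P.MP_5af56b_co.Tor.Defs

namespace Pool.Agent.P.MP_5af56b_co.Tor

open Finset

/-- graph layer, easy part -/
structure SA1 : Prop where
  ext : ∀ {G H : SG}, (∀ x y, G.A x y ↔ H.A x y) → G = H
  trans : ∀ {H G K : SG}, SMinor H G → SMinor G K → SMinor H K
  mn : ∀ {G G' : SG}, SMinor G' G → Mn G G'
  eqv : ∀ {G G' : SG}, SMinor G' G → SMinor G G' → Eqv G G'
  iso : ∀ {E E' : List (ℕ × ℕ)} {φ ψ : ℕ → ℕ}, E' = mp φ E → E = mp ψ E' → Eqv (gr E) (gr E')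
  con : ∀ (a b : ℕ) (E : List (ℕ × ℕ)), SMinor (gr (mp (ren a b) E)) (gr ((a, b) :: E))
  small : ∀ (G : SG) (a b c d : ℕ), (∀ x y, G.A x y → x = a ∨ x = b ∨ x = c ∨ x = d) → Rd G
  rd_elim : ∀ {G : SG} {v a b c : ℕ}, (∀ x, G.A v x → T3 a b c x) → (Rd G ↔ Rd (G.elim v))

/-- graph layer, closure of the list -/
structure SA2 : Prop where
  elim : ∀ {G : SG} {v a b c : ℕ}, (∀ x, G.A v x → T3 a b c x) → Eqv G (G.elim v)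
  notRd : ∀ {G : SG}, Rd G → ¬ Bad G

/-- runs -/
structure SB1 : Prop where
  app : ∀ {A B : List Lt} {x z : St} {E : List (ℕ × ℕ)}, Run (A ++ B) x z E ↔
    ∃ y E1 E2, Run A x y E1 ∧ Run B y z E2 ∧ E = E1 ++ E2
  okl : ∀ {W x z E}, Run W x z E → x.Ok
  okr : ∀ {W x z E}, Run W x z E → z.Ok
  wn : ∀ {W x z E}, Run W x z E → z.n = x.n + dn W
  wc : ∀ {W x z E}, Run W x z E → z.c = (x.c + dc W) % 2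
  len : ∀ {W x z E}, Run W x z E → E.length = cr W
  val : ∀ {W x z E}, Run W x z E → Val x.n W
  ext : ∀ {x y : St}, x.Ok → y.Ok → x.n = y.n → x.c = y.c →
    (∀ j, 0 ≤ j → j ≤ x.n → x.b j = y.b j) → x = y
  per : ∀ {x : St}, x.Ok → ∀ {i j : ℤ}, x.n ∣ i - j → x.b i = x.b j
  map2 : ∀ (φ ψ : ℕ → ℕ) {W x z E}, Run W x z E → Run W (x.mp2 φ ψ) (z.mp2 φ ψ) (mp φ E)
  ofF : ∀ {n c : ℤ} (f : ℤ → ℕ), 0 ≤ n → n % 2 = 0 → (c = 0 ∨ c = 1) → f n = f 0 →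
    (St.ofF n c f).Ok ∧ ∀ j, 0 ≤ j → j ≤ n → (St.ofF n c f).b j = f j
  ex_s : ∀ {x : St}, x.Ok → 2 ≤ x.n → ∀ (i : ℤ) (v : ℕ), ∃ y : St, y.Ok ∧ y.n = x.n ∧ y.c = x.c ∧
    y.b i = v ∧ ∀ j, ¬ x.n ∣ j - i → y.b j = x.b j
  ex_t : ∀ {x : St}, x.Ok → 2 ≤ x.n → ∀ k : ℤ, ∃ y : St, y.Ok ∧ Stp (.t k) x y []
  ex_u : ∀ {x : St}, x.Ok → ∀ (i : ℤ) (v : ℕ), 0 ≤ i → i ≤ x.n →
    ∃ y : St, y.Ok ∧ Stp (.u i) x y [] ∧ y.b (i + 1) = v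
  ex_d : ∀ {x : St}, x.Ok → ∀ i : ℤ, 0 ≤ i → i + 2 ≤ x.n → x.b i = x.b (i + 2) →
    ∃ y : St, y.Ok ∧ Stp (.d i) x y []
  ex_cl : ∀ {n c : ℤ} {W : List Lt}, 0 ≤ n → n % 2 = 0 → (c = 0 ∨ c = 1) → Val n W → dn W = 0 →
    dc W % 2 = 0 → ∃ E, Cl n c W E
  cr_app : ∀ A B : List Lt, cr (A ++ B) = cr A + cr B
  nt_app : ∀ A B : List Lt, nt (A ++ B) = nt A + nt B
  dn_app : ∀ A B : List Lt, dn (A ++ B) = dn A + dn B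
  dc_app : ∀ A B : List Lt, dc (A ++ B) = dc A + dc B
  dn_even : ∀ A : List Lt, dn A % 2 = 0
  val_app : ∀ (n : ℤ) (A B : List Lt), Val n (A ++ B) ↔ Val n A ∧ Val (n + dn A) B
  val_nn : ∀ {n : ℤ} {A : List Lt}, 0 ≤ n → Val n A → 0 ≤ n + dn A
  pl_app : ∀ (n : ℤ) (A B : List Lt), Pl n (A ++ B) ↔ Pl n A ∧ Pl (n + dn A) B
  br_dn : ∀ {A : List Lt}, IsBr A → dn A = 0
  br_app : ∀ {A B : List Lt}, IsBr (A ++ B) ↔ IsBr A ∧ IsBr B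
  br_val : ∀ {n : ℤ} {A : List Lt}, 2 ≤ n → IsBr A → Val n A
  z_dn : ∀ (n : ℤ) (ks : List ℕ), dn (Z n ks) = 0
  z_dc : ∀ (n : ℤ) (ks : List ℕ), dc (Z n ks) = wind ks
  z_nt : ∀ (n : ℤ) (ks : List ℕ), nt (Z n ks) = wind ks
  z_pl : ∀ {n : ℤ} (ks : List ℕ), 0 ≤ n → Pl n (Z n ks)
  z_app : ∀ (n : ℤ) (ks ls : List ℕ), Z n (ks ++ ls) = Z n ks ++ Z n ls
  pk_br : ∀ (n : ℤ) (k : ℕ), IsBr (Pk n k)

/-- free labellings and the calculus of relations -/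
structure SB2 : Prop where
  ex_free : ∀ {n c W E}, Cl n c W E → ∃ E', Free n c W E'
  uniq : ∀ {n c W E E'}, Free n c W E → Free n c W E' → Eqv (gr E) (gr E')
  rot : ∀ {A B : List Lt} {x y : St} {E1 E2}, Run A x y E1 → Run B y x E2 →
    Free x.n x.c (A ++ B) (E1 ++ E2) → Free y.n y.c (B ++ A) (E2 ++ E1)
  locC : ∀ {n c : ℤ} {D D' : List Lt} (Θ : List (ℕ × ℕ) → List (ℕ × ℕ)),
    (∀ x y E, x.n = n → x.c = c → Run D x y E → Run D' x y (Θ E)) →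
    (∀ x y E', x.n = n → x.c = c → Run D' x y E' → ∃ E, Run D x y E ∧ Θ E = E') →
    (∀ φ E, Θ (mp φ E) = mp φ (Θ E)) →
    (∀ X x y E Y, x.n = n → x.c = c → Run D x y E → Run X y x Y → Free n c (D ++ X) (E ++ Y) →
      Eqv (gr (E ++ Y)) (gr (Θ E ++ Y))) → RelC Eqv n c D D'
  same : ∀ {n : ℤ} {D D' : List Lt}, dn D = dn D' → cr D = cr D' →
    (∀ x y E, x.n = n → (Run D x y E ↔ Run D' x y E)) → Eqw n D D'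
  relC_symm : ∀ {n c D D'}, RelC Eqv n c D D' → RelC Eqv n c D' D
  relC_trans : ∀ {n c D D' D''}, RelC Eqv n c D D' → RelC Eqv n c D' D'' → RelC Eqv n c D D''
  relC_ctx : ∀ {R : SG → SG → Prop} {n c : ℤ} {D D' : List Lt} (A C : List Lt), (c = 0 ∨ c = 1) →
    RelC R (n + dn A) ((c + dc A) % 2) D D' → RelC R n c (A ++ D ++ C) (A ++ D' ++ C)
  ctx : ∀ {R : SG → SG → Prop} {n : ℤ} {D D' : List Lt} (A C : List Lt),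
    Rel R (n + dn A) D D' → Rel R n (A ++ D ++ C) (A ++ D' ++ C)
  vac : ∀ {R : SG → SG → Prop} {n : ℤ} {D D' : List Lt}, dn D = dn D' →
    ¬ Val n D → ¬ Val n D' → Rel R n D D'
  rel_trans : ∀ {n D D' D''}, Rel Eqv n D D' → Rel Eqv n D' D'' → Rel Eqv n D D''
  refl : ∀ n D, Eqw n D D
  symm : ∀ {n D D'}, Eqw n D D' → Eqw n D' D
  trans : ∀ {n D D' D''}, Eqw n D D' → Eqw n D' D'' → Eqw n D D''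
  ectx : ∀ {n : ℤ} {D D' : List Lt} (A C : List Lt),
    Eqw (n + dn A) D D' → Eqw n (A ++ D ++ C) (A ++ D' ++ C)
  mn_of : ∀ {n D D'}, Rel Eqv n D D' → Mnw n D D'
  mrefl : ∀ n D, Mnw n D D
  mtrans : ∀ {n D D' D''}, Mnw n D D' → Mnw n D' D'' → Mnw n D D''
  mctx : ∀ {n : ℤ} {D D' : List Lt} (A C : List Lt),
    Mnw (n + dn A) D D' → Mnw n (A ++ D ++ C) (A ++ D' ++ C)
  rctx : ∀ {n : ℤ} {D : List Lt} (A C : List Lt), Rdc (n + dn A) D → Rdc n (A ++ D ++ C)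
  rdc_of : ∀ {n D D'}, Eqw n D D' → Rdc n D' → Rdc n D
  good_of : ∀ {n D D'}, Rel Eqv n D D' → Good n D' → Good n D
  good_rdc : ∀ {n W}, Rdc n W → (∀ W', cr W' < cr W → Good n W') → Good n W
  bad_of : ∀ {n D D'}, Mnw n D D' → BadW n D' → BadW n D
  rd_of : ∀ {n D D'}, Mnw n D D' → RdW n D → RdW n D'
  good_rot : ∀ {n : ℤ} {A B : List Lt}, Good (n + dn A) (B ++ A) → Good n (A ++ B)
  bad_rot : ∀ {n : ℤ} {A B : List Lt}, BadW (n + dn A) (B ++ A) → BadW n (A ++ B)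
  good_bad : ∀ {n W}, BadW n W → Good n W
  good_rd : ∀ {n W}, RdW n W → Good n W

/-- the mirror -/
structure SB3 : Prop where
  mir_app : ∀ A B : List Lt, mir (A ++ B) = mir B ++ mir A
  mir_mir : ∀ A : List Lt, mir (mir A) = A
  cr_mir : ∀ A : List Lt, cr (mir A) = cr A
  dn_mir : ∀ A : List Lt, dn (mir A) = - dn A
  br_mir : ∀ {A : List Lt}, IsBr A → IsBr (mir A)
  rel : ∀ {R : SG → SG → Prop} {n D D'}, Rel R n D D' → Rel R (n + dn D) (mir D) (mir D')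
  eqw : ∀ {n D D'}, Eqw n D D' → Eqw (n + dn D) (mir D) (mir D')
  mnw : ∀ {n D D'}, Mnw n D D' → Mnw (n + dn D) (mir D) (mir D')
  rdc : ∀ {n D}, Rdc n D → Rdc (n + dn D) (mir D)

/-- isotopies, first part -/
structure SC1 : Prop where
  t1 : ∀ n a b : ℤ, Eqw n [.t a, .t b] [.t (a + b)]
  t2 : ∀ {n : ℤ} (x : ℤ), 2 ≤ n → Eqw n [.t (n * x)] []
  t3 : ∀ n k i : ℤ, Eqw n [.t k, .s i] [.s (i - k), .t k]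
  t4 : ∀ {n i j : ℤ}, n ∣ i - j → Eqw n [.s i] [.s j]
  s1 : ∀ {n i j : ℤ}, ¬ n ∣ i - j → ¬ n ∣ i - j - 1 → ¬ n ∣ i - j + 1 →
    Eqw n [.s i, .s j] [.s j, .s i]
  c0 : ∀ {n i : ℤ}, 2 ≤ n → 0 ≤ i → i ≤ n → Eqw n [.u i] [.t (-i), .u 0, .t i]
  c1 : ∀ {n i : ℤ}, 1 ≤ i → i + 1 ≤ n → Eqw n [.s i, .u 0] [.u 0, .s (i + 2)]
  c2 : ∀ {n : ℤ}, 2 ≤ n → Eqw n [.u 0, .s 0] [.t 1, .u 0, .s 2, .t (-1)]

/-- isotopies, second part -/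
structure SC1b : Prop where
  c4a : ∀ {n : ℤ}, 0 ≤ n → Eqw n [.u 0, .d 0] []
  c4b : ∀ {n : ℤ}, 2 ≤ n → Eqw n [.u 0, .t 1, .d 0] [.t 1]
  c4c : ∀ {n : ℤ}, 2 ≤ n → Eqw n [.u 0, .t (-1), .d 0] [.t (-1)]
  c4d : ∀ {n s : ℤ}, 2 ≤ s → s ≤ n → Eqw n [.u 0, .t s, .d 0] [.d (n - s), .u 0, .t (s - 2)]
  c5 : ∀ {n : ℤ}, 4 ≤ n → Eqw n [.d 0, .t 2, .d 0] [.t 2, .d 0, .d 0]

/-- moves -/
structure SC2 : Prop where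
  s2 : ∀ {n : ℤ} (i : ℤ), 4 ≤ n → Eqw n [.s i, .s (i + 1), .s i] [.s (i + 1), .s i, .s (i + 1)]
  s3 : ∀ n i : ℤ, Rel Eqv n [.s i, .s i] [.s i]
  c3 : ∀ n : ℤ, Rel Eqv n [.u 0, .s 1] [.u 0]

/-- smoothings -/
structure SC3 : Prop where
  sm : ∀ {n c i : ℤ} {X : List Lt} {a b : ℕ} {E : List (ℕ × ℕ)}, Free n c (.s i :: X) ((a, b) :: E) →
    (Free n c X E ∧ Free n c (ee i ++ X) (mp (ren a b) E)) ∨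
    (Free n c X (mp (ren a b) E) ∧ Free n c (ee i ++ X) E)
  mn1 : ∀ {n : ℤ} (i : ℤ), 2 ≤ n → Mnw n [.s i] []
  mn2 : ∀ {n : ℤ} (i : ℤ), 2 ≤ n → Mnw n [.s i] (ee i)
  mn3 : ∀ {n : ℤ}, 2 ≤ n → Mnw n [.s 1] [.d 0, .u 0]

/-- minors of closed words -/
def SJ : Prop := (∀ n W, Good n W) → ∀ n c W E, Free n c W E → ∀ G, SMinor G (gr E) → GoodG G

/-- affine permutations -/
structure SP : Prop where
  sw_sw : ∀ {n : ℤ} (i j : ℤ), 2 ≤ n → sw n i (sw n i j) = j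
  sw_ap : ∀ {n : ℤ} (i : ℤ), 2 ≤ n → AP n (sw n i)
  sw_congr : ∀ {n i i' : ℤ}, n ∣ i - i' → sw n i = sw n i'
  sw_lt : ∀ {n : ℤ} (i : ℤ) {a b : ℤ}, 2 ≤ n → a < b →
    sw n i a < sw n i b ∨ (b = a + 1 ∧ n ∣ b - i)
  tr_ap : ∀ {n a b : ℤ}, 0 < n → ¬ n ∣ a - b → AP n (tr n a b)
  pw_app : ∀ (n : ℤ) (A B : List Lt) (j : ℤ), pw n (A ++ B) j = pw n B (pw n A j)
  pw_ap : ∀ {n : ℤ} (U : List Lt), 2 ≤ n → AP n (pw n U)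
  pw_mir : ∀ {n : ℤ} (U : List Lt) (j : ℤ), 2 ≤ n → pw n (mir U) (pw n U j) = j
  pw_mir' : ∀ {n : ℤ} (U : List Lt) (j : ℤ), 2 ≤ n → pw n U (pw n (mir U) j) = j
  mul : ∀ {n : ℤ} {w : ℤ → ℤ}, AP n w → ∀ j k, w (j + n * k) = w j + n * k
  dvd : ∀ {n : ℤ} {w : ℤ → ℤ}, AP n w → ∀ i j, n ∣ w i - w j ↔ n ∣ i - j
  ext : ∀ {n : ℤ} {w w' : ℤ → ℤ}, 0 < n → AP n w → AP n w' →
    (∀ j, 0 ≤ j → j < n → w j = w' j) → w = w'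
  comp : ∀ {n : ℤ} {w w' : ℤ → ℤ}, AP n w → AP n w' → AP n (fun j => w (w' j))
  inv : ∀ {n : ℤ} {w : ℤ → ℤ}, AP n w → ∃ v, AP n v ∧ (∀ j, v (w j) = j) ∧ ∀ j, w (v j) = j
  shift : ∀ n k : ℤ, AP n (fun j => j + k)
  cut_ap : ∀ {n : ℤ} {w : ℤ → ℤ} (a b : ℤ), AP n w → AP n (cut w a b)
  mono : ∀ {n : ℤ} {w : ℤ → ℤ}, AP n w → (∀ i, w (i - 1) < w i) → ∀ j, w j = j + w 0
  sumper : ∀ {n : ℤ} {u : ℤ → ℤ} (f : ℤ → ℤ), 0 < n → AP n u → (∀ j, f (j + n) = f j) →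
    ∑ i ∈ Ico 0 n, f (u i) = ∑ i ∈ Ico 0 n, f i
  dg_sum : ∀ {n : ℤ} {w : ℤ → ℤ}, 0 < n → AP n w → n * dg n w = ∑ i ∈ Ico 0 n, (w i - i)
  dg_pw : ∀ {n : ℤ} (U : List Lt), 2 ≤ n → dg n (pw n U) = dc U
  dg_cut : ∀ {n : ℤ} {w : ℤ → ℤ} (a b : ℤ), 0 < n → AP n w → dg n (cut w a b) = dg n w + a - b
  rr_succ : ∀ {n : ℤ} {w : ℤ → ℤ} (a b : ℤ), 0 < n → AP n w →
    rr n w (a + 1) b = rr n w a b + if b ≤ w a then 1 else 0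
  rr_zero : ∀ {n : ℤ} {w : ℤ → ℤ} (a b : ℤ), 0 < n → AP n w →
    (rr n w a b = 0 ↔ ∀ k, k < a → w k < b)
  rr_nn : ∀ (n : ℤ) (w : ℤ → ℤ) (a b : ℤ), 0 ≤ rr n w a b
  tc_cut : ∀ {n : ℤ} {w : ℤ → ℤ} (a b : ℤ), 0 < n → AP n w →
    tc n (cut w a b) = 2 * rr n w a b - (dg n w + a - b)
  tc_ge : ∀ (n : ℤ) (w : ℤ → ℤ), |dg n w| ≤ tc n w
  lip : ∀ {n : ℤ} {w : ℤ → ℤ} (a b b' : ℤ), 0 < n → AP n w →
    tc n (cut w a b') - |b - b'| ≤ tc n (cut w a b)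

/-- braid words -/
structure SD1 : Prop where
  d1 : ∀ {n : ℤ} {U : List Lt}, 2 ≤ n → n % 2 = 0 → IsBr U → Rdc n U ∨ RedW n U
  d2 : ∀ {n i : ℤ} {U : List Lt}, 2 ≤ n → n % 2 = 0 → IsBr U → RedW n U →
    pw n U i < pw n U (i - 1) →
    ∃ U1, IsBr U1 ∧ RedW n (.s i :: U1) ∧ pw n (.s i :: U1) = pw n U ∧ Eqw n U (.s i :: U1)
  d3 : ∀ {n i : ℤ} {U : List Lt}, 2 ≤ n → n % 2 = 0 → IsBr U → pw n U i < pw n U (i - 1) →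
    Rdc n U ∨ ∃ U1, IsBr U1 ∧ pw n (.s i :: U1) = pw n U ∧ Eqw n U (.s i :: U1)
  d3' : ∀ {n i a b : ℤ} {U : List Lt}, 2 ≤ n → n % 2 = 0 → IsBr U → a < b → pw n U a = i →
    pw n U b = i - 1 → Rdc n U ∨ ∃ U1, IsBr U1 ∧ pw n (U1 ++ [.s i]) = pw n U ∧ Eqw n U (U1 ++ [.s i])
  d4 : ∀ {n : ℤ} {U V : List Lt}, 2 ≤ n → n % 2 = 0 → IsBr U → IsBr V → RedW n U → RedW n V →
    pw n U = pw n V → Eqw n U V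
  d4' : ∀ {n : ℤ} {U V : List Lt}, 2 ≤ n → n % 2 = 0 → IsBr U → IsBr V → RedW n V →
    pw n U = pw n V → Rdc n U ∨ Eqw n U V
  nft : ∀ {n : ℤ} {U : List Lt}, 2 ≤ n → IsBr U →
    ∃ (l : List ℤ) (s : ℤ), Eqw n U (l.map Lt.s ++ [.t s])

structure SD2 : Prop where
  d5 : ∀ {n : ℤ} {U : List Lt}, 2 ≤ n → n % 2 = 0 → IsBr U →
    ∃ U0, IsBr U0 ∧ RedW n U0 ∧ pw n U0 = pw n U ∧ Mnw n U U0 ∧ cr U0 ≤ cr U ∧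
      (cr U0 = cr U → RedW n U)
  d5b : ∀ {n i : ℤ} {U : List Lt}, 2 ≤ n → n % 2 = 0 → IsBr U → pw n U i < pw n U (i - 1) →
    ∃ U1, IsBr U1 ∧ pw n (.s i :: U1) = pw n U ∧ Mnw n U (.s i :: U1)
  d5t : ∀ {n i a b : ℤ} {U : List Lt}, 2 ≤ n → n % 2 = 0 → IsBr U → a < b → pw n U a = i →
    pw n U b = i - 1 → ∃ U1, IsBr U1 ∧ pw n (U1 ++ [.s i]) = pw n U ∧ Mnw n U (U1 ++ [.s i])
  d6 : ∀ {n : ℤ} {U V : List Lt}, 2 ≤ n → n % 2 = 0 → IsBr U → IsBr V → RedW n V →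
    pw n U = pw n V → cr U ≤ cr V → Eqw n U V
  se : ∀ {n a b : ℤ} {U : List Lt}, 2 ≤ n → IsBr U → a < b → pw n U b < pw n U a →
    ∃ U', IsBr U' ∧ cr U' < cr U ∧ Mnw n U U' ∧ pw n U' = fun j => pw n U (tr n a b j)
  br_t : ∀ {n : ℤ} {U : List Lt}, 2 ≤ n → IsBr U → Mnw n U [.t (dc U)]

/-- rank criterion -/
def SRC : Prop := ∀ {n : ℤ} {U : List Lt} {g : ℤ → ℤ}, 2 ≤ n → IsBr U → RedW n U → AP n g →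
  dg n g = dg n (pw n U) → (∀ a b, rr n g a b ≤ rr n (pw n U) a b) →
  ∃ U', IsBr U' ∧ RedW n U' ∧ pw n U' = g ∧ Mnw n U U'

/-- a cup followed by a braid -/
structure SE0 : Prop where
  r1 : ∀ {n : ℤ} {U : List Lt}, 0 ≤ n → n % 2 = 0 → IsBr U → pw (n + 2) U 1 < pw (n + 2) U 0 →
    Rdc n (.u 0 :: U)
  dcr : ∀ {n : ℤ} {U : List Lt}, 2 ≤ n → n % 2 = 0 → IsBr U → pw (n + 2) U 2 < pw (n + 2) U 0 →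
    pw (n + 2) U 2 < pw (n + 2) U 1 → Rdc n (.u 0 :: U)
  dcl : ∀ {n : ℤ} {U : List Lt}, 2 ≤ n → n % 2 = 0 → IsBr U → pw (n + 2) U 0 < pw (n + 2) U (-1) →
    pw (n + 2) U 1 < pw (n + 2) U (-1) → Rdc n (.u 0 :: U)
  dcr' : ∀ {n p q r : ℤ} {U : List Lt}, 4 ≤ n → n % 2 = 0 → IsBr U → pw n U p = 0 → pw n U q = 1 →
    pw n U r = 2 → r < p → r < q → Rdc n (U ++ [.d 0])
  c0' : ∀ {n i : ℤ}, 4 ≤ n → 0 ≤ i → i + 2 ≤ n → Eqw n [.d i] [.t (-i), .d 0, .t i]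
  c1' : ∀ {n i : ℤ}, 1 ≤ i → i + 3 ≤ n → Eqw n [.s (i + 2), .d 0] [.d 0, .s i]
  c2' : ∀ {n : ℤ}, 4 ≤ n → Eqw n [.s 0, .d 0] [.t 1, .s 2, .d 0, .t (-1)]
  c2'' : ∀ {n : ℤ}, 4 ≤ n → Eqw n [.s 2, .d 0] [.t (-1), .s 0, .d 0, .t 1]
  r1' : ∀ {n : ℤ}, 2 ≤ n → Rdc n [.s 1, .d 0]
  pk_pw : ∀ {n : ℤ} (k : ℕ), 0 ≤ n → pw (n + 2) (Pk n k) = rho n k
  pk_red : ∀ {n : ℤ} (k : ℕ), 0 ≤ n → RedW (n + 2) (Pk n k)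

/-- what a cup, a braid and a cap simplify to -/
def Out (n : ℤ) (D : List Lt) : Prop :=
  Rdc n D ∨ (∃ V, IsBr V ∧ Eqw n D V) ∨
    (∃ V V' k, IsBr V ∧ IsBr V' ∧ Eqw n D (V ++ Hw n k ++ V')) ∨
    (2 ≤ n ∧ ∃ V V' V'', IsBr V ∧ IsBr V' ∧ IsBr V'' ∧
      Eqw n D (V ++ .d 0 :: (V' ++ .u 0 :: V'')))

/-- normal form after a cup: the strands other than the right leg keep their order -/
def NFp (n : ℤ) (w : ℤ → ℤ) : Prop :=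
  w 0 < w 1 ∧ ∀ p q, ¬ (n + 2) ∣ p - 1 → ¬ (n + 2) ∣ q - 1 → p < q → w p < w q

structure SE1 : Prop where
  nf : ∀ {n : ℤ} {U : List Lt}, 0 ≤ n → n % 2 = 0 → IsBr U → Rdc n (.u 0 :: U) ∨
    ∃ V U', IsBr V ∧ IsBr U' ∧ cr U' ≤ cr U ∧ NFp n (pw (n + 2) U') ∧
      Eqw n (.u 0 :: U) (V ++ .u 0 :: U')
  out_ctx : ∀ {n : ℤ} {D D' V V' : List Lt}, IsBr V → IsBr V' → dn D' = 0 →
    Eqw n D (V ++ D' ++ V') → Out n D' → Out n D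
  base : ∀ {n : ℤ} (s : ℤ), 0 ≤ n → n % 2 = 0 → Out n [.u 0, .t s, .d 0]

def SE2 : Prop := ∀ {n : ℤ} {U : List Lt}, 0 ≤ n → n % 2 = 0 → IsBr U → Out n (.u 0 :: (U ++ [.d 0]))

structure SE3 : Prop where
  cm : ∀ {n : ℤ} (k : ℕ) {V : List Lt}, 0 ≤ n → n % 2 = 0 → IsBr V →
    Eqw n (V ++ Hw n k) (Hw n k ++ V)
  cmz : ∀ {n : ℤ} (ks : List ℕ) {V : List Lt}, 0 ≤ n → n % 2 = 0 → IsBr V →
    Eqw n (V ++ Z n ks) (Z n ks ++ V)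
  hd : ∀ {n : ℤ} (k : ℕ), 2 ≤ n → n % 2 = 0 → Rdc n (Hw n k ++ [.d 0])
  uh : ∀ {n : ℤ} (k : ℕ), 0 ≤ n → n % 2 = 0 → Rdc n (.u 0 :: Hw (n + 2) k)

/-- global normal form -/
def SE4 : Prop := ∀ (N : ℕ) (n : ℤ) (W : List Lt), Hyp N n → cr W ≤ N →
  (∀ B ks, IsBr B → cr B + cr (Z n ks) ≤ N → Good n (B ++ Z n ks)) → Good n W

structure SH : Prop where
  h_t : ∀ {n : ℤ}, 2 ≤ n → Mnw n (Hw n 0) [.t 1]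
  h_half : ∀ {n e : ℤ}, 2 ≤ n → n % 2 = 0 → (e = 0 ∨ e = 1) → Mnw n (Hw n 0) (half n e ++ [.t 1])
  z_split : ∀ {n : ℤ} (ks : List ℕ), 0 ≤ n → Mnw n (Z n ks) (Z n (List.replicate (wind ks) 0))
  z_max : ∀ {n : ℤ} (ks : List ℕ), 0 ≤ n → Mnw n (ZM n (wind ks)) (Z n ks)
  z4 : ∀ {n : ℤ} {B : List Lt} (ks : List ℕ), 2 ≤ n → n % 2 = 0 → IsBr B → 4 ≤ wind ks →
    ∃ s, Mnw n (B ++ Z n ks) (.t s :: Z n [0, 0, 0, 0])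
  cycG : ∀ {n : ℤ} (ks : List ℕ) (N : ℕ), 2 ≤ n → n % 2 = 0 → (∀ W', cr W' < N → Good n W') →
    Cyc n (PG n (Z n ks) N)
  cycB : ∀ {n : ℤ} (ks : List ℕ), 2 ≤ n → n % 2 = 0 → Cyc n (PB n (Z n ks))
  pb : ∀ {n : ℤ} {U Y : List Lt}, 2 ≤ n → n % 2 = 0 → IsBr U → RedW n U → BadW n (U ++ Y) →
    PB n Y (pw n U)

def SG1 : Prop := ∀ {n : ℤ} {U : List Lt}, 2 ≤ n → n % 2 = 0 → IsBr U →
  Rdc n U ∨ ∃ U', Eqw n U U' ∧ IsBr U' ∧ Pl n U' ∧ (nt U' : ℤ) = tc n (pw n U)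

def SG2a : Prop := ∀ {n c : ℤ} {W : List Lt} {E : List (ℕ × ℕ)}, Pl n W →
  Cl n c W E → Cl (nt W) c (rot90 n W) E

def SG2b : Prop := ∀ {n c : ℤ} {W : List Lt} {E : List (ℕ × ℕ)}, 0 ≤ n → n % 2 = 0 → Pl n W →
  dn W = 0 → Cl (nt W) c (rot90 n W) E → Cl n c W E

def SG3 : Prop := ∀ (N : ℕ) {n : ℤ} {B : List Lt} (ks : List ℕ), 2 ≤ n → n % 2 = 0 → IsBr B →
  Hyp N n → cr B + cr (Z n ks) ≤ N → Good n (B ++ Z n ks) ∨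
    ∀ a b x, n ≤ tc n (cut (pw n B) a b) + |b - a - n * x| + wind ks

/-- many crossings across every cut give a grid -/
def SH1 : Prop := ∀ {n : ℤ} {B : List Lt} (ks : List ℕ) (K : ℕ), 4 ≤ n → n % 2 = 0 → IsBr B →
  (∀ s, BadW n (grid n K ++ [.t s])) → (∀ a b, (K : ℤ) ≤ tc n (cut (pw n B) a b) + wind ks) →
  BadW n (B ++ Z n ks)

def SGs : Prop := ∀ {m b a : ℕ} {c : ℤ} {E : List (ℕ × ℕ)}, 2 ≤ m → 1 ≤ b →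
  Free (2 * m) c (grid (2 * m) (2 * b) ++ [.t (2 * a)]) E → SMinor (gr (tgE m b a)) (gr E)

structure SK6 : Prop where
  k6 : ∀ m a : ℕ, 6 ≤ m → Bad (gr (tgE m 3 a))
  gridw : ∀ {n : ℤ} (s : ℤ), 12 ≤ n → BadW n (grid n 6 ++ [.t s])
  tor : (∀ n W, Good n W) → ∀ m : ℕ, 3 ≤ m → ∀ G, SMinor G (gr (tgE m m 0)) → GoodG G

structure SI : Prop where
  tw : ∀ {n : ℤ} {W : List Lt}, n ≤ 2 → Bnd 4 n W → RdW n W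
  low : ∀ {n : ℤ} {B : List Lt} (ks : List ℕ), n ≤ 2 → IsBr B → RdW n (B ++ Z n ks)

/-- the reduced words of the symmetric group on four strands, generators `c, c + 1, c + 2` -/
def S4 : List (List ℤ) :=
  [[], [0], [1], [2], [0, 1], [0, 2], [1, 0], [1, 2], [2, 1], [0, 1, 0], [0, 1, 2], [0, 2, 1],
   [1, 0, 2], [1, 2, 1], [2, 1, 0], [0, 1, 0, 2], [0, 1, 2, 1], [0, 2, 1, 0], [1, 0, 2, 1],
   [1, 2, 1, 0], [0, 1, 0, 2, 1], [0, 1, 2, 1, 0], [1, 0, 2, 1, 0], [0, 1, 0, 2, 1, 0]]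

def w4 (c : ℤ) (l : List ℤ) : List Lt := l.map fun i => Lt.s (i + c)

/-- finite tables -/
structure ST : Prop where
  h4 : ∀ n : ℤ, n = 4 ∨ n = 6 ∨ n = 8 ∨ n = 10 → ∀ s, BadW n (.t s :: Z n [0, 0, 0, 0])
  g6 : ∀ s, BadW 6 (grid 6 12 ++ [.t s])
  g8 : ∀ s, BadW 8 (grid 8 8 ++ [.t s])
  g10 : ∀ s, BadW 10 (grid 10 8 ++ [.t s])
  m2 : ∀ c l s ks E, l ∈ S4 → wind ks ≤ 3 → Free 4 c (w4 c l ++ .t s :: Z 4 ks) E → GoodG (gr E)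

def Cov (n : ℤ) (N : ℕ) (R : ℤ) : Prop := ∀ M, Poly n M → FM M 0 + N ≤ R → n ≤ FM M 0 + N →
  (FM M 0 + N) % 2 = 0 → FM M 0 ≤ FM M 1 → FM M 0 ≤ FM M (-1) →
  (∃ a b, a ≤ b ∧ EntBad n N (cut3 M a b)) ∨ EntRed n N M

def SCov : Prop := ∀ N : ℕ, N ≤ 3 → Cov 6 N 14 ∧ Cov 8 N 10 ∧ Cov 10 N 12

def SM2 : Prop := ∀ {B : List Lt} (ks : List ℕ), IsBr B →
  (∀ W', cr W' < cr B + cr (Z 4 ks) → Good 4 W') → Good 4 (B ++ Z 4 ks)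

/-- straightening -/
structure SF1 : Prop where
  bs : ∀ {n D : ℤ} {P : (ℤ → ℤ) → Prop} {w x : ℤ → ℤ}, 2 ≤ n → Cyc n P → AP n w → 0 < D →
    (∀ i, x (i + n) = x i + D) →
    (∀ i j, i < j → x j < x i → (w j < w i ∧ x (w j) ≤ x (w i)) ∨
      ∃ i' j', w i' = i ∧ w j' = j ∧ j' < i' ∧ x j' ≤ x i') →
    ∃ g w', AP n g ∧ AP n w' ∧ (∀ i, w' (g i) = g (w i)) ∧ (P w' → P w) ∧
      (∀ i j, g i ≤ g j → x i ≤ x j) ∧ ∀ i j, i < j → x i ≤ x j → g i < g j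
  f1 : ∀ {n D : ℤ} {P : (ℤ → ℤ) → Prop} {w : ℤ → ℤ}, 2 ≤ n → Cyc n P → AP n w → 0 < D →
    ∃ w' x σ, Str n D w' x σ ∧ (P w' → P w)
  twist : ∀ {n D : ℤ} {w x σ : ℤ → ℤ} (ξ : ℤ), Str n D w x σ →
    Str n D (fun i => w i - n * ξ) x (fun i => σ i - ξ * QQ n)

def STL : Prop := ∀ {n D D' : ℤ} {P : (ℤ → ℤ) → Prop} {w w' φ x y : ℤ → ℤ} {γ γ' : ℤ → ℕ},
  2 ≤ n → Cyc n P → AP n w → AP n w' → AP n φ → (∀ i, w' (φ i) = φ (w i)) → Grp n w γ →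
  (∀ i, γ' (φ i) = γ i) → (∀ i j, γ i = γ j → i < j → φ i < φ j) → Pos n D x → Pos n D' y →
  StrictMono y → Sep w x γ → Sep w' y γ' → P w' → P w

structure SR : Prop where
  succ : ∀ (γ : ℤ → ℕ) (g : ℕ) (i : ℤ), rk γ g (i + 1) = rk γ g i + if γ i = g then 1 else 0
  per : ∀ {n : ℤ} {γ : ℤ → ℕ} (g : ℕ) (i k : ℤ), 0 < n → (∀ i, γ (i + n) = γ i) →
    rk γ g (i + n * k) = rk γ g i + Yc n γ g * k
  mono : ∀ (γ : ℤ → ℕ) (g : ℕ), Monotone (rk γ g)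
  lt : ∀ {γ : ℤ → ℕ} {g : ℕ} {i j : ℤ}, γ i = g → i < j → rk γ g i < rk γ g j
  surj : ∀ {n : ℤ} {γ : ℤ → ℕ} {g : ℕ}, 0 < n → (∀ i, γ (i + n) = γ i) → 0 < Yc n γ g →
    ∀ r, ∃ i, γ i = g ∧ rk γ g i = r
  mtch : ∀ {n : ℤ} {γ γ' : ℤ → ℕ} (o : ℕ → ℤ), 0 < n → (∀ i, γ (i + n) = γ i) →
    (∀ i, γ' (i + n) = γ' i) → (∀ g, Yc n γ g = Yc n γ' g) →
    ∃ φ, AP n φ ∧ ∀ i, γ' (φ i) = γ i ∧ rk γ' (γ i) (φ i) = rk γ (γ i) i + o (γ i)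
  xc_sum : ∀ {n : ℤ} {w : ℤ → ℤ} {γ : ℤ → ℕ} (g : ℕ), 0 < n → AP n w → Grp n w γ →
    n * Xc n w γ g = ∑ i ∈ Ico 0 n, if γ i = g then w i - i else 0
  xc_pos : ∀ {n D : ℤ} {w x : ℤ → ℤ} {γ : ℤ → ℕ} (g : ℕ), 0 < n → AP n w → Grp n w γ →
    (∀ i, x (i + n) = x i + D) →
    D * Xc n w γ g = ∑ i ∈ Ico 0 n, if γ i = g then x (w i) - x i else 0
  xc_cut : ∀ {n : ℤ} {w : ℤ → ℤ} {γ : ℤ → ℕ} (g : ℕ) (c ξ : ℤ), 0 < n → AP n w → Grp n w γ →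
    Xc n (cut w c (c + n * ξ)) (fun i => γ (i + c)) g = Xc n w γ g - ξ * Yc n γ g
  flux : ∀ {n : ℤ} {w : ℤ → ℤ} {γ : ℤ → ℕ} {g : ℕ} {c c' : ℤ}, 0 < n → AP n w → Grp n w γ →
    (∀ i, γ i = g → (c ≤ i ↔ c' ≤ w i)) → rk γ g c' = rk γ g c + Xc n w γ g
  gap : ∀ {n D C : ℤ} (v : ℤ → ℤ), 0 < n → 0 ≤ C → (n + 1) * (2 * C + 1) ≤ D →
    ∃ p, ∀ i, 0 ≤ i → i < n → ∀ j, C < |v i - p - j * D|

structure SDat : Prop where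
  fin1 : ∀ {n D : ℤ} {w x σ : ℤ → ℤ}, 2 ≤ n → D0 n ≤ D → Str n D w x σ →
    ∃ γ M, Fin1 n w x σ γ M
  sc : ∀ {n D : ℤ} {w x σ : ℤ → ℤ} {γ M}, 2 ≤ n → D0 n ≤ D → Str n D w x σ → Fin1 n w x σ γ M →
    ∀ ξ, ∃ c, tc n (cut w c (c + n * ξ)) = FM M ξ
  lb : ∀ {n : ℤ} {w x : ℤ → ℤ} {γ M}, 2 ≤ n → AP n w → Dat0 n w x γ M →
    ∀ c ξ, FM M ξ ≤ tc n (cut w c (c + n * ξ))
  par : ∀ {n : ℤ} {w x : ℤ → ℤ} {γ M}, 2 ≤ n → Dat0 n w x γ M → (FM M 0 - dg n w) % 2 = 0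

def SBlk : Prop := ∀ {n D : ℤ} {w x σ : ℤ → ℤ} {γ M}, 2 ≤ n → D0 n ≤ D → Str n D w x σ →
  Fin1 n w x σ γ M → Blks w γ M

def SBB : Prop := ∀ {n D : ℤ} {U : List Lt} {x : ℤ → ℤ} {γ M} (ks : List ℕ) (a b : ℕ), 2 ≤ n →
  n % 2 = 0 → IsBr U → Pos n D x → Dat0 n (pw n U) x γ M → a ≤ b →
  EntBad n (wind ks) (cut3 M a b) → BadW n (U ++ Z n ks)

structure SRB : Prop where
  rb1 : ∀ {n D D' e : ℤ} {P : (ℤ → ℤ) → Prop} {w x y β : ℤ → ℤ} {γ γ' M U}, 2 ≤ n → Cyc n P →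
    AP n w → Pos n D x → Dat0 n w x γ M → Blks w γ M → EntR n M U γ' y D' β e →
    ∃ w', AP n w' ∧ (∀ i, β (w' i) = β (pw n U i)) ∧ (P w' → P w)
  rb2 : ∀ {n : ℤ} {β : ℤ → ℤ} {U V : List Lt}, 2 ≤ n → n % 2 = 0 → IsBr U → IsBr V → RedW n U →
    Blk n β (pw n U) → (∀ i, β (pw n V i) = β (pw n U i)) → Rdc n V ∨ Mnw n U V

def SMid : Prop := ∀ (N : ℕ) {n : ℤ} {B : List Lt} (ks : List ℕ), n = 6 ∨ n = 8 ∨ n = 10 → IsBr B →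
  Hyp N n → cr B + cr (Z n ks) ≤ N → Good n (B ++ Z n ks)

def SAll : Prop := ∀ n W, Good n W

/-- passage to multigraphs -/
structure SFin : Prop where
  rd : ∀ {G : MG}, Reducible G → Rd (si G)
  sm : ∀ {H G : MG}, IsMinor H G → SMinor (si H) (si G)
  ms : ∀ {L : List (ℕ × ℕ)} {G : MG}, (ofList L).E.Nodup → SMinor (gr L) (si G) →
    IsMinor (ofList L) G
  tor : ∀ n : ℕ, 1 ≤ n → si (torus n) = gr (tgE n n 0)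

structure SFam : Prop where
  mem : ∀ L ∈ LL, (PetersenFamily (ofList L) ∨ ofList L = k55m) ∧ (ofList L).E.Nodup ∧
    TwoConn (ofList L)
  bad : ∀ H, PetersenFamily H ∨ H = k55m → Bad (si H)

end Pool.Agent.P.MP_5af56b_co.Tor
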