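import Pool.Agent.P.MP_5af56b_co.Lift2
import Pool.Agent.P.MP_5af56b_co.Tor.Stmt

namespace Pool.Agent.P.MP_5af56b_co.Tor

theorem all_norun (b1 : SB1) {n : ℤ} (h : ¬ (0 ≤ n ∧ n % 2 = 0)) (W : List Lt) : Good n W := by
  rintro c E ⟨⟨b, hb⟩, -⟩
  have := b1.okl hb
  exact absurd ⟨this.1, this.2.1⟩ h

theorem pAll (p : SP) (b2 : SB2) (e4 : SE4) (i : SI) (m2 : SM2) (mid : SMid) (g3 : SG3) (h1 : SH1)
    (k6 : SK6) (b1 : SB1) : SAll := by
  have key : ∀ (N : ℕ) (n : ℤ) (W : List Lt), cr W ≤ N → Good n W := by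
    intro N
    induction N using Nat.strong_induction_on with
    | h N ih =>
      have H1 : ∀ n' W', cr W' < N → Good n' W' := fun n' W' h => ih _ h n' W' le_rfl
      have H2 : ∀ (m : ℕ) (n : ℤ), n < m → ∀ W, cr W ≤ N → Good n W := by
        intro m
        induction m with
        | zero => exact fun n hn W _ => all_norun b1 (by omega) W
        | succ m ihm =>
          intro n hn W hW
          have hyp : Hyp N n := ⟨H1, fun n' W' h h' => ihm n' (by omega) W' h'⟩
          refine e4 N n W hyp hW fun B ks hB hle => ?_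
          by_cases h0 : 0 ≤ n ∧ n % 2 = 0
          swap
          · exact all_norun b1 h0 _
          by_cases h2 : n ≤ 2
          · exact b2.good_rd (i.low ks h2 hB)
          by_cases h4 : n = 4
          · subst h4
            exact m2 ks hB fun W' h => H1 4 W' (h.trans_le hle)
          by_cases h6 : n = 6 ∨ n = 8 ∨ n = 10
          · exact mid N ks h6 hB hyp hle
          have h12 : 12 ≤ n := by omega
          rcases g3 N ks (by omega) h0.2 hB hyp hle with h | h
          · exact h
          · refine b2.good_bad (h1 ks 6 (by omega) h0.2 hB (fun s => k6.gridw s h12) fun a b => ?_)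
            have e := h a b ((b - a + n / 2) / n)
            have e1 := Int.emod_nonneg (b - a + n / 2) (show n ≠ 0 by omega)
            have e2 := Int.emod_lt_of_pos (b - a + n / 2) (show 0 < n by omega)
            have e3 := Int.emod_add_mul_ediv (b - a + n / 2) n
            have e4 : |b - a - n * ((b - a + n / 2) / n)| ≤ n / 2 := abs_le.2 ⟨by omega, by omega⟩
            push_cast
            omega
      exact fun n W hW => H2 (n.toNat + 1) n (by omega) W hW
  exact fun n W => key _ n W le_rfl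

theorem pRes (a1 : SA1) (a2 : SA2) (k6 : SK6) (fin : SFin) (fam : SFam) (all : SAll) :
    (∀ G : MG, Toroidal G → TwoConn G →
      (Reducible G ↔ ¬ ∃ H, (PetersenFamily H ∨ H = k55m) ∧ IsMinor H G)) ∧
    ∀ G : MG, Toroidal G → MinNonRed G → ∃ H, (PetersenFamily H ∨ H = k55m) ∧ Iso G H := by
  have good : ∀ G : MG, Toroidal G → TwoConn G →
      Reducible G ∨ ∃ L ∈ LL, IsMinor (ofList L) G := by
    rintro G ⟨n, hn, hG⟩ h2
    have h := fin.sm hG
    rw [fin.tor n (by omega)] at h
    rcases k6.tor all n hn _ h with ⟨k, hk⟩ | ⟨L, hL, hm⟩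
    · exact Or.inl (reducible_of_red k G h2 hk)
    · exact Or.inr ⟨L, hL, fin.ms (fam.mem L hL).2.1 hm⟩
  refine ⟨fun G hT h2 => ⟨?_, fun h => ?_⟩, fun G hT hM => ?_⟩
  · rintro hR ⟨H, hH, hm⟩
    exact a2.notRd (fin.rd hR) ((a1.mn (fin.sm hm)).2 (fam.bad H hH))
  · rcases good G hT h2 with h' | ⟨L, hL, hm⟩
    · exact h'
    · exact absurd ⟨_, (fam.mem L hL).1, hm⟩ h
  · rcases good G hT hM.1 with h' | ⟨L, hL, hm⟩
    · exact absurd h' hM.2.1
    · refine ⟨_, (fam.mem L hL).1, by_contra fun hI => hM.2.2 _ hm hI ⟨(fam.mem L hL).2.2, ?_⟩⟩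
      exact fun hR => a2.notRd (fin.rd hR) (fam.bad _ (fam.mem L hL).1)

end Pool.Agent.P.MP_5af56b_co.Tor
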