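import Pool.Agent.P.MP_5af56b_co.Tor.Stmt

namespace Pool.Agent.P.MP_5af56b_co.Tor

namespace B2aux

/-- product of two states -/
def pr (x x' : St) : St := ⟨x.n, x.c, fun j => Nat.pair (x.b j) (x'.b j)⟩

/-- product of two edge lists -/
def zp (E E' : List (ℕ × ℕ)) : List (ℕ × ℕ) :=
  List.zipWith (fun p q : ℕ × ℕ => (Nat.pair p.1 q.1, Nat.pair p.2 q.2)) E E'

theorem ok_pr {x x' : St} (h : x.Ok) (h' : x'.Ok) (hn : x.n = x'.n) : (pr x x').Ok := by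
  obtain ⟨h1, h2, h3, h4, h5⟩ := h
  obtain ⟨-, -, -, h4', h5'⟩ := h'
  refine ⟨h1, h2, h3, fun j => ?_, fun h0 j => ?_⟩
  · show Nat.pair (x.b (j + x.n)) (x'.b (j + x.n)) = Nat.pair (x.b j) (x'.b j)
    rw [h4, hn, h4']
  · show Nat.pair (x.b j) (x'.b j) = Nat.pair (x.b 0) (x'.b 0)
    have h0' : x.n = 0 := h0
    rw [h5 h0' j, h5' (hn ▸ h0') j]

theorem stp_pr {g : Lt} {x y x' y' : St} {e e' : List (ℕ × ℕ)} (h : Stp g x y e)
    (h' : Stp g x' y' e') (hn : x.n = x'.n) (hc : x.c = x'.c) :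
    y.n = y'.n ∧ y.c = y'.c ∧ e.length = e'.length ∧ Stp g (pr x x') (pr y y') (zp e e') := by
  cases g with
  | s i =>
    obtain ⟨h1, h2, h3, h4, h5⟩ := h
    obtain ⟨-, h2', h3', h4', h5'⟩ := h'
    refine ⟨by omega, by omega, by rw [h5, h5']; rfl, h1, h2, h3, fun j hj => ?_, ?_⟩
    · show Nat.pair (y.b j) (y'.b j) = Nat.pair (x.b j) (x'.b j)
      have hj' : ¬ x.n ∣ j - i := hj
      rw [h4 j hj', h4' j (hn ▸ hj')]
    · rw [h5, h5', ← hc]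
      by_cases hp : (i + x.c) % 2 = 0
      · simp [zp, pr, hp]
      · simp [zp, pr, hp]
  | t k =>
    obtain ⟨h1, h2, h3, h4, h5⟩ := h
    obtain ⟨-, h2', h3', h4', h5'⟩ := h'
    refine ⟨by omega, by rw [h3, h3', hc], by rw [h5, h5'], h1, h2, h3, fun j => ?_, ?_⟩
    · show Nat.pair (y.b (j + k)) (y'.b (j + k)) = Nat.pair (x.b j) (x'.b j)
      rw [h4 j, h4' j]
    · rw [h5, h5']; rfl
  | u i =>
    obtain ⟨h0, h1, h2, h3, h4, h5, h6⟩ := h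
    obtain ⟨-, -, h2', h3', h4', h5', h6'⟩ := h'
    refine ⟨by omega, by omega, by rw [h6, h6'], h0, h1, h2, h3, fun j hj hj' => ?_,
      fun j hj hj' => ?_, ?_⟩
    · show Nat.pair (y.b j) (y'.b j) = Nat.pair (x.b j) (x'.b j)
      rw [h4 j hj hj', h4' j hj hj']
    · show Nat.pair (y.b (j + 2)) (y'.b (j + 2)) = Nat.pair (x.b j) (x'.b j)
      have hj2 : j ≤ x.n := hj'
      rw [h5 j hj hj2, h5' j hj (hn ▸ hj2)]
    · rw [h6, h6']; rfl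
  | d i =>
    obtain ⟨h0, h1, h2, h3, h4, h5, h6⟩ := h
    obtain ⟨-, -, h2', h3', h4', h5', h6'⟩ := h'
    have hy : y.n = y'.n := by omega
    refine ⟨hy, by omega, by rw [h6, h6'], h0, h1, h2, h3, fun j hj hj' => ?_,
      fun j hj hj' => ?_, ?_⟩
    · show Nat.pair (y.b j) (y'.b j) = Nat.pair (x.b j) (x'.b j)
      rw [h4 j hj hj', h4' j hj hj']
    · show Nat.pair (y.b j) (y'.b j) = Nat.pair (x.b (j + 2)) (x'.b (j + 2))
      have hj2 : j ≤ y.n := hj'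
      rw [h5 j hj hj2, h5' j hj (hy ▸ hj2)]
    · rw [h6, h6']; rfl

theorem run_pr : ∀ (W : List Lt) {x z x' z' : St} {E E' : List (ℕ × ℕ)}, Run W x z E →
    Run W x' z' E' → x.n = x'.n → x.c = x'.c → Run W (pr x x') (pr z z') (zp E E')
  | [], x, z, x', z', E, E', h, h', hn, _ => by
    obtain ⟨h1, h2, h3⟩ := h
    obtain ⟨h1', h2', h3'⟩ := h'
    subst h2 h3 h2' h3'
    exact ⟨ok_pr h1 h1' hn, rfl, rfl⟩
  | g :: W, x, z, x', z', E, E', h, h', hn, hc => by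
    obtain ⟨h1, y, e, F, h2, h3, h4⟩ := h
    obtain ⟨h1', y', e', F', h2', h3', h4'⟩ := h'
    obtain ⟨k1, k2, k3, k4⟩ := stp_pr h2 h2' hn hc
    refine ⟨ok_pr h1 h1' hn, pr y y', zp e e', zp F F', k4, run_pr W h3 h3' k1 k2, ?_⟩
    rw [h4, h4']
    exact List.zipWith_append k3

theorem mp_zp1 : ∀ (E E' : List (ℕ × ℕ)), E.length = E'.length →
    mp (fun a => (Nat.unpair a).1) (zp E E') = E
  | [], [], _ => rfl
  | [], _ :: _, h => by simp at h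
  | _ :: _, [], h => by simp at h
  | p :: E, q :: E', h => by
    have ih := mp_zp1 E E' (by simpa using h)
    simp only [mp, zp, List.zipWith_cons_cons, List.map_cons, Prod.map, Nat.unpair_pair] at ih ⊢
    rw [ih]

theorem mp_zp2 : ∀ (E E' : List (ℕ × ℕ)), E.length = E'.length →
    mp (fun a => (Nat.unpair a).2) (zp E E') = E'
  | [], [], _ => rfl
  | [], _ :: _, h => by simp at h
  | _ :: _, [], h => by simp at h
  | p :: E, q :: E', h => by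
    have ih := mp_zp2 E E' (by simpa using h)
    simp only [mp, zp, List.zipWith_cons_cons, List.map_cons, Prod.map, Nat.unpair_pair] at ih ⊢
    rw [ih]

/-- the labels that occur in an edge list -/
def lab (E : List (ℕ × ℕ)) : Finset ℕ := (E.map Prod.fst ++ E.map Prod.snd).toFinset

theorem lab_card (E : List (ℕ × ℕ)) : (lab E).card ≤ 2 * E.length := by
  have := List.toFinset_card_le (E.map Prod.fst ++ E.map Prod.snd)
  simp only [List.length_append, List.length_map] at this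
  unfold lab
  omega

theorem mem_lab {E : List (ℕ × ℕ)} {a : ℕ} : a ∈ lab E ↔ ∃ p ∈ E, p.1 = a ∨ p.2 = a := by
  simp only [lab, List.mem_toFinset, List.mem_append, List.mem_map]
  constructor
  · rintro (⟨p, h, e⟩ | ⟨p, h, e⟩)
    · exact ⟨p, h, Or.inl e⟩
    · exact ⟨p, h, Or.inr e⟩
  · rintro ⟨p, h, e | e⟩
    · exact Or.inl ⟨p, h, e⟩
    · exact Or.inr ⟨p, h, e⟩

theorem lab_mp (φ : ℕ → ℕ) (E : List (ℕ × ℕ)) : lab (mp φ E) = (lab E).image φ := by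
  ext a
  simp only [mem_lab, Finset.mem_image, mp, List.mem_map]
  constructor
  · rintro ⟨p, ⟨q, hq, rfl⟩, e | e⟩
    · exact ⟨q.1, ⟨q, hq, Or.inl rfl⟩, e⟩
    · exact ⟨q.2, ⟨q, hq, Or.inr rfl⟩, e⟩
  · rintro ⟨b, ⟨q, hq, e | e⟩, rfl⟩
    · exact ⟨_, ⟨q, hq, rfl⟩, Or.inl (by rw [← e]; rfl)⟩
    · exact ⟨_, ⟨q, hq, rfl⟩, Or.inr (by rw [← e]; rfl)⟩

theorem mp_congr {φ ψ : ℕ → ℕ} {E : List (ℕ × ℕ)} (h : ∀ a ∈ lab E, φ a = ψ a) :
    mp φ E = mp ψ E := by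
  refine List.map_congr_left fun p hp => ?_
  have h1 := h p.1 (mem_lab.2 ⟨p, hp, Or.inl rfl⟩)
  have h2 := h p.2 (mem_lab.2 ⟨p, hp, Or.inr rfl⟩)
  simp only [Prod.map, h1, h2]

theorem mp_mp (φ ψ : ℕ → ℕ) (E : List (ℕ × ℕ)) : mp φ (mp ψ E) = mp (fun a => φ (ψ a)) E := by
  simp only [mp, List.map_map]
  rfl

theorem mp_app (φ : ℕ → ℕ) (E F : List (ℕ × ℕ)) : mp φ (E ++ F) = mp φ E ++ mp φ F := by
  simp only [mp, List.map_append]

theorem mp_len (φ : ℕ → ℕ) (E : List (ℕ × ℕ)) : (mp φ E).length = E.length := by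
  simp only [mp, List.length_map]

theorem cl_len (b1 : SB1) {n c : ℤ} {W : List Lt} {E : List (ℕ × ℕ)} (h : Cl n c W E) :
    E.length = cr W := by
  obtain ⟨b, h⟩ := h
  exact b1.len h

theorem ex_free (b1 : SB1) {n c : ℤ} {W : List Lt} {E : List (ℕ × ℕ)} (h : Cl n c W E) :
    ∃ E', Free n c W E' := by
  classical
  let P : ℕ → Prop := fun k => ∃ F, Cl n c W F ∧ (lab F).card = k
  have hb : ∀ F, Cl n c W F → (lab F).card ≤ 2 * cr W := fun F hF => by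
    have := lab_card F
    rw [cl_len b1 hF] at this
    exact this
  obtain ⟨F, hF, hk⟩ : P (Nat.findGreatest P (2 * cr W)) :=
    Nat.findGreatest_spec (P := P) (hb E h) ⟨E, h, rfl⟩
  have hmax : ∀ G, Cl n c W G → (lab G).card ≤ (lab F).card := fun G hG => by
    rw [hk]
    exact Nat.le_findGreatest (P := P) (hb G hG) ⟨G, hG, rfl⟩
  refine ⟨F, hF, fun G hG => ?_⟩
  have hl : F.length = G.length := by rw [cl_len b1 hF, cl_len b1 hG]
  have hP : Cl n c W (zp F G) := by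
    obtain ⟨b, hb⟩ := hF
    obtain ⟨b', hb'⟩ := hG
    exact ⟨_, run_pr W hb hb' rfl rfl⟩
  have h1 := mp_zp1 F G hl
  have h2 := mp_zp2 F G hl
  have hinj : Set.InjOn (fun a => (Nat.unpair a).1) (lab (zp F G) : Set ℕ) := by
    apply Finset.injOn_of_card_image_eq
    apply le_antisymm Finset.card_image_le
    rw [← lab_mp, h1]
    exact hmax _ hP
  generalize zp F G = Q at h1 h2 hinj
  subst h1 h2
  refine ⟨fun a => if h : ∃ p ∈ lab Q, (Nat.unpair p).1 = a then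
    (Nat.unpair h.choose).2 else 0, ?_⟩
  rw [mp_mp]
  refine mp_congr fun a ha => ?_
  have hx : ∃ p ∈ lab Q, (Nat.unpair p).1 = (Nat.unpair a).1 := ⟨a, ha, rfl⟩
  rw [dif_pos hx]
  have := hinj (Finset.mem_coe.2 hx.choose_spec.1) (Finset.mem_coe.2 ha) hx.choose_spec.2
  rw [this]

theorem uniq (a1 : SA1) {n c : ℤ} {W : List Lt} {E E' : List (ℕ × ℕ)} (h : Free n c W E)
    (h' : Free n c W E') : Eqv (gr E) (gr E') := by
  obtain ⟨φ, hφ⟩ := h.2 E' h'.1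
  obtain ⟨ψ, hψ⟩ := h'.2 E h.1
  exact a1.iso hφ hψ

theorem cl_of {W : List Lt} {x : St} {E : List (ℕ × ℕ)} {n c : ℤ} (h : Run W x x E)
    (hn : x.n = n) (hc : x.c = c) : Cl n c W E := by
  subst hn hc
  exact ⟨x.b, h⟩

theorem rot (b1 : SB1) {A B : List Lt} {x y : St} {E1 E2 : List (ℕ × ℕ)} (hA : Run A x y E1)
    (hB : Run B y x E2) (h : Free x.n x.c (A ++ B) (E1 ++ E2)) :
    Free y.n y.c (B ++ A) (E2 ++ E1) := by
  refine ⟨cl_of (b1.app.2 ⟨x, E2, E1, hB, hA, rfl⟩) rfl rfl, ?_⟩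
  rintro E' ⟨b, hb⟩
  obtain ⟨x', F2, F1, k2, k1, rfl⟩ := b1.app.1 hb
  have hn : x'.n = x.n := by rw [b1.wn k2, b1.wn hB]
  have hc : x'.c = x.c := by rw [b1.wc k2, b1.wc hB]
  obtain ⟨φ, hφ⟩ := h.2 (F1 ++ F2) (cl_of (b1.app.2 ⟨_, F1, F2, k1, k2, rfl⟩) hn hc)
  rw [mp_app] at hφ
  obtain ⟨e1, e2⟩ := List.append_inj hφ (by rw [mp_len, b1.len k1, b1.len hA])
  exact ⟨φ, by rw [mp_app, e1, e2]⟩

theorem gr_comm (a1 : SA1) (E F : List (ℕ × ℕ)) : gr (E ++ F) = gr (F ++ E) := by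
  refine a1.ext fun x y => ?_
  simp only [gr, List.mem_append]
  tauto

theorem rotF (a1 : SA1) (b1 : SB1) {n c : ℤ} {A B : List Lt} {E : List (ℕ × ℕ)}
    (h : Free n c (A ++ B) E) :
    ∃ E', Free (n + dn A) ((c + dc A) % 2) (B ++ A) E' ∧ gr E' = gr E := by
  obtain ⟨b, hb⟩ := h.1
  obtain ⟨y, E1, E2, k1, k2, rfl⟩ := b1.app.1 hb
  have := rot b1 k1 k2 h
  rw [b1.wn k1, b1.wc k1] at this
  exact ⟨_, this, gr_comm a1 _ _⟩

theorem rotB (a1 : SA1) (b1 : SB1) {n c : ℤ} {A B : List Lt} {E' : List (ℕ × ℕ)}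
    (hc : c = 0 ∨ c = 1) (h : Free (n + dn A) ((c + dc A) % 2) (B ++ A) E') :
    ∃ E, Free n c (A ++ B) E ∧ gr E = gr E' := by
  obtain ⟨b, hb⟩ := h.1
  obtain ⟨x, E2, E1, k2, k1, rfl⟩ := b1.app.1 hb
  have := rot b1 k2 k1 h
  have e1 : n + dn A = x.n + dn A := b1.wn k1
  have e2 : (c + dc A) % 2 = (x.c + dc A) % 2 := b1.wc k1
  have e3 := (b1.okl k1).2.2.1
  have hn : x.n = n := by omega
  have hc' : x.c = c := by omega
  rw [hn, hc'] at this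
  exact ⟨_, this, gr_comm a1 _ _⟩

theorem eqv_refl (G : SG) : Eqv G G := ⟨Iff.rfl, Iff.rfl⟩

theorem eqv_symm {G H : SG} (h : Eqv G H) : Eqv H G := ⟨h.1.symm, h.2.symm⟩

theorem eqv_trans {G H K : SG} (h : Eqv G H) (h' : Eqv H K) : Eqv G K :=
  ⟨h.1.trans h'.1, h.2.trans h'.2⟩

theorem mn_trans {G H K : SG} (h : Mn G H) (h' : Mn H K) : Mn G K :=
  ⟨fun r => h'.1 (h.1 r), fun r => h.2 (h'.2 r)⟩

theorem locC (a1 : SA1) (b1 : SB1) {n c : ℤ} {D D' : List Lt}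
    (Θ : List (ℕ × ℕ) → List (ℕ × ℕ))
    (h1 : ∀ x y E, x.n = n → x.c = c → Run D x y E → Run D' x y (Θ E))
    (h2 : ∀ x y E', x.n = n → x.c = c → Run D' x y E' → ∃ E, Run D x y E ∧ Θ E = E')
    (h3 : ∀ φ E, Θ (mp φ E) = mp φ (Θ E))
    (h4 : ∀ X x y E Y, x.n = n → x.c = c → Run D x y E → Run X y x Y →
      Free n c (D ++ X) (E ++ Y) → Eqv (gr (E ++ Y)) (gr (Θ E ++ Y))) : RelC Eqv n c D D' := by
  intro X
  have key : ∀ E, Free n c (D ++ X) E → ∃ E', Free n c (D' ++ X) E' ∧ Eqv (gr E) (gr E') := by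
    intro E hE
    obtain ⟨b, hb⟩ := hE.1
    obtain ⟨y, E1, Y, k1, k2, rfl⟩ := b1.app.1 hb
    refine ⟨Θ E1 ++ Y, ⟨⟨b, b1.app.2 ⟨y, _, Y, h1 _ _ _ rfl rfl k1, k2, rfl⟩⟩, ?_⟩,
      h4 X _ y E1 Y rfl rfl k1 k2 hE⟩
    rintro G ⟨b', hb'⟩
    obtain ⟨y', F', Y', l1, l2, rfl⟩ := b1.app.1 hb'
    obtain ⟨F, l3, rfl⟩ := h2 _ _ _ rfl rfl l1
    obtain ⟨φ, hφ⟩ := hE.2 (F ++ Y') ⟨b', b1.app.2 ⟨y', F, Y', l3, l2, rfl⟩⟩
    rw [mp_app] at hφ
    obtain ⟨e1, e2⟩ := List.append_inj hφ (by rw [mp_len, b1.len l3, b1.len k1])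
    exact ⟨φ, by rw [mp_app, e1, e2, h3]⟩
  refine ⟨key, fun E' hE' => ?_⟩
  obtain ⟨b', hb'⟩ := hE'.1
  obtain ⟨y', F', Y', l1, l2, -⟩ := b1.app.1 hb'
  obtain ⟨F, l3, -⟩ := h2 _ _ _ rfl rfl l1
  obtain ⟨E, hE⟩ := ex_free b1 (n := n) (c := c) ⟨b', b1.app.2 ⟨y', F, Y', l3, l2, rfl⟩⟩
  obtain ⟨G, hG, e⟩ := key E hE
  exact ⟨E, hE, eqv_trans e (uniq a1 hG hE')⟩

theorem relC_mono {R R' : SG → SG → Prop} (hR : ∀ G H, R G H → R' G H) {n c : ℤ}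
    {D D' : List Lt} (h : RelC R n c D D') : RelC R' n c D D' := by
  intro X
  refine ⟨fun E hE => ?_, fun E' hE' => ?_⟩
  · obtain ⟨E', k1, k2⟩ := (h X).1 E hE
    exact ⟨E', k1, hR _ _ k2⟩
  · obtain ⟨E, k1, k2⟩ := (h X).2 E' hE'
    exact ⟨E, k1, hR _ _ k2⟩

theorem relC_refl {R : SG → SG → Prop} (hR : ∀ G, R G G) (n c : ℤ) (D : List Lt) :
    RelC R n c D D :=
  fun _ => ⟨fun E hE => ⟨E, hE, hR _⟩, fun E hE => ⟨E, hE, hR _⟩⟩

theorem relC_symm {n c : ℤ} {D D' : List Lt} (h : RelC Eqv n c D D') : RelC Eqv n c D' D := by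
  intro X
  refine ⟨fun E hE => ?_, fun E' hE' => ?_⟩
  · obtain ⟨E', k1, k2⟩ := (h X).2 E hE
    exact ⟨E', k1, eqv_symm k2⟩
  · obtain ⟨E, k1, k2⟩ := (h X).1 E' hE'
    exact ⟨E, k1, eqv_symm k2⟩

theorem relC_trans {R : SG → SG → Prop} (hR : ∀ G H K, R G H → R H K → R G K) {n c : ℤ}
    {D D' D'' : List Lt} (h : RelC R n c D D') (h' : RelC R n c D' D'') : RelC R n c D D'' := by
  intro X
  refine ⟨fun E hE => ?_, fun E'' hE'' => ?_⟩
  · obtain ⟨E', k1, k2⟩ := (h X).1 E hE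
    obtain ⟨E'', l1, l2⟩ := (h' X).1 E' k1
    exact ⟨E'', l1, hR _ _ _ k2 l2⟩
  · obtain ⟨E', k1, k2⟩ := (h' X).2 E'' hE''
    obtain ⟨E, l1, l2⟩ := (h X).2 E' k1
    exact ⟨E, l1, hR _ _ _ l2 k2⟩

theorem relC_ctx (a1 : SA1) (b1 : SB1) {R : SG → SG → Prop} {n c : ℤ} {D D' : List Lt}
    (A C : List Lt) (hc : c = 0 ∨ c = 1) (h : RelC R (n + dn A) ((c + dc A) % 2) D D') :
    RelC R n c (A ++ D ++ C) (A ++ D' ++ C) := by
  intro X
  have e1 : ∀ V : List Lt, A ++ V ++ C ++ X = A ++ (V ++ (C ++ X)) := fun V => by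
    simp only [List.append_assoc]
  have e2 : ∀ V : List Lt, V ++ (C ++ X) ++ A = V ++ (C ++ X ++ A) := fun V => by
    simp only [List.append_assoc]
  rw [e1, e1]
  refine ⟨fun E hE => ?_, fun E' hE' => ?_⟩
  · obtain ⟨F, k1, k2⟩ := rotF a1 b1 hE
    rw [e2] at k1
    obtain ⟨F', l1, l2⟩ := (h _).1 F k1
    rw [← e2] at l1
    obtain ⟨E', m1, m2⟩ := rotB a1 b1 hc l1
    exact ⟨E', m1, by rw [m2, ← k2]; exact l2⟩
  · obtain ⟨F', k1, k2⟩ := rotF a1 b1 hE'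
    rw [e2] at k1
    obtain ⟨F, l1, l2⟩ := (h _).2 F' k1
    rw [← e2] at l1
    obtain ⟨E, m1, m2⟩ := rotB a1 b1 hc l1
    exact ⟨E, m1, by rw [m2, ← k2]; exact l2⟩

theorem free_c (b1 : SB1) {n c : ℤ} {W : List Lt} {E : List (ℕ × ℕ)} (h : Free n c W E) :
    c = 0 ∨ c = 1 := by
  obtain ⟨b, hb⟩ := h.1
  exact (b1.okl hb).2.2.1

theorem ctx (a1 : SA1) (b1 : SB1) {R : SG → SG → Prop} {n : ℤ} {D D' : List Lt}
    (A C : List Lt) (h : Rel R (n + dn A) D D') : Rel R n (A ++ D ++ C) (A ++ D' ++ C) := by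
  refine ⟨by simp only [b1.dn_app, h.1], fun c => ?_⟩
  by_cases hc : c = 0 ∨ c = 1
  · exact relC_ctx a1 b1 A C hc (h.2 _)
  · exact fun X => ⟨fun E hE => (hc (free_c b1 hE)).elim, fun E hE => (hc (free_c b1 hE)).elim⟩

theorem free_val (b1 : SB1) {n c : ℤ} {D X : List Lt} {E : List (ℕ × ℕ)}
    (h : Free n c (D ++ X) E) : Val n D := by
  obtain ⟨b, hb⟩ := h.1
  exact ((b1.val_app _ _ _).1 (b1.val hb)).1

theorem rel_trans {R : SG → SG → Prop} (hR : ∀ G H K, R G H → R H K → R G K) {n : ℤ}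
    {D D' D'' : List Lt} (h : Rel R n D D') (h' : Rel R n D' D'') : Rel R n D D'' :=
  ⟨h.1.trans h'.1, fun c => relC_trans hR (h.2 c) (h'.2 c)⟩

theorem rel_l {R : SG → SG → Prop} {n c : ℤ} {D D' : List Lt} (h : Rel R n D D')
    {E : List (ℕ × ℕ)} (hE : Free n c D E) : ∃ E', Free n c D' E' ∧ R (gr E) (gr E') := by
  have := (h.2 c []).1 E (by rwa [List.append_nil])
  rwa [List.append_nil] at this

theorem rel_r {R : SG → SG → Prop} {n c : ℤ} {D D' : List Lt} (h : Rel R n D D')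
    {E' : List (ℕ × ℕ)} (hE : Free n c D' E') : ∃ E, Free n c D E ∧ R (gr E) (gr E') := by
  have := (h.2 c []).2 E' (by rwa [List.append_nil])
  rwa [List.append_nil] at this

theorem good_of {n : ℤ} {D D' : List Lt} (h : Rel Eqv n D D') (g : Good n D') : Good n D := by
  intro c E hE
  obtain ⟨E', k1, k2⟩ := rel_l h hE
  rcases g c E' k1 with r | r
  · exact Or.inl (k2.1.2 r)
  · exact Or.inr (k2.2.2 r)

end B2aux

open B2aux in
theorem pB2 (a1 : SA1) (b1 : SB1) : SB2 where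
  ex_free := fun h => ex_free b1 h
  uniq := fun h h' => uniq a1 h h'
  rot := fun hA hB h => rot b1 hA hB h
  locC := fun Θ h1 h2 h3 h4 => locC a1 b1 Θ h1 h2 h3 h4
  same := fun h1 h2 h3 => ⟨h2, h1, fun _ => locC a1 b1 id
    (fun x y E hn _ h => (h3 x y E hn).1 h)
    (fun x y E hn _ h => ⟨E, (h3 x y E hn).2 h, rfl⟩) (fun _ _ => rfl)
    (fun _ _ _ _ _ _ _ _ _ _ => eqv_refl _)⟩
  relC_symm := fun h => relC_symm h
  relC_trans := fun h h' => relC_trans (R := Eqv) (fun _ _ _ => eqv_trans) h h'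
  relC_ctx := fun A C hc h => relC_ctx a1 b1 A C hc h
  ctx := fun A C h => ctx a1 b1 A C h
  vac := fun h h1 h2 => ⟨h, fun _ _ =>
    ⟨fun _ hE => (h1 (free_val b1 hE)).elim, fun _ hE => (h2 (free_val b1 hE)).elim⟩⟩
  rel_trans := fun h h' => rel_trans (R := Eqv) (fun _ _ _ => eqv_trans) h h'
  refl := fun n D => ⟨rfl, rfl, fun c => relC_refl eqv_refl n c D⟩
  symm := fun h => ⟨h.1.symm, h.2.1.symm, fun c => relC_symm (h.2.2 c)⟩
  trans := fun h h' => ⟨h.1.trans h'.1, rel_trans (R := Eqv) (fun _ _ _ => eqv_trans) h.2 h'.2⟩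
  ectx := fun A C h => ⟨by simp only [b1.cr_app, h.1], ctx a1 b1 A C h.2⟩
  mn_of := fun h => ⟨h.1, fun c => relC_mono (fun _ _ e => ⟨e.1.1, e.2.2⟩) (h.2 c)⟩
  mrefl := fun n D => ⟨rfl, fun c => relC_refl (R := Mn) (fun _ => ⟨id, id⟩) n c D⟩
  mtrans := fun h h' => rel_trans (R := Mn) (fun _ _ _ => mn_trans) h h'
  mctx := fun A C h => ctx a1 b1 A C h
  rctx := fun A C h => by
    obtain ⟨D', k1, k2⟩ := h
    exact ⟨A ++ D' ++ C, by simp only [b1.cr_app]; omega, ctx a1 b1 A C k2⟩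
  rdc_of := fun h h' => by
    obtain ⟨D', k1, k2⟩ := h'
    exact ⟨D', h.1 ▸ k1, rel_trans (R := Eqv) (fun _ _ _ => eqv_trans) h.2 k2⟩
  good_of := fun h g => good_of h g
  good_rdc := fun h g => by
    obtain ⟨D', k1, k2⟩ := h
    exact good_of k2 (g D' k1)
  bad_of := fun h g c E hE => by
    obtain ⟨E', k1, k2⟩ := rel_l h hE
    exact k2.2 (g c E' k1)
  rd_of := fun h g c E' hE => by
    obtain ⟨E, k1, k2⟩ := rel_r h hE
    exact k2.1 (g c E k1)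
  good_rot := fun g c E hE => by
    obtain ⟨E', k1, k2⟩ := rotF a1 b1 hE
    exact k2 ▸ g _ E' k1
  bad_rot := fun g c E hE => by
    obtain ⟨E', k1, k2⟩ := rotF a1 b1 hE
    exact k2 ▸ g _ E' k1
  good_bad := fun g c E hE => Or.inr (g c E hE)
  good_rd := fun g c E hE => Or.inl (g c E hE)

end Pool.Agent.P.MP_5af56b_co.Tor
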