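import Pool.Agent.P.MP_5af56b_co.Tor.Stmt

namespace Pool.Agent.P.MP_5af56b_co.Tor

open Finset

namespace BBaux

/-- merging the groups into three -/
def mu (a b g : ℕ) : ℕ := if g < a then 0 else if g < b then 1 else 2

theorem per_mul {α : Type} {n : ℤ} {γ : ℤ → α} (h : ∀ i, γ (i + n) = γ i) (i k : ℤ) :
    γ (i + n * k) = γ i := by
  induction k using Int.induction_on with
  | zero => simp
  | succ k ih => rw [show i + n * ((k : ℤ) + 1) = i + n * k + n by ring, h, ih]
  | pred k ih =>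
    rw [← h (i + n * (-(k : ℤ) - 1)), show i + n * (-(k : ℤ) - 1) + n = i + n * -(k : ℤ) by ring, ih]

theorem pos_mul {n D : ℤ} {x : ℤ → ℤ} (h : ∀ i, x (i + n) = x i + D) (i k : ℤ) :
    x (i + n * k) = x i + D * k := by
  induction k using Int.induction_on with
  | zero => simp
  | succ k ih => rw [show i + n * ((k : ℤ) + 1) = i + n * k + n by ring, h, ih]; ring
  | pred k ih =>
    have := h (i + n * (-(k : ℤ) - 1))
    rw [show i + n * (-(k : ℤ) - 1) + n = i + n * -(k : ℤ) by ring, ih] at this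
    linarith

theorem pre_eq (M : List (ℤ × ℤ)) (a : ℕ) : pre M a = ∑ g ∈ range a, M.getD g 0 := by
  induction a with
  | zero => simp [pre]
  | succ a ih =>
    rw [Finset.sum_range_succ, ← ih, pre, pre, List.take_add_one, List.sum_append,
      List.getD_eq_getElem?_getD]
    cases M[a]? <;> simp

theorem pre_sum {n : ℤ} {γ : ℤ → ℕ} {M : List (ℤ × ℤ)} {F : ℤ → ℤ × ℤ}
    (h : ∀ g, (∑ i ∈ Ico 0 n, if γ i = g then F i else 0) = M.getD g 0) (a : ℕ) :
    pre M a = ∑ i ∈ Ico 0 n, if γ i < a then F i else 0 := by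
  rw [pre_eq, ← Finset.sum_congr rfl fun g _ => h g, Finset.sum_comm]
  refine Finset.sum_congr rfl fun i _ => ?_
  rw [Finset.sum_ite_eq]
  simp only [Finset.mem_range]

theorem cut_sum {n : ℤ} {γ : ℤ → ℕ} {M : List (ℤ × ℤ)} {F : ℤ → ℤ × ℤ} {a b : ℕ} (hab : a ≤ b)
    (hl : ∀ i, γ i < M.length)
    (h : ∀ g, (∑ i ∈ Ico 0 n, if γ i = g then F i else 0) = M.getD g 0) (g : ℕ) :
    (∑ i ∈ Ico 0 n, if mu a b (γ i) = g then F i else 0) = (cut3 M a b).getD g 0 := by
  have hM : M.sum = pre M M.length := by simp [pre]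
  rcases g with _ | _ | _ | g
  · show _ = pre M a
    rw [pre_sum h]
    refine Finset.sum_congr rfl fun i _ => ?_
    unfold mu
    split_ifs <;> first | rfl | contradiction | omega
  · show _ = pre M b - pre M a
    rw [pre_sum h, pre_sum h, ← Finset.sum_sub_distrib]
    refine Finset.sum_congr rfl fun i _ => ?_
    unfold mu
    split_ifs <;> first | contradiction | omega | simp
  · show _ = M.sum - pre M b
    rw [hM, pre_sum h, pre_sum h, ← Finset.sum_sub_distrib]
    refine Finset.sum_congr rfl fun i _ => ?_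
    have := hl i
    unfold mu
    split_ifs <;> first | contradiction | omega | simp
  · show _ = 0
    refine Finset.sum_eq_zero fun i _ => ?_
    unfold mu
    split_ifs <;> first | rfl | contradiction | omega

theorem cut_xy {n : ℤ} {w x : ℤ → ℤ} {γ : ℤ → ℕ} {M : List (ℤ × ℤ)} {a b : ℕ} (hab : a ≤ b)
    (d : Dat0 n w x γ M) (g : ℕ) :
    Xc n w (fun i => mu a b (γ i)) g = ((cut3 M a b).getD g 0).1 ∧
      Yc n (fun i => mu a b (γ i)) g = ((cut3 M a b).getD g 0).2 := by
  have key : ∀ (δ : ℤ → ℕ) (g : ℕ),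
      (∑ i ∈ Ico 0 n, if δ i = g then ((w i / n, 1) : ℤ × ℤ) else 0) =
        (Xc n w δ g, Yc n δ g) := by
    intro δ g
    refine Prod.ext ?_ ?_
    · rw [Prod.fst_sum]
      exact Finset.sum_congr rfl fun i _ => by split_ifs <;> rfl
    · rw [Prod.snd_sum]
      exact Finset.sum_congr rfl fun i _ => by split_ifs <;> rfl
  have := cut_sum (F := fun i => ((w i / n, 1) : ℤ × ℤ)) hab d.lt
    (fun g => by rw [key, d.xc, d.yc]) g
  rw [key (fun i => mu a b (γ i)) g] at this
  rw [← this]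
  exact ⟨rfl, rfl⟩

theorem tr_grp {n i j : ℤ} {γ : ℤ → ℕ} (hp : ∀ t, γ (t + n) = γ t) (hij : γ i = γ j) (t : ℤ) :
    γ (tr n i j t) = γ t := by
  unfold tr
  split_ifs with h1 h2
  · obtain ⟨k, hk⟩ := h1
    rw [show t - i + j = j + n * k by linarith, show t = i + n * k by linarith, per_mul hp,
      per_mul hp, hij]
  · obtain ⟨k, hk⟩ := h2
    rw [show t - j + i = i + n * k by linarith, show t = j + n * k by linarith, per_mul hp,
      per_mul hp, hij]
  · rfl

theorem tr_disp (p : SP) {n D i j : ℤ} {w x : ℤ → ℤ} {γ : ℤ → ℕ} (hw : AP n w) (hx : Pos n D x)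
    (hp : ∀ t, γ (t + n) = γ t) (hij : γ i = γ j) (hlt : i < j) (hinv : w j < w i) (t : ℤ) :
    ∃ s s', γ s = γ t ∧ γ s' = γ t ∧ x (w s) - x s ≤ x (w (tr n i j t)) - x t ∧
      x (w (tr n i j t)) - x t ≤ x (w s') - x s' := by
  have m1 := hx.2.1 hlt.le
  have m2 := hx.2.1 hinv.le
  unfold tr
  split_ifs with h1 h2
  · obtain ⟨k, hk⟩ := h1
    rw [show t - i + j = j + n * k by linarith, show t = i + n * k by linarith, per_mul hp,
      p.mul hw, pos_mul hx.2.2, pos_mul hx.2.2]
    exact ⟨j, i, hij.symm, rfl, by linarith, by linarith⟩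
  · obtain ⟨k, hk⟩ := h2
    rw [show t - j + i = i + n * k by linarith, show t = j + n * k by linarith, per_mul hp,
      p.mul hw, pos_mul hx.2.2, pos_mul hx.2.2]
    exact ⟨j, i, rfl, hij, by linarith, by linarith⟩
  · exact ⟨t, t, rfl, rfl, le_rfl, le_rfl⟩

theorem tr_xc (p : SP) (r : SR) {n i j : ℤ} {w : ℤ → ℤ} {γ : ℤ → ℕ} (hn : 0 < n) (hw : AP n w)
    (hg : Grp n w γ) (hij : γ i = γ j) (hnd : ¬ n ∣ i - j) (g : ℕ) :
    Xc n (fun t => w (tr n i j t)) γ g = Xc n w γ g := by
  have hτ := p.tr_ap hn hnd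
  have hg' : Grp n (fun t => w (tr n i j t)) γ :=
    ⟨hg.1, fun t => by rw [hg.2, tr_grp hg.1 hij]⟩
  have e1 := r.xc_sum g hn (p.comp hw hτ) hg'
  have e2 := r.xc_sum g hn hw hg
  have e3 := p.sumper (fun t => if γ t = g then w t - t else 0) hn hτ fun t => by
    rw [hg.1, hw.2, show w t + n - (t + n) = w t - t by ring]
  have e4 := p.sumper (fun t => if n ∣ t - i then (1 : ℤ) else 0) hn (p.shift n (i - j)) fun t => by
    rw [show t + n - i = t - i + n by ring]
    simp only [dvd_add_self_right]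
  have e5 : (∑ t ∈ Ico 0 n, if γ t = g then w (tr n i j t) - t else 0) =
      (∑ t ∈ Ico 0 n, if γ (tr n i j t) = g then w (tr n i j t) - tr n i j t else 0) +
        (if γ i = g then j - i else 0) * ((∑ t ∈ Ico 0 n, if n ∣ t - i then (1 : ℤ) else 0) -
          ∑ t ∈ Ico 0 n, if n ∣ t + (i - j) - i then (1 : ℤ) else 0) := by
    rw [← Finset.sum_sub_distrib, Finset.mul_sum, ← Finset.sum_add_distrib]
    refine Finset.sum_congr rfl fun t _ => ?_
    rw [tr_grp hg.1 hij, show t + (i - j) - i = t - j by ring]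
    by_cases h1 : n ∣ t - i
    · have h2 : ¬ n ∣ t - j := fun h2 => hnd (by
        have := dvd_sub h2 h1
        rwa [show t - j - (t - i) = i - j by ring] at this)
      have h3 : γ t = γ i := by
        obtain ⟨k, hk⟩ := h1
        rw [show t = i + n * k by linarith, per_mul hg.1]
      have h4 : tr n i j t = t - i + j := by unfold tr; rw [if_pos h1]
      rw [h3, h4, if_pos h1, if_neg h2]
      split_ifs <;> ring
    · by_cases h2 : n ∣ t - j
      · have h3 : γ t = γ i := by
          obtain ⟨k, hk⟩ := h2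
          rw [show t = j + n * k by linarith, per_mul hg.1, hij]
        have h4 : tr n i j t = t - j + i := by unfold tr; rw [if_neg h1, if_pos h2]
        rw [h3, h4, if_neg h1, if_pos h2]
        split_ifs <;> ring
      · have h4 : tr n i j t = t := by unfold tr; rw [if_neg h1, if_neg h2]
        rw [h4, if_neg h1, if_neg h2]
        ring
  rw [e4, sub_self, mul_zero, add_zero, e3] at e5
  rw [e5, ← e2] at e1
  exact mul_left_cancel₀ hn.ne' e1

/-- sorting inside the groups -/
theorem sort (b2 : SB2) (p : SP) (d2 : SD2) (r : SR) {n D : ℤ} {x : ℤ → ℤ} {γ : ℤ → ℕ}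
    (hn : 2 ≤ n) (hx : Pos n D x) (N : ℕ) : ∀ U : List Lt, cr U ≤ N → IsBr U →
    Grp n (pw n U) γ → Sep (pw n U) x γ →
    ∃ U', IsBr U' ∧ Mnw n U U' ∧ Grp n (pw n U') γ ∧ Sep (pw n U') x γ ∧
      (∀ g, Xc n (pw n U') γ g = Xc n (pw n U) γ g) ∧
      ∀ i j, γ i = γ j → i < j → pw n U' i < pw n U' j := by
  induction N using Nat.strong_induction_on with
  | _ N ih =>
    intro U hN hU hg hs
    by_cases hsort : ∀ i j, γ i = γ j → i < j → pw n U i < pw n U j
    · exact ⟨U, hU, b2.mrefl n U, hg, hs, fun _ => rfl, hsort⟩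
    push Not at hsort
    obtain ⟨i, j, hij, hlt, hle⟩ := hsort
    have hw := p.pw_ap U hn
    have hinv : pw n U j < pw n U i :=
      lt_of_le_of_ne hle fun e => hlt.ne' (hw.1.1 e)
    have hnd : ¬ n ∣ i - j := by
      rintro ⟨k, hk⟩
      have e := p.mul hw j k
      rw [show j + n * k = i by linarith] at e
      linarith
    obtain ⟨U1, hU1, hcr, hmn, hpw⟩ := d2.se hn hU hlt hinv
    have hg1 : Grp n (pw n U1) γ := by
      rw [hpw]
      exact ⟨hg.1, fun t => by rw [hg.2, tr_grp hg.1 hij]⟩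
    have hs1 : Sep (pw n U1) x γ := by
      rw [hpw]
      intro s t hst
      obtain ⟨_, s', _, e1, _, l1⟩ := tr_disp p hw hx hg.1 hij hlt hinv s
      obtain ⟨t', _, e2, _, l2, _⟩ := tr_disp p hw hx hg.1 hij hlt hinv t
      have := hs s' t' (by rw [e1, e2]; exact hst)
      linarith
    obtain ⟨U', h1, h2, h3, h4, h5, h6⟩ := ih (cr U1) (by omega) U1 le_rfl hU1 hg1 hs1
    refine ⟨U', h1, b2.mtrans hmn h2, h3, h4, fun g => ?_, h6⟩
    rw [h5, hpw]
    exact tr_xc p r (by omega) hw hg hij hnd g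

end BBaux

open BBaux in
theorem pBB (b1 : SB1) (b2 : SB2) (p : SP) (d2 : SD2) (h : SH) (r : SR) (tl : STL) : SBB := by
  intro n D U x γ M ks a b hn he hU hx d hab hE
  obtain ⟨U2, γ2, y, D2, ec, sep2, sh2, bad2⟩ := hE
  have hn0 : 0 < n := by omega
  set δ : ℤ → ℕ := fun i => mu a b (γ i) with hδ
  have hg : Grp n (pw n U) δ :=
    ⟨fun i => by simp only [hδ, d.grp.1], fun i => by simp only [hδ, d.grp.2]⟩
  have hs : Sep (pw n U) x δ := fun i j hij => d.sep i j (by
    simp only [hδ, mu] at hij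
    split_ifs at hij <;> omega)
  obtain ⟨U', hU', hmn, hg', hs', hxc, hsort⟩ := sort b2 p d2 r hn hx (cr U) U le_rfl hU hg hs
  have hw' := p.pw_ap U' hn
  have hw2 := p.pw_ap U2 hn
  have shift : ∀ i, rk δ (δ i) (pw n U' i) = rk δ (δ i) i + ((cut3 M a b).getD (δ i) 0).1 := by
    intro i
    rw [← (cut_xy hab d (δ i)).1, ← hxc]
    refine r.flux hn0 hw' hg' fun t ht => ⟨fun hle => ?_, fun hle => ?_⟩
    · rcases hle.eq_or_lt with e | l
      · rw [e]
      · exact (hsort i t ht.symm l).le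
    · by_contra hc
      exact absurd (hsort t i ht (not_le.1 hc)) (not_lt.2 hle)
  obtain ⟨φ, hφ, hm⟩ := r.mtch (fun _ => 0) hn0 hg.1 ec.grp.1 fun g => by
    rw [ec.yc, ← (cut_xy hab d g).2]
  simp only [add_zero] at hm
  have inj : ∀ {g : ℕ} {s t : ℤ}, γ2 s = g → γ2 t = g → rk γ2 g s = rk γ2 g t → s = t := by
    intro g s t h1 h2 e
    rcases lt_trichotomy s t with l | l | l
    · exact absurd e (r.lt h1 l).ne
    · exact l
    · exact absurd e (r.lt h2 l).ne'
  have conj : ∀ i, pw n U2 (φ i) = φ (pw n U' i) := by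
    intro i
    have e1 := sh2 (φ i)
    have e2 := (hm (pw n U' i)).2
    rw [(hm i).1, (hm i).2] at e1
    rw [hg'.2, shift] at e2
    exact inj (g := δ i) (by rw [ec.grp.2, (hm i).1]) (by rw [(hm _).1, hg'.2]) (e1.trans e2.symm)
  have ord : ∀ i j, δ i = δ j → i < j → φ i < φ j := by
    intro i j hij hlt
    have l := r.lt (rfl : δ i = δ i) hlt
    have e1 := (hm i).2
    have e2 := (hm j).2
    rw [← hij] at e2
    by_contra hc
    have := r.mono γ2 (δ i) (not_lt.1 hc)
    linarith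
  have hP : PB n (Z n (List.replicate (wind ks) 0)) (pw n U') :=
    tl hn (h.cycB _ hn he) hw' hw2 hφ conj hg' (fun i => (hm i).1) ord hx ec.pos ec.smono hs' sep2
      (h.pb hn he ec.br ec.red bad2)
  have m1 : Mnw n (U ++ Z n ks) (U' ++ Z n ks) := by
    have := b2.mctx (n := n) (D := U) (D' := U') [] (Z n ks) (by simpa [dn] using hmn)
    simpa using this
  have m2 : Mnw n (U' ++ Z n ks) (U' ++ Z n (List.replicate (wind ks) 0)) := by
    have := b2.mctx (n := n) (D := Z n ks) (D' := Z n (List.replicate (wind ks) 0)) U' []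
      (by rw [b1.br_dn hU', add_zero]; exact h.z_split ks hn0.le)
    simpa using this
  exact b2.bad_of (b2.mtrans m1 m2) (hP U' hU' rfl)

end Pool.Agent.P.MP_5af56b_co.Tor
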