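import Pool.Agent.P.MP_5af56b_co.Defs

namespace Pool.Agent.P.MP_5af56b_co.Tor

/-- A Delta-Y or a Y-Delta exchange; `R` is the multiset of the edges left untouched. -/
inductive DY : MG → MG → Prop
  | deltaY (G H : MG) (a b c w : ℕ) (R : Multiset (Sym2 ℕ)) :
      w ∉ G.V → H.V = insert w G.V → G.E = {s(a, b), s(b, c), s(c, a)} + R →
      H.E = {s(w, a), s(w, b), s(w, c)} + R → DY G H
  | yDelta (G H : MG) (a b c v : ℕ) (R : Multiset (Sym2 ℕ)) :
      v ∉ H.V → G.V = insert v H.V → G.E = {s(v, a), s(v, b), s(v, c)} + R →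
      H.E = {s(a, b), s(b, c), s(c, a)} + R → DY G H

/-- The Petersen graph: outer 5-cycle, spokes, inner pentagram. -/
def petersen : MG := ofList [(0, 1), (1, 2), (2, 3), (3, 4), (4, 0), (0, 5), (1, 6), (2, 7), (3, 8),
  (4, 9), (5, 7), (7, 9), (9, 6), (6, 8), (8, 5)]

/-- Graphs obtained from the Petersen graph by Delta-Y and Y-Delta exchanges. -/
def PetersenFamily (H : MG) : Prop := Relation.ReflTransGen DY petersen H

/-- `K_{5,5}` minus a perfect matching: `i` is joined to `5 + j` for `i ≠ j` below 5. -/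
def k55m : MG :=
  ofList ((List.range 5).flatMap fun i => ((List.range 5).filter (· ≠ i)).map fun j => (i, 5 + j))

/-- The torus grid `C_n × C_n`; vertex `(i, j)` has the label `i * n + j`. -/
def torus (n : ℕ) : MG :=
  ofList ((List.range n).flatMap fun i => (List.range n).flatMap fun j =>
    [(i * n + j, i * n + (j + 1) % n), (i * n + j, (i + 1) % n * n + j)])

/-- Minors of torus grids. -/
def Toroidal (G : MG) : Prop := ∃ n, 3 ≤ n ∧ IsMinor G (torus n)

end Pool.Agent.P.MP_5af56b_co.Tor
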