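import Pool.Agent.P.MP_5af56b_co.Tor.Stmt

namespace Pool.Agent.P.MP_5af56b_co.Tor

open Finset

lemma blk_mul {f : ℤ → ℤ} {a X : ℤ} (h : ∀ j, f (j + a) = f j + X) (j s : ℤ) :
    f (j + a * s) = f j + X * s := by
  induction s using Int.induction_on with
  | zero => simp
  | succ s ih => rw [mul_add, mul_one, ← add_assoc, h, ih]; ring
  | pred s ih =>
    have := h (j + a * (-(s : ℤ) - 1))
    rw [show j + a * (-(s : ℤ) - 1) + a = j + a * -(s : ℤ) by ring, ih] at this
    linarith

lemma blk_div {D u q : ℤ} (hD : 0 < D) (h1 : D * q ≤ u) (h2 : u < D * q + D) : u / D = q := by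
  apply le_antisymm
  · exact Int.lt_add_one_iff.mp ((Int.ediv_lt_iff_lt_mul hD).mpr (by linarith))
  · exact (Int.le_ediv_iff_mul_le hD).mpr (by linarith)

lemma blk_least {f : ℤ → ℤ} {n b : ℤ} (hb : 1 ≤ b) (hm : Monotone f)
    (h : ∀ i, f (i + n) = f i + b) (j : ℤ) : ∃ c, ∀ i, c ≤ i ↔ j ≤ f i := by
  have e := blk_mul h 0
  obtain ⟨c, h1, h2⟩ := Int.exists_least_of_bdd (P := fun i => j ≤ f i)
    ⟨0 + n * -(|j - f 0| + 1), fun z hz => by
      by_contra! hc
      have a1 := hm hc.le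
      rw [e] at a1
      have a2 := neg_abs_le (j - f 0)
      have a3 := abs_nonneg (j - f 0)
      nlinarith⟩
    ⟨0 + n * |j - f 0|, by
      rw [e]
      have a2 := le_abs_self (j - f 0)
      have a3 := abs_nonneg (j - f 0)
      nlinarith⟩
  exact ⟨c, fun i => ⟨fun hi => h1.trans (hm hi), h2 i⟩⟩

lemma blk_yc_le {n : ℤ} (hn : 0 ≤ n) (γ : ℤ → ℕ) (g : ℕ) : Yc n γ g ≤ n := by
  have : Yc n γ g ≤ ∑ _i ∈ Ico 0 n, (1 : ℤ) :=
    sum_le_sum fun i _ => by split_ifs <;> omega
  rw [sum_const, Int.card_Ico, nsmul_eq_mul, mul_one, sub_zero, Int.toNat_of_nonneg hn] at this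
  exact this

theorem pBlk (p : SP) (r : SR) : SBlk := by
  intro n D w x σ γ M hn hD hS hF g
  obtain ⟨hw, ⟨hD0, hxm, hxp⟩, -, -, hσ⟩ := hS
  by_cases hex : ∃ i, γ i = g
  swap
  · exact ⟨0, fun i hi => absurd ⟨i, hi⟩ hex⟩
  obtain ⟨i0, hi0⟩ := hex
  have hn0 : 0 < n := by omega
  have hG := hF.dat.grp
  have hX := hF.dat.xc g
  have hY := hF.dat.yc g
  have hsl : ∀ i, γ i = g → QQ n * (M.getD g 0).1 = σ i * (M.getD g 0).2 := fun i hi => by
    have := hF.slope i
    rwa [hi] at this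
  have hY0 : 0 < (M.getD g 0).2 := by
    have a1 := r.per g i0 1 hn0 hG.1
    have a2 := r.lt (j := i0 + n * 1) hi0 (by omega)
    rw [← hY]
    linarith
  have hYn : (M.getD g 0).2 ≤ n := hY ▸ blk_yc_le hn0.le γ g
  unfold kk
  generalize (M.getD g 0).1 = X at *
  generalize (M.getD g 0).2 = Y at *
  have hk : (0 : ℤ) < (Int.gcd X Y : ℕ) := by
    exact_mod_cast Int.gcd_pos_of_ne_zero_right X hY0.ne'
  obtain ⟨a, ha⟩ : ((Int.gcd X Y : ℕ) : ℤ) ∣ X := Int.gcd_dvd_left ..
  obtain ⟨b, hb⟩ : ((Int.gcd X Y : ℕ) : ℤ) ∣ Y := Int.gcd_dvd_right ..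
  have hbz := Int.gcd_eq_gcd_ab X Y
  generalize Int.gcdA X Y = s at hbz
  generalize Int.gcdB X Y = t at hbz
  generalize ((Int.gcd X Y : ℕ) : ℤ) = k at *
  have hb0 : 1 ≤ b := by
    by_contra! hc
    nlinarith
  have hbn : b ≤ n := by nlinarith
  have hst : a * s + b * t = 1 := by
    refine mul_left_cancel₀ hk.ne' ?_
    rw [mul_one]
    conv_rhs => rw [hbz]
    rw [mul_add, ← mul_assoc, ← mul_assoc, ← ha, ← hb]
  have hQ : 1 ≤ QQ n := by
    unfold QQ
    exact_mod_cast Nat.factorial_pos _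
  unfold D0 at hD
  generalize QQ n = Q at *
  have hbQ : b * Q ≤ n * Q ^ 2 :=
    mul_le_mul hbn (by nlinarith) (by omega) hn0.le
  clear p
  obtain ⟨p, hp⟩ := r.gap (n := n) (D := D) (C := b * Q) (fun i => b * x i) hn0 (by positivity) (by
    have a1 : 2 * (b * Q) + 1 ≤ 10 * (n + 1) * Q ^ 2 := by nlinarith
    calc (n + 1) * (2 * (b * Q) + 1) ≤ (n + 1) * (10 * (n + 1) * Q ^ 2) := by gcongr
      _ = 10 * (n + 1) ^ 2 * Q ^ 2 := by ring
      _ ≤ D := hD)
  have hp' : ∀ i j, b * Q < |b * x i - p - j * D| := fun i j => by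
    have a1 := hp (i % n) (Int.emod_nonneg _ hn0.ne') (Int.emod_lt_of_pos _ hn0) (j - b * (i / n))
    have a2 := blk_mul hxp (i % n) (i / n)
    rw [Int.emod_add_mul_ediv] at a2
    rw [a2]
    convert a1 using 2
    ring
  set f : ℤ → ℤ := fun i => (b * x i - p) / D with hf
  have hfm : Monotone f := fun i j hij => Int.ediv_le_ediv hD0 (by nlinarith [hxm hij])
  have hfp : ∀ i, f (i + n) = f i + b := fun i => by
    simp only [hf, hxp]
    rw [show b * (x i + D) - p = b * x i - p + b * D by ring, Int.add_mul_ediv_right _ _ hD0.ne']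
  have hfw : ∀ i, γ i = g → f (w i) = f i + a := fun i hi => by
    have a1 : Q * a = σ i * b := by
      refine mul_left_cancel₀ hk.ne' ?_
      have := hsl i hi
      rw [ha, hb] at this
      linarith
    have a2 := abs_le.mp (hσ i)
    have a3 : b * (x (w i) - x i) - D * a ≤ b * Q := by
      refine le_of_mul_le_mul_left ?_ (by omega : 0 < Q)
      have : Q * (b * (x (w i) - x i) - D * a) = b * (Q * (x (w i) - x i) - D * σ i) := by
        linear_combination (-D) * a1
      rw [this]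
      nlinarith [a2.2]
    have a4 : -(b * Q) ≤ b * (x (w i) - x i) - D * a := by
      refine le_of_mul_le_mul_left ?_ (by omega : 0 < Q)
      have : Q * (b * (x (w i) - x i) - D * a) = b * (Q * (x (w i) - x i) - D * σ i) := by
        linear_combination (-D) * a1
      rw [this]
      nlinarith [a2.1]
    have b1 := Int.emod_add_mul_ediv (b * x i - p) D
    have b2 := Int.emod_nonneg (b * x i - p) hD0.ne'
    have b3 := Int.emod_lt_of_pos (b * x i - p) hD0
    have c1 := hp' i (f i)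
    have c2 := hp' i (f i + 1)
    have e1 : b * x i - p - f i * D = (b * x i - p) % D := by
      simp only [hf]; linarith
    have e2 : b * x i - p - (f i + 1) * D = (b * x i - p) % D - D := by linarith
    rw [e1, abs_of_nonneg b2] at c1
    rw [e2, abs_of_neg (by linarith)] at c2
    refine blk_div hD0 ?_ ?_ <;> linarith
  choose c hc using blk_least hb0 hfm hfp
  have hcb : ∀ j, c (j + b) = c j + n := fun j => by
    refine eq_of_forall_ge_iff fun i => ?_
    have := hfp (i - n)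
    rw [sub_add_cancel] at this
    rw [hc, ← le_sub_iff_add_le (a := c j), hc, this]
    exact add_le_add_iff_right b
  have B1 : ∀ j, rk γ g (c (j + b)) = rk γ g (c j) + Y := fun j => by
    have := r.per g (c j) 1 hn0 hG.1
    rw [mul_one, mul_one, hY] at this
    rw [hcb, this]
  have B2 : ∀ j, rk γ g (c (j + a)) = rk γ g (c j) + X := fun j => by
    rw [← hX]
    refine r.flux hn0 hw hG fun i hi => ?_
    rw [hc, hc, hfw i hi]
    exact (add_le_add_iff_right a).symm
  have B3 : ∀ j, rk γ g (c (j + 1)) = rk γ g (c j) + k := fun j => by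
    rw [← hst, ← add_assoc, blk_mul (f := fun j => rk γ g (c j)) B1,
      blk_mul (f := fun j => rk γ g (c j)) B2]
    linarith
  have B4 : ∀ j, rk γ g (c j) = rk γ g (c 0) + k * j := fun j => by
    have := blk_mul (f := fun j => rk γ g (c j)) B3 0 j
    rwa [zero_add, one_mul] at this
  have key : ∀ i, γ i = g → (rk γ g i + -rk γ g (c 0)) / k = f i := fun i hi => by
    have a1 := r.mono γ g ((hc (f i) i).mpr le_rfl)
    have a2 := r.lt (j := c (f i + 1)) hi (not_le.mp fun h => by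
      have := (hc _ _).mp h
      omega)
    rw [B4] at a1 a2
    refine blk_div hk ?_ ?_ <;> linarith
  refine ⟨-rk γ g (c 0), fun i hi => ?_⟩
  rw [key i hi, key (w i) ((hG.2 i).trans hi), hfw i hi, ha, Int.mul_ediv_cancel_left _ hk.ne']

end Pool.Agent.P.MP_5af56b_co.Tor
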