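import Pool.Agent.P.MP_5af56b_co.Tor.Stmt

namespace Pool.Agent.P.MP_5af56b_co.Tor

namespace C1aux

theorem run1 {g : Lt} {x z : St} {E : List (ℕ × ℕ)} :
    Run [g] x z E ↔ x.Ok ∧ z.Ok ∧ Stp g x z E := by
  constructor
  · rintro ⟨hx, y, e, E', hs, ⟨hy, rfl, rfl⟩, rfl⟩
    exact ⟨hx, hy, by simpa using hs⟩
  · rintro ⟨hx, hz, hs⟩
    exact ⟨hx, z, E, [], hs, ⟨hz, rfl, rfl⟩, by simp⟩

theorem run2 {g h : Lt} {x z : St} {E : List (ℕ × ℕ)} :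
    Run [g, h] x z E ↔ x.Ok ∧ z.Ok ∧ ∃ y e1 e2, y.Ok ∧ Stp g x y e1 ∧ Stp h y z e2 ∧ E = e1 ++ e2 := by
  constructor
  · rintro ⟨hx, y, e, E', hs, hr, rfl⟩
    obtain ⟨hy, hz, h2⟩ := run1.1 hr
    exact ⟨hx, hz, y, e, E', hy, hs, h2, rfl⟩
  · rintro ⟨hx, hz, y, e1, e2, hy, h1, h2, rfl⟩
    exact ⟨hx, y, e1, e2, h1, run1.2 ⟨hy, hz, h2⟩, rfl⟩

theorem nd {n a : ℤ} (h1 : -n < a) (h2 : a < n) (h3 : a ≠ 0) : ¬ n ∣ a := fun h =>
  h3 (Int.eq_zero_of_abs_lt_dvd h (abs_lt.2 ⟨h1, h2⟩))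

theorem ndn {n a b : ℤ} (h : ¬ n ∣ a) (e : b = -a) : ¬ n ∣ b := fun h' => h (by
  rw [e] at h'
  exact (dvd_neg).1 h')

/-- reduction to a window -/
theorem win (b1 : SB1) {y z : St} (hy : y.Ok) (hz : z.Ok) (hn : z.n = y.n) (h0 : 0 < y.n) (k : ℤ)
    (h : ∀ j, 0 ≤ j → j < y.n → z.b (j + k) = y.b j) (j : ℤ) : z.b (j + k) = y.b j := by
  have e : y.n ∣ j - j % y.n := ⟨j / y.n, by have := Int.mul_ediv_add_emod j y.n; linarith⟩
  rw [b1.per hy e, ← h _ (Int.emod_nonneg _ h0.ne') (Int.emod_lt_of_pos _ h0)]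
  refine b1.per hz ?_
  rw [hn]
  simpa using e

/-- reduction to a window, one class excluded -/
theorem win' (b1 : SB1) {y z : St} (hy : y.Ok) (hz : z.Ok) (hn : z.n = y.n) (h0 : 0 < y.n) (i : ℤ)
    (h : ∀ j, 0 ≤ j → j < y.n → j ≠ i → z.b j = y.b j) (j : ℤ) (hj : ¬ y.n ∣ j - i) :
    z.b j = y.b j := by
  have e : y.n ∣ j - j % y.n := ⟨j / y.n, by have := Int.mul_ediv_add_emod j y.n; linarith⟩
  rw [b1.per hy e, ← h _ (Int.emod_nonneg _ h0.ne') (Int.emod_lt_of_pos _ h0)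
    (fun h' => hj (h' ▸ e))]
  refine b1.per hz ?_
  rw [hn]
  exact e

theorem t1 (b1 : SB1) (b2 : SB2) (n a b : ℤ) : Eqw n [.t a, .t b] [.t (a + b)] := by
  refine b2.same (by simp [dn, dl]) rfl fun x z E _ => ?_
  rw [run1, run2]
  constructor
  · rintro ⟨hx, hz, y, e1, e2, hy, ⟨h2, n1, c1, f1, rfl⟩, ⟨-, n2, c2, f2, rfl⟩, rfl⟩
    refine ⟨hx, hz, h2, by omega, by omega, fun j => ?_, rfl⟩
    rw [← add_assoc, f2, f1]
  · rintro ⟨hx, hz, h2, n1, c1, f1, rfl⟩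
    obtain ⟨y, hy, hs⟩ := b1.ex_t hx h2 a
    obtain ⟨-, n2, c2, f2, -⟩ := id hs
    refine ⟨hx, hz, y, [], [], hy, hs, ⟨by omega, by omega, by omega, fun j => ?_, rfl⟩, rfl⟩
    have e1 := f1 (j - a)
    have e2 := f2 (j - a)
    rw [show j - a + (a + b) = j + b by ring] at e1
    rw [show j - a + a = j by ring] at e2
    rw [e1, e2]

theorem t2 (b1 : SB1) (b2 : SB2) {n : ℤ} (k : ℤ) (hn : 2 ≤ n) : Eqw n [.t (n * k)] [] := by
  refine b2.same (by simp [dn, dl]) rfl fun x z E hxn => ?_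
  rw [run1]
  subst hxn
  have par : ∀ {x : St}, x.Ok → (x.c + x.n * k) % 2 = x.c := by
    intro x hx
    obtain ⟨-, he, hc, -⟩ := hx
    obtain ⟨m, hm⟩ : ∃ m, x.n = 2 * m := ⟨x.n / 2, by omega⟩
    rw [hm, mul_assoc]
    omega
  constructor
  · rintro ⟨hx, hz, -, n1, c1, f1, rfl⟩
    refine ⟨hx, b1.ext hz hx n1 (by rw [c1, par hx]) fun j _ _ => ?_, rfl⟩
    rw [← f1 j]
    exact b1.per hz ⟨-k, by rw [n1]; ring⟩
  · rintro ⟨hx, rfl, rfl⟩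
    exact ⟨hx, hx, hn, rfl, (par hx).symm, fun j => b1.per hx ⟨k, by ring⟩, rfl⟩

theorem t3 (b1 : SB1) (b2 : SB2) (n k i : ℤ) : Eqw n [.t k, .s i] [.s (i - k), .t k] := by
  refine b2.same (by simp [dn, dl]) rfl fun x z E _ => ?_
  rw [run2, run2]
  have edge : ∀ {x y : St} {p q : ℕ}, y.c = (x.c + k) % 2 → (∀ j, y.b (j + k) = x.b j) → p = q →
      (if (i + y.c) % 2 = 0 then (y.b i, p) else (y.b (i - 1), y.b (i + 1))) =
      (if (i - k + x.c) % 2 = 0 then (x.b (i - k), q) else (x.b (i - k - 1), x.b (i - k + 1))) := by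
    intro x y p q hc f hpq
    rw [← f (i - k), ← f (i - k - 1), ← f (i - k + 1), show i - k + k = i by ring,
      show i - k - 1 + k = i - 1 by ring, show i - k + 1 + k = i + 1 by ring, hpq]
    exact if_congr (by omega) rfl rfl
  constructor
  · rintro ⟨hx, hz, y, e1, e2, hy, ⟨h2, n1, c1, f1, rfl⟩, ⟨-, n2, c2, f2, rfl⟩, rfl⟩
    obtain ⟨w, hw, n3, c3, v3, f3⟩ := b1.ex_s hx h2 (i - k) (z.b i)
    refine ⟨hx, hz, w, _, [], hw, ⟨h2, n3, c3, f3, rfl⟩,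
      ⟨by omega, by omega, by omega, fun j => ?_, rfl⟩, ?_⟩
    · by_cases hd : x.n ∣ j - (i - k)
      · rw [b1.per hw (n3 ▸ hd), v3]
        refine b1.per hz ?_
        rw [n2, n1, show j + k - i = j - (i - k) by ring]
        exact hd
      · rw [f3 j hd, f2, f1]
        rw [n1, show j + k - i = j - (i - k) by ring]
        exact hd
    · rw [edge c1 f1 v3.symm]
      simp
  · rintro ⟨hx, hz, w, e1, e2, hw, ⟨h2, n1, c1, f1, rfl⟩, ⟨-, n2, c2, f2, rfl⟩, rfl⟩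
    obtain ⟨y, hy, hs⟩ := b1.ex_t hx h2 k
    obtain ⟨-, n3, c3, f3, -⟩ := id hs
    refine ⟨hx, hz, y, [], _, hy, hs, ⟨by omega, by omega, by omega, fun j hj => ?_, rfl⟩, ?_⟩
    · have e1 := f2 (j - k)
      have e2 := f3 (j - k)
      rw [show j - k + k = j by ring] at e1 e2
      rw [e1, e2, f1]
      rw [← n3, show j - k - (i - k) = j - i by ring]
      exact hj
    · have e1 := f2 (i - k)
      rw [show i - k + k = i by ring] at e1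
      rw [edge c3 f3 e1]
      simp

theorem t4a (b1 : SB1) {i j : ℤ} {x z : St} {E : List (ℕ × ℕ)} (hx : x.Ok) (hz : z.Ok)
    (h : x.n ∣ i - j) (hs : Stp (.s i) x z E) : Stp (.s j) x z E := by
  obtain ⟨h2, n1, c1, f1, rfl⟩ := hs
  refine ⟨h2, n1, c1, fun m hm => f1 m fun h' => hm ?_, ?_⟩
  · have := dvd_add h' h
    rwa [show m - i + (i - j) = m - j by ring] at this
  · have e1 : x.b (i - 1) = x.b (j - 1) := b1.per hx (by rwa [show i - 1 - (j - 1) = i - j by ring])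
    have e2 : x.b (i + 1) = x.b (j + 1) := b1.per hx (by rwa [show i + 1 - (j + 1) = i - j by ring])
    rw [b1.per hx h, b1.per hz (n1 ▸ h), e1, e2]
    have : (2 : ℤ) ∣ i - j := (Int.dvd_of_emod_eq_zero hx.2.1).trans h
    congr 1
    exact if_congr (by omega) rfl rfl

theorem t4 (b1 : SB1) (b2 : SB2) {n i j : ℤ} (h : n ∣ i - j) : Eqw n [.s i] [.s j] := by
  refine b2.same (by simp [dn, dl]) rfl fun x z E hxn => ?_
  rw [run1, run1]
  subst hxn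
  exact ⟨fun ⟨hx, hz, hs⟩ => ⟨hx, hz, t4a b1 hx hz h hs⟩,
    fun ⟨hx, hz, hs⟩ => ⟨hx, hz, t4a b1 hx hz (dvd_sub_comm.1 h) hs⟩⟩

theorem s1a (b1 : SB1) {i j : ℤ} {x z : St} {E : List (ℕ × ℕ)} (d0 : ¬ x.n ∣ i - j)
    (d1 : ¬ x.n ∣ i - j - 1) (d2 : ¬ x.n ∣ i - j + 1) (h : Run [.s i, .s j] x z E) :
    Run [.s j, .s i] x z E.reverse := by
  rw [run2] at h ⊢
  obtain ⟨hx, hz, y, e1, e2, hy, ⟨h2, n1, c1, f1, rfl⟩, ⟨-, n2, c2, f2, rfl⟩, rfl⟩ := h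
  obtain ⟨w, hw, n3, c3, v3, f3⟩ := b1.ex_s hx h2 j (z.b j)
  refine ⟨hx, hz, w, _, _, hw, ⟨h2, n3, c3, f3, rfl⟩,
    ⟨by omega, by omega, by omega, fun m hm => ?_, rfl⟩, ?_⟩
  · by_cases hd : x.n ∣ m - j
    · rw [b1.per hw (n3 ▸ hd), v3]
      exact b1.per hz (by rw [n2, n1]; exact hd)
    · rw [f3 m hd, f2 m (n1 ▸ hd), f1 m (n3 ▸ hm)]
  · rw [v3, c1, c3, f1 j (ndn d0 (by ring)), f1 (j - 1) (ndn d2 (by ring)),
      f1 (j + 1) (ndn d1 (by ring)), f3 i d0, f2 i (n1 ▸ d0),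
      f3 (i - 1) (by rwa [show i - 1 - j = i - j - 1 by ring]),
      f3 (i + 1) (by rwa [show i + 1 - j = i - j + 1 by ring])]
    simp

theorem eqv_of_eq {G H : SG} (h : G = H) : Eqv G H := h ▸ ⟨Iff.rfl, Iff.rfl⟩

theorem s1 (a1 : SA1) (b1 : SB1) (b2 : SB2) {n i j : ℤ} (d0 : ¬ n ∣ i - j)
    (d1 : ¬ n ∣ i - j - 1) (d2 : ¬ n ∣ i - j + 1) : Eqw n [.s i, .s j] [.s j, .s i] := by
  refine ⟨rfl, by simp [dn, dl], fun c => b2.locC List.reverse ?_ ?_ ?_ ?_⟩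
  · rintro x y E rfl - h
    exact s1a b1 d0 d1 d2 h
  · rintro x y E rfl - h
    exact ⟨E.reverse, s1a b1 (ndn d0 (by ring)) (ndn d2 (by ring)) (ndn d1 (by ring)) h,
      List.reverse_reverse E⟩
  · intro φ E
    simp [mp]
  · intro X x y E Y _ _ _ _ _
    exact eqv_of_eq (a1.ext fun p q => by simp [gr])

theorem c0 (b1 : SB1) (b2 : SB2) {n i : ℤ} (hn : 2 ≤ n) (i0 : 0 ≤ i) (i1 : i ≤ n) :
    Eqw n [.u i] [.t (-i), .u 0, .t i] := by
  refine b2.same (by simp [dn, dl]) rfl fun x z E hxn => ?_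
  subst hxn
  rw [run1]
  constructor
  · rintro ⟨hx, hz, -, -, n1, c1, f1, g1, rfl⟩
    obtain ⟨y1, hy1, hs1⟩ := b1.ex_t hx hn (-i)
    obtain ⟨-, n2, c2, f2, -⟩ := id hs1
    obtain ⟨y2, hy2, hs2, v3⟩ := b1.ex_u hy1 0 (z.b (i + 1)) le_rfl (by omega)
    obtain ⟨-, -, n3, c3, f3, g3, -⟩ := id hs2
    have hc := hx.2.2.1
    have f2' : ∀ m, y1.b m = x.b (m + i) := fun m => by rw [← f2]; congr 1; ring
    refine ⟨hx, y1, [], [], hs1, run2.2 ⟨hy1, hz, y2, [], [], hy2, hs2,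
      ⟨by omega, by omega, by omega, win b1 hy2 hz (by omega) (by omega) i fun j j0 j1 => ?_, rfl⟩,
      rfl⟩, rfl⟩
    rcases (by omega : j = 0 ∨ j = 1 ∨ 2 ≤ j) with rfl | rfl | j2
    · rw [f3 0 le_rfl le_rfl, f2', f1 _ (by omega) (by omega)]
    · rw [add_comm, ← v3]
      rfl
    · obtain ⟨m, rfl⟩ : ∃ m, j = m + 2 := ⟨j - 2, by ring⟩
      rw [g3 m (by omega) (by omega), f2']
      by_cases hm : m + i ≤ x.n
      · rw [← g1 (m + i) (by omega) hm]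
        congr 1
        ring
      · rw [b1.per hz (j := m + i - x.n) ⟨1, by rw [n1]; ring⟩, f1 _ (by omega) (by omega)]
        exact b1.per hx ⟨-1, by ring⟩
  · rintro ⟨hx, y1, e1, E1, ⟨-, n2, c2, f2, rfl⟩, hr, rfl⟩
    obtain ⟨hy1, hz, y2, e2, e3, hy2, ⟨-, -, n3, c3, f3, g3, rfl⟩, ⟨-, n4, c4, f4, rfl⟩, rfl⟩ :=
      run2.1 hr
    have hc := hx.2.2.1
    have f4' : ∀ m, z.b m = y2.b (m - i) := fun m => by rw [← f4]; congr 1; ring
    refine ⟨hx, hz, i0, i1, by omega, by omega, fun j j0 j1 => ?_, fun j j0 j1 => ?_, rfl⟩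
    · rw [f4', b1.per hy2 (j := j - i + x.n + 2) ⟨-1, by rw [n3, n2]; ring⟩,
        g3 _ (by omega) (by omega), ← f2 j]
      exact b1.per hy1 ⟨1, by rw [n2]; ring⟩
    · rw [f4', show j + 2 - i = j - i + 2 by ring, g3 _ (by omega) (by omega), ← f2 j]
      rfl

theorem c1 (b1 : SB1) (b2 : SB2) {n i : ℤ} (i0 : 1 ≤ i) (i1 : i + 1 ≤ n) :
    Eqw n [.s i, .u 0] [.u 0, .s (i + 2)] := by
  refine b2.same (by simp [dn, dl]) rfl fun x z E hxn => ?_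
  subst hxn
  rw [run2, run2]
  have edge : ∀ {w : St} {p q : ℕ}, w.c = x.c → (∀ j, 0 ≤ j → j ≤ x.n → w.b (j + 2) = x.b j) →
      p = q →
      (if (i + x.c) % 2 = 0 then (x.b i, p) else (x.b (i - 1), x.b (i + 1))) =
      (if (i + 2 + w.c) % 2 = 0 then (w.b (i + 2), q) else (w.b (i + 2 - 1), w.b (i + 2 + 1))) := by
    intro w p q hc g hpq
    rw [g i (by omega) (by omega), show i + 2 - 1 = i - 1 + 2 by ring,
      show i + 2 + 1 = i + 1 + 2 by ring, g (i - 1) (by omega) (by omega),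
      g (i + 1) (by omega) (by omega), hpq]
    exact if_congr (by omega) rfl rfl
  constructor
  · rintro ⟨hx, hz, y, e1, e2, hy, ⟨h2, n1, c1, f1, rfl⟩, ⟨-, -, n2, c2, f2, g2, rfl⟩, rfl⟩
    obtain ⟨w, hw, hs, v3⟩ := b1.ex_u hx 0 (z.b 1) le_rfl (by omega)
    obtain ⟨-, -, n3, c3, f3, g3, -⟩ := id hs
    refine ⟨hx, hz, w, [], _, hw, hs, ⟨by omega, by omega, by omega,
      win' b1 hw hz (by omega) (by omega) (i + 2) fun j j0 j1 j3 => ?_, rfl⟩, ?_⟩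
    · rcases (by omega : j = 0 ∨ j = 1 ∨ 2 ≤ j) with rfl | rfl | j2
      · rw [f2 0 le_rfl le_rfl, f3 0 le_rfl le_rfl, f1 0 (nd (by omega) (by omega) (by omega))]
      · exact v3.symm
      · obtain ⟨m, rfl⟩ : ∃ m, j = m + 2 := ⟨j - 2, by ring⟩
        rw [g2 m (by omega) (by omega), g3 m (by omega) (by omega),
          f1 m (nd (by omega) (by omega) (by omega))]
    · rw [edge c3 g3 (g2 i (by omega) (by omega)).symm]
      simp
  · rintro ⟨hx, hz, w, e1, e2, hw, ⟨-, -, n1, c1, f1, g1, rfl⟩, ⟨-, n2, c2, f2, rfl⟩, rfl⟩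
    obtain ⟨y, hy, n3, c3, v3, f3⟩ := b1.ex_s hx (by omega) i (z.b (i + 2))
    refine ⟨hx, hz, y, _, [], hy, ⟨by omega, n3, c3, f3, rfl⟩,
      ⟨le_rfl, by omega, by omega, by omega, fun j j0 j1 => ?_, fun j j0 j1 => ?_, rfl⟩, ?_⟩
    · obtain rfl : j = 0 := by omega
      rw [f2 0 (nd (by omega) (by omega) (by omega)), f1 0 le_rfl le_rfl,
        f3 0 (nd (by omega) (by omega) (by omega))]
    · by_cases hj : j = i
      · rw [hj, v3]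
      · rw [f2 _ (nd (by omega) (by omega) (by omega)), g1 j j0 (by omega),
          f3 j (nd (by omega) (by omega) (by omega))]
    · rw [edge c1 g1 v3]
      simp

/-- the common shape of the two words of `c2` -/
def PP (x z : St) : Prop :=
  x.Ok ∧ z.Ok ∧ z.n = x.n + 2 ∧ z.c = x.c ∧ ∀ j, 0 ≤ j → j < x.n → z.b (j + 2) = x.b j

theorem c2l (b1 : SB1) {x z : St} {E : List (ℕ × ℕ)} (hn : 2 ≤ x.n) :
    Run [.u 0, .s 0] x z E ↔
      PP x z ∧ E = [if x.c = 0 then (x.b 0, z.b 0) else (x.b (-1), z.b 1)] := by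
  rw [run2]
  have edge : ∀ {w : St}, x.Ok → w.Ok → w.n = x.n + 2 → w.c = x.c → w.b 0 = x.b 0 →
      (∀ j, 0 ≤ j → j ≤ x.n → w.b (j + 2) = x.b j) → w.b 1 = z.b 1 →
      (if (0 + w.c) % 2 = 0 then (w.b 0, z.b 0) else (w.b (0 - 1), w.b (0 + 1))) =
      (if x.c = 0 then (x.b 0, z.b 0) else (x.b (-1), z.b 1)) := by
    intro w hx hw n1 c1 f g v
    have hc := hx.2.2.1
    rw [f, b1.per hw (i := 0 - 1) (j := x.n - 1 + 2) ⟨-1, by rw [n1]; ring⟩,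
      g _ (by omega) (by omega), b1.per hx (i := x.n - 1) (j := -1) ⟨1, by ring⟩, zero_add 1, v]
    exact if_congr (by omega) rfl rfl
  constructor
  · rintro ⟨hx, hz, w, e1, e2, hw, ⟨-, -, n1, c1, f1, g1, rfl⟩, ⟨-, n2, c2, f2, rfl⟩, rfl⟩
    refine ⟨⟨hx, hz, by omega, by omega, fun j j0 j1 => ?_⟩, ?_⟩
    · rw [f2 _ (nd (by omega) (by omega) (by omega)), g1 j j0 (by omega)]
    · rw [edge hx hw n1 c1 (f1 0 le_rfl le_rfl) g1
        (f2 1 (nd (by omega) (by omega) (by omega))).symm]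
      simp
  · rintro ⟨⟨hx, hz, n1, c1, g1⟩, rfl⟩
    obtain ⟨w, hw, hs, v3⟩ := b1.ex_u hx 0 (z.b 1) le_rfl (by omega)
    obtain ⟨-, -, n3, c3, f3, g3, -⟩ := id hs
    refine ⟨hx, hz, w, [], _, hw, hs, ⟨by omega, by omega, by omega,
      win' b1 hw hz (by omega) (by omega) 0 fun j j0 j1 j3 => ?_, rfl⟩, ?_⟩
    · rcases (by omega : j = 1 ∨ 2 ≤ j) with rfl | j2
      · exact v3.symm
      · obtain ⟨m, rfl⟩ : ∃ m, j = m + 2 := ⟨j - 2, by ring⟩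
        rw [g1 m (by omega) (by omega), g3 m (by omega) (by omega)]
    · rw [edge hx hw n3 c3 (f3 0 le_rfl le_rfl) g3 v3]
      simp

theorem c2r (b1 : SB1) {x z : St} {E : List (ℕ × ℕ)} (hn : 2 ≤ x.n) :
    Run [.t 1, .u 0, .s 2, .t (-1)] x z E ↔
      PP x z ∧ E = [if x.c = 0 then (z.b 0, x.b 0) else (x.b (-1), z.b 1)] := by
  have edge : ∀ {y1 y2 : St} {p : ℕ}, x.Ok → y1.n = x.n → y2.c = (x.c + 1) % 2 →
      (∀ j, y1.b (j + 1) = x.b j) → (∀ j, 0 ≤ j → j ≤ y1.n → y2.b (j + 2) = y1.b j) →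
      y2.b 1 = z.b 0 → p = z.b 1 →
      (if (2 + y2.c) % 2 = 0 then (y2.b 2, p) else (y2.b (2 - 1), y2.b (2 + 1))) =
      (if x.c = 0 then (z.b 0, x.b 0) else (x.b (-1), z.b 1)) := by
    intro y1 y2 p hx n1 c1 f g v hp
    have hc := hx.2.2.1
    have e1 : y2.b 2 = x.b (-1) := (g 0 le_rfl (by omega)).trans (by simpa using f (-1))
    have e2 : y2.b (2 + 1) = x.b 0 := (g 1 (by omega) (by omega)).trans (f 0)
    have e3 : y2.b (2 - 1) = z.b 0 := v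
    rw [e1, e2, e3, hp]
    rcases hc with hc | hc
    · rw [if_pos hc, if_neg (by omega)]
    · rw [if_pos (by omega), if_neg (by omega)]
  constructor
  · rintro ⟨hx, y1, e1, E1, ⟨-, n1, c1, f1, rfl⟩,
      ⟨hy1, y2, e2, E2, ⟨-, -, n2, c2, f2, g2, rfl⟩, hr, rfl⟩, rfl⟩
    obtain ⟨hy2, hz, y3, e3, e4, hy3, ⟨-, n3, c3, f3, rfl⟩, ⟨-, n4, c4, f4, rfl⟩, rfl⟩ := run2.1 hr
    have hc := hx.2.2.1
    refine ⟨⟨hx, hz, by omega, by omega, fun j j0 j1 => ?_⟩, ?_⟩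
    · rw [show j + 2 = j + 1 + 2 + -1 by ring, f4, f3 _ (nd (by omega) (by omega) (by omega)),
        g2 _ (by omega) (by omega), f1]
    · rw [edge hx n1 (by omega) f1 g2
        ((f3 1 (nd (by omega) (by omega) (by omega))).symm.trans (f4 1).symm) (f4 2).symm]
      simp
  · rintro ⟨⟨hx, hz, n0, c0, g0⟩, rfl⟩
    have hc := hx.2.2.1
    obtain ⟨y1, hy1, hs1⟩ := b1.ex_t hx hn 1
    obtain ⟨-, n1, c1, f1, -⟩ := id hs1
    obtain ⟨y2, hy2, hs2, v2⟩ := b1.ex_u hy1 0 (z.b 0) le_rfl (by omega)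
    obtain ⟨-, -, n2, c2, f2, g2, -⟩ := id hs2
    obtain ⟨y3, hy3, n3, c3, v3, f3⟩ := b1.ex_s hy2 (by omega) 2 (z.b 1)
    refine ⟨hx, y1, [], _, hs1, ⟨hy1, y2, [], _, hs2, run2.2 ⟨hy2, hz, y3, _, [], hy3,
      ⟨by omega, n3, c3, f3, rfl⟩, ⟨by omega, by omega, by omega,
        win b1 hy3 hz (by omega) (by omega) (-1) fun j j0 j1 => ?_, rfl⟩, rfl⟩, rfl⟩, ?_⟩
    · rcases (by omega : j = 0 ∨ j = 1 ∨ j = 2 ∨ 3 ≤ j) with rfl | rfl | rfl | j2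
      · rw [f3 0 (nd (by omega) (by omega) (by omega)), f2 0 le_rfl le_rfl,
          b1.per hz (i := 0 + -1) (j := x.n - 1 + 2) ⟨-1, by rw [n0]; ring⟩,
          g0 _ (by omega) (by omega), ← f1]
        exact b1.per hy1 ⟨1, by rw [n1]; ring⟩
      · rw [f3 1 (nd (by omega) (by omega) (by omega))]
        exact v2.symm
      · exact v3.symm
      · obtain ⟨m, rfl⟩ : ∃ m, j = m + 1 + 2 := ⟨j - 3, by ring⟩
        rw [f3 _ (nd (by omega) (by omega) (by omega)), g2 _ (by omega) (by omega), f1,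
          show m + 1 + 2 + -1 = m + 2 by ring, g0 m (by omega) (by omega)]
    · rw [edge hx n1 (by omega) f1 g2 v2 v3]
      simp

theorem c2 (a1 : SA1) (b1 : SB1) (b2 : SB2) {n : ℤ} (hn : 2 ≤ n) :
    Eqw n [.u 0, .s 0] [.t 1, .u 0, .s 2, .t (-1)] := by
  refine ⟨rfl, by simp [dn, dl], fun c =>
    b2.locC (fun E => if c = 0 then E.map Prod.swap else E) ?_ ?_ ?_ ?_⟩
  · rintro x y E rfl rfl h
    obtain ⟨hp, rfl⟩ := (c2l b1 hn).1 h
    refine (c2r b1 hn).2 ⟨hp, ?_⟩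
    split_ifs <;> rfl
  · rintro x y E rfl rfl h
    obtain ⟨hp, rfl⟩ := (c2r b1 hn).1 h
    refine ⟨_, (c2l b1 hn).2 ⟨hp, rfl⟩, ?_⟩
    split_ifs <;> rfl
  · intro φ E
    split_ifs
    · simp only [mp, List.map_map]
      rfl
    · rfl
  · intro X x y E Y _ _ _ _ _
    refine eqv_of_eq (a1.ext fun p q => ?_)
    split_ifs
    · have : ∀ a b : ℕ, (a, b) ∈ E.map Prod.swap ↔ (b, a) ∈ E := fun a b => by
        constructor
        · intro h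
          obtain ⟨⟨u, v⟩, huv, e⟩ := List.mem_map.1 h
          obtain ⟨rfl, rfl⟩ := Prod.mk.inj e
          exact huv
        · intro h
          exact List.mem_map.2 ⟨_, h, rfl⟩
      simp only [gr, List.mem_append, this]
      tauto
    · rfl

end C1aux

theorem pC1 (a1 : SA1) (b1 : SB1) (b2 : SB2) : SC1 where
  t1 := C1aux.t1 b1 b2
  t2 := C1aux.t2 b1 b2
  t3 := C1aux.t3 b1 b2
  t4 := C1aux.t4 b1 b2
  s1 := C1aux.s1 a1 b1 b2
  c0 := C1aux.c0 b1 b2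
  c1 := C1aux.c1 b1 b2
  c2 := C1aux.c2 a1 b1 b2

end Pool.Agent.P.MP_5af56b_co.Tor
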