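import Pool.Agent.P.MP_5af56b_co.Tor.Stmt

namespace Pool.Agent.P.MP_5af56b_co.Tor

namespace C1baux

theorem run1 {g : Lt} {x z : St} {E : List (ℕ × ℕ)} :
    Run [g] x z E ↔ x.Ok ∧ z.Ok ∧ Stp g x z E := by
  constructor
  · rintro ⟨hx, y, e, E', h1, ⟨hy, rfl, rfl⟩, rfl⟩
    exact ⟨hx, hy, by simpa using h1⟩
  · rintro ⟨hx, hz, h⟩
    exact ⟨hx, z, E, [], h, ⟨hz, rfl, rfl⟩, by simp⟩

theorem run2 {g1 g2 : Lt} {x z : St} {E : List (ℕ × ℕ)} :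
    Run [g1, g2] x z E ↔ x.Ok ∧ z.Ok ∧ ∃ y e1 e2, y.Ok ∧ Stp g1 x y e1 ∧ Stp g2 y z e2 ∧
      E = e1 ++ e2 := by
  constructor
  · rintro ⟨hx, y, e, E', h1, h2, rfl⟩
    obtain ⟨hy, hz, h2⟩ := run1.1 h2
    exact ⟨hx, hz, y, e, E', hy, h1, h2, rfl⟩
  · rintro ⟨hx, hz, y, e1, e2, hy, h1, h2, rfl⟩
    exact ⟨hx, y, e1, e2, h1, run1.2 ⟨hy, hz, h2⟩, rfl⟩

theorem run3 {g1 g2 g3 : Lt} {x z : St} {E : List (ℕ × ℕ)} :
    Run [g1, g2, g3] x z E ↔ x.Ok ∧ z.Ok ∧ ∃ y1 y2 e1 e2 e3, y1.Ok ∧ y2.Ok ∧ Stp g1 x y1 e1 ∧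
      Stp g2 y1 y2 e2 ∧ Stp g3 y2 z e3 ∧ E = e1 ++ (e2 ++ e3) := by
  constructor
  · rintro ⟨hx, y, e, E', h1, h2, rfl⟩
    obtain ⟨hy, hz, y2, e2, e3, hy2, k2, k3, rfl⟩ := run2.1 h2
    exact ⟨hx, hz, y, y2, e, e2, e3, hy, hy2, h1, k2, k3, rfl⟩
  · rintro ⟨hx, hz, y1, y2, e1, e2, e3, hy1, hy2, h1, h2, h3, rfl⟩
    exact ⟨hx, y1, e1, e2 ++ e3, h1, run2.2 ⟨hy1, hz, y2, e2, e3, hy2, h2, h3, rfl⟩, rfl⟩

/-- a rotation reads the label at the shifted place -/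
theorem rot_at {k : ℤ} {x y : St} (h : ∀ j, y.b (j + k) = x.b j) (j : ℤ) : y.b j = x.b (j - k) := by
  have := h (j - k)
  rwa [sub_add_cancel] at this

theorem cup_at {n : ℤ} {x y : St} (h : ∀ j, 0 ≤ j → j ≤ n → y.b (j + 2) = x.b j) (j : ℤ)
    (h1 : 2 ≤ j) (h2 : j ≤ n + 2) : y.b j = x.b (j - 2) := by
  have := h (j - 2) (by omega) (by omega)
  rwa [sub_add_cancel] at this

theorem per_at {x : St} (hx : x.Ok) {i j : ℤ} (h : i = j + x.n) : x.b i = x.b j := by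
  rw [h]; exact hx.2.2.2.1 j

theorem bcongr (x : St) {i j : ℤ} (h : i = j) : x.b i = x.b j := by rw [h]

theorem c4a (b1 : SB1) (x z : St) (E : List (ℕ × ℕ)) :
    Run [.u 0, .d 0] x z E ↔ Run [] x z E := by
  constructor
  · intro h
    obtain ⟨hx, hz, y, e1, e2, hy, ⟨-, -, u3, u4, -, u6, rfl⟩, ⟨-, -, d3, d4, -, d6, rfl⟩, rfl⟩ :=
      run2.1 h
    refine ⟨hx, b1.ext hz hx (by omega) (by omega) fun j h0 h1 => ?_, rfl⟩
    rw [d6 j h0 h1, u6 j h0 (by omega)]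
  · rintro ⟨hx, rfl, rfl⟩
    obtain ⟨y, hy, hu, -⟩ := b1.ex_u hx 0 0 le_rfl hx.1
    obtain ⟨-, -, u3, u4, u5, u6, -⟩ := id hu
    refine run2.2 ⟨hx, hx, y, [], [], hy, hu, ⟨le_rfl, hx.1, u3, u4.symm, fun j h0 h1 => ?_,
      fun j h0 h1 => ?_, rfl⟩, rfl⟩
    · exact (u5 j h0 h1).symm
    · exact (u6 j h0 h1).symm

theorem c4b (b1 : SB1) (x z : St) (E : List (ℕ × ℕ)) (hn : 2 ≤ x.n) :
    Run [.u 0, .t 1, .d 0] x z E ↔ Run [.t 1] x z E := by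
  constructor
  · intro h
    obtain ⟨hx, hz, y1, y2, e1, e2, e3, hy1, hy2, ⟨-, -, u3, u4, u5, u6, rfl⟩,
      ⟨-, t2, t3, t4, rfl⟩, ⟨-, -, d3, d4, d5, d6, rfl⟩, rfl⟩ := run3.1 h
    obtain ⟨w, hw, ht⟩ := b1.ex_t hx hn 1
    obtain ⟨-, s2, s3, s4, -⟩ := id ht
    have : z = w := by
      refine b1.ext hz hw (by omega) (by omega) fun j h0 h1 => ?_
      rw [rot_at s4 j]
      rcases h0.eq_or_lt with rfl | h0'
      · rw [d5 0 le_rfl le_rfl, rot_at t4 0, ← per_at hy1 (i := x.n + 1) (by omega),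
          cup_at u6 (x.n + 1) (by omega) (by omega)]
        exact per_at hx (by omega)
      · rw [d6 j h0 h1, rot_at t4 (j + 2), cup_at u6 (j + 2 - 1) (by omega) (by omega)]
        exact bcongr x (by omega)
    subst this
    exact run1.2 ⟨hx, hz, ht⟩
  · intro h
    obtain ⟨hx, hz, -, s2, s3, s4, rfl⟩ := run1.1 h
    obtain ⟨y1, hy1, hu, hv⟩ := b1.ex_u hx 0 (z.b 0) le_rfl hx.1
    obtain ⟨-, -, u3, u4, u5, u6, -⟩ := id hu
    obtain ⟨y2, hy2, ht⟩ := b1.ex_t hy1 (by omega) 1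
    obtain ⟨-, t2, t3, t4, -⟩ := id ht
    refine run3.2 ⟨hx, hz, y1, y2, [], [], [], hy1, hy2, hu, ht, ⟨le_rfl, hz.1, by omega, by omega,
      fun j h0 h1 => ?_, fun j h0 h1 => ?_, rfl⟩, rfl⟩
    · obtain rfl : j = 0 := by omega
      rw [rot_at s4 0, rot_at t4 0, ← per_at hy1 (i := x.n + 1) (by omega),
        cup_at u6 (x.n + 1) (by omega) (by omega)]
      exact (per_at hx (by omega)).symm
    · rw [rot_at t4 (j + 2)]
      rcases h0.eq_or_lt with rfl | h0'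
      · rw [← hv]; exact bcongr y1 (by omega)
      · rw [cup_at u6 (j + 2 - 1) (by omega) (by omega), rot_at s4 j]
        exact bcongr x (by omega)

theorem c4c (b1 : SB1) (x z : St) (E : List (ℕ × ℕ)) (hn : 2 ≤ x.n) :
    Run [.u 0, .t (-1), .d 0] x z E ↔ Run [.t (-1)] x z E := by
  constructor
  · intro h
    obtain ⟨hx, hz, y1, y2, e1, e2, e3, hy1, hy2, ⟨-, -, u3, u4, u5, u6, rfl⟩,
      ⟨-, t2, t3, t4, rfl⟩, ⟨-, -, d3, d4, d5, d6, rfl⟩, rfl⟩ := run3.1 h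
    obtain ⟨w, hw, ht⟩ := b1.ex_t hx hn (-1)
    obtain ⟨-, s2, s3, s4, -⟩ := id ht
    have key : ∀ j, 0 ≤ j → j < z.n → z.b j = w.b j := by
      intro j h0 h1
      rw [rot_at s4 j, d6 j h0 h1.le, rot_at t4 (j + 2),
        cup_at u6 (j + 2 - -1) (by omega) (by omega)]
      exact bcongr x (by omega)
    have : z = w := by
      refine b1.ext hz hw (by omega) (by omega) fun j h0 h1 => ?_
      rcases h1.eq_or_lt with rfl | h1'
      · rw [per_at hz (i := z.n) (j := 0) (by omega), per_at hw (i := z.n) (j := 0) (by omega)]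
        exact key 0 le_rfl (by omega)
      · exact key j h0 h1'
    subst this
    exact run1.2 ⟨hx, hz, ht⟩
  · intro h
    obtain ⟨hx, hz, -, s2, s3, s4, rfl⟩ := run1.1 h
    obtain ⟨y1, hy1, hu, hv⟩ := b1.ex_u hx 0 (z.b 0) le_rfl hx.1
    obtain ⟨-, -, u3, u4, u5, u6, -⟩ := id hu
    obtain ⟨y2, hy2, ht⟩ := b1.ex_t hy1 (by omega) (-1)
    obtain ⟨-, t2, t3, t4, -⟩ := id ht
    refine run3.2 ⟨hx, hz, y1, y2, [], [], [], hy1, hy2, hu, ht, ⟨le_rfl, hz.1, by omega, by omega,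
      fun j h0 h1 => ?_, fun j h0 h1 => ?_, rfl⟩, rfl⟩
    · obtain rfl : j = 0 := by omega
      rw [rot_at t4 0, ← hv]
      exact bcongr y1 (by omega)
    · rw [rot_at t4 (j + 2)]
      rcases h1.eq_or_lt with rfl | h1'
      · rw [per_at hz (i := z.n) (j := 0) (by omega), ← hv]
        exact (per_at hy1 (by omega)).symm
      · rw [cup_at u6 (j + 2 - -1) (by omega) (by omega), rot_at s4 j]
        exact bcongr x (by omega)

/-- the two sides of `c4d` end in the same state when the new labels agree -/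
theorem c4d_eq (b1 : SB1) {s : ℤ} {x y1 y2 z w1 w2 z' : St} (h2 : 2 ≤ s) (hs : s ≤ x.n)
    (hy1 : y1.Ok) (hw2 : w2.Ok) (hz : z.Ok) (hz' : z'.Ok)
    (hu : Stp (.u 0) x y1 []) (ht : Stp (.t s) y1 y2 []) (hd : Stp (.d 0) y2 z [])
    (hd' : Stp (.d (x.n - s)) x w1 []) (hu' : Stp (.u 0) w1 w2 []) (ht' : Stp (.t (s - 2)) w2 z' [])
    (hv : y1.b 1 = w2.b 1) : z = z' := by
  obtain ⟨-, -, u3, u4, u5, u6, -⟩ := hu
  obtain ⟨-, t2, t3, t4, -⟩ := ht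
  obtain ⟨-, -, d3, d4, d5, d6, -⟩ := hd
  obtain ⟨-, -, p3, p4, p5, p6, -⟩ := hd'
  obtain ⟨-, -, q3, q4, q5, q6, -⟩ := hu'
  obtain ⟨-, r2, r3, r4, -⟩ := ht'
  refine b1.ext hz hz' (by omega) (by omega) fun j h0 h1 => ?_
  rw [d6 j h0 h1, rot_at t4 (j + 2), rot_at r4 j]
  rcases lt_trichotomy j (s - 1) with hj | hj | hj
  · rw [← per_at hy1 (i := j + 2 - s + (x.n + 2)) (by omega),
      cup_at u6 (j + 2 - s + (x.n + 2)) (by omega) (by omega),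
      ← per_at hw2 (i := j - (s - 2) + x.n) (by omega),
      cup_at q6 (j - (s - 2) + x.n) (by omega) (by omega),
      p6 (j - (s - 2) + x.n - 2) (by omega) (by omega)]
    exact bcongr x (by omega)
  · rw [bcongr y1 (show j + 2 - s = 1 by omega), bcongr w2 (show j - (s - 2) = 1 by omega), hv]
  · rw [cup_at u6 (j + 2 - s) (by omega) (by omega), cup_at q6 (j - (s - 2)) (by omega) (by omega),
      p5 (j - (s - 2) - 2) (by omega) (by omega)]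
    exact bcongr x (by omega)

theorem c4d (b1 : SB1) {s : ℤ} (x z : St) (E : List (ℕ × ℕ)) (h2 : 2 ≤ s) (hs : s ≤ x.n) :
    Run [.u 0, .t s, .d 0] x z E ↔ Run [.d (x.n - s), .u 0, .t (s - 2)] x z E := by
  constructor
  · intro h
    obtain ⟨hx, hz, y1, y2, e1, e2, e3, hy1, hy2, hu, ht, hd, rfl⟩ := run3.1 h
    obtain ⟨-, -, u3, u4, u5, u6, rfl⟩ := id hu
    obtain ⟨-, t2, t3, t4, rfl⟩ := id ht
    obtain ⟨-, d2, d3, d4, d5, d6, rfl⟩ := id hd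
    have hc : x.b (x.n - s) = x.b (x.n - s + 2) := by
      have e := (d5 0 le_rfl le_rfl).symm.trans (d6 0 le_rfl d2)
      rw [rot_at t4 0, rot_at t4 (0 + 2), ← per_at hy1 (i := x.n - s + 2) (by omega),
        ← per_at hy1 (i := x.n - s + 2 + 2) (j := 0 + 2 - s) (by omega),
        u6 (x.n - s) (by omega) (by omega), u6 (x.n - s + 2) (by omega) (by omega)] at e
      exact e
    obtain ⟨w1, hw1, hd'⟩ := b1.ex_d hx (x.n - s) (by omega) (by omega) hc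
    have p3 : x.n = w1.n + 2 := hd'.2.2.1
    obtain ⟨w2, hw2, hu', hv⟩ := b1.ex_u hw1 0 (y1.b 1) le_rfl hw1.1
    have q3 : w2.n = w1.n + 2 := hu'.2.2.1
    obtain ⟨z', hz', ht'⟩ := b1.ex_t hw2 (by omega) (s - 2)
    have : z = z' := c4d_eq b1 h2 hs hy1 hw2 hz hz' hu ht hd hd' hu' ht' (by simpa using hv.symm)
    subst this
    exact run3.2 ⟨hx, hz, w1, w2, [], [], [], hw1, hw2, hd', hu', ht', rfl⟩
  · intro h
    obtain ⟨hx, hz, w1, w2, e1, e2, e3, hw1, hw2, hd', hu', ht', rfl⟩ := run3.1 h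
    obtain ⟨-, p2, p3, p4, p5, p6, rfl⟩ := id hd'
    obtain ⟨-, -, q3, q4, q5, q6, rfl⟩ := id hu'
    obtain ⟨-, r2, r3, r4, rfl⟩ := id ht'
    obtain ⟨y1, hy1, hu, hv⟩ := b1.ex_u hx 0 (w2.b 1) le_rfl hx.1
    obtain ⟨-, -, u3, u4, u5, u6, -⟩ := id hu
    obtain ⟨y2, hy2, ht⟩ := b1.ex_t hy1 (by omega) s
    obtain ⟨-, t2, t3, t4, -⟩ := id ht
    have hc : y2.b 0 = y2.b (0 + 2) := by
      rw [rot_at t4 0, rot_at t4 (0 + 2), ← per_at hy1 (i := x.n - s + 2) (by omega),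
        ← per_at hy1 (i := x.n - s + 2 + 2) (j := 0 + 2 - s) (by omega),
        u6 (x.n - s) (by omega) (by omega), u6 (x.n - s + 2) (by omega) (by omega)]
      exact (p5 (x.n - s) (by omega) le_rfl).symm.trans (p6 (x.n - s) le_rfl p2)
    obtain ⟨z', hz', hd⟩ := b1.ex_d hy2 0 le_rfl (by omega) hc
    have : z' = z := c4d_eq b1 h2 hs hy1 hw2 hz' hz hu ht hd hd' hu' ht' (by simpa using hv)
    subst this
    exact run3.2 ⟨hx, hz, y1, y2, [], [], [], hy1, hy2, hu, ht, hd, rfl⟩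

/-- the two sides of `c5` end in the same state -/
theorem c5_eq (b1 : SB1) {x y1 y2 z w1 w2 z' : St} (hz : z.Ok) (hz' : z'.Ok)
    (hd1 : Stp (.d 0) x y1 []) (ht : Stp (.t 2) y1 y2 []) (hd2 : Stp (.d 0) y2 z [])
    (ht' : Stp (.t 2) x w1 []) (hd1' : Stp (.d 0) w1 w2 []) (hd2' : Stp (.d 0) w2 z' []) :
    z = z' := by
  obtain ⟨-, -, u3, u4, u5, u6, -⟩ := hd1
  obtain ⟨-, t2, t3, t4, -⟩ := ht
  obtain ⟨-, -, d3, d4, d5, d6, -⟩ := hd2
  obtain ⟨-, r2, r3, r4, -⟩ := ht'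
  obtain ⟨-, -, p3, p4, p5, p6, -⟩ := hd1'
  obtain ⟨-, -, q3, q4, q5, q6, -⟩ := hd2'
  refine b1.ext hz hz' (by omega) (by omega) fun j h0 h1 => ?_
  rw [d6 j h0 h1, t4 j, u6 j h0 (by omega), q6 j h0 (by omega), p6 (j + 2) (by omega) (by omega),
    r4 (j + 2)]

theorem c5 (b1 : SB1) (x z : St) (E : List (ℕ × ℕ)) (hn : 4 ≤ x.n) :
    Run [.d 0, .t 2, .d 0] x z E ↔ Run [.t 2, .d 0, .d 0] x z E := by
  constructor
  · intro h
    obtain ⟨hx, hz, y1, y2, e1, e2, e3, hy1, hy2, hd1, ht, hd2, rfl⟩ := run3.1 h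
    obtain ⟨-, u2, u3, u4, u5, u6, rfl⟩ := id hd1
    obtain ⟨-, t2, t3, t4, rfl⟩ := id ht
    obtain ⟨-, d2, d3, d4, d5, d6, rfl⟩ := id hd2
    have c1 : x.b 0 = x.b (0 + 2) := (u5 0 le_rfl le_rfl).symm.trans (u6 0 le_rfl u2)
    have c2 : x.b (0 - 2) = x.b 0 := by
      have e := (d5 0 le_rfl le_rfl).symm.trans (d6 0 le_rfl d2)
      rw [rot_at t4 0, t4 0, ← per_at hy1 (i := x.n - 4) (by omega),
        u6 (x.n - 4) (by omega) (by omega), u5 0 le_rfl le_rfl] at e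
      rw [← e]
      exact (per_at hx (by omega)).symm
    obtain ⟨w1, hw1, ht'⟩ := b1.ex_t hx (by omega) 2
    obtain ⟨-, r2, r3, r4, -⟩ := id ht'
    obtain ⟨w2, hw2, hd1'⟩ := b1.ex_d hw1 0 le_rfl (by omega) (by rw [rot_at r4 0, r4 0, c2])
    obtain ⟨-, p2, p3, p4, p5, p6, -⟩ := id hd1'
    obtain ⟨z', hz', hd2'⟩ := b1.ex_d hw2 0 le_rfl (by omega) (by
      rw [p6 0 le_rfl p2, p6 (0 + 2) (by omega) (by omega), r4 0, r4 (0 + 2), c1])
    have : z = z' := c5_eq b1 hz hz' hd1 ht hd2 ht' hd1' hd2'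
    subst this
    exact run3.2 ⟨hx, hz, w1, w2, [], [], [], hw1, hw2, ht', hd1', hd2', rfl⟩
  · intro h
    obtain ⟨hx, hz, w1, w2, e1, e2, e3, hw1, hw2, ht', hd1', hd2', rfl⟩ := run3.1 h
    obtain ⟨-, r2, r3, r4, rfl⟩ := id ht'
    obtain ⟨-, p2, p3, p4, p5, p6, rfl⟩ := id hd1'
    obtain ⟨-, q2, q3, q4, q5, q6, rfl⟩ := id hd2'
    have c1 : x.b 0 = x.b (0 + 2) := by
      have e := (q5 0 le_rfl le_rfl).symm.trans (q6 0 le_rfl q2)
      rw [p6 0 le_rfl p2, p6 (0 + 2) (by omega) (by omega), r4 0, r4 (0 + 2)] at e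
      exact e
    have c2 : x.b (0 - 2) = x.b 0 := by
      have e := (p5 0 le_rfl le_rfl).symm.trans (p6 0 le_rfl p2)
      rw [rot_at r4 0, r4 0] at e
      exact e
    obtain ⟨y1, hy1, hd1⟩ := b1.ex_d hx 0 le_rfl (by omega) c1
    obtain ⟨-, u2, u3, u4, u5, u6, -⟩ := id hd1
    obtain ⟨y2, hy2, ht⟩ := b1.ex_t hy1 (by omega) 2
    obtain ⟨-, t2, t3, t4, -⟩ := id ht
    obtain ⟨z', hz', hd2⟩ := b1.ex_d hy2 0 le_rfl (by omega) (by
      rw [rot_at t4 0, t4 0, ← per_at hy1 (i := x.n - 4) (by omega),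
        u6 (x.n - 4) (by omega) (by omega), u5 0 le_rfl le_rfl, ← c2]
      exact per_at hx (by omega))
    have : z' = z := c5_eq b1 hz' hz hd1 ht hd2 ht' hd1' hd2'
    subst this
    exact run3.2 ⟨hx, hz, y1, y2, [], [], [], hy1, hy2, hd1, ht, hd2, rfl⟩

end C1baux

theorem pC1b (a1 : SA1) (b1 : SB1) (b2 : SB2) : SC1b where
  c4a := fun _ => b2.same (by simp [dn, dl]) (by simp [cr]) fun x y E _ => C1baux.c4a b1 x y E
  c4b := fun hn => b2.same (by simp [dn, dl]) (by simp [cr]) fun x y E hx =>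
    C1baux.c4b b1 x y E (by omega)
  c4c := fun hn => b2.same (by simp [dn, dl]) (by simp [cr]) fun x y E hx =>
    C1baux.c4c b1 x y E (by omega)
  c4d := fun h2 hs => b2.same (by simp [dn, dl]) (by simp [cr]) fun x y E hx => by
    subst hx
    exact C1baux.c4d b1 x y E h2 hs
  c5 := fun hn => b2.same (by simp [dn, dl]) (by simp [cr]) fun x y E hx =>
    C1baux.c5 b1 x y E (by omega)

end Pool.Agent.P.MP_5af56b_co.Tor
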