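import Pool.Agent.P.MP_5af56b_co.Tor.Stmt

namespace Pool.Agent.P.MP_5af56b_co.Tor

namespace C2aux

theorem nd {n m : ℤ} (h0 : m ≠ 0) (h1 : -n < m) (h2 : m < n) : ¬ n ∣ m :=
  fun h => h0 (Int.eq_zero_of_abs_lt_dvd h (abs_lt.mpr ⟨h1, h2⟩))

theorem eqv_refl (G : SG) : Eqv G G := ⟨Iff.rfl, Iff.rfl⟩

/-- elimination of a vertex that occurs only in the first part of the edge list -/
theorem star (a1 : SA1) (a2 : SA2) {E E' Y : List (ℕ × ℕ)} {v a b d : ℕ} (hv : ¬ T3 a b d v)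
    (hY : ∀ p ∈ Y, p.1 ≠ v ∧ p.2 ≠ v)
    (hE : ∀ x y, ((x, y) ∈ E ∨ (y, x) ∈ E) ↔ (x = v ∧ T3 a b d y) ∨ (y = v ∧ T3 a b d x))
    (hE' : ∀ x y, x ≠ y → (((x, y) ∈ E' ∨ (y, x) ∈ E') ↔ T3 a b d x ∧ T3 a b d y)) :
    Eqv (gr (E ++ Y)) (gr (E' ++ Y)) := by
  have sp : ∀ (F : List (ℕ × ℕ)) x y, (gr (F ++ Y)).A x y ↔
      x ≠ y ∧ (((x, y) ∈ F ∨ (y, x) ∈ F) ∨ ((x, y) ∈ Y ∨ (y, x) ∈ Y)) := fun F x y => by
    simp only [gr, List.mem_append]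
    tauto
  have h1 : ∀ x, (gr (E ++ Y)).A v x ↔ T3 a b d x := fun x => by
    rw [sp, hE]
    constructor
    · rintro ⟨h, (h' | h') | h' | h'⟩
      · exact h'.2
      · exact absurd h'.2 hv
      · exact absurd rfl (hY _ h').1
      · exact absurd rfl (hY _ h').2
    · exact fun h => ⟨fun e => hv (e ▸ h), .inl (.inl ⟨rfl, h⟩)⟩
  have h2 : (gr (E ++ Y)).elim v = gr (E' ++ Y) := a1.ext fun x y => by
    change (x ≠ y ∧ x ≠ v ∧ y ≠ v ∧ ((gr (E ++ Y)).A x y ∨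
      ((gr (E ++ Y)).A v x ∧ (gr (E ++ Y)).A v y))) ↔ _
    rw [h1, h1, sp, sp, hE]
    constructor
    · rintro ⟨h, hx, hy, ⟨-, (h' | h') | h'⟩ | h'⟩
      · exact absurd h'.1 hx
      · exact absurd h'.1 hy
      · exact ⟨h, .inr h'⟩
      · exact ⟨h, .inl ((hE' x y h).mpr h')⟩
    · rintro ⟨h, h' | h'⟩
      · have := (hE' x y h).mp h'
        exact ⟨h, fun e => hv (e ▸ this.1), fun e => hv (e ▸ this.2), .inr this⟩
      · refine ⟨h, ?_, ?_, .inl ⟨h, .inr h'⟩⟩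
        · exact h'.elim (fun q => (hY _ q).1) fun q => (hY _ q).2
        · exact h'.elim (fun q => (hY _ q).2) fun q => (hY _ q).1
  rw [← h2]
  exact a2.elim fun x hx => (h1 x).mp hx

/-- freeness gives a relabelling that fixes the context -/
theorem fresh (b1 : SB1) {n c : ℤ} {D X : List Lt} {x y : St} {E E' Y : List (ℕ × ℕ)}
    (hn : x.n = n) (hc : x.c = c) (h : Run D x y E) (h' : Run D x y E') (hX : Run X y x Y)
    (hF : Free n c (D ++ X) (E ++ Y)) :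
    ∃ φ : ℕ → ℕ, E' = mp φ E ∧ ∀ p ∈ Y, φ p.1 = p.1 ∧ φ p.2 = p.2 := by
  subst hn hc
  obtain ⟨φ, hφ⟩ := hF.2 (E' ++ Y) ⟨x.b, b1.app.mpr ⟨y, E', Y, h', hX, rfl⟩⟩
  rw [mp, List.map_append] at hφ
  have := List.append_inj hφ (by rw [List.length_map, b1.len h, b1.len h'])
  refine ⟨φ, this.1, fun p hp => ?_⟩
  have e := List.map_inj_left.mp ((List.map_id Y).trans this.2) p hp
  exact ⟨(congrArg Prod.fst e).symm, (congrArg Prod.snd e).symm⟩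

theorem notin {φ : ℕ → ℕ} {Y : List (ℕ × ℕ)} {v : ℕ} (h : ∀ p ∈ Y, φ p.1 = p.1 ∧ φ p.2 = p.2)
    (hv : v + 1 = φ v) : ∀ p ∈ Y, p.1 ≠ v ∧ p.2 ≠ v := fun p hp =>
  ⟨fun e => by have := (h p hp).1; rw [e] at this; omega,
    fun e => by have := (h p hp).2; rw [e] at this; omega⟩

theorem nt3 {φ : ℕ → ℕ} {v a b d : ℕ} (e : v + 1 = φ v) (ea : a = φ a) (eb : b = φ b)
    (ec : d = φ d) : ¬ T3 a b d v := by
  rintro (rfl | rfl | rfl) <;> omega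

/-- the edge of a crossing -/
def ed (i : ℤ) (x y : St) : ℕ × ℕ :=
  if (i + x.c) % 2 = 0 then (x.b i, y.b i) else (x.b (i - 1), x.b (i + 1))

/-- the states agree outside the gaps `i` and `k` -/
def Fr (i k : ℤ) (x y : St) : Prop :=
  x.Ok ∧ y.Ok ∧ 2 ≤ x.n ∧ y.n = x.n ∧ y.c = x.c ∧
    ∀ j, ¬ x.n ∣ j - i → ¬ x.n ∣ j - k → y.b j = x.b j

theorem Fr.symm {i k : ℤ} {x y : St} (h : Fr i k x y) : Fr k i x y :=
  ⟨h.1, h.2.1, h.2.2.1, h.2.2.2.1, h.2.2.2.2.1, fun j a b => h.2.2.2.2.2 j b a⟩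

/-- intermediate states -/
def Mid (i : ℤ) (x y x1 x2 : St) : Prop :=
  x1.c = x.c ∧ x2.c = x.c ∧ x2.b i = x1.b i ∧
    ∀ j, ¬ x.n ∣ j - i → x1.b j = x.b j ∧ x2.b j = y.b j

theorem fw {i k : ℤ} {x y : St} {E : List (ℕ × ℕ)} (hk : ¬ x.n ∣ i - k)
    (h : Run [.s i, .s k, .s i] x y E) :
    Fr i k x y ∧ ∃ x1 x2, Mid i x y x1 x2 ∧ E = [ed i x x1, ed k x1 x2, ed i x2 y] := by
  obtain ⟨ox, x1, e1, E1, ⟨h2, n1, c1, q1, rfl⟩, ⟨o1, x2, e2, E2, ⟨-, n2, c2, q2, rfl⟩,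
    ⟨o2, x3, e3, E3, ⟨-, n3, c3, q3, rfl⟩, ⟨o3, rfl, rfl⟩, rfl⟩, rfl⟩, rfl⟩ := h
  rw [n1] at n2 q2
  rw [n2] at n3 q3
  refine ⟨⟨ox, o3, h2, n3, c3.trans (c2.trans c1), fun j a b => ?_⟩, x1, x2,
    ⟨c1, c2.trans c1, q2 i hk, fun j a => ⟨q1 j a, (q3 j a).symm⟩⟩, rfl⟩
  rw [q3 j a, q2 j b, q1 j a]

theorem bw (b1 : SB1) {i k : ℤ} {x y : St} (h : Fr i k x y) (v : ℕ) :
    ∃ x1 x2, Mid i x y x1 x2 ∧ x1.b i = v ∧
      Run [.s i, .s k, .s i] x y [ed i x x1, ed k x1 x2, ed i x2 y] := by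
  obtain ⟨ox, oy, h2, ny, cy, q⟩ := h
  obtain ⟨x1, o1, n1, c1, v1, q1⟩ := b1.ex_s ox h2 i v
  obtain ⟨x2, o2, n2, c2, v2, q2⟩ := b1.ex_s oy (ny ▸ h2) i v
  rw [ny] at n2 q2
  refine ⟨x1, x2, ⟨c1, c2.trans cy, v2.trans v1.symm, fun j a => ⟨q1 j a, q2 j a⟩⟩, v1,
    ox, x1, _, _, ⟨h2, n1, c1, q1, rfl⟩, ⟨o1, x2, _, _,
      ⟨n1 ▸ h2, n2.trans n1.symm, c2.trans (cy.trans c1.symm), fun j b => ?_, rfl⟩,
      ⟨o2, y, _, _, ⟨n2 ▸ h2, ny.trans n2.symm, c2.symm, fun j a => (q2 j (n2 ▸ a)).symm, rfl⟩,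
        ⟨oy, rfl, rfl⟩, rfl⟩, rfl⟩, rfl⟩
  rw [n1] at b
  by_cases a : x.n ∣ j - i
  · rw [b1.per o2 (n2 ▸ a), b1.per o1 (n1 ▸ a), v1, v2]
  · rw [q2 j a, q1 j a, q j a b]

/-- the runs of a three letter word are given by a family of edge lists -/
theorem run3 (b1 : SB1) {i k : ℤ} {x y : St} (hk : ¬ x.n ∣ i - k) (L : ℕ → List (ℕ × ℕ))
    (hL : Fr i k x y → ∀ x1 x2, Mid i x y x1 x2 →
      [ed i x x1, ed k x1 x2, ed i x2 y] = L (x1.b i)) (E : List (ℕ × ℕ)) :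
    Run [.s i, .s k, .s i] x y E ↔ Fr i k x y ∧ ∃ v, E = L v := by
  constructor
  · intro h
    obtain ⟨h1, x1, x2, h2, rfl⟩ := fw hk h
    exact ⟨h1, _, hL h1 x1 x2 h2⟩
  · rintro ⟨h1, v, rfl⟩
    obtain ⟨x1, x2, h2, rfl, h3⟩ := bw b1 h1 v
    rwa [hL h1 x1 x2 h2] at h3

theorem runA (b1 : SB1) {i : ℤ} {x y : St} (hn : 4 ≤ x.n) (hc : (i + x.c) % 2 = 0) (E) :
    Run [.s i, .s (i + 1), .s i] x y E ↔ Fr i (i + 1) x y ∧
      ∃ v, E = [(x.b i, v), (v, x.b (i + 2)), (v, y.b i)] :=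
  run3 b1 (nd (by omega) (by omega) (by omega)) _ (fun _ x1 x2 ⟨c1, c2, e, q⟩ => by
    simp only [ed, c1, c2, hc, if_true, if_neg (show ¬ (i + 1 + x.c) % 2 = 0 by omega), e,
      add_sub_cancel_right, show i + 1 + 1 = i + 2 by ring,
      (q (i + 2) (nd (by omega) (by omega) (by omega))).1]) E

theorem runA' (b1 : SB1) {i : ℤ} {x y : St} (hn : 4 ≤ x.n) (hc : (i + x.c) % 2 = 0) (E) :
    Run [.s (i + 1), .s i, .s (i + 1)] x y E ↔ Fr (i + 1) i x y ∧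
      ∃ _ : ℕ, E = [(x.b i, x.b (i + 2)), (x.b i, y.b i), (y.b i, x.b (i + 2))] :=
  run3 b1 (nd (by omega) (by omega) (by omega)) _ (fun h x1 x2 ⟨c1, c2, _, q⟩ => by
    have q0 := q i (nd (by omega) (by omega) (by omega))
    simp only [ed, c1, c2, hc, if_true, if_neg (show ¬ (i + 1 + x.c) % 2 = 0 by omega),
      add_sub_cancel_right, show i + 1 + 1 = i + 2 by ring, q0.1, q0.2,
      (q (i + 2) (nd (by omega) (by omega) (by omega))).2,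
      h.2.2.2.2.2 (i + 2) (nd (by omega) (by omega) (by omega))
        (nd (by omega) (by omega) (by omega))]) E

theorem runB (b1 : SB1) {i : ℤ} {x y : St} (hn : 4 ≤ x.n) (hc : ¬ (i + x.c) % 2 = 0) (E) :
    Run [.s (i + 1), .s i, .s (i + 1)] x y E ↔ Fr (i + 1) i x y ∧
      ∃ v, E = [(x.b (i + 1), v), (x.b (i - 1), v), (v, y.b (i + 1))] :=
  run3 b1 (nd (by omega) (by omega) (by omega)) _ (fun _ x1 x2 ⟨c1, c2, e, q⟩ => by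
    simp only [ed, c1, c2, if_neg hc, if_pos (show (i + 1 + x.c) % 2 = 0 by omega), e,
      (q (i - 1) (nd (by omega) (by omega) (by omega))).1]) E

theorem runB' (b1 : SB1) {i : ℤ} {x y : St} (hn : 4 ≤ x.n) (hc : ¬ (i + x.c) % 2 = 0) (E) :
    Run [.s i, .s (i + 1), .s i] x y E ↔ Fr i (i + 1) x y ∧
      ∃ _ : ℕ, E = [(x.b (i - 1), x.b (i + 1)), (x.b (i + 1), y.b (i + 1)),
        (x.b (i - 1), y.b (i + 1))] :=
  run3 b1 (nd (by omega) (by omega) (by omega)) _ (fun h x1 x2 ⟨c1, c2, _, q⟩ => by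
    have q0 := q (i + 1) (nd (by omega) (by omega) (by omega))
    simp only [ed, c1, c2, if_neg hc, if_pos (show (i + 1 + x.c) % 2 = 0 by omega), q0.1, q0.2,
      (q (i - 1) (nd (by omega) (by omega) (by omega))).2,
      h.2.2.2.2.2 (i - 1) (nd (by omega) (by omega) (by omega))
        (nd (by omega) (by omega) (by omega))]) E

def thA : List (ℕ × ℕ) → List (ℕ × ℕ)
  | [p, q, r] => [(p.1, q.2), (p.1, r.2), (r.2, q.2)]
  | _ => []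

def thB : List (ℕ × ℕ) → List (ℕ × ℕ)
  | [p, q, r] => [(q.1, p.1), (p.1, r.2), (q.1, r.2)]
  | _ => []

def thS : List (ℕ × ℕ) → List (ℕ × ℕ)
  | [p, q] => [(p.1, q.2)]
  | _ => []

theorem s2A (a1 : SA1) (a2 : SA2) (b1 : SB1) (b2 : SB2) {n c i : ℤ} (hn : 4 ≤ n)
    (hc : (i + c) % 2 = 0) :
    RelC Eqv n c [.s i, .s (i + 1), .s i] [.s (i + 1), .s i, .s (i + 1)] := by
  refine b2.locC thA ?_ ?_ ?_ ?_
  · rintro x y E rfl rfl h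
    obtain ⟨h1, v, rfl⟩ := (runA b1 hn hc E).mp h
    exact (runA' b1 hn hc _).mpr ⟨h1.symm, 0, rfl⟩
  · rintro x y E rfl rfl h
    obtain ⟨h1, -, rfl⟩ := (runA' b1 hn hc E).mp h
    exact ⟨_, (runA b1 hn hc _).mpr ⟨h1.symm, 0, rfl⟩, rfl⟩
  · intro φ E
    rcases E with _ | ⟨p, _ | ⟨q, _ | ⟨r, _ | ⟨s, t⟩⟩⟩⟩ <;> rfl
  · rintro X x y E Y rfl rfl h hX hF
    obtain ⟨h1, v, rfl⟩ := (runA b1 hn hc E).mp h
    obtain ⟨φ, e, hY⟩ := fresh b1 rfl rfl h ((runA b1 hn hc _).mpr ⟨h1, v + 1, rfl⟩) hX hF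
    simp only [mp, List.map_cons, List.map_nil, Prod.map, List.cons.injEq, Prod.mk.injEq] at e
    obtain ⟨⟨e1, e2⟩, ⟨-, e3⟩, ⟨-, e4⟩, -⟩ := e
    refine star a1 a2 (v := v) (a := x.b i) (b := x.b (i + 2)) (d := y.b i) ?_ (notin hY e2)
      (fun p q => ?_) fun p q hpq => ?_
    · exact nt3 e2 e1 e3 e4
    · simp only [T3, List.mem_cons, Prod.mk.injEq, List.not_mem_nil, or_false]
      tauto
    · simp only [thA, T3, List.mem_cons, Prod.mk.injEq, List.not_mem_nil, or_false]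
      omega

theorem s2B (a1 : SA1) (a2 : SA2) (b1 : SB1) (b2 : SB2) {n c i : ℤ} (hn : 4 ≤ n)
    (hc : ¬ (i + c) % 2 = 0) :
    RelC Eqv n c [.s (i + 1), .s i, .s (i + 1)] [.s i, .s (i + 1), .s i] := by
  refine b2.locC thB ?_ ?_ ?_ ?_
  · rintro x y E rfl rfl h
    obtain ⟨h1, v, rfl⟩ := (runB b1 hn hc E).mp h
    exact (runB' b1 hn hc _).mpr ⟨h1.symm, 0, rfl⟩
  · rintro x y E rfl rfl h
    obtain ⟨h1, -, rfl⟩ := (runB' b1 hn hc E).mp h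
    exact ⟨_, (runB b1 hn hc _).mpr ⟨h1.symm, 0, rfl⟩, rfl⟩
  · intro φ E
    rcases E with _ | ⟨p, _ | ⟨q, _ | ⟨r, _ | ⟨s, t⟩⟩⟩⟩ <;> rfl
  · rintro X x y E Y rfl rfl h hX hF
    obtain ⟨h1, v, rfl⟩ := (runB b1 hn hc E).mp h
    obtain ⟨φ, e, hY⟩ := fresh b1 rfl rfl h ((runB b1 hn hc _).mpr ⟨h1, v + 1, rfl⟩) hX hF
    simp only [mp, List.map_cons, List.map_nil, Prod.map, List.cons.injEq, Prod.mk.injEq] at e
    obtain ⟨⟨e1, e2⟩, ⟨e3, -⟩, ⟨-, e4⟩, -⟩ := e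
    refine star a1 a2 (v := v) (a := x.b (i + 1)) (b := x.b (i - 1)) (d := y.b (i + 1)) ?_
      (notin hY e2) (fun p q => ?_) fun p q hpq => ?_
    · exact nt3 e2 e1 e3 e4
    · simp only [T3, List.mem_cons, Prod.mk.injEq, List.not_mem_nil, or_false]
      tauto
    · simp only [thB, T3, List.mem_cons, Prod.mk.injEq, List.not_mem_nil, or_false]
      omega

theorem run1 {i : ℤ} {x y : St} (E : List (ℕ × ℕ)) :
    Run [.s i] x y E ↔ Fr i i x y ∧ E = [ed i x y] := by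
  constructor
  · rintro ⟨ox, x1, e1, E1, ⟨h2, n1, c1, q1, rfl⟩, ⟨o1, rfl, rfl⟩, rfl⟩
    exact ⟨⟨ox, o1, h2, n1, c1, fun j a _ => q1 j a⟩, rfl⟩
  · rintro ⟨⟨ox, oy, h2, ny, cy, q⟩, rfl⟩
    exact ⟨ox, y, _, _, ⟨h2, ny, cy, fun j a => q j a a, rfl⟩, ⟨oy, rfl, rfl⟩, rfl⟩

theorem run2 (b1 : SB1) {i : ℤ} {x y : St} (E : List (ℕ × ℕ)) :
    Run [.s i, .s i] x y E ↔ Fr i i x y ∧ ∃ v, E = if (i + x.c) % 2 = 0 then
      [(x.b i, v), (v, y.b i)] else [(x.b (i - 1), x.b (i + 1)), (x.b (i - 1), x.b (i + 1))] := by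
  have key : ∀ x1, Fr i i x x1 → [ed i x x1] ++ [ed i x1 y] = if (i + x.c) % 2 = 0 then
      [(x.b i, x1.b i), (x1.b i, y.b i)]
      else [(x.b (i - 1), x.b (i + 1)), (x.b (i - 1), x.b (i + 1))] := by
    rintro x1 ⟨-, -, h2, -, c1, q⟩
    have a : ¬ x.n ∣ i - 1 - i := nd (by omega) (by omega) (by omega)
    have b : ¬ x.n ∣ i + 1 - i := nd (by omega) (by omega) (by omega)
    simp only [ed, c1, q _ a a, q _ b b]
    split_ifs <;> rfl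
  constructor
  · intro h
    obtain ⟨x1, E1, E2, h1, h2, rfl⟩ := (b1.app (A := [.s i]) (B := [.s i])).mp h
    obtain ⟨f1, rfl⟩ := (run1 _).mp h1
    obtain ⟨f2, rfl⟩ := (run1 _).mp h2
    refine ⟨?_, _, key x1 f1⟩
    obtain ⟨ox, -, h2, n1, c1, q1⟩ := f1
    obtain ⟨-, oy, -, n2, c2, q2⟩ := f2
    rw [n1] at n2 q2
    exact ⟨ox, oy, h2, n2, c2.trans c1, fun j a _ => (q2 j a a).trans (q1 j a a)⟩
  · rintro ⟨⟨ox, oy, h2, ny, cy, q⟩, v, rfl⟩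
    obtain ⟨x1, o1, n1, c1, rfl, q1⟩ := b1.ex_s ox h2 i v
    have f1 : Fr i i x x1 := ⟨ox, o1, h2, n1, c1, fun j a _ => q1 j a⟩
    rw [← key x1 f1]
    refine (b1.app (A := [.s i]) (B := [.s i])).mpr ⟨x1, _, _, (run1 _).mpr ⟨f1, rfl⟩,
      (run1 _).mpr ⟨⟨o1, oy, n1 ▸ h2, ny.trans n1.symm, cy.trans c1.symm, fun j a _ => ?_⟩, rfl⟩, rfl⟩
    rw [n1] at a
    rw [q j a a, q1 j a]

theorem s3 (a1 : SA1) (a2 : SA2) (b1 : SB1) (b2 : SB2) (n c i : ℤ) :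
    RelC Eqv n c [.s i, .s i] [.s i] := by
  refine b2.locC thS ?_ ?_ ?_ ?_
  · rintro x y E rfl rfl h
    obtain ⟨h1, v, rfl⟩ := (run2 b1 E).mp h
    refine (run1 _).mpr ⟨h1, ?_⟩
    rw [ed]
    split_ifs <;> rfl
  · rintro x y E rfl rfl h
    obtain ⟨h1, rfl⟩ := (run1 E).mp h
    refine ⟨_, (run2 b1 _).mpr ⟨h1, 0, rfl⟩, ?_⟩
    rw [ed]
    split_ifs <;> rfl
  · intro φ E
    rcases E with _ | ⟨p, _ | ⟨q, _ | ⟨r, t⟩⟩⟩ <;> rfl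
  · rintro X x y E Y rfl rfl h hX hF
    obtain ⟨h1, v, rfl⟩ := (run2 b1 E).mp h
    obtain ⟨φ, e, hY⟩ := fresh b1 rfl rfl h ((run2 b1 _).mpr ⟨h1, v + 1, rfl⟩) hX hF
    split_ifs at e ⊢ with hc
    · simp only [mp, List.map_cons, List.map_nil, Prod.map, List.cons.injEq, Prod.mk.injEq] at e
      obtain ⟨⟨e1, e2⟩, ⟨-, e3⟩, -⟩ := e
      refine star a1 a2 (v := v) (a := x.b i) (b := y.b i) (d := y.b i) ?_ (notin hY e2)
        (fun p q => ?_) fun p q hpq => ?_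
      · exact nt3 e2 e1 e3 e3
      · simp only [T3, List.mem_cons, Prod.mk.injEq, List.not_mem_nil, or_false]
        tauto
      · simp only [thS, T3, List.mem_cons, Prod.mk.injEq, List.not_mem_nil, or_false]
        omega
    · rw [a1.ext (G := gr _) (H := gr (thS [(x.b (i - 1), x.b (i + 1)),
        (x.b (i - 1), x.b (i + 1))] ++ Y)) fun p q => ?_]
      · exact eqv_refl _
      · simp only [gr, thS, List.cons_append, List.nil_append, List.mem_cons]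
        tauto

theorem stpU {x y y' : St} (h : Stp (.u 0) x y []) (h' : Fr 1 1 y y') : Stp (.u 0) x y' [] := by
  obtain ⟨h0, h1, n1, c1, q1, q2, -⟩ := h
  obtain ⟨-, -, -, n2, c2, q⟩ := h'
  refine ⟨h0, h1, n2.trans n1, c2.trans c1, fun j a b => ?_, fun j a b => ?_, rfl⟩
  · have : ¬ y.n ∣ j - 1 := nd (by omega) (by omega) (by omega)
    rw [q j this this, q1 j a b]
  · have : ¬ y.n ∣ j + 2 - 1 := nd (by omega) (by omega) (by omega)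
    rw [q _ this this, q2 j a b]

theorem runU {x y : St} (E : List (ℕ × ℕ)) :
    Run [.u 0] x y E ↔ (x.Ok ∧ y.Ok ∧ Stp (.u 0) x y []) ∧ E = [] := by
  constructor
  · rintro ⟨ox, x1, e1, E1, h, ⟨o1, rfl, rfl⟩, rfl⟩
    obtain rfl : e1 = [] := h.2.2.2.2.2.2
    exact ⟨⟨ox, o1, h⟩, rfl⟩
  · rintro ⟨⟨ox, oy, h⟩, rfl⟩
    exact ⟨ox, y, _, _, h, ⟨oy, rfl, rfl⟩, rfl⟩

theorem runUS (b1 : SB1) {x y : St} (E : List (ℕ × ℕ)) :
    Run [.u 0, .s 1] x y E ↔ (x.Ok ∧ y.Ok ∧ Stp (.u 0) x y []) ∧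
      ∃ v, E = if (1 + x.c) % 2 = 0 then [(v, y.b 1)] else [(x.b 0, x.b 0)] := by
  have key : ∀ x1, Stp (.u 0) x x1 [] → [] ++ [ed 1 x1 y] =
      if (1 + x.c) % 2 = 0 then [(x1.b 1, y.b 1)] else [(x.b 0, x.b 0)] := by
    rintro x1 ⟨-, h1, -, c1, q1, q2, -⟩
    have a : x1.b (1 - 1) = x.b 0 := q1 0 le_rfl le_rfl
    have b : x1.b (1 + 1) = x.b 0 := q2 0 le_rfl h1
    simp only [ed, c1, a, b]
    split_ifs <;> rfl
  constructor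
  · intro h
    obtain ⟨x1, E1, E2, h1, h2, rfl⟩ := (b1.app (A := [.u 0]) (B := [.s 1])).mp h
    obtain ⟨⟨ox, -, f1⟩, rfl⟩ := (runU _).mp h1
    obtain ⟨f2, rfl⟩ := (run1 _).mp h2
    exact ⟨⟨ox, f2.2.1, stpU f1 f2⟩, _, key x1 f1⟩
  · rintro ⟨⟨ox, oy, h⟩, v, rfl⟩
    have h2 : 2 ≤ y.n := by
      have := h.2.2.1
      have := h.2.1
      omega
    obtain ⟨x1, o1, n1, c1, rfl, q1⟩ := b1.ex_s oy h2 1 v
    have f1 := stpU h ⟨oy, o1, h2, n1, c1, fun j a _ => q1 j a⟩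
    rw [← key x1 f1]
    exact (b1.app (A := [.u 0]) (B := [.s 1])).mpr ⟨x1, _, _, (runU _).mpr ⟨⟨ox, o1, f1⟩, rfl⟩,
      (run1 _).mpr ⟨⟨o1, oy, n1 ▸ h2, n1.symm, c1.symm, fun j a _ => (q1 j (n1 ▸ a)).symm⟩, rfl⟩, rfl⟩

theorem c3 (a1 : SA1) (a2 : SA2) (b1 : SB1) (b2 : SB2) (n c : ℤ) :
    RelC Eqv n c [.u 0, .s 1] [.u 0] := by
  refine b2.locC (fun _ => []) ?_ ?_ (fun _ _ => rfl) ?_
  · rintro x y E rfl rfl h
    exact (runU _).mpr ⟨((runUS b1 E).mp h).1, rfl⟩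
  · rintro x y E rfl rfl h
    obtain ⟨h1, rfl⟩ := (runU E).mp h
    exact ⟨_, (runUS b1 _).mpr ⟨h1, 0, rfl⟩, rfl⟩
  · rintro X x y E Y rfl rfl h hX hF
    obtain ⟨h1, v, rfl⟩ := (runUS b1 E).mp h
    obtain ⟨φ, e, hY⟩ := fresh b1 rfl rfl h ((runUS b1 _).mpr ⟨h1, v + 1, rfl⟩) hX hF
    split_ifs at e ⊢ with hc
    · simp only [mp, List.map_cons, List.map_nil, Prod.map, List.cons.injEq, Prod.mk.injEq] at e
      obtain ⟨⟨e1, e2⟩, -⟩ := e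
      refine star a1 a2 (v := v) (a := y.b 1) (b := y.b 1) (d := y.b 1) ?_ (notin hY e1)
        (fun p q => ?_) fun p q hpq => ?_
      · exact nt3 e1 e2 e2 e2
      · simp only [T3, List.mem_cons, Prod.mk.injEq, List.not_mem_nil, or_false]
        tauto
      · simp only [T3, List.not_mem_nil, or_self, false_iff]
        exact fun h => hpq (h.1.trans h.2.symm)
    · rw [a1.ext (G := gr _) (H := gr ([] ++ Y)) fun p q => ?_]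
      · exact eqv_refl _
      · simp only [gr, List.cons_append, List.nil_append, List.mem_cons, Prod.mk.injEq]
        constructor
        · rintro ⟨h, (h' | h') | h' | h'⟩
          exacts [absurd (h'.1.trans h'.2.symm) h, ⟨h, .inl h'⟩, absurd (h'.2.trans h'.1.symm) h,
            ⟨h, .inr h'⟩]
        · tauto

end C2aux

theorem pC2 (a1 : SA1) (a2 : SA2) (b1 : SB1) (b2 : SB2) : SC2 where
  s2 i hn := ⟨rfl, rfl, fun c => by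
    by_cases hc : (i + c) % 2 = 0
    exacts [C2aux.s2A a1 a2 b1 b2 hn hc, b2.relC_symm (C2aux.s2B a1 a2 b1 b2 hn hc)]⟩
  s3 n i := ⟨rfl, fun c => C2aux.s3 a1 a2 b1 b2 n c i⟩
  c3 n := ⟨rfl, fun c => C2aux.c3 a1 a2 b1 b2 n c⟩

end Pool.Agent.P.MP_5af56b_co.Tor
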