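import Pool.Agent.P.MP_5af56b_co.Tor.Stmt

namespace Pool.Agent.P.MP_5af56b_co.Tor

/-! ## Evaluation of a closed word (from the last letter to the first) -/

structure ES where
  n : ℕ
  c : ℕ
  cur : List ℕ
  top : List ℕ
  nx : ℕ
  E : List (ℕ × ℕ)
  ok : Bool

def rnm (a b x : ℕ) : ℕ := bif Nat.beq x b then a else x
def rnE (a b : ℕ) (E : List (ℕ × ℕ)) : List (ℕ × ℕ) := E.map fun p => (rnm a b p.1, rnm a b p.2)

def ES.ren (S : ES) (a b : ℕ) : ES :=
  ⟨S.n, S.c, S.cur.map (rnm a b), S.top.map (rnm a b), S.nx, rnE a b S.E, S.ok⟩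

def stepS (j : ℕ) (S : ES) : ES :=
  ⟨S.n, S.c, (bif Nat.beq j 0 then S.cur.set S.n S.nx else S.cur).set j S.nx, S.top, S.nx + 1,
    (bif Nat.beq ((j + S.c) % 2) 0 then (S.nx, S.cur.getD j 0)
      else (S.cur.getD ((j + S.n - 1) % S.n) 0, S.cur.getD (j + 1) 0)) :: S.E,
    S.ok && Nat.ble 2 S.n⟩

def stepT (k : ℕ) (S : ES) : ES :=
  ⟨S.n, (S.c + k) % 2, (List.range (S.n + 1)).map fun j => S.cur.getD ((j + k) % S.n) 0, S.top, S.nx,
    S.E, S.ok && Nat.ble 2 S.n⟩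

def stepU (i : ℕ) (S : ES) : ES :=
  ES.ren ⟨S.n - 2, S.c, S.cur.take (i + 1) ++ S.cur.drop (i + 3), S.top, S.nx, S.E,
    S.ok && Nat.ble (i + 2) S.n⟩ (S.cur.getD i 0) (S.cur.getD (i + 2) 0)

def stepD (i : ℕ) (S : ES) : ES :=
  ⟨S.n + 2, S.c, S.cur.take (i + 1) ++ S.nx :: S.cur.drop i, S.top, S.nx + 1, S.E,
    S.ok && Nat.ble i S.n⟩

def ES.no (S : ES) : ES := ⟨S.n, S.c, S.cur, S.top, S.nx, S.E, false⟩

def evs : Lt → ES → ES
  | .s i, S => stepS (i % (S.n : ℤ)).toNat S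
  | .t k, S => stepT (k % (S.n : ℤ)).toNat S
  | .u (.ofNat i), S => stepU i S
  | .d (.ofNat i), S => stepD i S
  | _, S => S.no

def evb (S : ES) : List Lt → ES
  | [] => S
  | g :: W => evs g (evb S W)

def cls : ℕ → ES → ES
  | 0, S => S
  | j + 1, S => cls j (S.ren (S.cur.getD j 0) (S.top.getD j 0))

def es0 (n c : ℕ) : ES := ⟨n, c, List.range n ++ [0], List.range n ++ [0], n + 1, [], true⟩

def evOK (n c : ℕ) (W : List Lt) : Bool :=
  (evb (es0 n c) W).ok && Nat.beq (evb (es0 n c) W).n n && Nat.beq (evb (es0 n c) W).c c &&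
    Nat.beq (n % 2) 0 && Nat.ble c 1

def evE (n c : ℕ) (W : List Lt) : List (ℕ × ℕ) := (cls (n + 1) (evb (es0 n c) W)).E

def SEv : Prop := ∀ (n c : ℕ) (W : List Lt), evOK n c W = true → Free n c W (evE n c W)

/-! ## Certificates -/

/-- the first `k` digits of `C` in base 256 -/
def dig : ℕ → ℕ → List ℕ
  | 0, _ => []
  | k + 1, C => C % 256 :: dig k (C / 256)

def memE (a b : ℕ) : List (ℕ × ℕ) → Bool
  | [] => false
  | p :: E => (Nat.beq p.1 a && Nat.beq p.2 b) || (Nat.beq p.1 b && Nat.beq p.2 a) || memE a b E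

def nodupB : List ℕ → Bool
  | [] => true
  | a :: l => l.all (fun b => !Nat.beq a b) && nodupB l

def embCk (H : List (ℕ × ℕ)) (lab : List ℕ) (E : List (ℕ × ℕ)) : Bool :=
  nodupB lab && H.all fun p => memE (lab.getD p.1 0) (lab.getD p.2 0) E

/-- `k` contractions (two digits each), then the index of a listed graph and ten labels -/
def badK : ℕ → ℕ → List (ℕ × ℕ) → Bool
  | 0, C, E => Nat.ble (C % 256) 7 && embCk (LL.getD (C % 256) []) (dig 10 (C / 256)) E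
  | k + 1, C, E => memE (C % 256) (C / 256 % 256) E &&
      badK k (C / 65536) (rnE (C % 256) (C / 256 % 256) E)

def badCk (C : ℕ) (E : List (ℕ × ℕ)) : Bool := badK (C % 256) (C / 256) E
def rdCk (C : ℕ) (E : List (ℕ × ℕ)) : Bool :=
  E.all (fun p => Nat.ble p.1 63 && Nat.ble p.2 63) && run 0 C E

def badW (n : ℕ) (W : List Lt) (C0 C1 : ℕ) : Bool :=
  evOK n 0 W && evOK n 1 W && badCk C0 (evE n 0 W) && badCk C1 (evE n 1 W)
def rdW (n : ℕ) (W : List Lt) (C0 C1 : ℕ) : Bool :=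
  evOK n 0 W && evOK n 1 W && rdCk C0 (evE n 0 W) && rdCk C1 (evE n 1 W)
/-- odd certificates prove `Bad`, even ones prove `Rd` -/
def goodC (n c : ℕ) (W : List Lt) (C : ℕ) : Bool :=
  evOK n c W && bif Nat.beq (C % 2) 1 then badCk (C / 2) (evE n c W) else rdCk (C / 2) (evE n c W)

structure SCk : Prop where
  bad : ∀ C E, badCk C E = true → Bad (gr E)
  rd : ∀ C E, rdCk C E = true → Rd (gr E)
  badw : ∀ (n : ℕ) W C0 C1, badW n W C0 C1 = true → BadW n W
  rdw : ∀ (n : ℕ) W C0 C1, rdW n W C0 C1 = true → RdW n W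
  good : ∀ (n c : ℕ) W C, goodC n c W C = true → ∀ E, Free n c W E → GoodG (gr E)

/-! ## Table entries -/

/-- periodic extension of a window -/
def ex (n : ℕ) (D : ℤ) (l : List ℤ) (j : ℤ) : ℤ := l.getD (j % (n : ℤ)).toNat 0 + D * (j / (n : ℤ))
def exg (n : ℕ) (l : List ℕ) (j : ℤ) : ℕ := l.getD (j % (n : ℤ)).toNat 0

def mkU (l : List ℕ) (s : ℤ) : List Lt := (l.map fun i : ℕ => Lt.s i) ++ [.t s]

def swp (n i : ℕ) (w : List ℤ) : List ℤ :=
  bif Nat.beq i 0 then (w.set 0 (w.getD (n - 1) 0 - n)).set (n - 1) (w.getD 0 0 + n)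
  else (w.set i (w.getD (i - 1) 0)).set (i - 1) (w.getD i 0)

/-- window of the permutation of `mkU l s`, and a reducedness flag -/
def redB (n : ℕ) (s : ℤ) : List ℕ → List ℤ × Bool
  | [] => ((List.range n).map fun j : ℕ => (j : ℤ) + s, true)
  | i :: l => match redB n s l with
    | (w, b) => (swp n i w, b && Nat.blt i n &&
        decide (ex n n w ((i : ℤ) - 1) < w.getD i 0))

def allLt (f : ℕ → Bool) : ℕ → Bool
  | 0 => true
  | k + 1 => f k && allLt f k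

/-- number of entries equal to `g` among the first `i` -/
def cnt (γ : List ℕ) (g i : ℕ) : ℕ := (γ.take i).count g
def rkx (n : ℕ) (γ : List ℕ) (g : ℕ) (j : ℤ) : ℤ :=
  (cnt γ g (j % (n : ℤ)).toNat : ℤ) + (cnt γ g n : ℤ) * (j / (n : ℤ))

def entC (n : ℕ) (M : List (ℤ × ℤ)) (w : List ℤ) (γ : List ℕ) (y : List ℤ) (D : ℤ) : Bool :=
  Nat.ble 2 n && decide (0 < D) && Nat.beq γ.length n &&
    allLt (fun i => Nat.blt (γ.getD i 0) M.length && Nat.beq (exg n γ (w.getD i 0)) (γ.getD i 0) &&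
      decide (y.getD i 0 < ex n D y ((i : ℤ) + 1))) n &&
    allLt (fun g => decide ((cnt γ g n : ℤ) = (M.getD g 0).2)) M.length

/-- displacements -/
def dsp (n : ℕ) (w y : List ℤ) (D : ℤ) : List ℤ :=
  (List.range n).map fun i => ex n D y (w.getD i 0) - y.getD i 0

def sepB (n : ℕ) (γ : List ℕ) (d : List ℤ) (e : ℤ) : Bool :=
  allLt (fun i => allLt (fun j => !Nat.blt (γ.getD i 0) (γ.getD j 0) ||
    decide (d.getD i 0 + e < d.getD j 0)) n) n

def entB (n N : ℕ) (M : List (ℤ × ℤ)) (l : List ℕ) (s : ℤ) (γ : List ℕ) (y : List ℤ) (D : ℤ)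
    (C0 C1 : ℕ) : Bool :=
  match redB n s l with
  | (w, b) => b && entC n M w γ y D && sepB n γ (dsp n w y D) 0 &&
    allLt (fun i => decide (rkx n γ (γ.getD i 0) (w.getD i 0) =
      (cnt γ (γ.getD i 0) i : ℤ) + (M.getD (γ.getD i 0) 0).1)) n &&
    badW n (mkU l s ++ Z n (List.replicate N 0)) C0 C1

def entRB (n N : ℕ) (M : List (ℤ × ℤ)) (l : List ℕ) (s : ℤ) (γ : List ℕ) (y : List ℤ) (D : ℤ)
    (β : List ℤ) (e : ℤ) (C0 C1 : ℕ) : Bool :=
  match redB n s l with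
  | (w, b) => b && entC n M w γ y D && sepB n γ (dsp n w y D) (2 * e) &&
    allLt (fun i => decide (rkx n γ (γ.getD i 0) (w.getD i 0) / kk (M.getD (γ.getD i 0) 0) =
      (cnt γ (γ.getD i 0) i : ℤ) / kk (M.getD (γ.getD i 0) 0) +
        (M.getD (γ.getD i 0) 0).1 / kk (M.getD (γ.getD i 0) 0)) &&
      decide (0 ≤ β.getD i 0) && decide (β.getD i 0 ≤ i) &&
      decide (β.getD i 0 ≤ ex n n β ((i : ℤ) + 1)) &&
      allLt (fun j =>
        decide (γ.getD i 0 = γ.getD j 0 → (cnt γ (γ.getD i 0) i : ℤ) / kk (M.getD (γ.getD i 0) 0) =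
          (cnt γ (γ.getD i 0) j : ℤ) / kk (M.getD (γ.getD i 0) 0) → β.getD i 0 = β.getD j 0) &&
        decide (β.getD i 0 = β.getD j 0 → |y.getD i 0 - y.getD j 0| ≤ e ∧
          (i < j → w.getD j 0 < w.getD i 0) ∧ ex n n β (w.getD i 0) = ex n n β (w.getD j 0)) &&
        decide ((ex n n β (w.getD i 0) - ex n n β (w.getD j 0)) % (n : ℤ) = 0 →
          β.getD i 0 = β.getD j 0)) n) n &&
    rdW n (mkU l s ++ ZM n N) C0 C1

structure SEnt : Prop where
  bad : ∀ (n N : ℕ) M l s γ y D C0 C1, entB n N M l s γ y D C0 C1 = true → EntBad n N M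
  red : ∀ (n N : ℕ) M l s γ y D β e C0 C1, entRB n N M l s γ y D β e C0 C1 = true → EntRed n N M

/-! ## Enumeration of polygons -/

def sl : List (ℤ × ℤ) → ℤ → ℤ → Bool
  | [], _, _ => true
  | p :: _, X, Y => decide (p.1 * Y < X * p.2)

/-- `acc` is the reversed list of the groups chosen so far -/
def enm (leaf : List (ℤ × ℤ) → Bool) : ℕ → ℕ → ℕ → List (ℤ × ℤ) → Bool
  | _, 0, _, acc => leaf acc.reverse
  | 0, _ + 1, _, _ => false
  | f + 1, y + 1, a, acc => allLt (fun Y => allLt (fun X =>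
      !sl acc ((X : ℤ) - a) ((Y : ℤ) + 1) ||
        enm leaf f (y - Y) (a - ((X : ℤ) - a).natAbs) (((X : ℤ) - a, (Y : ℤ) + 1) :: acc))
      (2 * a + 1)) (y + 1)

def SEnm : Prop := ∀ (leaf : List (ℤ × ℤ) → Bool) (n a : ℕ), enm leaf n n a [] = true →
  ∀ M, Poly n M → FM M 0 ≤ a → leaf M = true

end Pool.Agent.P.MP_5af56b_co.Tor
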