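import Pool.Agent.P.MP_5af56b_co.Tor.Chk

/-! Soundness of the certificate checkers and of the enumeration of polygons. -/

namespace Pool.Agent.P.MP_5af56b_co.Tor

namespace Ckaux

theorem memE_spec {a b : ℕ} : ∀ {E : List (ℕ × ℕ)}, memE a b E = true → (a, b) ∈ E ∨ (b, a) ∈ E
  | [], h => by simp [memE] at h
  | (x, y) :: E, h => by
    simp only [memE, Bool.or_eq_true, Bool.and_eq_true, Nat.beq_eq] at h
    rcases h with (⟨rfl, rfl⟩ | ⟨rfl, rfl⟩) | h
    · exact Or.inl List.mem_cons_self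
    · exact Or.inr List.mem_cons_self
    · exact (memE_spec h).imp (List.mem_cons_of_mem _) (List.mem_cons_of_mem _)

theorem nodupB_spec : ∀ {l : List ℕ}, nodupB l = true → l.Nodup
  | [], _ => List.nodup_nil
  | a :: l, h => by
    simp only [nodupB, Bool.and_eq_true, List.all_eq_true, Bool.not_eq_true'] at h
    refine List.nodup_cons.2 ⟨fun ha => ?_, nodupB_spec h.2⟩
    have := h.1 a ha
    rw [Nat.beq_refl] at this
    exact Bool.noConfusion this

theorem dig_length : ∀ k C : ℕ, (dig k C).length = k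
  | 0, _ => rfl
  | k + 1, C => by rw [dig, List.length_cons, dig_length]

theorem ll_lt : ∀ H ∈ LL, ∀ p ∈ H, p.1 < 10 ∧ p.2 < 10 := by decide

theorem emb_spec {H E : List (ℕ × ℕ)} {lab : List ℕ}
    (hH : ∀ p ∈ H, p.1 < lab.length ∧ p.2 < lab.length) (h : embCk H lab E = true) :
    SMinor (gr H) (gr E) := by
  simp only [embCk, Bool.and_eq_true, List.all_eq_true] at h
  have hn := nodupB_spec h.1
  have k : ∀ x, x < lab.length → lab.getD x 0 ∈ lab ∧ lab.idxOf (lab.getD x 0) = x := fun x hx => by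
    rw [List.getD_eq_getElem _ _ hx]
    exact ⟨List.getElem_mem hx, hn.idxOf_getElem _ hx⟩
  refine ⟨{x | x ∈ lab}, fun x => lab.idxOf x, fun u hu v _ e => ?_, fun x y hxy => ?_⟩
  · rw [(List.idxOf_inj hu).1 e]
  · have l : x < lab.length ∧ y < lab.length := hxy.2.elim (hH _) fun a => (hH _ a).symm
    refine ⟨_, (k x l.1).1, _, (k y l.2).1, (k x l.1).2, (k y l.2).2, fun e => hxy.1 ?_, ?_⟩
    · rw [← (k x l.1).2, e, (k y l.2).2]
    · exact hxy.2.elim (fun a => memE_spec (h.2 _ a)) fun a => (memE_spec (h.2 _ a)).symm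

theorem rnE_eq (a b : ℕ) (E : List (ℕ × ℕ)) : rnE a b E = mp (ren a b) E := by
  have e : ∀ x, rnm a b x = ren a b x := fun x => by
    by_cases h : x = b
    · simp [rnm, ren, h]
    · have : Nat.beq x b = false := Bool.eq_false_iff.2 fun e => h (Nat.eq_of_beq_eq_true e)
      simp [rnm, ren, h, this]
  simp only [rnE, mp, e]
  rfl

theorem badK_spec (a1 : SA1) : ∀ (k C : ℕ) (E : List (ℕ × ℕ)), badK k C E = true → Bad (gr E)
  | 0, C, E, h => by
    simp only [badK, Bool.and_eq_true, Nat.ble_eq] at h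
    have hm : LL.getD (C % 256) [] ∈ LL := by
      rw [List.getD_eq_getElem _ _ (Nat.lt_succ_of_le h.1)]
      exact List.getElem_mem _
    exact ⟨_, hm, emb_spec (by rw [dig_length]; exact ll_lt _ hm) h.2⟩
  | k + 1, C, E, h => by
    simp only [badK, Bool.and_eq_true] at h
    obtain ⟨H, hH, hm⟩ := badK_spec a1 k _ _ h.2
    rw [rnE_eq] at hm
    refine ⟨H, hH, a1.trans (a1.trans hm (a1.con _ _ E)) (sminor_of_sub fun x y hxy => ⟨hxy.1, ?_⟩)⟩
    have m := memE_spec h.1
    rcases hxy.2 with a | a <;> rcases List.mem_cons.1 a with a | a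
    · rw [Prod.mk.injEq] at a
      rw [a.1, a.2]
      exact m
    · exact Or.inl a
    · rw [Prod.mk.injEq] at a
      rw [a.1, a.2]
      exact m.symm
    · exact Or.inr a

theorem rd_spec (a1 : SA1) {C : ℕ} {E : List (ℕ × ℕ)} (h : rdCk C E = true) : Rd (gr E) := by
  simp only [rdCk, Bool.and_eq_true, List.all_eq_true, Nat.ble_eq] at h
  refine run_sound (k := 0) (φ := id) (Q := fun _ _ => False) Function.injective_id
    (fun _ _ _ => ⟨id, id⟩) (fun s _ G hG => a1.small G s s s s fun x y hxy => ?_)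
    (fun e he => ⟨Nat.lt_succ_of_le (h.1 e he).1, Nat.lt_succ_of_le (h.1 e he).2⟩) h.2 _
    fun x y hxy => Or.inr (Or.inr ⟨x, y, hxy.2, rfl, rfl⟩)
  rcases hG x y hxy with a | a | ⟨p, q, a, -, rfl, -⟩
  · exact a.elim
  · exact a.elim
  · exact Or.inl (a.resolve_left (Nat.not_lt_zero _))

theorem col {n c : ℤ} {W : List Lt} {E : List (ℕ × ℕ)} (h : Free n c W E) :
    c = (0 : ℕ) ∨ c = (1 : ℕ) := by
  obtain ⟨b, hb⟩ := h.1
  cases W with
  | nil => exact hb.1.2.2.1
  | cons g W => exact hb.1.2.2.1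

theorem allLt_spec {f : ℕ → Bool} : ∀ {k : ℕ}, allLt f k = true → ∀ i < k, f i = true
  | 0, _, _, hi => absurd hi (Nat.not_lt_zero _)
  | k + 1, h, i, hi => by
    rw [allLt, Bool.and_eq_true] at h
    rcases Nat.lt_succ_iff_lt_or_eq.1 hi with hi | rfl
    · exact allLt_spec h.2 i hi
    · exact h.1

theorem sum_nn {M : List (ℤ × ℤ)} (h : ∀ p ∈ M, 1 ≤ p.2) : 0 ≤ (M.map Prod.snd).sum :=
  List.sum_nonneg fun x hx => by
    obtain ⟨p, hp, rfl⟩ := List.mem_map.1 hx
    exact zero_le_one.trans (h p hp)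

theorem fm_nn (M : List (ℤ × ℤ)) : 0 ≤ FM M 0 :=
  List.sum_nonneg fun x hx => by
    obtain ⟨p, -, rfl⟩ := List.mem_map.1 hx
    exact abs_nonneg _

theorem enm_spec (leaf : List (ℤ × ℤ) → Bool) : ∀ (f y a : ℕ) (acc M : List (ℤ × ℤ)),
    enm leaf f y a acc = true → Poly y M → FM M 0 ≤ a → (∀ q ∈ M, sl acc q.1 q.2 = true) →
      leaf (acc.reverse ++ M) = true
  | f, 0, a, acc, M, h, hP, _, _ => by
    have e : M = [] := by
      cases M with
      | nil => rfl
      | cons q M =>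
        have h1 := hP.1 q List.mem_cons_self
        have h2 := sum_nn fun p hp => hP.1 p (List.mem_cons_of_mem _ hp)
        have h3 := hP.2.2
        rw [List.map_cons, List.sum_cons] at h3
        omega
    rw [e, List.append_nil]
    cases f <;> exact h
  | 0, y + 1, a, acc, M, h, _, _, _ => Bool.noConfusion h
  | f + 1, y + 1, a, acc, [], _, hP, _, _ => by
    have := hP.2.2
    rw [List.map_nil, List.sum_nil] at this
    omega
  | f + 1, y + 1, a, acc, (X, Y) :: M, h, hP, hF, hs => by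
    have h1 : 1 ≤ Y := hP.1 _ List.mem_cons_self
    have p1 : ∀ p ∈ M, 1 ≤ p.2 := fun p hp => hP.1 p (List.mem_cons_of_mem _ hp)
    have h2 := sum_nn p1
    have h3 : Y + (M.map Prod.snd).sum = ((y + 1 : ℕ) : ℤ) := hP.2.2
    have h4 := fm_nn M
    have h5 : |X - 0 * Y| + FM M 0 ≤ a := hF
    rw [zero_mul, sub_zero, Int.abs_eq_natAbs] at h5
    rw [enm] at h
    have k := allLt_spec (allLt_spec h (Y - 1).toNat (by omega)) (X + a).toNat (by omega)
    have e1 : (((X + a).toNat : ℕ) : ℤ) - a = X := by omega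
    have e2 : (((Y - 1).toNat : ℕ) : ℤ) + 1 = Y := by omega
    rw [e1, e2, hs _ List.mem_cons_self, Bool.not_true, Bool.false_or] at k
    have pw := List.pairwise_cons.1 hP.2.1
    have := enm_spec leaf f _ _ _ M k ⟨p1, pw.2, by omega⟩ (by omega)
      fun q hq => decide_eq_true (pw.1 q hq)
    rwa [List.reverse_cons, List.append_assoc] at this

end Ckaux

open Ckaux

theorem pCk (a1 : SA1) (b2 : SB2) (ev : SEv) : SCk where
  bad C E h := badK_spec a1 _ _ E h
  rd _ _ h := rd_spec a1 h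
  badw n W C0 C1 h c E hE := by
    simp only [badW, Bool.and_eq_true] at h
    rcases col hE with rfl | rfl
    · exact (b2.uniq (ev n 0 W h.1.1.1) hE).2.1 (badK_spec a1 _ _ _ h.1.2)
    · exact (b2.uniq (ev n 1 W h.1.1.2) hE).2.1 (badK_spec a1 _ _ _ h.2)
  rdw n W C0 C1 h c E hE := by
    simp only [rdW, Bool.and_eq_true] at h
    rcases col hE with rfl | rfl
    · exact (b2.uniq (ev n 0 W h.1.1.1) hE).1.1 (rd_spec a1 h.1.2)
    · exact (b2.uniq (ev n 1 W h.1.1.2) hE).1.1 (rd_spec a1 h.2)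
  good n c W C h E hE := by
    rw [goodC, Bool.and_eq_true] at h
    have u := b2.uniq (ev n c W h.1) hE
    have h2 := h.2
    cases e : Nat.beq (C % 2) 1 <;> rw [e] at h2
    · exact Or.inl (u.1.1 (rd_spec a1 h2))
    · exact Or.inr (u.2.1 (badK_spec a1 _ _ _ h2))

theorem pEnm : SEnm := fun leaf n a h M hP hF => enm_spec leaf n n a [] M h hP hF fun _ _ => rfl

end Pool.Agent.P.MP_5af56b_co.Tor
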