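import Pool.Agent.P.MP_5af56b_co.Tor.Stmt

namespace Pool.Agent.P.MP_5af56b_co.Tor

namespace D1aux

theorem br_s {i : ℤ} {U : List Lt} : IsBr (.s i :: U) ↔ IsBr U := by
  constructor
  · intro h g hg
    exact h g (List.mem_cons_of_mem _ hg)
  · intro h g hg
    rcases List.mem_cons.1 hg with rfl | hg
    · exact ⟨i, Or.inl rfl⟩
    · exact h g hg

theorem br_t {i : ℤ} {U : List Lt} : IsBr (.t i :: U) ↔ IsBr U := by
  constructor
  · intro h g hg
    exact h g (List.mem_cons_of_mem _ hg)
  · intro h g hg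
    rcases List.mem_cons.1 hg with rfl | hg
    · exact ⟨i, Or.inr rfl⟩
    · exact h g hg

theorem br_cases {g : Lt} {U : List Lt} (h : IsBr (g :: U)) :
    IsBr U ∧ ((∃ i, g = .s i) ∨ ∃ k, g = .t k) := by
  refine ⟨fun x hx => h x (List.mem_cons_of_mem _ hx), ?_⟩
  obtain ⟨i, hi | hi⟩ := h g List.mem_cons_self
  · exact Or.inl ⟨i, hi⟩
  · exact Or.inr ⟨i, hi⟩

theorem pw_s (n i : ℤ) (U : List Lt) (j : ℤ) : pw n (.s i :: U) j = pw n U (sw n i j) := rfl
theorem pw_t (n k : ℤ) (U : List Lt) (j : ℤ) : pw n (.t k :: U) j = pw n U (j + k) := rfl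
theorem red_s (n i : ℤ) (U : List Lt) :
    RedW n (.s i :: U) ↔ pw n U (i - 1) < pw n U i ∧ RedW n U := Iff.rfl
theorem red_t (n k : ℤ) (U : List Lt) : RedW n (.t k :: U) ↔ RedW n U := Iff.rfl

theorem ndvd {n a : ℤ} (h0 : a ≠ 0) (h1 : -n < a) (h2 : a < n) : ¬ n ∣ a := by
  intro h
  exact h0 (Int.eq_zero_of_abs_lt_dvd h (abs_lt.2 ⟨h1, h2⟩))

theorem sw_a {n i j : ℤ} (h : n ∣ j - i) : sw n i j = j - 1 := by
  unfold sw
  rw [if_pos h]

theorem sw_b {n i j : ℤ} (hn : 2 ≤ n) (h : n ∣ j - i + 1) : sw n i j = j + 1 := by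
  unfold sw
  have h' : ¬ n ∣ j - i := by
    intro h2
    have h3 : n ∣ 1 := by
      have := dvd_sub h h2
      simpa using this
    exact ndvd (by omega) (by omega) (by omega) h3
  rw [if_neg h', if_pos h]

theorem sw_c {n i j : ℤ} (h : ¬ n ∣ j - i) (h' : ¬ n ∣ j - i + 1) : sw n i j = j := by
  unfold sw
  rw [if_neg h, if_neg h']

theorem sw_self (n i : ℤ) : sw n i i = i - 1 := sw_a (by simp)

theorem sw_pred {n : ℤ} (hn : 2 ≤ n) (i : ℤ) : sw n i (i - 1) = i := by
  rw [sw_b hn (by simp)]
  ring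

theorem sw_succ {n : ℤ} (hn : 3 ≤ n) (i : ℤ) : sw n i (i + 1) = i + 1 :=
  sw_c (ndvd (by omega) (by omega) (by omega)) (ndvd (by omega) (by omega) (by omega))

theorem sw_pred2 {n : ℤ} (hn : 3 ≤ n) (i : ℤ) : sw n i (i - 2) = i - 2 :=
  sw_c (ndvd (by omega) (by omega) (by omega)) (ndvd (by omega) (by omega) (by omega))

theorem dv {n a b : ℤ} (h : n ∣ a) (e : b = a) : n ∣ b := e ▸ h

theorem ndv {n a b c : ℤ} (h : n ∣ a) (e : b = a + c) (h0 : c ≠ 0) (h1 : -n < c) (h2 : c < n) :
    ¬ n ∣ b := by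
  intro hb
  have : n ∣ c := dv (dvd_sub hb h) (by omega)
  exact ndvd h0 h1 h2 this

theorem sw_braid {n : ℤ} (hn : 3 ≤ n) (i x : ℤ) :
    sw n i (sw n (i + 1) (sw n i x)) = sw n (i + 1) (sw n i (sw n (i + 1) x)) := by
  have h2 : 2 ≤ n := by omega
  by_cases a : n ∣ x - i
  · rw [sw_a a, sw_c (n := n) (i := i + 1) (j := x - 1)
      (ndv a (c := -2) (by ring) (by omega) (by omega) (by omega))
      (ndv a (c := -1) (by ring) (by omega) (by omega) (by omega)),
      sw_b (i := i) (j := x - 1) h2 (dv a (by ring)),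
      sw_b (i := i + 1) (j := x) h2 (dv a (by ring)),
      sw_c (n := n) (i := i) (j := x + 1)
      (ndv a (c := 1) (by ring) (by omega) (by omega) (by omega))
      (ndv a (c := 2) (by ring) (by omega) (by omega) (by omega)),
      sw_a (i := i + 1) (j := x + 1) (dv a (by ring))]
    ring
  by_cases b : n ∣ x - i + 1
  · rw [sw_b h2 b, sw_b (i := i + 1) (j := x + 1) h2 (dv b (by ring)),
      sw_c (n := n) (i := i) (j := x + 1 + 1)
      (ndv b (c := 1) (by ring) (by omega) (by omega) (by omega))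
      (ndv b (c := 2) (by ring) (by omega) (by omega) (by omega)),
      sw_c (n := n) (i := i + 1) (j := x)
      (ndv b (c := -2) (by ring) (by omega) (by omega) (by omega))
      (ndv b (c := -1) (by ring) (by omega) (by omega) (by omega)),
      sw_b h2 b, sw_b (i := i + 1) (j := x + 1) h2 (dv b (by ring))]
  by_cases c : n ∣ x - (i + 1)
  · rw [sw_c a b, sw_a c, sw_a (i := i) (j := x - 1) (dv c (by ring)),
      sw_c (n := n) (i := i + 1) (j := x - 1 - 1)
      (ndv c (c := -2) (by ring) (by omega) (by omega) (by omega))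
      (ndv c (c := -1) (by ring) (by omega) (by omega) (by omega))]
  · have c' : ¬ n ∣ x - (i + 1) + 1 := fun h => a (dv h (by ring))
    rw [sw_c a b, sw_c c c', sw_c a b, sw_c c c']

theorem sw_comm {n i j : ℤ} (hn : 2 ≤ n) (h0 : ¬ n ∣ i - j) (h1 : ¬ n ∣ i - j - 1)
    (h2 : ¬ n ∣ i - j + 1) (x : ℤ) : sw n i (sw n j x) = sw n j (sw n i x) := by
  by_cases a : n ∣ x - i
  · have e1 : ¬ n ∣ x - j := fun h => h0 (dv (dvd_sub h a) (by ring))
    have e2 : ¬ n ∣ x - j + 1 := fun h => h2 (dv (dvd_sub h a) (by ring))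
    have e3 : ¬ n ∣ x - 1 - j := fun h => h1 (dv (dvd_sub h a) (by ring))
    have e4 : ¬ n ∣ x - 1 - j + 1 := fun h => h0 (dv (dvd_sub h a) (by ring))
    rw [sw_c e1 e2, sw_a a, sw_c e3 e4]
  by_cases b : n ∣ x - i + 1
  · have e1 : ¬ n ∣ x - j := fun h => h1 (dv (dvd_sub h b) (by ring))
    have e2 : ¬ n ∣ x - j + 1 := fun h => h0 (dv (dvd_sub h b) (by ring))
    have e3 : ¬ n ∣ x + 1 - j := fun h => h0 (dv (dvd_sub h b) (by ring))
    have e4 : ¬ n ∣ x + 1 - j + 1 := fun h => h2 (dv (dvd_sub h b) (by ring))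
    rw [sw_c e1 e2, sw_b hn b, sw_c e3 e4]
  rw [sw_c a b]
  by_cases c : n ∣ x - j
  · have e3 : ¬ n ∣ x - 1 - i := fun h => h2 (dv (dvd_sub c h) (by ring))
    have e4 : ¬ n ∣ x - 1 - i + 1 := fun h => a (dv h (by ring))
    rw [sw_a c, sw_c e3 e4]
  by_cases d : n ∣ x - j + 1
  · have e3 : ¬ n ∣ x + 1 - i := fun h => b (dv h (by ring))
    have e4 : ¬ n ∣ x + 1 - i + 1 := fun h => h1 (dv (dvd_sub d h) (by ring))
    rw [sw_b hn d, sw_c e3 e4]
  · rw [sw_c c d, sw_c a b]

section

variable (b2 : SB2)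
include b2

theorem cons_s {n : ℤ} {D D' : List Lt} (i : ℤ) (h : Eqw n D D') : Eqw n (.s i :: D) (.s i :: D') := by
  have := b2.ectx (n := n) [.s i] [] (D := D) (D' := D') (by simpa [dn, dl] using h)
  simpa using this

theorem cons_t {n : ℤ} {D D' : List Lt} (i : ℤ) (h : Eqw n D D') : Eqw n (.t i :: D) (.t i :: D') := by
  have := b2.ectx (n := n) [.t i] [] (D := D) (D' := D') (by simpa [dn, dl] using h)
  simpa using this

theorem app_r {n : ℤ} {D D' : List Lt} (C : List Lt) (h : Eqw n D D') : Eqw n (D ++ C) (D' ++ C) := by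
  have := b2.ectx (n := n) [] C (D := D) (D' := D') (by simpa [dn] using h)
  simpa using this

theorem rcons_s {n : ℤ} {D : List Lt} (i : ℤ) (h : Rdc n D) : Rdc n (.s i :: D) := by
  have := b2.rctx (n := n) [.s i] [] (D := D) (by simpa [dn, dl] using h)
  simpa using this

theorem rcons_t {n : ℤ} {D : List Lt} (i : ℤ) (h : Rdc n D) : Rdc n (.t i :: D) := by
  have := b2.rctx (n := n) [.t i] [] (D := D) (by simpa [dn, dl] using h)
  simpa using this

omit b2 in
theorem t0 (c1 : SC1) {n : ℤ} (hn : 2 ≤ n) : Eqw n [.t 0] [] := by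
  have := c1.t2 0 hn
  rwa [mul_zero] at this

theorem d2l (c1 : SC1) (c2 : SC2) (p : SP) {n : ℤ} (hn : 2 ≤ n) (he : n % 2 = 0) (m : ℕ) :
    ∀ (U : List Lt) (i : ℤ), U.length ≤ m → IsBr U → RedW n U → pw n U i < pw n U (i - 1) →
      ∃ U1, U1.length + 1 = U.length ∧ IsBr U1 ∧ RedW n (.s i :: U1) ∧
        pw n (.s i :: U1) = pw n U ∧ Eqw n U (.s i :: U1) := by
  induction m with
  | zero =>
    intro U i hl _ _ hd
    have : U = [] := List.eq_nil_of_length_eq_zero (by omega)
    subst this
    simp only [pw] at hd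
    omega
  | succ m ih =>
    intro U i hl hb hr hd
    cases U with
    | nil =>
      simp only [pw] at hd
      omega
    | cons g U' =>
      have hl' : U'.length ≤ m := by simpa using hl
      obtain ⟨hb', ⟨j, rfl⟩ | ⟨k, rfl⟩⟩ := br_cases hb
      · obtain ⟨hr1, hr'⟩ := (red_s _ _ _).1 hr
        have hap := p.pw_ap U' hn
        rw [pw_s, pw_s] at hd
        by_cases a : n ∣ i - j
        · have hs := p.sw_congr a
          refine ⟨U', by simp, hb', (red_s _ _ _).2 ⟨?_, hr'⟩, ?_, ?_⟩
          · rw [← hs, sw_self, sw_pred hn] at hd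
            exact hd
          · funext x
            rw [pw_s, pw_s, hs]
          · exact app_r b2 U' (b2.symm (c1.t4 a))
        by_cases b : n ∣ i - j + 1
        · -- j = i + 1
          have b' : n ∣ j - (i + 1) := dv (dvd_neg.2 b) (by ring)
          have hs := p.sw_congr b'
          have hr2 : pw n U' i < pw n U' (i + 1) := by
            obtain ⟨q, hq⟩ := b'
            have e1 := p.mul hap (i + 1) q
            have e2 := p.mul hap i q
            have e3 : j = i + 1 + n * q := by omega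
            have e4 : j - 1 = i + n * q := by omega
            rw [e4, e2, e3, e1] at hr1
            omega
          have e0 : sw n (i + 1) i = i + 1 := by
            have := sw_pred hn (i + 1)
            rwa [add_sub_cancel_right] at this
          rw [hs, e0] at hd
          by_cases h2 : n = 2
          · subst h2
            rw [sw_a (dv (dvd_neg.2 (dvd_refl 2)) (by ring))] at hd
            have e5 := hap.2 (i - 1 - 1)
            have e6 : i - 1 - 1 + 2 = i := by ring
            rw [e6] at e5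
            omega
          have h4 : 4 ≤ n := by omega
          have h3 : 3 ≤ n := by omega
          have e1 : sw n (i + 1) (i - 1) = i - 1 := by
            have := sw_pred2 h3 (i + 1)
            rwa [show i + 1 - 2 = i - 1 by ring] at this
          have e2 : sw n (i + 1) (i + 1) = i := by
            rw [sw_self]
            ring
          rw [e1] at hd
          obtain ⟨U2, l2, b2', r2, w2, q2⟩ := ih U' i hl' hb' hr' (by omega)
          obtain ⟨r2a, r2b⟩ := (red_s _ _ _).1 r2
          have f1 := congrFun w2 (i - 1)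
          have f2 := congrFun w2 i
          have f3 := congrFun w2 (i + 1)
          rw [pw_s] at f1 f2 f3
          rw [sw_pred hn] at f1
          rw [sw_self] at f2
          rw [sw_succ h3] at f3
          obtain ⟨U3, l3, b3', r3, w3, q3⟩ := ih U2 (i + 1) (by omega) b2' r2b
            (by rw [add_sub_cancel_right]; omega)
          obtain ⟨r3a, r3b⟩ := (red_s _ _ _).1 r3
          have g1 := congrFun w3 (i - 1)
          have g2 := congrFun w3 i
          have g3 := congrFun w3 (i + 1)
          rw [pw_s] at g1 g2 g3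
          rw [e1] at g1
          rw [e0] at g2
          rw [e2] at g3
          refine ⟨.s (i + 1) :: .s i :: U3, by simp only [List.length_cons]; omega,
            br_s.2 (br_s.2 b3'), ?_, ?_, ?_⟩
          · simp only [red_s, pw_s, add_sub_cancel_right, e0, e1, sw_pred hn, sw_self, sw_succ h3]
            exact ⟨by omega, by omega, by omega, r3b⟩
          · funext x
            rw [pw_s n j, hs, ← w2, pw_s n i U2, ← w3, pw_s, pw_s, pw_s, pw_s, sw_braid h3]
          · have s1 : Eqw n (.s j :: U') (.s (i + 1) :: U') := app_r b2 U' (c1.t4 b')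
            have s2 := cons_s b2 (i + 1) (b2.trans q2 (cons_s b2 i q3))
            have s3 := app_r b2 U3 (b2.symm (c2.s2 i h4))
            exact b2.trans s1 (b2.trans s2 s3)
        by_cases c : n ∣ i - j - 1
        · -- j = i - 1
          have c' : n ∣ j - (i - 1) := dv (dvd_neg.2 c) (by ring)
          have hs := p.sw_congr c'
          have h2 : n ≠ 2 := by
            rintro rfl
            exact b (dv (dvd_add c (dvd_refl 2)) (by ring))
          have h4 : 4 ≤ n := by omega
          have h3 : 3 ≤ n := by omega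
          have hr2 : pw n U' (i - 2) < pw n U' (i - 1) := by
            obtain ⟨q, hq⟩ := c'
            have e1 := p.mul hap (i - 1) q
            have e2 := p.mul hap (i - 2) q
            have e3 : j = i - 1 + n * q := by omega
            have e4 : j - 1 = i - 2 + n * q := by omega
            rw [e4, e2, e3, e1] at hr1
            omega
          have e0 : sw n (i - 1) i = i := by
            have := sw_succ h3 (i - 1)
            rwa [sub_add_cancel] at this
          have e1 : sw n (i - 1) (i - 1) = i - 2 := by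
            rw [sw_self]
            ring
          have e2 : sw n (i - 1) (i - 2) = i - 1 := by
            have := sw_pred hn (i - 1)
            rwa [show i - 1 - 1 = i - 2 by ring] at this
          have e3 : i - 1 - 1 = i - 2 := by ring
          rw [hs, e0, e1] at hd
          obtain ⟨U2, l2, b2', r2, w2, q2⟩ := ih U' i hl' hb' hr' (by omega)
          obtain ⟨r2a, r2b⟩ := (red_s _ _ _).1 r2
          have f1 := congrFun w2 (i - 1)
          have f2 := congrFun w2 i
          have f3 := congrFun w2 (i - 2)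
          rw [pw_s] at f1 f2 f3
          rw [sw_pred hn] at f1
          rw [sw_self] at f2
          rw [sw_pred2 h3] at f3
          obtain ⟨U3, l3, b3', r3, w3, q3⟩ := ih U2 (i - 1) (by omega) b2' r2b
            (by rw [e3]; omega)
          obtain ⟨r3a, r3b⟩ := (red_s _ _ _).1 r3
          have g1 := congrFun w3 (i - 1)
          have g2 := congrFun w3 i
          have g3 := congrFun w3 (i - 2)
          rw [pw_s] at g1 g2 g3
          rw [e1] at g1
          rw [e0] at g2
          rw [e2] at g3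
          refine ⟨.s (i - 1) :: .s i :: U3, by simp only [List.length_cons]; omega,
            br_s.2 (br_s.2 b3'), ?_, ?_, ?_⟩
          · simp only [red_s, pw_s, e3, e0, e1, sw_pred hn, sw_self, sw_pred2 h3]
            exact ⟨by omega, by omega, by omega, r3b⟩
          · funext x
            have hbr := sw_braid h3 (i - 1) x
            rw [sub_add_cancel] at hbr
            rw [pw_s n j, hs, ← w2, pw_s n i U2, ← w3, pw_s, pw_s, pw_s, pw_s, hbr]
          · have s1 : Eqw n (.s j :: U') (.s (i - 1) :: U') := app_r b2 U' (c1.t4 c')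
            have s2 := cons_s b2 (i - 1) (b2.trans q2 (cons_s b2 i q3))
            have s0 := c2.s2 (i - 1) h4
            rw [sub_add_cancel] at s0
            have s3 := app_r b2 U3 s0
            exact b2.trans s1 (b2.trans s2 s3)
        · -- far apart
          have e1 : sw n j i = i := sw_c a b
          have e2 : sw n j (i - 1) = i - 1 :=
            sw_c (fun h => c (dv h (by ring))) (fun h => a (dv h (by ring)))
          have e3 : sw n i j = j :=
            sw_c (fun h => a (dv (dvd_neg.2 h) (by ring))) (fun h => c (dv (dvd_neg.2 h) (by ring)))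
          have e4 : sw n i (j - 1) = j - 1 :=
            sw_c (fun h => b (dv (dvd_neg.2 h) (by ring))) (fun h => a (dv (dvd_neg.2 h) (by ring)))
          rw [e1, e2] at hd
          obtain ⟨U2, l2, b2', r2, w2, q2⟩ := ih U' i hl' hb' hr' hd
          obtain ⟨r2a, r2b⟩ := (red_s _ _ _).1 r2
          have f1 := congrFun w2 (j - 1)
          have f2 := congrFun w2 j
          rw [pw_s] at f1 f2
          rw [e4] at f1
          rw [e3] at f2
          refine ⟨.s j :: U2, by simp only [List.length_cons]; omega, br_s.2 b2', ?_, ?_, ?_⟩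
          · simp only [red_s, pw_s, e1, e2]
            exact ⟨r2a, by omega, r2b⟩
          · funext x
            rw [pw_s n j U', ← w2, pw_s, pw_s, pw_s, sw_comm hn a c b]
          · exact b2.trans (cons_s b2 j q2) (app_r b2 U2 (b2.symm (c1.s1 a c b)))
      · rw [pw_t, pw_t] at hd
        obtain ⟨U2, l2, b2', r2, w2, q2⟩ := ih U' (i + k) hl' hb' ((red_t _ _ _).1 hr)
          (by rw [show i + k - 1 = i - 1 + k by ring]; exact hd)
        obtain ⟨r2a, r2b⟩ := (red_s _ _ _).1 r2
        refine ⟨.t k :: U2, by simp only [List.length_cons]; omega, br_t.2 b2', ?_, ?_, ?_⟩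
        · simp only [red_s, red_t, pw_t]
          rw [show i - 1 + k = i + k - 1 by ring]
          exact ⟨r2a, r2b⟩
        · funext x
          rw [pw_t n k U', ← w2, pw_s, pw_t, pw_s]
          refine congrArg _ ?_
          unfold sw
          rw [show x + k - (i + k) = x - i by ring]
          split_ifs <;> ring
        · have s0 := c1.t3 n k (i + k)
          rw [add_sub_cancel_right] at s0
          exact b2.trans (cons_t b2 k q2) (app_r b2 U2 s0)

theorem d2 (c1 : SC1) (c2 : SC2) (p : SP) {n i : ℤ} {U : List Lt} (hn : 2 ≤ n) (he : n % 2 = 0)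
    (hb : IsBr U) (hr : RedW n U) (hd : pw n U i < pw n U (i - 1)) :
    ∃ U1, IsBr U1 ∧ RedW n (.s i :: U1) ∧ pw n (.s i :: U1) = pw n U ∧ Eqw n U (.s i :: U1) := by
  obtain ⟨U1, _, h⟩ := d2l b2 c1 c2 p hn he U.length U i le_rfl hb hr hd
  exact ⟨U1, h⟩

theorem d1 (c1 : SC1) (c2 : SC2) (p : SP) {n : ℤ} (hn : 2 ≤ n) (he : n % 2 = 0) :
    ∀ U : List Lt, IsBr U → Rdc n U ∨ RedW n U := by
  intro U
  induction U with
  | nil => exact fun _ => Or.inr trivial
  | cons g U ih =>
    intro hb
    obtain ⟨hb', ⟨j, rfl⟩ | ⟨k, rfl⟩⟩ := br_cases hb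
    · rcases ih hb' with h | h
      · exact Or.inl (rcons_s b2 j h)
      by_cases hl : pw n U (j - 1) < pw n U j
      · exact Or.inr ((red_s _ _ _).2 ⟨hl, h⟩)
      have hne : pw n U (j - 1) ≠ pw n U j := by
        intro e
        have := (p.pw_ap U hn).1.1 e
        omega
      obtain ⟨U1, -, -, -, q⟩ := d2 b2 c1 c2 p (i := j) hn he hb' h (by omega)
      refine Or.inl (b2.rdc_of (cons_s b2 j q) ?_)
      have h0 : Rdc (n + dn []) [.s j, .s j] :=
        ⟨[.s j], by simp [cr], by simpa [dn] using c2.s3 n j⟩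
      simpa using b2.rctx [] U1 h0
    · rcases ih hb' with h | h
      · exact Or.inl (rcons_t b2 k h)
      · exact Or.inr ((red_t _ _ _).2 h)

theorem tonly (c1 : SC1) {n : ℤ} (hn : 2 ≤ n) :
    ∀ U : List Lt, IsBr U → RedW n U → (∀ i, pw n U (i - 1) < pw n U i) →
      ∃ k, Eqw n U [.t k] ∧ ∀ j, pw n U j = j + k := by
  intro U
  induction U with
  | nil => exact fun _ _ _ => ⟨0, b2.symm (t0 c1 hn), fun j => by simp [pw]⟩
  | cons g U ih =>
    intro hb hr hm
    obtain ⟨hb', ⟨j, rfl⟩ | ⟨k, rfl⟩⟩ := br_cases hb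
    · have h1 := ((red_s _ _ _).1 hr).1
      have h2 := hm j
      rw [pw_s, pw_s, sw_self, sw_pred hn] at h2
      omega
    · obtain ⟨k', q, w⟩ := ih hb' ((red_t _ _ _).1 hr) (fun i => by
        have h2 := hm (i - k)
        rw [pw_t, pw_t, show i - k - 1 + k = i - 1 by ring, sub_add_cancel] at h2
        exact h2)
      refine ⟨k + k', b2.trans (cons_t b2 k q) (c1.t1 n k k'), fun j => ?_⟩
      rw [pw_t, w]
      ring

theorem d4 (c1 : SC1) (c2 : SC2) (p : SP) {n : ℤ} (hn : 2 ≤ n) (he : n % 2 = 0) :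
    ∀ V U : List Lt, IsBr U → IsBr V → RedW n U → RedW n V → pw n U = pw n V → Eqw n U V := by
  intro V
  induction V with
  | nil =>
    intro U hu _ ru _ hw
    obtain ⟨k, q, w⟩ := tonly b2 c1 hn U hu ru (fun i => by
      rw [hw]
      simp only [pw]
      omega)
    have h0 := w 0
    rw [hw] at h0
    simp only [pw] at h0
    have hk : k = 0 := by omega
    subst hk
    exact b2.trans q (t0 c1 hn)
  | cons g V ih =>
    intro U hu hv ru rv hw
    obtain ⟨hv', ⟨j, rfl⟩ | ⟨k, rfl⟩⟩ := br_cases hv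
    · obtain ⟨r1, r2⟩ := (red_s _ _ _).1 rv
      obtain ⟨U1, b1', r1', w1, q⟩ := d2 b2 c1 c2 p (i := j) hn he hu ru (by
        rw [hw, pw_s, pw_s, sw_self, sw_pred hn]
        exact r1)
      refine b2.trans q (cons_s b2 j (ih U1 b1' hv' ((red_s _ _ _).1 r1').2 r2 ?_))
      funext x
      have := congrFun (w1.trans hw) (sw n j x)
      rwa [pw_s, pw_s, p.sw_sw j x hn] at this
    · have h1 := ih (.t (-k) :: U) (br_t.2 hu) hv' ((red_t _ _ _).2 ru) ((red_t _ _ _).1 rv) (by
        funext x
        rw [pw_t, hw, pw_t]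
        exact congrArg _ (by ring))
      have h2 := c1.t1 n k (-k)
      rw [add_neg_cancel] at h2
      have h3 := app_r b2 U (b2.trans h2 (t0 c1 hn))
      exact b2.trans (b2.symm h3) (cons_t b2 k h1)

theorem tpush (c1 : SC1) (n k : ℤ) (X : List Lt) :
    ∀ l : List ℤ, Eqw n (.t k :: (l.map Lt.s ++ X)) ((l.map (· - k)).map Lt.s ++ .t k :: X) := by
  intro l
  induction l with
  | nil => exact b2.refl _ _
  | cons a l ih =>
    exact b2.trans (app_r b2 (l.map Lt.s ++ X) (c1.t3 n k a)) (cons_s b2 (a - k) ih)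

theorem pre_s {n : ℤ} {D D' : List Lt} (h : Eqw n D D') :
    ∀ l : List ℤ, Eqw n (l.map Lt.s ++ D) (l.map Lt.s ++ D') := by
  intro l
  induction l with
  | nil => exact h
  | cons a l ih => exact cons_s b2 a ih

theorem nft (c1 : SC1) {n : ℤ} (hn : 2 ≤ n) :
    ∀ U : List Lt, IsBr U → ∃ (l : List ℤ) (s : ℤ), Eqw n U (l.map Lt.s ++ [.t s]) := by
  intro U
  induction U with
  | nil => exact fun _ => ⟨[], 0, b2.symm (t0 c1 hn)⟩
  | cons g U ih =>
    intro hb
    obtain ⟨hb', ⟨j, rfl⟩ | ⟨k, rfl⟩⟩ := br_cases hb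
    · obtain ⟨l, s, q⟩ := ih hb'
      exact ⟨j :: l, s, cons_s b2 j q⟩
    · obtain ⟨l, s, q⟩ := ih hb'
      exact ⟨l.map (· - k), k + s, b2.trans (cons_t b2 k q)
        (b2.trans (tpush b2 c1 n k _ l) (pre_s b2 (c1.t1 n k s) _))⟩

theorem d3 (c1 : SC1) (c2 : SC2) (p : SP) {n i : ℤ} {U : List Lt} (hn : 2 ≤ n) (he : n % 2 = 0)
    (hb : IsBr U) (hd : pw n U i < pw n U (i - 1)) :
    Rdc n U ∨ ∃ U1, IsBr U1 ∧ pw n (.s i :: U1) = pw n U ∧ Eqw n U (.s i :: U1) := by
  rcases d1 b2 c1 c2 p hn he U hb with h | h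
  · exact Or.inl h
  · obtain ⟨U1, h1, -, h2, h3⟩ := d2 b2 c1 c2 p hn he hb h hd
    exact Or.inr ⟨U1, h1, h2, h3⟩

end

end D1aux

theorem pD1 (b1 : SB1) (b2 : SB2) (b3 : SB3) (c1 : SC1) (c2 : SC2) (p : SP) : SD1 where
  d1 := fun hn he hb => D1aux.d1 b2 c1 c2 p hn he _ hb
  d2 := fun hn he hb hr hd => D1aux.d2 b2 c1 c2 p hn he hb hr hd
  d3 := fun hn he hb hd => D1aux.d3 b2 c1 c2 p hn he hb hd
  d3' := by
    intro n i a b U hn he hb hab ha hb'
    have hm := b3.br_mir hb
    have e1 := p.pw_mir U a hn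
    have e2 := p.pw_mir U b hn
    rw [ha] at e1
    rw [hb'] at e2
    rcases D1aux.d3 b2 c1 c2 p (i := i) hn he hm (by omega) with h | ⟨U1, h1, h2, h3⟩
    · have := b3.rdc h
      rw [b1.br_dn hm, add_zero, b3.mir_mir] at this
      exact Or.inl this
    · have e : mir (.s i :: U1) = mir U1 ++ [.s i] := by simp [mir, flp]
      have h4 := b3.eqw h3
      rw [b1.br_dn hm, add_zero, b3.mir_mir, e] at h4
      refine Or.inr ⟨mir U1, b3.br_mir h1, ?_, h4⟩
      funext j
      have h5 := p.pw_mir (.s i :: U1) (pw n U j) hn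
      rw [h2, p.pw_mir U j hn, e] at h5
      exact h5
  d4 := fun hn he hu hv ru rv hw => D1aux.d4 b2 c1 c2 p hn he _ _ hu hv ru rv hw
  d4' := by
    intro n U V hn he hu hv rv hw
    rcases D1aux.d1 b2 c1 c2 p hn he U hu with h | h
    · exact Or.inl h
    · exact Or.inr (D1aux.d4 b2 c1 c2 p hn he _ _ hu hv h rv hw)
  nft := fun hn hb => D1aux.nft b2 c1 hn _ hb

end Pool.Agent.P.MP_5af56b_co.Tor
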