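import Pool.Agent.P.MP_5af56b_co.Tor.Stmt

namespace Pool.Agent.P.MP_5af56b_co.Tor

open Finset

namespace Dataux

theorem sum_getD {α : Type} (d : α) (F : α → ℤ) (M : List α) :
    (M.map F).sum = ∑ g ∈ range M.length, F (M.getD g d) := by
  induction M with
  | nil => simp
  | cons a M ih =>
    rw [List.map_cons, List.sum_cons, List.length_cons, Finset.sum_range_succ', ih, add_comm]
    simp

theorem fib (n : ℤ) (γ : ℤ → ℕ) (L : ℕ) (h : ∀ i, γ i < L) (f : ℤ → ℤ) :
    ∑ i ∈ Ico 0 n, f i = ∑ g ∈ range L, ∑ i ∈ Ico 0 n, if γ i = g then f i else 0 := by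
  rw [Finset.sum_comm]
  refine Finset.sum_congr rfl fun i _ => ?_
  rw [Finset.sum_ite_eq, if_pos (mem_range.2 (h i))]

theorem per_mul {n D : ℤ} {x : ℤ → ℤ} (h : ∀ i, x (i + n) = x i + D) (i k : ℤ) :
    x (i + n * k) = x i + D * k := by
  induction k using Int.induction_on with
  | zero => simp
  | succ k ih => rw [mul_add, mul_one, ← add_assoc, h, ih]; ring
  | pred k ih =>
    have := h (i + n * (-(k : ℤ) - 1))
    rw [show i + n * (-(k : ℤ) - 1) + n = i + n * (-(k : ℤ)) by ring, ih] at this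
    linarith

theorem qq_pos (n : ℤ) : 1 ≤ QQ n := by
  unfold QQ
  exact_mod_cast Nat.factorial_pos _

theorem fm_eq (r : SR) {n : ℤ} {w x : ℤ → ℤ} {γ : ℤ → ℕ} {M : List (ℤ × ℤ)} (hn : 2 ≤ n)
    (hw : AP n w) (hd : Dat0 n w x γ M) (c ξ : ℤ) :
    FM M ξ = ∑ g ∈ range M.length,
      |∑ i ∈ Ico 0 n, if γ (i + c) = g then cut w c (c + n * ξ) i / n else 0| := by
  unfold FM
  rw [sum_getD 0]
  refine Finset.sum_congr rfl fun g _ => ?_
  rw [← hd.xc, ← hd.yc, ← r.xc_cut g c ξ (by omega) hw hd.grp]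
  rfl

theorem tc_eq {n : ℤ} {w x : ℤ → ℤ} {γ : ℤ → ℕ} {M : List (ℤ × ℤ)}
    (hd : Dat0 n w x γ M) (c ξ : ℤ) :
    tc n (cut w c (c + n * ξ)) = ∑ g ∈ range M.length,
      ∑ i ∈ Ico 0 n, |if γ (i + c) = g then cut w c (c + n * ξ) i / n else 0| := by
  unfold tc
  rw [fib n (fun i => γ (i + c)) M.length (fun i => hd.lt _)]
  refine Finset.sum_congr rfl fun g _ => Finset.sum_congr rfl fun i _ => ?_
  split_ifs
  · rfl
  · rw [abs_zero]

theorem lb (r : SR) {n : ℤ} {w x : ℤ → ℤ} {γ : ℤ → ℕ} {M : List (ℤ × ℤ)} (hn : 2 ≤ n)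
    (hw : AP n w) (hd : Dat0 n w x γ M) (c ξ : ℤ) : FM M ξ ≤ tc n (cut w c (c + n * ξ)) := by
  rw [fm_eq r hn hw hd c ξ, tc_eq hd c ξ]
  exact Finset.sum_le_sum fun g _ => Finset.abs_sum_le_sum_abs _ _

theorem par {n : ℤ} {w x : ℤ → ℤ} {γ : ℤ → ℕ} {M : List (ℤ × ℤ)}
    (hd : Dat0 n w x γ M) : (FM M 0 - dg n w) % 2 = 0 := by
  unfold FM dg
  rw [sum_getD 0, fib n γ M.length hd.lt, ← Finset.sum_sub_distrib]
  refine Int.emod_eq_zero_of_dvd (Finset.dvd_sum fun g _ => ?_)
  have h : (∑ i ∈ Ico 0 n, if γ i = g then w i / n else 0) = (M.getD g 0).1 := hd.xc g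
  rw [h, zero_mul, sub_zero]
  rcases abs_cases (M.getD g 0).1 with h1 | h1
  · rw [h1.1]
    omega
  · rw [h1.1]
    omega

theorem y_pos {n : ℤ} {w x : ℤ → ℤ} {γ : ℤ → ℕ} {M : List (ℤ × ℤ)}
    (hd : Dat0 n w x γ M) (i : ℤ) : 1 ≤ (M.getD (γ i) 0).2 := by
  refine hd.poly.1 _ ?_
  rw [List.getD_eq_getElem _ _ (hd.lt i)]
  exact List.getElem_mem _

theorem abs_sum_eq {s : Finset ℤ} {f : ℤ → ℤ}
    (h : (∀ i ∈ s, 0 ≤ f i) ∨ ∀ i ∈ s, f i ≤ 0) : ∑ i ∈ s, |f i| = |∑ i ∈ s, f i| := by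
  rcases h with h | h
  · rw [abs_of_nonneg (Finset.sum_nonneg h)]
    exact Finset.sum_congr rfl fun i hi => abs_of_nonneg (h i hi)
  · rw [abs_of_nonpos (Finset.sum_nonpos h), ← Finset.sum_neg_distrib]
    exact Finset.sum_congr rfl fun i hi => abs_of_nonpos (h i hi)

theorem sc (r : SR) {n D : ℤ} {w x σ : ℤ → ℤ} {γ : ℤ → ℕ} {M : List (ℤ × ℤ)} (hn : 2 ≤ n)
    (hD : D0 n ≤ D) (hs : Str n D w x σ) (hf : Fin1 n w x σ γ M) (ξ : ℤ) :
    ∃ c, tc n (cut w c (c + n * ξ)) = FM M ξ := by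
  obtain ⟨hw, ⟨hD0, hmono, hper⟩, -, -, hσ⟩ := hs
  have hQ := qq_pos n
  have hgap : (n + 1) * (2 * QQ n + 1) ≤ D := by
    refine le_trans ?_ hD
    unfold D0
    have h1 : n + 1 ≤ (n + 1) ^ 2 := by nlinarith
    have h2 : 2 * QQ n + 1 ≤ 10 * QQ n ^ 2 := by nlinarith
    calc (n + 1) * (2 * QQ n + 1) ≤ (n + 1) ^ 2 * (10 * QQ n ^ 2) :=
          mul_le_mul h1 h2 (by omega) (by positivity)
      _ = _ := by ring
  obtain ⟨p, hp⟩ := r.gap (n := n) (D := D) (C := QQ n) x (by omega) (by omega) hgap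
  have hp' : ∀ i j, QQ n < |x i - p - j * D| := fun i j => by
    have h1 := hp (i % n) (Int.emod_nonneg _ (by omega)) (Int.emod_lt_of_pos _ (by omega))
      (j - i / n)
    have h2 := per_mul hper (i % n) (i / n)
    rw [Int.emod_add_mul_ediv] at h2
    rw [h2]
    convert h1 using 2
    ring
  obtain ⟨c, hc1, hc2⟩ := Int.exists_least_of_bdd (P := fun i => p < x i)
    ⟨0 + n * (-|p - x 0|), fun i hi => by
      by_contra hlt
      have h1 := hmono (le_of_lt (not_le.1 hlt))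
      rw [per_mul hper] at h1
      have h2 := neg_abs_le (p - x 0)
      have h3 := abs_nonneg (p - x 0)
      nlinarith⟩
    ⟨0 + n * (|p - x 0| + 1), by
      rw [per_mul hper]
      have h2 := le_abs_self (p - x 0)
      have h3 := abs_nonneg (p - x 0)
      nlinarith⟩
  have hiff : ∀ j, c ≤ j ↔ p < x j := fun j => ⟨fun h => hc1.trans_le (hmono h), hc2 j⟩
  have hwin : ∀ i, 0 ≤ i → i < n → p + QQ n < x (i + c) ∧ x (i + c) + QQ n < p + D := by
    intro i h0 h1
    have h2 := (hiff (i + c)).1 (by omega)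
    have h3 : ¬p < x (i + c - n) := fun h => by
      have := (hiff _).2 h
      omega
    have h4 := hper (i + c - n)
    rw [sub_add_cancel] at h4
    have h5 := hp' (i + c) 0
    have h6 := hp' (i + c) 1
    rw [zero_mul, sub_zero, abs_of_nonneg (by omega)] at h5
    rw [one_mul, abs_of_nonpos (by omega)] at h6
    constructor <;> omega
  have hx : ∀ i, x (w i - n * ξ) = x (w i) - D * ξ := fun i => by
    have := per_mul hper (w i) (-ξ)
    rw [show w i + n * -ξ = w i - n * ξ by ring] at this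
    linarith
  have hpos : ∀ i, 0 ≤ i → i < n → ξ * QQ n ≤ σ (i + c) → 0 ≤ cut w c (c + n * ξ) i / n := by
    intro i h0 h1 h2
    refine Int.ediv_nonneg ?_ (by omega)
    have h3 := (abs_le.1 (hσ (i + c))).1
    have h4 := (hwin i h0 h1).1
    have h5 : 0 ≤ D * (σ (i + c) - ξ * QQ n) := mul_nonneg hD0.le (by omega)
    have h6 : x (i + c) - QQ n ≤ x (w (i + c)) - D * ξ := by
      by_contra hlt
      have h7 : QQ n * (x (w (i + c)) - D * ξ) < QQ n * (x (i + c) - QQ n) :=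
        mul_lt_mul_of_pos_left (not_le.1 hlt) (by omega)
      nlinarith
    have h8 := (hiff (w (i + c) - n * ξ)).2 (by rw [hx]; omega)
    unfold cut
    omega
  have hneg : ∀ i, 0 ≤ i → i < n → σ (i + c) ≤ ξ * QQ n → cut w c (c + n * ξ) i / n ≤ 0 := by
    intro i h0 h1 h2
    have h3 := (abs_le.1 (hσ (i + c))).2
    have h4 := (hwin i h0 h1).2
    have h5 : 0 ≤ D * (ξ * QQ n - σ (i + c)) := mul_nonneg hD0.le (by omega)
    have h6 : x (w (i + c)) - D * ξ ≤ x (i + c) + QQ n := by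
      by_contra hlt
      have h7 : QQ n * (x (i + c) + QQ n) < QQ n * (x (w (i + c)) - D * ξ) :=
        mul_lt_mul_of_pos_left (not_le.1 hlt) (by omega)
      nlinarith
    have h8 : ¬c ≤ w (i + c) - n * ξ - n := fun h => by
      have h9 := (hiff _).1 h
      have h10 := hper (w (i + c) - n * ξ - n)
      rw [sub_add_cancel, hx] at h10
      omega
    have h11 : cut w c (c + n * ξ) i < 1 * n := by
      unfold cut
      omega
    have := Int.ediv_lt_of_lt_mul (by omega : 0 < n) h11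
    omega
  refine ⟨c, ?_⟩
  rw [fm_eq r hn hw hf.dat c ξ, tc_eq hf.dat c ξ]
  refine Finset.sum_congr rfl fun g _ => abs_sum_eq ?_
  rcases le_total (ξ * (M.getD g 0).2) (M.getD g 0).1 with hg | hg
  · refine Or.inl fun i hi => ?_
    split_ifs with h
    · refine hpos i (mem_Ico.1 hi).1 (mem_Ico.1 hi).2 ?_
      have h1 := hf.slope (i + c)
      have h2 := y_pos hf.dat (i + c)
      rw [h] at h1 h2
      by_contra hlt
      have h3 := mul_lt_mul_of_pos_right (not_le.1 hlt) (by omega : 0 < (M.getD g 0).2)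
      have h4 := mul_le_mul_of_nonneg_left hg (by omega : 0 ≤ QQ n)
      nlinarith
    · exact le_rfl
  · refine Or.inr fun i hi => ?_
    split_ifs with h
    · refine hneg i (mem_Ico.1 hi).1 (mem_Ico.1 hi).2 ?_
      have h1 := hf.slope (i + c)
      have h2 := y_pos hf.dat (i + c)
      rw [h] at h1 h2
      by_contra hlt
      have h3 := mul_lt_mul_of_pos_right (not_le.1 hlt) (by omega : 0 < (M.getD g 0).2)
      have h4 := mul_le_mul_of_nonneg_left hg (by omega : 0 ≤ QQ n)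
      nlinarith
    · exact le_rfl

/-- the rank of a value in a finite set -/
def rnk (T : Finset ℤ) (t : ℤ) : ℕ := #{s ∈ T | s < t}

theorem rnk_mono (T : Finset ℤ) {a b : ℤ} (h : a ≤ b) : rnk T a ≤ rnk T b :=
  Finset.card_le_card fun s hs => by
    rw [mem_filter] at hs ⊢
    exact ⟨hs.1, by omega⟩

theorem rnk_lt (T : Finset ℤ) {a b : ℤ} (ha : a ∈ T) (h : a < b) : rnk T a < rnk T b := by
  refine Finset.card_lt_card ⟨fun s hs => ?_, fun hs => ?_⟩
  · rw [mem_filter] at hs ⊢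
    exact ⟨hs.1, by omega⟩
  · have := hs (mem_filter.2 ⟨ha, h⟩)
    rw [mem_filter] at this
    omega

theorem rnk_card (T : Finset ℤ) {a : ℤ} (ha : a ∈ T) : rnk T a < #T := by
  refine Finset.card_lt_card ⟨filter_subset _ _, fun hs => ?_⟩
  have := hs ha
  rw [mem_filter] at this
  omega

theorem rnk_inj (T : Finset ℤ) {a b : ℤ} (ha : a ∈ T) (hb : b ∈ T) (h : rnk T a = rnk T b) :
    a = b := by
  rcases lt_trichotomy a b with h1 | h1 | h1
  · have := rnk_lt T ha h1
    omega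
  · exact h1
  · have := rnk_lt T hb h1
    omega

theorem rnk_surj (T : Finset ℤ) {g : ℕ} (hg : g < #T) : ∃ a ∈ T, rnk T a = g := by
  have h : T.image (rnk T) = range #T := by
    refine Finset.eq_of_subset_of_card_le (fun k hk => ?_) ?_
    · obtain ⟨a, ha, rfl⟩ := mem_image.1 hk
      exact mem_range.2 (rnk_card T ha)
    · rw [card_range, Finset.card_image_of_injOn fun a ha b hb h => rnk_inj T ha hb h]
  have := mem_range.2 hg
  rw [← h] at this
  exact mem_image.1 this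

theorem fin1 (r : SR) {n D : ℤ} {w x σ : ℤ → ℤ} (hn : 2 ≤ n) (hD : D0 n ≤ D)
    (hs : Str n D w x σ) : ∃ γ M, Fin1 n w x σ γ M := by
  obtain ⟨hw, ⟨hD0, hmono, hper⟩, hσ1, hσ2, hσ⟩ := hs
  have hQ := qq_pos n
  have hbig : n * QQ n ^ 2 < D := by
    refine lt_of_lt_of_le ?_ hD
    unfold D0
    exact mul_lt_mul_of_pos_right (by nlinarith) (by positivity)
  have hbig2 : 2 * QQ n ^ 2 < D :=
    lt_of_le_of_lt (mul_le_mul_of_nonneg_right hn (by positivity)) hbig
  obtain ⟨T, hT⟩ : ∃ T : Finset ℤ, T = (Ico 0 n).image σ := ⟨_, rfl⟩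
  have hmem : ∀ i, σ i ∈ T := fun i => by
    have h2 := per_mul (D := 0) (x := σ) (fun i => by rw [hσ1, add_zero]) (i % n) (i / n)
    rw [Int.emod_add_mul_ediv, zero_mul, add_zero] at h2
    rw [hT, h2]
    exact mem_image_of_mem _
      (mem_Ico.2 ⟨Int.emod_nonneg _ (by omega), Int.emod_lt_of_pos _ (by omega)⟩)
  obtain ⟨γ, hγ⟩ : ∃ γ : ℤ → ℕ, ∀ i, γ i = rnk T (σ i) := ⟨_, fun _ => rfl⟩
  have hgrp : Grp n w γ := ⟨fun i => by rw [hγ, hγ, hσ1], fun i => by rw [hγ, hγ, hσ2]⟩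
  have hlt : ∀ i, γ i < #T := fun i => by
    rw [hγ]
    exact rnk_card T (hmem i)
  have hord : ∀ i j, γ i < γ j → σ i < σ j := fun i j h => by
    by_contra hle
    have := rnk_mono T (not_lt.1 hle)
    rw [hγ, hγ] at h
    omega
  have heq : ∀ i j, γ i = γ j → σ i = σ j := fun i j h => by
    rw [hγ, hγ] at h
    exact rnk_inj T (hmem i) (hmem j) h
  have hsur : ∀ g, g < #T → ∃ i ∈ Ico 0 n, γ i = g := fun g hg => by
    obtain ⟨a, ha, h⟩ := rnk_surj T hg
    rw [hT] at ha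
    obtain ⟨i, hi, rfl⟩ := mem_image.1 ha
    exact ⟨i, hi, by rw [hγ, h]⟩
  have hy : ∀ g, g < #T → 1 ≤ Yc n γ g := fun g hg => by
    obtain ⟨i, hi, h⟩ := hsur g hg
    have := Finset.single_le_sum (f := fun i => if γ i = g then (1 : ℤ) else 0)
      (fun j _ => by split_ifs <;> omega) hi
    rwa [if_pos h] at this
  have hslope : ∀ i, QQ n * Xc n w γ (γ i) = σ i * Yc n γ (γ i) := fun i => by
    have h1 := r.xc_pos (γ i) (by omega) hw hgrp hper
    have h2 : D * (QQ n * Xc n w γ (γ i) - σ i * Yc n γ (γ i)) =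
        ∑ j ∈ Ico 0 n, if γ j = γ i then QQ n * (x (w j) - x j) - D * σ j else 0 := by
      have e : D * (QQ n * Xc n w γ (γ i) - σ i * Yc n γ (γ i)) =
          QQ n * (D * Xc n w γ (γ i)) - D * σ i * Yc n γ (γ i) := by ring
      rw [e, h1, Yc, Finset.mul_sum, Finset.mul_sum, ← Finset.sum_sub_distrib]
      refine Finset.sum_congr rfl fun j _ => ?_
      split_ifs with h
      · rw [heq j i h, mul_one]
      · simp
    have h3 : |∑ j ∈ Ico 0 n, if γ j = γ i then QQ n * (x (w j) - x j) - D * σ j else 0| ≤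
        n * QQ n ^ 2 := by
      refine (Finset.abs_sum_le_sum_abs _ _).trans ?_
      refine (Finset.sum_le_card_nsmul _ _ (QQ n ^ 2) fun j _ => ?_).trans ?_
      · split_ifs
        · exact hσ j
        · rw [abs_zero]
          positivity
      · rw [Int.card_Ico, sub_zero, nsmul_eq_mul, Int.toNat_of_nonneg (by omega)]
    rw [← h2, abs_mul, abs_of_pos hD0] at h3
    have h4 : |QQ n * Xc n w γ (γ i) - σ i * Yc n γ (γ i)| < 1 := by
      by_contra hge
      have := mul_le_mul_of_nonneg_left (not_lt.1 hge) hD0.le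
      omega
    have := Int.abs_lt_one_iff.1 h4
    omega
  obtain ⟨M, hM⟩ : ∃ M : List (ℤ × ℤ),
      M = (List.range #T).map fun g => (Xc n w γ g, Yc n γ g) := ⟨_, rfl⟩
  have hlen : M.length = #T := by rw [hM, List.length_map, List.length_range]
  have hget : ∀ g, M.getD g 0 = (Xc n w γ g, Yc n γ g) := fun g => by
    by_cases hg : g < #T
    · rw [List.getD_eq_getElem _ _ (by omega)]
      simp [hM]
    · rw [List.getD_eq_default _ _ (by omega)]
      have hne : ∀ i, ¬γ i = g := fun i h => by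
        have := hlt i
        omega
      simp only [Xc, Yc, hne, if_false, Finset.sum_const_zero]
      rfl
  refine ⟨γ, M, ⟨hgrp, fun i j h => ?_, fun i => by rw [hlen]; exact hlt i,
    fun g => by rw [hget], fun g => by rw [hget], ?_, ?_, ?_⟩, fun i => by
      rw [hget]; exact hslope i⟩
  · have h1 := hord i j h
    have h2 := (abs_le.1 (hσ i)).2
    have h3 := (abs_le.1 (hσ j)).1
    have h4 : D * 1 ≤ D * (σ j - σ i) := mul_le_mul_of_nonneg_left (by omega) hD0.le
    by_contra hle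
    have h5 := mul_le_mul_of_nonneg_left (not_lt.1 hle) (by omega : 0 ≤ QQ n)
    nlinarith
  · intro q hq
    rw [hM] at hq
    obtain ⟨g, hg, rfl⟩ := List.mem_map.1 hq
    exact hy g (List.mem_range.1 hg)
  · rw [hM, List.pairwise_map]
    refine List.Pairwise.imp_of_mem (fun {g g'} hg hg' h => ?_) List.pairwise_lt_range
    have hg1 := List.mem_range.1 hg
    have hg2 := List.mem_range.1 hg'
    obtain ⟨i, -, rfl⟩ := hsur g hg1
    obtain ⟨j, -, rfl⟩ := hsur g' hg2
    have h1 := hslope i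
    have h2 := hslope j
    have h3 := hord i j h
    have h4 := hy _ hg1
    have h5 := hy _ hg2
    have h6 : σ i * (Yc n γ (γ i) * Yc n γ (γ j)) < σ j * (Yc n γ (γ i) * Yc n γ (γ j)) :=
      mul_lt_mul_of_pos_right h3 (by positivity)
    refine lt_of_mul_lt_mul_left (a := QQ n) ?_ (by omega)
    calc QQ n * (Xc n w γ (γ i) * Yc n γ (γ j)) = σ i * (Yc n γ (γ i) * Yc n γ (γ j)) := by
          rw [← mul_assoc, h1, mul_assoc]
      _ < _ := h6
      _ = QQ n * (Xc n w γ (γ j) * Yc n γ (γ i)) := by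
          rw [← mul_assoc (QQ n), h2]
          ring
  · rw [sum_getD 0, hlen]
    have := fib n γ #T hlt fun _ => 1
    rw [Finset.sum_const, Int.card_Ico, sub_zero, nsmul_eq_mul, Int.toNat_of_nonneg (by omega),
      mul_one] at this
    refine Eq.trans (Finset.sum_congr rfl fun g _ => ?_) this.symm
    rw [hget]
    rfl

end Dataux

set_option linter.unusedVariables false in
theorem pDat (p : SP) (r : SR) : SDat :=
  ⟨fun hn hD hs => Dataux.fin1 r hn hD hs, fun hn hD hs hf ξ => Dataux.sc r hn hD hs hf ξ,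
    fun hn hw hd c ξ => Dataux.lb r hn hw hd c ξ, fun _ hd => Dataux.par hd⟩

end Pool.Agent.P.MP_5af56b_co.Tor
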