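import Pool.Agent.P.MP_5af56b_co.Minor
import Pool.Agent.P.MP_5af56b_co.Tor.Base

namespace Pool.Agent.P.MP_5af56b_co.Tor

open Finset

/-! ## Graph layer -/

/-- Petersen, P9, P8, P7, K331, K6, K44 minus an edge, K55 minus a matching. -/
def LL : List (List (ℕ × ℕ)) :=
  [[(0, 1), (1, 2), (2, 3), (3, 4), (4, 0), (0, 5), (1, 6), (2, 7), (3, 8), (4, 9), (5, 7), (7, 9), (9, 6), (6, 8), (8, 5)],
   [(1, 4), (4, 5), (5, 1), (1, 2), (2, 3), (3, 4), (1, 6), (2, 7), (3, 8), (4, 9), (5, 7), (7, 9), (9, 6), (6, 8), (8, 5)],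
   [(1, 3), (3, 7), (7, 1), (1, 4), (4, 5), (5, 1), (3, 4), (1, 6), (3, 8), (4, 9), (5, 7), (7, 9), (9, 6), (6, 8), (8, 5)],
   [(3, 5), (5, 6), (6, 3), (1, 3), (3, 7), (7, 1), (1, 4), (4, 5), (5, 1), (3, 4), (1, 6), (4, 9), (5, 7), (7, 9), (9, 6)],
   [(1, 8), (8, 9), (9, 1), (1, 3), (3, 7), (7, 1), (1, 4), (4, 5), (5, 1), (3, 4), (3, 8), (4, 9), (5, 7), (7, 9), (8, 5)],
   [(4, 6), (6, 7), (7, 4), (3, 5), (5, 6), (6, 3), (1, 3), (3, 7), (7, 1), (1, 4), (4, 5), (5, 1), (3, 4), (1, 6), (5, 7)],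
   [(0, 3), (0, 5), (0, 1), (5, 6), (6, 3), (3, 7), (7, 1), (1, 4), (4, 5), (3, 4), (1, 6), (4, 9), (5, 7), (7, 9), (9, 6)],
   [(0, 6), (0, 7), (0, 8), (0, 9), (1, 5), (1, 7), (1, 8), (1, 9), (2, 5), (2, 6), (2, 8), (2, 9), (3, 5), (3, 6), (3, 7), (3, 9), (4, 5), (4, 6), (4, 7), (4, 8)]]

/-- simple graph of an edge list -/
def gr (E : List (ℕ × ℕ)) : SG where
  A x y := x ≠ y ∧ ((x, y) ∈ E ∨ (y, x) ∈ E)
  symm := fun _ _ h => ⟨h.1.symm, h.2.symm⟩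
  irr := fun _ h => h.1 rfl
  bdd := by
    refine ⟨(E.map fun p => p.1 + p.2).sum + 1, fun x y h => ?_⟩
    rcases h.2 with h | h
    · have := List.single_le_sum (l := E.map fun p => p.1 + p.2) (fun _ _ => Nat.zero_le _) _
        (List.mem_map_of_mem (f := fun p : ℕ × ℕ => p.1 + p.2) h)
      simp only at this
      omega
    · have := List.single_le_sum (l := E.map fun p => p.1 + p.2) (fun _ _ => Nat.zero_le _) _
        (List.mem_map_of_mem (f := fun p : ℕ × ℕ => p.1 + p.2) h)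
      simp only at this
      omega

def Bad (G : SG) : Prop := ∃ H ∈ LL, SMinor (gr H) G
def GoodG (G : SG) : Prop := Rd G ∨ Bad G
def Eqv (G G' : SG) : Prop := (Rd G ↔ Rd G') ∧ (Bad G ↔ Bad G')
/-- `G'` lies below `G` -/
def Mn (G G' : SG) : Prop := (Rd G → Rd G') ∧ (Bad G' → Bad G)
def mp (φ : ℕ → ℕ) (E : List (ℕ × ℕ)) : List (ℕ × ℕ) := E.map (Prod.map φ φ)

/-- twisted grid: `b` cycles of length `m`, twist `a` -/
def tgE (m b a : ℕ) : List (ℕ × ℕ) :=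
  (List.range b).flatMap fun l => (List.range m).flatMap fun j =>
    [(l * m + j, l * m + (j + 1) % m),
     (l * m + j, if l + 1 < b then (l + 1) * m + j else (j + a) % m)]

/-! ## Words and their runs -/

/-- crossing at gap `i`, rotation by `k`, cup in gap `i`, cap closing gap `i + 1` -/
inductive Lt where
  | s (i : ℤ)
  | t (k : ℤ)
  | u (i : ℤ)
  | d (i : ℤ)

/-- width, colour, labels of the gaps; gap `j` is a vertex when `j + c` is even -/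
structure St where
  n : ℤ
  c : ℤ
  b : ℤ → ℕ

def St.Ok (x : St) : Prop :=
  0 ≤ x.n ∧ x.n % 2 = 0 ∧ (x.c = 0 ∨ x.c = 1) ∧ (∀ j, x.b (j + x.n) = x.b j) ∧
    (x.n = 0 → ∀ j, x.b j = x.b 0)

def Stp : Lt → St → St → List (ℕ × ℕ) → Prop
  | .s i, x, y, e => 2 ≤ x.n ∧ y.n = x.n ∧ y.c = x.c ∧ (∀ j, ¬ x.n ∣ j - i → y.b j = x.b j) ∧
      e = [if (i + x.c) % 2 = 0 then (x.b i, y.b i) else (x.b (i - 1), x.b (i + 1))]
  | .t k, x, y, e => 2 ≤ x.n ∧ y.n = x.n ∧ y.c = (x.c + k) % 2 ∧ (∀ j, y.b (j + k) = x.b j) ∧ e = []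
  | .u i, x, y, e => 0 ≤ i ∧ i ≤ x.n ∧ y.n = x.n + 2 ∧ y.c = x.c ∧
      (∀ j, 0 ≤ j → j ≤ i → y.b j = x.b j) ∧ (∀ j, i ≤ j → j ≤ x.n → y.b (j + 2) = x.b j) ∧ e = []
  | .d i, x, y, e => 0 ≤ i ∧ i ≤ y.n ∧ x.n = y.n + 2 ∧ y.c = x.c ∧
      (∀ j, 0 ≤ j → j ≤ i → y.b j = x.b j) ∧ (∀ j, i ≤ j → j ≤ y.n → y.b j = x.b (j + 2)) ∧ e = []

def Run : List Lt → St → St → List (ℕ × ℕ) → Prop
  | [], x, z, E => x.Ok ∧ z = x ∧ E = []
  | g :: W, x, z, E => x.Ok ∧ ∃ y e E', Stp g x y e ∧ Run W y z E' ∧ E = e ++ E'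

/-- relabel the vertex gaps by `φ` and the face gaps by `ψ` -/
def St.mp2 (φ ψ : ℕ → ℕ) (x : St) : St :=
  ⟨x.n, x.c, fun j => if ((if x.n = 0 then 0 else j) + x.c) % 2 = 0 then φ (x.b j) else ψ (x.b j)⟩

/-- the state with window labels `f 0, …, f n` -/
def St.ofF (n c : ℤ) (f : ℤ → ℕ) : St := ⟨n, c, fun j => if n = 0 then f 0 else f (j % n)⟩

def cr : List Lt → ℕ
  | [] => 0
  | .s _ :: W => cr W + 1
  | _ :: W => cr W

def nt : List Lt → ℕ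
  | [] => 0
  | .t _ :: W => nt W + 1
  | _ :: W => nt W

def dl : Lt → ℤ
  | .u _ => 2
  | .d _ => -2
  | _ => 0

def dn : List Lt → ℤ
  | [] => 0
  | g :: W => dl g + dn W

def dc : List Lt → ℤ
  | [] => 0
  | .t k :: W => k + dc W
  | _ :: W => dc W

def Val : ℤ → List Lt → Prop
  | _, [] => True
  | n, .s _ :: W => 2 ≤ n ∧ Val n W
  | n, .t _ :: W => 2 ≤ n ∧ Val n W
  | n, .u i :: W => 0 ≤ i ∧ i ≤ n ∧ Val (n + 2) W
  | n, .d i :: W => 0 ≤ i ∧ i + 2 ≤ n ∧ Val (n - 2) W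

/-- planar letters and rotations by one step -/
def Pl : ℤ → List Lt → Prop
  | _, [] => True
  | n, .s i :: W => 1 ≤ i ∧ i + 1 ≤ n ∧ Pl n W
  | n, .t k :: W => (k = 1 ∨ k = -1) ∧ 2 ≤ n ∧ Pl n W
  | n, .u i :: W => 0 ≤ i ∧ i ≤ n ∧ Pl (n + 2) W
  | n, .d i :: W => 0 ≤ i ∧ i + 2 ≤ n ∧ Pl (n - 2) W

def Bnd (K : ℤ) : ℤ → List Lt → Prop
  | n, [] => n ≤ K
  | n, g :: W => n ≤ K ∧ Bnd K (n + dl g) W

def flp : Lt → Lt
  | .s i => .s i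
  | .t k => .t (-k)
  | .u i => .d i
  | .d i => .u i

def mir (W : List Lt) : List Lt := (W.map flp).reverse

def Cl (n c : ℤ) (W : List Lt) (E : List (ℕ × ℕ)) : Prop := ∃ b, Run W ⟨n, c, b⟩ ⟨n, c, b⟩ E

def Free (n c : ℤ) (W : List Lt) (E : List (ℕ × ℕ)) : Prop :=
  Cl n c W E ∧ ∀ E', Cl n c W E' → ∃ φ, E' = mp φ E

def Good (n : ℤ) (W : List Lt) : Prop := ∀ c E, Free n c W E → GoodG (gr E)
def BadW (n : ℤ) (W : List Lt) : Prop := ∀ c E, Free n c W E → Bad (gr E)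
def RdW (n : ℤ) (W : List Lt) : Prop := ∀ c E, Free n c W E → Rd (gr E)

def RelC (R : SG → SG → Prop) (n c : ℤ) (D D' : List Lt) : Prop :=
  ∀ X, (∀ E, Free n c (D ++ X) E → ∃ E', Free n c (D' ++ X) E' ∧ R (gr E) (gr E')) ∧
    (∀ E', Free n c (D' ++ X) E' → ∃ E, Free n c (D ++ X) E ∧ R (gr E) (gr E'))

def Rel (R : SG → SG → Prop) (n : ℤ) (D D' : List Lt) : Prop :=
  dn D = dn D' ∧ ∀ c, RelC R n c D D'

def Eqw (n : ℤ) (D D' : List Lt) : Prop := cr D = cr D' ∧ Rel Eqv n D D'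
def Mnw (n : ℤ) (D D' : List Lt) : Prop := Rel Mn n D D'
def Rdc (n : ℤ) (D : List Lt) : Prop := ∃ D', cr D' < cr D ∧ Rel Eqv n D D'

/-- horizontal smoothing of the crossing at gap `i` -/
def ee (i : ℤ) : List Lt := [.t (1 - i), .d 0, .u 0, .t (i - 1)]

/-! ## Braids and affine permutations -/

def IsBr (W : List Lt) : Prop := ∀ g ∈ W, ∃ i, g = .s i ∨ g = .t i
def DownW (W : List Lt) : Prop := ∀ g ∈ W, (∃ i, g = .s i ∨ g = .t i) ∨ g = .d 0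
def UpW (W : List Lt) : Prop := ∀ g ∈ W, (∃ i, g = .s i ∨ g = .t i) ∨ g = .u 0

/-- exchanges `i - 1` and `i` modulo `n` -/
def sw (n i j : ℤ) : ℤ := if n ∣ j - i then j - 1 else if n ∣ j - i + 1 then j + 1 else j

/-- exchanges `a` and `b` modulo `n` -/
def tr (n a b j : ℤ) : ℤ := if n ∣ j - a then j - a + b else if n ∣ j - b then j - b + a else j

/-- top position of the strand that starts in position `j` -/
def pw (n : ℤ) : List Lt → ℤ → ℤ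
  | [], j => j
  | .s i :: W, j => pw n W (sw n i j)
  | .t k :: W, j => pw n W (j + k)
  | _ :: W, j => pw n W j

def AP (n : ℤ) (w : ℤ → ℤ) : Prop := Function.Bijective w ∧ ∀ j, w (j + n) = w j + n

def RedW (n : ℤ) : List Lt → Prop
  | [] => True
  | .s i :: W => pw n W (i - 1) < pw n W i ∧ RedW n W
  | _ :: W => RedW n W

def cut (w : ℤ → ℤ) (a b : ℤ) : ℤ → ℤ := fun i => w (i + a) - b
noncomputable def tc (n : ℤ) (w : ℤ → ℤ) : ℤ := ∑ i ∈ Ico 0 n, |w i / n|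
noncomputable def dg (n : ℤ) (w : ℤ → ℤ) : ℤ := ∑ i ∈ Ico 0 n, w i / n
noncomputable def rr (n : ℤ) (w : ℤ → ℤ) (a b : ℤ) : ℤ := ∑ k ∈ Ico a (a + n), max 0 ((w k - b) / n)

/-! ## Horizontal curves, layers -/

def P1 (n : ℤ) : List Lt := ((List.range n.toNat).map fun j : ℕ => Lt.s ((j : ℤ) + 2)) ++ [.t 1]

def Pk (n : ℤ) : ℕ → List Lt
  | 0 => P1 n
  | k + 1 => P1 n ++ .s 1 :: Pk n k

/-- a horizontal curve winding `k + 1` times -/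
def Hw (n : ℤ) (k : ℕ) : List Lt := .u 0 :: (Pk n k ++ [.d 0])
def Z (n : ℤ) (ks : List ℕ) : List Lt := (ks.map (Hw n)).flatten
def wind (ks : List ℕ) : ℕ := (ks.map (· + 1)).sum
def ZM (n : ℤ) (N : ℕ) : List Lt := if N = 0 then [] else Hw n (N - 1)

def rho (n : ℤ) (k : ℕ) (j : ℤ) : ℤ :=
  if (n + 2) ∣ j - 1 then j + ((k : ℤ) + 1) * (n + 2) - 1 else if (n + 2) ∣ j then j + 1 else j

def half (n e : ℤ) : List Lt := (List.range (n / 2).toNat).map fun j : ℕ => Lt.s (2 * (j : ℤ) + e)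
def grid (n : ℤ) (K : ℕ) : List Lt := ((List.range K).map fun j : ℕ => half n ((j : ℤ) % 2)).flatten

/-- the word read along a vertical cut -/
def rw90 : ℤ → List Lt → List Lt
  | _, [] => []
  | n, .s i :: W => .s (i + nt W) :: rw90 n W
  | n, .u i :: W => .u (i + nt W) :: rw90 (n + 2) W
  | n, .d i :: W => .d (i + nt W) :: rw90 (n - 2) W
  | n, .t k :: W => if k = 1 then rw90 n W else .d (nt W) :: .u (nt W + n - 1) :: rw90 n W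

def cups (n : ℕ) (a : ℤ) : List Lt := (List.range n).map fun j : ℕ => Lt.u (a + j)
def caps (n : ℕ) : List Lt := (List.replicate n [Lt.t 1, Lt.d 0]).flatten
def rot90 (n : ℤ) (W : List Lt) : List Lt := cups n.toNat (nt W) ++ rw90 n W ++ caps n.toNat

/-- the two induction hypotheses of the main induction -/
def Hyp (N : ℕ) (n : ℤ) : Prop :=
  (∀ n' W', cr W' < N → Good n' W') ∧ ∀ n' W', n' < n → cr W' ≤ N → Good n' W'

def PG (n : ℤ) (Y : List Lt) (N : ℕ) (w : ℤ → ℤ) : Prop :=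
  ∀ U, IsBr U → pw n U = w → cr U + cr Y ≤ N → Good n (U ++ Y)
def PB (n : ℤ) (Y : List Lt) (w : ℤ → ℤ) : Prop :=
  ∀ U, IsBr U → pw n U = w → BadW n (U ++ Y)

/-! ## Straightening -/

def Cyc (n : ℤ) (P : (ℤ → ℤ) → Prop) : Prop :=
  (∀ w i, AP n w → (w i < w (i - 1) ∨ ∃ a b, a < b ∧ w a = i ∧ w b = i - 1) →
    P (fun j => sw n i (w (sw n i j))) → P w) ∧
  ∀ w k, AP n w → P (fun j => w (j - k) + k) → P w

def Pos (n D : ℤ) (x : ℤ → ℤ) : Prop := 0 < D ∧ Monotone x ∧ ∀ i, x (i + n) = x i + D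
def Grp (n : ℤ) (w : ℤ → ℤ) (γ : ℤ → ℕ) : Prop := (∀ i, γ (i + n) = γ i) ∧ ∀ i, γ (w i) = γ i
def Sep (w x : ℤ → ℤ) (γ : ℤ → ℕ) : Prop :=
  ∀ i j, γ i < γ j → x (w i) - x i < x (w j) - x j
def QQ (n : ℤ) : ℤ := (n.toNat.factorial : ℕ)
def D0 (n : ℤ) : ℤ := 10 * (n + 1) ^ 2 * QQ n ^ 2

def Str (n D : ℤ) (w x σ : ℤ → ℤ) : Prop :=
  AP n w ∧ Pos n D x ∧ (∀ i, σ (i + n) = σ i) ∧ (∀ i, σ (w i) = σ i) ∧
    ∀ i, |QQ n * (x (w i) - x i) - D * σ i| ≤ QQ n ^ 2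

noncomputable def rk (γ : ℤ → ℕ) (g : ℕ) (i : ℤ) : ℤ :=
  (∑ j ∈ Ico 0 i, if γ j = g then 1 else 0) - ∑ j ∈ Ico i 0, if γ j = g then 1 else 0
noncomputable def Yc (n : ℤ) (γ : ℤ → ℕ) (g : ℕ) : ℤ := ∑ i ∈ Ico 0 n, if γ i = g then 1 else 0
noncomputable def Xc (n : ℤ) (w : ℤ → ℤ) (γ : ℤ → ℕ) (g : ℕ) : ℤ := ∑ i ∈ Ico 0 n, if γ i = g then w i / n else 0

def Poly (n : ℤ) (M : List (ℤ × ℤ)) : Prop :=
  (∀ p ∈ M, 1 ≤ p.2) ∧ M.Pairwise (fun p q => p.1 * q.2 < q.1 * p.2) ∧ (M.map Prod.snd).sum = n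
def FM (M : List (ℤ × ℤ)) (ξ : ℤ) : ℤ := (M.map fun p => |p.1 - ξ * p.2|).sum
def pre (M : List (ℤ × ℤ)) (a : ℕ) : ℤ × ℤ := (M.take a).sum
def cut3 (M : List (ℤ × ℤ)) (a b : ℕ) : List (ℤ × ℤ) :=
  [pre M a, pre M b - pre M a, M.sum - pre M b]
/-- block size of a group -/
def kk (p : ℤ × ℤ) : ℤ := (Int.gcd p.1 p.2 : ℕ)

structure Dat0 (n : ℤ) (w x : ℤ → ℤ) (γ : ℤ → ℕ) (M : List (ℤ × ℤ)) : Prop where
  grp : Grp n w γ
  sep : Sep w x γ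
  lt : ∀ i, γ i < M.length
  xc : ∀ g, Xc n w γ g = (M.getD g 0).1
  yc : ∀ g, Yc n γ g = (M.getD g 0).2
  poly : Poly n M

/-- the finest grouping -/
structure Fin1 (n : ℤ) (w x σ : ℤ → ℤ) (γ : ℤ → ℕ) (M : List (ℤ × ℤ)) : Prop where
  dat : Dat0 n w x γ M
  slope : ∀ i, QQ n * (M.getD (γ i) 0).1 = σ i * (M.getD (γ i) 0).2

def Blks (w : ℤ → ℤ) (γ : ℤ → ℕ) (M : List (ℤ × ℤ)) : Prop :=
  ∀ g, ∃ o, ∀ i, γ i = g → (rk γ g (w i) + o) / kk (M.getD g 0) =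
    (rk γ g i + o) / kk (M.getD g 0) + (M.getD g 0).1 / kk (M.getD g 0)

def Blk (n : ℤ) (β w : ℤ → ℤ) : Prop :=
  (∀ i, β (i + n) = β i + n) ∧ Monotone β ∧ (∀ i, β i ≤ i) ∧ 0 ≤ β 0 ∧
    (∀ i j, β i = β j → i < j → w j < w i) ∧ ∀ i j, β (w i) = β (w j) ↔ β i = β j

structure EntC (n : ℤ) (M : List (ℤ × ℤ)) (U : List Lt) (γ : ℤ → ℕ) (y : ℤ → ℤ) (D : ℤ) : Prop where
  br : IsBr U
  red : RedW n U
  grp : Grp n (pw n U) γ
  pos : Pos n D y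
  smono : StrictMono y
  yc : ∀ g, Yc n γ g = (M.getD g 0).2

def EntBad (n : ℤ) (N : ℕ) (M : List (ℤ × ℤ)) : Prop :=
  ∃ U γ y D, EntC n M U γ y D ∧ Sep (pw n U) y γ ∧
    (∀ i, rk γ (γ i) (pw n U i) = rk γ (γ i) i + (M.getD (γ i) 0).1) ∧
    BadW n (U ++ Z n (List.replicate N 0))

structure EntR (n : ℤ) (M : List (ℤ × ℤ)) (U : List Lt) (γ : ℤ → ℕ) (y : ℤ → ℤ) (D : ℤ)
    (β : ℤ → ℤ) (e : ℤ) : Prop where
  c : EntC n M U γ y D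
  blk : Blk n β (pw n U)
  step : ∀ i, rk γ (γ i) (pw n U i) / kk (M.getD (γ i) 0) =
    rk γ (γ i) i / kk (M.getD (γ i) 0) + (M.getD (γ i) 0).1 / kk (M.getD (γ i) 0)
  same : ∀ i j, γ i = γ j → rk γ (γ i) i / kk (M.getD (γ i) 0) =
    rk γ (γ i) j / kk (M.getD (γ i) 0) → β i = β j
  near : ∀ i j, β i = β j → |y i - y j| ≤ e
  sep : ∀ i j, γ i < γ j → y (pw n U i) - y i + 2 * e < y (pw n U j) - y j

def EntRed (n : ℤ) (N : ℕ) (M : List (ℤ × ℤ)) : Prop :=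
  ∃ U γ y D β e, EntR n M U γ y D β e ∧ RdW n (U ++ ZM n N)

end Pool.Agent.P.MP_5af56b_co.Tor
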