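import Pool.Agent.P.MP_5af56b_co.Tor.Stmt

namespace Pool.Agent.P.MP_5af56b_co.Tor

open Finset

namespace E1aux

theorem br_nil : IsBr [] := fun _ h => by simp at h

theorem br_s (i : ℤ) : IsBr [Lt.s i] := fun g h => by
  simp only [List.mem_singleton] at h
  exact ⟨i, Or.inl h⟩

theorem br_t (i : ℤ) : IsBr [Lt.t i] := fun g h => by
  simp only [List.mem_singleton] at h
  exact ⟨i, Or.inr h⟩

theorem br_cons_s {U : List Lt} (i : ℤ) (h : IsBr U) : IsBr (Lt.s i :: U) := fun g hg => by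
  rcases List.mem_cons.1 hg with hg | hg
  · exact ⟨i, Or.inl hg⟩
  · exact h g hg

theorem br_cons_t {U : List Lt} (i : ℤ) (h : IsBr U) : IsBr (Lt.t i :: U) := fun g hg => by
  rcases List.mem_cons.1 hg with hg | hg
  · exact ⟨i, Or.inr hg⟩
  · exact h g hg

theorem tmod (b2 : SB2) (c1 : SC1) {m a b : ℤ} (hm : 2 ≤ m) (h : m ∣ a - b) :
    Eqw m [.t a] [.t b] := by
  obtain ⟨x, hx⟩ := h
  have ha : a = b + m * x := by omega
  have h1 : Eqw m [.t b, .t (m * x)] [.t a] := by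
    rw [ha]; exact c1.t1 m b (m * x)
  have h2 : Eqw (m + dn [Lt.t b]) [.t (m * x)] [] := by
    have : m + dn [Lt.t b] = m := by simp [dn, dl]
    rw [this]; exact c1.t2 x hm
  have h3 := b2.ectx [Lt.t b] [] h2
  exact b2.trans (b2.symm h1) (by simpa using h3)

/-- rewriting above a cup -/
theorem up_eq (b2 : SB2) {n : ℤ} {U U' : List Lt} (C : List Lt) (h : Eqw (n + 2) U U') :
    Eqw n (.u 0 :: (U ++ C)) (.u 0 :: (U' ++ C)) := by
  have h2 : Eqw (n + dn [Lt.u 0]) U U' := by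
    have : n + dn [Lt.u 0] = n + 2 := by simp [dn, dl]
    rw [this]; exact h
  simpa using b2.ectx [Lt.u 0] C h2

theorem up_rdc (b2 : SB2) {n : ℤ} {U : List Lt} (h : Rdc (n + 2) U) : Rdc n (.u 0 :: U) := by
  have h2 : Rdc (n + dn [Lt.u 0]) U := by
    have : n + dn [Lt.u 0] = n + 2 := by simp [dn, dl]
    rw [this]; exact h
  simpa using b2.rctx [Lt.u 0] [] h2

theorem br_eq (b1 : SB1) (b2 : SB2) {n : ℤ} {V D D' : List Lt} (C : List Lt) (hV : IsBr V)
    (h : Eqw n D D') : Eqw n (V ++ D ++ C) (V ++ D' ++ C) := by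
  apply b2.ectx V C
  rw [b1.br_dn hV, add_zero]; exact h

theorem br_rdc (b1 : SB1) (b2 : SB2) {n : ℤ} {V D : List Lt} (C : List Lt) (hV : IsBr V)
    (h : Rdc n D) : Rdc n (V ++ D ++ C) := by
  apply b2.rctx V C
  rw [b1.br_dn hV, add_zero]; exact h

theorem out_ctx (b1 : SB1) (b2 : SB2) {n : ℤ} {D D' V V' : List Lt} (hV : IsBr V) (hV' : IsBr V')
    (h : Eqw n D (V ++ D' ++ V')) (o : Out n D') : Out n D := by
  rcases o with o | ⟨B, hB, o⟩ | ⟨A, A', k, hA, hA', o⟩ | ⟨hn, A, A', A'', hA, hA', hA'', o⟩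
  · exact Or.inl (b2.rdc_of h (br_rdc b1 b2 V' hV o))
  · refine Or.inr (Or.inl ⟨V ++ B ++ V', ?_, b2.trans h (br_eq b1 b2 V' hV o)⟩)
    exact b1.br_app.2 ⟨b1.br_app.2 ⟨hV, hB⟩, hV'⟩
  · refine Or.inr (Or.inr (Or.inl ⟨V ++ A, A' ++ V', k, b1.br_app.2 ⟨hV, hA⟩,
      b1.br_app.2 ⟨hA', hV'⟩, b2.trans h ?_⟩))
    simpa [List.append_assoc] using br_eq b1 b2 V' hV o
  · refine Or.inr (Or.inr (Or.inr ⟨hn, V ++ A, A', A'' ++ V', b1.br_app.2 ⟨hV, hA⟩, hA',
      b1.br_app.2 ⟨hA'', hV'⟩, b2.trans h ?_⟩))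
    simpa [List.append_assoc] using br_eq b1 b2 V' hV o

theorem out_of_eq (b1 : SB1) (b2 : SB2) {n : ℤ} {D D' : List Lt} (h : Eqw n D D')
    (o : Out n D') : Out n D :=
  out_ctx b1 b2 (V := []) (V' := []) br_nil br_nil (by simpa using h) o

theorem base (b1 : SB1) (b2 : SB2) (c1 : SC1) (c1b : SC1b) (e0 : SE0) {n : ℤ} (s : ℤ)
    (hn : 0 ≤ n) (he : n % 2 = 0) : Out n [.u 0, .t s, .d 0] := by
  have hm : 2 ≤ n + 2 := by omega
  have red : ∀ r : ℤ, (n + 2) ∣ s - r → Out n [.u 0, .t r, .d 0] → Out n [.u 0, .t s, .d 0] := by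
    intro r hr o
    refine out_of_eq b1 b2 ?_ o
    simpa using up_eq b2 [Lt.d 0] (tmod b2 c1 hm hr)
  obtain ⟨r, hr0, hr1, hr⟩ : ∃ r, 0 ≤ r ∧ r < n + 2 ∧ (n + 2) ∣ s - r :=
    ⟨s % (n + 2), Int.emod_nonneg _ (by omega), Int.emod_lt_of_pos _ (by omega),
      Int.dvd_self_sub_emod⟩
  by_cases h0 : r = 0
  · subst h0
    apply red 0 hr
    have h1 : Eqw (n + 2) [.t 0] [] := by simpa using c1.t2 0 hm
    have h2 := up_eq b2 [Lt.d 0] h1
    exact Or.inr (Or.inl ⟨[], br_nil, b2.trans (by simpa using h2) (c1b.c4a hn)⟩)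
  by_cases h1 : r = 1
  · subst h1
    apply red 1 hr
    by_cases h2 : 2 ≤ n
    · exact Or.inr (Or.inl ⟨[.t 1], br_t 1, c1b.c4b h2⟩)
    · have : n = 0 := by omega
      subst this
      refine Or.inr (Or.inr (Or.inl ⟨[], [], 0, br_nil, br_nil, ?_⟩))
      have : Hw 0 0 = [.u 0, .t 1, .d 0] := by simp [Hw, Pk, P1]
      rw [this]
      simpa using b2.refl 0 _
  have h2 : 2 ≤ n := by omega
  by_cases h3 : r = n + 1
  · have hd : (n + 2) ∣ s - (-1) := by
      have : s - (-1) = (s - r) + (n + 2) := by omega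
      rw [this]; exact dvd_add hr dvd_rfl
    apply red (-1) hd
    exact Or.inr (Or.inl ⟨[.t (-1)], br_t _, c1b.c4c h2⟩)
  apply red r hr
  have h4 := c1b.c4d (n := n) (s := r) (by omega) (by omega)
  by_cases h5 : n = 2
  · have : n - r = 0 := by omega
    rw [this] at h4
    exact Or.inr (Or.inr (Or.inr ⟨h2, [], [], [.t (r - 2)], br_nil, br_nil, br_t _,
      by simpa using h4⟩))
  · have h6 := e0.c0' (n := n) (i := n - r) (by omega) (by omega) (by omega)
    have h7 := br_eq b1 b2 (V := []) [Lt.u 0, Lt.t (r - 2)] br_nil h6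
    refine Or.inr (Or.inr (Or.inr ⟨h2, [.t (-(n - r))], [.t (n - r)], [.t (r - 2)], br_t _, br_t _,
      br_t _, b2.trans h4 ?_⟩))
    simpa using h7

/-- chaining -/
theorem chain {m : ℤ} {w : ℤ → ℤ} (hm : 2 ≤ m)
    (h1 : ∀ p, ¬ m ∣ p - 1 → ¬ m ∣ p → w p < w (p + 1)) (h2 : ∀ p, m ∣ p → w p < w (p + 2)) :
    ∀ (d : ℕ) (p q : ℤ), q - p ≤ d → ¬ m ∣ p - 1 → ¬ m ∣ q - 1 → p < q → w p < w q := by
  intro d
  induction d with
  | zero => intro p q h _ _ h'; omega
  | succ d ih =>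
    intro p q h hp hq hpq
    by_cases hd : m ∣ p
    · have hne : q ≠ p + 1 := by
        rintro rfl
        exact hq (by simpa using hd)
      by_cases he : q = p + 2
      · rw [he]; exact h2 p hd
      · refine lt_trans (h2 p hd) (ih (p + 2) q (by push_cast at h; omega) ?_ hq (by omega))
        intro hc
        have : m ∣ 1 := by
          have e : (1 : ℤ) = (p + 2 - 1) - p := by ring
          rw [e]; exact dvd_sub hc hd
        have := Int.le_of_dvd one_pos this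
        omega
    · by_cases he : q = p + 1
      · rw [he]; exact h1 p hp hd
      · exact lt_trans (h1 p hp hd)
          (ih (p + 1) q (by push_cast at h; omega) (by simpa using hd) hq (by omega))

theorem nfp_of (p : SP) {n : ℤ} {w : ℤ → ℤ} (hn : 0 ≤ n) (he : n % 2 = 0) (hw : AP (n + 2) w)
    (ha : w 0 < w 1) (hb : ∀ i, 3 ≤ i → i ≤ n + 1 → w (i - 1) < w i)
    (hc : 2 ≤ n → w 0 < w 2) (hd : 2 ≤ n → w (-1) < w 0) : NFp n w := by
  refine ⟨ha, fun a b h1 h2 h3 => ?_⟩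
  refine chain (m := n + 2) (by omega) ?_ ?_ (b - a).toNat a b (by omega) h1 h2 h3
  · intro q hq1 hq0
    obtain ⟨r, k, hr0, hr1, rfl⟩ : ∃ r k, 0 ≤ r ∧ r < n + 2 ∧ q = r + (n + 2) * k :=
      ⟨q % (n + 2), q / (n + 2), Int.emod_nonneg _ (by omega), Int.emod_lt_of_pos _ (by omega),
        (Int.emod_add_mul_ediv q (n + 2)).symm⟩
    have e0 : r ≠ 0 := by
      rintro rfl
      exact hq0 ⟨k, by ring⟩
    have e1 : r ≠ 1 := by
      rintro rfl
      exact hq1 ⟨k, by ring⟩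
    have e2 : r + (n + 2) * k + 1 = (r + 1) + (n + 2) * k := by ring
    rw [e2, p.mul hw, p.mul hw]
    by_cases e3 : r = n + 1
    · have f1 := p.mul hw (-1) 1
      have f2 := p.mul hw 0 1
      have g1 : (-1 : ℤ) + (n + 2) * 1 = r := by omega
      have g2 : (0 : ℤ) + (n + 2) * 1 = r + 1 := by omega
      rw [g1] at f1
      rw [g2] at f2
      have := hd (by omega)
      omega
    · have := hb (r + 1) (by omega) (by omega)
      rw [add_sub_cancel_right] at this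
      omega
  · rintro q ⟨k, rfl⟩
    have e1 : (n + 2) * k = 0 + (n + 2) * k := by ring
    have e2 : (n + 2) * k + 2 = 2 + (n + 2) * k := by ring
    rw [e2, p.mul hw]
    nth_rewrite 1 [e1]
    rw [p.mul hw]
    by_cases h : 2 ≤ n
    · have := hc h
      omega
    · have hn0 : n = 0 := by omega
      have f := hw.2 0
      rw [hn0] at f
      norm_num at f
      omega

theorem ndvd {m a : ℤ} (h0 : 0 < a) (h1 : a < m) : ¬ m ∣ a := fun h => by
  have := Int.le_of_dvd h0 h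
  omega

theorem ndvd' {m a : ℤ} (h0 : a < 0) (h1 : -m < a) : ¬ m ∣ a := fun h =>
  ndvd (m := m) (a := -a) (by omega) (by omega) (dvd_neg.2 h)

/-- the index map of the rotation step -/
def ph (j : ℤ) : ℤ := if j = 0 then 0 else if j = 1 then 1 else if j = 2 then -1 else j - 1

def ps (k : ℤ) : ℤ := if k = -1 then 2 else if k = 0 then 0 else if k = 1 then 1 else k + 1

theorem sw_ph {m j : ℤ} (hm : 4 ≤ m) (h0 : 0 ≤ j) (h1 : j < m) :
    sw m 2 j + (-1) = sw m 0 (ph j) := by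
  unfold ph
  by_cases e0 : j = 0
  · subst e0
    have a1 : ¬ m ∣ (0 : ℤ) - 2 := ndvd' (by omega) (by omega)
    have a2 : ¬ m ∣ (0 : ℤ) - 2 + 1 := ndvd' (by omega) (by omega)
    have a3 : m ∣ (0 : ℤ) - 0 := by simp
    simp only [sw, if_neg a1, if_neg a2, if_pos a3, if_true]
    norm_num
  by_cases e1 : j = 1
  · subst e1
    have a1 : ¬ m ∣ (1 : ℤ) - 2 := ndvd' (by omega) (by omega)
    have a2 : m ∣ (1 : ℤ) - 2 + 1 := by simp
    have a3 : ¬ m ∣ (1 : ℤ) - 0 := ndvd (by omega) (by omega)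
    have a4 : ¬ m ∣ (1 : ℤ) - 0 + 1 := ndvd (by omega) (by omega)
    simp only [sw, if_neg a1, if_pos a2, if_neg e0, if_true, if_neg a3, if_neg a4]
    norm_num
  by_cases e2 : j = 2
  · subst e2
    have a1 : m ∣ (2 : ℤ) - 2 := by simp
    have a3 : ¬ m ∣ (-1 : ℤ) - 0 := ndvd' (by omega) (by omega)
    have a4 : m ∣ (-1 : ℤ) - 0 + 1 := by simp
    simp only [sw, if_pos a1, if_neg e0, if_neg e1, if_true, if_neg a3, if_pos a4]
    norm_num
  · have a1 : ¬ m ∣ j - 2 := ndvd (by omega) (by omega)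
    have a2 : ¬ m ∣ j - 2 + 1 := ndvd (by omega) (by omega)
    have a3 : ¬ m ∣ j - 1 - 0 := ndvd (by omega) (by omega)
    have a4 : ¬ m ∣ j - 1 - 0 + 1 := ndvd (by omega) (by omega)
    simp only [sw, if_neg a1, if_neg a2, if_neg e0, if_neg e1, if_neg e2, if_neg a3, if_neg a4]
    ring

theorem rr_step {m b : ℤ} {w w2 : ℤ → ℤ} (hm : 4 ≤ m)
    (h : ∀ j, 0 ≤ j → j < m → w2 j = w (ph j)) : rr m w2 0 b = rr m w (-1) b := by
  unfold rr
  refine Finset.sum_nbij' ph ps ?_ ?_ ?_ ?_ ?_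
  · intro j hj
    simp only [Finset.mem_Ico] at hj ⊢
    unfold ph
    split_ifs <;> omega
  · intro j hj
    simp only [Finset.mem_Ico] at hj ⊢
    unfold ps
    split_ifs <;> omega
  · intro j hj
    simp only [Finset.mem_Ico] at hj
    by_cases e0 : j = 0
    · subst e0; simp [ph, ps]
    by_cases e1 : j = 1
    · subst e1; simp [ph, ps]
    by_cases e2 : j = 2
    · subst e2; simp [ph, ps]
    have : ph j = j - 1 := by simp [ph, e0, e1, e2]
    rw [this]
    unfold ps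
    split_ifs <;> omega
  · intro j hj
    simp only [Finset.mem_Ico] at hj
    by_cases e0 : j = 0
    · subst e0; simp [ph, ps]
    by_cases e1 : j = 1
    · subst e1; simp [ph, ps]
    by_cases e2 : j = -1
    · subst e2; simp [ph, ps]
    have : ps j = j + 1 := by simp [ps, e0, e1, e2]
    rw [this]
    unfold ph
    split_ifs <;> omega
  · intro j hj
    simp only [Finset.mem_Ico] at hj
    rw [h j hj.1 (by omega)]

/-- the conclusion of the normal form statement -/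
def NF (n : ℤ) (U : List Lt) : Prop :=
  Rdc n (.u 0 :: U) ∨
    ∃ V U', IsBr V ∧ IsBr U' ∧ cr U' ≤ cr U ∧ NFp n (pw (n + 2) U') ∧
      Eqw n (.u 0 :: U) (V ++ .u 0 :: U')

theorem nf_pull (b1 : SB1) (b2 : SB2) {n : ℤ} {U U1 A : List Lt} (hA : IsBr A)
    (hc : cr U1 ≤ cr U) (h : Eqw n (.u 0 :: U) (A ++ .u 0 :: U1)) (o : NF n U1) : NF n U := by
  rcases o with o | ⟨V, U', hV, hU', hcr, hN, o⟩
  · exact Or.inl (b2.rdc_of h (by simpa using br_rdc b1 b2 [] hA o))
  · refine Or.inr ⟨A ++ V, U', b1.br_app.2 ⟨hA, hV⟩, hU', le_trans hcr hc, hN, b2.trans h ?_⟩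
    simpa [List.append_assoc] using br_eq b1 b2 [] hA o

theorem nf_aux (b1 : SB1) (b2 : SB2) (c1 : SC1) (p : SP) (d1 : SD1) (e0 : SE0) {n : ℤ}
    (hn : 0 ≤ n) (he : n % 2 = 0) :
    ∀ (N : ℕ) (R : ℕ) (U : List Lt), IsBr U → cr U = N →
      rr (n + 2) (pw (n + 2) U) 0 (pw (n + 2) U 0) = R → NF n U := by
  intro N
  induction N using Nat.strong_induction_on with
  | _ N ihN =>
  intro R
  induction R using Nat.strong_induction_on with
  | _ R ihR =>
  intro U hU hN hR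
  have hm : 2 ≤ n + 2 := by omega
  have hme : (n + 2) % 2 = 0 := by omega
  have hw : AP (n + 2) (pw (n + 2) U) := p.pw_ap U hm
  have inj : ∀ a b, a ≠ b → pw (n + 2) U a ≠ pw (n + 2) U b := fun a b hab h => hab (hw.1.1 h)
  by_cases ha : pw (n + 2) U 1 < pw (n + 2) U 0
  · exact Or.inl (e0.r1 hn he hU ha)
  have ha' : pw (n + 2) U 0 < pw (n + 2) U 1 := by
    have := inj 0 1 (by norm_num)
    omega
  by_cases hb : ∃ i, 3 ≤ i ∧ i ≤ n + 1 ∧ pw (n + 2) U i < pw (n + 2) U (i - 1)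
  · obtain ⟨i, hi1, hi2, hi⟩ := hb
    rcases d1.d3 hm hme hU hi with o | ⟨U1, hU1, -, hE⟩
    · exact Or.inl (up_rdc b2 o)
    · have hcr : cr U = cr U1 + 1 := hE.1
      have s1 := up_eq b2 [] hE
      have s2 := c1.c1 (n := n) (i := i - 2) (by omega) (by omega)
      rw [sub_add_cancel] at s2
      have s3 := br_eq b1 b2 (V := []) U1 br_nil (b2.symm s2)
      have s4 : Eqw n (.u 0 :: U) ([Lt.s (i - 2)] ++ .u 0 :: U1) :=
        b2.trans (by simpa using s1) (by simpa using s3)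
      refine nf_pull b1 b2 (br_s _) (by omega) s4 ?_
      have hnn := p.rr_nn (n + 2) (pw (n + 2) U1) 0 (pw (n + 2) U1 0)
      exact ihN (cr U1) (by omega) (rr (n + 2) (pw (n + 2) U1) 0 (pw (n + 2) U1 0)).toNat U1 hU1
        rfl (by omega)
  by_cases hc : 2 ≤ n ∧ pw (n + 2) U 2 < pw (n + 2) U 0
  · exact Or.inl (e0.dcr hc.1 he hU hc.2 (lt_trans hc.2 ha'))
  by_cases hd : 2 ≤ n ∧ pw (n + 2) U 0 < pw (n + 2) U (-1)
  · obtain ⟨h2, hd⟩ := hd
    rcases d1.d3 (i := 0) hm hme hU (by simpa using hd) with o | ⟨U1, hU1, hp, hE⟩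
    · exact Or.inl (up_rdc b2 o)
    · have hcr : cr U = cr U1 + 1 := hE.1
      have s1 := up_eq b2 [] hE
      have s3 := br_eq b1 b2 (V := []) U1 br_nil (c1.c2 h2)
      have s4 : Eqw n (.u 0 :: U) ([Lt.t 1] ++ .u 0 :: (.s 2 :: .t (-1) :: U1)) :=
        b2.trans (by simpa using s1) (by simpa using s3)
      have hcr2 : cr (Lt.s 2 :: Lt.t (-1) :: U1) = cr U1 + 1 := rfl
      refine nf_pull b1 b2 (br_t _) (by omega) s4 ?_
      have key : ∀ j, 0 ≤ j → j < n + 2 →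
          pw (n + 2) (Lt.s 2 :: Lt.t (-1) :: U1) j = pw (n + 2) U (ph j) := by
        intro j h0 h1
        rw [← hp]
        show pw (n + 2) U1 (sw (n + 2) 2 j + (-1)) = pw (n + 2) U1 (sw (n + 2) 0 (ph j))
        rw [sw_ph (by omega) h0 h1]
      have k0 : pw (n + 2) (Lt.s 2 :: Lt.t (-1) :: U1) 0 = pw (n + 2) U 0 := by
        rw [key 0 le_rfl (by omega)]; simp [ph]
      have k1 := rr_step (b := pw (n + 2) U 0) (by omega) key
      have k2 := p.rr_succ (-1) (pw (n + 2) U 0) (by omega) hw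
      rw [if_pos hd.le] at k2
      have k3 : (-1 : ℤ) + 1 = 0 := by norm_num
      rw [k3] at k2
      have hnn := p.rr_nn (n + 2) (pw (n + 2) U) (-1) (pw (n + 2) U 0)
      refine ihR (rr (n + 2) (pw (n + 2) U) (-1) (pw (n + 2) U 0)).toNat (by omega) _
        (br_cons_s _ (br_cons_t _ hU1)) (by omega) ?_
      rw [k0, k1]
      omega
  refine Or.inr ⟨[], U, br_nil, hU, le_rfl, ?_, by simpa using b2.refl n _⟩
  refine nfp_of p hn he hw ha' ?_ ?_ ?_
  · intro i h1 h2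
    have h3 := inj (i - 1) i (by omega)
    by_contra h4
    exact hb ⟨i, h1, h2, by omega⟩
  · intro h2
    have h3 := inj 0 2 (by norm_num)
    by_contra h4
    exact hc ⟨h2, by omega⟩
  · intro h2
    have h3 := inj (-1) 0 (by norm_num)
    by_contra h4
    exact hd ⟨h2, by omega⟩

end E1aux

theorem pE1 (b1 : SB1) (b2 : SB2) (c1 : SC1) (c1b : SC1b) (p : SP) (d1 : SD1) (e0 : SE0) :
    SE1 where
  nf := fun {n U} hn he hU => by
    have hnn := p.rr_nn (n + 2) (pw (n + 2) U) 0 (pw (n + 2) U 0)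
    exact E1aux.nf_aux b1 b2 c1 p d1 e0 hn he (cr U)
      (rr (n + 2) (pw (n + 2) U) 0 (pw (n + 2) U 0)).toNat U hU rfl (by omega)
  out_ctx := fun hV hV' _ h o => E1aux.out_ctx b1 b2 hV hV' h o
  base := fun s hn he => E1aux.base b1 b2 c1 c1b e0 s hn he

end Pool.Agent.P.MP_5af56b_co.Tor
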