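import Pool.Agent.P.MP_5af56b_co.Tor.Stmt

/-! A cup, a braid and a cap simplify to one of four shapes. -/

namespace Pool.Agent.P.MP_5af56b_co.Tor

namespace E2aux

theorem nd {N a : ℤ} (c : ℤ) (h : N ∣ a - c) (h0 : c ≠ 0) (h1 : -N < c) (h2 : c < N) :
    ¬ N ∣ a := by
  intro ha
  have hc : N ∣ c := by simpa using Dvd.dvd.sub ha h
  exact h0 (Int.eq_zero_of_abs_lt_dvd hc (abs_lt.2 ⟨h1, h2⟩))

theorem dv {N a b : ℤ} (h : N ∣ a) (e : b = a) : N ∣ b := e ▸ h

theorem sw_at {N i j : ℤ} (h : N ∣ j - i) : sw N i j = j - 1 := by simp [sw, h]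

theorem sw_bf {N i j : ℤ} (hN : 2 ≤ N) (h : N ∣ j - i + 1) : sw N i j = j + 1 := by
  have : ¬ N ∣ j - i := nd (-1) (dv h (by ring)) (by omega) (by omega) (by omega)
  simp [sw, h, this]

theorem sw_ot {N i j : ℤ} (h : ¬ N ∣ j - i) (h' : ¬ N ∣ j - i + 1) : sw N i j = j := by
  simp [sw, h, h']

theorem br_nil : IsBr [] := fun _ h => by simp at h
theorem br_s (i : ℤ) : IsBr [.s i] := fun g h => ⟨i, Or.inl (by simpa using h)⟩
theorem br_t (i : ℤ) : IsBr [.t i] := fun g h => ⟨i, Or.inr (by simpa using h)⟩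
theorem br_ts (k i : ℤ) : IsBr [.t k, .s i] := by
  intro g h
  simp only [List.mem_cons, List.not_mem_nil, or_false] at h
  rcases h with h | h
  · exact ⟨k, Or.inr h⟩
  · exact ⟨i, Or.inl h⟩

/-- consecutive growth on an interval -/
theorem grow {w : ℤ → ℤ} {a b : ℤ} (h : ∀ q, a ≤ q → q + 1 ≤ b → w q < w (q + 1)) (q : ℤ)
    (hq : a ≤ q) : ∀ r, q ≤ r → r ≤ b → w q + (r - q) ≤ w r := by
  intro r hr
  induction r, hr using Int.leInduction with
  | base => intro _; omega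
  | succ r hr ih =>
    intro hb
    have := ih (by omega)
    have := h r (by omega) hb
    omega

section
variable (b1 : SB1) (b2 : SB2) (c1 : SC1) (p : SP) (d1 : SD1) (e0 : SE0) (e1 : SE1)

include b1 in
theorem dn_u {n : ℤ} {A : List Lt} (hA : IsBr A) : n + dn (.u 0 :: A) = n + 2 := by
  simp [dn, dl, b1.br_dn hA]

include b1 in
theorem dn_ud {A : List Lt} (hA : IsBr A) : dn (.u 0 :: (A ++ [.d 0])) = 0 := by
  simp [dn, dl, b1.dn_app, b1.br_dn hA]

include b1 b2 in
theorem ec {n : ℤ} {D D' : List Lt} (A C : List Lt) (hA : IsBr A) (h : Eqw (n + 2) D D') :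
    Eqw n (.u 0 :: (A ++ D ++ C)) (.u 0 :: (A ++ D' ++ C)) := by
  have := b2.ectx (n := n) (.u 0 :: A) C (by rw [dn_u b1 hA]; exact h)
  simpa using this

include b1 b2 in
theorem rc {n : ℤ} {D : List Lt} (A C : List Lt) (hA : IsBr A) (h : Rdc (n + 2) D) :
    Rdc n (.u 0 :: (A ++ D ++ C)) := by
  have := b2.rctx (n := n) (.u 0 :: A) C (by rw [dn_u b1 hA]; exact h)
  simpa using this

include b2 in
theorem rc0 {n : ℤ} {D : List Lt} (C : List Lt) (h : Rdc n D) : Rdc n (D ++ C) := by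
  have := b2.rctx (n := n) [] C (by simpa [dn] using h)
  simpa using this

include b2 in
theorem ec0 {n : ℤ} {D D' : List Lt} (C : List Lt) (h : Eqw n D D') :
    Eqw n (D ++ C) (D' ++ C) := by
  have := b2.ectx (n := n) [] C (by simpa [dn] using h)
  simpa using this

include b1 b2 in
/-- an equivalence of braids inside the cup and the cap -/
theorem eud {n : ℤ} {U U' : List Lt} (h : Eqw (n + 2) U U') :
    Eqw n (.u 0 :: (U ++ [.d 0])) (.u 0 :: (U' ++ [.d 0])) := by
  simpa using ec b1 b2 [] [.d 0] br_nil h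

include b1 b2 in
theorem rud {n : ℤ} {U : List Lt} (h : Rdc (n + 2) U) : Out n (.u 0 :: (U ++ [.d 0])) :=
  Or.inl (by simpa using rc b1 b2 [] [.d 0] br_nil h)

include b1 e1 in
theorem oud {n : ℤ} {D U V V' : List Lt} (hV : IsBr V) (hV' : IsBr V') (hU : IsBr U)
    (h : Eqw n D (V ++ .u 0 :: (U ++ .d 0 :: V'))) (ho : Out n (.u 0 :: (U ++ [.d 0]))) :
    Out n D :=
  e1.out_ctx hV hV' (dn_ud b1 hU) (by simpa using h) ho

include b1 b2 c1 in
/-- appending a full rotation -/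
theorem full {N : ℤ} {U : List Lt} (hN : 2 ≤ N) (hU : IsBr U) (x : ℤ) :
    Eqw N U (U ++ [.t (N * x)]) := by
  have := b2.ectx (n := N) U [] (by rw [b1.br_dn hU, add_zero]; exact c1.t2 x hN)
  simpa using b2.symm this

include b1 b2 p d1 e1 in
/-- the increasing case -/
theorem caseA {n : ℤ} {U : List Lt} (hn : 0 ≤ n) (he : n % 2 = 0) (hU : IsBr U)
    (hf : NFp n (pw (n + 2) U)) (h12 : pw (n + 2) U 1 < pw (n + 2) U 2) :
    Out n (.u 0 :: (U ++ [.d 0])) := by
  have hN : (2 : ℤ) ≤ n + 2 := by omega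
  have hap := p.pw_ap U hN
  set w := pw (n + 2) U with hw
  have hinc : ∀ i, w (i - 1) < w i := by
    intro i
    by_cases h1 : (n + 2) ∣ i - 1
    · obtain ⟨k, hk⟩ := h1
      have a0 := p.mul hap 0 k
      have a1 := p.mul hap 1 k
      rw [show i - 1 = 0 + (n + 2) * k by omega, show i = 1 + (n + 2) * k by omega, a0, a1]
      have := hf.1
      omega
    · by_cases h2 : (n + 2) ∣ i - 1 - 1
      · obtain ⟨k, hk⟩ := h2
        have a1 := p.mul hap 1 k
        have a2 := p.mul hap 2 k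
        rw [show i - 1 = 1 + (n + 2) * k by omega, show i = 2 + (n + 2) * k by omega, a1, a2]
        omega
      · exact hf.2 _ _ h2 h1 (by omega)
  have hm := p.mono hap hinc
  rcases d1.d4' (V := [.t (w 0)]) hN (by omega) hU (br_t _) (by simp [RedW])
    (by funext j; rw [← hw, hm j]; simp [pw]) with h | h
  · exact rud b1 b2 h
  · exact oud b1 e1 br_nil br_nil (br_t _) (by simpa using eud b1 b2 h)
      (by simpa using e1.base (w 0) hn he)

include b1 b2 c1 p d1 e0 in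
/-- the case of a horizontal curve -/
theorem caseH {n : ℤ} {U : List Lt} (hn : 0 ≤ n) (he : n % 2 = 0) (hU : IsBr U)
    (hf : NFp n (pw (n + 2) U)) (hb : (n + 2) ∣ pw (n + 2) U 1) {y : ℤ}
    (hy : pw (n + 2) U y = pw (n + 2) U 1 + 1) (hy0 : (n + 2) ∣ y) :
    Out n (.u 0 :: (U ++ [.d 0])) := by
  have hN : (2 : ℤ) ≤ n + 2 := by omega
  have hap := p.pw_ap U hN
  set w := pw (n + 2) U with hw
  obtain ⟨x, hx⟩ := hb
  obtain ⟨m, hm⟩ := hy0
  have a0 := p.mul hap 0 m
  rw [zero_add, ← hm, hy] at a0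
  have h01 := hf.1
  have hm1 : 1 ≤ m := by
    by_contra hc
    have : (n + 2) * m ≤ 0 := mul_nonpos_of_nonneg_of_nonpos (by omega) (by omega)
    omega
  obtain ⟨k, hk⟩ : ∃ k : ℕ, (k : ℤ) + 1 = m := ⟨(m - 1).toNat, by omega⟩
  have hw0 : w 0 = 1 + (n + 2) * (x - m) := by rw [mul_sub]; omega
  have hwN : w (n + 2) = w 0 + (n + 2) := by simpa using hap.2 0
  have hno : ∀ q, 2 ≤ q → q ≤ n + 2 → ¬ (n + 2) ∣ q - 1 := fun q h1 h2 =>
    nd (q - 1) (by simp) (by omega) (by omega) (by omega)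
  have hn0 : ¬ (n + 2) ∣ (0 : ℤ) - 1 := nd (-1) (by simp) (by omega) (by omega) (by omega)
  have hg := grow (w := w) (a := 2) (b := n + 2)
    fun q h1 h2 => hf.2 _ _ (hno q h1 (by omega)) (hno _ (by omega) h2) (by omega)
  have hmid : ∀ q, 2 ≤ q → q < n + 2 → w q = q + (n + 2) * (x - m) := by
    intro q h1 h2
    have l1 := hf.2 0 2 hn0 (hno 2 le_rfl hN) (by omega)
    have l2 := hg 2 le_rfl q h1 (by omega)
    have l3 := hg q h1 (n + 1) (by omega) (by omega)
    have l4 := hg (n + 1) (by omega) (n + 2) (by omega) le_rfl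
    have l5 : w (n + 1) ≠ (n + 2) * (x - m) + (n + 2) := by
      intro h5
      refine hno (n + 1) (by omega) (by omega) ((p.dvd hap (n + 1) 1).1 ?_)
      exact ⟨x - m + 1 - x, by rw [h5, hx]; ring⟩
    omega
  have hU2 : IsBr (U ++ [.t ((n + 2) * (m - x))]) := b1.br_app.2 ⟨hU, br_t _⟩
  have hpw : pw (n + 2) (U ++ [.t ((n + 2) * (m - x))]) = pw (n + 2) (Pk n k) := by
    refine p.ext (by omega) (p.pw_ap _ hN) (p.pw_ap _ hN) fun j h0 h1 => ?_
    rw [e0.pk_pw k hn, p.pw_app, ← hw]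
    simp only [pw, rho]
    by_cases j1 : j = 1
    · subst j1
      rw [if_pos (by simp), hx, hk]
      ring
    · by_cases j0 : j = 0
      · subst j0
        rw [if_neg hn0, if_pos (by simp), hw0]
        ring
      · rw [if_neg (hno j (by omega) (by omega)),
          if_neg (nd j (by simp) j0 (by omega) h1), hmid j (by omega) h1]
        ring
  have hE := full b1 b2 c1 hN hU (m - x)
  rcases d1.d4' hN (by omega) hU2 (b1.pk_br n k) (e0.pk_red k hn) hpw with h | h
  · exact rud b1 b2 (b2.rdc_of hE h)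
  · refine Or.inr (Or.inr (Or.inl ⟨[], [], k, br_nil, br_nil, ?_⟩))
    simpa [Hw] using eud b1 b2 (b2.trans hE h)

include b1 b2 c1 p d1 e0 e1 in
/-- the last crossing sits at the gap left of the cap -/
theorem caseZ {n : ℤ} {U U1 : List Lt} (hn : 2 ≤ n) (he : n % 2 = 0) (hU1 : IsBr U1)
    (hf : NFp n (pw (n + 2) U)) {b y z : ℤ} (hb1 : pw (n + 2) U 1 = b) (hb : (n + 2) ∣ b)
    (hy : pw (n + 2) U y = b + 1) (hy0 : ¬ (n + 2) ∣ y) (hz : pw (n + 2) U z = b - 1)
    (hz2 : 2 ≤ z) (h1 : ∀ j, pw (n + 2) U1 j = sw (n + 2) b (pw (n + 2) U j))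
    (ih : ∀ U', IsBr U' → cr U' ≤ cr U1 → Out n (.u 0 :: (U' ++ [.d 0]))) :
    Out n (.u 0 :: ((U1 ++ [.t 1, .s 2]) ++ [.d 0])) := by
  have hN : (2 : ℤ) ≤ n + 2 := by omega
  have hap := p.pw_ap U hN
  set w := pw (n + 2) U with hw
  have hU3 : IsBr (U1 ++ [.t 1, .s 2]) := b1.br_app.2 ⟨hU1, br_ts _ _⟩
  have hap3 := p.pw_ap (U1 ++ [.t 1, .s 2]) hN
  have h3 : ∀ j, pw (n + 2) (U1 ++ [.t 1, .s 2]) j = sw (n + 2) 2 (sw (n + 2) b (w j) + 1) := by
    intro j
    rw [p.pw_app, h1]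
    simp [pw]
  have hz1 : ¬ (n + 2) ∣ z - 1 := fun h =>
    nd (-1) (by rw [hz, hb1]; simp) (by omega) (by omega) (by omega) ((p.dvd hap z 1).2 h)
  have hy1 : ¬ (n + 2) ∣ y - 1 := fun h =>
    nd 1 (by rw [hy, hb1]; simp) (by omega) (by omega) (by omega) ((p.dvd hap y 1).2 h)
  have vz : pw (n + 2) (U1 ++ [.t 1, .s 2]) z = b + 2 := by
    rw [h3, hz, sw_bf (j := b - 1) hN (by simp), sw_bf hN (dv hb (by ring))]
    ring
  have vy : pw (n + 2) (U1 ++ [.t 1, .s 2]) y = b + 1 := by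
    rw [h3, hy, sw_ot (j := b + 1) (nd 1 (by simp) (by omega) (by omega) (by omega))
      (nd 2 (dv (dvd_zero _) (by ring)) (by omega) (by omega) (by omega)), sw_at (dv hb (by ring))]
    ring
  have v1 : pw (n + 2) (U1 ++ [.t 1, .s 2]) 1 = b := by
    rw [h3, hb1, sw_at (j := b) (by simp),
      sw_ot (nd (-2) (dv hb (by ring)) (by omega) (by omega) (by omega))
        (nd (-1) (dv hb (by ring)) (by omega) (by omega) (by omega))]
    ring
  have hzy : z < y := by
    rcases lt_trichotomy z y with h | h | h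
    · exact h
    · rw [h] at hz; omega
    · have := hf.2 _ _ hy1 hz1 h
      omega
  have hbt : ∀ q, z < q → q < y → (n + 2) ∣ q - 1 := by
    intro q l1 l2
    by_contra hq
    have m1 := hf.2 _ _ hz1 hq l1
    have m2 := hf.2 _ _ hq hy1 l2
    have : q = 1 := hap.1.1 (by omega)
    exact hq (by simp [this])
  by_cases hz0 : (n + 2) ∣ z
  · have y1 : y ≠ z + 1 := fun h => hy1 (dv hz0 (by omega))
    have y2 : y = z + 2 := by
      by_contra h
      exact nd 1 (dv hz0 (by ring)) (by omega) (by omega) (by omega)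
        (hbt (z + 2) (by omega) (by omega))
    obtain ⟨m, hm⟩ := hz0
    have a0 := p.mul hap3 0 m
    have a2 := p.mul hap3 2 m
    rw [zero_add, ← hm, vz] at a0
    rw [← hm, add_comm 2 z, ← y2, vy] at a2
    exact Or.inl (rc0 b2 [.d 0] (e0.dcr hn he hU3 (by omega) (by omega)))
  · have y1 : y = z + 1 := by
      by_contra h
      exact hz0 (dv (hbt (z + 1) (by omega) (by omega)) (by ring))
    rcases d1.d3 (i := y) hN (by omega) hU3 (by rw [vy, show y - 1 = z by omega, vz]; omega)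
      with h | ⟨U4, hU4, -, h⟩
    · exact rud b1 b2 h
    · have hc : cr U4 = cr U1 := by
        have := h.1
        rw [b1.cr_app] at this
        simp only [cr] at this
        omega
      have r0 := Int.emod_nonneg y (show n + 2 ≠ 0 by omega)
      have r1 := Int.emod_lt_of_pos y (show 0 < n + 2 by omega)
      have rd : (n + 2) ∣ y - y % (n + 2) := Int.dvd_self_sub_emod
      have q0 : y % (n + 2) ≠ 0 := fun h => hy0 (by simpa [h] using rd)
      have q1 : y % (n + 2) ≠ 1 := fun h => hy1 (by simpa [h] using rd)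
      have q2 : y % (n + 2) ≠ 2 := fun h => hz1 (dv rd (by omega))
      have s1 := ec b1 b2 [] (U4 ++ [.d 0]) br_nil (c1.t4 rd)
      have s2 := ec0 b2 (U4 ++ [.d 0])
        (b2.symm (c1.c1 (n := n) (i := y % (n + 2) - 2) (by omega) (by omega)))
      rw [sub_add_cancel] at s2
      refine oud b1 e1 (br_s (y % (n + 2) - 2)) br_nil hU4 ?_ (ih U4 hU4 hc.le)
      exact b2.trans (eud b1 b2 h) (b2.trans (by simpa using s1) (by simpa using s2))

include b1 b2 c1 p d1 e0 e1 in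
/-- the step for a word in normal form -/
theorem step {n : ℤ} {U : List Lt} (hn : 0 ≤ n) (he : n % 2 = 0) (hU : IsBr U)
    (hf : NFp n (pw (n + 2) U))
    (ih : ∀ U', IsBr U' → cr U' < cr U → Out n (.u 0 :: (U' ++ [.d 0]))) :
    Out n (.u 0 :: (U ++ [.d 0])) := by
  by_cases h12 : pw (n + 2) U 1 < pw (n + 2) U 2
  · exact caseA b1 b2 p d1 e1 hn he hU hf h12
  have hN : (2 : ℤ) ≤ n + 2 := by omega
  have hap := p.pw_ap U hN
  obtain ⟨b, hb1⟩ : ∃ b, pw (n + 2) U 1 = b := ⟨_, rfl⟩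
  obtain ⟨z, hz⟩ := hap.1.2 (b - 1)
  have hne : pw (n + 2) U 2 ≠ pw (n + 2) U 1 := fun h => by
    have := hap.1.1 h
    omega
  have hz1 : ¬ (n + 2) ∣ z - 1 := fun h =>
    nd (-1) (by rw [hz, hb1]; simp) (by omega) (by omega) (by omega) ((p.dvd hap z 1).2 h)
  have h21 : ¬ (n + 2) ∣ (2 : ℤ) - 1 := nd 1 (by simp) (by omega) (by omega) (by omega)
  have h01 : ¬ (n + 2) ∣ (0 : ℤ) - 1 := nd (-1) (by simp) (by omega) (by omega) (by omega)
  have hz2 : 2 ≤ z := by
    by_contra h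
    have := hf.2 _ _ hz1 h21 (by omega)
    omega
  rcases d1.d3' (i := b) (a := 1) (b := z) hN (by omega) hU (by omega) hb1 hz
    with h | ⟨U1, hU1, hp1, hE⟩
  · exact rud b1 b2 h
  have hc : cr U = cr U1 + 1 := by
    have := hE.1
    rw [b1.cr_app] at this
    simpa [cr] using this
  have h1 : ∀ j, pw (n + 2) U1 j = sw (n + 2) b (pw (n + 2) U j) := by
    intro j
    rw [← hp1, p.pw_app]
    simp only [pw]
    rw [p.sw_sw _ _ hN]
  have r0 := Int.emod_nonneg b (show n + 2 ≠ 0 by omega)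
  have r1 := Int.emod_lt_of_pos b (show 0 < n + 2 by omega)
  have rd : (n + 2) ∣ b - b % (n + 2) := Int.dvd_self_sub_emod
  have hE1 : Eqw n (.u 0 :: (U ++ [.d 0])) (.u 0 :: (U1 ++ [.s (b % (n + 2)), .d 0])) :=
    b2.trans (eud b1 b2 hE) (by simpa using ec b1 b2 U1 [.d 0] hU1 (c1.t4 rd))
  by_cases q1 : b % (n + 2) = 1
  · rw [q1] at hE1
    exact Or.inl (b2.rdc_of hE1 (by simpa using rc b1 b2 U1 [] hU1 (e0.r1' hN)))
  by_cases q0 : b % (n + 2) = 0
  · have hb : (n + 2) ∣ b := by simpa [q0] using rd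
    obtain ⟨y, hy⟩ := hap.1.2 (b + 1)
    by_cases hy0 : (n + 2) ∣ y
    · exact caseH b1 b2 c1 p d1 e0 hn he hU hf (hb1 ▸ hb) (by rw [hy, hb1]) hy0
    have hn2 : 2 ≤ n := by
      by_contra h
      have hy1 : ¬ (n + 2) ∣ y - 1 := fun h =>
        nd 1 (by rw [hy, hb1]; simp) (by omega) (by omega) (by omega) ((p.dvd hap y 1).2 h)
      have : n = 0 := by omega
      subst this
      omega
    rw [q0] at hE1
    have s1 := ec b1 b2 U1 [] hU1 (e0.c2' (n := n + 2) (by omega))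
    refine oud b1 e1 br_nil (br_t (-1)) (b1.br_app.2 ⟨hU1, br_ts 1 2⟩) ?_
      (caseZ b1 b2 c1 p d1 e0 e1 hn2 he hU1 hf hb1 hb hy hy0 hz hz2 h1
        fun U' h h' => ih U' h (by omega))
    exact b2.trans hE1 (by simpa using s1)
  by_cases q2 : b % (n + 2) = 2
  · rw [q2] at hE1 rd r1
    have hn2 : 2 ≤ n := by omega
    obtain ⟨z', hz'⟩ := hap.1.2 (b - 2)
    have hz1' : ¬ (n + 2) ∣ z' - 1 := fun h =>
      nd (-2) (by rw [hz', hb1]; simp) (by omega) (by omega) (by omega) ((p.dvd hap z' 1).2 h)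
    by_cases hz2' : 1 < z'
    · obtain ⟨x, hx⟩ := rd
      have hx' : (n + 2) * -x = -(b - 2) := by rw [hx]; ring
      have hR := e0.dcr' (n := n + 2) (p := z') (q := z) (r := 1)
        (U := U ++ [.t ((n + 2) * -x)]) (by omega) (by omega) (b1.br_app.2 ⟨hU, br_t _⟩)
        (by rw [p.pw_app, hz', hx']; simp [pw]) (by rw [p.pw_app, hz, hx']; simp [pw])
        (by rw [p.pw_app, hb1, hx']; simp [pw]) hz2' (by omega)
      refine Or.inl (b2.rdc_of (eud b1 b2 (full b1 b2 c1 hN hU (-x))) ?_)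
      simpa using rc b1 b2 [] [] br_nil hR
    · have w0 : pw (n + 2) U 0 ≠ b - 1 := fun h => by
        have := hap.1.1 (h.trans hz.symm)
        omega
      have w01 := hf.1
      have z0 : z' = 0 := by
        by_contra h
        have : z' ≠ 1 := fun h => hz1' (by simp [h])
        have := hf.2 _ _ hz1' h01 (by omega)
        omega
      rw [z0] at hz'
      have h3 : ∀ j, pw (n + 2) (U1 ++ [.t (-1), .s 0]) j =
          sw (n + 2) 0 (sw (n + 2) b (pw (n + 2) U j) + -1) := by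
        intro j
        rw [p.pw_app, h1]
        simp only [pw]
      have hR := e0.r1 (U := U1 ++ [.t (-1), .s 0]) hn he (b1.br_app.2 ⟨hU1, br_ts _ _⟩) (by
        rw [h3, h3, hb1, hz', sw_at (j := b) (by simp), sw_at (dv rd (by ring)),
          sw_ot (j := b - 2) (nd (-2) (dv (dvd_zero _) (by ring)) (by omega) (by omega) (by omega))
            (nd (-1) (dv (dvd_zero _) (by ring)) (by omega) (by omega) (by omega)),
          sw_bf hN (dv rd (by ring))]
        omega)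
      have s1 := ec b1 b2 U1 [] hU1 (e0.c2'' (n := n + 2) (by omega))
      refine Or.inl (b2.rdc_of (b2.trans hE1 (by simpa using s1)) ?_)
      simpa using rc0 b2 [.d 0, .t 1] hR
  · have s1 := ec b1 b2 U1 [] hU1
      (e0.c1' (n := n + 2) (i := b % (n + 2) - 2) (by omega) (by omega))
    rw [sub_add_cancel] at s1
    refine oud b1 e1 br_nil (br_s (b % (n + 2) - 2)) hU1 ?_ (ih U1 hU1 (by omega))
    exact b2.trans hE1 (by simpa using s1)

end

end E2aux

open E2aux in
theorem pE2 (b1 : SB1) (b2 : SB2) (c1 : SC1) (p : SP) (d1 : SD1) (e0 : SE0) (e1 : SE1) : SE2 := by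
  intro n U hn he
  induction hc : cr U using Nat.strong_induction_on generalizing U with
  | _ N ih =>
    intro hU
    rcases e1.nf hn he hU with h | ⟨V, U', hV, hU', hcr, hf, hE⟩
    · exact Or.inl (rc0 b2 [.d 0] h)
    · refine oud b1 e1 hV br_nil hU' (by simpa using ec0 b2 [.d 0] hE) ?_
      exact E2aux.step b1 b2 c1 p d1 e0 e1 hn he hU' hf fun U'' h h' => ih _ (by omega) rfl h

end Pool.Agent.P.MP_5af56b_co.Tor
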