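import Pool.Agent.P.MP_5af56b_co.Tor.Stmt

namespace Pool.Agent.P.MP_5af56b_co.Tor

namespace E3aux

theorem ndvd {m a : ℤ} (x : ℤ) (h1 : m * x < a) (h2 : a < m * x + m) : ¬ m ∣ a := by
  rintro ⟨y, rfl⟩
  have hm : 0 < m := by linarith
  have h3 : x < y := lt_of_mul_lt_mul_left h1 hm.le
  have h4 : y < x + 1 := lt_of_mul_lt_mul_left (by linarith : m * y < m * (x + 1)) hm.le
  omega

theorem sw_a {m i j : ℤ} (x : ℤ) (h : j = i + m * x) : sw m i j = j - 1 := by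
  have : m ∣ j - i := ⟨x, by linarith⟩
  simp [sw, this]

theorem sw_b {m i j : ℤ} (x : ℤ) (hm : 2 ≤ m) (h : j = i - 1 + m * x) : sw m i j = j + 1 := by
  have h1 : ¬ m ∣ j - i := ndvd (x - 1) (by linarith) (by linarith)
  have h2 : m ∣ j - i + 1 := ⟨x, by linarith⟩
  simp [sw, h1, h2]

theorem sw_c {m i j : ℤ} (x : ℤ) (h1 : i + m * x < j) (h2 : j < i - 1 + m * x + m) :
    sw m i j = j := by
  have h3 : ¬ m ∣ j - i := ndvd x (by linarith) (by linarith)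
  have h4 : ¬ m ∣ j - i + 1 := ndvd x (by linarith) (by linarith)
  simp [sw, h3, h4]

theorem rho_a {n j : ℤ} (k : ℕ) (x : ℤ) (h : j = 1 + (n + 2) * x) :
    rho n k j = j + ((k : ℤ) + 1) * (n + 2) - 1 := by
  have : (n + 2) ∣ j - 1 := ⟨x, by linarith⟩
  simp [rho, this]

theorem rho_b {n j : ℤ} (k : ℕ) (x : ℤ) (hn : 0 ≤ n) (h : j = (n + 2) * x) :
    rho n k j = j + 1 := by
  have h1 : ¬ (n + 2) ∣ j - 1 := ndvd (x - 1) (by linarith) (by linarith)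
  have h2 : (n + 2) ∣ j := ⟨x, h⟩
  simp [rho, h1, h2]

theorem rho_c {n j : ℤ} (k : ℕ) (x : ℤ) (h1 : (n + 2) * x + 1 < j)
    (h2 : j < (n + 2) * x + (n + 2)) : rho n k j = j := by
  have h3 : ¬ (n + 2) ∣ j - 1 := ndvd x (by linarith) (by linarith)
  have h4 : ¬ (n + 2) ∣ j := ndvd x (by linarith) (by linarith)
  simp [rho, h3, h4]

theorem p1_head {n : ℤ} (hn : 1 ≤ n) : ∃ P, P1 n = .s 2 :: P := by
  obtain ⟨a, ha⟩ : ∃ a : ℕ, n.toNat = a + 1 := ⟨n.toNat - 1, by omega⟩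
  unfold P1
  rw [ha, List.range_succ_eq_map]
  simp only [List.map_cons, List.cons_append, Nat.cast_zero, zero_add]
  exact ⟨_, rfl⟩

theorem pk_head {n : ℤ} (hn : 1 ≤ n) (k : ℕ) : ∃ P, Pk n k = .s 2 :: P := by
  obtain ⟨P, hP⟩ := p1_head hn
  cases k with
  | zero => exact ⟨P, hP⟩
  | succ k => exact ⟨P ++ .s 1 :: Pk n k, by simp [Pk, hP]⟩

theorem p1_tail {n : ℤ} (hn : 1 ≤ n) : ∃ P, P1 n = P ++ [.s (n + 1), .t 1] := by
  obtain ⟨a, ha⟩ : ∃ a : ℕ, n.toNat = a + 1 := ⟨n.toNat - 1, by omega⟩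
  refine ⟨(List.range a).map fun j : ℕ => Lt.s ((j : ℤ) + 2), ?_⟩
  unfold P1
  have h2 : (a : ℤ) + 2 = n + 1 := by omega
  rw [ha, List.range_succ]
  simp [h2]

theorem pk_tail {n : ℤ} (hn : 1 ≤ n) (k : ℕ) : ∃ P, Pk n k = P ++ [.s (n + 1), .t 1] := by
  induction k with
  | zero => exact p1_tail hn
  | succ k ih =>
    obtain ⟨P, hP⟩ := ih
    exact ⟨P1 n ++ .s 1 :: P, by simp [Pk, hP]⟩

theorem br_s (i : ℤ) : IsBr [.s i] := by
  intro g hg
  simp only [List.mem_singleton] at hg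
  exact ⟨i, Or.inl hg⟩

theorem br_t (i : ℤ) : IsBr [.t i] := by
  intro g hg
  simp only [List.mem_singleton] at hg
  exact ⟨i, Or.inr hg⟩

theorem br_cons_s {i : ℤ} {A : List Lt} (h : IsBr A) : IsBr (.s i :: A) := by
  intro g hg
  rcases List.mem_cons.1 hg with hg | hg
  · exact ⟨i, Or.inl hg⟩
  · exact h g hg

theorem br_cons_t {i : ℤ} {A : List Lt} (h : IsBr A) : IsBr (.t i :: A) := by
  intro g hg
  rcases List.mem_cons.1 hg with hg | hg
  · exact ⟨i, Or.inr hg⟩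
  · exact h g hg

theorem br_tail {g : Lt} {A : List Lt} (h : IsBr (g :: A)) : IsBr A :=
  fun a ha => h a (List.mem_cons_of_mem _ ha)

theorem hw_dn (b1 : SB1) (n : ℤ) (k : ℕ) : dn (Hw n k) = 0 := by
  simp [Hw, dn, dl, b1.dn_app, b1.br_dn (b1.pk_br n k)]

/-- rewriting inside a word, with the width given by an equation -/
theorem ec (b2 : SB2) {n m : ℤ} {D D' W W' : List Lt} (A C : List Lt) (h : Eqw m D D')
    (hm : m = n + dn A) (hW : W = A ++ D ++ C) (hW' : W' = A ++ D' ++ C) : Eqw n W W' := by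
  subst hm hW hW'
  exact b2.ectx A C h

theorem tt (b2 : SB2) (c1 : SC1) {n : ℤ} (hn : 2 ≤ n) (a b : ℤ) (h : a + b = 0) :
    Eqw n [.t a, .t b] [] := by
  have h1 := c1.t1 n a b
  have h2 := c1.t2 0 hn
  rw [h] at h1
  rw [mul_zero] at h2
  exact b2.trans h1 h2

theorem cm_s1 (b1 : SB1) (b2 : SB2) (c1 : SC1) (p : SP) (d2 : SD2) (e0 : SE0) {n : ℤ} (k : ℕ)
    (hn : 2 ≤ n) (he : n % 2 = 0) : Eqw n ([.s 1] ++ Hw n k) (Hw n k ++ [.s 1]) := by
  have hb := b1.pk_br n k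
  have hd := b1.br_dn hb
  have hpw := e0.pk_pw k (by omega : (0 : ℤ) ≤ n)
  have hk : (0 : ℤ) ≤ k := Int.natCast_nonneg k
  have key : Eqw (n + 2) (Pk n k ++ [.s 3]) (.s 3 :: Pk n k) := by
    refine d2.d6 (by omega) (by omega) (b1.br_app.2 ⟨hb, br_s 3⟩) (br_cons_s hb) ?_ ?_ ?_
    · refine ⟨?_, e0.pk_red k (by omega)⟩
      rw [hpw, rho_c k 0 (by omega) (by omega), rho_c k 0 (by omega) (by omega)]
      omega
    · refine p.ext (n := n + 2) (by omega) (p.pw_ap _ (by omega)) (p.pw_ap _ (by omega)) ?_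
      intro j h0 h1
      rw [p.pw_app]
      simp only [pw, hpw]
      rcases (by omega : j = 0 ∨ j = 1 ∨ j = 2 ∨ j = 3 ∨ 4 ≤ j) with h | h | h | h | h
      · rw [sw_c (j := j) (-1) (by omega) (by omega), rho_b k 0 (by omega) (by omega),
          sw_c (-1) (by omega) (by omega)]
      · rw [sw_c (j := j) (-1) (by omega) (by omega), rho_a k 0 (by omega),
          sw_c (k : ℤ) (by nlinarith) (by nlinarith)]
      · rw [rho_c k 0 (by omega) (by omega), sw_b 0 (by omega) (by omega),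
          rho_c k 0 (by omega) (by omega)]
      · rw [rho_c k 0 (by omega) (by omega), sw_a 0 (by omega),
          rho_c k 0 (by omega) (by omega)]
      · rw [rho_c k 0 (by omega) (by omega), sw_c 0 (by omega) (by omega),
          rho_c k 0 (by omega) (by omega)]
    · simp [b1.cr_app, cr]
  have h1 : Eqw n ([.s 1] ++ Hw n k) (.u 0 :: .s 3 :: (Pk n k ++ [.d 0])) :=
    ec b2 [] (Pk n k ++ [.d 0]) (c1.c1 (n := n) (i := 1) (by omega) (by omega)) (by simp [dn])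
      (by simp [Hw]) (by simp)
  have h2 : Eqw n (.u 0 :: (Pk n k ++ [.s 3, .d 0])) (.u 0 :: .s 3 :: (Pk n k ++ [.d 0])) :=
    ec b2 [.u 0] [.d 0] key (by simp [dn, dl]) (by simp) (by simp)
  have h3 : Eqw n (.u 0 :: (Pk n k ++ [.s 3, .d 0])) (Hw n k ++ [.s 1]) :=
    ec b2 (.u 0 :: Pk n k) [] (e0.c1' (n := n + 2) (i := 1) (by omega) (by omega))
      (by simp [dn, dl, hd]) (by simp) (by simp [Hw])
  exact b2.trans h1 (b2.trans (b2.symm h2) h3)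

theorem cm_t1 (b1 : SB1) (b2 : SB2) (c1 : SC1) (p : SP) (d2 : SD2) (e0 : SE0) {n : ℤ} (k : ℕ)
    (hn : 2 ≤ n) (he : n % 2 = 0) : Eqw n ([.t 1] ++ Hw n k) (Hw n k ++ [.t 1]) := by
  have hb := b1.pk_br n k
  have hpw := e0.pk_pw k (by omega : (0 : ℤ) ≤ n)
  have hred := e0.pk_red k (by omega : (0 : ℤ) ≤ n)
  have hk : (0 : ℤ) ≤ k := Int.natCast_nonneg k
  obtain ⟨P, hP⟩ := pk_head (by omega : 1 ≤ n) k
  obtain ⟨Q, hQ⟩ := pk_tail (by omega : 1 ≤ n) k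
  have hPb : IsBr P := br_tail (hP ▸ hb)
  have hQb : IsBr Q := (b1.br_app.1 (hQ ▸ hb)).1
  have hQd := b1.br_dn hQb
  have hPw : ∀ j, pw (n + 2) P j = rho n k (sw (n + 2) 2 j) := by
    intro j
    rw [← hpw, hP]
    simp only [pw]
    rw [p.sw_sw _ _ (by omega)]
  have hQw : ∀ j, pw (n + 2) Q j = sw (n + 2) (n + 1) (rho n k j - 1) := by
    intro j
    rw [← hpw, hQ, p.pw_app]
    simp only [pw, add_sub_cancel_right]
    rw [p.sw_sw _ _ (by omega)]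
  have hcr : cr Q = cr P := by
    have h1 : cr (Pk n k) = cr P + 1 := by rw [hP]; simp [cr]
    have h2 : cr (Pk n k) = cr Q + 1 := by rw [hQ]; simp [b1.cr_app, cr]
    omega
  have key : Eqw (n + 2) (Q ++ [.t 1, .t 1, .s 2]) (.s 0 :: .t 1 :: P) := by
    refine d2.d6 (by omega) (by omega) (b1.br_app.2 ⟨hQb, br_cons_t (br_cons_t (br_s 2))⟩)
      (br_cons_s (br_cons_t hPb)) ?_ ?_ ?_
    · rw [hP] at hred
      refine ⟨?_, hred.2⟩
      simp only [pw, hPw]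
      rw [sw_c (-1) (by omega) (by omega), rho_b k 0 (by omega) (by omega),
        sw_b 0 (by omega) (by omega), rho_c k 0 (by omega) (by omega)]
      omega
    · refine p.ext (n := n + 2) (by omega) (p.pw_ap _ (by omega)) (p.pw_ap _ (by omega)) ?_
      intro j h0 h1
      rw [p.pw_app]
      simp only [pw, hPw, hQw]
      rcases (by omega : j = 0 ∨ j = 1 ∨ j = n + 1 ∨ (2 ≤ j ∧ j ≤ n)) with h | h | h | h
      · rw [rho_b k 0 (j := j) (by omega) (by omega), sw_c (i := n + 1) (-1) (by omega) (by omega),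
          sw_a (i := 2) 0 (by omega), sw_a (i := 0) 0 (by omega),
          sw_c (i := 2) (-1) (by omega) (by omega), rho_b k 0 (by omega) (by omega)]
        omega
      · rw [rho_a k 0 (j := j) (by omega), sw_a (i := n + 1) (k : ℤ) (by nlinarith),
          sw_c (i := 2) (k : ℤ) (by nlinarith) (by nlinarith),
          sw_c (i := 0) 0 (by omega) (by omega), sw_a (i := 2) 0 (by omega),
          rho_a k 0 (by omega)]
        omega
      · rw [rho_c k 0 (j := j) (by omega) (by omega), sw_b (i := n + 1) 0 (by omega) (by omega),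
          sw_b (i := 2) 1 (by omega) (by omega), sw_b (i := 0) 1 (by omega) (by omega),
          sw_b (i := 2) 1 (by omega) (by omega), rho_c k 1 (by omega) (by omega)]
        omega
      · rw [rho_c k 0 (j := j) (by omega) (by omega),
          sw_c (i := n + 1) (-1) (by omega) (by omega),
          sw_c (i := 2) 0 (by omega) (by omega), sw_c (i := 0) 0 (by omega) (by omega),
          sw_c (i := 2) 0 (by omega) (by omega), rho_c k 0 (by omega) (by omega)]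
        omega
    · simp [b1.cr_app, cr, hcr]
  -- the left side
  have l1 : Eqw n (.t 1 :: .u 0 :: .s 2 :: .t (-1) :: .t 1 :: (P ++ [.d 0])) ([.t 1] ++ Hw n k) :=
    ec b2 [.t 1, .u 0, .s 2] (P ++ [.d 0]) (tt b2 c1 (n := n + 2) (by omega) (-1) 1 (by omega))
      (by simp [dn, dl]) (by simp) (by simp [Hw, hP])
  have l2 : Eqw n (.u 0 :: .s 0 :: .t 1 :: (P ++ [.d 0]))
      (.t 1 :: .u 0 :: .s 2 :: .t (-1) :: .t 1 :: (P ++ [.d 0])) :=
    ec b2 [] (.t 1 :: (P ++ [.d 0])) (c1.c2 hn) (by simp [dn]) (by simp) (by simp)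
  have l3 : Eqw n (.u 0 :: (Q ++ [.t 1, .t 1, .s 2, .d 0]))
      (.u 0 :: .s 0 :: .t 1 :: (P ++ [.d 0])) :=
    ec b2 [.u 0] [.d 0] key (by simp [dn, dl]) (by simp) (by simp)
  -- the right side
  have r1 : Eqw n (.u 0 :: (Q ++ [.t 1, .s (n + 2), .d 0, .t 1])) (Hw n k ++ [.t 1]) :=
    ec b2 (.u 0 :: Q) [.d 0, .t 1] (c1.t3 (n + 2) 1 (n + 2)) (by simp [dn, dl, hQd]) (by simp)
      (by simp [Hw, hQ]; ring)
  have r2 : Eqw n (.u 0 :: (Q ++ [.t 1, .s (n + 2), .d 0, .t 1]))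
      (.u 0 :: (Q ++ [.t 1, .s 0, .d 0, .t 1])) :=
    ec b2 (.u 0 :: (Q ++ [.t 1])) [.d 0, .t 1] (c1.t4 (n := n + 2) (i := n + 2) (j := 0) (by simp))
      (by simp [dn, dl, hQd, b1.dn_app]) (by simp) (by simp)
  have r3 : Eqw n (.u 0 :: (Q ++ [.t 1, .s 0, .d 0, .t 1]))
      (.u 0 :: (Q ++ [.t 1, .t 1, .s 2, .d 0, .t (-1), .t 1])) :=
    ec b2 (.u 0 :: (Q ++ [.t 1])) [.t 1] (e0.c2' (n := n + 2) (by omega))
      (by simp [dn, dl, hQd, b1.dn_app]) (by simp) (by simp)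
  have r4 : Eqw n (.u 0 :: (Q ++ [.t 1, .t 1, .s 2, .d 0, .t (-1), .t 1]))
      (.u 0 :: (Q ++ [.t 1, .t 1, .s 2, .d 0])) :=
    ec b2 (.u 0 :: (Q ++ [.t 1, .t 1, .s 2, .d 0])) [] (tt b2 c1 hn (-1) 1 (by omega))
      (by simp [dn, dl, hQd, b1.dn_app]) (by simp) (by simp)
  exact b2.trans (b2.symm (b2.trans l3 (b2.trans l2 l1)))
    (b2.trans (b2.symm (b2.trans r2 (b2.trans r3 r4))) r1)

/-- `V` commutes with `H` -/
def Cm (n : ℤ) (H V : List Lt) : Prop := Eqw n (V ++ H) (H ++ V)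

theorem cm_nil (b2 : SB2) (n : ℤ) (H : List Lt) : Cm n H [] := by
  simpa [Cm] using b2.refl n H

theorem cm_app (b2 : SB2) {n : ℤ} {H V W : List Lt} (hV : dn V = 0)
    (h1 : Cm n H V) (h2 : Cm n H W) : Cm n H (V ++ W) := by
  have a1 : Eqw n (V ++ W ++ H) (V ++ H ++ W) :=
    ec b2 V [] h2 (by simp [hV]) (by simp) (by simp)
  have a2 : Eqw n (V ++ H ++ W) (H ++ (V ++ W)) :=
    ec b2 [] W h1 (by simp [dn]) (by simp) (by simp)
  exact b2.trans a1 a2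

theorem cm_of (b2 : SB2) {n : ℤ} {H V W : List Lt} (hH : dn H = 0)
    (h1 : Eqw n V W) (h2 : Cm n H V) : Cm n H W := by
  have a1 : Eqw n (V ++ H) (W ++ H) := ec b2 [] H h1 (by simp [dn]) (by simp) (by simp)
  have a2 : Eqw n (H ++ V) (H ++ W) := ec b2 H [] h1 (by simp [hH]) (by simp) (by simp)
  exact b2.trans (b2.symm a1) (b2.trans h2 a2)

theorem cm_neg (b2 : SB2) (c1 : SC1) {n a : ℤ} {H : List Lt} (hn : 2 ≤ n) (hH : dn H = 0)
    (h : Cm n H [.t a]) : Cm n H [.t (-a)] := by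
  have a1 : Eqw n ([.t (-a)] ++ H ++ [.t a, .t (-a)]) ([.t (-a)] ++ H) :=
    ec b2 ([.t (-a)] ++ H) [] (tt b2 c1 hn a (-a) (by omega)) (by simp [dn, dl, hH])
      (by simp) (by simp)
  have a2 : Eqw n (.t (-a) :: .t a :: (H ++ [.t (-a)])) ([.t (-a)] ++ H ++ [.t a, .t (-a)]) :=
    ec b2 [.t (-a)] [.t (-a)] h (by simp [dn, dl]) (by simp) (by simp)
  have a3 : Eqw n (.t (-a) :: .t a :: (H ++ [.t (-a)])) (H ++ [.t (-a)]) :=
    ec b2 [] (H ++ [.t (-a)]) (tt b2 c1 hn (-a) a (by omega)) (by simp [dn]) (by simp) (by simp)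
  exact b2.trans (b2.symm (b2.trans a2 a1)) a3

theorem cm_add (b2 : SB2) (c1 : SC1) {n a b : ℤ} {H : List Lt} (hH : dn H = 0)
    (h1 : Cm n H [.t a]) (h2 : Cm n H [.t b]) : Cm n H [.t (a + b)] :=
  cm_of b2 hH (c1.t1 n a b) (cm_app b2 (V := [.t a]) (by simp [dn, dl]) h1 h2)

theorem cm_t (b2 : SB2) (c1 : SC1) {n : ℤ} {H : List Lt} (hn : 2 ≤ n) (hH : dn H = 0)
    (h : Cm n H [.t 1]) (a : ℤ) : Cm n H [.t a] := by
  have h' := cm_neg b2 c1 hn hH h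
  induction a using Int.induction_on with
  | zero => simpa using cm_add b2 c1 hH h h'
  | succ a ih => exact cm_add b2 c1 hH ih h
  | pred a ih => exact cm_add b2 c1 hH ih h'

theorem cm_s (b2 : SB2) (c1 : SC1) {n : ℤ} {H : List Lt} (hn : 2 ≤ n) (hH : dn H = 0)
    (h : Cm n H [.t 1]) (hs : Cm n H [.s 1]) (i : ℤ) : Cm n H [.s i] := by
  have a1 : Eqw n [.t (1 - i), .s 1, .t (i - 1)] [.s i, .t (1 - i), .t (i - 1)] :=
    ec b2 [] [.t (i - 1)] (c1.t3 n (1 - i) 1) (by simp [dn]) (by simp) (by simp)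
  have a2 : Eqw n [.s i, .t (1 - i), .t (i - 1)] [.s i] :=
    ec b2 [.s i] [] (tt b2 c1 hn (1 - i) (i - 1) (by omega)) (by simp [dn, dl]) (by simp) (by simp)
  refine cm_of b2 hH (b2.trans a1 a2) ?_
  exact cm_app b2 (V := [.t (1 - i)]) (by simp [dn, dl]) (cm_t b2 c1 hn hH h _)
    (cm_app b2 (V := [.s 1]) (by simp [dn, dl]) hs (cm_t b2 c1 hn hH h _))

theorem cm_br (b2 : SB2) (c1 : SC1) {n : ℤ} {H : List Lt} (hn : 2 ≤ n) (hH : dn H = 0)
    (h : Cm n H [.t 1]) (hs : Cm n H [.s 1]) {V : List Lt} (hV : IsBr V) : Cm n H V := by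
  induction V with
  | nil => exact cm_nil b2 n H
  | cons g V ih =>
    have ih' := ih (br_tail hV)
    obtain ⟨i, hi | hi⟩ := hV g List.mem_cons_self
    · subst hi
      exact cm_app b2 (V := [.s i]) (by simp [dn, dl]) (cm_s b2 c1 hn hH h hs i) ih'
    · subst hi
      exact cm_app b2 (V := [.t i]) (by simp [dn, dl]) (cm_t b2 c1 hn hH h i) ih'

theorem cm_zero (b1 : SB1) (b2 : SB2) {H V : List Lt} (hH : dn H = 0) (hV : IsBr V) :
    Cm 0 H V := by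
  cases V with
  | nil => exact cm_nil b2 0 H
  | cons g V =>
    have hv : ¬ Val 0 (g :: V) := by
      obtain ⟨i, hi | hi⟩ := hV g List.mem_cons_self <;> subst hi <;> simp [Val]
    refine ⟨by rw [b1.cr_app, b1.cr_app, add_comm], b2.vac ?_ ?_ ?_⟩
    · rw [b1.dn_app, b1.dn_app, add_comm]
    · rw [b1.val_app]
      exact fun h => hv h.1
    · rw [b1.val_app, hH, add_zero]
      exact fun h => hv h.2

theorem cm_hw (b1 : SB1) (b2 : SB2) (c1 : SC1) (p : SP) (d2 : SD2) (e0 : SE0) {n : ℤ} (k : ℕ)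
    {V : List Lt} (hn : 0 ≤ n) (he : n % 2 = 0) (hV : IsBr V) : Cm n (Hw n k) V := by
  rcases (by omega : n = 0 ∨ 2 ≤ n) with h | h
  · subst h
    exact cm_zero b1 b2 (hw_dn b1 0 k) hV
  · exact cm_br b2 c1 h (hw_dn b1 n k) (cm_t1 b1 b2 c1 p d2 e0 k h he)
      (cm_s1 b1 b2 c1 p d2 e0 k h he) hV

theorem cm_z (b1 : SB1) (b2 : SB2) (c1 : SC1) (p : SP) (d2 : SD2) (e0 : SE0) {n : ℤ}
    (ks : List ℕ) {V : List Lt} (hn : 0 ≤ n) (he : n % 2 = 0) (hV : IsBr V) :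
    Cm n (Z n ks) V := by
  induction ks with
  | nil => simpa [Cm, Z] using b2.refl n V
  | cons k ks ih =>
    have hz : Z n (k :: ks) = Hw n k ++ Z n ks := by simp [Z]
    have a1 : Eqw n (V ++ Z n (k :: ks)) (Hw n k ++ V ++ Z n ks) :=
      ec b2 [] (Z n ks) (cm_hw b1 b2 c1 p d2 e0 k hn he hV) (by simp [dn]) (by simp [hz])
        (by simp)
    have a2 : Eqw n (Hw n k ++ V ++ Z n ks) (Z n (k :: ks) ++ V) :=
      ec b2 (Hw n k) [] ih (by simp [hw_dn b1]) (by simp) (by simp [hz])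
    exact b2.trans a1 a2

theorem hd (b1 : SB1) (b2 : SB2) (c1 : SC1) (c1b : SC1b) (p : SP) (d2 : SD2) (e0 : SE0) {n : ℤ}
    (k : ℕ) (hn : 2 ≤ n) (he : n % 2 = 0) : Rdc n (Hw n k ++ [.d 0]) := by
  have hb := b1.pk_br n k
  have hdn := b1.br_dn hb
  have hpw := e0.pk_pw k (by omega : (0 : ℤ) ≤ n)
  have hk : (0 : ℤ) ≤ k := Int.natCast_nonneg k
  have a1 : Eqw n (.t (-2) :: .t 2 :: (Hw n k ++ [.d 0])) (Hw n k ++ [.d 0]) :=
    ec b2 [] (Hw n k ++ [.d 0]) (tt b2 c1 hn (-2) 2 (by omega)) (by simp [dn]) (by simp) (by simp)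
  have a2 : Eqw n (.t (-2) :: .t 2 :: (Hw n k ++ [.d 0]))
      (.t (-2) :: .u 0 :: (Pk n k ++ [.d 0, .t 2, .d 0])) :=
    ec b2 [.t (-2)] [.d 0] (cm_hw b1 b2 c1 p d2 e0 k (by omega) he (br_t 2))
      (by simp [dn, dl]) (by simp) (by simp [Hw])
  have a3 : Eqw n (.t (-2) :: .u 0 :: (Pk n k ++ [.d 0, .t 2, .d 0]))
      (.t (-2) :: .u 0 :: (Pk n k ++ [.t 2, .d 0, .d 0])) :=
    ec b2 (.t (-2) :: .u 0 :: Pk n k) [] (c1b.c5 (n := n + 2) (by omega))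
      (by simp [dn, dl, hdn]) (by simp) (by simp)
  have a4 : Rdc (n + 2) (Pk n k ++ [.t 2] ++ [.d 0]) := by
    refine e0.dcr' (p := -2) (q := -1) (r := 1 - ((k : ℤ) + 1) * (n + 2)) (by omega) (by omega)
      (b1.br_app.2 ⟨hb, br_t 2⟩) ?_ ?_ ?_ (by nlinarith) (by nlinarith)
    · rw [p.pw_app, hpw, rho_c k (-1) (by omega) (by omega)]
      simp [pw]
    · rw [p.pw_app, hpw, rho_c k (-1) (by omega) (by omega)]
      simp [pw]
    · rw [p.pw_app, hpw, rho_a k (-((k : ℤ) + 1)) (by ring)]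
      simp [pw]
  have a5 : Rdc n ([.t (-2), .u 0] ++ (Pk n k ++ [.t 2] ++ [.d 0]) ++ [.d 0]) :=
    b2.rctx _ _ (by simpa [dn, dl] using a4)
  refine b2.rdc_of (b2.trans (b2.symm a1) (b2.trans a2 a3)) ?_
  simpa using a5

theorem uh (b1 : SB1) (b2 : SB2) (b3 : SB3) (c1 : SC1) (c1b : SC1b) (e0 : SE0) {n : ℤ}
    (k : ℕ) (hn : 0 ≤ n) (he : n % 2 = 0) : Rdc n (.u 0 :: Hw (n + 2) k) := by
  have hb := b1.pk_br (n + 2) k
  have hpw := e0.pk_pw k (by omega : (0 : ℤ) ≤ n + 2)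
  have hk : (0 : ℤ) ≤ k := Int.natCast_nonneg k
  have m5 : Eqw n [.u 0, .t (-2), .u 0] [.u 0, .u 0, .t (-2)] := by
    have h := b3.eqw (c1b.c5 (n := n + 4) (by omega))
    have h2 : n + 4 + dn [Lt.d 0, .t 2, .d 0] = n := by simp [dn, dl]
    rw [h2] at h
    simpa [mir, flp] using h
  have a1 : Eqw n (.u 0 :: .u 0 :: .t (-2) :: .t 2 :: (Pk (n + 2) k ++ [.d 0]))
      (.u 0 :: Hw (n + 2) k) :=
    ec b2 [.u 0, .u 0] (Pk (n + 2) k ++ [.d 0])
      (tt b2 c1 (n := n + 4) (by omega) (-2) 2 (by omega))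
      (by simp [dn, dl]) (by simp) (by simp [Hw])
  have a2 : Eqw n (.u 0 :: .t (-2) :: .u 0 :: .t 2 :: (Pk (n + 2) k ++ [.d 0]))
      (.u 0 :: .u 0 :: .t (-2) :: .t 2 :: (Pk (n + 2) k ++ [.d 0])) :=
    ec b2 [] (.t 2 :: (Pk (n + 2) k ++ [.d 0])) m5 (by simp [dn]) (by simp) (by simp)
  have a4 : Rdc (n + 2) (.u 0 :: .t 2 :: Pk (n + 2) k) := by
    refine e0.dcl (by omega) (by omega) (br_cons_t hb) ?_ ?_
    · simp only [pw, hpw]
      rw [rho_c k 0 (by omega) (by omega), rho_a k 0 (by omega)]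
      nlinarith
    · simp only [pw, hpw]
      rw [rho_c k 0 (by omega) (by omega), rho_a k 0 (by omega)]
      nlinarith
  have a5 : Rdc n ([.u 0, .t (-2)] ++ (.u 0 :: .t 2 :: Pk (n + 2) k) ++ [.d 0]) :=
    b2.rctx _ _ (by simpa [dn, dl] using a4)
  refine b2.rdc_of (b2.symm (b2.trans a2 a1)) ?_
  simpa using a5

end E3aux

theorem pE3 (b1 : SB1) (b2 : SB2) (b3 : SB3) (c1 : SC1) (c1b : SC1b) (p : SP) (d1 : SD1)
    (d2 : SD2) (e0 : SE0) : SE3 where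
  cm := fun k _ hn he hV => E3aux.cm_hw b1 b2 c1 p d2 e0 k hn he hV
  cmz := fun ks _ hn he hV => E3aux.cm_z b1 b2 c1 p d2 e0 ks hn he hV
  hd := fun k hn he => E3aux.hd b1 b2 c1 c1b p d2 e0 k hn he
  uh := fun k hn he => E3aux.uh b1 b2 b3 c1 c1b e0 k hn he

end Pool.Agent.P.MP_5af56b_co.Tor
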