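import Pool.Agent.P.MP_5af56b_co.Tor.Stmt

/-! The global normal form: caps, horizontal curves, cups. -/

namespace Pool.Agent.P.MP_5af56b_co.Tor

namespace E4aux

/-- reducible, or equivalent to caps, horizontal curves, cups -/
def NFm (n : ℤ) (D : List Lt) : Prop :=
  Rdc n D ∨ ∃ A ks C, DownW A ∧ UpW C ∧ 0 ≤ n + dn A ∧ Eqw n D (A ++ Z (n + dn A) ks ++ C)

lemma up_app {A B : List Lt} (hA : UpW A) (hB : UpW B) : UpW (A ++ B) := fun g hg =>
  (List.mem_append.mp hg).elim (hA g) (hB g)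

lemma down_app {A B : List Lt} (hA : DownW A) (hB : DownW B) : DownW (A ++ B) := fun g hg =>
  (List.mem_append.mp hg).elim (hA g) (hB g)

lemma up_br {A : List Lt} (hA : IsBr A) : UpW A := fun g hg => Or.inl (hA g hg)

lemma down_br {A : List Lt} (hA : IsBr A) : DownW A := fun g hg => Or.inl (hA g hg)

lemma up_nil : UpW [] := fun _ hg => absurd hg List.not_mem_nil

lemma down_nil : DownW [] := fun _ hg => absurd hg List.not_mem_nil

lemma br_nil : IsBr [] := fun _ hg => absurd hg List.not_mem_nil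

lemma br_cons {g : Lt} {A : List Lt} (hg : ∃ i, g = .s i ∨ g = .t i) (hA : IsBr A) :
    IsBr (g :: A) := fun x hx =>
  (List.mem_cons.mp hx).elim (fun e => e ▸ hg) (hA x)

lemma br_t (k : ℤ) : IsBr [.t k] := br_cons ⟨k, Or.inr rfl⟩ br_nil

lemma br_s (k : ℤ) : IsBr [.s k] := br_cons ⟨k, Or.inl rfl⟩ br_nil

lemma up_u {A : List Lt} (hA : UpW A) : UpW (.u 0 :: A) := fun x hx =>
  (List.mem_cons.mp hx).elim Or.inr (hA x)

lemma up_dn : ∀ {C : List Lt}, UpW C → 0 ≤ dn C ∧ (dn C = 0 → IsBr C)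
  | [], _ => ⟨le_rfl, fun _ => br_nil⟩
  | g :: C, h => by
    have ih := up_dn (C := C) fun x hx => h x (List.mem_cons_of_mem _ hx)
    rcases h g List.mem_cons_self with hg | rfl
    · have e : dn (g :: C) = dn C := by
        obtain ⟨i, rfl | rfl⟩ := hg <;> simp [dn, dl]
      rw [e]
      exact ⟨ih.1, fun h0 => br_cons hg (ih.2 h0)⟩
    · have e : dn (.u 0 :: C) = 2 + dn C := rfl
      rw [e]
      exact ⟨by omega, fun h0 => by omega⟩

lemma down_dn : ∀ {C : List Lt}, DownW C → dn C ≤ 0 ∧ (dn C = 0 → IsBr C)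
  | [], _ => ⟨le_rfl, fun _ => br_nil⟩
  | g :: C, h => by
    have ih := down_dn (C := C) fun x hx => h x (List.mem_cons_of_mem _ hx)
    rcases h g List.mem_cons_self with hg | rfl
    · have e : dn (g :: C) = dn C := by
        obtain ⟨i, rfl | rfl⟩ := hg <;> simp [dn, dl]
      rw [e]
      exact ⟨ih.1, fun h0 => br_cons hg (ih.2 h0)⟩
    · have e : dn (.d 0 :: C) = -2 + dn C := rfl
      rw [e]
      exact ⟨by omega, fun h0 => by omega⟩

lemma up_split : ∀ {C : List Lt}, UpW C →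
    IsBr C ∨ ∃ C1 U, C = C1 ++ .u 0 :: U ∧ UpW C1 ∧ IsBr U
  | [], _ => Or.inl br_nil
  | g :: C, h => by
    have hg := h g List.mem_cons_self
    rcases up_split (C := C) fun x hx => h x (List.mem_cons_of_mem _ hx) with hC | ⟨C1, U, rfl, h1, hU⟩
    · rcases hg with hg | rfl
      · exact Or.inl (br_cons hg hC)
      · exact Or.inr ⟨[], C, rfl, up_nil, hC⟩
    · exact Or.inr ⟨g :: C1, U, rfl,
        fun x hx => (List.mem_cons.mp hx).elim (fun e => e ▸ hg) (h1 x), hU⟩

lemma nf_eqw (b2 : SB2) {n : ℤ} {D D' : List Lt} (h : Eqw n D D') (h' : NFm n D') : NFm n D := by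
  rcases h' with h' | ⟨A, ks, C, hA, hC, h0, h'⟩
  · exact Or.inl (b2.rdc_of h h')
  · exact Or.inr ⟨A, ks, C, hA, hC, h0, b2.trans h h'⟩

lemma eqw_app (b2 : SB2) {n : ℤ} {D D' : List Lt} (h : Eqw n D D') (C : List Lt) :
    Eqw n (D ++ C) (D' ++ C) := by
  have := b2.ectx (n := n) (D := D) (D' := D') [] C (by simpa [dn] using h)
  simpa using this

lemma rdc_app (b2 : SB2) {n : ℤ} {D : List Lt} (h : Rdc n D) (C : List Lt) : Rdc n (D ++ C) := by
  have := b2.rctx (n := n) (D := D) [] C (by simpa [dn] using h)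
  simpa using this

lemma nf_app (b2 : SB2) {n : ℤ} {D C' : List Lt} (h : NFm n D) (hC' : UpW C') :
    NFm n (D ++ C') := by
  rcases h with h | ⟨A, ks, C, hA, hC, h0, h⟩
  · exact Or.inl (rdc_app b2 h C')
  · refine Or.inr ⟨A, ks, C ++ C', hA, up_app hC hC', h0, ?_⟩
    simpa [List.append_assoc] using eqw_app b2 h C'

lemma z_one (n : ℤ) (k : ℕ) : Z n [k] = Hw n k := by simp [Z]

lemma z_nil (n : ℤ) : Z n [] = [] := by simp [Z]

/-- a cap after a braid -/
lemma cap_br (b1 : SB1) (b2 : SB2) (e3 : SE3) {n : ℤ} (hn : n % 2 = 0) {A C : List Lt}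
    (ks : List ℕ) (hA : DownW A) (hC : IsBr C) (h2 : 2 ≤ n + dn A) :
    NFm n (A ++ Z (n + dn A) ks ++ C ++ [.d 0]) := by
  have hev := b1.dn_even A
  rcases List.eq_nil_or_concat ks with rfl | ⟨ks0, k, rfl⟩
  · refine Or.inr ⟨A ++ C ++ [.d 0], [], [],
      down_app (down_app hA (down_br hC)) fun x hx => Or.inr (List.mem_singleton.mp hx),
      up_nil, ?_, ?_⟩
    · rw [b1.dn_app, b1.dn_app, b1.br_dn hC]
      have : dn [Lt.d 0] = -2 := rfl
      omega
    · simpa [z_nil] using b2.refl n (A ++ (C ++ [.d 0]))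
  · left
    have w1 : n + dn (A ++ Z (n + dn A) ks0) = n + dn A := by rw [b1.dn_app, b1.z_dn, add_zero]
    have w2 : n + dn (A ++ Z (n + dn A) ks0 ++ C) = n + dn A := by
      rw [b1.dn_app, b1.br_dn hC, add_zero, w1]
    have h1 := b2.ectx (n := n) (A ++ Z (n + dn A) ks0) [.d 0]
      (by rw [w1]; exact b2.symm (e3.cm (n := n + dn A) k (by omega) (by omega) hC))
    have h3 := b2.rctx (n := n) (A ++ Z (n + dn A) ks0 ++ C) []
      (by rw [w2]; exact e3.hd (n := n + dn A) k h2 (by omega))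
    rw [List.concat_eq_append, b1.z_app, z_one]
    refine b2.rdc_of (D' := A ++ Z (n + dn A) ks0 ++ (C ++ Hw (n + dn A) k) ++ [.d 0]) ?_ ?_
    · simpa [List.append_assoc] using h1
    · simpa [List.append_assoc] using h3

/-- a horizontal curve after cups -/
lemma hw_up (b1 : SB1) (b2 : SB2) (e3 : SE3) {n : ℤ} (hn : n % 2 = 0) {A C : List Lt}
    (ks : List ℕ) (k : ℕ) (hA : DownW A) (hC : UpW C) (h0 : 0 ≤ n + dn A) :
    NFm n (A ++ Z (n + dn A) ks ++ C ++ Hw (n + dn A + dn C) k) := by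
  have hev := b1.dn_even A
  have w1 : n + dn (A ++ Z (n + dn A) ks) = n + dn A := by rw [b1.dn_app, b1.z_dn, add_zero]
  rcases up_split hC with hB | ⟨C1, U, rfl, h1, hU⟩
  · refine Or.inr ⟨A, ks ++ [k], C, hA, hC, h0, ?_⟩
    have h3 := b2.ectx (n := n) (A ++ Z (n + dn A) ks) []
      (by rw [w1]; exact e3.cm (n := n + dn A) k h0 (by omega) hB)
    rw [b1.br_dn hB, add_zero, b1.z_app, z_one]
    simpa [List.append_assoc] using h3
  · left
    have hev1 := b1.dn_even C1
    have hp := (up_dn h1).1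
    have e1 : n + dn A + dn (C1 ++ .u 0 :: U) = n + dn A + dn C1 + 2 := by
      have : dn (.u 0 :: U) = 2 + dn U := rfl
      rw [b1.dn_app, this, b1.br_dn hU]
      ring
    have w2 : n + dn (A ++ Z (n + dn A) ks ++ C1) = n + dn A + dn C1 := by
      rw [b1.dn_app, ← add_assoc, w1]
    have w3 : n + dn (A ++ Z (n + dn A) ks ++ C1 ++ [.u 0]) = n + dn A + dn C1 + 2 := by
      have : dn [Lt.u 0] = 2 := rfl
      rw [b1.dn_app, ← add_assoc, w2, this]
    have h3 := b2.ectx (n := n) (A ++ Z (n + dn A) ks ++ C1 ++ [.u 0]) []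
      (by rw [w3]; exact e3.cm (n := n + dn A + dn C1 + 2) k (by omega) (by omega) hU)
    have h4 := b2.rctx (n := n) (A ++ Z (n + dn A) ks ++ C1) U
      (by rw [w2]; exact e3.uh (n := n + dn A + dn C1) k (by omega) (by omega))
    rw [e1]
    refine b2.rdc_of (D' := A ++ Z (n + dn A) ks ++ C1 ++
      (.u 0 :: Hw (n + dn A + dn C1 + 2) k) ++ U) ?_ h4
    simpa [List.append_assoc] using h3

/-- a cap after cups -/
lemma cap_up (b1 : SB1) (b2 : SB2) (e2 : SE2) (e3 : SE3) {n : ℤ} (hn : n % 2 = 0) {A : List Lt}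
    (ks : List ℕ) (hA : DownW A) (h0 : 0 ≤ n + dn A) (m : ℕ) :
    ∀ C : List Lt, UpW C → dn C ≤ 2 * m → 2 ≤ n + dn A + dn C →
      NFm n (A ++ Z (n + dn A) ks ++ C ++ [.d 0]) := by
  have hev := b1.dn_even A
  have w1 : n + dn (A ++ Z (n + dn A) ks) = n + dn A := by rw [b1.dn_app, b1.z_dn, add_zero]
  induction m with
  | zero =>
    intro C hC hm h2
    have hd : dn C = 0 := by have := (up_dn hC).1; omega
    exact cap_br b1 b2 e3 hn ks hA ((up_dn hC).2 hd) (by omega)
  | succ m ih =>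
    intro C hC hm h2
    rcases up_split hC with hB | ⟨C1, U, rfl, h1, hU⟩
    · exact cap_br b1 b2 e3 hn ks hA hB (by have := b1.br_dn hB; omega)
    have hev1 := b1.dn_even C1
    have hp := (up_dn h1).1
    have e1 : dn (C1 ++ .u 0 :: U) = dn C1 + 2 := by
      have : dn (.u 0 :: U) = 2 + dn U := rfl
      rw [b1.dn_app, this, b1.br_dn hU]
      ring
    have w2 : n + dn (A ++ Z (n + dn A) ks ++ C1) = n + dn A + dn C1 := by
      rw [b1.dn_app, ← add_assoc, w1]
    have e0 : A ++ Z (n + dn A) ks ++ (C1 ++ .u 0 :: U) ++ [.d 0] =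
        A ++ Z (n + dn A) ks ++ C1 ++ (.u 0 :: (U ++ [.d 0])) ++ [] := by
      simp [List.append_assoc]
    rw [e0]
    rcases e2 (n := n + dn A + dn C1) (by omega) (by omega) hU with
      h | ⟨V, hV, h⟩ | ⟨V, V', k, hV, hV', h⟩ | ⟨h3, V, V', V'', hV, hV', hV'', h⟩
    · exact Or.inl (b2.rctx _ _ (by rw [w2]; exact h))
    · refine nf_eqw b2 (b2.ectx _ _ (by rw [w2]; exact h)) ?_
      refine Or.inr ⟨A, ks, C1 ++ V, hA, up_app h1 (up_br hV), h0, ?_⟩
      simpa [List.append_assoc] using b2.refl n (A ++ Z (n + dn A) ks ++ (C1 ++ V))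
    · refine nf_eqw b2 (b2.ectx _ _ (by rw [w2]; exact h)) ?_
      have h4 := nf_app b2 (hw_up b1 b2 e3 hn ks k hA (up_app h1 (up_br hV)) h0) (up_br hV')
      rw [b1.dn_app, b1.br_dn hV, add_zero] at h4
      simpa [List.append_assoc] using h4
    · refine nf_eqw b2 (b2.ectx _ _ (by rw [w2]; exact h)) ?_
      have e4 : dn (C1 ++ V) = dn C1 := by rw [b1.dn_app, b1.br_dn hV, add_zero]
      have h4 := nf_app b2 (ih (C1 ++ V) (up_app h1 (up_br hV)) (by push_cast at hm; omega)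
        (by omega)) (up_app (up_br hV') (up_u (up_br hV'')))
      simpa [List.append_assoc] using h4

lemma nf_cap (b1 : SB1) (b2 : SB2) (e2 : SE2) (e3 : SE3) {n : ℤ} (hn : n % 2 = 0) {D : List Lt}
    (h : NFm n D) (h2 : 2 ≤ n + dn D) : NFm n (D ++ [.d 0]) := by
  rcases h with h | ⟨A, ks, C, hA, hC, h0, h⟩
  · exact Or.inl (rdc_app b2 h _)
  · have e : dn D = dn A + dn C := by
      rw [h.2.1, b1.dn_app, b1.dn_app, b1.z_dn, add_zero]
    exact nf_eqw b2 (eqw_app b2 h _)
      (cap_up b1 b2 e2 e3 hn ks hA h0 (dn C).toNat C hC (by omega) (by omega))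

lemma nf_all (b1 : SB1) (b2 : SB2) (c1 : SC1) (e0 : SE0) (e2 : SE2) (e3 : SE3) {n : ℤ}
    (h0 : 0 ≤ n) (hn : n % 2 = 0) (W : List Lt) : Val n W → NFm n W := by
  induction W using List.reverseRecOn with
  | nil =>
    intro _
    refine Or.inr ⟨[], [], [], down_nil, up_nil, by simpa [dn] using h0, ?_⟩
    simpa [z_nil] using b2.refl n []
  | append_singleton W g ih =>
    intro hv
    obtain ⟨hW, hg⟩ := (b1.val_app n W [g]).mp hv
    have h := ih hW
    have hev := b1.dn_even W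
    cases g with
    | s i => exact nf_app b2 h (up_br (br_s i))
    | t k => exact nf_app b2 h (up_br (br_t k))
    | u i =>
      obtain ⟨a1, a2, -⟩ := hg
      by_cases h2 : 2 ≤ n + dn W
      · have h3 := b2.ectx W [] (c1.c0 h2 a1 a2)
        rw [List.append_nil, List.append_nil] at h3
        exact nf_eqw b2 h3 (nf_app b2 h (up_app (up_br (br_t (-i))) (up_u (up_br (br_t i)))))
      · obtain rfl : i = 0 := by omega
        exact nf_app b2 h (up_u up_nil)
    | d i =>
      obtain ⟨a1, a2, -⟩ := hg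
      by_cases h4 : 4 ≤ n + dn W
      · have h3 := b2.ectx W [] (e0.c0' h4 a1 a2)
        rw [List.append_nil, List.append_nil] at h3
        refine nf_eqw b2 h3 ?_
        have h5 := nf_cap b1 b2 e2 e3 hn (nf_app b2 h (up_br (br_t (-i))))
          (by rw [b1.dn_app, b1.br_dn (br_t (-i))]; omega)
        simpa [List.append_assoc] using nf_app b2 h5 (up_br (br_t i))
      · obtain rfl : i = 0 := by omega
        exact nf_cap b1 b2 e2 e3 hn h (by omega)

end E4aux

open E4aux in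
theorem pE4 (b1 : SB1) (b2 : SB2) (c1 : SC1) (e0 : SE0) (e2 : SE2) (e3 : SE3) : SE4 := by
  intro N n W hyp hN hB c E hF
  obtain ⟨b, hr⟩ := hF.1
  have hok := b1.okl hr
  have hd : dn W = 0 := by
    have : n = n + dn W := b1.wn hr
    omega
  refine (?_ : Good n W) c E hF
  rcases nf_all b1 b2 c1 e0 e2 e3 (n := n) hok.1 hok.2.1 W (b1.val hr) with h | ⟨A, ks, C, hA, hC, h0, h⟩
  · exact b2.good_rdc h fun W' hW' => hyp.1 n W' (by omega)
  refine b2.good_of h.2 ?_
  have e1 : dn A + dn C = 0 := by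
    have := h.2.1
    rw [b1.dn_app, b1.dn_app, b1.z_dn] at this
    omega
  have e2 : cr A + cr (Z (n + dn A) ks) + cr C ≤ N := by
    have := h.1
    rw [b1.cr_app, b1.cr_app] at this
    omega
  rcases (down_dn hA).1.eq_or_lt with hA0 | hA0
  · have hAb := (down_dn hA).2 hA0
    have hCb := (up_dn hC).2 (by omega)
    rw [hA0, add_zero] at e2 ⊢
    refine b2.good_rot ?_
    rw [b1.dn_app, b1.z_dn, hA0, add_zero, add_zero, ← List.append_assoc]
    refine hB _ ks (b1.br_app.mpr ⟨hCb, hAb⟩) ?_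
    rw [b1.cr_app]
    omega
  · rw [List.append_assoc]
    refine b2.good_rot (hyp.2 _ _ (by omega) ?_)
    rw [b1.cr_app, b1.cr_app]
    omega

end Pool.Agent.P.MP_5af56b_co.Tor
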