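import Pool.Agent.P.MP_5af56b_co.Tor.Ena

namespace Pool.Agent.P.MP_5af56b_co.Tor
namespace Enaux

def sX (L : List (ℕ × ℕ)) : ℕ := (L.map Prod.fst).sum
def sY (L : List (ℕ × ℕ)) : ℕ := (L.map Prod.snd).sum
def G (c : ℕ) (L : List (ℕ × ℕ)) : ℕ := (L.map fun p => ds p.1 (c * p.2)).sum

@[simp] theorem sX_nil : sX [] = 0 := rfl
@[simp] theorem sY_nil : sY [] = 0 := rfl
@[simp] theorem G_nil (c : ℕ) : G c [] = 0 := rfl
@[simp] theorem sX_cons (p : ℕ × ℕ) (L : List (ℕ × ℕ)) : sX (p :: L) = p.1 + sX L := by simp [sX]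
@[simp] theorem sY_cons (p : ℕ × ℕ) (L : List (ℕ × ℕ)) : sY (p :: L) = p.2 + sY L := by simp [sY]
@[simp] theorem G_cons (c : ℕ) (p : ℕ × ℕ) (L : List (ℕ × ℕ)) :
    G c (p :: L) = ds p.1 (c * p.2) + G c L := by simp [G]
@[simp] theorem sX_app (A L : List (ℕ × ℕ)) : sX (A ++ L) = sX A + sX L := by simp [sX]
@[simp] theorem sY_app (A L : List (ℕ × ℕ)) : sY (A ++ L) = sY A + sY L := by simp [sY]
@[simp] theorem G_app (c : ℕ) (A L : List (ℕ × ℕ)) : G c (A ++ L) = G c A + G c L := by simp [G]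
@[simp] theorem sX_rev (L : List (ℕ × ℕ)) : sX L.reverse = sX L := by simp [sX, List.sum_reverse]
@[simp] theorem sY_rev (L : List (ℕ × ℕ)) : sY L.reverse = sY L := by simp [sY, List.sum_reverse]
@[simp] theorem G_rev (c : ℕ) (L : List (ℕ × ℕ)) : G c L.reverse = G c L := by
  simp [G, List.sum_reverse]

theorem ds_sum : ∀ L : List (ℕ × ℕ), ds (sX L) (15 * sY L) ≤ G 15 L
  | [] => by simp [ds_eq]
  | p :: L => by
    have := ds_sum L
    simp only [sX_cons, sY_cons, G_cons, ds_eq] at *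
    omega

theorem G_par : ∀ L : List (ℕ × ℕ), (G 15 L + sX L + sY L) % 2 = 0
  | [] => by simp
  | p :: L => by
    have := G_par L
    simp only [sX_cons, sY_cons, G_cons, ds_eq] at *
    omega

theorem slope_le {p : ℕ × ℕ} : ∀ {L : List (ℕ × ℕ)}, (∀ q ∈ L, p.1 * q.2 < q.1 * p.2) →
    p.1 * sY L + L.length ≤ sX L * p.2
  | [], _ => by simp
  | q :: L, h => by
    have h1 := h q List.mem_cons_self
    have h2 := slope_le (L := L) fun r hr => h r (List.mem_cons_of_mem _ hr)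
    simp only [sX_cons, sY_cons, List.length_cons, Nat.mul_add, Nat.add_mul]
    omega

theorem sY_ge : ∀ {L : List (ℕ × ℕ)}, (∀ q ∈ L, 1 ≤ q.2) → L.length ≤ sY L
  | [], _ => by simp
  | q :: L, h => by
    have h1 := h q List.mem_cons_self
    have h2 := sY_ge (L := L) fun r hr => h r (List.mem_cons_of_mem _ hr)
    simp only [sY_cons, List.length_cons]
    omega

def Hit (m : ℕ) (L : List (ℕ × ℕ)) : Prop :=
  ∃ A C, L = A ++ C ∧ m.testBit (key (sX A) (sY A) (sX C) (sY C)) = true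

theorem go_spec {m n a N S : ℕ} {sp : List (List (ℕ × ℕ) × ℕ × ℕ × ℕ)} :
    ∀ (B : List (ℕ × ℕ)) (f y rA lx ly R F1 Fm : ℕ) (acc : List (ℕ × ℕ)),
    go m n a N S sp f y rA lx ly R F1 Fm acc = true → B ≠ [] → (∀ p ∈ B, 1 ≤ p.2) → 0 < ly →
    (∀ p ∈ B, lx * p.2 < p.1 * ly) → B.Pairwise (fun p q => p.1 * q.2 < q.1 * p.2) →
    sY B = y → sX B = R → G 15 B ≤ rA → sY acc + y = n → sX acc + R = S → G 15 acc + rA = a →
    F1 = G 16 acc → Fm = G 14 acc → G 15 acc + G 15 B ≤ G 16 acc + G 16 B →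
    G 15 acc + G 15 B ≤ G 14 acc + G 14 B → n ≤ G 15 acc + G 15 B + N →
    Hit m (acc.reverse ++ B) ∨ ∃ e ∈ sp, e.1.reverse = acc.reverse ++ B
  | [], _, _, _, _, _, _, _, _, _, _, h, _, _, _, _, _, _, _, _, _, _, _, _, _, _, _ => (h rfl).elim
  | _ :: _, 0, _, _, _, _, _, _, _, _, h, _, _, _, _, _, _, _, _, _, _, _, _, _, _, _, _ => by
    cases h
  | [p], f + 1, y, rA, lx, ly, R, F1, Fm, acc, h, _, _, _, hs, _, hy, hx, _, _, _, ha, h1, hm,
      c1, c2, c3 => by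
    simp only [sX_cons, sY_cons, G_cons, sX_nil, sY_nil, G_nil, Nat.add_zero] at hy hx c1 c2 c3
    subst hy hx h1 hm
    have e : a - rA = G 15 acc := by omega
    obtain ⟨e', he, h2⟩ := lf_spec (go_succ h).1 (hs p List.mem_cons_self) (by omega) (by omega)
      (by omega)
    exact Or.inr ⟨e', he, by rw [h2]; simp⟩
  | p :: q :: B, f + 1, y, rA, lx, ly, R, F1, Fm, acc, h, _, hp, hl, hs, hw, hy, hx, hg, hn, hS,
      ha, h1, hm, c1, c2, c3 => by
    have hp' : ∀ r ∈ q :: B, 1 ≤ r.2 := fun r hr => hp r (List.mem_cons_of_mem _ hr)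
    have hp1 := hp p List.mem_cons_self
    rw [List.pairwise_cons] at hw
    have g1 := sY_ge hp'
    have g2 := slope_le hw.1
    have g3 := ds_sum (q :: B)
    rw [List.length_cons] at g1 g2
    rw [sY_cons] at hy
    rw [sX_cons] at hx
    rw [G_cons] at hg
    rw [G_cons 15 p, G_cons 16 p] at c1
    rw [G_cons 15 p, G_cons 14 p] at c2
    rw [G_cons 15 p] at c3
    have ey : y - p.2 = sY (q :: B) := by omega
    have ex : R - p.1 = sX (q :: B) := by omega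
    have k1 := (go_succ h).2 p.2 hp1 (by omega)
    have k2 := rw1_spec k1 (X := p.1) (by omega) hl (hs p List.mem_cons_self)
      (by rw [← hy, ← hx, Nat.mul_add, Nat.add_mul]; omega) (by omega)
    have k3 := cd_spec k2 (by rw [ey, ex]; omega)
    rw [ey, ex] at k3
    have el : acc.reverse ++ p :: q :: B = (p :: acc).reverse ++ q :: B := by simp
    rw [el]
    rcases k3 with k3 | k3
    · refine Or.inl ⟨_, _, rfl, ?_⟩
      rw [sX_rev, sY_rev, sX_cons p, sY_cons p]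
      convert k3 using 3 <;> omega
    · refine go_spec (q :: B) f _ _ _ _ _ _ _ _ k3 (by simp) hp' hp1 hw.1 hw.2 rfl rfl
        (by omega) ?_ ?_ ?_ ?_ ?_ ?_ ?_ ?_ <;>
      simp only [sX_cons (p.1, p.2), sY_cons (p.1, p.2), G_cons _ (p.1, p.2)] <;> omega

theorem top_spec {m n a N : ℕ} {sp : List (List (ℕ × ℕ) × ℕ × ℕ × ℕ)}
    (h : top m n a N sp = true) (hn : 1 ≤ n) (ha : a ≤ 14) (L : List (ℕ × ℕ))
    (hp : ∀ p ∈ L, 1 ≤ p.2) (hx : ∀ p ∈ L, 1 ≤ p.1)
    (hw : L.Pairwise (fun p q => p.1 * q.2 < q.1 * p.2)) (hy : sY L = n) (hg : G 15 L ≤ a)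
    (hr : (G 15 L + N) % 2 = 0) (c1 : G 15 L ≤ G 16 L) (c2 : G 15 L ≤ G 14 L)
    (c3 : n ≤ G 15 L + N) : Hit m L ∨ ∃ e ∈ sp, e.1.reverse = L := by
  have g1 := ds_sum L
  have g2 := G_par L
  rw [ds_eq] at g1
  have k1 := lp_spec h (sX L) (by omega) (by omega)
  rcases rt_spec k1 (by omega) with k2 | k2
  · exact Or.inl ⟨L, [], by simp, by rw [hy]; exact k2⟩
  · have := go_spec L _ _ _ _ _ _ _ _ _ k2 (by rintro rfl; simp at hy; omega) hp Nat.one_pos
      (fun p hp' => by have := hx p hp'; omega) hw hy rfl hg (by simp) (by simp) (by simp) rfl rfl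
      (by simpa using c1) (by simpa using c2) (by simpa using c3)
    simpa using this

/-! ## back to integers -/

def toZ (L : List (ℕ × ℕ)) : List (ℤ × ℤ) := L.map fun p => ((p.1 : ℤ) - 15 * p.2, (p.2 : ℤ))

theorem toZ_cons (p : ℕ × ℕ) (L : List (ℕ × ℕ)) :
    toZ (p :: L) = ((p.1 : ℤ) - 15 * p.2, (p.2 : ℤ)) :: toZ L := rfl

theorem FM_cons (p : ℤ × ℤ) (M : List (ℤ × ℤ)) (x : ℤ) :
    FM (p :: M) x = |p.1 - x * p.2| + FM M x := by simp [FM]

theorem abs_ds (a b : ℕ) : |(a : ℤ) - b| = (ds a b : ℕ) := by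
  rw [ds_eq]
  rcases abs_cases ((a : ℤ) - b) with h | h <;> omega

theorem FM_toZ (c : ℕ) : ∀ L : List (ℕ × ℕ), FM (toZ L) ((c : ℤ) - 15) = G c L
  | [] => by simp [toZ, FM]
  | p :: L => by
    rw [toZ_cons, FM_cons, FM_toZ c L, G_cons, Nat.cast_add, ← abs_ds]
    congr 2
    push_cast
    ring

theorem sum_toZ : ∀ L : List (ℕ × ℕ), (toZ L).sum = ((sX L : ℤ) - 15 * sY L, (sY L : ℤ))
  | [] => by simp [toZ]; rfl
  | p :: L => by
    rw [toZ_cons, List.sum_cons, sum_toZ L, sX_cons, sY_cons, Prod.mk_add_mk]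
    refine Prod.ext ?_ ?_ <;> simp only <;> omega

theorem snd_toZ : ∀ L : List (ℕ × ℕ), ((toZ L).map Prod.snd).sum = sY L
  | [] => by simp [toZ]
  | p :: L => by
    rw [toZ_cons, List.map_cons, List.sum_cons, snd_toZ L, sY_cons]
    push_cast; ring

theorem FM_nonneg (M : List (ℤ × ℤ)) (x : ℤ) : 0 ≤ FM M x := by
  induction M with
  | nil => simp [FM]
  | cons p M ih => rw [FM_cons]; positivity

theorem ex_toZ : ∀ M : List (ℤ × ℤ), (∀ p ∈ M, 1 ≤ p.2) → FM M 0 ≤ 14 →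
    ∃ L, M = toZ L ∧ ∀ p ∈ L, 1 ≤ p.1 ∧ 1 ≤ p.2
  | [], _, _ => ⟨[], rfl, by simp⟩
  | p :: M, h, h0 => by
    rw [FM_cons] at h0
    have g0 := FM_nonneg M 0
    have g1 := abs_nonneg (p.1 - 0 * p.2)
    have g2 := h p List.mem_cons_self
    have g3 := neg_abs_le (p.1 - 0 * p.2)
    obtain ⟨L, rfl, hL⟩ := ex_toZ M (fun q hq => h q (List.mem_cons_of_mem _ hq)) (by omega)
    refine ⟨((p.1 + 15 * p.2).toNat, p.2.toNat) :: L, ?_, ?_⟩
    · rw [toZ_cons]
      congr 1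
      refine Prod.ext ?_ ?_ <;> simp only <;> omega
    · intro q hq
      rcases List.mem_cons.1 hq with rfl | hq
      · simp only
        omega
      · exact hL q hq

theorem hit_bad {m n N : ℕ} (h2 : H2 n N m) (hn : n ≤ 10) {L : List (ℕ × ℕ)} (hy : sY L = n)
    (hg : G 15 L ≤ 14) (h : Hit m L) : ∃ a b, a ≤ b ∧ EntBad n N (cut3 (toZ L) a b) := by
  obtain ⟨A, C, rfl, hk⟩ := h
  refine ⟨A.length, (A ++ C).length, by simp, ?_⟩
  have e := h2 _ hk
  have g1 := ds_sum A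
  have g2 := ds_sum C
  rw [G_app] at hg
  rw [sY_app] at hy
  rw [ds_eq] at g1 g2
  have e1 : pre (toZ (A ++ C)) A.length = (toZ A).sum := by
    simp [pre, toZ]
  have e2 : pre (toZ (A ++ C)) (A ++ C).length = (toZ (A ++ C)).sum := by
    rw [pre, List.take_of_length_le (by simp [toZ])]
  have e3 : cut3 (toZ (A ++ C)) A.length (A ++ C).length =
      dat2 n (key (sX A) (sY A) (sX C) (sY C)) := by
    rw [cut3, e1, e2, sub_self, sum_toZ, sum_toZ, dat2, key_eq, sX_app, sY_app, Prod.mk_sub_mk]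
    congr 1
    · congr 1 <;> omega
    · congr 1
      congr 1 <;> omega
  rw [e3]
  exact e

def ck (K Q : List (List (ℤ × ℤ))) : List (List (ℕ × ℕ) × ℕ × ℕ × ℕ) → Bool
  | [] => true
  | e :: T => (bif Nat.beq e.2.2.1 99 then decide (Q[e.2.2.2]? = some (toZ e.1.reverse))
      else Nat.ble e.2.1 e.2.2.1 &&
        decide (K[e.2.2.2]? = some (cut3 (toZ e.1.reverse) e.2.1 e.2.2.1))) && ck K Q T

theorem ck_spec {K Q : List (List (ℤ × ℤ))} : ∀ {T : List (List (ℕ × ℕ) × ℕ × ℕ × ℕ)},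
    ck K Q T = true → ∀ e ∈ T,
      (∃ a b, a ≤ b ∧ cut3 (toZ e.1.reverse) a b ∈ K) ∨ toZ e.1.reverse ∈ Q
  | [], _, e, he => by simp at he
  | e' :: T, h, e, he => by
    rw [ck, Bool.and_eq_true] at h
    rcases List.mem_cons.1 he with rfl | he
    · have h1 := h.1
      cases hb : Nat.beq e.2.2.1 99 with
      | true =>
        rw [hb, cond_true, decide_eq_true_eq] at h1
        exact Or.inr (List.mem_of_getElem? h1)
      | false =>
        rw [hb, cond_false, Bool.and_eq_true, decide_eq_true_eq] at h1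
        exact Or.inl ⟨_, _, Nat.le_of_ble_eq_true h1.1, List.mem_of_getElem? h1.2⟩
    · exact ck_spec h.2 e he

theorem cov_top {m n a N : ℕ} {R : ℤ} {K Q : List (List (ℤ × ℤ))}
    {sp : List (List (ℕ × ℕ) × ℕ × ℕ × ℕ)} (ht : top m n a N sp = true) (hc : ck K Q sp = true)
    (hR : R = a + N) (hn : 1 ≤ n) (hn' : n ≤ 10) (ha : a ≤ 14)
    (h2 : H2 n N m) (h3 : H3 n N K) (hr : HR n N Q) : Cov n N R := by
  intro M hM h0 h1 hp hb hb'
  obtain ⟨L, rfl, hL⟩ := ex_toZ M hM.1 (by omega)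
  have f0 : FM (toZ L) 0 = G 15 L := by simpa using FM_toZ 15 L
  have f1 : FM (toZ L) 1 = G 16 L := by simpa using FM_toZ 16 L
  have f2 : FM (toZ L) (-1) = G 14 L := by simpa using FM_toZ 14 L
  have hy : sY L = n := by
    have := hM.2.2
    rw [snd_toZ] at this
    omega
  have hw : L.Pairwise (fun p q => p.1 * q.2 < q.1 * p.2) := by
    have := hM.2.1
    rw [toZ, List.pairwise_map] at this
    refine this.imp fun {p q} hpq => ?_
    simp only at hpq
    have : (p.1 : ℤ) * q.2 < q.1 * p.2 := by linarith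
    exact_mod_cast this
  rcases top_spec ht hn ha L (fun p h => (hL p h).2) (fun p h => (hL p h).1) hw hy (by omega)
    (by omega) (by omega) (by omega) (by omega) with k | ⟨e, he, rfl⟩
  · exact Or.inl (hit_bad h2 hn' hy (by omega) k)
  · rcases ck_spec hc e he with ⟨a, b, hab, k⟩ | k
    · exact Or.inl ⟨a, b, hab, h3 _ k⟩
    · exact Or.inr (hr _ k)

end Enaux
end Pool.Agent.P.MP_5af56b_co.Tor
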