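import Pool.Agent.P.MP_5af56b_co.Tor.Enb
import Pool.Agent.P.MP_5af56b_co.Tor.Enc

namespace Pool.Agent.P.MP_5af56b_co.Tor
namespace Enaux

theorem ck_6x0 : ck k_6x0 q_6x0 s_6x0 = true := by decide +kernel

theorem ck_6x1 : ck k_6x1 q_6x1 s_6x1 = true := by decide +kernel

theorem ck_6x2 : ck k_6x2 q_6x2 s_6x2 = true := by decide +kernel

theorem ck_6x3 : ck k_6x3 q_6x3 s_6x3 = true := by decide +kernel

theorem ck_8x0 : ck k_8x0 q_8x0 s_8x0 = true := by decide +kernel

theorem ck_8x1 : ck k_8x1 q_8x1 s_8x1 = true := by decide +kernel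

theorem ck_8x2 : ck k_8x2 q_8x2 s_8x2 = true := by decide +kernel

theorem ck_8x3 : ck k_8x3 q_8x3 s_8x3 = true := by decide +kernel

theorem ck_10x0 : ck k_10x0 q_10x0 s_10x0 = true := by decide +kernel

theorem ck_10x1 : ck k_10x1 q_10x1 s_10x1 = true := by decide +kernel

theorem ck_10x2 : ck k_10x2 q_10x2 s_10x2 = true := by decide +kernel

theorem ck_10x3 : ck k_10x3 q_10x3 s_10x3 = true := by decide +kernel

end Enaux

open Enaux in
theorem pEn : SEn where
  c6x0 := cov_top (n := 6) top_6x0 ck_6x0 (by norm_num) (by norm_num) (by norm_num) (by norm_num)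
  c6x1 := cov_top (n := 6) top_6x1 ck_6x1 (by norm_num) (by norm_num) (by norm_num) (by norm_num)
  c6x2 := cov_top (n := 6) top_6x2 ck_6x2 (by norm_num) (by norm_num) (by norm_num) (by norm_num)
  c6x3 := cov_top (n := 6) top_6x3 ck_6x3 (by norm_num) (by norm_num) (by norm_num) (by norm_num)
  c8x0 := cov_top (n := 8) top_8x0 ck_8x0 (by norm_num) (by norm_num) (by norm_num) (by norm_num)
  c8x1 := cov_top (n := 8) top_8x1 ck_8x1 (by norm_num) (by norm_num) (by norm_num) (by norm_num)
  c8x2 := cov_top (n := 8) top_8x2 ck_8x2 (by norm_num) (by norm_num) (by norm_num) (by norm_num)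
  c8x3 := cov_top (n := 8) top_8x3 ck_8x3 (by norm_num) (by norm_num) (by norm_num) (by norm_num)
  c10x0 := cov_top (n := 10) top_10x0 ck_10x0 (by norm_num) (by norm_num) (by norm_num) (by norm_num)
  c10x1 := cov_top (n := 10) top_10x1 ck_10x1 (by norm_num) (by norm_num) (by norm_num) (by norm_num)
  c10x2 := cov_top (n := 10) top_10x2 ck_10x2 (by norm_num) (by norm_num) (by norm_num) (by norm_num)
  c10x3 := cov_top (n := 10) top_10x3 ck_10x3 (by norm_num) (by norm_num) (by norm_num) (by norm_num)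

end Pool.Agent.P.MP_5af56b_co.Tor
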