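import Pool.Agent.P.MP_5af56b_co.Tor.Keys

namespace Pool.Agent.P.MP_5af56b_co.Tor
namespace Enaux

noncomputable def fN (x : ℕ) (k : ℕ → Bool) : Bool :=
  Nat.rec (k 0) (fun n _ => k (Nat.succ n)) x

theorem fN_eq (x : ℕ) (k : ℕ → Bool) : fN x k = k x := by cases x <;> rfl

def ds (a b : ℕ) : ℕ := Nat.add (Nat.sub a b) (Nat.sub b a)

theorem ds_eq (a b : ℕ) : ds a b = (a - b) + (b - a) := rfl

noncomputable def lp (f : ℕ → Bool) (lo cnt : ℕ) : Bool :=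
  Nat.rec true (fun i r => Bool.rec false r (f (Nat.add lo i))) cnt

theorem lp_spec {f : ℕ → Bool} {lo : ℕ} : ∀ {cnt : ℕ}, lp f lo cnt = true →
    ∀ x, lo ≤ x → x < lo + cnt → f x = true
  | 0, _, x, h1, h2 => by omega
  | c + 1, h, x, h1, h2 => by
    have h' : (Bool.rec false (lp f lo c) (f (lo + c)) : Bool) = true := h
    cases hf : f (lo + c) with
    | false => rw [hf] at h'; cases h'
    | true =>
      rw [hf] at h'
      rcases Nat.lt_or_ge x (lo + c) with h3 | h3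
      · exact lp_spec h' x h1 h3
      · have : x = lo + c := by omega
        rw [this]; exact hf

def tb (m k : ℕ) : Bool := Nat.beq (Nat.land (Nat.shiftRight m k) 1) 1

theorem tb_spec {m k : ℕ} (h : tb m k = true) : m.testBit k = true := by
  have h1 : (m >>> k) &&& 1 = 1 := Nat.eq_of_beq_eq_true h
  rw [Nat.testBit, Nat.and_comm, h1]
  rfl

def key (P Y R r : ℕ) : ℕ :=
  Nat.add (Nat.add (Nat.sub (Nat.add P 14) (Nat.mul 15 Y)) (Nat.mul 32 Y))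
    (Nat.mul 1024 (Nat.sub (Nat.add R 14) (Nat.mul 15 r)))

theorem key_eq (P Y R r : ℕ) :
    key P Y R r = (P + 14 - 15 * Y) + 32 * Y + 1024 * (R + 14 - 15 * r) := rfl

def eqL : List (ℕ × ℕ) → List (ℕ × ℕ) → Bool
  | [], [] => true
  | p :: A, q :: B => Nat.beq p.1 q.1 && (Nat.beq p.2 q.2 && eqL A B)
  | _, _ => false

theorem eqL_spec : ∀ {A B : List (ℕ × ℕ)}, eqL A B = true → A = B
  | [], [], _ => rfl
  | p :: A, q :: B, h => by
    simp only [eqL, Bool.and_eq_true] at h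
    rw [eqL_spec h.2.2, Prod.ext (Nat.eq_of_beq_eq_true h.1) (Nat.eq_of_beq_eq_true h.2.1)]
  | [], _ :: _, h => by simp [eqL] at h
  | _ :: _, [], h => by simp [eqL] at h

def memL (A : List (ℕ × ℕ)) : List (List (ℕ × ℕ) × ℕ × ℕ × ℕ) → Bool
  | [] => false
  | e :: T => eqL A e.1 || memL A T

theorem memL_spec {A : List (ℕ × ℕ)} : ∀ {T : List (List (ℕ × ℕ) × ℕ × ℕ × ℕ)},
    memL A T = true → ∃ e ∈ T, e.1 = A
  | [], h => by simp [memL] at h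
  | e :: T, h => by
    simp only [memL, Bool.or_eq_true] at h
    rcases h with h | h
    · exact ⟨e, List.mem_cons_self, (eqL_spec h).symm⟩
    · obtain ⟨e', h1, h2⟩ := memL_spec h
      exact ⟨e', List.mem_cons_of_mem _ h1, h2⟩

/-- the test at a complete polygon: the last group is `(R, y)` -/
noncomputable def lf (n a N : ℕ) (sp : List (List (ℕ × ℕ) × ℕ × ℕ × ℕ))
    (y rA lx ly R F1 Fm : ℕ) (acc : List (ℕ × ℕ)) : Bool :=
  Bool.rec true
    (fN (Nat.add (Nat.sub a rA) (ds R (Nat.mul 15 y))) fun F0 =>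
      Bool.rec true
        (Bool.rec true
          (Bool.rec true (memL ((R, y) :: acc) sp) (Nat.ble n (Nat.add F0 N)))
          (Nat.ble F0 (Nat.add Fm (ds R (Nat.mul 14 y)))))
        (Nat.ble F0 (Nat.add F1 (ds R (Nat.mul 16 y)))))
    (Nat.ble (Nat.succ (Nat.mul lx y)) (Nat.mul R ly))

theorem lf_spec {n a N : ℕ} {sp : List (List (ℕ × ℕ) × ℕ × ℕ × ℕ)} {y rA lx ly R F1 Fm : ℕ}
    {acc : List (ℕ × ℕ)} (h : lf n a N sp y rA lx ly R F1 Fm acc = true) (h1 : lx * y < R * ly)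
    (h2 : a - rA + ds R (15 * y) ≤ F1 + ds R (16 * y))
    (h3 : a - rA + ds R (15 * y) ≤ Fm + ds R (14 * y))
    (h4 : n ≤ a - rA + ds R (15 * y) + N) : ∃ e ∈ sp, e.1 = (R, y) :: acc := by
  have e1 : Nat.ble (Nat.succ (Nat.mul lx y)) (Nat.mul R ly) = true := Nat.ble_eq_true_of_le h1
  have e2 : Nat.ble (Nat.add (Nat.sub a rA) (ds R (Nat.mul 15 y)))
      (Nat.add F1 (ds R (Nat.mul 16 y))) = true := Nat.ble_eq_true_of_le h2
  have e3 : Nat.ble (Nat.add (Nat.sub a rA) (ds R (Nat.mul 15 y)))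
      (Nat.add Fm (ds R (Nat.mul 14 y))) = true := Nat.ble_eq_true_of_le h3
  have e4 : Nat.ble n (Nat.add (Nat.add (Nat.sub a rA) (ds R (Nat.mul 15 y))) N) = true :=
    Nat.ble_eq_true_of_le h4
  rw [lf, e1, fN_eq, e2, e3, e4] at h
  exact memL_spec h

/-- one candidate group `(X, Y)` -/
noncomputable def cd (m n S : ℕ)
    (rc : ℕ → ℕ → ℕ → ℕ → ℕ → ℕ → ℕ → List (ℕ × ℕ) → Bool)
    (rA R F1 Fm : ℕ) (acc : List (ℕ × ℕ)) (Y r : ℕ) (X0 : ℕ) : Bool :=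
  fN X0 fun X => fN (ds X (Nat.mul 15 Y)) fun d => fN (Nat.sub R X) fun R2 =>
    Bool.rec true
      (Bool.rec
        (fN (Nat.sub rA d) fun rA2 => fN (Nat.add F1 (ds X (Nat.mul 16 Y))) fun G1 =>
          fN (Nat.add Fm (ds X (Nat.mul 14 Y))) fun Gm => rc r rA2 X Y R2 G1 Gm ((X, Y) :: acc))
        true (tb m (key (Nat.sub S R2) (Nat.sub n r) R2 r)))
      (Nat.ble (Nat.add d (ds R2 (Nat.mul 15 r))) rA)

theorem cd_spec {m n S : ℕ} {rc : ℕ → ℕ → ℕ → ℕ → ℕ → ℕ → ℕ → List (ℕ × ℕ) → Bool}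
    {rA R F1 Fm : ℕ} {acc : List (ℕ × ℕ)} {Y r X : ℕ}
    (h : cd m n S rc rA R F1 Fm acc Y r X = true)
    (h1 : ds X (15 * Y) + ds (R - X) (15 * r) ≤ rA) :
    m.testBit (key (S - (R - X)) (n - r) (R - X) r) = true ∨
      rc r (rA - ds X (15 * Y)) X Y (R - X) (F1 + ds X (16 * Y)) (Fm + ds X (14 * Y))
        ((X, Y) :: acc) = true := by
  have e1 : Nat.ble (Nat.add (ds X (Nat.mul 15 Y)) (ds (Nat.sub R X) (Nat.mul 15 r))) rA = true :=
    Nat.ble_eq_true_of_le h1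
  rw [cd, fN_eq, fN_eq, fN_eq, e1] at h
  cases ht : tb m (key (Nat.sub S (Nat.sub R X)) (Nat.sub n r) (Nat.sub R X) r) with
  | true => exact Or.inl (tb_spec ht)
  | false =>
    rw [ht, fN_eq, fN_eq, fN_eq] at h
    exact Or.inr h

/-- all groups of height `Y` -/
noncomputable def rw1 (m n S : ℕ)
    (rc : ℕ → ℕ → ℕ → ℕ → ℕ → ℕ → ℕ → List (ℕ × ℕ) → Bool)
    (y rA lx ly R F1 Fm : ℕ) (acc : List (ℕ × ℕ)) (Y0 : ℕ) : Bool :=
  fN Y0 fun Y => fN (Nat.succ (Nat.div (Nat.mul lx Y) ly)) fun l1 =>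
    fN (Nat.add l1 (Nat.sub (Nat.sub (Nat.mul 15 Y) rA) l1)) fun lo =>
    fN (Nat.succ (Nat.div (Nat.sub (Nat.mul R Y) 1) y)) fun u1 =>
    fN (Nat.sub y Y) fun r =>
      lp (cd m n S rc rA R F1 Fm acc Y r) lo
        (Nat.sub (Nat.sub u1 (Nat.sub u1 (Nat.succ (Nat.add (Nat.mul 15 Y) rA)))) lo)

theorem rw1_spec {m n S : ℕ} {rc : ℕ → ℕ → ℕ → ℕ → ℕ → ℕ → ℕ → List (ℕ × ℕ) → Bool}
    {y rA lx ly R F1 Fm : ℕ} {acc : List (ℕ × ℕ)} {Y : ℕ}
    (h : rw1 m n S rc y rA lx ly R F1 Fm acc Y = true) {X : ℕ} (hy : 0 < y) (hl : 0 < ly)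
    (h1 : lx * Y < X * ly) (h2 : X * y < R * Y) (h3 : ds X (15 * Y) ≤ rA) :
    cd m n S rc rA R F1 Fm acc Y (y - Y) X = true := by
  rw [rw1, fN_eq, fN_eq, fN_eq, fN_eq, fN_eq] at h
  have a1 : lx * Y / ly < X := (Nat.div_lt_iff_lt_mul hl).2 h1
  have a2 : X ≤ (R * Y - 1) / y := (Nat.le_div_iff_mul_le hy).2 (by omega)
  rw [ds_eq] at h3
  refine lp_spec h X ?_ ?_
  · show lx * Y / ly + 1 + (15 * Y - rA - (lx * Y / ly + 1)) ≤ X
    omega
  · show X < lx * Y / ly + 1 + (15 * Y - rA - (lx * Y / ly + 1)) +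
      ((R * Y - 1) / y + 1 - ((R * Y - 1) / y + 1 - (15 * Y + rA + 1)) -
        (lx * Y / ly + 1 + (15 * Y - rA - (lx * Y / ly + 1))))
    omega

noncomputable def go (m n a N S : ℕ) (sp : List (List (ℕ × ℕ) × ℕ × ℕ × ℕ)) (f : ℕ) :
    ℕ → ℕ → ℕ → ℕ → ℕ → ℕ → ℕ → List (ℕ × ℕ) → Bool :=
  Nat.rec (fun _ _ _ _ _ _ _ _ => false)
    (fun _ rc y rA lx ly R F1 Fm acc =>
      Bool.rec false (lp (rw1 m n S rc y rA lx ly R F1 Fm acc) 1 (Nat.sub y 1))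
        (lf n a N sp y rA lx ly R F1 Fm acc)) f

theorem go_succ {m n a N S : ℕ} {sp : List (List (ℕ × ℕ) × ℕ × ℕ × ℕ)} {f : ℕ}
    {y rA lx ly R F1 Fm : ℕ} {acc : List (ℕ × ℕ)}
    (h : go m n a N S sp (f + 1) y rA lx ly R F1 Fm acc = true) :
    lf n a N sp y rA lx ly R F1 Fm acc = true ∧
      ∀ Y, 1 ≤ Y → Y < y → rw1 m n S (go m n a N S sp f) y rA lx ly R F1 Fm acc Y = true := by
  have h' : (Bool.rec false (lp (rw1 m n S (go m n a N S sp f) y rA lx ly R F1 Fm acc) 1 (y - 1))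
      (lf n a N sp y rA lx ly R F1 Fm acc) : Bool) = true := h
  cases hf : lf n a N sp y rA lx ly R F1 Fm acc with
  | false => rw [hf] at h'; cases h'
  | true =>
    rw [hf] at h'
    exact ⟨rfl, fun Y h1 h2 => lp_spec h' Y h1 (by omega)⟩

noncomputable def rt (m n a N : ℕ) (sp : List (List (ℕ × ℕ) × ℕ × ℕ × ℕ)) (S0 : ℕ) : Bool :=
  fN S0 fun S =>
    Bool.rec true
      (Bool.rec (go m n a N S sp n n a 0 1 S 0 0 []) true (tb m (key S n 0 0)))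
      (Nat.beq (Nat.mod (Nat.add (Nat.add S n) N) 2) 0)

theorem rt_spec {m n a N : ℕ} {sp : List (List (ℕ × ℕ) × ℕ × ℕ × ℕ)} {S : ℕ}
    (h : rt m n a N sp S = true) (hp : (S + n + N) % 2 = 0) :
    m.testBit (key S n 0 0) = true ∨ go m n a N S sp n n a 0 1 S 0 0 [] = true := by
  have e1 : Nat.beq (Nat.mod (Nat.add (Nat.add S n) N) 2) 0 = true := by
    have : Nat.mod (Nat.add (Nat.add S n) N) 2 = 0 := hp
    rw [this]; rfl
  rw [rt, fN_eq, e1] at h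
  cases ht : tb m (key S n 0 0) with
  | true => exact Or.inl (tb_spec ht)
  | false =>
    rw [ht] at h
    exact Or.inr h

noncomputable def top (m n a N : ℕ) (sp : List (List (ℕ × ℕ) × ℕ × ℕ × ℕ)) : Bool :=
  lp (rt m n a N sp) (15 * n - a) (2 * a + 1)

end Enaux
end Pool.Agent.P.MP_5af56b_co.Tor
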