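import Pool.Agent.P.MP_5af56b_co.Tor.Ena

namespace Pool.Agent.P.MP_5af56b_co.Tor
namespace Enaux

def s_6x0 : List (List (ℕ × ℕ) × ℕ × ℕ × ℕ) :=
  [([(73, 5), (11, 1)], 0, 99, 21), ([(59, 4), (14, 1), (11, 1)], 1, 2, 14),
   ([(30, 2), (29, 2), (14, 1), (11, 1)], 1, 2, 14),
   ([(15, 1), (44, 3), (14, 1), (11, 1)], 1, 2, 14), ([(47, 3), (26, 2), (11, 1)], 1, 2, 39),
   ([(17, 1), (30, 2), (26, 2), (11, 1)], 1, 2, 39),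
   ([(16, 1), (31, 2), (26, 2), (11, 1)], 1, 2, 39), ([(46, 3), (27, 2), (11, 1)], 1, 2, 30),
   ([(31, 2), (15, 1), (27, 2), (11, 1)], 1, 2, 30),
   ([(16, 1), (30, 2), (27, 2), (11, 1)], 1, 2, 30), ([(45, 3), (28, 2), (11, 1)], 1, 2, 40),
   ([(44, 3), (29, 2), (11, 1)], 1, 2, 43), ([(30, 2), (43, 3), (11, 1)], 1, 2, 41),
   ([(15, 1), (58, 4), (11, 1)], 1, 2, 42), ([(59, 4), (13, 1), (12, 1)], 1, 2, 7),
   ([(45, 3), (14, 1), (13, 1), (12, 1)], 1, 2, 7),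
   ([(30, 2), (29, 2), (13, 1), (12, 1)], 1, 2, 7),
   ([(15, 1), (44, 3), (13, 1), (12, 1)], 1, 2, 7), ([(47, 3), (25, 2), (12, 1)], 1, 2, 44),
   ([(17, 1), (30, 2), (25, 2), (12, 1)], 1, 2, 44),
   ([(16, 1), (31, 2), (25, 2), (12, 1)], 1, 2, 44), ([(46, 3), (26, 2), (12, 1)], 1, 2, 31),
   ([(31, 2), (15, 1), (26, 2), (12, 1)], 1, 2, 31),
   ([(16, 1), (30, 2), (26, 2), (12, 1)], 1, 2, 31), ([(45, 3), (27, 2), (12, 1)], 1, 2, 45),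
   ([(59, 4), (25, 2)], 0, 99, 30), ([(46, 3), (13, 1), (25, 2)], 0, 99, 38),
   ([(31, 2), (15, 1), (13, 1), (25, 2)], 0, 99, 45),
   ([(16, 1), (30, 2), (13, 1), (25, 2)], 2, 3, 4), ([(45, 3), (14, 1), (25, 2)], 0, 99, 49),
   ([(30, 2), (29, 2), (25, 2)], 0, 99, 28), ([(15, 1), (44, 3), (25, 2)], 0, 99, 29),
   ([(47, 3), (37, 3)], 0, 99, 37), ([(17, 1), (30, 2), (37, 3)], 1, 2, 12),
   ([(16, 1), (31, 2), (37, 3)], 1, 2, 13), ([(46, 3), (38, 3)], 0, 99, 39),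
   ([(31, 2), (15, 1), (38, 3)], 0, 99, 46), ([(16, 1), (30, 2), (38, 3)], 1, 2, 4),
   ([(45, 3), (39, 3)], 0, 99, 50), ([(46, 3), (28, 2), (12, 1)], 1, 2, 17),
   ([(31, 2), (15, 1), (28, 2), (12, 1)], 1, 2, 17),
   ([(16, 1), (30, 2), (28, 2), (12, 1)], 1, 2, 17), ([(31, 2), (43, 3), (12, 1)], 1, 2, 32),
   ([(16, 1), (15, 1), (43, 3), (12, 1)], 1, 2, 32), ([(16, 1), (58, 4), (12, 1)], 1, 2, 47),
   ([(46, 3), (27, 2), (13, 1)], 1, 2, 21), ([(31, 2), (15, 1), (27, 2), (13, 1)], 1, 2, 21),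
   ([(16, 1), (30, 2), (27, 2), (13, 1)], 1, 2, 21), ([(46, 3), (40, 3)], 0, 99, 40),
   ([(31, 2), (15, 1), (40, 3)], 0, 99, 47), ([(16, 1), (30, 2), (40, 3)], 0, 99, 48),
   ([(47, 3), (29, 2), (12, 1)], 1, 2, 48), ([(17, 1), (30, 2), (29, 2), (12, 1)], 1, 2, 48),
   ([(16, 1), (31, 2), (29, 2), (12, 1)], 1, 2, 48), ([(17, 1), (59, 4), (12, 1)], 1, 2, 49),
   ([(17, 1), (44, 3), (14, 1), (13, 1)], 1, 3, 61), ([(47, 3), (28, 2), (13, 1)], 0, 99, 41),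
   ([(17, 1), (30, 2), (28, 2), (13, 1)], 1, 3, 61),
   ([(16, 1), (31, 2), (28, 2), (13, 1)], 2, 3, 6), ([(17, 1), (58, 4), (13, 1)], 1, 2, 61),
   ([(47, 3), (14, 1), (27, 2)], 0, 99, 42), ([(17, 1), (30, 2), (14, 1), (27, 2)], 1, 3, 34),
   ([(16, 1), (31, 2), (14, 1), (27, 2)], 2, 3, 6), ([(17, 1), (44, 3), (27, 2)], 1, 2, 34),
   ([(47, 3), (41, 3)], 0, 99, 43), ([(17, 1), (30, 2), (41, 3)], 1, 2, 5),
   ([(16, 1), (31, 2), (41, 3)], 1, 2, 6), ([(78, 5), (12, 1)], 0, 99, 18),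
   ([(63, 4), (15, 1), (12, 1)], 1, 2, 18), ([(32, 2), (31, 2), (15, 1), (12, 1)], 1, 2, 18),
   ([(17, 1), (46, 3), (15, 1), (12, 1)], 1, 2, 18),
   ([(16, 1), (47, 3), (15, 1), (12, 1)], 1, 2, 18), ([(50, 3), (28, 2), (12, 1)], 1, 2, 46),
   ([(18, 1), (32, 2), (28, 2), (12, 1)], 1, 2, 46),
   ([(17, 1), (33, 2), (28, 2), (12, 1)], 1, 2, 46), ([(49, 3), (29, 2), (12, 1)], 1, 2, 33),
   ([(33, 2), (16, 1), (29, 2), (12, 1)], 1, 2, 33),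
   ([(18, 1), (31, 2), (29, 2), (12, 1)], 1, 2, 33),
   ([(17, 1), (32, 2), (29, 2), (12, 1)], 1, 2, 33), ([(48, 3), (30, 2), (12, 1)], 1, 2, 50),
   ([(17, 1), (31, 2), (30, 2), (12, 1)], 1, 2, 50), ([(47, 3), (31, 2), (12, 1)], 1, 2, 53),
   ([(33, 2), (45, 3), (12, 1)], 1, 2, 51), ([(17, 1), (16, 1), (45, 3), (12, 1)], 1, 2, 51),
   ([(32, 2), (46, 3), (12, 1)], 1, 2, 54), ([(18, 1), (60, 4), (12, 1)], 1, 2, 52),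
   ([(17, 1), (61, 4), (12, 1)], 1, 2, 2), ([(16, 1), (62, 4), (12, 1)], 1, 2, 55),
   ([(63, 4), (14, 1), (13, 1)], 1, 2, 1), ([(48, 3), (15, 1), (14, 1), (13, 1)], 1, 2, 1),
   ([(17, 1), (31, 2), (15, 1), (14, 1), (13, 1)], 1, 2, 1),
   ([(33, 2), (30, 2), (14, 1), (13, 1)], 1, 2, 1),
   ([(17, 1), (16, 1), (30, 2), (14, 1), (13, 1)], 1, 2, 1),
   ([(32, 2), (31, 2), (14, 1), (13, 1)], 1, 2, 1),
   ([(18, 1), (45, 3), (14, 1), (13, 1)], 1, 2, 1),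
   ([(17, 1), (46, 3), (14, 1), (13, 1)], 1, 2, 1),
   ([(16, 1), (47, 3), (14, 1), (13, 1)], 1, 2, 1), ([(50, 3), (27, 2), (13, 1)], 1, 2, 59),
   ([(18, 1), (32, 2), (27, 2), (13, 1)], 1, 2, 59),
   ([(17, 1), (33, 2), (27, 2), (13, 1)], 1, 2, 59), ([(49, 3), (28, 2), (13, 1)], 1, 2, 60),
   ([(33, 2), (16, 1), (28, 2), (13, 1)], 1, 2, 60),
   ([(18, 1), (31, 2), (28, 2), (13, 1)], 1, 2, 60),
   ([(17, 1), (32, 2), (28, 2), (13, 1)], 1, 2, 60), ([(48, 3), (29, 2), (13, 1)], 1, 2, 62),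
   ([(33, 2), (15, 1), (29, 2), (13, 1)], 1, 2, 62),
   ([(17, 1), (16, 1), (15, 1), (29, 2), (13, 1)], 1, 2, 62),
   ([(18, 1), (30, 2), (29, 2), (13, 1)], 1, 2, 62),
   ([(17, 1), (31, 2), (29, 2), (13, 1)], 1, 2, 62), ([(33, 2), (44, 3), (13, 1)], 1, 2, 22),
   ([(18, 1), (15, 1), (44, 3), (13, 1)], 1, 2, 22),
   ([(17, 1), (16, 1), (44, 3), (13, 1)], 1, 2, 22), ([(18, 1), (59, 4), (13, 1)], 1, 2, 3),
   ([(33, 2), (43, 3), (14, 1)], 0, 99, 20), ([(18, 1), (15, 1), (43, 3), (14, 1)], 1, 3, 70),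
   ([(17, 1), (16, 1), (43, 3), (14, 1)], 2, 3, 0), ([(18, 1), (58, 4), (14, 1)], 1, 2, 70),
   ([(63, 4), (27, 2)], 0, 99, 24), ([(49, 3), (14, 1), (27, 2)], 0, 99, 33),
   ([(33, 2), (16, 1), (14, 1), (27, 2)], 0, 99, 32),
   ([(18, 1), (31, 2), (14, 1), (27, 2)], 1, 3, 56),
   ([(17, 1), (32, 2), (14, 1), (27, 2)], 1, 3, 57), ([(48, 3), (15, 1), (27, 2)], 0, 99, 25),
   ([(17, 1), (31, 2), (15, 1), (27, 2)], 1, 3, 57), ([(33, 2), (30, 2), (27, 2)], 0, 99, 26),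
   ([(17, 1), (16, 1), (30, 2), (27, 2)], 1, 3, 57), ([(32, 2), (31, 2), (27, 2)], 0, 99, 22),
   ([(18, 1), (45, 3), (27, 2)], 1, 2, 56), ([(17, 1), (46, 3), (27, 2)], 1, 2, 57),
   ([(16, 1), (47, 3), (27, 2)], 0, 99, 23), ([(33, 2), (29, 2), (28, 2)], 0, 99, 27),
   ([(18, 1), (15, 1), (29, 2), (28, 2)], 1, 3, 65),
   ([(17, 1), (16, 1), (29, 2), (28, 2)], 2, 3, 0), ([(18, 1), (44, 3), (28, 2)], 1, 2, 65),
   ([(50, 3), (40, 3)], 0, 99, 31), ([(18, 1), (32, 2), (40, 3)], 1, 2, 28),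
   ([(17, 1), (33, 2), (40, 3)], 1, 2, 29), ([(49, 3), (41, 3)], 0, 99, 35),
   ([(33, 2), (16, 1), (41, 3)], 0, 99, 34), ([(18, 1), (31, 2), (41, 3)], 1, 2, 15),
   ([(17, 1), (32, 2), (41, 3)], 1, 2, 16), ([(48, 3), (42, 3)], 0, 99, 36),
   ([(33, 2), (15, 1), (42, 3)], 0, 99, 44), ([(17, 1), (16, 1), (15, 1), (42, 3)], 1, 3, 19),
   ([(18, 1), (30, 2), (42, 3)], 1, 2, 58), ([(17, 1), (31, 2), (42, 3)], 1, 2, 19),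
   ([(18, 1), (29, 2), (43, 3)], 1, 2, 66), ([(33, 2), (57, 4)], 0, 99, 16),
   ([(18, 1), (15, 1), (57, 4)], 1, 2, 20), ([(17, 1), (16, 1), (57, 4)], 1, 2, 0),
   ([(18, 1), (72, 5)], 0, 99, 17), ([(49, 3), (30, 2), (13, 1)], 1, 2, 8),
   ([(33, 2), (16, 1), (30, 2), (13, 1)], 1, 2, 8),
   ([(18, 1), (31, 2), (30, 2), (13, 1)], 1, 2, 8),
   ([(17, 1), (32, 2), (30, 2), (13, 1)], 1, 2, 8), ([(33, 2), (46, 3), (13, 1)], 1, 2, 35),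
   ([(17, 1), (16, 1), (46, 3), (13, 1)], 1, 2, 35), ([(18, 1), (61, 4), (13, 1)], 1, 2, 63),
   ([(17, 1), (62, 4), (13, 1)], 1, 2, 64), ([(49, 3), (29, 2), (14, 1)], 1, 2, 9),
   ([(33, 2), (16, 1), (29, 2), (14, 1)], 1, 2, 9),
   ([(18, 1), (31, 2), (29, 2), (14, 1)], 1, 2, 9),
   ([(17, 1), (32, 2), (29, 2), (14, 1)], 1, 2, 9), ([(49, 3), (43, 3)], 0, 99, 6),
   ([(33, 2), (16, 1), (43, 3)], 0, 99, 4), ([(18, 1), (31, 2), (43, 3)], 1, 2, 67),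
   ([(17, 1), (32, 2), (43, 3)], 0, 99, 5), ([(18, 1), (47, 3), (15, 1), (14, 1)], 1, 3, 25),
   ([(50, 3), (30, 2), (14, 1)], 0, 99, 19), ([(18, 1), (32, 2), (30, 2), (14, 1)], 1, 3, 25),
   ([(17, 1), (33, 2), (30, 2), (14, 1)], 2, 3, 26), ([(18, 1), (62, 4), (14, 1)], 1, 2, 25),
   ([(50, 3), (15, 1), (29, 2)], 0, 99, 8), ([(18, 1), (32, 2), (15, 1), (29, 2)], 1, 3, 36),
   ([(17, 1), (33, 2), (15, 1), (29, 2)], 2, 3, 26), ([(18, 1), (47, 3), (29, 2)], 1, 2, 36),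
   ([(50, 3), (44, 3)], 0, 99, 9), ([(18, 1), (32, 2), (44, 3)], 1, 2, 71),
   ([(17, 1), (33, 2), (44, 3)], 1, 2, 26), ([(53, 3), (30, 2), (13, 1)], 1, 2, 23),
   ([(19, 1), (34, 2), (30, 2), (13, 1)], 1, 2, 23),
   ([(18, 1), (35, 2), (30, 2), (13, 1)], 1, 2, 23), ([(53, 3), (29, 2), (14, 1)], 1, 2, 24),
   ([(19, 1), (34, 2), (29, 2), (14, 1)], 1, 2, 24),
   ([(18, 1), (35, 2), (29, 2), (14, 1)], 1, 2, 24), ([(52, 3), (30, 2), (14, 1)], 1, 2, 10),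
   ([(35, 2), (17, 1), (30, 2), (14, 1)], 1, 2, 10),
   ([(19, 1), (33, 2), (30, 2), (14, 1)], 1, 2, 10),
   ([(18, 1), (34, 2), (30, 2), (14, 1)], 1, 2, 10), ([(35, 2), (46, 3), (15, 1)], 0, 99, 2),
   ([(19, 1), (16, 1), (46, 3), (15, 1)], 1, 3, 72),
   ([(18, 1), (17, 1), (46, 3), (15, 1)], 2, 3, 11), ([(19, 1), (62, 4), (15, 1)], 1, 2, 72),
   ([(52, 3), (15, 1), (29, 2)], 0, 99, 11), ([(35, 2), (17, 1), (15, 1), (29, 2)], 0, 99, 10),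
   ([(19, 1), (33, 2), (15, 1), (29, 2)], 2, 3, 37),
   ([(18, 1), (34, 2), (15, 1), (29, 2)], 2, 3, 38), ([(35, 2), (31, 2), (30, 2)], 0, 99, 3),
   ([(19, 1), (16, 1), (31, 2), (30, 2)], 1, 3, 73),
   ([(18, 1), (17, 1), (31, 2), (30, 2)], 2, 3, 11), ([(19, 1), (47, 3), (30, 2)], 1, 2, 73),
   ([(53, 3), (43, 3)], 0, 99, 7), ([(19, 1), (34, 2), (43, 3)], 1, 2, 68),
   ([(18, 1), (35, 2), (43, 3)], 1, 2, 69), ([(52, 3), (44, 3)], 0, 99, 13),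
   ([(35, 2), (17, 1), (44, 3)], 0, 99, 12), ([(19, 1), (33, 2), (44, 3)], 1, 2, 37),
   ([(18, 1), (34, 2), (44, 3)], 1, 2, 38), ([(51, 3), (45, 3)], 0, 99, 15),
   ([(35, 2), (16, 1), (45, 3)], 0, 99, 14), ([(18, 1), (17, 1), (16, 1), (45, 3)], 1, 3, 75),
   ([(19, 1), (32, 2), (45, 3)], 1, 2, 74), ([(18, 1), (33, 2), (45, 3)], 1, 2, 75),
   ([(19, 1), (31, 2), (46, 3)], 1, 2, 76), ([(35, 2), (61, 4)], 0, 99, 0),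
   ([(19, 1), (16, 1), (61, 4)], 1, 2, 27), ([(18, 1), (17, 1), (61, 4)], 1, 2, 11),
   ([(19, 1), (77, 5)], 0, 99, 1)]

def s_6x1 : List (List (ℕ × ℕ) × ℕ × ℕ × ℕ) :=
  [([(73, 5), (12, 1)], 0, 99, 5), ([(45, 3), (28, 2), (12, 1)], 1, 2, 2),
   ([(44, 3), (29, 2), (12, 1)], 1, 2, 5), ([(30, 2), (43, 3), (12, 1)], 1, 2, 3),
   ([(15, 1), (58, 4), (12, 1)], 1, 2, 4), ([(45, 3), (27, 2), (13, 1)], 1, 2, 8),
   ([(45, 3), (40, 3)], 0, 99, 7), ([(16, 1), (58, 4), (13, 1)], 1, 2, 9),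
   ([(47, 3), (29, 2), (13, 1)], 1, 2, 0), ([(17, 1), (30, 2), (29, 2), (13, 1)], 1, 2, 0),
   ([(16, 1), (31, 2), (29, 2), (13, 1)], 1, 2, 0), ([(17, 1), (59, 4), (13, 1)], 1, 2, 10),
   ([(17, 1), (58, 4), (14, 1)], 1, 2, 18), ([(17, 1), (44, 3), (28, 2)], 1, 2, 16),
   ([(47, 3), (42, 3)], 0, 99, 6), ([(17, 1), (30, 2), (42, 3)], 1, 2, 6),
   ([(16, 1), (31, 2), (42, 3)], 1, 2, 7), ([(17, 1), (29, 2), (43, 3)], 1, 2, 17),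
   ([(17, 1), (72, 5)], 0, 99, 3), ([(78, 5), (13, 1)], 0, 99, 4),
   ([(48, 3), (30, 2), (13, 1)], 1, 2, 11), ([(17, 1), (31, 2), (30, 2), (13, 1)], 1, 2, 11),
   ([(47, 3), (31, 2), (13, 1)], 1, 2, 12), ([(32, 2), (46, 3), (13, 1)], 1, 2, 13),
   ([(17, 1), (61, 4), (13, 1)], 1, 2, 14), ([(16, 1), (62, 4), (13, 1)], 1, 2, 15),
   ([(48, 3), (29, 2), (14, 1)], 1, 2, 19), ([(17, 1), (31, 2), (29, 2), (14, 1)], 1, 2, 19),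
   ([(48, 3), (43, 3)], 0, 99, 1), ([(17, 1), (31, 2), (43, 3)], 1, 2, 1),
   ([(17, 1), (62, 4), (14, 1)], 1, 2, 20), ([(18, 1), (62, 4), (15, 1)], 1, 2, 21),
   ([(18, 1), (47, 3), (30, 2)], 1, 2, 22), ([(50, 3), (45, 3)], 0, 99, 2),
   ([(18, 1), (32, 2), (45, 3)], 1, 2, 23), ([(17, 1), (33, 2), (45, 3)], 1, 2, 24),
   ([(18, 1), (31, 2), (46, 3)], 1, 2, 25), ([(18, 1), (77, 5)], 0, 99, 0)]

def s_6x2 : List (List (ℕ × ℕ) × ℕ × ℕ × ℕ) :=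
  [([(73, 5), (13, 1)], 0, 99, 4), ([(15, 1), (58, 4), (13, 1)], 1, 2, 1),
   ([(16, 1), (58, 4), (14, 1)], 1, 2, 2), ([(16, 1), (72, 5)], 0, 99, 2),
   ([(47, 3), (29, 2), (14, 1)], 1, 2, 3), ([(16, 1), (31, 2), (29, 2), (14, 1)], 1, 2, 3),
   ([(47, 3), (43, 3)], 0, 99, 1), ([(16, 1), (31, 2), (43, 3)], 1, 2, 0),
   ([(78, 5), (14, 1)], 0, 99, 3), ([(16, 1), (62, 4), (14, 1)], 1, 2, 4),
   ([(17, 1), (62, 4), (15, 1)], 1, 2, 5), ([(17, 1), (77, 5)], 0, 99, 0)]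

def s_6x3 : List (List (ℕ × ℕ) × ℕ × ℕ × ℕ) :=
  [([(87, 6)], 0, 99, 4), ([(73, 5), (14, 1)], 0, 99, 5), ([(15, 1), (58, 4), (14, 1)], 1, 2, 0),
   ([(15, 1), (72, 5)], 0, 99, 3), ([(93, 6)], 0, 99, 1), ([(78, 5), (15, 1)], 0, 99, 2),
   ([(16, 1), (62, 4), (15, 1)], 1, 2, 1), ([(16, 1), (77, 5)], 0, 99, 0)]

def s_8x0 : List (List (ℕ × ℕ) × ℕ × ℕ × ℕ) :=
  [([(17, 1), (87, 6), (12, 1)], 1, 2, 0), ([(18, 1), (93, 6), (13, 1)], 1, 2, 1)]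

def s_8x1 : List (List (ℕ × ℕ) × ℕ × ℕ × ℕ) :=
  []

def s_8x2 : List (List (ℕ × ℕ) × ℕ × ℕ × ℕ) :=
  []

def s_8x3 : List (List (ℕ × ℕ) × ℕ × ℕ × ℕ) :=
  []

def s_10x0 : List (List (ℕ × ℕ) × ℕ × ℕ × ℕ) :=
  []

def s_10x1 : List (List (ℕ × ℕ) × ℕ × ℕ × ℕ) :=
  []

def s_10x2 : List (List (ℕ × ℕ) × ℕ × ℕ × ℕ) :=
  []

def s_10x3 : List (List (ℕ × ℕ) × ℕ × ℕ × ℕ) :=
  []


theorem top_6x0 : top m_6x0 6 14 0 s_6x0 = true := by decide +kernel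

theorem top_6x1 : top m_6x1 6 13 1 s_6x1 = true := by decide +kernel

theorem top_6x2 : top m_6x2 6 12 2 s_6x2 = true := by decide +kernel

theorem top_6x3 : top m_6x3 6 11 3 s_6x3 = true := by decide +kernel

theorem top_8x0 : top m_8x0 8 10 0 s_8x0 = true := by decide +kernel

theorem top_8x1 : top m_8x1 8 9 1 s_8x1 = true := by decide +kernel

theorem top_8x2 : top m_8x2 8 8 2 s_8x2 = true := by decide +kernel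

theorem top_8x3 : top m_8x3 8 7 3 s_8x3 = true := by decide +kernel

theorem top_10x0 : top m_10x0 10 12 0 s_10x0 = true := by decide +kernel

theorem top_10x1 : top m_10x1 10 11 1 s_10x1 = true := by decide +kernel

theorem top_10x2 : top m_10x2 10 10 2 s_10x2 = true := by decide +kernel

theorem top_10x3 : top m_10x3 10 9 3 s_10x3 = true := by decide +kernel

end Enaux
end Pool.Agent.P.MP_5af56b_co.Tor
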