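import Pool.Agent.P.MP_5af56b_co.Tor.Chk

namespace Pool.Agent.P.MP_5af56b_co.Tor

open Finset

namespace Entaux

theorem allLt_iff (f : ℕ → Bool) : ∀ k, allLt f k = true ↔ ∀ i, i < k → f i = true
  | 0 => by simp [allLt]
  | k + 1 => by
    rw [allLt, Bool.and_eq_true, allLt_iff f k]
    constructor
    · rintro ⟨h1, h2⟩ i hi
      rcases Nat.lt_succ_iff_lt_or_eq.mp hi with h | rfl
      exacts [h2 i h, h1]
    · exact fun h => ⟨h k (Nat.lt_succ_self k), fun i hi => h i (Nat.lt_succ_of_lt hi)⟩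

theorem win {n : ℕ} (hn : 0 < n) (j : ℤ) : ∃ (r : ℕ) (q : ℤ), r < n ∧ j = r + n * q := by
  have h0 : (0 : ℤ) < n := by exact_mod_cast hn
  have h1 := Int.emod_nonneg j h0.ne'
  have h2 := Int.emod_lt_of_pos j h0
  refine ⟨(j % n).toNat, j / n, by omega, ?_⟩
  rw [Int.toNat_of_nonneg h1, Int.emod_add_mul_ediv]

theorem mod_win {n r : ℕ} (hr : r < n) (q : ℤ) : (((r : ℤ) + n * q) % n).toNat = r := by
  rw [Int.add_mul_emod_self_left, Int.emod_eq_of_lt (by omega) (by omega)]
  simp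

theorem div_win {n r : ℕ} (hr : r < n) (q : ℤ) : ((r : ℤ) + n * q) / n = q := by
  rw [Int.add_mul_ediv_left _ _ (by omega), Int.ediv_eq_zero_of_lt (by omega) (by omega), zero_add]

theorem ex_win {n r : ℕ} (hr : r < n) (D : ℤ) (l : List ℤ) (q : ℤ) :
    ex n D l (r + n * q) = l.getD r 0 + D * q := by
  rw [ex, mod_win hr, div_win hr]

theorem ex_nat {n r : ℕ} (hr : r < n) (D : ℤ) (l : List ℤ) : ex n D l r = l.getD r 0 := by
  simpa using ex_win hr D l 0

theorem exg_win {n r : ℕ} (hr : r < n) (l : List ℕ) (q : ℤ) :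
    exg n l (r + n * q) = l.getD r 0 := by
  rw [exg, mod_win hr]

theorem rkx_win {n r : ℕ} (hr : r < n) (γ : List ℕ) (g : ℕ) (q : ℤ) :
    rkx n γ g (r + n * q) = cnt γ g r + cnt γ g n * q := by
  rw [rkx, mod_win hr, div_win hr]

theorem ex_add {n : ℕ} (hn : 0 < n) (D : ℤ) (l : List ℤ) (j q : ℤ) :
    ex n D l (j + n * q) = ex n D l j + D * q := by
  obtain ⟨r, q', hr, rfl⟩ := win hn j
  rw [add_assoc, ← mul_add, ex_win hr, ex_win hr]; ring

theorem exg_add {n : ℕ} (hn : 0 < n) (l : List ℕ) (j q : ℤ) :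
    exg n l (j + n * q) = exg n l j := by
  obtain ⟨r, q', hr, rfl⟩ := win hn j
  rw [add_assoc, ← mul_add, exg_win hr, exg_win hr]

theorem rkx_add {n : ℕ} (hn : 0 < n) (γ : List ℕ) (g : ℕ) (j q : ℤ) :
    rkx n γ g (j + n * q) = rkx n γ g j + cnt γ g n * q := by
  obtain ⟨r, q', hr, rfl⟩ := win hn j
  rw [add_assoc, ← mul_add, rkx_win hr, rkx_win hr]; ring

theorem sw_add (n i j q : ℤ) : sw n i (j + n * q) = sw n i j + n * q := by
  have h1 : n ∣ j + n * q - i ↔ n ∣ j - i := by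
    rw [show j + n * q - i = j - i + n * q by ring]
    exact dvd_add_left (dvd_mul_right n q)
  have h2 : n ∣ j + n * q - i + 1 ↔ n ∣ j - i + 1 := by
    rw [show j + n * q - i + 1 = j - i + 1 + n * q by ring]
    exact dvd_add_left (dvd_mul_right n q)
  simp only [sw, h1, h2]
  split_ifs <;> ring

theorem dvd_small {n a : ℤ} (h : n ∣ a) (h1 : -n < a) (h2 : a < n) : a = 0 :=
  Int.eq_zero_of_abs_lt_dvd h (abs_lt.mpr ⟨h1, h2⟩)

theorem getD_set (w : List ℤ) (i r : ℕ) (a : ℤ) (hi : i < w.length) :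
    (w.set i a).getD r 0 = if r = i then a else w.getD r 0 := by
  simp only [List.getD_eq_getElem?_getD, List.getElem?_set]
  split_ifs with h1 h2 h2
  · rfl
  · exact absurd h1.symm h2
  · exact absurd h2.symm h1
  · rfl

theorem swp_length (n i : ℕ) (w : List ℤ) : (swp n i w).length = w.length := by
  unfold swp
  cases Nat.beq i 0 <;> simp

theorem ex_swp {n i : ℕ} (hn : 2 ≤ n) (hi : i < n) {w : List ℤ} (hw : w.length = n) (j : ℤ) :
    ex n n (swp n i w) j = ex n n w (sw n i j) := by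
  obtain ⟨r, q, hr, rfl⟩ := win (by omega : 0 < n) j
  rw [sw_add, ex_add (by omega) _ w, ex_win hr]
  congr 1
  rcases Nat.eq_zero_or_pos i with rfl | hi0
  · have e : swp n 0 w = (w.set 0 (w.getD (n - 1) 0 - n)).set (n - 1) (w.getD 0 0 + n) := rfl
    rw [e, getD_set _ _ _ _ (by simp; omega), getD_set _ _ _ _ (by omega), sw]
    by_cases h1 : r = 0
    · subst h1
      rw [if_neg (by omega), if_pos rfl, if_pos (by simp)]
      have := ex_win (n := n) (r := n - 1) (by omega) n w (-1)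
      rw [show ((n - 1 : ℕ) : ℤ) + n * (-1) = ((0 : ℕ) : ℤ) - 1 by omega] at this
      rw [this]; ring
    · rw [if_neg h1, if_neg (c := (n : ℤ) ∣ _) fun h => by
        have := dvd_small h (by omega) (by omega); omega]
      by_cases h2 : r = n - 1
      · rw [if_pos h2, if_pos (by rw [show (r : ℤ) - (0 : ℕ) + 1 = n by omega])]
        have := ex_win (n := n) (r := 0) (by omega) n w 1
        rw [show ((0 : ℕ) : ℤ) + n * 1 = (r : ℤ) + 1 by omega] at this
        rw [this]; ring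
      · rw [if_neg h2, if_neg (c := (n : ℤ) ∣ _) fun h => by
          have := dvd_small h (by omega) (by omega); omega, ex_nat hr]
  · have e : swp n i w = (w.set i (w.getD (i - 1) 0)).set (i - 1) (w.getD i 0) := by
      obtain ⟨k, rfl⟩ : ∃ k, i = k + 1 := ⟨i - 1, by omega⟩
      rfl
    rw [e, getD_set _ _ _ _ (by simp; omega), getD_set _ _ _ _ (by omega), sw]
    by_cases h1 : r = i
    · subst h1
      rw [if_neg (by omega), if_pos rfl, if_pos (by simp),
        show (r : ℤ) - 1 = ((r - 1 : ℕ) : ℤ) by omega, ex_nat (by omega)]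
    · rw [if_neg h1, if_neg (c := (n : ℤ) ∣ _) fun h => by
        have := dvd_small h (by omega) (by omega); omega]
      by_cases h2 : r = i - 1
      · rw [if_pos h2, if_pos (by rw [show (r : ℤ) - i + 1 = 0 by omega]; simp),
          show (r : ℤ) + 1 = i by omega, ex_nat hi]
      · rw [if_neg h2, if_neg (c := (n : ℤ) ∣ _) fun h => by
          have := dvd_small h (by omega) (by omega); omega, ex_nat hr]

theorem redB_ok {n : ℕ} (hn : 2 ≤ n) (s : ℤ) : ∀ l : List ℕ, (redB n s l).2 = true →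
    (redB n s l).1.length = n ∧ pw n (mkU l s) = ex n n (redB n s l).1 ∧ RedW n (mkU l s)
  | [], _ => by
    refine ⟨by simp [redB], funext fun j => ?_, by simp [mkU, RedW]⟩
    obtain ⟨r, q, hr, rfl⟩ := win (by omega : 0 < n) j
    rw [ex_win hr]
    simp [mkU, pw, redB, List.getD_eq_getElem?_getD, hr]
    ring
  | i :: l, h => by
    have e1 : (redB n s (i :: l)).1 = swp n i (redB n s l).1 := rfl
    have e2 : (redB n s (i :: l)).2 = ((redB n s l).2 && Nat.blt i n &&
      decide (ex n n (redB n s l).1 ((i : ℤ) - 1) < (redB n s l).1.getD i 0)) := rfl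
    have e3 : mkU (i :: l) s = .s i :: mkU l s := rfl
    rw [e2, Bool.and_eq_true, Bool.and_eq_true, Nat.blt_eq, decide_eq_true_eq] at h
    obtain ⟨h1, h2, h3⟩ := redB_ok hn s l h.1.1
    rw [e1, e3]
    refine ⟨by rw [swp_length, h1], funext fun j => ?_, ?_, h3⟩
    · rw [pw, h2, ex_swp hn h.1.2 h1]
    · rw [h2, ex_nat h.1.2]; exact h.2

theorem mkU_br (l : List ℕ) (s : ℤ) : IsBr (mkU l s) := by
  intro g hg
  rcases List.mem_append.mp hg with h | h
  · obtain ⟨i, -, rfl⟩ := List.mem_map.mp h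
    exact ⟨i, Or.inl rfl⟩
  · exact ⟨s, Or.inr (List.mem_singleton.mp h)⟩

theorem cnt_succ {γ : List ℕ} {i : ℕ} (hi : i < γ.length) (g : ℕ) :
    cnt γ g (i + 1) = cnt γ g i + if γ.getD i 0 = g then 1 else 0 := by
  rw [cnt, cnt, List.take_succ_eq_append_getElem hi, List.count_append, List.count_singleton,
    List.getD_eq_getElem _ _ hi]
  simp

theorem cnt_mono (γ : List ℕ) (g : ℕ) {i j : ℕ} (h : i ≤ j) : cnt γ g i ≤ cnt γ g j :=
  (List.take_sublist_take_left h).count_le g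

theorem cnt_lt {n i : ℕ} {γ : List ℕ} (hγ : γ.length = n) (hi : i < n) :
    cnt γ (γ.getD i 0) i < cnt γ (γ.getD i 0) n := by
  have h1 := cnt_succ (γ := γ) (i := i) (by omega) (γ.getD i 0)
  have h2 := cnt_mono γ (γ.getD i 0) (show i + 1 ≤ n by omega)
  rw [if_pos rfl] at h1
  omega

theorem rk_nat (r : SR) {n : ℕ} {γ : List ℕ} (hγ : γ.length = n) (g : ℕ) :
    ∀ i : ℕ, i ≤ n → rk (exg n γ) g i = cnt γ g i
  | 0, _ => by simp [rk, cnt]
  | i + 1, h => by
    have e : exg n γ i = γ.getD i 0 := by simpa using exg_win (show i < n by omega) γ 0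
    rw [Nat.cast_succ, r.succ, rk_nat r hγ g i (by omega), cnt_succ (by omega), e]
    split_ifs <;> simp

theorem yc_eq (r : SR) {n : ℕ} {γ : List ℕ} (hγ : γ.length = n) (g : ℕ) :
    Yc n (exg n γ) g = cnt γ g n := by
  rw [← rk_nat r hγ g n le_rfl, rk, Yc, Ico_eq_empty (a := (n : ℤ)) (by omega)]
  simp

theorem rk_eq (r : SR) {n : ℕ} (hn : 0 < n) {γ : List ℕ} (hγ : γ.length = n) (g : ℕ) (j : ℤ) :
    rk (exg n γ) g j = rkx n γ g j := by
  obtain ⟨i, q, hi, rfl⟩ := win hn j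
  rw [r.per g _ _ (by omega) fun k => by simpa using exg_add hn γ k 1, rk_nat r hγ g i hi.le,
    yc_eq r hγ, rkx_win hi]

structure Win (n : ℕ) (M : List (ℤ × ℤ)) (w : List ℤ) (γ : List ℕ) (y : List ℤ) (D : ℤ) : Prop where
  two : 2 ≤ n
  pos : 0 < D
  len : γ.length = n
  lt : ∀ i, i < n → γ.getD i 0 < M.length
  grp : ∀ i, i < n → exg n γ (w.getD i 0) = γ.getD i 0
  inc : ∀ i, i < n → y.getD i 0 < ex n D y ((i : ℤ) + 1)
  yc : ∀ g, g < M.length → (cnt γ g n : ℤ) = (M.getD g 0).2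

theorem win_of {n : ℕ} {M w γ y D} (h : entC n M w γ y D = true) : Win n M w γ y D := by
  simp only [entC, Bool.and_eq_true, allLt_iff, Nat.ble_eq, Nat.blt_eq, Nat.beq_eq,
    decide_eq_true_eq] at h
  obtain ⟨⟨⟨⟨h1, h2⟩, h3⟩, h4⟩, h5⟩ := h
  exact ⟨h1, h2, h3, fun i hi => (h4 i hi).1.1, fun i hi => (h4 i hi).1.2, fun i hi => (h4 i hi).2,
    h5⟩

theorem entC_of (r : SR) {n : ℕ} {M w γ y D} (h : Win n M w γ y D) {U : List Lt} (hb : IsBr U)
    (hr : RedW n U) (hw : pw n U = ex n n w) : EntC n M U (exg n γ) (ex n D y) D := by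
  have hn : 0 < n := by have := h.two; omega
  have hs : StrictMono (ex n D y) := strictMono_int_of_lt_succ fun j => by
    obtain ⟨i, q, hi, rfl⟩ := win hn j
    rw [show (i : ℤ) + n * q + 1 = (i + 1) + n * q by ring, ex_win hi, ex_add hn]
    linarith [h.inc i hi]
  refine ⟨hb, hr, ⟨fun k => by simpa using exg_add hn γ k 1, fun j => ?_⟩,
    ⟨h.pos, hs.monotone, fun k => by simpa using ex_add hn D y k 1⟩, hs, fun g => ?_⟩
  · obtain ⟨i, q, hi, rfl⟩ := win hn j
    rw [hw, ex_win hi, exg_add hn, exg_win hi, h.grp i hi]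
  · rcases Nat.lt_or_ge g M.length with hg | hg
    · rw [yc_eq r h.len, h.yc g hg]
    · rw [List.getD_eq_default _ _ hg, Yc]
      refine sum_eq_zero fun j _ => if_neg ?_
      obtain ⟨i, q, hi, rfl⟩ := win hn j
      rw [exg_win hi]
      have := h.lt i hi
      omega

theorem sep_of {n : ℕ} (hn : 0 < n) {w γ y D e} (h : sepB n γ (dsp n w y D) e = true) (i j : ℤ)
    (hij : exg n γ i < exg n γ j) :
    ex n D y (ex n n w i) - ex n D y i + e < ex n D y (ex n n w j) - ex n D y j := by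
  simp only [sepB, allLt_iff, Bool.or_eq_true, Bool.not_eq_true', decide_eq_true_eq] at h
  have hd : ∀ k, k < n → (dsp n w y D).getD k 0 = ex n D y (w.getD k 0) - y.getD k 0 :=
    fun k hk => by simp [dsp, List.getD_eq_getElem?_getD, hk]
  obtain ⟨a, q, ha, rfl⟩ := win hn i
  obtain ⟨b, q', hb, rfl⟩ := win hn j
  rw [exg_win ha, exg_win hb] at hij
  rcases h a ha b hb with h1 | h1
  · rw [← Nat.blt_eq, h1] at hij
    exact absurd hij (by simp)
  · rw [hd a ha, hd b hb] at h1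
    rw [ex_win ha, ex_win hb, ex_win ha, ex_win hb, ex_add hn, ex_add hn]
    linarith

theorem div_add {k Y : ℤ} (h : k ∣ Y) (a q : ℤ) : (a + Y * q) / k = a / k + Y / k * q := by
  rcases eq_or_ne k 0 with rfl | hk
  · simp
  · obtain ⟨c, rfl⟩ := h
    rw [mul_assoc, Int.add_mul_ediv_left _ _ hk, Int.mul_ediv_cancel_left _ hk]

theorem win_uniq {m a a' q q' : ℤ} (h0 : 0 ≤ a) (h1 : a < m) (h0' : 0 ≤ a') (h1' : a' < m)
    (h : a + m * q = a' + m * q') : a = a' ∧ q = q' := by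
  have h2 : a - a' = 0 := dvd_small (n := m) ⟨q' - q, by linarith⟩ (by linarith) (by linarith)
  refine ⟨by linarith, mul_left_cancel₀ (show m ≠ 0 by omega) (by linarith)⟩

end Entaux

open Entaux

theorem pEnt (_b1 : SB1) (_p : SP) (r : SR) (ck : SCk) : SEnt := by
  constructor
  · intro n N M l s γ y D C0 C1 h
    have e : entB n N M l s γ y D C0 C1 = ((redB n s l).2 && entC n M (redB n s l).1 γ y D &&
      sepB n γ (dsp n (redB n s l).1 y D) 0 &&
      allLt (fun i => decide (rkx n γ (γ.getD i 0) ((redB n s l).1.getD i 0) =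
        (cnt γ (γ.getD i 0) i : ℤ) + (M.getD (γ.getD i 0) 0).1)) n &&
      badW n (mkU l s ++ Z n (List.replicate N 0)) C0 C1) := rfl
    rw [e] at h
    simp only [Bool.and_eq_true, allLt_iff, decide_eq_true_eq] at h
    obtain ⟨⟨⟨⟨h1, h2⟩, h3⟩, h4⟩, h5⟩ := h
    have hW := win_of h2
    have hn : 0 < n := by have := hW.two; omega
    obtain ⟨-, hw, hr⟩ := redB_ok hW.two s l h1
    refine ⟨mkU l s, exg n γ, ex n D y, D, entC_of r hW (mkU_br l s) hr hw, fun i j hij => ?_,
      fun j => ?_, ck.badw n _ C0 C1 h5⟩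
    · rw [hw]
      simpa using sep_of hn h3 i j hij
    · obtain ⟨i, q, hi, rfl⟩ := win hn j
      rw [rk_eq r hn hW.len, rk_eq r hn hW.len, hw, exg_win hi, ex_win hi, rkx_add hn, rkx_win hi,
        h4 i hi]
      ring
  · intro n N M l s γ y D β e C0 C1 h
    rcases hR : redB n s l with ⟨w, b⟩
    simp only [entRB, hR, Bool.and_eq_true, allLt_iff, decide_eq_true_eq] at h
    obtain ⟨⟨⟨⟨h1, h2⟩, h3⟩, h4⟩, h5⟩ := h
    have hW := win_of h2
    have hn : 0 < n := by have := hW.two; omega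
    obtain ⟨-, hw, hr⟩ := redB_ok hW.two s l (by rw [hR]; exact h1)
    rw [hR] at hw
    have hβ : ∀ {a b : ℕ} {q q' : ℤ}, a < n → b < n →
        ex n n β (a + n * q) = ex n n β (b + n * q') → β.getD a 0 = β.getD b 0 ∧ q = q' :=
      fun {a b q q'} ha hb h => by
        rw [ex_win ha, ex_win hb] at h
        have a1 := (h4 a ha).1.1.1.2
        have a2 := (h4 a ha).1.1.2
        have a3 := (h4 b hb).1.1.1.2
        have a4 := (h4 b hb).1.1.2
        exact win_uniq a1 (by omega) a3 (by omega) h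
    have hk : ∀ a, a < n → kk (M.getD (γ.getD a 0) 0) ∣ (cnt γ (γ.getD a 0) n : ℤ) :=
      fun a ha => by
        rw [hW.yc _ (hW.lt a ha)]
        exact Int.gcd_dvd_right _ _
    refine ⟨mkU l s, exg n γ, ex n D y, D, ex n n β, e,
      ⟨entC_of r hW (mkU_br l s) hr hw, ⟨fun k => by simpa using ex_add hn n β k 1,
        monotone_int_of_le_succ fun j => ?_, fun j => ?_, ?_, fun i j hij hlt => ?_,
        fun i j => ?_⟩, fun j => ?_, fun i j hij hq => ?_, fun i j hij => ?_,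
        fun i j hij => ?_⟩, ck.rdw n _ C0 C1 h5⟩
    · obtain ⟨i, q, hi, rfl⟩ := win hn j
      rw [show (i : ℤ) + n * q + 1 = (i + 1) + n * q by ring, ex_win hi, ex_add hn]
      linarith [(h4 i hi).1.2]
    · obtain ⟨i, q, hi, rfl⟩ := win hn j
      rw [ex_win hi]
      linarith [(h4 i hi).1.1.2]
    · have := ex_nat hn n β
      rw [Nat.cast_zero] at this
      rw [this]
      exact (h4 0 hn).1.1.1.2
    · obtain ⟨a, q, ha, rfl⟩ := win hn i
      obtain ⟨b, q', hb, rfl⟩ := win hn j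
      obtain ⟨h6, rfl⟩ := hβ ha hb hij
      rw [hw, ex_win ha, ex_win hb]
      have := (((h4 a ha).2 b hb).1.2 h6).2.1 (by omega)
      linarith
    · obtain ⟨a, q, ha, rfl⟩ := win hn i
      obtain ⟨b, q', hb, rfl⟩ := win hn j
      have h6 := (h4 a ha).2 b hb
      rw [hw, ex_win ha n w, ex_win hb n w, ex_add hn, ex_add hn]
      constructor
      · intro h
        have h7 := h6.2 (Int.emod_eq_zero_of_dvd ⟨q' - q, by linarith⟩)
        have h8 := (h6.1.2 h7).2.2
        rw [ex_win ha, ex_win hb]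
        linarith
      · intro h
        obtain ⟨h7, rfl⟩ := hβ ha hb h
        rw [(h6.1.2 h7).2.2]
    · obtain ⟨i, q, hi, rfl⟩ := win hn j
      rw [rk_eq r hn hW.len, rk_eq r hn hW.len, hw, exg_win hi, ex_win hi, rkx_add hn, rkx_win hi,
        div_add (hk i hi), div_add (hk i hi), (h4 i hi).1.1.1.1]
      ring
    · obtain ⟨a, q, ha, rfl⟩ := win hn i
      obtain ⟨b, q', hb, rfl⟩ := win hn j
      rw [exg_win ha, exg_win hb] at hij
      rw [rk_eq r hn hW.len, rk_eq r hn hW.len, exg_win ha, rkx_win ha, rkx_win hb,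
        div_add (hk a ha), div_add (hk a ha)] at hq
      have c1 := cnt_lt hW.len ha
      have c2 := cnt_lt hW.len hb
      rw [← hij] at c2
      have hk0 : 0 < kk (M.getD (γ.getD a 0) 0) := by
        refine lt_of_le_of_ne (Int.natCast_nonneg _) fun h0 => ?_
        have := hk a ha
        rw [← h0, zero_dvd_iff] at this
        omega
      have hlt : ∀ c : ℕ, c < cnt γ (γ.getD a 0) n → (c : ℤ) / kk (M.getD (γ.getD a 0) 0) <
          (cnt γ (γ.getD a 0) n : ℤ) / kk (M.getD (γ.getD a 0) 0) := fun c hc => by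
        rw [Int.ediv_lt_iff_lt_mul hk0, Int.ediv_mul_cancel (hk a ha)]
        exact_mod_cast hc
      obtain ⟨h6, rfl⟩ := win_uniq (Int.ediv_nonneg (Int.natCast_nonneg _) hk0.le) (hlt _ c1)
        (Int.ediv_nonneg (Int.natCast_nonneg _) hk0.le) (hlt _ c2) hq
      rw [ex_win ha, ex_win hb, ((h4 a ha).2 b hb).1.1 hij h6]
    · obtain ⟨a, q, ha, rfl⟩ := win hn i
      obtain ⟨b, q', hb, rfl⟩ := win hn j
      obtain ⟨h6, rfl⟩ := hβ ha hb hij
      rw [ex_win ha, ex_win hb, add_sub_add_right_eq_sub]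
      exact (((h4 a ha).2 b hb).1.2 h6).1
    · rw [hw]
      exact sep_of hn h3 i j hij

end Pool.Agent.P.MP_5af56b_co.Tor
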