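import Pool.Agent.P.MP_5af56b_co.Tor.Stmt

namespace Pool.Agent.P.MP_5af56b_co.Tor

open Finset

namespace F1aux

theorem per_mul {n D : ℤ} {x : ℤ → ℤ} (h : ∀ i, x (i + n) = x i + D) (i k : ℤ) :
    x (i + n * k) = x i + D * k := by
  induction k using Int.induction_on with
  | zero => simp
  | succ k ih => rw [mul_add, mul_one, ← add_assoc, h, ih]; ring
  | pred k ih =>
    have := h (i + n * (-(k : ℤ) - 1))
    rw [show i + n * (-(k : ℤ) - 1) + n = i + n * -(k : ℤ) by ring, ih] at this
    linarith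

theorem per_dvd {n : ℤ} {f : ℤ → ℤ} (h : ∀ i, f (i + n) = f i) {a b : ℤ} (hd : n ∣ a - b) :
    f a = f b := by
  obtain ⟨k, hk⟩ := hd
  have := per_mul (D := 0) (x := f) (fun i => by rw [h, add_zero]) b k
  rw [show a = b + n * k by linarith, this]
  simp

/-- a periodic function that vanishes off two classes -/
theorem sum_two {n : ℤ} (hn : 0 < n) {f : ℤ → ℤ} (h : ∀ i, f (i + n) = f i) {a b : ℤ}
    (hab : ¬n ∣ a - b) (h0 : ∀ j, ¬n ∣ j - a → ¬n ∣ j - b → f j = 0) :
    ∑ j ∈ Ico 0 n, f j = f a + f b := by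
  have m : ∀ c : ℤ, c % n ∈ Ico 0 n := fun c =>
    mem_Ico.2 ⟨Int.emod_nonneg _ hn.ne', Int.emod_lt_of_pos _ hn⟩
  have d : ∀ c : ℤ, n ∣ c % n - c := fun c => ⟨-(c / n), by rw [Int.emod_def]; ring⟩
  have e : ∀ c j : ℤ, j ∈ Ico 0 n → n ∣ j - c → j = c % n := fun c j hj hc => by
    exact (Int.emod_eq_of_lt (mem_Ico.1 hj).1 (mem_Ico.1 hj).2).symm.trans
      (Int.emod_eq_emod_iff_emod_sub_eq_zero.2 (Int.emod_eq_zero_of_dvd hc))
  rw [sum_eq_add_of_mem (a % n) (b % n) (m a) (m b), per_dvd h (d a), per_dvd h (d b)]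
  · intro e2
    exact hab (Int.dvd_of_emod_eq_zero (Int.emod_eq_emod_iff_emod_sub_eq_zero.1 e2))
  · exact fun j hj hne => h0 j (fun c => hne.1 (e a j hj c)) fun c => hne.2 (e b j hj c)

theorem nd_one {n : ℤ} (hn : 2 ≤ n) : ¬n ∣ 1 := fun h => by
  have := Int.le_of_dvd one_pos h
  omega

/-- the distance from the straight line -/
noncomputable def mu (n D : ℤ) (x : ℤ → ℤ) : ℤ := ∑ j ∈ Ico 0 n, (n * x j - D * j) ^ 2

theorem mu_lt (p : SP) {n D i : ℤ} {x : ℤ → ℤ} (hn : 2 ≤ n) (hD : 0 < D)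
    (hx : ∀ i, x (i + n) = x i + D) (hi : x i < x (i - 1)) :
    mu n D (fun j => x (sw n i j)) < mu n D x := by
  have s := p.sw_ap i hn
  have h1 := p.sumper (fun j => (n * x j - D * sw n i j) ^ 2) (by omega) s fun j => by
    simp only [hx, s.2]
    ring
  simp only [p.sw_sw i _ hn] at h1
  have n1 : ¬n ∣ i - 1 - i := fun h => nd_one hn (by simpa using h)
  have h2 := sum_two (by omega : 0 < n)
    (f := fun j => (n * x j - D * sw n i j) ^ 2 - (n * x j - D * j) ^ 2) (fun j => by
      simp only [hx, s.2]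
      ring) n1 fun j a b => by
      simp only [sw, if_neg b, if_neg (show ¬n ∣ j - i + 1 by rwa [show j - i + 1 = j - (i - 1) by ring])]
      ring
  rw [sum_sub_distrib] at h2
  have e1 : sw n i i = i - 1 := by simp [sw]
  have e2 : sw n i (i - 1) = i := by simp [sw, nd_one hn]
  rw [e1, e2] at h2
  unfold mu
  rw [h1]
  have : 0 < D * n * (x (i - 1) - x i) := mul_pos (mul_pos hD (by omega)) (by omega)
  nlinarith

theorem bs (p : SP) {n D : ℤ} {P : (ℤ → ℤ) → Prop} (hn : 2 ≤ n) (hc : Cyc n P) (hD : 0 < D)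
    (N : ℕ) : ∀ {w x : ℤ → ℤ}, mu n D x < N → AP n w → (∀ i, x (i + n) = x i + D) →
    (∀ i j, i < j → x j < x i → (w j < w i ∧ x (w j) ≤ x (w i)) ∨
      ∃ i' j', w i' = i ∧ w j' = j ∧ j' < i' ∧ x j' ≤ x i') →
    ∃ g w', AP n g ∧ AP n w' ∧ (∀ i, w' (g i) = g (w i)) ∧ (P w' → P w) ∧
      (∀ i j, g i ≤ g j → x i ≤ x j) ∧ ∀ i j, i < j → x i ≤ x j → g i < g j := by
  induction N with
  | zero =>
    intro w x h
    exact absurd h (not_lt.2 (sum_nonneg fun j _ => sq_nonneg _))
  | succ N ih =>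
    intro w x hN hw hx H
    by_cases hm : ∀ i, x (i - 1) ≤ x i
    · have mono : Monotone x := monotone_int_of_le_succ fun i => by simpa using hm (i + 1)
      exact ⟨fun j => j, w, ⟨Function.bijective_id, fun _ => rfl⟩, hw, fun _ => rfl, id,
        fun i j h => mono h, fun i j h _ => h⟩
    push Not at hm
    obtain ⟨i, hi⟩ := hm
    have s := p.sw_ap i hn
    have ss := fun j => p.sw_sw i j hn
    have key : ∀ a b, a < b → x a ≤ x b → sw n i a < sw n i b := fun a b h h' => by
      refine (p.sw_lt i hn h).resolve_right ?_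
      rintro ⟨rfl, k, hk⟩
      have e1 := per_mul hx i k
      have e2 := per_mul hx (i - 1) k
      rw [show i + n * k = a + 1 by linarith] at e1
      rw [show i - 1 + n * k = a by linarith] at e2
      linarith
    have key2 : ∀ a b, a < b → x (sw n i b) < x (sw n i a) → sw n i a < sw n i b :=
      fun a b h h' => by
        by_contra hh
        have h3 : sw n i b ≠ sw n i a := fun e => h'.ne (by rw [e])
        have := key _ _ (lt_of_le_of_ne (not_lt.1 hh) h3) h'.le
        rw [ss, ss] at this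
        omega
    have lt := mu_lt p hn hD hx hi
    obtain ⟨g, w', hg, hw', c, hP, o1, o2⟩ := ih (w := fun j => sw n i (w (sw n i j)))
      (x := fun j => x (sw n i j)) (by push_cast at hN; omega) (p.comp s (p.comp hw s))
      (fun j => by simp only [s.2, hx]) fun a b h h' => by
        rcases H _ _ (key2 a b h h') h' with ⟨h1, h2⟩ | ⟨i', j', h1, h2, h3, h4⟩
        · exact Or.inl ⟨key _ _ h1 h2, by simpa only [ss] using h2⟩
        · exact Or.inr ⟨sw n i i', sw n i j', by simp only [ss, h1], by simp only [ss, h2],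
            key _ _ h3 h4, by simpa only [ss] using h4⟩
    refine ⟨fun j => g (sw n i j), w', p.comp hg s, hw', fun j => by simp only [c, ss],
      fun h => hc.1 w i hw ?_ (hP h), fun a b h => by simpa only [ss] using o1 _ _ h,
      fun a b h h' => o2 _ _ (key a b h h') (by simpa only [ss] using h')⟩
    rcases H (i - 1) i (by omega) hi with ⟨h1, _⟩ | ⟨i', j', h1, h2, h3, _⟩
    · exact Or.inl h1
    · exact Or.inr ⟨j', i', h3, h2, h1⟩

/-- the energy -/
noncomputable def en (n : ℤ) (w x : ℤ → ℤ) : ℤ := ∑ j ∈ Ico 0 n, (x (w j) - x j) ^ 2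

theorem step (p : SP) {n D : ℤ} {P : (ℤ → ℤ) → Prop} (hn : 2 ≤ n) (hc : Cyc n P)
    {w v x : ℤ → ℤ} (hw : AP n w) (hv : AP n v) (wv : ∀ j, w (v j) = j)
    (hx : Pos n D x) {ε j : ℤ} (hε : ε = 1 ∨ ε = -1)
    (hj : 2 ≤ ε * (x (w j) + x (v j) - 2 * x j))
    (hl : ∀ l, x l = x j → 0 < ε * (l - j) → ε * (x (w l) + x (v l) - 2 * x l) ≤ 1) :
    ∃ w' x', AP n w' ∧ Pos n D x' ∧ (P w' → P w) ∧ en n w' x' < en n w x := by
  obtain ⟨hD, mono, hp⟩ := hx
  obtain ⟨y, hy⟩ : ∃ y : ℤ → ℤ, ∀ a, y a = x a + if n ∣ a - j then ε else 0 := ⟨_, fun _ => rfl⟩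
  have yp : ∀ a, y (a + n) = y a + D := fun a => by
    have e : n ∣ a + n - j ↔ n ∣ a - j := by
      rw [show a + n - j = a - j + n by ring, dvd_add_self_right]
    simp only [hy, hp, e]
    ring
  have dl : ∀ a k, x (w (a + n * k)) + x (v (a + n * k)) - 2 * x (a + n * k) =
      x (w a) + x (v a) - 2 * x a := fun a k => by
    rw [p.mul hw, p.mul hv, per_mul hp, per_mul hp, per_mul hp]
    ring
  have lt : ∀ a b, x a < x b → a < b ∧ y a ≤ y b := fun a b h =>
    ⟨mono.reflect_lt h, by
      rw [hy, hy]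
      split_ifs <;> omega⟩
  have H : ∀ a b, a < b → y b < y a → (w b < w a ∧ y (w b) ≤ y (w a)) ∨
      ∃ i' j', w i' = a ∧ w j' = b ∧ j' < i' ∧ y j' ≤ y i' := fun a b h h' => by
    have h1 := mono h.le
    have h2 : x (w b) + x (v b) < x (w a) + x (v a) := by
      rw [hy, hy] at h'
      rcases hε with rfl | rfl
      · have h3 : n ∣ a - j := by
          by_contra c
          rw [if_neg c] at h'
          split_ifs at h' <;> omega
        have h4 : x b = x a := by
          rw [if_pos h3] at h'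
          split_ifs at h' <;> omega
        obtain ⟨k, hk⟩ := h3
        have e1 := dl j k
        have e2 := dl (b - n * k) k
        have e3 := per_mul hp j k
        have e4 := per_mul hp (b - n * k) k
        rw [show j + n * k = a by linarith] at e1 e3
        rw [sub_add_cancel] at e2 e4
        have := hl (b - n * k) (by linarith) (by linarith)
        linarith
      · have h3 : n ∣ b - j := by
          by_contra c
          rw [if_neg c] at h'
          split_ifs at h' <;> omega
        have h4 : x b = x a := by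
          rw [if_pos h3] at h'
          split_ifs at h' <;> omega
        obtain ⟨k, hk⟩ := h3
        have e1 := dl j k
        have e2 := dl (a - n * k) k
        have e3 := per_mul hp j k
        have e4 := per_mul hp (a - n * k) k
        rw [show j + n * k = b by linarith] at e1 e3
        rw [sub_add_cancel] at e2 e4
        have := hl (a - n * k) (by linarith) (by linarith)
        linarith
    by_cases c : x (w b) < x (w a)
    · exact Or.inl (lt _ _ c)
    · exact Or.inr ⟨v a, v b, wv a, wv b, lt _ _ (by omega)⟩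
  obtain ⟨g, w', hg, hw', c, hP, o1, -⟩ := bs p hn hc hD ((mu n D y).toNat + 1)
    (by push_cast; omega) hw yp H
  obtain ⟨u, hu, ug, gu⟩ := p.inv hg
  refine ⟨w', fun a => y (u a), hw', ⟨hD, fun a b h => o1 _ _ (by rwa [gu, gu]),
    fun a => by simp only [hu.2, yp]⟩, hP, ?_⟩
  have h1 := p.sumper (fun a => (y (u (w' a)) - y (u a)) ^ 2) (by omega) hg fun a => by
    simp only [hw'.2, hu.2, yp]
    ring
  simp only [c, ug] at h1
  have nv : ¬n ∣ v j - j := by
    rintro ⟨k, hk⟩
    have e1 : v j = j + n * k := by linarith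
    have e2 : w j = j + n * -k := by
      have := wv j
      rw [e1, p.mul hw] at this
      linarith
    rw [e1, e2, per_mul hp, per_mul hp] at hj
    rcases hε with rfl | rfl <;> linarith
  have dw : ∀ a, n ∣ w a - j ↔ n ∣ a - v j := fun a => by rw [← p.dvd hw a (v j), wv]
  have h2 := sum_two (by omega : 0 < n)
    (f := fun a => (y (w a) - y a) ^ 2 - (x (w a) - x a) ^ 2) (fun a => by
      simp only [hw.2, hp, yp]
      ring) nv fun a h3 h4 => by
      simp only [hy, dw, if_neg h3, if_neg h4]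
      ring
  have nv' : ¬n ∣ j - v j := fun h => nv (dvd_sub_comm.1 h)
  rw [sum_sub_distrib, wv, hy j, hy (v j), hy (w j), if_neg nv, if_neg (mt (dw j).1 nv'),
    if_pos (by simp)] at h2
  unfold en
  rw [← h1]
  rcases hε with rfl | rfl <;> nlinarith

theorem straight (p : SP) {n D : ℤ} {P : (ℤ → ℤ) → Prop} (hn : 2 ≤ n) (hc : Cyc n P) (N : ℕ) :
    ∀ {w x : ℤ → ℤ}, en n w x < N → AP n w → Pos n D x →
      ∃ w' x', AP n w' ∧ Pos n D x' ∧ (P w' → P w) ∧
        ∀ i, |x' (w' (w' i)) + x' i - 2 * x' (w' i)| ≤ 1 := by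
  induction N with
  | zero =>
    intro w x h
    exact absurd h (not_lt.2 (sum_nonneg fun j _ => sq_nonneg _))
  | succ N ih =>
    intro w x hN hw hx
    by_cases hm : ∀ i, |x (w (w i)) + x i - 2 * x (w i)| ≤ 1
    · exact ⟨w, x, hw, hx, id, hm⟩
    push Not at hm
    obtain ⟨i, hi⟩ := hm
    obtain ⟨v, hv, vw, wv⟩ := p.inv hw
    have b1 : ∀ l, x l = x (w i) → l ≤ w i + n := fun l h => by
      have := hx.2.2 (w i)
      have := hx.1
      exact (hx.2.1.reflect_lt (by omega)).le
    have b2 : ∀ l, x l = x (w i) → w i - n ≤ l := fun l h => by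
      have := hx.2.2 (w i - n)
      rw [sub_add_cancel] at this
      have := hx.1
      exact (hx.2.1.reflect_lt (by omega)).le
    have : ∃ w' x', AP n w' ∧ Pos n D x' ∧ (P w' → P w) ∧ en n w' x' < en n w x := by
      rcases lt_abs.1 hi with h | h
      · obtain ⟨j, ⟨j1, j2⟩, j3⟩ := Int.exists_greatest_of_bdd
          (P := fun l => x l = x (w i) ∧ 2 ≤ x (w l) + x (v l) - 2 * x l)
          ⟨_, fun l hl => b1 l hl.1⟩ ⟨w i, rfl, by rw [vw]; omega⟩
        refine step p hn hc hw hv wv hx (Or.inl rfl) (j := j) (by omega) fun l h1 h2 => ?_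
        by_contra c
        have := j3 l ⟨h1.trans j1, by omega⟩
        omega
      · obtain ⟨j, ⟨j1, j2⟩, j3⟩ := Int.exists_least_of_bdd
          (P := fun l => x l = x (w i) ∧ x (w l) + x (v l) - 2 * x l ≤ -2)
          ⟨_, fun l hl => b2 l hl.1⟩ ⟨w i, rfl, by rw [vw]; omega⟩
        refine step p hn hc hw hv wv hx (Or.inr rfl) (j := j) (by omega) fun l h1 h2 => ?_
        by_contra c
        have := j3 l ⟨h1.trans j1, by omega⟩
        omega
    obtain ⟨w1, x1, h1, h2, h3, h4⟩ := this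
    obtain ⟨w', x', a1, a2, a3, a4⟩ := ih (by push_cast at hN; omega) h1 h2
    exact ⟨w', x', a1, a2, fun h => h3 (a3 h), a4⟩

theorem dvd_iter (p : SP) {n : ℤ} {w : ℤ → ℤ} (hw : AP n w) (k : ℕ) (a b : ℤ) :
    n ∣ w^[k] a - w^[k] b ↔ n ∣ a - b := by
  induction k with
  | zero => rfl
  | succ k ih => rw [Function.iterate_succ_apply', Function.iterate_succ_apply', p.dvd hw, ih]

theorem dvd_fact (p : SP) {n : ℤ} (hn : 0 < n) {w : ℤ → ℤ} (hw : AP n w) (i : ℤ) :
    n ∣ w^[n.toNat.factorial] i - i := by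
  have key : ∀ a b : ℕ, a < b → b ≤ n.toNat → w^[a] i % n = w^[b] i % n →
      n ∣ w^[n.toNat.factorial] i - i := fun a b hab hb h => by
    obtain ⟨m, rfl⟩ := Nat.exists_eq_add_of_lt hab
    have h1 : n ∣ w^[m + 1] i - i := by
      rw [← dvd_iter p hw a, ← Function.iterate_add_apply, ← add_assoc]
      exact Int.dvd_of_emod_eq_zero (Int.emod_eq_emod_iff_emod_sub_eq_zero.1 h.symm)
    obtain ⟨t, ht⟩ := Nat.dvd_factorial (Nat.succ_pos m) (by omega : m + 1 ≤ n.toNat)
    rw [ht]
    clear ht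
    induction t with
    | zero => simp
    | succ t ih =>
      have := dvd_add ((dvd_iter p hw (m + 1) _ _).2 ih) h1
      rwa [← Function.iterate_add_apply, sub_add_sub_cancel, add_comm (m + 1)] at this
  obtain ⟨a, ha, b, hb, hab, h⟩ := exists_ne_map_eq_of_card_lt_of_maps_to
    (s := range (n.toNat + 1)) (t := Ico 0 n) (f := fun k => w^[k] i % n) (by simp)
    fun k _ => mem_coe.2 (mem_Ico.2 ⟨Int.emod_nonneg _ hn.ne', Int.emod_lt_of_pos _ hn⟩)
  rw [mem_range] at ha hb
  rcases lt_or_gt_of_ne hab with c | c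
  · exact key a b c (by omega) h
  · exact key b a c (by omega) h.symm

theorem drift {w x : ℤ → ℤ} (h : ∀ i, |x (w (w i)) + x i - 2 * x (w i)| ≤ 1) (i : ℤ) (k : ℕ) :
    |x (w (w^[k] i)) - x (w^[k] i) - (x (w i) - x i)| ≤ k ∧
      |k * (x (w i) - x i) - (x (w^[k] i) - x i)| ≤ k ^ 2 := by
  induction k with
  | zero => simp
  | succ k ih =>
    have h1 := abs_le.1 (h (w^[k] i))
    have h2 := abs_le.1 ih.1
    have h3 := abs_le.1 ih.2
    have h4 : (0 : ℤ) ≤ k := Int.natCast_nonneg k
    rw [Function.iterate_succ_apply']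
    push_cast
    exact ⟨abs_le.2 ⟨by linarith, by linarith⟩, abs_le.2 ⟨by nlinarith, by nlinarith⟩⟩

theorem iter_per {n : ℤ} {w : ℤ → ℤ} (hw : AP n w) (k : ℕ) (i : ℤ) :
    w^[k] (i + n) = w^[k] i + n := by
  induction k with
  | zero => rfl
  | succ k ih => rw [Function.iterate_succ_apply', Function.iterate_succ_apply', ih, hw.2]

end F1aux

open F1aux in
theorem pF1 (p : SP) : SF1 := by
  refine ⟨fun {n D P w x} hn hc hw hD hx H => bs p hn hc hD ((mu n D x).toNat + 1)
    (by push_cast; omega) hw hx H, fun {n D P w} hn hc hw hD => ?_, fun {n D w x σ} ξ h => ?_⟩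
  · have h0 : Pos n D fun i => i * D / n :=
      ⟨hD, fun a b h => Int.ediv_le_ediv (by omega) (mul_le_mul_of_nonneg_right h hD.le),
        fun i => by simp only [add_mul, Int.add_mul_ediv_left _ _ (by omega : n ≠ 0)]⟩
    obtain ⟨w', x, a1, a2, a3, a4⟩ := straight p hn hc ((en n w fun i => i * D / n).toNat + 1)
      (by push_cast; omega) hw h0
    choose σ hσ using dvd_fact p (by omega : 0 < n) a1
    refine ⟨w', x, σ, ⟨a1, a2, fun i => ?_, fun i => ?_, fun i => ?_⟩, a3⟩
    · have h1 := hσ (i + n)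
      rw [iter_per a1, add_sub_add_right_eq_sub, hσ] at h1
      exact (mul_left_cancel₀ (by omega) h1).symm
    · have h1 := hσ (w' i)
      rw [← Function.iterate_succ_apply, Function.iterate_succ_apply',
        show w'^[n.toNat.factorial] i = i + n * σ i by linarith [hσ i], p.mul a1,
        add_sub_cancel_left] at h1
      exact (mul_left_cancel₀ (by omega) h1).symm
    · have h1 := (drift a4 i n.toNat.factorial).2
      rwa [show w'^[n.toNat.factorial] i = i + n * σ i by linarith [hσ i], per_mul a2.2.2,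
        add_sub_cancel_left] at h1
  · obtain ⟨a1, a2, a3, a4, a5⟩ := h
    refine ⟨p.comp (p.shift n (-(n * ξ))) a1, a2, fun i => by simp only [a3], fun i => ?_,
      fun i => ?_⟩
    · beta_reduce
      rw [per_dvd a3 (a := w i - n * ξ) (b := w i) ⟨-ξ, by ring⟩, a4]
    · have := a5 i
      beta_reduce
      rw [show w i - n * ξ = w i + n * -ξ by ring, per_mul a2.2.2]
      convert this using 2
      ring

end Pool.Agent.P.MP_5af56b_co.Tor
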