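import Pool.Agent.P.MP_5af56b_co.Tor.Fast2

namespace Pool.Agent.P.MP_5af56b_co.Tor

def z_6x0 : ZD := ⟨0, 1, 7, [0, 1, 2, 3, 4, 5, 0], [0, 1, 2, 3, 4, 5, 0],
  [],
  []⟩

theorem zk_6x0 : z_6x0.ok 6 0 = true := by decide +kernel

def z_6x1 : ZD := ⟨1, 0, 14, [7, 12, 11, 10, 9, 8, 7], [0, 1, 2, 3, 4, 5, 0],
  [(0, 12), (12, 2), (2, 10), (10, 4), (4, 8), (8, 0)],
  [(7, 1), (1, 11), (11, 3), (3, 9), (9, 5), (5, 7)]⟩

theorem zk_6x1 : z_6x1.ok 6 1 = true := by decide +kernel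

def z_6x2 : ZD := ⟨0, 1, 21, [14, 19, 18, 17, 16, 15, 14], [0, 1, 2, 3, 4, 5, 0],
  [(14, 12), (12, 18), (18, 10), (10, 16), (16, 8), (8, 14), (0, 12), (12, 2), (2, 10), (10, 4), (4, 8), (8, 0)],
  [(7, 19), (19, 11), (11, 17), (17, 9), (9, 15), (15, 7), (7, 1), (1, 11), (11, 3), (3, 9), (9, 5), (5, 7)]⟩

theorem zk_6x2 : z_6x2.ok 6 2 = true := by decide +kernel

def z_6x3 : ZD := ⟨1, 0, 28, [21, 26, 25, 24, 23, 22, 21], [0, 1, 2, 3, 4, 5, 0],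
  [(14, 26), (26, 18), (18, 24), (24, 16), (16, 22), (22, 14), (14, 12), (12, 18), (18, 10), (10, 16), (16, 8), (8, 14), (0, 12), (12, 2), (2, 10), (10, 4), (4, 8), (8, 0)],
  [(21, 19), (19, 25), (25, 17), (17, 23), (23, 15), (15, 21), (7, 19), (19, 11), (11, 17), (17, 9), (9, 15), (15, 7), (7, 1), (1, 11), (11, 3), (3, 9), (9, 5), (5, 7)]⟩

theorem zk_6x3 : z_6x3.ok 6 3 = true := by decide +kernel

def z_8x0 : ZD := ⟨0, 1, 9, [0, 1, 2, 3, 4, 5, 6, 7, 0], [0, 1, 2, 3, 4, 5, 6, 7, 0],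
  [],
  []⟩

theorem zk_8x0 : z_8x0.ok 8 0 = true := by decide +kernel

def z_8x1 : ZD := ⟨1, 0, 18, [9, 16, 15, 14, 13, 12, 11, 10, 9], [0, 1, 2, 3, 4, 5, 6, 7, 0],
  [(0, 16), (16, 2), (2, 14), (14, 4), (4, 12), (12, 6), (6, 10), (10, 0)],
  [(9, 1), (1, 15), (15, 3), (3, 13), (13, 5), (5, 11), (11, 7), (7, 9)]⟩

theorem zk_8x1 : z_8x1.ok 8 1 = true := by decide +kernel

def z_8x2 : ZD := ⟨0, 1, 27, [18, 25, 24, 23, 22, 21, 20, 19, 18], [0, 1, 2, 3, 4, 5, 6, 7, 0],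
  [(18, 16), (16, 24), (24, 14), (14, 22), (22, 12), (12, 20), (20, 10), (10, 18), (0, 16), (16, 2), (2, 14), (14, 4), (4, 12), (12, 6), (6, 10), (10, 0)],
  [(9, 25), (25, 15), (15, 23), (23, 13), (13, 21), (21, 11), (11, 19), (19, 9), (9, 1), (1, 15), (15, 3), (3, 13), (13, 5), (5, 11), (11, 7), (7, 9)]⟩

theorem zk_8x2 : z_8x2.ok 8 2 = true := by decide +kernel

def z_8x3 : ZD := ⟨1, 0, 36, [27, 34, 33, 32, 31, 30, 29, 28, 27], [0, 1, 2, 3, 4, 5, 6, 7, 0],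
  [(18, 34), (34, 24), (24, 32), (32, 22), (22, 30), (30, 20), (20, 28), (28, 18), (18, 16), (16, 24), (24, 14), (14, 22), (22, 12), (12, 20), (20, 10), (10, 18), (0, 16), (16, 2), (2, 14), (14, 4), (4, 12), (12, 6), (6, 10), (10, 0)],
  [(27, 25), (25, 33), (33, 23), (23, 31), (31, 21), (21, 29), (29, 19), (19, 27), (9, 25), (25, 15), (15, 23), (23, 13), (13, 21), (21, 11), (11, 19), (19, 9), (9, 1), (1, 15), (15, 3), (3, 13), (13, 5), (5, 11), (11, 7), (7, 9)]⟩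

theorem zk_8x3 : z_8x3.ok 8 3 = true := by decide +kernel

def z_10x0 : ZD := ⟨0, 1, 11, [0, 1, 2, 3, 4, 5, 6, 7, 8, 9, 0], [0, 1, 2, 3, 4, 5, 6, 7, 8, 9, 0],
  [],
  []⟩

theorem zk_10x0 : z_10x0.ok 10 0 = true := by decide +kernel

def z_10x1 : ZD := ⟨1, 0, 22, [11, 20, 19, 18, 17, 16, 15, 14, 13, 12, 11], [0, 1, 2, 3, 4, 5, 6, 7, 8, 9, 0],
  [(0, 20), (20, 2), (2, 18), (18, 4), (4, 16), (16, 6), (6, 14), (14, 8), (8, 12), (12, 0)],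
  [(11, 1), (1, 19), (19, 3), (3, 17), (17, 5), (5, 15), (15, 7), (7, 13), (13, 9), (9, 11)]⟩

theorem zk_10x1 : z_10x1.ok 10 1 = true := by decide +kernel

def z_10x2 : ZD := ⟨0, 1, 33, [22, 31, 30, 29, 28, 27, 26, 25, 24, 23, 22], [0, 1, 2, 3, 4, 5, 6, 7, 8, 9, 0],
  [(22, 20), (20, 30), (30, 18), (18, 28), (28, 16), (16, 26), (26, 14), (14, 24), (24, 12), (12, 22), (0, 20), (20, 2), (2, 18), (18, 4), (4, 16), (16, 6), (6, 14), (14, 8), (8, 12), (12, 0)],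
  [(11, 31), (31, 19), (19, 29), (29, 17), (17, 27), (27, 15), (15, 25), (25, 13), (13, 23), (23, 11), (11, 1), (1, 19), (19, 3), (3, 17), (17, 5), (5, 15), (15, 7), (7, 13), (13, 9), (9, 11)]⟩

theorem zk_10x2 : z_10x2.ok 10 2 = true := by decide +kernel

def z_10x3 : ZD := ⟨1, 0, 44, [33, 42, 41, 40, 39, 38, 37, 36, 35, 34, 33], [0, 1, 2, 3, 4, 5, 6, 7, 8, 9, 0],
  [(22, 42), (42, 30), (30, 40), (40, 28), (28, 38), (38, 26), (26, 36), (36, 24), (24, 34), (34, 22), (22, 20), (20, 30), (30, 18), (18, 28), (28, 16), (16, 26), (26, 14), (14, 24), (24, 12), (12, 22), (0, 20), (20, 2), (2, 18), (18, 4), (4, 16), (16, 6), (6, 14), (14, 8), (8, 12), (12, 0)],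
  [(33, 31), (31, 41), (41, 29), (29, 39), (39, 27), (27, 37), (37, 25), (25, 35), (35, 23), (23, 33), (11, 31), (31, 19), (19, 29), (29, 17), (17, 27), (27, 15), (15, 25), (25, 13), (13, 23), (23, 11), (11, 1), (1, 19), (19, 3), (3, 17), (17, 5), (5, 15), (15, 7), (7, 13), (13, 9), (9, 11)]⟩

theorem zk_10x3 : z_10x3.ok 10 3 = true := by decide +kernel

end Pool.Agent.P.MP_5af56b_co.Tor
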