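import Pool.Agent.P.MP_5af56b_co.Tor.Keys
import Pool.Agent.P.MP_5af56b_co.Tor.Ent

namespace Pool.Agent.P.MP_5af56b_co.Tor

open Finset Entaux

noncomputable def fN (x : ℕ) (k : ℕ → Bool) : Bool :=
  Nat.rec (k 0) (fun n _ => k (Nat.succ n)) x

theorem fN_eq (x : ℕ) (k : ℕ → Bool) : fN x k = k x := by cases x <;> rfl

noncomputable def bA (a b : Bool) : Bool := Bool.rec false b a
noncomputable def bI {α : Type} (c : Bool) (a b : α) : α := Bool.rec b a c

theorem bA_eq (a b : Bool) : bA a b = (a && b) := by cases a <;> rfl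
theorem bI_eq {α : Type} (c : Bool) (a b : α) : bI c a b = bif c then a else b := by cases c <;> rfl

noncomputable def gd (l : List ℕ) : ℕ → ℕ :=
  List.rec (fun _ => 0) (fun a _ r i => Nat.rec a (fun k _ => r k) i) l

theorem gd_eq : ∀ (l : List ℕ) (i : ℕ), gd l i = l.getD i 0
  | [], _ => rfl
  | _ :: _, 0 => rfl
  | _ :: l, i + 1 => gd_eq l i

noncomputable def stK (l : List ℕ) : ℕ → ℕ → (List ℕ → Bool) → Bool :=
  List.rec (fun _ _ k => k []) (fun a t r i v k =>
    Nat.rec (k (v :: t)) (fun j _ => r j v (fun t' => k (a :: t'))) i) l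

theorem stK_eq : ∀ (l : List ℕ) (i v : ℕ) (k : List ℕ → Bool), stK l i v k = k (l.set i v)
  | [], _, _, _ => rfl
  | _ :: _, 0, _, _ => rfl
  | a :: l, i + 1, v, k => stK_eq l i v (fun t' => k (a :: t'))

noncomputable def fL (l : List ℕ) : (List ℕ → Bool) → Bool :=
  List.rec (fun k => k []) (fun a _ r k => fN a fun a' => r fun t => k (a' :: t)) l

theorem fL_eq : ∀ (l : List ℕ) (k : List ℕ → Bool), fL l k = k l
  | [], _ => rfl
  | a :: l, k => by
    show fN a (fun a' => fL l fun t => k (a' :: t)) = _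
    rw [fN_eq, fL_eq]

noncomputable def allR' (f : ℕ → Bool) (k : ℕ) : Bool := Nat.rec true (fun i r => bA (f i) r) k

theorem allR'_spec {f : ℕ → Bool} : ∀ {k : ℕ}, allR' f k = true → ∀ i < k, f i = true
  | 0, _, _, hi => absurd hi (Nat.not_lt_zero _)
  | k + 1, h, i, hi => by
    have h' : bA (f k) (allR' f k) = true := h
    rw [bA_eq, Bool.and_eq_true] at h'
    rcases Nat.lt_succ_iff_lt_or_eq.1 hi with hi | rfl
    · exact allR'_spec h'.2 i hi
    · exact h'.1

noncomputable def ct (g : ℕ) (l : List ℕ) : ℕ :=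
  List.rec 0 (fun a _ r => bI (Nat.beq a g) (Nat.succ r) r) l

theorem ct_eq (g : ℕ) : ∀ l : List ℕ, ct g l = l.count g
  | [] => rfl
  | a :: l => by
    show bI (Nat.beq a g) (Nat.succ (ct g l)) (ct g l) = _
    rw [bI_eq, ct_eq g l, List.count_cons]
    by_cases h : a = g
    · simp [h]
    · have : Nat.beq a g = false := Bool.eq_false_iff.2 fun e => h (Nat.eq_of_beq_eq_true e)
      simp [h, this]

/-- digits in base `2 ^ b`, evaluated -/
noncomputable def dgK (b m : ℕ) (k : ℕ) : ℕ → (List ℕ → Bool) → Bool :=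
  Nat.rec (fun _ κ => κ []) (fun _ r C κ => fN (Nat.land C m) fun a =>
    fN (Nat.shiftRight C b) fun C' => r C' fun t => κ (a :: t)) k

theorem dgK_spec (b m : ℕ) : ∀ (k C : ℕ) (κ : List ℕ → Bool), dgK b m k C κ = true →
    ∃ l : List ℕ, l.length = k ∧ κ l = true
  | 0, _, _, h => ⟨[], rfl, h⟩
  | k + 1, C, κ, h => by
    have h' : fN (Nat.land C m) (fun a => fN (Nat.shiftRight C b) fun C' =>
      dgK b m k C' fun t => κ (a :: t)) = true := h
    rw [fN_eq, fN_eq] at h'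
    obtain ⟨l, h1, h2⟩ := dgK_spec b m k _ _ h'
    exact ⟨_ :: l, by rw [List.length_cons, h1], h2⟩

/-! ## permutation windows, shifted by `64 n` -/

noncomputable def sw2 (k : List ℕ → Bool) (l : List ℕ) : ℕ → (List ℕ → List ℕ) → Bool :=
  List.rec (fun _ _ => false) (fun a t r i f =>
    Nat.rec (List.rec false (fun b t' _ => bA (Nat.blt a b) (k (f (b :: a :: t')))) t)
      (fun j _ => r j (fun t' => f (a :: t'))) i) l

theorem sw2_spec (k : List ℕ → Bool) : ∀ (l : List ℕ) (i : ℕ) (f : List ℕ → List ℕ),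
    sw2 k l i f = true → i + 1 < l.length ∧ l.getD i 0 < l.getD (i + 1) 0 ∧
      k (f ((l.set (i + 1) (l.getD i 0)).set i (l.getD (i + 1) 0))) = true
  | [], _, _, h => Bool.noConfusion h
  | [_], 0, _, h => Bool.noConfusion h
  | a :: b :: t, 0, f, h => by
    have h' : bA (Nat.blt a b) (k (f (b :: a :: t))) = true := h
    rw [bA_eq, Bool.and_eq_true, Nat.blt_eq] at h'
    exact ⟨by simp, h'.1, h'.2⟩
  | a :: t, i + 1, f, h => by
    obtain ⟨h1, h2, h3⟩ := sw2_spec k t i (fun t' => f (a :: t')) h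
    exact ⟨Nat.succ_lt_succ h1, h2, h3⟩

noncomputable def rS (n i : ℕ) (w : List ℕ) (k : List ℕ → Bool) : Bool :=
  Nat.rec
    (fN (gd w (Nat.pred n)) fun a => fN (gd w 0) fun b =>
      bA (Nat.ble n a) (bA (Nat.blt a (Nat.add b n))
        (fN (Nat.sub a n) fun a' => fN (Nat.add b n) fun b' =>
          stK w 0 a' fun w1 => stK w1 (Nat.pred n) b' k)))
    (fun j _ => sw2 k w j fun t => t) i

noncomputable def rL (n : ℕ) (w0 : List ℕ) (l : List ℕ) : (List ℕ → Bool) → Bool :=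
  List.rec (fun k => k w0) (fun i _ r k => r fun w => rS n i w k) l

def shN (n : ℕ) (w : List ℕ) : List ℤ := w.map fun a : ℕ => (a : ℤ) - n * 64

theorem shN_getD {n : ℕ} {w : List ℕ} {i : ℕ} (hi : i < w.length) :
    (shN n w).getD i 0 = (w.getD i 0 : ℤ) - n * 64 := by
  simp [shN, List.getD_eq_getElem?_getD, hi]

theorem rL_spec {n : ℕ} (hn : 2 ≤ n) (s : ℕ) : ∀ (l : List ℕ) (k : List ℕ → Bool),
    rL n ((List.range n).map (· + s)) l k = true → ∃ w : List ℕ, w.length = n ∧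
      redB n ((s : ℤ) - n * 64) l = (shN n w, true) ∧ k w = true
  | [], k, h => by
    refine ⟨_, by simp, ?_, h⟩
    simp only [redB, shN, List.map_map, Prod.mk.injEq, and_true]
    refine List.map_congr_left fun a _ => ?_
    simp only [Function.comp, Nat.cast_add]
    ring
  | i :: l, k, h => by
    obtain ⟨w, hw, h1, h2⟩ := rL_spec hn s l (fun w => rS n i w k) h
    have e : redB n ((s : ℤ) - n * 64) (i :: l) = (swp n i (shN n w), true && Nat.blt i n &&
        decide (ex n n (shN n w) ((i : ℤ) - 1) < (shN n w).getD i 0)) := by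
      rw [redB, h1]
    rw [e]
    rcases i with _ | i
    · simp only [rS, bA_eq, fN_eq, stK_eq, gd_eq, Nat.rec_zero, Bool.and_eq_true, Nat.ble_eq,
        Nat.blt_eq, Nat.pred_eq_sub_one, Nat.add_eq, Nat.sub_eq] at h2
      obtain ⟨a1, a2, a3⟩ := h2
      refine ⟨_, by simp [hw], ?_, a3⟩
      have g1 := shN_getD (n := n) (w := w) (i := n - 1) (by omega)
      have g2 := shN_getD (n := n) (w := w) (i := 0) (by omega)
      have g3 : ex n n (shN n w) (((0 : ℕ) : ℤ) - 1) = (shN n w).getD (n - 1) 0 - n := by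
        have := ex_win (n := n) (r := n - 1) (by omega) n (shN n w) (-1)
        rw [show (((n - 1 : ℕ) : ℤ) + n * (-1)) = ((0 : ℕ) : ℤ) - 1 by omega] at this
        rw [this]; ring
      refine Prod.ext ?_ ?_
      · show ((shN n w).set 0 ((shN n w).getD (n - 1) 0 - n)).set (n - 1)
          ((shN n w).getD 0 0 + n) = _
        rw [g1, g2]
        simp only [shN, List.map_set]
        congr 1
        · congr 1; omega
        · omega
      · simp only [Bool.true_and, Bool.and_eq_true, Nat.blt_eq, decide_eq_true_eq]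
        rw [g3, g1, g2]
        omega
    · obtain ⟨a1, a2, a3⟩ := sw2_spec k w i _ h2
      refine ⟨_, by simp [hw], ?_, a3⟩
      have g1 := shN_getD (n := n) (w := w) (i := i) (by omega)
      have g2 := shN_getD (n := n) (w := w) (i := i + 1) (by omega)
      have g3 : ex n n (shN n w) (((i + 1 : ℕ) : ℤ) - 1) = (shN n w).getD i 0 := by
        rw [← ex_nat (show i < n by omega) n]
        congr 1; omega
      refine Prod.ext ?_ ?_
      · show ((shN n w).set (i + 1) ((shN n w).getD i 0)).set i ((shN n w).getD (i + 1) 0) = _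
        rw [g1, g2]
        simp only [shN, List.map_set]
      · simp only [Bool.true_and, Bool.and_eq_true, Nat.blt_eq, decide_eq_true_eq]
        rw [g3, g1, g2]
        omega

def datN (x : List ℕ) : List (ℤ × ℤ) :=
  [((x.getD 0 0 : ℤ) - 14, (x.getD 1 0 : ℤ)), ((x.getD 2 0 : ℤ) - 14, (x.getD 3 0 : ℤ)),
   ((x.getD 4 0 : ℤ) - 14, (x.getD 5 0 : ℤ))]

noncomputable def grpOK (D : ℕ) (γ δ : List ℕ) (g x y : ℕ) : Bool :=
  bA (Nat.beq (ct g γ) y) (Nat.beq (Nat.mul D (Nat.add x (Nat.mul 64 y)))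
    (Nat.add (Nat.mul y (gd δ g)) (Nat.mul 14 D)))

noncomputable def winOK (n D : ℕ) (w γ y δ : List ℕ) : Bool :=
  allR' (fun i => fN (gd w i) fun a => fN (Nat.mod a n) fun r => fN (gd γ i) fun g =>
    fN (gd y i) fun yi => bA (Nat.ble g 2) (bA (Nat.beq (gd γ r) g)
      (bA (Nat.beq (Nat.add (gd y r) (Nat.mul D (Nat.div a n))) (Nat.add yi (gd δ g)))
        (Nat.blt yi (bI (Nat.blt (Nat.succ i) n) (gd y (Nat.succ i)) (Nat.add (gd y 0) D)))))) n

noncomputable def permOK (n D : ℕ) (x w γ y δ : List ℕ) : Bool :=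
  bA (Nat.blt 0 D) (bA (Nat.blt (gd δ 0) (gd δ 1)) (bA (Nat.blt (gd δ 1) (gd δ 2))
    (bA (grpOK D γ δ 0 (gd x 0) (gd x 1)) (bA (grpOK D γ δ 1 (gd x 2) (gd x 3))
      (bA (grpOK D γ δ 2 (gd x 4) (gd x 5)) (winOK n D w γ y δ))))))

theorem rk_of (r : SR) {n D X δ : ℤ} {w y : ℤ → ℤ} {γ : ℤ → ℕ} (hn : 0 < n) (hw : AP n w)
    (hg : Grp n w γ) (hp : Pos n D y) (hs : StrictMono y) {g : ℕ}
    (hd : ∀ j, γ j = g → y (w j) - y j = δ) (hX : D * X = Yc n γ g * δ) {i : ℤ} (hi : γ i = g) :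
    rk γ g (w i) = rk γ g i + X := by
  have h1 := r.xc_pos (x := y) g hn hw hg hp.2.2
  have h2 : (∑ i ∈ Ico 0 n, if γ i = g then y (w i) - y i else 0) = Yc n γ g * δ := by
    rw [Yc, sum_mul]
    refine sum_congr rfl fun j _ => ?_
    split_ifs with h
    · rw [hd j h, one_mul]
    · rw [zero_mul]
  have h3 : Xc n w γ g = X := mul_left_cancel₀ hp.1.ne' (by rw [h1, h2, hX])
  rw [← h3]
  refine r.flux hn hw hg fun j hj => ?_
  rw [← hs.le_iff_le, ← hs.le_iff_le (a := w i)]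
  have := hd j hj
  have := hd i hi
  omega

theorem perm_spec (p : SP) (r : SR) {n D N : ℕ} (hn : 2 ≤ n) {x w γ y δ l : List ℕ} {s : ℤ}
    (hγ : γ.length = n) (hw : w.length = n) (hr : redB n s l = (shN n w, true))
    (h : permOK n D x w γ y δ = true) (hb : BadW n (mkU l s ++ Z n (List.replicate N 0))) :
    EntBad n N (datN x) := by
  simp only [permOK, grpOK, bA_eq, Bool.and_eq_true, Nat.blt_eq, Nat.beq_eq, gd_eq, ct_eq,
    Nat.add_eq, Nat.mul_eq] at h
  obtain ⟨h0, d01, d12, ⟨c0, x0⟩, ⟨c1, x1⟩, ⟨c2, x2⟩, hW⟩ := h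
  have hn0 : 0 < n := by omega
  set y' : List ℤ := y.map (fun a : ℕ => (a : ℤ)) with hy'
  have gy : ∀ i, y'.getD i 0 = (y.getD i 0 : ℤ) := fun i => by
    rw [hy', List.getD_eq_getElem?_getD, List.getD_eq_getElem?_getD, List.getElem?_map]
    cases y[i]? <;> simp
  have hW' : ∀ i < n, γ.getD i 0 ≤ 2 ∧ γ.getD (w.getD i 0 % n) 0 = γ.getD i 0 ∧
      y.getD (w.getD i 0 % n) 0 + D * (w.getD i 0 / n) = y.getD i 0 + δ.getD (γ.getD i 0) 0 ∧
      y.getD i 0 < if i + 1 < n then y.getD (i + 1) 0 else y.getD 0 0 + D := fun i hi => by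
    have := allR'_spec hW i hi
    simp only [fN_eq, bA_eq, bI_eq, gd_eq, Bool.and_eq_true, Nat.ble_eq, Nat.beq_eq, Nat.blt_eq,
      Nat.add_eq, Nat.mul_eq, Nat.succ_eq_add_one] at this
    refine ⟨this.1, this.2.1, this.2.2.1, ?_⟩
    have h4 := this.2.2.2
    split_ifs with hc
    · rwa [show Nat.blt (i + 1) n = true by simpa using hc, cond_true] at h4
    · rwa [show Nat.blt (i + 1) n = false from
        Bool.eq_false_iff.2 (fun e => hc (by simpa using e)), cond_false] at h4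
  have dec : ∀ i < n, (shN n w).getD i 0 =
      ((w.getD i 0 % n : ℕ) : ℤ) + n * (((w.getD i 0 / n : ℕ) : ℤ) - 64) := fun i hi => by
    rw [shN_getD (by omega)]
    have := Nat.mod_add_div (w.getD i 0) n
    have h2 : ((w.getD i 0 : ℕ) : ℤ) = ((w.getD i 0 % n : ℕ) : ℤ) + n * ((w.getD i 0 / n : ℕ) : ℤ) := by
      exact_mod_cast this.symm
    rw [mul_sub, ← add_sub_assoc, ← h2]
  have hc : ∀ g, cnt γ g n = γ.count g := fun g => by rw [cnt, List.take_of_length_le hγ.le]
  have W : Win n (datN x) (shN n w) γ y' D := by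
    refine ⟨hn, by exact_mod_cast h0, hγ, fun i hi => ?_, fun i hi => ?_, fun i hi => ?_,
      fun g hg => ?_⟩
    · have := (hW' i hi).1
      show _ < 3
      omega
    · rw [dec i hi, exg_win (Nat.mod_lt _ hn0), (hW' i hi).2.1]
    · have h4 := (hW' i hi).2.2.2
      rw [gy]
      split_ifs at h4 with hc
      · rw [show (i : ℤ) + 1 = ((i + 1 : ℕ) : ℤ) by push_cast; rfl, ex_nat hc, gy]
        exact_mod_cast h4
      · rw [show (i : ℤ) + 1 = ((0 : ℕ) : ℤ) + n * 1 by omega, ex_win hn0, gy, mul_one]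
        exact_mod_cast h4
    · rw [hc]
      have hg' : g < 3 := hg
      interval_cases g
      · exact congrArg (Nat.cast : ℕ → ℤ) c0
      · exact congrArg (Nat.cast : ℕ → ℤ) c1
      · exact congrArg (Nat.cast : ℕ → ℤ) c2
  obtain ⟨-, e1, e2⟩ := redB_ok hn s l (by rw [hr])
  rw [hr] at e1
  have C := entC_of r W (mkU_br l s) e2 e1
  have hd : ∀ j, ex n D y' (pw n (mkU l s) j) - ex n D y' j =
      (δ.getD (exg n γ j) 0 : ℤ) - D * 64 := fun j => by
    obtain ⟨i, q, hi, rfl⟩ := win hn0 j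
    rw [e1, ex_win hi, ex_add hn0, ex_win hi, exg_win hi, dec i hi, ex_win (Nat.mod_lt _ hn0), gy, gy]
    have h3 : ((y.getD (w.getD i 0 % n) 0 : ℕ) : ℤ) + D * ((w.getD i 0 / n : ℕ) : ℤ) =
        (y.getD i 0 : ℕ) + (δ.getD (γ.getD i 0) 0 : ℕ) := by exact_mod_cast (hW' i hi).2.2.1
    linarith
  have hl : ∀ j, exg n γ j ≤ 2 := fun j => by
    obtain ⟨i, q, hi, rfl⟩ := win hn0 j
    rw [exg_win hi]
    exact (hW' i hi).1
  refine ⟨mkU l s, exg n γ, ex n D y', D, C, fun i j hij => ?_, fun i => ?_, hb⟩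
  · rw [hd, hd]
    have := hl j
    have : δ.getD (exg n γ i) 0 < δ.getD (exg n γ j) 0 := by
      generalize exg n γ i = a at *
      generalize exg n γ j = b at *
      interval_cases b <;> interval_cases a <;> omega
    omega
  · refine rk_of r (δ := (δ.getD (exg n γ i) 0 : ℤ) - D * 64) (by exact_mod_cast hn0)
      (p.pw_ap _ (by exact_mod_cast hn)) C.grp C.pos C.smono (fun j hj => by rw [hd, hj]) ?_ rfl
    rw [C.yc]
    have := hl i
    have x0' := congrArg (Nat.cast : ℕ → ℤ) x0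
    have x1' := congrArg (Nat.cast : ℕ → ℤ) x1
    have x2' := congrArg (Nat.cast : ℕ → ℤ) x2
    push_cast at x0' x1' x2'
    generalize exg n γ i = a at *
    interval_cases a
    · show (D : ℤ) * ((x.getD 0 0 : ℤ) - 14) = (x.getD 1 0 : ℤ) * _
      linarith
    · show (D : ℤ) * ((x.getD 2 0 : ℤ) - 14) = (x.getD 3 0 : ℤ) * _
      linarith
    · show (D : ℤ) * ((x.getD 4 0 : ℤ) - 14) = (x.getD 5 0 : ℤ) * _
      linarith

end Pool.Agent.P.MP_5af56b_co.Tor
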