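import Pool.Agent.P.MP_5af56b_co.Tor.Fast1
import Pool.Agent.P.MP_5af56b_co.Tor.Ck

namespace Pool.Agent.P.MP_5af56b_co.Tor

open Relation

/-! ## evaluation -/

theorem evb_app (S : ES) : ∀ A B : List Lt, evb S (A ++ B) = evb (evb S B) A
  | [], _ => rfl
  | g :: A, B => by rw [List.cons_append, evb, evb, evb_app S A B]

noncomputable def sw3 (v : ℕ) (k : ℕ → ℕ → ℕ → List ℕ → Bool) (l : List ℕ) :
    ℕ → (List ℕ → List ℕ) → Bool :=
  List.rec (fun _ _ => false) (fun a t r i f =>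
    Nat.rec (List.rec false (fun o t1 _ => List.rec false
        (fun b _ _ => k a o b (f (a :: v :: t1))) t1) t)
      (fun j _ => r j (fun t' => f (a :: t'))) i) l

theorem sw3_spec (v : ℕ) (k : ℕ → ℕ → ℕ → List ℕ → Bool) :
    ∀ (l : List ℕ) (i : ℕ) (f : List ℕ → List ℕ), sw3 v k l i f = true → i + 2 < l.length ∧
      k (l.getD i 0) (l.getD (i + 1) 0) (l.getD (i + 2) 0) (f (l.set (i + 1) v)) = true
  | [], _, _, h => Bool.noConfusion h
  | [_], 0, _, h => Bool.noConfusion h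
  | [_, _], 0, _, h => Bool.noConfusion h
  | _ :: _ :: _ :: _, 0, _, h => ⟨by simp, h⟩
  | a :: t, i + 1, f, h => by
    obtain ⟨h1, h2⟩ := sw3_spec v k t i (fun t' => f (a :: t')) h
    exact ⟨Nat.succ_lt_succ h1, h2⟩

abbrev EL := List (ℕ × ℕ)

noncomputable def sS (n i : ℕ) (cur : List ℕ) (nx : ℕ) (E0 E1 : EL)
    (k : List ℕ → ℕ → EL → EL → Bool) : Bool :=
  fN (Nat.succ nx) fun nx' => Nat.rec
    (fN (gd cur 0) fun o => fN (gd cur (Nat.pred n)) fun a => fN (gd cur 1) fun b =>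
      stK cur n nx fun c1 => stK c1 0 nx fun c2 => k c2 nx' ((nx, o) :: E0) ((a, b) :: E1))
    (fun j _ => sw3 nx (fun a o b c => bI (Nat.beq (Nat.land j 1) 1)
      (k c nx' ((nx, o) :: E0) ((a, b) :: E1)) (k c nx' ((a, b) :: E0) ((nx, o) :: E1)))
      cur j fun t => t) i

noncomputable def sL (n : ℕ) (cur : List ℕ) (nx : ℕ) (E0 E1 : EL) (l : List ℕ) :
    (List ℕ → ℕ → EL → EL → Bool) → Bool :=
  List.rec (fun k => k cur nx E0 E1) (fun i _ r k => r fun c x A B => sS n i c x A B k) l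

theorem evs_s {n i c nx : ℕ} (hi : i < n) {cur top : List ℕ} {E : EL} {ok : Bool} :
    evs (.s i) ⟨n, c, cur, top, nx, E, ok⟩ = stepS i ⟨n, c, cur, top, nx, E, ok⟩ := by
  show stepS ((i : ℤ) % (n : ℤ)).toNat _ = _
  rw [← Int.natCast_mod, Int.toNat_natCast, Nat.mod_eq_of_lt hi]

theorem sL_spec {n : ℕ} (hn : 2 ≤ n) {cur top : List ℕ} (hc : cur.length = n + 1) (nx : ℕ)
    (E0 E1 : EL) : ∀ (l : List ℕ) (k : List ℕ → ℕ → EL → EL → Bool),
    sL n cur nx E0 E1 l k = true → ∃ c x A B, c.length = n + 1 ∧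
      evb ⟨n, 0, cur, top, nx, E0, true⟩ (l.map fun i : ℕ => Lt.s i) = ⟨n, 0, c, top, x, A, true⟩ ∧
      evb ⟨n, 1, cur, top, nx, E1, true⟩ (l.map fun i : ℕ => Lt.s i) = ⟨n, 1, c, top, x, B, true⟩ ∧
      k c x A B = true
  | [], _, h => ⟨cur, nx, E0, E1, hc, rfl, rfl, h⟩
  | i :: l, k, h => by
    obtain ⟨c, x, A, B, h1, h2, h3, h4⟩ :=
      sL_spec hn (top := top) hc nx E0 E1 l (fun c x A B => sS n i c x A B k) h
    have b2 : Nat.ble 2 n = true := by simpa using hn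
    rw [List.map_cons, evb, evb, h2, h3]
    rw [sS, fN_eq] at h4
    rcases i with _ | j
    · simp only [Nat.rec_zero, fN_eq, gd_eq, stK_eq] at h4
      rw [evs_s (by omega), evs_s (by omega)]
      refine ⟨_, _, _, _, by simp [h1], ?_, ?_, h4⟩
      · simp [stepS, b2]
      · simp [stepS, b2, Nat.mod_eq_of_lt (show n - 1 < n by omega)]
        rfl
    · obtain ⟨a1, a2⟩ := sw3_spec _ _ c j _ h4
      rw [evs_s (by omega), evs_s (by omega)]
      have e : (j + 1 + n - 1) % n = j := by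
        rw [show j + 1 + n - 1 = j + n by omega, Nat.add_mod_right, Nat.mod_eq_of_lt (by omega)]
      have e1 : Nat.land j 1 = j % 2 := Nat.and_one_is_mod j
      rw [bI_eq, e1] at a2
      rcases Nat.mod_two_eq_zero_or_one j with e2 | e2 <;> rw [e2] at a2
      · refine ⟨_, _, _, _, by simp [h1], ?_, ?_, a2⟩
        · simp only [stepS, e, b2, show (j + 1 + 0) % 2 = 1 by omega]
          rfl
        · simp only [stepS, e, b2, show (j + 1 + 1) % 2 = 0 by omega]
          rfl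
      · refine ⟨_, _, _, _, by simp [h1], ?_, ?_, a2⟩
        · simp only [stepS, e, b2, show (j + 1 + 0) % 2 = 0 by omega]
          rfl
        · simp only [stepS, e, b2, show (j + 1 + 1) % 2 = 1 by omega]
          rfl

noncomputable def rotK (n s : ℕ) (cur : List ℕ) (m : ℕ) : List ℕ → (List ℕ → Bool) → Bool :=
  Nat.rec (fun L k => k L)
    (fun j r L k => fN (gd cur (Nat.mod (Nat.add j s) n)) fun a => r (a :: L) k) m

theorem rotK_eq (n s : ℕ) (cur : List ℕ) : ∀ (m : ℕ) (L : List ℕ) (k : List ℕ → Bool),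
    rotK n s cur m L k = k ((List.range m).map (fun j => cur.getD ((j + s) % n) 0) ++ L)
  | 0, _, _ => rfl
  | m + 1, L, k => by
    show fN _ (fun a => rotK n s cur m (a :: L) k) = _
    rw [fN_eq, rotK_eq, gd_eq, List.range_succ, List.map_append, List.append_assoc]
    rfl

/-! ## closing up -/

theorem getD_map {f : ℕ → ℕ} {l : List ℕ} {i : ℕ} (h : i < l.length) :
    (l.map f).getD i 0 = f (l.getD i 0) := by
  simp [List.getD_eq_getElem?_getD, h]

theorem cls_spec : ∀ (k : ℕ) (S : ES), k ≤ S.cur.length → k ≤ S.top.length →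
    ∃ ρ : ℕ → ℕ, (cls k S).E = mp ρ S.E ∧ (∀ j < k, ρ (S.cur.getD j 0) = ρ (S.top.getD j 0)) ∧
      ∀ F : ℕ → ℕ, (∀ j < k, F (S.cur.getD j 0) = F (S.top.getD j 0)) → ∀ x, F (ρ x) = F x
  | 0, S, _, _ => ⟨id, by simp [cls, mp], fun _ h => absurd h (Nat.not_lt_zero _), fun _ _ _ => rfl⟩
  | k + 1, S, h1, h2 => by
    obtain ⟨ρ, e1, e2, e3⟩ := cls_spec k (S.ren (S.cur.getD k 0) (S.top.getD k 0))
      (by simp only [ES.ren, List.length_map]; omega) (by simp only [ES.ren, List.length_map]; omega)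
    set a := S.cur.getD k 0 with ha
    set b := S.top.getD k 0 with hb
    have r1 : ∀ x, rnm a b x = x ∨ (x = b ∧ rnm a b x = a) := fun x => by
      unfold rnm
      cases e : Nat.beq x b
      · exact Or.inl rfl
      · exact Or.inr ⟨Nat.eq_of_beq_eq_true e, rfl⟩
    have r2 : rnm a b b = a := by simp [rnm]
    simp only [ES.ren] at e2 e3
    refine ⟨fun x => ρ (rnm a b x), ?_, fun j hj => ?_, fun F hF x => ?_⟩
    · rw [cls, e1]
      simp only [ES.ren, mp, rnE, List.map_map]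
      rfl
    · rcases Nat.lt_succ_iff_lt_or_eq.1 hj with hj | rfl
      · have := e2 j hj
        rwa [getD_map (by omega), getD_map (by omega)] at this
      · show ρ (rnm a b a) = ρ (rnm a b b)
        rw [r2]
        rcases r1 a with e | e
        · rw [e]
        · rw [e.2]
    · have f1 : ∀ x, F (rnm a b x) = F x := fun x => by
        rcases r1 x with e | e
        · rw [e]
        · rw [e.2, e.1]
          exact hF k (Nat.lt_succ_self k)
      rw [e3 F (fun j hj => ?_), f1]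
      rw [getD_map (by omega), getD_map (by omega), f1, f1]
      exact hF j (by omega)

noncomputable def zK (a : List ℕ) : List ℕ → (EL → Bool) → Bool :=
  List.rec (fun _ k => k []) (fun x _ r b k =>
    List.rec (k []) (fun y t _ => r t fun L => k ((x, y) :: L)) b) a

theorem zK_eq : ∀ (a b : List ℕ) (k : EL → Bool), zK a b k = k (a.zip b)
  | [], _, _ => rfl
  | _ :: _, [], _ => rfl
  | x :: a, y :: b, k => zK_eq a b fun L => k ((x, y) :: L)

theorem mem_zip {a b : List ℕ} {n : ℕ} (ha : a.length = n) (hb : b.length = n) {p : ℕ × ℕ} :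
    p ∈ a.zip b ↔ ∃ j < n, p = (a.getD j 0, b.getD j 0) := by
  rw [List.mem_iff_getElem]
  constructor
  · rintro ⟨j, hj, rfl⟩
    have hj' : j < n := by simpa [ha, hb] using hj
    refine ⟨j, hj', ?_⟩
    rw [List.getElem_zip, List.getD_eq_getElem _ _ (by omega), List.getD_eq_getElem _ _ (by omega)]
  · rintro ⟨j, hj, rfl⟩
    refine ⟨j, by simpa [ha, hb] using hj, ?_⟩
    rw [List.getElem_zip, List.getD_eq_getElem _ _ (by omega), List.getD_eq_getElem _ _ (by omega)]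

/-! ## models -/

theorem model_of {H E Vt : EL} {ρ F V rt : ℕ → ℕ} (h1 : ∀ p ∈ Vt, ρ p.1 = ρ p.2)
    (h2 : ∀ x, F (ρ x) = F x)
    (h3 : ∀ v, F v ≠ 0 → v = rt (F v) ∨
      ∃ u, ((u, v) ∈ Vt ++ E ∨ (v, u) ∈ Vt ++ E) ∧ F u = F v ∧ V u < V v)
    (h4 : ∀ p ∈ H, ∃ a b, ((a, b) ∈ Vt ++ E ∨ (b, a) ∈ Vt ++ E) ∧ F a = p.1 + 1 ∧ F b = p.2 + 1) :
    SMinor (gr H) (gr (mp ρ E)) := by
  have adj : ∀ a b, ((a, b) ∈ Vt ++ E ∨ (b, a) ∈ Vt ++ E) → ρ a ≠ ρ b →
      (gr (mp ρ E)).A (ρ a) (ρ b) := fun a b h hn => by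
    refine ⟨hn, ?_⟩
    rcases h with h | h <;> rcases List.mem_append.1 h with h | h
    · exact absurd (h1 _ h) hn
    · exact Or.inl (List.mem_map_of_mem (f := Prod.map ρ ρ) h)
    · exact absurd (h1 _ h).symm hn
    · exact Or.inr (List.mem_map_of_mem (f := Prod.map ρ ρ) h)
  let U : Set ℕ := {x | F x ≠ 0 ∧ ∃ v, ρ v = x}
  have hU : ∀ v, F v ≠ 0 → ρ v ∈ U := fun v hv => ⟨by rwa [h2], v, rfl⟩
  have cn : ∀ m v, V v = m → F v ≠ 0 →
      ReflTransGen (FR (gr (mp ρ E)) U fun x => F x - 1) (ρ (rt (F v))) (ρ v) := by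
    intro m
    induction m using Nat.strong_induction_on with
    | _ m ih =>
      intro v hv hF
      rcases h3 v hF with e | ⟨u, e1, e2, e3⟩
      · rw [← e]
      · have := ih _ (hv ▸ e3) u rfl (e2 ▸ hF)
        rw [e2] at this
        by_cases e : ρ u = ρ v
        · exact e ▸ this
        · exact this.tail ⟨hU u (e2 ▸ hF), hU v hF, by simp only [h2, e2], adj _ _ e1 e⟩
  refine ⟨U, fun x => F x - 1, ?_, fun x y hxy => ?_⟩
  · rintro _ ⟨hu, u, rfl⟩ _ ⟨hv, v, rfl⟩ e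
    simp only [h2] at hu hv e
    have e' : F u = F v := by omega
    exact (rtg_symm (fun _ _ h => h.symm) (cn _ u rfl hu)).trans (e' ▸ cn _ v rfl hv)
  · have key : ∀ x y, x ≠ y → (x, y) ∈ H → ∃ u ∈ U, ∃ v ∈ U, F u - 1 = x ∧ F v - 1 = y ∧
        (gr (mp ρ E)).A u v := fun x y hn h => by
      obtain ⟨a, b, e1, e2, e3⟩ := h4 _ h
      simp only at e2 e3
      refine ⟨_, hU a (by omega), _, hU b (by omega), by rw [h2]; omega, by rw [h2]; omega,
        adj _ _ e1 fun e => hn ?_⟩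
      have := h2 a
      rw [e, h2] at this
      omega
    rcases hxy.2 with h | h
    · exact key _ _ hxy.1 h
    · obtain ⟨u, hu, v, hv, e1, e2, e3⟩ := key _ _ hxy.1.symm h
      exact ⟨v, hv, u, hu, e2, e1, (gr _).symm _ _ e3⟩

noncomputable def fM (x : ℕ) (k : ℕ → ℕ) : ℕ := Nat.rec (k 0) (fun n _ => k (Nat.succ n)) x

theorem fM_eq (x : ℕ) (k : ℕ → ℕ) : fM x k = k x := by cases x <;> rfl

def vv (V a : ℕ) : ℕ := Nat.land (Nat.shiftRight V (Nat.mul 8 a)) 255
def sup (a : ℕ) : ℕ := Nat.shiftLeft (Nat.shiftLeft 255 256) (Nat.mul 8 a)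

noncomputable def cg (b x y : ℕ) : ℕ :=
  bI (Nat.beq (Nat.shiftRight x 4) (Nat.shiftRight y 4)) (sup b)
    (Nat.shiftLeft 1 (Nat.add (Nat.land x 240) (Nat.shiftRight y 4)))

noncomputable def ctb (V a b : ℕ) : ℕ :=
  fM (vv V a) fun x => fM (vv V b) fun y =>
    bI (Nat.blt x y) (cg b x y) (bI (Nat.blt y x) (cg a y x) 0)

noncomputable def prc (V T : ℕ) (E : EL) : ℕ :=
  List.rec T (fun e _ r => Nat.lor r (ctb V e.1 e.2)) E

noncomputable def rts (V R k : ℕ) : ℕ :=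
  Nat.rec 0 (fun h r => Nat.lor r (fM (vv R h) fun a =>
    bI (Nat.beq (Nat.shiftRight (vv V a) 4) (Nat.succ h)) (sup a) 0)) k

noncomputable def vq (V : ℕ) (E : EL) : Bool :=
  List.rec true (fun e _ r =>
    bA (Nat.beq (Nat.shiftRight (vv V e.1) 4) (Nat.shiftRight (vv V e.2) 4)) r) E

def hms : List ℕ := [
  0x40006000300040002200110008800640000,
  0x4000600030004400220011000e800000000,
  0x4000600030004400320000001f000000000,
  0x40004000180044001e0000001f000000000,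
  0x400040000000300044003200000077000000000,
  0x100018001c001e0000001f000000000,
  0x40004000180044001a0000001a000540000,
  0x3c005c006c0074007800000]

theorem hms_spec : ∀ h < 8, ∀ p ∈ LL.getD h [], p.1 < 10 ∧ p.2 < 10 ∧
    ((hms.getD h 0).testBit (16 * (p.1 + 1) + (p.2 + 1)) = true ∨
      (hms.getD h 0).testBit (16 * (p.2 + 1) + (p.1 + 1)) = true) := by decide +kernel

noncomputable def badF (C : ℕ) (Vt E : EL) : Bool :=
  fN (Nat.shiftRight C 83) fun V => bA (vq V Vt)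
    (fN (Nat.lor (Nat.shiftLeft V 256) (gd hms (Nat.land C 7))) fun M =>
      Nat.beq (Nat.land M (prc V (prc V (rts V (Nat.shiftRight C 3) 10) E) Vt)) M)

theorem vv_lt (V a : ℕ) : vv V a < 256 := Nat.lt_succ_of_le Nat.and_le_right

theorem tb_sup {a i : ℕ} (h : (sup a).testBit i = true) : 256 + 8 * a ≤ i ∧ i < 264 + 8 * a := by
  have h' : ((255 <<< 256) <<< (8 * a)).testBit i = true := h
  rw [← Nat.shiftLeft_add, Nat.testBit_shiftLeft, show (255 : ℕ) = 2 ^ 8 - 1 from rfl,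
    Nat.testBit_two_pow_sub_one] at h'
  simp only [Bool.and_eq_true, decide_eq_true_eq] at h'
  omega

theorem tb_cg {b x y i : ℕ} (hx : x < 256) (h : (cg b x y).testBit i = true) :
    (x / 16 = y / 16 ∧ 256 + 8 * b ≤ i ∧ i < 264 + 8 * b) ∨ i = 16 * (x / 16) + y / 16 := by
  have e : ∀ x : ℕ, Nat.shiftRight x 4 = x / 16 := fun x => Nat.shiftRight_eq_div_pow x 4
  have e2 : ∀ x < 256, Nat.land x 240 = 16 * (x / 16) := by decide +kernel
  rw [cg, bI_eq, e, e, e2 x hx] at h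
  cases c : Nat.beq (x / 16) (y / 16) <;> rw [c] at h
  · exact Or.inr (tb_one.1 h)
  · exact Or.inl ⟨Nat.eq_of_beq_eq_true c, tb_sup h⟩

/-- what a set bit certifies -/
def Wit (V : ℕ) (E : EL) (i : ℕ) : Prop :=
  ∃ a b, ((a, b) ∈ E ∨ (b, a) ∈ E) ∧ vv V a < vv V b ∧
    ((vv V a / 16 = vv V b / 16 ∧ 256 + 8 * b ≤ i ∧ i < 264 + 8 * b) ∨
      i = 16 * (vv V a / 16) + vv V b / 16)

theorem tb_prc {V T i : ℕ} : ∀ {E : EL}, (prc V T E).testBit i = true →
    T.testBit i = true ∨ Wit V E i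
  | [], h => Or.inl h
  | (a, b) :: E, h => by
    have h' : (Nat.lor (prc V T E) (ctb V a b)).testBit i = true := h
    rcases tb_lor.1 h' with h | h
    · refine (tb_prc h).imp id ?_
      rintro ⟨x, y, h1, h2⟩
      exact ⟨x, y, h1.imp (List.mem_cons_of_mem _) (List.mem_cons_of_mem _), h2⟩
    · right
      rw [ctb, fM_eq, fM_eq, bI_eq, bI_eq] at h
      cases c : Nat.blt (vv V a) (vv V b) <;> rw [c] at h
      · cases d : Nat.blt (vv V b) (vv V a) <;> rw [d] at h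
        · simp at h
        · exact ⟨b, a, Or.inr List.mem_cons_self, by simpa using d, tb_cg (vv_lt _ _) h⟩
      · exact ⟨a, b, Or.inl List.mem_cons_self, by simpa using c, tb_cg (vv_lt _ _) h⟩

theorem tb_rts {V R i : ℕ} : ∀ {k : ℕ}, (rts V R k).testBit i = true →
    ∃ h, vv V (vv R h) / 16 = h + 1 ∧ 256 + 8 * vv R h ≤ i ∧ i < 264 + 8 * vv R h
  | 0, h => by simp [rts] at h
  | k + 1, h => by
    have h' : (Nat.lor (rts V R k) (fM (vv R k) fun a =>
      bI (Nat.beq (Nat.shiftRight (vv V a) 4) (Nat.succ k)) (sup a) 0)).testBit i = true := h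
    rcases tb_lor.1 h' with h | h
    · exact tb_rts h
    · rw [fM_eq, bI_eq] at h
      cases c : Nat.beq (Nat.shiftRight (vv V (vv R k)) 4) (Nat.succ k) <;> rw [c] at h
      · simp at h
      · exact ⟨k, (Nat.shiftRight_eq_div_pow _ 4).symm.trans (Nat.eq_of_beq_eq_true c), tb_sup h⟩

theorem vq_spec {V : ℕ} : ∀ {E : EL}, vq V E = true → ∀ p ∈ E, vv V p.1 / 16 = vv V p.2 / 16
  | [], _, _, h => by simp at h
  | e :: E, h, p, hp => by
    have h' : bA (Nat.beq (Nat.shiftRight (vv V e.1) 4) (Nat.shiftRight (vv V e.2) 4))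
      (vq V E) = true := h
    rw [bA_eq, Bool.and_eq_true] at h'
    rcases List.mem_cons.1 hp with rfl | hp
    · exact (Nat.shiftRight_eq_div_pow _ 4).symm.trans
        ((Nat.eq_of_beq_eq_true h'.1).trans (Nat.shiftRight_eq_div_pow _ 4))
    · exact vq_spec h'.2 p hp

theorem badF_spec {C : ℕ} {Vt E : EL} {ρ : ℕ → ℕ} (h1 : ∀ p ∈ Vt, ρ p.1 = ρ p.2)
    (h2 : ∀ F : ℕ → ℕ, (∀ p ∈ Vt, F p.1 = F p.2) → ∀ x, F (ρ x) = F x)
    (h : badF C Vt E = true) : Bad (gr (mp ρ E)) := by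
  rw [badF, fN_eq, bA_eq, Bool.and_eq_true, fN_eq, gd_eq, Nat.beq_eq] at h
  obtain ⟨q, h⟩ := h
  generalize Nat.shiftRight C 83 = V at q h
  generalize Nat.shiftRight C 3 = R at h
  have h8 : Nat.land C 7 < 8 := Nat.lt_succ_of_le Nat.and_le_right
  generalize Nat.land C 7 = g at h h8
  have tb : ∀ i, (Nat.lor (Nat.shiftLeft V 256) (hms.getD g 0)).testBit i = true →
      (∃ h, vv V (vv R h) / 16 = h + 1 ∧ 256 + 8 * vv R h ≤ i ∧ i < 264 + 8 * vv R h) ∨
        Wit V (Vt ++ E) i := fun i hi => by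
    rw [← h] at hi
    have hi' := (Nat.testBit_and _ _ i).symm.trans hi
    rw [Bool.and_eq_true] at hi'
    rcases tb_prc hi'.2 with a | ⟨x, y, a, b⟩
    · rcases tb_prc a with a | ⟨x, y, a, b⟩
      · exact Or.inl (tb_rts a)
      · exact Or.inr ⟨x, y, a.imp (List.mem_append_right _) (List.mem_append_right _), b⟩
    · exact Or.inr ⟨x, y, a.imp (List.mem_append_left _) (List.mem_append_left _), b⟩
  have hm : LL.getD g [] ∈ LL := by
    rw [List.getD_eq_getElem _ _ h8]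
    exact List.getElem_mem _
  refine ⟨_, hm, model_of (F := fun a => vv V a / 16) (V := vv V) (rt := fun h => vv R (h - 1)) h1
    (h2 (fun a => vv V a / 16) (vq_spec q)) (fun v hv => ?_) fun p hp => ?_⟩
  · have hv' : vv V v ≠ 0 := fun e => hv (by simp only [e])
    obtain ⟨j, hj⟩ := Nat.exists_testBit_of_ne_zero hv'
    have hj' : ((V >>> (8 * v)) &&& (2 ^ 8 - 1)).testBit j = true := hj
    rw [Nat.testBit_and, Nat.testBit_two_pow_sub_one, Nat.testBit_shiftRight, Bool.and_eq_true,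
      decide_eq_true_eq] at hj'
    have : (Nat.shiftLeft V 256).testBit (256 + (8 * v + j)) = true := by
      show (V <<< 256).testBit _ = true
      rw [Nat.testBit_shiftLeft, Nat.add_sub_cancel_left, hj'.1]
      simp
    rcases tb _ (tb_lor.2 (Or.inl this)) with ⟨g, a1, a2, a3⟩ | ⟨a, b, a1, a2, a3 | a3⟩
    · have e : v = vv R g := by omega
      left
      show v = vv R (vv V v / 16 - 1)
      rw [← e] at a1
      rw [a1, Nat.add_sub_cancel, ← e]
    · have e : b = v := by omega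
      subst e
      exact Or.inr ⟨a, a1, a3.1, a2⟩
    · have := vv_lt V a
      have := vv_lt V b
      omega
  · obtain ⟨p1, p2, p4⟩ := hms_spec g h8 p hp
    rcases p4 with p4 | p4 <;>
      rcases tb _ (tb_lor.2 (Or.inr p4)) with ⟨g, a1, a2, a3⟩ | ⟨a, b, a1, a2, a3 | a3⟩
    · omega
    · omega
    · have := vv_lt V b
      exact ⟨a, b, a1, by omega, by omega⟩
    · omega
    · omega
    · have := vv_lt V b
      exact ⟨b, a, a1.symm, by omega, by omega⟩

/-! ## table entries -/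

structure ZD where
  c0 : ℕ
  c1 : ℕ
  nx : ℕ
  cur : List ℕ
  top : List ℕ
  E0 : EL
  E1 : EL

def esB (S : ES) (n c : ℕ) (cur top : List ℕ) (nx : ℕ) (E : EL) : Bool :=
  Nat.beq S.n n && Nat.beq S.c c && decide (S.cur = cur) && decide (S.top = top) &&
    Nat.beq S.nx nx && decide (S.E = E) && S.ok

theorem esB_spec {S : ES} {n c cur top nx E} (h : esB S n c cur top nx E = true) :
    S = ⟨n, c, cur, top, nx, E, true⟩ := by
  obtain ⟨_, _, _, _, _, _, _⟩ := S
  simp only [esB, Bool.and_eq_true, Nat.beq_eq, decide_eq_true_eq] at h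
  obtain ⟨⟨⟨⟨⟨⟨rfl, rfl⟩, rfl⟩, rfl⟩, rfl⟩, rfl⟩, rfl⟩ := h
  rfl

def ZD.ok (z : ZD) (n N : ℕ) : Bool :=
  Nat.ble 2 n && Nat.beq (n % 2) 0 && Nat.beq z.top.length (n + 1) &&
    esB (evb (es0 n 0) (Z n (List.replicate N 0))) n z.c0 z.cur z.top z.nx z.E0 &&
    esB (evb (es0 n 1) (Z n (List.replicate N 0))) n z.c1 z.cur z.top z.nx z.E1

noncomputable def evF (n c0 c1 nx : ℕ) (cur top : List ℕ) (E0 E1 : EL) (l : List ℕ)
    (s C0 C1 : ℕ) : Bool :=
  fN (Nat.mod s n) fun k => bA (Nat.beq (Nat.mod (Nat.add c0 k) 2) 0)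
    (bA (Nat.beq (Nat.mod (Nat.add c1 k) 2) 1) (rotK n k cur (Nat.succ n) [] fun c =>
      sL n c nx E0 E1 l fun c' _ A B => zK c' top fun Vt => bA (badF C0 Vt A) (badF C1 Vt B)))

theorem evF_spec (b2 : SB2) (ev : SEv) {z : ZD} {n N : ℕ} (hz : z.ok n N = true) {l : List ℕ}
    {s C0 C1 : ℕ} (h : evF n z.c0 z.c1 z.nx z.cur z.top z.E0 z.E1 l s C0 C1 = true) :
    BadW n (mkU l ((s : ℤ) - n * 64) ++ Z n (List.replicate N 0)) := by
  simp only [ZD.ok, Bool.and_eq_true, Nat.ble_eq, Nat.beq_eq] at hz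
  obtain ⟨⟨⟨⟨hn, he⟩, ht⟩, z0⟩, z1⟩ := hz
  rw [evF, fN_eq, bA_eq, bA_eq, rotK_eq, Bool.and_eq_true, Bool.and_eq_true, Nat.beq_eq,
    Nat.beq_eq, List.append_nil] at h
  obtain ⟨p0, p1, h⟩ := h
  obtain ⟨c, x, A, B, h1, h2, h3, h4⟩ := sL_spec hn (top := z.top) (by simp) _ _ _ l _ h
  rw [zK_eq, bA_eq, Bool.and_eq_true] at h4
  have b : Nat.ble 2 n = true := by simpa using hn
  have k : (((s : ℤ) - n * 64) % (n : ℤ)).toNat = s % n := by
    rw [Int.sub_mul_emod_self_left, ← Int.natCast_mod, Int.toNat_natCast]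
  have main : ∀ (c0 c' C : ℕ) (E A : EL), c0 ≤ 1 → (c' + s % n) % 2 = c0 →
      evb (es0 n c0) (Z n (List.replicate N 0)) = ⟨n, c', z.cur, z.top, z.nx, E, true⟩ →
      evb ⟨n, c0, (List.range n.succ).map fun j => z.cur.getD ((j + s % n) % n) 0,
        z.top, z.nx, E, true⟩ (l.map fun i : ℕ => Lt.s i) = ⟨n, c0, c, z.top, x, A, true⟩ →
      badF C (c.zip z.top) A = true → ∀ E', Free n c0
        (mkU l ((s : ℤ) - n * 64) ++ Z n (List.replicate N 0)) E' → Bad (gr E') := by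
    intro c0 c' C E A q1 q2 q3 q4 q5 E' hE
    have e : evb (es0 n c0) (mkU l ((s : ℤ) - n * 64) ++ Z n (List.replicate N 0)) =
        ⟨n, c0, c, z.top, x, A, true⟩ := by
      rw [evb_app, q3, mkU, evb_app, ← q4]
      congr 1
      show stepT (((s : ℤ) - n * 64) % (n : ℤ)).toNat _ = _
      rw [k, ← q2]
      show ES.mk n _ _ _ _ _ (true && Nat.ble 2 n) = _
      rw [b]
      rfl
    have f := ev n c0 _ (show evOK n c0
      (mkU l ((s : ℤ) - n * 64) ++ Z n (List.replicate N 0)) = true by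
        simp [evOK, e, he, q1])
    rw [evE, e] at f
    obtain ⟨ρ, r1, r2, r3⟩ := cls_spec (n + 1) ⟨n, c0, c, z.top, x, A, true⟩ h1.ge ht.ge
    rw [r1] at f
    refine (b2.uniq f hE).2.1 (badF_spec (fun p hp => ?_) (fun F hF => r3 F fun j hj => ?_) q5)
    · obtain ⟨j, hj, rfl⟩ := (mem_zip h1 ht).1 hp
      exact r2 j hj
    · exact hF _ ((mem_zip h1 ht).2 ⟨j, hj, rfl⟩)
  intro c0 E hE
  rcases Ckaux.col hE with rfl | rfl
  · exact main 0 _ _ _ _ (by omega) p0 (esB_spec z0) h2 h4.1 E hE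
  · exact main 1 _ _ _ _ (by omega) p1 (esB_spec z1) h3 h4.2 E hE

noncomputable def entF (n c0 c1 nx : ℕ) (cur top : List ℕ) (E0 E1 : EL) (x : List ℕ)
    (A C0 C1 : ℕ) : Bool :=
  fN (Nat.land A 65535) fun s => fN (Nat.land (Nat.shiftRight A 16) 65535) fun D =>
    dgK 16 65535 3 (Nat.shiftRight A 32) fun δ => dgK 2 3 n (Nat.shiftRight A 80) fun γ =>
      dgK 8 255 n (Nat.shiftRight A 100) fun y =>
        dgK 4 15 (Nat.land (Nat.shiftRight A 180) 255) (Nat.shiftRight A 188) fun l =>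
          fL ((List.range n).map (· + s)) fun w0 => fL x fun x' =>
            bA (rL n w0 l fun w => fL w fun w' => permOK n D x' w' γ y δ)
              (evF n c0 c1 nx cur top E0 E1 l s C0 C1)

structure Ctx : Prop where
  b2 : SB2
  ev : SEv
  p : SP
  r : SR
  ent : SEnt

theorem entF_spec (X : Ctx) {z : ZD} {n N : ℕ} (hz : z.ok n N = true) {x : List ℕ} {A C0 C1 : ℕ}
    (h : entF n z.c0 z.c1 z.nx z.cur z.top z.E0 z.E1 x A C0 C1 = true) : EntBad n N (datN x) := by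
  rw [entF, fN_eq, fN_eq] at h
  obtain ⟨δ, -, h⟩ := dgK_spec _ _ _ _ _ h
  obtain ⟨γ, hγ, h⟩ := dgK_spec _ _ _ _ _ h
  obtain ⟨y, -, h⟩ := dgK_spec _ _ _ _ _ h
  obtain ⟨l, -, h⟩ := dgK_spec _ _ _ _ _ h
  rw [fL_eq, fL_eq, bA_eq, Bool.and_eq_true] at h
  have hn : 2 ≤ n := by
    simp only [ZD.ok, Bool.and_eq_true, Nat.ble_eq] at hz
    exact hz.1.1.1.1
  obtain ⟨w, hw, h1, h2⟩ := rL_spec hn _ l _ h.1
  rw [fL_eq] at h2
  exact perm_spec X.p X.r hn hγ hw h1 h2 (evF_spec X.b2 X.ev hz h.2)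

noncomputable def fP (l : EL) : (EL → Bool) → Bool :=
  List.rec (fun k => k []) (fun e _ r k => fN e.1 fun a => fN e.2 fun b =>
    r fun t => k ((a, b) :: t)) l

theorem fP_eq : ∀ (l : EL) (k : EL → Bool), fP l k = k l
  | [], _ => rfl
  | (a, b) :: l, k => by
    show fN a (fun a' => fN b fun b' => fP l fun t => k ((a', b') :: t)) = _
    rw [fN_eq, fN_eq, fP_eq]

abbrev TT := List (ℕ × ℕ × ℕ × ℕ)

noncomputable def allT (f : ℕ × ℕ × ℕ × ℕ → Bool) (T : TT) : Bool :=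
  List.rec true (fun e _ r => bA (f e) r) T

theorem allT_spec {f : ℕ × ℕ × ℕ × ℕ → Bool} : ∀ {T : TT}, allT f T = true → ∀ e ∈ T, f e = true
  | [], _, _, h => by simp at h
  | a :: T, h, e, he => by
    have h' : bA (f a) (allT f T) = true := h
    rw [bA_eq, Bool.and_eq_true] at h'
    rcases List.mem_cons.1 he with rfl | he
    · exact h'.1
    · exact allT_spec h'.2 e he

noncomputable def allF (xs : ℕ → ℕ → List ℕ) (z : ZD) (n : ℕ) (T : TT) : Bool :=
  fN n fun n => fN z.c0 fun c0 => fN z.c1 fun c1 => fN z.nx fun nx => fL z.cur fun cur =>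
    fL z.top fun top => fP z.E0 fun E0 => fP z.E1 fun E1 =>
      allT (fun e => entF n c0 c1 nx cur top E0 E1 (xs n e.1) e.2.1 e.2.2.1 e.2.2.2) T

theorem allF_spec (X : Ctx) {xs : ℕ → ℕ → List ℕ} {z : ZD} {n N : ℕ} (hz : z.ok n N = true)
    {T : TT} (h : allF xs z n T = true) : ∀ e ∈ T, EntBad n N (datN (xs n e.1)) := by
  simp only [allF, fN_eq, fL_eq, fP_eq] at h
  exact fun e he => entF_spec X hz (allT_spec h e he)

def xs2 (n k : ℕ) : List ℕ := [k % 32, k / 32 % 32, k / 1024, n - k / 32 % 32, 14, 0]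
def xs3 (_ k : ℕ) : List ℕ :=
  [k % 32, k / 32 % 32, k / 1024 % 32, k / 32768 % 32, k / 1048576 % 32, k / 33554432]

def mskN (n : ℕ) : TT → ℕ
  | [] => 0
  | e :: T => Nat.lor (bif Nat.ble (e.1 / 32 % 32) n then one e.1 else 0) (mskN n T)

theorem h2_of (X : Ctx) {z : ZD} {n N : ℕ} (hz : z.ok n N = true) {T : TT}
    (h : allF xs2 z n T = true) : H2 n N (mskN n T) := by
  have H := allF_spec X hz h
  clear h
  induction T with
  | nil => intro k hk; simp [mskN] at hk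
  | cons e T ih =>
    intro k hk
    rcases tb_lor.1 hk with hk | hk
    · cases c : Nat.ble (e.1 / 32 % 32) n <;> rw [c] at hk
      · simp at hk
      · have e1 := tb_one.1 hk
        have e2 := H e List.mem_cons_self
        rw [Nat.ble_eq] at c
        rw [e1, dat2, ← Nat.cast_sub c]
        exact e2
    · exact ih (fun e he => H e (List.mem_cons_of_mem _ he)) k hk

theorem h2_lor {n N a b : ℕ} (ha : H2 n N a) (hb : H2 n N b) : H2 n N (Nat.lor a b) :=
  fun k hk => (tb_lor.1 hk).elim (ha k) (hb k)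

theorem h3_of (X : Ctx) {z : ZD} {n N : ℕ} (hz : z.ok n N = true) {T : TT}
    (h : allF xs3 z n T = true) : H3 n N (T.map fun e => datN (xs3 n e.1)) := by
  intro q hq
  obtain ⟨e, he, rfl⟩ := List.mem_map.1 hq
  exact allF_spec X hz h e he

end Pool.Agent.P.MP_5af56b_co.Tor
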