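import Pool.Agent.P.MP_5af56b_co.Tor.Stmt

namespace Pool.Agent.P.MP_5af56b_co.Tor

open Relation

namespace Finaux

theorem mem_star {v a b c x y : ℕ}
    (h : s(x, y) ∈ ({s(v, a), s(v, b), s(v, c)} : Multiset (Sym2 ℕ))) :
    (x = v ∧ T3 a b c y) ∨ (y = v ∧ T3 a b c x) := by
  simp only [Multiset.insert_eq_cons, Multiset.mem_cons, Multiset.mem_singleton,
    Sym2.eq_iff] at h
  unfold T3
  omega

theorem star_mem {v a b c x : ℕ} (h : T3 a b c x) :
    s(v, x) ∈ ({s(v, a), s(v, b), s(v, c)} : Multiset (Sym2 ℕ)) := by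
  rcases h with rfl | rfl | rfl <;> simp

theorem mem_tri {a b c x y : ℕ}
    (h : s(x, y) ∈ ({s(a, b), s(b, c), s(c, a)} : Multiset (Sym2 ℕ))) :
    T3 a b c x ∧ T3 a b c y := by
  simp only [Multiset.insert_eq_cons, Multiset.mem_cons, Multiset.mem_singleton,
    Sym2.eq_iff] at h
  unfold T3
  omega

theorem tri_mem {a b c x y : ℕ} (hx : T3 a b c x) (hy : T3 a b c y) (hxy : x ≠ y) :
    s(x, y) ∈ ({s(a, b), s(b, c), s(c, a)} : Multiset (Sym2 ℕ)) := by
  simp only [Multiset.insert_eq_cons, Multiset.mem_cons, Multiset.mem_singleton,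
    Sym2.eq_iff]
  unfold T3 at hx hy
  omega

/-- `S` has a star at `v` where `T` has a triangle -/
structure ST (S T : MG) (a b c v : ℕ) : Prop where
  nb : ∀ x, (si S).A v x → T3 a b c x
  nb' : ∀ x, T3 a b c x → (si S).A v x
  nv : ∀ x, ¬ (si T).A v x
  st : ∀ x y, (si S).A x y → x ≠ v → y ≠ v → (si T).A x y
  tri : ∀ x y, T3 a b c x → T3 a b c y → x ≠ y → (si T).A x y
  ts : ∀ x y, (si T).A x y → ¬ (T3 a b c x ∧ T3 a b c y) → (si S).A x y

theorem mkST {S T : MG} {a b c v : ℕ} {R : Multiset (Sym2 ℕ)} (hv : v ∉ T.V)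
    (hS : S.E = {s(v, a), s(v, b), s(v, c)} + R) (hT : T.E = {s(a, b), s(b, c), s(c, a)} + R) :
    ST S T a b c v := by
  have hR : ∀ e ∈ R, e ∈ T.E := fun e he => by rw [hT]; exact Multiset.mem_add.2 (Or.inr he)
  refine ⟨fun x hx => ?_, fun x hx => ?_, fun x hx => hv (MG.left_mem hx), fun x y h hx hy => ?_,
    fun x y hx hy hxy => ?_, fun x y h hn => ?_⟩
  · have hne : v ≠ x := MG.ne_of_mem hx
    have hx' : s(v, x) ∈ S.E := hx
    rw [hS, Multiset.mem_add] at hx'
    rcases hx' with h | h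
    · rcases mem_star h with h | h
      · exact h.2
      · exact absurd h.1.symm hne
    · exact absurd (MG.left_mem (hR _ h)) hv
  · show s(v, x) ∈ S.E
    rw [hS]
    exact Multiset.mem_add.2 (Or.inl (star_mem hx))
  · have h' : s(x, y) ∈ S.E := h
    rw [hS, Multiset.mem_add] at h'
    rcases h' with h' | h'
    · rcases mem_star h' with h' | h'
      · exact absurd h'.1 hx
      · exact absurd h'.1 hy
    · exact hR _ h'
  · show s(x, y) ∈ T.E
    rw [hT]
    exact Multiset.mem_add.2 (Or.inl (tri_mem hx hy hxy))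
  · have h' : s(x, y) ∈ T.E := h
    rw [hT, Multiset.mem_add] at h'
    rcases h' with h' | h'
    · exact absurd (mem_tri h') hn
    · show s(x, y) ∈ S.E
      rw [hS]
      exact Multiset.mem_add.2 (Or.inr h')

theorem rd_step {G H : MG} (h : Step G H) (hH : Rd (si H)) : Rd (si G) := by
  obtain ⟨n, hn⟩ := hH
  cases h with
  | deltaY a b c w R h1 h2 h3 h4 =>
    have s := mkST h1 h4 h3
    exact ⟨n + 1, Red.dy n _ _ a b c w s.nv s.ts s.nb' hn⟩
  | yDelta a b c v R h1 h2 h3 h4 =>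
    have s := mkST h1 h3 h4
    exact ⟨n + 1, Red.elim n _ _ v a b c s.nb s.st
      (fun x y hx hy hxy => s.tri x y (s.nb x hx) (s.nb y hy) hxy) hn⟩
  | parallel a b R h1 h2 h3 =>
    refine Rd.minor ⟨n, hn⟩ (sminor_of_sub fun x y hxy => ?_)
    have h' : s(x, y) ∈ G.E := hxy
    show s(x, y) ∈ H.E
    rw [h2] at h'
    rw [h3]
    simpa using h'
  | series a b v R h1 h2 h3 h4 =>
    have hR : ∀ e ∈ R, e ∈ H.E := fun e he => by rw [h4]; exact Multiset.mem_add.2 (Or.inr he)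
    have nb : ∀ x, (si G).A v x → T3 a b b x := by
      intro x hx
      have hne : v ≠ x := MG.ne_of_mem hx
      have hx' : s(v, x) ∈ G.E := hx
      rw [h3, Multiset.mem_add] at hx'
      rcases hx' with h | h
      · simp only [Multiset.insert_eq_cons, Multiset.mem_cons, Multiset.mem_singleton,
          Sym2.eq_iff] at h
        unfold T3
        omega
      · exact absurd (MG.left_mem (hR _ h)) h1
    refine ⟨n + 1, Red.elim n _ _ v a b b nb (fun x y h hx hy => ?_) (fun x y hx hy hxy => ?_) hn⟩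
    · have h' : s(x, y) ∈ G.E := h
      rw [h3, Multiset.mem_add] at h'
      rcases h' with h' | h'
      · simp only [Multiset.insert_eq_cons, Multiset.mem_cons, Multiset.mem_singleton,
          Sym2.eq_iff] at h'
        omega
      · exact hR _ h'
    · have hx' := nb x hx
      have hy' := nb y hy
      show s(x, y) ∈ H.E
      rw [h4]
      refine Multiset.mem_add.2 (Or.inl ?_)
      simp only [Multiset.mem_singleton, Sym2.eq_iff]
      unfold T3 at hx' hy'
      omega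

theorem rd (a1 : SA1) {G : MG} (h : Reducible G) : Rd (si G) := by
  obtain ⟨K, h1, a, b, h2, -⟩ := h
  induction h1 using ReflTransGen.head_induction_on with
  | refl =>
    refine a1.small _ a b a b fun x y hxy => ?_
    have := MG.left_mem (G := K) hxy
    rw [h2] at this
    simp only [Finset.mem_insert, Finset.mem_singleton] at this
    omega
  | head hs _ ih => exact rd_step hs ih

theorem sm {H G : MG} (hm : IsMinor H G) : SMinor (si H) (si G) := by
  obtain ⟨U, f, F, -, -, hc, hF, hFU, hE⟩ := hm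
  refine ⟨(U : Set ℕ), f, fun u hu v hv e => ?_, fun x y h => ?_⟩
  · exact ReflTransGen.mono
      (fun a b h => (⟨h.1.1, h.2.1.1, h.1.2.trans h.2.1.2.symm, h.2.2⟩ : FR (si G) U f a b))
      _ _ (hc (f u) u ⟨hu, rfl⟩ v ⟨hv, e.symm⟩)
  · have h' : s(x, y) ∈ H.E := h
    rw [hE, Multiset.mem_map] at h'
    obtain ⟨e, he, h'⟩ := h'
    induction e using Sym2.ind with
    | h u v =>
    have hu := hFU _ he u (by simp)
    have hv := hFU _ he v (by simp)
    have hG : s(u, v) ∈ G.E := Multiset.mem_of_le hF he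
    rw [Sym2.map_mk] at h'
    rcases Sym2.eq_iff.1 h' with ⟨h1, h2⟩ | ⟨h1, h2⟩
    · exact ⟨u, hu, v, hv, h1, h2, hG⟩
    · exact ⟨v, hv, u, hu, h2, h1, (si G).symm _ _ hG⟩

theorem ms {L : List (ℕ × ℕ)} {G : MG} (hN : (ofList L).E.Nodup) (hm : SMinor (gr L) (si G)) :
    IsMinor (ofList L) G := by
  classical
  obtain ⟨U, f, M⟩ := hm
  set U' : Finset ℕ := G.V.filter (fun u => u ∈ U ∧ f u ∈ (ofList L).V) with hU'
  have mU : ∀ u, u ∈ U' ↔ u ∈ G.V ∧ u ∈ U ∧ f u ∈ (ofList L).V := fun u => Finset.mem_filter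
  have edge : ∀ x y, s(x, y) ∈ (ofList L).E →
      ∃ u ∈ U', ∃ v ∈ U', f u = x ∧ f v = y ∧ s(u, v) ∈ G.E := by
    intro x y h
    obtain ⟨u, hu, v, hv, rfl, rfl, hA⟩ := M.edge x y (ofList_E.1 h)
    exact ⟨u, (mU u).2 ⟨MG.left_mem hA, hu, MG.left_mem h⟩, v,
      (mU v).2 ⟨MG.right_mem hA, hv, MG.right_mem h⟩, rfl, rfl, hA⟩
  have ex : ∀ e : Sym2 ℕ, ∃ e' : Sym2 ℕ, e ∈ (ofList L).E →
      e' ∈ G.E ∧ (∀ v ∈ e', v ∈ U') ∧ Sym2.map f e' = e := by
    intro e
    induction e using Sym2.ind with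
    | h x y =>
    by_cases h : s(x, y) ∈ (ofList L).E
    · obtain ⟨u, hu, v, hv, rfl, rfl, hA⟩ := edge x y h
      refine ⟨s(u, v), fun _ => ⟨hA, fun w hw => ?_, Sym2.map_mk _ _ _⟩⟩
      rcases Sym2.mem_iff.1 hw with rfl | rfl
      · exact hu
      · exact hv
    · exact ⟨s(x, y), fun h' => absurd h' h⟩
  choose g hg using ex
  refine ⟨U', f, (ofList L).E.map g, Finset.filter_subset _ _, ?_, ?_, ?_, ?_, ?_⟩
  · ext x
    rw [Finset.mem_image]
    constructor
    · intro hx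
      obtain ⟨y, hy⟩ := ofList_V hx
      obtain ⟨u, hu, -, -, e, -, -⟩ := edge x y hy
      exact ⟨u, hu, e⟩
    · rintro ⟨u, hu, rfl⟩
      exact ((mU u).1 hu).2.2
  · rintro x u ⟨hu, eu⟩ v ⟨hv, ev⟩
    obtain ⟨-, hu1, hu2⟩ := (mU u).1 hu
    refine (rtg_fib id (M.conn u hu1 v ((mU v).1 hv).2.1 (eu.trans ev.symm)) ?_).2
    rintro a b ⟨ha, hb, hab, hA⟩ e
    refine ReflTransGen.single ⟨⟨(mU a).2 ⟨MG.left_mem hA, ha, ?_⟩, e.trans eu⟩,
      ⟨(mU b).2 ⟨MG.right_mem hA, hb, ?_⟩, hab.symm.trans (e.trans eu)⟩, hA⟩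
    · rw [e]; exact hu2
    · rw [← hab, e]; exact hu2
  · have hN' : ((ofList L).E.map g).Nodup := by
      refine Multiset.Nodup.map_on (fun e he e' he' h => ?_) hN
      rw [← (hg e he).2.2, ← (hg e' he').2.2, h]
    refine (Multiset.le_iff_subset hN').2 fun e he => ?_
    obtain ⟨e0, h0, rfl⟩ := Multiset.mem_map.1 he
    exact (hg e0 h0).1
  · intro e he
    obtain ⟨e0, h0, rfl⟩ := Multiset.mem_map.1 he
    exact (hg e0 h0).2.1
  · rw [Multiset.map_map]
    conv_lhs => rw [← Multiset.map_id (ofList L).E]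
    exact Multiset.map_congr rfl fun e he => (hg e he).2.2.symm

theorem si_ofList (a1 : SA1) (L : List (ℕ × ℕ)) : si (ofList L) = gr L :=
  a1.ext fun _ _ => ofList_E

theorem tor (a1 : SA1) (n : ℕ) : si (torus n) = gr (tgE n n 0) := by
  unfold torus
  rw [si_ofList a1]
  congr 1
  unfold tgE
  refine List.flatMap_congr fun i hi => List.flatMap_congr fun j hj => ?_
  rw [List.mem_range] at hi hj
  split_ifs with h
  · rw [Nat.mod_eq_of_lt h]
  · have : i + 1 = n := by omega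
    simp [this, Nat.mod_eq_of_lt hj]

/-! ### connectivity checker -/

def grow (v : ℕ) : List (ℕ × ℕ) → List ℕ → List ℕ
  | [], S => S
  | p :: L, S =>
    if p.1 ≠ p.2 ∧ p.1 ≠ v ∧ p.2 ≠ v ∧ (p.1 ∈ S ∨ p.2 ∈ S) then grow v L (p.1 :: p.2 :: S)
    else grow v L S

def chk (L : List (ℕ × ℕ)) (v : ℕ) : Bool :=
  let S := grow v L (grow v L (grow v L [if v = 1 then 4 else 1]))
  L.all fun p => (decide (p.1 = v) || decide (p.1 ∈ S)) && (decide (p.2 = v) || decide (p.2 ∈ S))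

theorem grow_spec {v : ℕ} {P : ℕ → Prop} : ∀ (L : List (ℕ × ℕ)) (S : List ℕ),
    (∀ p ∈ L, p.1 ≠ p.2 → p.1 ≠ v → p.2 ≠ v → (P p.1 ↔ P p.2)) → (∀ x ∈ S, P x) →
    ∀ x ∈ grow v L S, P x
  | [], _, _, hS => hS
  | p :: L, S, hL, hS => by
    unfold grow
    have hL' : ∀ q ∈ L, q.1 ≠ q.2 → q.1 ≠ v → q.2 ≠ v → (P q.1 ↔ P q.2) :=
      fun q hq => hL q (List.mem_cons_of_mem _ hq)
    split_ifs with h
    · refine grow_spec L _ hL' fun x hx => ?_
      have hp := hL p List.mem_cons_self h.1 h.2.1 h.2.2.1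
      have h1 : P p.1 := h.2.2.2.elim (hS _) (fun h' => hp.2 (hS _ h'))
      rcases List.mem_cons.1 hx with rfl | hx
      · exact h1
      · rcases List.mem_cons.1 hx with rfl | hx
        · exact hp.1 h1
        · exact hS x hx
    · exact grow_spec L S hL' hS

theorem chk_spec {L : List (ℕ × ℕ)} {v : ℕ} (h : chk L v = true) :
    ConnOn (ofList L) {x | x ∈ (ofList L).V ∧ x ≠ v} := by
  set r : ℕ → ℕ → Prop := fun a b => a ∈ {x | x ∈ (ofList L).V ∧ x ≠ v} ∧
    b ∈ {x | x ∈ (ofList L).V ∧ x ≠ v} ∧ s(a, b) ∈ (ofList L).E with hr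
  have rs : ∀ a b, r a b → r b a := fun a b h => ⟨h.2.1, h.1, by rw [Sym2.eq_swap]; exact h.2.2⟩
  set z : ℕ := if v = 1 then 4 else 1 with hz
  have hL : ∀ p ∈ L, p.1 ≠ p.2 → p.1 ≠ v → p.2 ≠ v →
      (ReflTransGen r z p.1 ↔ ReflTransGen r z p.2) := by
    intro p hp h1 h2 h3
    have he : s(p.1, p.2) ∈ (ofList L).E := ofList_E.2 ⟨h1, Or.inl hp⟩
    have hr' : r p.1 p.2 := ⟨⟨MG.left_mem he, h2⟩, ⟨MG.right_mem he, h3⟩, he⟩
    exact ⟨fun h => h.tail hr', fun h => h.tail (rs _ _ hr')⟩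
  have hS := grow_spec L _ hL (grow_spec L _ hL (grow_spec L [z] hL fun x hx => by
    rw [List.mem_singleton.1 hx]))
  have key : ∀ x, x ∈ (ofList L).V → x ≠ v → ReflTransGen r z x := by
    intro x hx hxv
    obtain ⟨y, hy⟩ := ofList_V hx
    unfold chk at h
    simp only [List.all_eq_true, Bool.and_eq_true, Bool.or_eq_true, decide_eq_true_eq] at h
    rcases (ofList_E.1 hy).2 with hp | hp
    · exact hS x ((h _ hp).1.resolve_left hxv)
    · exact hS x ((h _ hp).2.resolve_left hxv)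
  intro x hx y hy
  exact (rtg_symm rs (key x hx.1 hx.2)).trans (key y hy.1 hy.2)

def tc2 (L : List (ℕ × ℕ)) : Bool :=
  L.all (fun p => decide (p.1 < 10) && decide (p.2 < 10)) && (List.range 11).all (chk L)

theorem tc2_spec {L : List (ℕ × ℕ)} (h : tc2 L = true) (h2 : 2 ≤ Multiset.card (ofList L).E) :
    TwoConn (ofList L) := by
  unfold tc2 at h
  simp only [List.all_eq_true, Bool.and_eq_true, decide_eq_true_eq, List.mem_range] at h
  obtain ⟨hb, hc⟩ := h
  have lt : ∀ x ∈ (ofList L).V, x < 10 := by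
    intro x hx
    obtain ⟨y, hy⟩ := ofList_V hx
    rcases (ofList_E.1 hy).2 with hp | hp
    · exact (hb _ hp).1
    · exact (hb _ hp).2
  have h10 := chk_spec (hc 10 (by norm_num))
  refine ⟨h2, ?_, fun v => ?_⟩
  · have : {x | x ∈ (ofList L).V} = {x | x ∈ (ofList L).V ∧ x ≠ 10} := by
      ext x
      exact ⟨fun hx => ⟨hx, (lt x hx).ne⟩, fun hx => hx.1⟩
    rw [this]
    exact h10
  · by_cases hv : v < 11
    · exact chk_spec (hc v hv)
    · have : {x | x ∈ (ofList L).V ∧ x ≠ v} = {x | x ∈ (ofList L).V ∧ x ≠ 10} := by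
        ext x
        refine ⟨fun hx => ⟨hx.1, (lt x hx.1).ne⟩, fun hx => ⟨hx.1, ?_⟩⟩
        have := lt x hx.1
        omega
      rw [this]
      exact h10

theorem simple : ∀ L ∈ LL, tc2 L = true ∧ (ofList L).E.Nodup ∧ 2 ≤ Multiset.card (ofList L).E := by
  decide +kernel

/-- the listed graph with index `k` -/
def gk (k : ℕ) : MG := ofList (LL.getD k [])

/-- the edges of the graph `k` that avoid `v` -/
def rest (k v : ℕ) : Multiset (Sym2 ℕ) := (gk k).E.filter (fun e => v ∉ e)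

theorem y01 : DY (gk 0) (gk 1) :=
  DY.yDelta _ _ 1 4 5 0 (rest 0 0) (by decide +kernel) (by decide +kernel) (by decide +kernel)
    (by decide +kernel)

theorem y12 : DY (gk 1) (gk 2) :=
  DY.yDelta _ _ 1 3 7 2 (rest 1 2) (by decide +kernel) (by decide +kernel) (by decide +kernel)
    (by decide +kernel)

theorem y23 : DY (gk 2) (gk 3) :=
  DY.yDelta _ _ 3 5 6 8 (rest 2 8) (by decide +kernel) (by decide +kernel) (by decide +kernel)
    (by decide +kernel)

theorem y24 : DY (gk 2) (gk 4) :=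
  DY.yDelta _ _ 1 8 9 6 (rest 2 6) (by decide +kernel) (by decide +kernel) (by decide +kernel)
    (by decide +kernel)

theorem y35 : DY (gk 3) (gk 5) :=
  DY.yDelta _ _ 4 6 7 9 (rest 3 9) (by decide +kernel) (by decide +kernel) (by decide +kernel)
    (by decide +kernel)

theorem d36 : DY (gk 3) (gk 6) :=
  DY.deltaY _ _ 3 5 1 0 (rest 6 0) (by decide +kernel) (by decide +kernel) (by decide +kernel)
    (by decide +kernel)

theorem fam : ∀ L ∈ LL, PetersenFamily (ofList L) ∨ ofList L = k55m := by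
  have p0 : PetersenFamily (gk 0) := ReflTransGen.refl
  have p1 : PetersenFamily (gk 1) := p0.tail y01
  have p2 : PetersenFamily (gk 2) := p1.tail y12
  have p3 : PetersenFamily (gk 3) := p2.tail y23
  have p4 : PetersenFamily (gk 4) := p2.tail y24
  have p5 : PetersenFamily (gk 5) := p3.tail y35
  have p6 : PetersenFamily (gk 6) := p3.tail d36
  have p7 : gk 7 = k55m := congrArg ofList (by decide +kernel)
  intro L hL
  simp only [LL, List.mem_cons, List.not_mem_nil, or_false] at hL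
  rcases hL with rfl | rfl | rfl | rfl | rfl | rfl | rfl | rfl
  exacts [Or.inl p0, Or.inl p1, Or.inl p2, Or.inl p3, Or.inl p4, Or.inl p5, Or.inl p6, Or.inr p7]

theorem bad_sub (a1 : SA1) {G H : SG} (h : ∀ x y, G.A x y → H.A x y) (hG : Bad G) : Bad H := by
  obtain ⟨L, hL, hm⟩ := hG
  exact ⟨L, hL, a1.trans hm (sminor_of_sub h)⟩

theorem bad_dy (a1 : SA1) (a2 : SA2) {G H : MG} (h : DY G H) (hG : Bad (si G)) : Bad (si H) := by
  cases h with
  | deltaY a b c w R h1 h2 h3 h4 =>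
    have s := mkST h1 h4 h3
    refine (a2.elim s.nb).2.2 (bad_sub a1 (fun x y hxy => ?_) hG)
    refine ⟨MG.ne_of_mem hxy, fun e => s.nv y (e ▸ hxy),
      fun e => s.nv x (e ▸ (si G).symm _ _ hxy), ?_⟩
    by_cases hT : T3 a b c x ∧ T3 a b c y
    · exact Or.inr ⟨s.nb' x hT.1, s.nb' y hT.2⟩
    · exact Or.inl (s.ts x y hxy hT)
  | yDelta a b c v R h1 h2 h3 h4 =>
    have s := mkST h1 h3 h4
    refine bad_sub a1 (fun x y hxy => ?_) ((a2.elim s.nb).2.1 hG)
    obtain ⟨hne, hx, hy, h | h⟩ := hxy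
    · exact s.st x y h hx hy
    · exact s.tri x y (s.nb x h.1) (s.nb y h.2) hne

theorem bad_gk (a1 : SA1) {k : ℕ} (h : LL.getD k [] ∈ LL) : Bad (si (gk k)) := by
  unfold gk
  rw [si_ofList a1]
  exact ⟨_, h, sminor_of_sub fun _ _ h => h⟩

end Finaux

theorem pFin (a1 : SA1) : SFin :=
  ⟨Finaux.rd a1, Finaux.sm, Finaux.ms, fun n _ => Finaux.tor a1 n⟩

theorem pFam (a1 : SA1) (a2 : SA2) : SFam := by
  refine ⟨fun L hL => ?_, fun H hH => ?_⟩
  · obtain ⟨h1, h2, h3⟩ := Finaux.simple L hL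
    exact ⟨Finaux.fam L hL, h2, Finaux.tc2_spec h1 h3⟩
  · rcases hH with hH | rfl
    · induction hH with
      | refl => exact Finaux.bad_gk a1 (k := 0) (by decide +kernel)
      | tail _ h ih => exact Finaux.bad_dy a1 a2 h ih
    · have p7 : Finaux.gk 7 = k55m := congrArg ofList (by decide +kernel)
      rw [← p7]
      exact Finaux.bad_gk a1 (by decide +kernel)

end Pool.Agent.P.MP_5af56b_co.Tor
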