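import Pool.Agent.P.MP_5af56b_co.Tor.Stmt

namespace Pool.Agent.P.MP_5af56b_co.Tor

open Finset

namespace G1aux

theorem br_s (i : ℤ) {U : List Lt} (h : IsBr U) : IsBr (.s i :: U) := by
  intro g hg
  rcases List.mem_cons.1 hg with rfl | hg
  · exact ⟨i, Or.inl rfl⟩
  · exact h g hg

theorem br_t (i : ℤ) {U : List Lt} (h : IsBr U) : IsBr (.t i :: U) := by
  intro g hg
  rcases List.mem_cons.1 hg with rfl | hg
  · exact ⟨i, Or.inr rfl⟩
  · exact h g hg

theorem br_nil : IsBr [] := fun _ hg => absurd hg List.not_mem_nil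

theorem t0 (c1 : SC1) {n : ℤ} (hn : 2 ≤ n) : Eqw n [.t 0] [] := by
  simpa using c1.t2 0 hn

/-- a rotation followed by its inverse can be put in front -/
theorem ins (b2 : SB2) (c1 : SC1) {n : ℤ} (hn : 2 ≤ n) (k : ℤ) (U : List Lt) :
    Eqw n U (.t k :: .t (-k) :: U) := by
  have h1 : Eqw n [.t k, .t (-k)] [] := by
    refine b2.trans (c1.t1 n k (-k)) ?_
    simpa using t0 c1 hn
  have h2 := b2.ectx (n := n) [] U (by simpa [dn] using h1)
  exact b2.symm (by simpa using h2)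

theorem cons_e (b2 : SB2) {n : ℤ} (g : Lt) (hg : dl g = 0) {U V : List Lt} (h : Eqw n U V) :
    Eqw n (g :: U) (g :: V) := by
  have := b2.ectx (n := n) [g] [] (by simpa [dn, hg] using h)
  simpa using this

theorem cons_r (b2 : SB2) {n : ℤ} (g : Lt) (hg : dl g = 0) {U : List Lt} (h : Rdc n U) :
    Rdc n (g :: U) := by
  have := b2.rctx (n := n) [g] [] (by simpa [dn, hg] using h)
  simpa using this

theorem sum_succ (f : ℤ → ℤ) {n : ℤ} (hn : 0 ≤ n) :
    ∑ i ∈ Ico 0 n, f (i + 1) = ∑ i ∈ Ico 0 n, f i - f 0 + f n := by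
  obtain ⟨m, rfl⟩ := Int.eq_ofNat_of_zero_le hn
  induction m with
  | zero => simp
  | succ m ih =>
    have h1 : Ico (0 : ℤ) ((m + 1 : ℕ) : ℤ) = insert (m : ℤ) (Ico 0 (m : ℤ)) := by
      ext j
      simp only [mem_Ico, mem_insert]
      omega
    have h2 : (m : ℤ) ∉ Ico (0 : ℤ) (m : ℤ) := by simp
    rw [h1, sum_insert h2, sum_insert h2, ih (by omega)]
    push_cast
    ring

theorem sw_mem {n i j : ℤ} (h1 : 1 ≤ i) (h2 : i + 1 ≤ n) (hj : j ∈ Ico 0 n) :
    sw n i j ∈ Ico 0 n := by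
  rw [mem_Ico] at hj ⊢
  unfold sw
  split_ifs with ha hb
  · have : j - i = 0 := Int.eq_zero_of_abs_lt_dvd ha (by rw [abs_lt]; omega)
    omega
  · have : j - i + 1 = 0 := Int.eq_zero_of_abs_lt_dvd hb (by rw [abs_lt]; omega)
    omega
  · exact hj

theorem tc_sw (p : SP) {n i : ℤ} (hn : 2 ≤ n) (h1 : 1 ≤ i) (h2 : i + 1 ≤ n) (w : ℤ → ℤ) :
    tc n (fun j => w (sw n i j)) = tc n w := by
  unfold tc
  exact sum_nbij' (sw n i) (sw n i) (fun j hj => sw_mem h1 h2 hj) (fun j hj => sw_mem h1 h2 hj)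
    (fun j _ => p.sw_sw i j hn) (fun j _ => p.sw_sw i j hn) (fun j _ => rfl)

theorem tc_up {n : ℤ} (hn : 2 ≤ n) {w : ℤ → ℤ} (hw : AP n w) (h : w 0 < 0) :
    tc n (fun j => w (j + 1)) + 1 = tc n w := by
  unfold tc
  rw [sum_succ (fun j => |w j / n|) (by omega)]
  have e1 : w n = w 0 + n := by simpa using hw.2 0
  have e2 : (w 0 + n) / n = w 0 / n + 1 := by
    have := Int.add_mul_ediv_right (w 0) 1 (show n ≠ 0 by omega)
    simpa using this
  have e3 : w 0 / n < 0 := Int.ediv_neg_of_neg_of_pos h (by omega)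
  rw [e1, e2, abs_of_neg e3, abs_of_nonpos (by omega)]
  ring

theorem tc_down {n : ℤ} (hn : 2 ≤ n) {w : ℤ → ℤ} (hw : AP n w) (h : 0 ≤ w (-1)) :
    tc n (fun j => w (j + -1)) + 1 = tc n w := by
  unfold tc
  have h0 := sum_succ (fun j => |w (j + -1) / n|) (show 0 ≤ n by omega)
  simp only [add_neg_cancel_right, zero_add] at h0
  rw [h0]
  have e1 : w (n + -1) = w (-1) + n := by rw [add_comm]; exact hw.2 (-1)
  have e2 : (w (-1) + n) / n = w (-1) / n + 1 := by
    have := Int.add_mul_ediv_right (w (-1)) 1 (show n ≠ 0 by omega)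
    simpa using this
  have e3 : 0 ≤ w (-1) / n := Int.ediv_nonneg h (by omega)
  rw [e1, e2, abs_of_nonneg e3, abs_of_nonneg (by omega)]
  ring

theorem tc_id (n : ℤ) : tc n (fun j => j) = 0 := by
  unfold tc
  refine sum_eq_zero fun i hi => ?_
  rw [mem_Ico] at hi
  rw [Int.ediv_eq_zero_of_lt hi.1 hi.2, abs_zero]

theorem main (b2 : SB2) (c1 : SC1) (p : SP) (d1 : SD1) {n : ℤ} (hn : 2 ≤ n) (he : n % 2 = 0)
    (m : ℕ) : ∀ U : List Lt, IsBr U → (cr U : ℤ) + tc n (pw n U) < m →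
      Rdc n U ∨ ∃ U', Eqw n U U' ∧ IsBr U' ∧ Pl n U' ∧ (nt U' : ℤ) = tc n (pw n U) := by
  induction m with
  | zero =>
    intro U _ h
    have := p.tc_ge n (pw n U)
    have := abs_nonneg (dg n (pw n U))
    omega
  | succ m ih =>
    intro U hU h
    have hw := p.pw_ap U hn
    by_cases ha : 0 ≤ pw n U (-1)
    · have e : pw n (.t (-1) :: U) = fun j => pw n U (j + -1) := rfl
      have e2 := tc_down hn hw ha
      have hi := ins b2 c1 hn 1 U
      rcases ih (.t (-1) :: U) (br_t _ hU) (by rw [e]; simp only [cr]; push_cast at h; omega) with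
        hr | ⟨U', h1, h2, h3, h4⟩
      · exact Or.inl (b2.rdc_of hi (cons_r b2 _ rfl hr))
      · refine Or.inr ⟨.t 1 :: U', b2.trans hi (cons_e b2 _ rfl h1), br_t _ h2,
          ⟨Or.inl rfl, hn, h3⟩, ?_⟩
        rw [e] at h4
        simp only [nt]
        push_cast
        omega
    by_cases hb : pw n U 0 < 0
    · have e : pw n (.t 1 :: U) = fun j => pw n U (j + 1) := rfl
      have e2 := tc_up hn hw hb
      have hi : Eqw n U (.t (-1) :: .t 1 :: U) := by simpa using ins b2 c1 hn (-1) U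
      rcases ih (.t 1 :: U) (br_t _ hU) (by rw [e]; simp only [cr]; push_cast at h; omega) with
        hr | ⟨U', h1, h2, h3, h4⟩
      · exact Or.inl (b2.rdc_of hi (cons_r b2 _ rfl hr))
      · refine Or.inr ⟨.t (-1) :: U', b2.trans hi (cons_e b2 _ rfl h1), br_t _ h2,
          ⟨Or.inr rfl, hn, h3⟩, ?_⟩
        rw [e] at h4
        simp only [nt]
        push_cast
        omega
    by_cases hc : ∃ i, 1 ≤ i ∧ i + 1 ≤ n ∧ pw n U i < pw n U (i - 1)
    · obtain ⟨i, i1, i2, hi⟩ := hc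
      rcases d1.d3 hn he hU hi with hr | ⟨U1, hb1, hp, hq⟩
      · exact Or.inl hr
      have e : pw n U1 = fun j => pw n U (sw n i j) := by
        funext j
        rw [← hp]
        simp only [pw]
        rw [p.sw_sw i j hn]
      have e2 := tc_sw p hn i1 i2 (pw n U)
      have e3 : cr U = cr U1 + 1 := hq.1
      rcases ih U1 hb1 (by rw [e, e2]; push_cast at h; omega) with hr | ⟨U', h1, h2, h3, h4⟩
      · exact Or.inl (b2.rdc_of hq (cons_r b2 _ rfl hr))
      · refine Or.inr ⟨.s i :: U', b2.trans hq (cons_e b2 _ rfl h1), br_s _ h2,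
          ⟨i1, i2, h3⟩, ?_⟩
        rw [e, e2] at h4
        simpa only [nt] using h4
    have hasc : ∀ i, pw n U (i - 1) < pw n U i := by
      intro i
      have r1 := Int.emod_nonneg i (show n ≠ 0 by omega)
      have r2 := Int.emod_lt_of_pos i (show 0 < n by omega)
      have r3 := Int.emod_add_mul_ediv i n
      have m1 := p.mul hw (i % n) (i / n)
      have m2 := p.mul hw (i % n - 1) (i / n)
      rw [r3] at m1
      rw [show i % n - 1 + n * (i / n) = i - 1 by omega] at m2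
      rw [m1, m2]
      by_cases h0 : i % n = 0
      · rw [h0]
        simp only [zero_sub]
        omega
      · have h1 : ¬ pw n U (i % n) < pw n U (i % n - 1) := fun h' => hc ⟨_, by omega, by omega, h'⟩
        have h2 : pw n U (i % n - 1) ≠ pw n U (i % n) := fun h' => by
          have := hw.1.1 h'
          omega
        omega
    have hm := p.mono hw hasc
    have h0 : pw n U 0 = 0 := by
      have := hm (-1)
      omega
    have hid : pw n U = fun j => j := by
      funext j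
      rw [hm j, h0, add_zero]
    rcases d1.d4' (V := []) hn he hU br_nil trivial hid with hr | hq
    · exact Or.inl hr
    · exact Or.inr ⟨[], hq, br_nil, trivial, by rw [hid, tc_id]; rfl⟩

theorem rep_e (b2 : SB2) (c1 : SC1) {n : ℤ} (hn : 2 ≤ n) (e : ℤ) (k : ℕ) :
    Eqw n [.t (k * e)] (List.replicate k (.t e)) := by
  induction k with
  | zero => simpa using t0 c1 hn
  | succ k ih =>
    have h1 : Eqw n [.t e, .t (k * e)] [.t (((k + 1 : ℕ) : ℤ) * e)] := by
      have := c1.t1 n e (k * e)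
      rwa [show e + k * e = ((k + 1 : ℕ) : ℤ) * e by push_cast; ring] at this
    exact b2.trans (b2.symm h1) (cons_e b2 _ rfl ih)

theorem rep_p {n e : ℤ} (hn : 2 ≤ n) (he : e = 1 ∨ e = -1) (k : ℕ) :
    IsBr (List.replicate k (.t e)) ∧ Pl n (List.replicate k (.t e)) ∧
      nt (List.replicate k (.t e)) = k := by
  induction k with
  | zero => exact ⟨br_nil, trivial, rfl⟩
  | succ k ih =>
    refine ⟨br_t _ ih.1, ⟨he, hn, ih.2.1⟩, ?_⟩
    simp only [List.replicate_succ, nt, ih.2.2]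

/-- a rotation as a product of unit rotations -/
theorem rot_split (b2 : SB2) (c1 : SC1) {n : ℤ} (hn : 2 ≤ n) (d : ℤ) :
    ∃ T, Eqw n [.t d] T ∧ IsBr T ∧ Pl n T ∧ (nt T : ℤ) = |d| := by
  rcases le_total 0 d with h | h
  · obtain ⟨k, rfl⟩ := Int.eq_ofNat_of_zero_le h
    have h2 := rep_p hn (Or.inl rfl) k
    exact ⟨_, by simpa using rep_e b2 c1 hn 1 k, h2.1, h2.2.1, by rw [h2.2.2]; simp⟩
  · obtain ⟨k, hk⟩ := Int.eq_ofNat_of_zero_le (show 0 ≤ -d by omega)
    obtain rfl : d = -(k : ℤ) := by omega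
    have h2 := rep_p hn (Or.inr rfl) k
    exact ⟨_, by simpa using rep_e b2 c1 hn (-1) k, h2.1, h2.2.1, by rw [h2.2.2]; simp⟩

/-- a planar word with few rotations is read along a vertical cut -/
theorem good_pl (b1 : SB1) (g2a : SG2a) (g2b : SG2b) {N : ℕ} {n : ℤ} (hn : 2 ≤ n) (he : n % 2 = 0)
    (hy : Hyp N n) {W : List Lt} (hp : Pl n W) (hd : dn W = 0) (h1 : (nt W : ℤ) < n)
    (h2 : cr W ≤ N) : Good n W := by
  intro c E hf
  have hcl := g2a hp hf.1
  have hcr : cr (rot90 n W) = cr W := by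
    obtain ⟨b, hb⟩ := hcl
    obtain ⟨b', hb'⟩ := hf.1
    rw [← b1.len hb, ← b1.len hb']
  exact hy.2 (nt W) (rot90 n W) h1 (by omega) c E
    ⟨hcl, fun E' hE' => hf.2 E' (g2b (by omega) he hp hd hE')⟩

end G1aux

open G1aux

theorem pG1 (b1 : SB1) (b2 : SB2) (c1 : SC1) (p : SP) (d1 : SD1) : SG1 := by
  have _ := b1
  intro n U hn he hU
  refine main b2 c1 p d1 hn he (((cr U : ℤ) + tc n (pw n U)).toNat + 1) U hU ?_
  push_cast
  omega

theorem pG3 (b1 : SB1) (b2 : SB2) (c1 : SC1) (p : SP) (e3 : SE3) (g1 : SG1) (g2a : SG2a)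
    (g2b : SG2b) : SG3 := by
  intro N n B ks hn he hB hy hN
  refine or_iff_not_imp_right.2 fun hc => ?_
  push Not at hc
  obtain ⟨a, b, x, hlt⟩ := hc
  have hta : ∀ k : ℤ, IsBr [Lt.t k] := fun k => br_t k br_nil
  have hB' : IsBr (.t a :: (B ++ [.t (-b)])) := br_t _ (b1.br_app.2 ⟨hB, hta _⟩)
  have hpw : pw n (.t a :: (B ++ [.t (-b)])) = cut (pw n B) a b := by
    funext j
    simp only [pw, p.pw_app, cut]
    ring
  -- reduce to the rotated word
  have key : Good n (.t a :: (B ++ [.t (-b)]) ++ [.t (b - a - n * x)] ++ Z n ks) →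
      Good n (B ++ Z n ks) := by
    intro hg
    refine b2.good_of (ins b2 c1 hn (-a) (B ++ Z n ks)).2 ?_
    rw [neg_neg]
    refine b2.good_rot (A := [.t (-a)]) (B := .t a :: (B ++ Z n ks)) ?_
    rw [b1.br_dn (hta _), add_zero]
    have q1 : Eqw n (.t a :: B ++ (Z n ks ++ [.t (-a)]) ++ []) (.t a :: B ++ ([.t (-a)] ++ Z n ks) ++ []) :=
      b2.ectx (.t a :: B) [] (by
        rw [b1.br_dn (br_t a hB), add_zero]
        exact b2.symm (e3.cmz ks (by omega) he (hta _)))
    have q2 : Eqw n [.t (-b), .t (b - a - n * x)] [.t (-a)] := by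
      have r1 := c1.t1 n (-b) (b - a - n * x)
      have r2 := c1.t1 n (-a) (n * (-x))
      have r3 := cons_e b2 (.t (-a)) rfl (c1.t2 (-x) hn)
      rw [show -b + (b - a - n * x) = -a + n * (-x) by ring] at r1
      exact b2.trans r1 (b2.trans (b2.symm r2) r3)
    have q3 := b2.ectx (n := n) (.t a :: B) (Z n ks) (by
      rw [b1.br_dn (br_t a hB), add_zero]
      exact b2.symm q2)
    have q4 : Eqw n (.t a :: (B ++ Z n ks) ++ [.t (-a)])
        (.t a :: (B ++ [.t (-b)]) ++ [.t (b - a - n * x)] ++ Z n ks) := by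
      refine b2.trans (D' := .t a :: B ++ [.t (-a)] ++ Z n ks) ?_ ?_
      · simpa [List.append_assoc] using q1
      · simpa [List.append_assoc] using q3
    exact b2.good_of q4.2 hg
  apply key
  rcases g1 hn he hB' with hr | ⟨U', h1, h2, h3, h4⟩
  · have hr2 := b2.rctx (n := n) [] ([.t (b - a - n * x)] ++ Z n ks) (by simpa [dn] using hr)
    refine b2.good_rdc (by simpa [List.append_assoc] using hr2) fun W' hW' => hy.1 n W' ?_
    simp only [b1.cr_app, cr, add_zero] at hW'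
    omega
  · obtain ⟨T, t1, t2, t3, t4⟩ := rot_split b2 c1 hn (b - a - n * x)
    have hdU := b1.br_dn h2
    have hdT := b1.br_dn t2
    have q1 := b2.ectx (n := n) [] ([.t (b - a - n * x)] ++ Z n ks) (by simpa [dn] using h1)
    have q2 := b2.ectx (n := n) U' (Z n ks) (by rw [hdU, add_zero]; exact t1)
    have q3 : Eqw n (.t a :: (B ++ [.t (-b)]) ++ [.t (b - a - n * x)] ++ Z n ks)
        (U' ++ T ++ Z n ks) :=
      b2.trans (by simpa [List.append_assoc] using q1) q2
    refine b2.good_of q3.2 (good_pl b1 g2a g2b hn he hy ?_ ?_ ?_ ?_)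
    · rw [b1.pl_app, b1.pl_app, b1.dn_app, hdU, hdT]
      simp only [add_zero]
      exact ⟨⟨h3, t3⟩, b1.z_pl ks (by omega)⟩
    · rw [b1.dn_app, b1.dn_app, hdU, hdT, b1.z_dn]
      rfl
    · rw [b1.nt_app, b1.nt_app, b1.z_nt]
      rw [hpw] at h4
      push_cast
      omega
    · rw [← q3.1]
      simp only [b1.cr_app, cr, add_zero]
      exact hN

end Pool.Agent.P.MP_5af56b_co.Tor
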