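import Pool.Agent.P.MP_5af56b_co.Tor.Stmt

namespace Pool.Agent.P.MP_5af56b_co.Tor

namespace G2aaux

theorem ndvd {n d : ℤ} (h1 : -n < d) (h2 : d < n) (h3 : d ≠ 0) : ¬ n ∣ d := by
  rintro ⟨k, rfl⟩
  have hn : 0 < n := by omega
  have hk1 : k < 1 := by
    by_contra h
    have : n * 1 ≤ n * k := Int.mul_le_mul_of_nonneg_left (by omega) hn.le
    omega
  have hk2 : -1 < k := by
    by_contra h
    have : n * k ≤ n * (-1) := Int.mul_le_mul_of_nonneg_left (by omega) hn.le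
    omega
  have : k = 0 := by omega
  subst this
  simp at h3

theorem top {x : St} (h : x.Ok) : x.b x.n = x.b 0 := by
  have := h.2.2.2.1 0
  rwa [zero_add] at this

theorem par : ∀ (W : List Lt) (n : ℤ), Pl n W → ((nt W : ℤ) + dc W) % 2 = 0
  | [], _, _ => by simp [nt, dc]
  | .s _ :: W, n, h => par W n h.2.2
  | .u _ :: W, n, h => par W (n + 2) h.2.2
  | .d _ :: W, n, h => par W (n - 2) h.2.2
  | .t k :: W, n, h => by
    have := par W n h.2.2
    have hk := h.1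
    simp only [nt, dc]
    push_cast
    omega

/-- the conclusion of the middle lemma -/
def Concl (W : List Lt) (x z : St) (E : List (ℕ × ℕ)) (S : ℤ → ℕ) : Prop :=
  S (nt W) = x.b 0 ∧ S 0 = z.b 0 ∧
    ∀ (X : St) (r : ℤ), 0 ≤ r → X.Ok → X.n = nt W + x.n + r → x.c = (X.c + nt W) % 2 →
      (∀ j : ℤ, 0 ≤ j → j ≤ nt W → X.b j = S j) → (∀ j : ℤ, 0 ≤ j → j ≤ x.n → X.b (nt W + j) = x.b j) →
      ∃ Y, Run (rw90 x.n W) X Y E ∧ Y.n = z.n + nt W + r ∧ Y.c = X.c ∧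
        (∀ j : ℤ, 0 ≤ j → j ≤ z.n → Y.b j = z.b j) ∧ (∀ i : ℤ, 0 ≤ i → i ≤ nt W → Y.b (z.n + i) = S i) ∧
        ∀ i : ℤ, 0 ≤ i → i ≤ r → Y.b (z.n + nt W + i) = X.b (nt W + x.n + i)

theorem step_s (b1 : SB1) {i : ℤ} {W : List Lt} {x y z : St} {e E : List (ℕ × ℕ)} {S : ℤ → ℕ}
    (h1 : 1 ≤ i) (h2 : i + 1 ≤ x.n) (hs : Stp (.s i) x y e) (ih : Concl W y z E S) :
    Concl (.s i :: W) x z (e ++ E) S := by
  obtain ⟨hn, hyn, hyc, hyb, he⟩ := hs
  obtain ⟨s1, s2, s3⟩ := ih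
  have hnt : nt (.s i :: W) = nt W := rfl
  have hy : ∀ j : ℤ, 0 ≤ j → j ≤ x.n → j ≠ i → y.b j = x.b j := fun j a b c =>
    hyb j (ndvd (by omega) (by omega) (by omega))
  unfold Concl
  rw [hnt]
  refine ⟨by rw [s1, hy 0 le_rfl (by omega) (by omega)], s2, ?_⟩
  intro X r hr hX hXn hXc hS hm
  have ha : (0 : ℤ) ≤ nt W := Int.natCast_nonneg _
  obtain ⟨Y, hY, hYn, hYc, hYi, hYb⟩ := b1.ex_s hX (by omega) (i + nt W) (y.b i)
  have hY' : ∀ j : ℤ, 0 ≤ j → j ≤ X.n → j ≠ i + nt W → Y.b j = X.b j := fun j a b c =>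
    hYb j (ndvd (by omega) (by omega) (by omega))
  obtain ⟨Z, r1, r2, r3, r4, r5, r6⟩ := s3 Y r hr hY (by omega) (by rw [hyc, hYc]; exact hXc)
    (fun j a b => by rw [hY' j a (by omega) (by omega)]; exact hS j a b)
    (fun j a b => by
      by_cases hj : j = i
      · subst hj
        rw [add_comm]
        exact hYi
      · rw [hY' _ (by omega) (by omega) (by omega), hm j a (by omega), hy j a (by omega) hj])
  refine ⟨Z, ?_, r2, r3.trans hYc, r4, r5, fun k a b => ?_⟩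
  · refine ⟨hX, Y, e, E, ⟨by omega, hYn, hYc, hYb, ?_⟩, by rw [← hyn]; exact r1, rfl⟩
    have e0 : X.b (i + nt W) = x.b i := by
      rw [add_comm]
      exact hm i (by omega) (by omega)
    have e1 : X.b (i + nt W - 1) = x.b (i - 1) := by
      rw [show i + nt W - 1 = nt W + (i - 1) by ring]
      exact hm _ (by omega) (by omega)
    have e2 : X.b (i + nt W + 1) = x.b (i + 1) := by
      rw [show i + nt W + 1 = nt W + (i + 1) by ring]
      exact hm _ (by omega) (by omega)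
    have e3 : (i + nt W + X.c) % 2 = (i + x.c) % 2 := by omega
    rw [he, e0, e1, e2, e3, hYi]
  · rw [r6 k a b, hyn]
    exact hY' _ (by omega) (by omega) (by omega)

theorem step_u (b1 : SB1) {i : ℤ} {W : List Lt} {x y z : St} {e E : List (ℕ × ℕ)} {S : ℤ → ℕ}
    (hs : Stp (.u i) x y e) (ih : Concl W y z E S) : Concl (.u i :: W) x z (e ++ E) S := by
  obtain ⟨h1, h2, hyn, hyc, hlo, hhi, he⟩ := hs
  obtain ⟨s1, s2, s3⟩ := ih
  have hnt : nt (.u i :: W) = nt W := rfl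
  unfold Concl
  rw [hnt]
  refine ⟨by rw [s1, hlo 0 le_rfl h1], s2, ?_⟩
  intro X r hr hX hXn hXc hS hm
  have ha : (0 : ℤ) ≤ nt W := Int.natCast_nonneg _
  obtain ⟨Y, hY, hst, hYi⟩ := b1.ex_u hX (i + nt W) (y.b (i + 1)) (by omega) (by omega)
  obtain ⟨-, -, hYn, hYc, hL, hH, -⟩ := id hst
  obtain ⟨Z, r1, r2, r3, r4, r5, r6⟩ := s3 Y r hr hY (by omega) (by rw [hyc, hYc]; exact hXc)
    (fun j a b => by rw [hL j a (by omega)]; exact hS j a b)
    (fun j a b => by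
      rcases lt_trichotomy j (i + 1) with hj | hj | hj
      · rw [hL _ (by omega) (by omega), hm j a (by omega), hlo j a (by omega)]
      · subst hj
        rw [show (nt W : ℤ) + (i + 1) = i + nt W + 1 by ring]
        exact hYi
      · have f1 := hH (nt W + (j - 2)) (by omega) (by omega)
        have f2 := hhi (j - 2) (by omega) (by omega)
        have f3 := hm (j - 2) (by omega) (by omega)
        rw [show (nt W : ℤ) + (j - 2) + 2 = nt W + j by ring] at f1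
        rw [show j - 2 + 2 = j by ring] at f2
        rw [f1, f2, f3])
  refine ⟨Z, ?_, r2, r3.trans hYc, r4, r5, fun k a b => ?_⟩
  · subst he
    exact ⟨hX, Y, [], E, hst, by rw [← hyn]; exact r1, rfl⟩
  · rw [r6 k a b, hyn, show (nt W : ℤ) + (x.n + 2) + k = nt W + x.n + k + 2 by ring]
    exact hH _ (by omega) (by omega)

theorem step_d (b1 : SB1) {i : ℤ} {W : List Lt} {x y z : St} {e E : List (ℕ × ℕ)} {S : ℤ → ℕ}
    (hs : Stp (.d i) x y e) (ih : Concl W y z E S) : Concl (.d i :: W) x z (e ++ E) S := by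
  obtain ⟨h1, h2, hyn, hyc, hlo, hhi, he⟩ := hs
  obtain ⟨s1, s2, s3⟩ := ih
  have hnt : nt (.d i :: W) = nt W := rfl
  unfold Concl
  rw [hnt]
  refine ⟨by rw [s1, hlo 0 le_rfl h1], s2, ?_⟩
  intro X r hr hX hXn hXc hS hm
  have ha : (0 : ℤ) ≤ nt W := Int.natCast_nonneg _
  have hcl : X.b (i + nt W) = X.b (i + nt W + 2) := by
    rw [show i + nt W + 2 = nt W + (i + 2) by ring, add_comm i, hm i h1 (by omega),
      hm (i + 2) (by omega) (by omega), ← hlo i h1 le_rfl, hhi i le_rfl h2]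
  obtain ⟨Y, hY, hst⟩ := b1.ex_d hX (i + nt W) (by omega) (by omega) hcl
  obtain ⟨-, -, hYn, hYc, hL, hH, -⟩ := id hst
  obtain ⟨Z, r1, r2, r3, r4, r5, r6⟩ := s3 Y r hr hY (by omega) (by rw [hyc, hYc]; exact hXc)
    (fun j a b => by rw [hL j a (by omega)]; exact hS j a b)
    (fun j a b => by
      rcases le_or_gt j i with hj | hj
      · rw [hL _ (by omega) (by omega), hm j a (by omega), hlo j a hj]
      · rw [hH _ (by omega) (by omega), hhi j (by omega) b, add_assoc, hm _ (by omega) (by omega)])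
  refine ⟨Z, ?_, r2, r3.trans hYc, r4, r5, fun k a b => ?_⟩
  · subst he
    have : x.n - 2 = y.n := by omega
    exact ⟨hX, Y, [], E, hst, by rw [this]; exact r1, rfl⟩
  · rw [r6 k a b, hH _ (by omega) (by omega), hyn]
    congr 1
    ring

/-- the common part of the two rotation steps -/
theorem step_t {k : ℤ} {W : List Lt} {x y z : St} {E : List (ℕ × ℕ)} {S : ℤ → ℕ}
    (hx : x.Ok) (hk : k = 1 ∨ k = -1) (hyn : y.n = x.n) (hyc : y.c = (x.c + k) % 2)
    (ih : Concl W y z E S)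
    (H : ∀ (X : St) (r : ℤ), 0 ≤ r → X.Ok → X.n = nt W + 1 + x.n + r → X.b (nt W) = y.b 0 →
      (∀ j : ℤ, 0 ≤ j → j ≤ x.n → X.b (nt W + 1 + j) = x.b j) →
      ∃ Y : St, Y.Ok ∧ Y.n = X.n ∧ Y.c = X.c ∧ (∀ j : ℤ, 0 ≤ j → j ≤ nt W → Y.b j = X.b j) ∧
        (∀ j : ℤ, 0 ≤ j → j ≤ x.n → Y.b (nt W + j) = y.b j) ∧
        (∀ j : ℤ, 0 ≤ j → j ≤ r → Y.b (nt W + 1 + x.n + j) = X.b (nt W + 1 + x.n + j)) ∧
        ∀ Z, Run (rw90 x.n W) Y Z E → Run (rw90 x.n (.t k :: W)) X Z E) :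
    Concl (.t k :: W) x z E (fun j => if j = nt W + 1 then x.b 0 else S j) := by
  obtain ⟨s1, s2, s3⟩ := ih
  have hnt : (nt (.t k :: W) : ℤ) = nt W + 1 := by simp [nt]
  have ha : (0 : ℤ) ≤ nt W := Int.natCast_nonneg _
  unfold Concl
  rw [hnt]
  beta_reduce
  refine ⟨by simp, by rw [if_neg (by omega)]; exact s2, ?_⟩
  intro X r hr hX hXn hXc hS hm
  have hS' : ∀ j : ℤ, 0 ≤ j → j ≤ nt W → X.b j = S j := fun j a b => by
    have := hS j a (by omega)
    rwa [if_neg (by omega)] at this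
  obtain ⟨Y, hY, y1, y2, y3, y4, y5, y6⟩ := H X r hr hX hXn (by rw [hS' _ ha le_rfl, s1]) hm
  obtain ⟨Z, r1, r2, r3, r4, r5, r6⟩ := s3 Y (r + 1) (by omega) hY (by omega) (by omega)
    (fun j a b => by rw [y3 j a b, hS' j a b]) (fun j a b => y4 j a (by omega))
  rw [hyn] at r1 r6
  refine ⟨Z, y6 Z r1, by omega, r3.trans y2, r4, fun i a b => ?_, fun i a b => ?_⟩
  · by_cases hi : i = nt W + 1
    · subst hi
      have f1 := r6 1 (by omega) (by omega)
      have f2 := y5 0 le_rfl hr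
      have f3 := hm x.n hx.1 le_rfl
      rw [add_zero] at f2
      rw [show (nt W : ℤ) + x.n + 1 = nt W + 1 + x.n by ring] at f1
      rw [if_pos rfl, ← add_assoc, f1, f2, f3, top hx]
    · rw [if_neg hi]
      exact r5 i a (by omega)
  · have f1 := r6 (i + 1) (by omega) (by omega)
    rw [show (nt W : ℤ) + x.n + (i + 1) = nt W + 1 + x.n + i by ring,
      show z.n + nt W + (i + 1) = z.n + (nt W + 1) + i by ring] at f1
    rw [f1, y5 i a b]

theorem step_tp {W : List Lt} {x y z : St} {e E : List (ℕ × ℕ)} {S : ℤ → ℕ}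
    (hx : x.Ok) (hs : Stp (.t 1) x y e) (ih : Concl W y z E S) :
    Concl (.t 1 :: W) x z (e ++ E) (fun j => if j = nt W + 1 then x.b 0 else S j) := by
  obtain ⟨hn, hyn, hyc, hyb, he⟩ := hs
  subst he
  refine step_t hx (Or.inl rfl) hyn hyc ih ?_
  intro X r hr hX hXn h0 hm
  refine ⟨X, hX, rfl, rfl, fun _ _ _ => rfl, fun j a b => ?_, fun _ _ _ => rfl, fun Z h => ?_⟩
  · by_cases hj : j = 0
    · subst hj
      rw [add_zero, h0]
    · have f1 := hm (j - 1) (by omega) (by omega)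
      have f2 := hyb (j - 1)
      rw [show j - 1 + 1 = j by ring] at f2
      rw [show (nt W : ℤ) + 1 + (j - 1) = nt W + j by ring] at f1
      rw [f1, f2]
  · have : rw90 x.n (.t 1 :: W) = rw90 x.n W := by simp [rw90]
    rw [this]
    exact h

theorem step_tm (b1 : SB1) {W : List Lt} {x y z : St} {e E : List (ℕ × ℕ)} {S : ℤ → ℕ}
    (hx : x.Ok) (hs : Stp (.t (-1)) x y e) (ih : Concl W y z E S) :
    Concl (.t (-1) :: W) x z (e ++ E) (fun j => if j = nt W + 1 then x.b 0 else S j) := by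
  obtain ⟨hn, hyn, hyc, hyb, he⟩ := hs
  subst he
  refine step_t hx (Or.inr rfl) hyn hyc ih ?_
  intro X r hr hX hXn h0 hm
  have ha : (0 : ℤ) ≤ nt W := Int.natCast_nonneg _
  have hy' : ∀ j, y.b j = x.b (j + 1) := fun j => by
    have := hyb (j + 1)
    rwa [show j + 1 + -1 = j by ring] at this
  have hcl : X.b (nt W) = X.b (nt W + 2) := by
    have := hm 1 (by omega) (by omega)
    rw [show (nt W : ℤ) + 1 + 1 = nt W + 2 by ring] at this
    rw [h0, this, hy' 0, zero_add]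
  obtain ⟨P, hP, hp⟩ := b1.ex_d hX (nt W) ha (by omega) hcl
  obtain ⟨-, -, pn, pc, pL, pH, -⟩ := id hp
  obtain ⟨Q, hQ, hq, qi⟩ := b1.ex_u hP (nt W + x.n - 1) (y.b x.n) (by omega) (by omega)
  obtain ⟨-, -, qn, qc, qL, qH, -⟩ := id hq
  refine ⟨Q, hQ, by omega, qc.trans pc, fun j a b => ?_, fun j a b => ?_, fun j a b => ?_,
    fun Z h => ?_⟩
  · rw [qL j a (by omega), pL j a b]
  · by_cases hj : j = x.n
    · subst hj
      rw [show (nt W : ℤ) + x.n - 1 + 1 = nt W + x.n by ring] at qi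
      exact qi
    · rw [qL _ (by omega) (by omega), pH _ (by omega) (by omega), hy' j,
        show (nt W : ℤ) + j + 2 = nt W + 1 + (j + 1) by ring, hm _ (by omega) (by omega)]
  · have f1 := qH (nt W + x.n - 1 + j) (by omega) (by omega)
    have f2 := pH (nt W + x.n - 1 + j) (by omega) (by omega)
    rw [show (nt W : ℤ) + x.n - 1 + j + 2 = nt W + 1 + x.n + j by ring] at f1 f2
    rw [f1, f2]
  · have : rw90 x.n (.t (-1) :: W) = .d (nt W) :: .u (nt W + x.n - 1) :: rw90 x.n W := by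
      simp [rw90]
    rw [this]
    exact ⟨hX, P, [], E, hp, ⟨hP, Q, [], E, hq, h, rfl⟩, rfl⟩

theorem mid (b1 : SB1) : ∀ (W : List Lt) (x z : St) (E : List (ℕ × ℕ)), Pl x.n W → Run W x z E →
    ∃ S, Concl W x z E S
  | [], x, z, E, _, ⟨hx, hz, hE⟩ => by
    subst hz hE
    refine ⟨fun _ => z.b 0, rfl, rfl, ?_⟩
    intro X r hr hX hXn hXc hS hm
    simp only [nt, Nat.cast_zero, zero_add, add_zero] at *
    refine ⟨X, ⟨hX, rfl, rfl⟩, hXn, rfl, hm, fun i a b => ?_, fun _ _ _ => rfl⟩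
    have : i = 0 := by omega
    subst this
    rw [add_zero, hm _ hx.1 le_rfl, top hx]
  | .s i :: W, x, z, E, hp, ⟨_, y, e, E', hs, hr, hE⟩ => by
    subst hE
    obtain ⟨S, ih⟩ := mid b1 W y z E' (by rw [hs.2.1]; exact hp.2.2) hr
    exact ⟨S, step_s b1 hp.1 hp.2.1 hs ih⟩
  | .u i :: W, x, z, E, hp, ⟨_, y, e, E', hs, hr, hE⟩ => by
    subst hE
    obtain ⟨S, ih⟩ := mid b1 W y z E' (by rw [hs.2.2.1]; exact hp.2.2) hr
    exact ⟨S, step_u b1 hs ih⟩
  | .d i :: W, x, z, E, hp, ⟨_, y, e, E', hs, hr, hE⟩ => by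
    subst hE
    have hn : y.n = x.n - 2 := by
      have := hs.2.2.1
      omega
    obtain ⟨S, ih⟩ := mid b1 W y z E' (by rw [hn]; exact hp.2.2) hr
    exact ⟨S, step_d b1 hs ih⟩
  | .t k :: W, x, z, E, hp, ⟨hx, y, e, E', hs, hr, hE⟩ => by
    subst hE
    obtain ⟨S, ih⟩ := mid b1 W y z E' (by rw [hs.2.1]; exact hp.2.2) hr
    rcases hp.1 with hk | hk
    · subst hk
      exact ⟨_, step_tp hx hs ih⟩
    · subst hk
      exact ⟨_, step_tm b1 hx hs ih⟩

theorem cups_run (b1 : SB1) {a : ℤ} {X : St} (hX : X.Ok) (hn : X.n = a) (g : ℤ → ℕ)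
    (hg : g 0 = X.b a) : ∀ k : ℕ, ∃ Y, Run (cups k a) X Y [] ∧ Y.n = a + 2 * k ∧ Y.c = X.c ∧
      (∀ j : ℤ, 0 ≤ j → j ≤ a → Y.b j = X.b j) ∧ (∀ j : ℤ, 0 ≤ j → j ≤ k → Y.b (a + j) = g j) ∧
      ∀ j : ℤ, 0 ≤ j → j ≤ k → Y.b (a + 2 * k - j) = g j
  | 0 => by
    refine ⟨X, ⟨hX, rfl, rfl⟩, by simp [hn], rfl, fun _ _ _ => rfl, fun j a b => ?_,
      fun j a b => ?_⟩
    · have : j = 0 := by omega
      subst this
      rw [add_zero, hg]
    · have : j = 0 := by omega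
      subst this
      simp [hg]
  | k + 1 => by
    obtain ⟨Y, r1, r2, r3, r4, r5, r6⟩ := cups_run b1 hX hn g hg k
    have ha : 0 ≤ a := hn ▸ hX.1
    have hY := b1.okr r1
    obtain ⟨Q, hQ, hq, qi⟩ := b1.ex_u hY (a + k) (g (k + 1)) (by omega) (by omega)
    obtain ⟨-, -, qn, qc, qL, qH, -⟩ := id hq
    have hc : cups (k + 1) a = cups k a ++ [.u (a + k)] := by
      simp [cups, List.range_succ]
    refine ⟨Q, ?_, by push_cast; omega, qc.trans r3, fun j p q => ?_, fun j p q => ?_,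
      fun j p q => ?_⟩
    · rw [hc]
      exact b1.app.2 ⟨Y, [], [], r1, ⟨hY, Q, [], [], hq, ⟨hQ, rfl, rfl⟩, rfl⟩, rfl⟩
    · rw [qL j p (by omega), r4 j p q]
    · push_cast at q
      by_cases hj : j = k + 1
      · subst hj
        rw [← add_assoc]
        exact qi
      · rw [qL _ (by omega) (by omega), r5 j p (by omega)]
    · push_cast at q ⊢
      by_cases hj : j = k + 1
      · subst hj
        rw [show a + 2 * ((k : ℤ) + 1) - (k + 1) = a + k + 1 by ring]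
        exact qi
      · rw [show a + 2 * ((k : ℤ) + 1) - j = a + 2 * k - j + 2 by ring,
          qH _ (by omega) (by omega), r6 j p (by omega)]

theorem caps_run (b1 : SB1) {a : ℤ} (ha : 0 ≤ a) : ∀ (k : ℕ) (X : St), X.Ok → X.n = a + 2 * k →
    (∀ j : ℤ, 0 ≤ j → j ≤ k → X.b j = X.b (a + 2 * k - j)) →
    ∃ Y, Run (caps k) X Y [] ∧ Y.n = a ∧ Y.c = (X.c + k) % 2 ∧
      ∀ j : ℤ, 0 ≤ j → j ≤ a → Y.b j = X.b (k + j)
  | 0, X, hX, hn, _ => by
    refine ⟨X, ⟨hX, rfl, rfl⟩, by simpa using hn, ?_, fun j _ _ => by simp⟩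
    have := hX.2.2.1
    push_cast
    omega
  | k + 1, X, hX, hn, hs => by
    push_cast at hn hs ⊢
    obtain ⟨P, hP, hp⟩ := b1.ex_t hX (by omega) 1
    obtain ⟨-, pn, pc, pb, -⟩ := id hp
    have hcl : P.b 0 = P.b (0 + 2) := by
      have f1 := pb (-1)
      have f2 := pb 1
      have f3 := hs 1 (by omega) (by omega)
      have f4 := hX.2.2.2.1 (-1)
      rw [show (-1 : ℤ) + 1 = 0 by ring] at f1
      rw [show (1 : ℤ) + 1 = 0 + 2 by ring] at f2
      rw [show -1 + X.n = a + 2 * ((k : ℤ) + 1) - 1 by omega] at f4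
      rw [f1, f2, f3, f4]
    obtain ⟨Q, hQ, hq⟩ := b1.ex_d hP 0 le_rfl (by omega) hcl
    obtain ⟨-, -, qn, qc, -, qH, -⟩ := id hq
    have hQb : ∀ j : ℤ, 0 ≤ j → j ≤ a + 2 * k → Q.b j = X.b (j + 1) := fun j p q => by
      rw [qH j p (by omega), show j + 2 = j + 1 + 1 by ring, pb]
    obtain ⟨Y, r1, r2, r3, r4⟩ := caps_run b1 ha k Q hQ (by omega) (fun j p q => by
      rw [hQb j p (by omega), hQb _ (by omega) (by omega), hs _ (by omega) (by omega)]
      congr 1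
      ring)
    have hc : caps (k + 1) = .t 1 :: .d 0 :: caps k := by
      simp [caps, List.replicate_succ]
    refine ⟨Y, ?_, r2, by omega, fun j p q => ?_⟩
    · rw [hc]
      exact ⟨hX, P, [], [], hp, ⟨hP, Q, [], [], hq, r1, rfl⟩, rfl⟩
    · rw [r4 j p q, hQb _ (by omega) (by omega)]
      congr 1
      ring

end G2aaux

open G2aaux in
theorem pG2a (b1 : SB1) : SG2a := by
  intro n c W E hp ⟨b, hr⟩
  have hx := b1.okl hr
  have hn0 : 0 ≤ n := hx.1
  have hn2 : n % 2 = 0 := hx.2.1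
  have hc : c = 0 ∨ c = 1 := hx.2.2.1
  have hwc : c = (c + dc W) % 2 := b1.wc hr
  have hpar := par W n hp
  have ha : (0 : ℤ) ≤ nt W := Int.natCast_nonneg _
  have ha2 : (nt W : ℤ) % 2 = 0 := by omega
  have htop : b n = b 0 := top hx
  obtain ⟨S, s1, s2, s3⟩ := mid b1 W ⟨n, c, b⟩ ⟨n, c, b⟩ E hp hr
  simp only at s1 s2 s3
  obtain ⟨hX, hXb⟩ := b1.ofF (n := nt W) (c := c) S ha ha2 hc (s1.trans s2.symm)
  have hk : (n.toNat : ℤ) = n := Int.toNat_of_nonneg hn0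
  obtain ⟨Y, y1, y2, y3, y4, y5, y6⟩ := cups_run b1 (a := nt W) hX rfl b
    (by rw [hXb _ ha le_rfl, s1]) n.toNat
  rw [hk] at y2 y5 y6
  have y3' : Y.c = c := y3
  obtain ⟨Z, z1, z2, z3, z4, z5, z6⟩ := s3 Y n hn0 (b1.okr y1) (by omega) (by omega)
    (fun j p q => by rw [y4 j p q, hXb j p q]) y5
  obtain ⟨T, t1, t2, t3, t4⟩ := caps_run b1 ha n.toNat Z (b1.okr z1) (by omega) (fun j p q => by
    rw [hk] at q ⊢
    have f := z6 (n - j) (by omega) (by omega)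
    rw [show n + nt W + (n - j) = nt W + 2 * n - j by ring,
      show (nt W : ℤ) + n + (n - j) = nt W + 2 * n - j by ring] at f
    rw [z4 j p q, f, y6 j p q])
  rw [hk] at t3 t4
  have hT : T = St.ofF (nt W) c S := b1.ext (b1.okr t1) hX t2 (by
      show T.c = c
      omega) (fun j p q => by
    rw [t2] at q
    rw [t4 j p q, z5 j p q, hXb j p q])
  subst hT
  refine ⟨(St.ofF (nt W) c S).b, ?_⟩
  have : E = [] ++ E ++ [] := by simp
  rw [this]
  exact b1.app.2 ⟨Z, _, _, b1.app.2 ⟨Y, _, _, y1, z1, rfl⟩, t1, rfl⟩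

end Pool.Agent.P.MP_5af56b_co.Tor
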