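import Pool.Agent.P.MP_5af56b_co.Tor.Stmt

namespace Pool.Agent.P.MP_5af56b_co.Tor

namespace G2baux

lemma ndvd {n k : ℤ} (h0 : k ≠ 0) (h1 : k < n) (h2 : -n < k) : ¬ n ∣ k := by
  intro h
  exact h0 (Int.eq_zero_of_abs_lt_dvd h (abs_lt.mpr ⟨h2, h1⟩))

lemma run_cups (b1 : SB1) (a : ℤ) : ∀ (m : ℕ) {Y X : St} {E : List (ℕ × ℕ)},
    Run (cups m a) Y X E → Y.n = a → E = [] ∧ X.n = a + 2 * m ∧ X.c = Y.c ∧
      (∀ j, 0 ≤ j → j ≤ a → X.b j = Y.b j) ∧
      ∀ j : ℤ, 0 ≤ j → j ≤ m → X.b (a + 2 * m - j) = X.b (a + j)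
  | 0, Y, X, E, h, ha => by
    obtain ⟨-, rfl, rfl⟩ := h
    refine ⟨rfl, by simpa using ha, rfl, fun _ _ _ => rfl, fun j h0 h1 => ?_⟩
    congr 1
    omega
  | m + 1, Y, X, E, h, ha => by
    have e : cups (m + 1) a = cups m a ++ [Lt.u (a + m)] := by
      simp [cups, List.range_succ]
    rw [e] at h
    obtain ⟨V, E1, E2, r1, r2, rfl⟩ := b1.app.mp h
    obtain ⟨rfl, hn, hc, h1, h2⟩ := run_cups b1 a m r1 ha
    have ha0 : 0 ≤ a := ha ▸ (b1.okl r1).1
    obtain ⟨-, y, e, E', ⟨-, -, sn, sc, s1, s2, rfl⟩, ⟨-, rfl, rfl⟩, rfl⟩ := r2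
    refine ⟨rfl, by push_cast; omega, by omega, fun j j0 j1 => ?_, fun j j0 j1 => ?_⟩
    · rw [s1 j j0 (by omega), h1 j j0 j1]
    · push_cast at j1 ⊢
      rcases eq_or_lt_of_le j1 with rfl | j2
      · congr 1
        omega
      · rw [s1 (a + j) (by omega) (by omega), ← h2 j j0 (by omega),
          ← s2 (a + 2 * m - j) (by omega) (by omega)]
        congr 1
        omega

lemma run_caps (b1 : SB1) : ∀ (m : ℕ) {Z Y : St} {E : List (ℕ × ℕ)},
    Run (caps m) Z Y E → E = [] ∧ Z.n = Y.n + 2 * m ∧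
      (∀ j, 0 ≤ j → j ≤ Y.n → Y.b j = Z.b (j + m)) ∧
      ∀ k : ℤ, 0 ≤ k → k ≤ m → Z.b k = Z.b (Z.n - k)
  | 0, Z, Y, E, h => by
    obtain ⟨ok, rfl, rfl⟩ := h
    refine ⟨rfl, by simp, fun _ _ _ => by simp, fun k h0 h1 => ?_⟩
    obtain rfl : k = 0 := by omega
    simpa using (ok.2.2.2.1 0).symm
  | m + 1, Z, Y, E, h => by
    have e : caps (m + 1) = Lt.t 1 :: Lt.d 0 :: caps m := by
      simp [caps, List.replicate_succ]
    rw [e] at h
    obtain ⟨ok, V, e1, E1, ⟨-, tn, -, t1, rfl⟩, ⟨-, U, e2, E2, ⟨-, -, dn', -, -, d2, rfl⟩, r, rfl⟩,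
      rfl⟩ := h
    obtain ⟨rfl, hn, h1, h2⟩ := run_caps b1 m r
    have hY : 0 ≤ Y.n := (b1.okr r).1
    have hU : ∀ j, 0 ≤ j → j ≤ U.n → U.b j = Z.b (j + 1) := fun j j0 j1 => by
      rw [d2 j j0 j1, ← t1 (j + 1)]
      congr 1
      omega
    refine ⟨rfl, by push_cast; omega, fun j j0 j1 => ?_, fun k k0 k1 => ?_⟩
    · rw [h1 j j0 j1, hU _ (by omega) (by omega)]
      congr 1
      push_cast
      omega
    · push_cast at k1
      rcases eq_or_lt_of_le k0 with rfl | k2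
      · simpa using (ok.2.2.2.1 0).symm
      · have := h2 (k - 1) (by omega) (by omega)
        rw [hU _ (by omega) (by omega), hU _ (by omega) (by omega)] at this
        convert this using 2 <;> omega

/-- the labels to the right of the window persist -/
lemma pers : ∀ (W : List Lt) {n r : ℤ} {X Z : St} {E : List (ℕ × ℕ)}, Pl n W → 0 ≤ r →
    X.n = nt W + n + r → Run (rw90 n W) X Z E →
      ∀ i, 0 ≤ i → i ≤ r → Z.b (n + dn W + nt W + i) = X.b (nt W + n + i)
  | [], n, r, X, Z, E, _, _, _, h, i, _, _ => by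
    obtain ⟨-, rfl, -⟩ := h
    simp [dn, nt]
  | .s k :: W, n, r, X, Z, E, hp, hr, hn, h, i, i0, i1 => by
    obtain ⟨p1, p2, p3⟩ := hp
    obtain ⟨-, Y, e, E', ⟨-, sn, -, s1, -⟩, h', -⟩ := h
    simp only [nt, dn, dl] at hn ⊢
    have := pers W p3 hr (sn.trans hn) h' i i0 i1
    rw [s1 _ (ndvd (by omega) (by omega) (by omega))] at this
    convert this using 2
    omega
  | .u k :: W, n, r, X, Z, E, hp, hr, hn, h, i, i0, i1 => by
    obtain ⟨p1, p2, p3⟩ := hp
    obtain ⟨-, Y, e, E', ⟨-, -, sn, -, -, s2, -⟩, h', -⟩ := h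
    simp only [nt, dn, dl] at hn ⊢
    have := pers W p3 hr (by omega) h' i i0 i1
    rw [← s2 _ (by omega) (by omega)]
    convert this using 2 <;> omega
  | .d k :: W, n, r, X, Z, E, hp, hr, hn, h, i, i0, i1 => by
    obtain ⟨p1, p2, p3⟩ := hp
    obtain ⟨-, Y, e, E', ⟨-, -, sn, -, -, s2, -⟩, h', -⟩ := h
    simp only [nt, dn, dl] at hn ⊢
    have := pers W p3 hr (by omega) h' i i0 i1
    rw [s2 _ (by omega) (by omega)] at this
    convert this using 2 <;> omega
  | .t k :: W, n, r, X, Z, E, hp, hr, hn, h, i, i0, i1 => by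
    obtain ⟨p1, p2, p3⟩ := hp
    simp only [nt, dn, dl] at hn ⊢
    push_cast at hn ⊢
    rcases p1 with rfl | rfl
    · have h' : Run (rw90 n W) X Z E := by simpa [rw90] using h
      have := pers W (r := r + 1) p3 (by omega) (by omega) h' (i + 1) (by omega) (by omega)
      convert this using 2 <;> omega
    · have h' : Run (.d (nt W) :: .u (nt W + n - 1) :: rw90 n W) X Z E := by simpa [rw90] using h
      obtain ⟨-, X1, e1, E1, ⟨-, -, n1, -, -, d2, -⟩,
        ⟨-, X2, e2, E2, ⟨-, -, n2, -, -, u2, -⟩, h'', -⟩, -⟩ := h'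
      have := pers W (r := r + 1) p3 (by omega) (by omega) h'' (i + 1) (by omega) (by omega)
      have e1 := u2 (nt W + n + i - 1) (by omega) (by omega)
      have e2 := d2 (nt W + n + i - 1) (by omega) (by omega)
      calc _ = Z.b (n + dn W + nt W + (i + 1)) := by congr 1; omega
        _ = X2.b (nt W + n + i - 1 + 2) := by rw [this]; congr 1; omega
        _ = _ := by rw [e1, e2]; congr 1; omega

lemma main (b1 : SB1) : ∀ (W : List Lt) {n r : ℤ} {X Z x : St} {E : List (ℕ × ℕ)}, Pl n W →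
    0 ≤ r → X.n = nt W + n + r → Run (rw90 n W) X Z E →
    (∀ i : ℤ, 0 ≤ i → i ≤ nt W → Z.b (n + dn W + i) = X.b i) → x.Ok → x.n = n →
    x.c = (X.c + nt W) % 2 → (∀ j, 0 ≤ j → j ≤ n → x.b j = X.b (nt W + j)) →
      ∃ z, Run W x z E ∧ z.c = X.c % 2 ∧ ∀ j, 0 ≤ j → j ≤ z.n → z.b j = Z.b j
  | [], n, r, X, Z, x, E, _, _, _, h, _, ok, xn, xc, xb => by
    obtain ⟨-, rfl, rfl⟩ := h
    refine ⟨x, ⟨ok, rfl, rfl⟩, by simpa [nt] using xc, fun j j0 j1 => ?_⟩
    simpa [nt] using xb j j0 (xn ▸ j1)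
  | .s k :: W, n, r, X, Z, x, E, hp, hr, hn, h, hz, ok, xn, xc, xb => by
    obtain ⟨p1, p2, p3⟩ := hp
    obtain ⟨-, Y, e, E', ⟨-, sn, sc, s1, rfl⟩, h', rfl⟩ := h
    simp only [nt, dn, dl, zero_add] at hn hz xc xb
    obtain ⟨y, oky, yn, yc, yk, yb⟩ := b1.ex_s ok (by omega) k (Y.b (k + nt W))
    obtain ⟨z, rz, zc, zb⟩ := main b1 W (x := y) p3 hr (sn.trans hn) h'
      (fun i i0 i1 => by rw [hz i i0 i1, s1 _ (ndvd (by omega) (by omega) (by omega))]) oky
      (yn.trans xn) (by rw [yc, xc, sc]) fun j j0 j1 => by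
        rcases eq_or_ne j k with rfl | hj
        · rw [yk, add_comm]
        · rw [yb _ (ndvd (by omega) (by omega) (by omega)), xb j j0 j1,
            s1 _ (ndvd (by omega) (by omega) (by omega))]
    refine ⟨z, ⟨ok, y, _, E', ⟨by omega, yn, yc, yb, ?_⟩, rz, rfl⟩, by rw [zc, sc], zb⟩
    rw [yk, xb k (by omega) (by omega), xb (k - 1) (by omega) (by omega),
      xb (k + 1) (by omega) (by omega), show (nt W : ℤ) + k = k + nt W by omega,
      show (nt W : ℤ) + (k - 1) = k + nt W - 1 by omega,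
      show (nt W : ℤ) + (k + 1) = k + nt W + 1 by omega]
    congr 1
    exact if_congr (by omega) rfl rfl
  | .u k :: W, n, r, X, Z, x, E, hp, hr, hn, h, hz, ok, xn, xc, xb => by
    obtain ⟨p1, p2, p3⟩ := hp
    obtain ⟨-, Y, e, E', ⟨-, -, sn, sc, s1, s2, rfl⟩, h', rfl⟩ := h
    simp only [nt, dn, dl] at hn hz xc xb
    obtain ⟨y, oky, st, yk⟩ := b1.ex_u ok k (Y.b (nt W + (k + 1))) p1 (by omega)
    have st' := st
    obtain ⟨-, -, yn, yc, y1, y2, -⟩ := st'
    obtain ⟨z, rz, zc, zb⟩ := main b1 W (x := y) p3 hr (by omega) h'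
      (fun i i0 i1 => by
        rw [s1 _ i0 (by omega), ← hz i i0 i1]
        congr 1
        omega) oky (by omega) (by rw [yc, xc, sc]) fun j j0 j1 => by
        rcases lt_trichotomy j (k + 1) with hj | rfl | hj
        · rw [y1 j j0 (by omega), xb j j0 (by omega), s1 _ (by omega) (by omega)]
        · exact yk
        · have e1 := y2 (j - 2) (by omega) (by omega)
          have e2 := s2 (nt W + (j - 2)) (by omega) (by omega)
          rw [sub_add_cancel] at e1
          rw [e1, xb _ (by omega) (by omega), ← e2]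
          congr 1
          omega
    exact ⟨z, ⟨ok, y, _, _, st, rz, rfl⟩, by rw [zc, sc], zb⟩
  | .d k :: W, n, r, X, Z, x, E, hp, hr, hn, h, hz, ok, xn, xc, xb => by
    obtain ⟨p1, p2, p3⟩ := hp
    obtain ⟨-, Y, e, E', ⟨-, -, sn, sc, s1, s2, rfl⟩, h', rfl⟩ := h
    simp only [nt, dn, dl] at hn hz xc xb
    obtain ⟨y, oky, st⟩ := b1.ex_d ok k p1 (by omega) (by
      rw [xb _ p1 (by omega), xb _ (by omega) (by omega), ← s1 _ (by omega) (by omega),
        s2 _ (by omega) (by omega)]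
      congr 1
      omega)
    have st' := st
    obtain ⟨-, -, yn, yc, y1, y2, -⟩ := st'
    obtain ⟨z, rz, zc, zb⟩ := main b1 W (x := y) p3 hr (by omega) h'
      (fun i i0 i1 => by
        rw [s1 _ i0 (by omega), ← hz i i0 i1]
        congr 1
        omega) oky (by omega) (by rw [yc, xc, sc]) fun j j0 j1 => by
        rcases le_total j k with hj | hj
        · rw [y1 j j0 hj, xb j j0 (by omega), s1 _ (by omega) (by omega)]
        · rw [y2 j hj (by omega), xb _ (by omega) (by omega), s2 _ (by omega) (by omega)]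
          congr 1
          omega
    exact ⟨z, ⟨ok, y, _, _, st, rz, rfl⟩, by rw [zc, sc], zb⟩
  | .t k :: W, n, r, X, Z, x, E, hp, hr, hn, h, hz, ok, xn, xc, xb => by
    obtain ⟨p1, p2, p3⟩ := hp
    simp only [nt, dn, dl, zero_add] at hn hz xc xb
    push_cast at hn hz xc xb
    obtain ⟨y, oky, st⟩ := b1.ex_t ok (by omega) k
    have st' := st
    obtain ⟨-, yn, yc, y1, -⟩ := st'
    have yp : y.b n = y.b 0 := by simpa [yn, xn] using oky.2.2.2.1 0
    rcases p1 with rfl | rfl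
    · have h' : Run (rw90 n W) X Z E := by simpa [rw90] using h
      have q := pers W (r := r + 1) p3 (by omega) (by omega) h' 0 le_rfl (by omega)
      have a1 : ∀ j, 1 ≤ j → j ≤ n → y.b j = X.b (nt W + j) := fun j j0 j1 => by
        have e1 := y1 (j - 1)
        rw [sub_add_cancel] at e1
        rw [e1, xb _ (by omega) (by omega)]
        congr 1
        omega
      obtain ⟨z, rz, zc, zb⟩ := main b1 W (x := y) (r := r + 1) p3 (by omega) (by omega) h'
        (fun i i0 i1 => hz i i0 (by omega)) oky (by omega) (by omega) fun j j0 j1 => by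
          rcases eq_or_lt_of_le j0 with rfl | hj
          · simp only [add_zero] at q ⊢
            rw [← yp, a1 n (by omega) le_rfl, ← q, hz _ (by omega) (by omega)]
          · exact a1 j (by omega) j1
      exact ⟨z, ⟨ok, y, _, E, st, rz, rfl⟩, zc, zb⟩
    · have h' : Run (.d (nt W) :: .u (nt W + n - 1) :: rw90 n W) X Z E := by simpa [rw90] using h
      obtain ⟨-, X1, e1, E1, ⟨-, -, n1, c1, d1, d2, rfl⟩,
        ⟨-, X2, e2, E2, ⟨-, -, n2, c2, u1, u2, rfl⟩, h'', rfl⟩, rfl⟩ := h'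
      have q := pers W (r := r + 1) p3 (by omega) (by omega) h'' 0 le_rfl (by omega)
      have a0 : ∀ i : ℤ, 0 ≤ i → i ≤ nt W → Z.b (n + dn W + i) = X2.b i := fun i i0 i1 => by
        rw [hz i i0 (by omega), u1 i i0 (by omega), d1 i i0 i1]
      have a1 : ∀ j, 0 ≤ j → j + 1 ≤ n → y.b j = X2.b (nt W + j) := fun j j0 j1 => by
        have e1 := y1 (j + 1)
        rw [show j + 1 + -1 = j by omega] at e1
        rw [e1, xb _ (by omega) (by omega), u1 _ (by omega) (by omega), d2 _ (by omega) (by omega)]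
        congr 1
        omega
      obtain ⟨z, rz, zc, zb⟩ := main b1 W (x := y) (r := r + 1) p3 (by omega) (by omega) h''
        a0 oky (by omega) (by omega) fun j j0 j1 => by
          rcases eq_or_lt_of_le j1 with rfl | hj
          · simp only [add_zero] at q
            rw [yp, a1 0 le_rfl (by omega), ← q, a0 _ (by omega) le_rfl, add_zero]
          · exact a1 j j0 (by omega)
      exact ⟨z, ⟨ok, y, _, _, st, rz, rfl⟩, by omega, zb⟩

lemma width : ∀ (W : List Lt) {n : ℤ}, Pl n W → dn (rw90 n W) = dn W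
  | [], _, _ => rfl
  | .s _ :: W, _, hp => by simp only [rw90, dn, dl, width W hp.2.2]
  | .u _ :: W, _, hp => by simp only [rw90, dn, dl, width W hp.2.2]
  | .d _ :: W, _, hp => by simp only [rw90, dn, dl, width W hp.2.2]
  | .t k :: W, _, hp => by
    simp only [rw90]
    split_ifs
    · simp only [dn, dl, width W hp.2.2, zero_add]
    · simp only [dn, dl, width W hp.2.2]
      omega

end G2baux

open G2baux in
theorem pG2b (b1 : SB1) : SG2b := by
  intro n c W E n0 n2 hp hd ⟨b, h⟩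
  obtain ⟨m, rfl⟩ := Int.eq_ofNat_of_zero_le n0
  simp only [rot90, Int.toNat_natCast] at h
  obtain ⟨Z, E12, E3, h12, h3, rfl⟩ := b1.app.mp h
  obtain ⟨X, E1, E2, h1, h2, rfl⟩ := b1.app.mp h12
  obtain ⟨rfl, xn, xc, x1, x2⟩ := run_cups b1 _ m h1 rfl
  obtain ⟨rfl, zn, z1, z2⟩ := run_caps b1 m h3
  obtain ⟨-, a2, hc, -⟩ := b1.okl h1
  simp only at xc x1 zn z1 a2 hc
  have q := pers W (r := m) hp n0 (by omega) h2
  have hz : ∀ i : ℤ, 0 ≤ i → i ≤ nt W → Z.b (m + dn W + i) = X.b i := fun i i0 i1 => by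
    rw [x1 i i0 i1, z1 i i0 i1]
    congr 1
    omega
  obtain ⟨ok, xb⟩ := b1.ofF (n := m) (c := c) (fun j => X.b (nt W + j)) n0 n2 hc (by
    have := q 0 le_rfl n0
    simp only [add_zero] at this ⊢
    rw [← this, hz _ (by omega) le_rfl])
  obtain ⟨z, rz, zc, zb⟩ := main b1 W (r := m) hp n0 (by omega) h2 hz ok rfl
    (by change c = _; omega) xb
  have wn := b1.wn rz
  have e : z = St.ofF m c fun j => X.b (nt W + j) := by
    have wn' : z.n = m := by rw [wn, hd]; exact add_zero _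
    refine b1.ext (b1.okr rz) ok wn' (by change _ = c; omega) fun j j0 j1 => ?_
    rw [zb j j0 j1, xb j j0 (by omega), z2 j j0 (by omega), ← x2 j j0 (by omega)]
    have := q (m - j) (by omega) (by omega)
    convert this using 2 <;> omega
  rw [e] at rz
  rw [List.nil_append, List.append_nil]
  exact ⟨_, rz⟩

end Pool.Agent.P.MP_5af56b_co.Tor
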