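import Pool.Agent.P.MP_5af56b_co.Tor.Stmt

namespace Pool.Agent.P.MP_5af56b_co.Tor

namespace Gsaux

def hk (e : ℤ) (k : ℕ) : List Lt := (List.range k).map fun j : ℕ => Lt.s (2 * (j : ℤ) + e)

theorem hk_succ (e : ℤ) (k : ℕ) : hk e (k + 1) = hk e k ++ [Lt.s (2 * (k : ℤ) + e)] := by
  simp [hk, List.range_succ]

theorem half_eq (m : ℕ) (e : ℤ) : half (2 * m) e = hk e m := by
  have : ((2 * (m : ℤ)) / 2).toNat = m := by omega
  rw [half, this, hk]

theorem nd1 {m : ℕ} {d : ℤ} (h : d % 2 = 1) : ¬ (2 * (m : ℤ)) ∣ d := fun h' => by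
  have := (dvd_mul_right 2 (m : ℤ)).trans h'
  omega

theorem nd2 {m : ℕ} {d : ℤ} (h0 : d ≠ 0) (h1 : -(2 * (m : ℤ)) < d) (h2 : d < 2 * (m : ℤ)) :
    ¬ (2 * (m : ℤ)) ∣ d := fun h' =>
  h0 (Int.eq_zero_of_abs_lt_dvd h' (abs_lt.2 ⟨h1, h2⟩))

theorem hk_run (b1 : SB1) (m : ℕ) (e : ℤ) : ∀ (k : ℕ) {x y : St} {E : List (ℕ × ℕ)}, k ≤ m →
    x.n = 2 * m → Run (hk e k) x y E → y.n = x.n ∧ y.c = x.c ∧
      (∀ i, (∀ j : ℕ, j < k → ¬ (2 * (m : ℤ)) ∣ i - (2 * (j : ℤ) + e)) → y.b i = x.b i) ∧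
      E = (List.range k).map fun j : ℕ =>
        if (e + x.c) % 2 = 0 then (x.b (2 * (j : ℤ) + e), y.b (2 * (j : ℤ) + e))
        else (x.b (2 * (j : ℤ) + e - 1), x.b (2 * (j : ℤ) + e + 1)) := by
  intro k
  induction k with
  | zero =>
    intro x y E _ _ h
    obtain ⟨-, rfl, rfl⟩ := h
    exact ⟨rfl, rfl, fun _ _ => rfl, rfl⟩
  | succ k ih =>
    intro x y E hk' hn h
    rw [hk_succ, b1.app] at h
    obtain ⟨z, E1, E2, h1, h2, rfl⟩ := h
    obtain ⟨a1, a2, a3, rfl⟩ := ih (by omega) hn h1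
    obtain ⟨-, y', e', E', ⟨-, s1, s2, s3, rfl⟩, ⟨-, rfl, rfl⟩, rfl⟩ := h2
    rw [a1, hn] at s3
    refine ⟨s1.trans a1, s2.trans a2, fun i hi => ?_, ?_⟩
    · rw [s3 i (hi k (by omega)), a3 i fun j hj => hi j (by omega)]
    · rw [List.range_succ, List.map_append, List.append_nil]
      congr 1
      · refine List.map_congr_left fun j hj => ?_
        rw [List.mem_range] at hj
        rw [s3 _ (nd2 (by omega) (by omega) (by omega))]
      · have e1 : (2 * (k : ℤ) + e + z.c) % 2 = (e + x.c) % 2 := by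
          rw [a2]
          omega
        rw [List.map_singleton, e1, a3 _ fun j hj => nd2 (by omega) (by omega) (by omega),
          a3 _ fun j hj => nd1 (by omega), a3 _ fun j hj => nd1 (by omega)]

theorem hk_ex (b1 : SB1) (m : ℕ) (e : ℤ) (q : ℕ → ℕ) {x : St} (hx : x.Ok) (hn : x.n = 2 * m) :
    ∀ k : ℕ, k ≤ m → ∃ y E, Run (hk e k) x y E ∧
      ∀ j : ℕ, j < k → y.b (2 * (j : ℤ) + e) = q j := by
  intro k
  induction k with
  | zero => exact fun _ => ⟨x, [], ⟨hx, rfl, rfl⟩, fun j hj => by omega⟩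
  | succ k ih =>
    intro hk'
    obtain ⟨z, E, h1, h2⟩ := ih (by omega)
    have a1 := (hk_run b1 m e k (by omega) hn h1).1
    have hz := b1.okr h1
    obtain ⟨y, y0, y1, y2, y3, y4⟩ := b1.ex_s hz (by omega) (2 * (k : ℤ) + e) (q k)
    rw [hk_succ]
    refine ⟨y, _, b1.app.2 ⟨z, E, _, h1, ⟨hz, y, _, [], ⟨by omega, y1, y2, y4, rfl⟩,
      ⟨y0, rfl, rfl⟩, rfl⟩, rfl⟩, fun j hj => ?_⟩
    rcases Nat.lt_succ_iff_lt_or_eq.1 hj with h | rfl
    · rw [a1, hn] at y4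
      rw [y4 _ (nd2 (by omega) (by omega) (by omega)), h2 j h]
    · exact y3

def vb (x : St) (j : ℤ) : ℕ := x.b (2 * j + x.c)

def dbl (m : ℕ) (c : ℤ) (p q : ℤ → ℕ) : List (ℕ × ℕ) :=
  if c = 0 then ((List.range m).map fun j : ℕ => (p j, q j)) ++
      (List.range m).map fun j : ℕ => (q j, q (j + 1))
  else ((List.range m).map fun j : ℕ => (p (j - 1), p j)) ++
      (List.range m).map fun j : ℕ => (p j, q j)

theorem mp_dbl (ψ : ℕ → ℕ) (m : ℕ) (c : ℤ) (p q : ℤ → ℕ) :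
    mp ψ (dbl m c p q) = dbl m c (fun j => ψ (p j)) (fun j => ψ (q j)) := by
  unfold mp dbl
  split_ifs <;> simp [Function.comp_def]

theorem dbl_run (b1 : SB1) (m : ℕ) {x y : St} {E : List (ℕ × ℕ)} (hn : x.n = 2 * m)
    (h : Run (hk 0 m ++ hk 1 m) x y E) :
    y.n = x.n ∧ y.c = x.c ∧ E = dbl m x.c (vb x) (vb y) := by
  have hx := b1.okl h
  rw [b1.app] at h
  obtain ⟨z, E1, E2, h1, h2, rfl⟩ := h
  obtain ⟨a1, a2, a3, rfl⟩ := hk_run b1 m 0 m le_rfl hn h1
  obtain ⟨c1, c2, c3, rfl⟩ := hk_run b1 m 1 m le_rfl (a1.trans hn) h2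
  refine ⟨c1.trans a1, c2.trans a2, ?_⟩
  have a4 : ∀ i, i % 2 = 1 → z.b i = x.b i := fun i hi => a3 i fun j _ => nd1 (by omega)
  have c4 : ∀ i, i % 2 = 0 → y.b i = z.b i := fun i hi => c3 i fun j _ => nd1 (by omega)
  unfold dbl vb
  rw [c2, a2]
  rcases hx.2.2.1 with hc | hc
  · rw [if_pos hc, hc]
    congr 1
    · refine List.map_congr_left fun j _ => ?_
      rw [if_pos (by norm_num), c4 _ (by omega)]
    · refine List.map_congr_left fun j _ => ?_
      rw [if_neg (by norm_num), c4 _ (by omega), c4 _ (by omega)]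
      congr 2
      all_goals ring
  · rw [if_neg (by omega), hc]
    congr 1
    · refine List.map_congr_left fun j _ => ?_
      rw [if_neg (by norm_num)]
      congr 2
      all_goals ring
    · refine List.map_congr_left fun j _ => ?_
      rw [if_pos (by norm_num), a4 _ (by omega)]

theorem dbl_ex (b1 : SB1) (m : ℕ) (hm : 1 ≤ m) {x y : St} (hx : x.Ok) (hy : y.Ok)
    (hn : x.n = 2 * m) (hn' : y.n = 2 * m) (hc : y.c = x.c) :
    Run (hk 0 m ++ hk 1 m) x y (dbl m x.c (vb x) (vb y)) := by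
  obtain ⟨z, E1, h1, h2⟩ := hk_ex b1 m 0 (fun j => y.b (2 * (j : ℤ) + 0)) hx hn m le_rfl
  obtain ⟨a1, a2, -, -⟩ := hk_run b1 m 0 m le_rfl hn h1
  obtain ⟨w, E2, h3, h4⟩ := hk_ex b1 m 1 (fun j => y.b (2 * (j : ℤ) + 1)) (b1.okr h1)
    (a1.trans hn) m le_rfl
  obtain ⟨c1, c2, c3, -⟩ := hk_run b1 m 1 m le_rfl (a1.trans hn) h3
  have hw := b1.okr h3
  have hwn : w.n = 2 * m := c1.trans (a1.trans hn)
  have key : ∀ i : ℤ, 0 ≤ i → i < 2 * m → w.b i = y.b i := by
    intro i h0 hi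
    rcases Int.emod_two_eq_zero_or_one i with h | h
    · have e : i = 2 * (((i / 2).toNat : ℕ) : ℤ) + 0 := by omega
      rw [c3 i fun j _ => nd1 (by omega), e]
      exact h2 _ (by omega)
    · have e : i = 2 * (((i / 2).toNat : ℕ) : ℤ) + 1 := by omega
      rw [e]
      exact h4 _ (by omega)
  have e : w = y := b1.ext hw hy (hwn.trans hn'.symm) (c2.trans (a2.trans hc.symm)) fun i h0 hi => by
    rcases lt_or_eq_of_le hi with h | h
    · exact key i h0 (by omega)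
    · have f1 := hw.2.2.2.1 0
      have f2 := hy.2.2.2.1 0
      rw [zero_add] at f1 f2
      rw [h, f1, key 0 le_rfl (by omega), ← f2, hwn, hn']
  subst e
  have h5 : Run (hk 0 m ++ hk 1 m) x w (E1 ++ E2) := b1.app.2 ⟨z, E1, E2, h1, h3, rfl⟩
  rw [← (dbl_run b1 m hn h5).2.2]
  exact h5

theorem grid_succ (m b : ℕ) :
    grid (2 * m) (2 * (b + 1)) = grid (2 * m) (2 * b) ++ (hk 0 m ++ hk 1 m) := by
  have e0 : ((2 * b : ℕ) : ℤ) % 2 = 0 := by omega
  have e1 : ((2 * b + 1 : ℕ) : ℤ) % 2 = 1 := by omega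
  rw [grid, grid, show 2 * (b + 1) = 2 * b + 1 + 1 by ring, List.range_succ, List.range_succ]
  simp only [List.map_append, List.flatten_append, List.map_singleton, List.flatten_singleton,
    e0, e1, half_eq, List.append_assoc]

def gE (m b : ℕ) (c : ℤ) (R : ℕ → ℤ → ℕ) : List (ℕ × ℕ) :=
  (List.range b).flatMap fun l => dbl m c (R l) (R (l + 1))

theorem gE_succ (m b : ℕ) (c : ℤ) (R : ℕ → ℤ → ℕ) :
    gE m (b + 1) c R = gE m b c R ++ dbl m c (R b) (R (b + 1)) := by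
  simp [gE, List.range_succ]

theorem gE_mp (ψ : ℕ → ℕ) (m b : ℕ) (c : ℤ) (R R' : ℕ → ℤ → ℕ)
    (h : ∀ l, l ≤ b → ∀ j, R l j = ψ (R' l j)) : gE m b c R = mp ψ (gE m b c R') := by
  induction b with
  | zero => rfl
  | succ b ih =>
    have e : ∀ A B, mp ψ (A ++ B) = mp ψ A ++ mp ψ B := fun A B => List.map_append
    rw [gE_succ, gE_succ, e, mp_dbl, ih fun l hl => h l (by omega),
      show R b = fun j => ψ (R' b j) from funext (h b (by omega)),
      show R (b + 1) = fun j => ψ (R' (b + 1) j) from funext (h (b + 1) le_rfl)]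

theorem grid_ex (b1 : SB1) (m : ℕ) (hm : 1 ≤ m) (c : ℤ) (X : ℕ → St)
    (hX : ∀ l, (X l).Ok ∧ (X l).n = 2 * m ∧ (X l).c = c) (b : ℕ) :
    Run (grid (2 * m) (2 * b)) (X 0) (X b) (gE m b c fun l => vb (X l)) := by
  induction b with
  | zero => exact ⟨(hX 0).1, rfl, rfl⟩
  | succ b ih =>
    rw [grid_succ, gE_succ, b1.app]
    refine ⟨X b, _, _, ih, ?_, rfl⟩
    have := dbl_ex b1 m hm (hX b).1 (hX (b + 1)).1 (hX b).2.1 (hX (b + 1)).2.1
      ((hX (b + 1)).2.2.trans (hX b).2.2.symm)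
    rwa [(hX b).2.2] at this

theorem grid_run (b1 : SB1) (m : ℕ) {x : St} (hn : x.n = 2 * m) : ∀ (b : ℕ) {z : St}
    {E : List (ℕ × ℕ)}, Run (grid (2 * m) (2 * b)) x z E → ∃ X : ℕ → St, X 0 = x ∧ X b = z ∧
      (∀ l, (X l).Ok ∧ (X l).n = 2 * m ∧ (X l).c = x.c) ∧ E = gE m b x.c fun l => vb (X l) := by
  intro b
  induction b with
  | zero =>
    intro z E h
    obtain ⟨hx, rfl, rfl⟩ := h
    exact ⟨fun _ => z, rfl, rfl, fun _ => ⟨hx, hn, rfl⟩, rfl⟩
  | succ b ih =>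
    intro z E h
    rw [grid_succ, b1.app] at h
    obtain ⟨y, E1, E2, h1, h2, rfl⟩ := h
    obtain ⟨X, a0, rfl, a2, rfl⟩ := ih h1
    obtain ⟨c1, c2, rfl⟩ := dbl_run b1 m (a2 b).2.1 h2
    refine ⟨fun l => if l ≤ b then X l else z, by simpa using a0, by simp, fun l => ?_, ?_⟩
    · by_cases hl : l ≤ b
      · simpa only [if_pos hl] using a2 l
      · simp only [if_neg hl]
        exact ⟨b1.okr h2, c1.trans (a2 b).2.1, c2.trans (a2 b).2.2⟩
    · rw [gE_succ, (a2 b).2.2]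
      congr 1
      · have := gE_mp id m b x.c (fun l => vb (X l)) (fun l => vb (if l ≤ b then X l else z))
          fun l hl j => by simp only [if_pos hl, id]
        simpa [mp] using this
      · simp

def lab (m b a l : ℕ) (j : ℤ) : ℕ :=
  if l < b then l * m + (j % m).toNat else ((j + a) % m).toNat

theorem lab_per (m b a l : ℕ) {i j : ℤ} (h : i % m = j % m) : lab m b a l i = lab m b a l j := by
  unfold lab
  rw [h, Int.add_emod, h, ← Int.add_emod]

theorem lab_top (m b a : ℕ) (hb : 1 ≤ b) (j : ℤ) : lab m b a b j = lab m b a 0 (j + a) := by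
  unfold lab
  rw [if_neg (lt_irrefl _), if_pos (by omega), zero_mul, zero_add]

theorem mem_per {m : ℕ} (hm : 1 ≤ m) (g : ℤ → ℕ × ℕ)
    (hg : ∀ i j : ℤ, i % m = j % m → g i = g j)
    (j : ℤ) : g j ∈ (List.range m).map fun k : ℕ => g k := by
  have h0 : 0 ≤ j % m := Int.emod_nonneg _ (by omega)
  have h1 : j % m < m := Int.emod_lt_of_pos _ (by omega)
  refine List.mem_map.2 ⟨(j % m).toNat, List.mem_range.2 (by omega), hg _ _ ?_⟩
  rw [Int.toNat_of_nonneg h0, Int.emod_emod]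

theorem mem_gE {m b : ℕ} {c : ℤ} {R : ℕ → ℤ → ℕ} {l : ℕ} (hl : l < b) {p : ℕ × ℕ}
    (h : p ∈ dbl m c (R l) (R (l + 1))) : p ∈ gE m b c R :=
  List.mem_flatMap.2 ⟨l, List.mem_range.2 hl, h⟩

theorem tg_sub {m b a : ℕ} (c : ℤ) (hm : 1 ≤ m) (hb : 1 ≤ b) {p : ℕ × ℕ} (hp : p ∈ tgE m b a) :
    p ∈ gE m b c (lab m b a) := by
  obtain ⟨l, hl, hp⟩ := List.mem_flatMap.1 hp
  obtain ⟨j, hj, hp⟩ := List.mem_flatMap.1 hp
  rw [List.mem_range] at hl hj
  have e0 : (j : ℤ) % m = j := Int.emod_eq_of_lt (by omega) (by omega)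
  have e1 : lab m b a l j = l * m + j := by
    rw [lab, if_pos hl, e0, Int.toNat_natCast]
  have e2 : lab m b a l (j + 1) = l * m + (j + 1) % m := by
    rw [lab, if_pos hl]
    congr 1
  have e3 : lab m b a (l + 1) j = if l + 1 < b then (l + 1) * m + j else (j + a) % m := by
    rw [lab, e0, Int.toNat_natCast]
    congr 1
  have sh : ∀ (d : ℤ) {i j : ℤ}, i % m = j % m → (i + d) % m = (j + d) % m := fun d i j h => by
    rw [Int.add_emod, h, ← Int.add_emod]
  simp only [List.mem_cons, List.not_mem_nil, or_false] at hp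
  rcases hp with rfl | rfl
  · rw [← e2, ← e1]
    by_cases hc : c = 0
    · have key : ∀ l', l' < b → ∀ i : ℤ,
          (lab m b a (l' + 1) i, lab m b a (l' + 1) (i + 1)) ∈ gE m b c (lab m b a) := by
        intro l' hl' i
        refine mem_gE hl' ?_
        rw [dbl, if_pos hc]
        exact List.mem_append_right _ (mem_per hm
          (fun i => (lab m b a (l' + 1) i, lab m b a (l' + 1) (i + 1))) (fun i j h => by
            rw [lab_per m b a _ h, lab_per m b a _ (sh 1 h)]) i)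
      rcases Nat.eq_zero_or_pos l with rfl | h0
      · have := key (b - 1) (by omega) (j - a)
        rw [show b - 1 + 1 = b by omega, lab_top m b a hb, lab_top m b a hb,
          show (j : ℤ) - a + a = j by ring, show (j : ℤ) - a + 1 + a = j + 1 by ring] at this
        exact this
      · have := key (l - 1) (by omega) j
        rwa [show l - 1 + 1 = l by omega] at this
    · refine mem_gE hl ?_
      rw [dbl, if_neg hc]
      have := mem_per hm (fun i => (lab m b a l (i - 1), lab m b a l i)) (fun i j h => by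
        rw [lab_per m b a _ h, sub_eq_add_neg, sub_eq_add_neg, lab_per m b a _ (sh (-1) h)])
        ((j : ℤ) + 1)
      rw [add_sub_cancel_right] at this
      exact List.mem_append_left _ this
  · rw [← e3, ← e1]
    refine mem_gE hl ?_
    have : (lab m b a l j, lab m b a (l + 1) j) ∈
        (List.range m).map fun k : ℕ => (lab m b a l k, lab m b a (l + 1) k) :=
      List.mem_map.2 ⟨j, List.mem_range.2 hj, rfl⟩
    unfold dbl
    split_ifs
    · exact List.mem_append_left _ this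
    · exact List.mem_append_right _ this

theorem sminor_of {H E E' : List (ℕ × ℕ)} {φ ψ : ℕ → ℕ} (h1 : E' = mp φ E) (h2 : E = mp ψ E')
    (h3 : ∀ p ∈ H, p ∈ E') : SMinor (gr H) (gr E) := by
  have fx : ∀ p ∈ E, ψ (φ p.1) = p.1 ∧ ψ (φ p.2) = p.2 := by
    intro p hp
    rw [h1, mp, mp, List.map_map] at h2
    have h4 : E.map id = E.map (Prod.map ψ ψ ∘ Prod.map φ φ) := by rwa [List.map_id]
    have h5 := List.map_inj_left.1 h4 p hp
    exact ⟨(congrArg Prod.fst h5).symm, (congrArg Prod.snd h5).symm⟩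
  refine ⟨{u | ψ (φ u) = u}, φ, ⟨?_, ?_⟩⟩
  · intro u hu v hv e
    have : u = v := by rw [← (hu : ψ (φ u) = u), e, (hv : ψ (φ v) = v)]
    subst this
    exact Relation.ReflTransGen.refl
  · rintro x y ⟨hne, h | h⟩
    · have h4 := h3 _ h
      rw [h1] at h4
      obtain ⟨p, hp, e⟩ := List.mem_map.1 h4
      obtain ⟨e1, e2⟩ : φ p.1 = x ∧ φ p.2 = y := ⟨congrArg Prod.fst e, congrArg Prod.snd e⟩
      exact ⟨p.1, (fx p hp).1, p.2, (fx p hp).2, e1, e2,
        fun e3 => hne (by rw [← e1, ← e2, e3]), Or.inl hp⟩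
    · have h4 := h3 _ h
      rw [h1] at h4
      obtain ⟨p, hp, e⟩ := List.mem_map.1 h4
      obtain ⟨e1, e2⟩ : φ p.1 = y ∧ φ p.2 = x := ⟨congrArg Prod.fst e, congrArg Prod.snd e⟩
      exact ⟨p.2, (fx p hp).2, p.1, (fx p hp).1, e2, e1,
        fun e3 => hne (by rw [← e1, ← e2, e3]), Or.inr hp⟩

end Gsaux

open Gsaux in
theorem pGs (a1 : SA1) (b1 : SB1) (b2 : SB2) : SGs := by
  intro m b a c E hm hb hF
  obtain ⟨⟨b0, h⟩, hU⟩ := hF
  rw [b1.app] at h
  obtain ⟨z, E1, E2, h1, h2, rfl⟩ := h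
  obtain ⟨X, a0, rfl, a2, rfl⟩ := grid_run b1 m (x := ⟨2 * m, c, b0⟩) rfl b h1
  obtain ⟨-, y', e', E', ⟨-, -, -, s3, rfl⟩, ⟨hx, rfl, rfl⟩, rfl⟩ := h2
  have hc : c = 0 ∨ c = 1 := hx.2.2.1
  simp only [List.append_nil] at hU ⊢
  let Y : ℕ → St := fun l => ⟨2 * m, c, fun i => lab m b a l (i / 2)⟩
  have hY : ∀ l, (Y l).Ok ∧ (Y l).n = 2 * m ∧ (Y l).c = c := fun l =>
    ⟨⟨by simp only [Y]; omega, by simp only [Y]; omega, hc, fun j => lab_per m b a l (by
      show ((j + 2 * (m : ℤ)) / 2) % m = _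
      rw [show (j + 2 * (m : ℤ)) / 2 = j / 2 + m by omega, Int.add_emod_right]),
      fun h => by simp only [Y] at h; omega⟩, rfl, rfl⟩
  have hv : (fun l => vb (Y l)) = lab m b a := by
    funext l j
    show lab m b a l ((2 * j + c) / 2) = _
    rw [show (2 * j + c) / 2 = j by omega]
  have r1 := grid_ex b1 m (by omega) c Y hY b
  rw [hv] at r1
  obtain ⟨φ, hφ⟩ := hU (gE m b c (lab m b a)) ⟨(Y 0).b, by
    rw [b1.app]
    refine ⟨Y b, _, [], r1, ⟨(hY b).1, Y 0, [], [], ⟨?_, rfl, ?_, fun j => ?_, rfl⟩,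
      ⟨(hY 0).1, rfl, rfl⟩, rfl⟩, (List.append_nil _).symm⟩
    · show 2 ≤ 2 * (m : ℤ)
      omega
    · show c = (c + 2 * (a : ℤ)) % 2
      omega
    · show lab m b a 0 ((j + 2 * (a : ℤ)) / 2) = lab m b a b (j / 2)
      rw [lab_top m b a hb, show (j + 2 * (a : ℤ)) / 2 = j / 2 + a by omega]⟩
  refine sminor_of hφ (ψ := fun v => vb (X (v / m)) ((v % m : ℕ) : ℤ))
    (gE_mp _ m b c _ _ fun l hl j => ?_) fun p hp => tg_sub c (by omega) hb hp
  have per : ∀ l (i j : ℤ), i % m = j % m → vb (X l) i = vb (X l) j := fun l i j h => by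
    refine b1.per (a2 l).1 ?_
    rw [(a2 l).2.1, show 2 * i + (X l).c - (2 * j + (X l).c) = 2 * (i - j) by ring]
    exact mul_dvd_mul_left 2 (Int.ModEq.dvd h.symm)
  have low : ∀ l, l < b → ∀ j : ℤ, vb (X l) j =
      vb (X (lab m b a l j / m)) ((lab m b a l j % m : ℕ) : ℤ) := by
    intro l hl j
    have h0 : 0 ≤ j % m := Int.emod_nonneg _ (by omega)
    have h1 : j % m < m := Int.emod_lt_of_pos _ (by omega)
    have h2 : (j % m).toNat < m := by omega
    rw [lab, if_pos hl, mul_comm, Nat.mul_add_div (by omega), Nat.div_eq_of_lt h2, add_zero,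
      Nat.mul_add_mod, Nat.mod_eq_of_lt h2, Int.toNat_of_nonneg h0]
    exact per l _ _ (Int.emod_emod _ _).symm
  rcases lt_or_eq_of_le hl with h | rfl
  · exact low l h j
  · show vb (X l) j = vb (X (lab m l a l j / m)) ((lab m l a l j % m : ℕ) : ℤ)
    rw [lab_top m l a hb, ← low 0 (by omega), a0, vb, vb, ← s3, (a2 l).2.2]
    congr 1
    ring

end Pool.Agent.P.MP_5af56b_co.Tor
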