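import Pool.Agent.P.MP_5af56b_co.Tor.Stmt

namespace Pool.Agent.P.MP_5af56b_co.Tor

namespace Haux

variable {n : ℤ}

lemma br_s (i : ℤ) : IsBr [Lt.s i] := fun _ h => ⟨i, Or.inl (List.mem_singleton.mp h)⟩

lemma br_t (i : ℤ) : IsBr [Lt.t i] := fun _ h => ⟨i, Or.inr (List.mem_singleton.mp h)⟩

lemma br_map (L : List ℤ) : IsBr (L.map Lt.s) := fun _ h => by
  obtain ⟨i, -, rfl⟩ := List.mem_map.mp h
  exact ⟨i, Or.inl rfl⟩

lemma em (b2 : SB2) {D D' : List Lt} (h : Eqw n D D') : Mnw n D D' := b2.mn_of h.2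

/-- rewriting at the front -/
lemma mf (b2 : SB2) {D D' : List Lt} (C : List Lt) (h : Mnw n D D') : Mnw n (D ++ C) (D' ++ C) :=
  b2.mctx [] C (by simpa [dn] using h)

lemma ef (b2 : SB2) {D D' : List Lt} (C : List Lt) (h : Eqw n D D') : Eqw n (D ++ C) (D' ++ C) :=
  b2.ectx [] C (by simpa [dn] using h)

/-- rewriting at the back -/
lemma mb (b2 : SB2) {D D' : List Lt} (A : List Lt) (hA : dn A = 0) (h : Mnw n D D') :
    Mnw n (A ++ D) (A ++ D') := by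
  simpa using b2.mctx A [] (by simpa [hA] using h)

lemma eb (b2 : SB2) {D D' : List Lt} (A : List Lt) (hA : dn A = 0) (h : Eqw n D D') :
    Eqw n (A ++ D) (A ++ D') := by
  simpa using b2.ectx A [] (by simpa [hA] using h)

lemma tt (b2 : SB2) (c1 : SC1) (hn : 2 ≤ n) {a b : ℤ} (h : a + b = 0) : Eqw n [.t a, .t b] [] := by
  refine b2.trans (c1.t1 n a b) ?_
  simpa [h] using c1.t2 0 hn

/-- deleting crossings -/
lemma sub (b2 : SB2) (c3 : SC3) (hn : 2 ≤ n) {L' L : List ℤ} (h : L'.Sublist L) :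
    Mnw n (L.map Lt.s) (L'.map Lt.s) := by
  induction h with
  | slnil => exact b2.mrefl _ _
  | cons a _ ih => exact b2.mtrans (mf b2 _ (c3.mn1 a hn)) ih
  | cons_cons a _ ih => exact mb b2 [.s a] rfl ih

/-- pulling crossings below a cup -/
lemma pull (b2 : SB2) (c1 : SC1) {L : List ℤ} (h : ∀ i ∈ L, 1 ≤ i ∧ i + 1 ≤ n) :
    Eqw n (.u 0 :: (L.map (· + 2)).map Lt.s) (L.map Lt.s ++ [.u 0]) := by
  induction L with
  | nil => exact b2.refl _ _
  | cons a L ih =>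
    have ha := h a List.mem_cons_self
    exact b2.trans (ef b2 _ (b2.symm (c1.c1 ha.1 ha.2)))
      (eb b2 [.s a] rfl (ih fun i hi => h i (List.mem_cons_of_mem _ hi)))

/-- pulling crossings below a rotation -/
lemma pullt (b2 : SB2) (c1 : SC1) (k : ℤ) (L : List ℤ) :
    Eqw n (.t k :: L.map Lt.s) ((L.map (· - k)).map Lt.s ++ [.t k]) := by
  induction L with
  | nil => exact b2.refl _ _
  | cons a L ih => exact b2.trans (ef b2 _ (c1.t3 n k a)) (eb b2 [.s (a - k)] rfl ih)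

lemma keep (b2 : SB2) (c1 : SC1) (c1b : SC1b) (c3 : SC3) (b1 : SB1) (hn : 2 ≤ n) {L : List ℤ}
    (h : ∀ i ∈ L, 1 ≤ i ∧ i + 1 ≤ n)
    (hs : (L.map (· + 2)).Sublist ((List.range n.toNat).map fun j : ℕ => (j : ℤ) + 2)) :
    Mnw n (Hw n 0) (L.map Lt.s ++ [.t 1]) := by
  have h1 := b2.mctx [.u 0] [.t 1, .d 0] (n := n) (sub b2 c3 (by simp [dn, dl]; omega) hs)
  have h2 := em b2 (ef b2 [.t 1, .d 0] (pull b2 c1 h))
  have h3 := em b2 (eb b2 (L.map Lt.s) (b1.br_dn (br_map L)) (c1b.c4b hn))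
  refine b2.mtrans ?_ (b2.mtrans h2 (by simpa using h3))
  simpa [Hw, Pk, P1, Function.comp_def] using h1

lemma odd_sub (k : ℕ) : (((List.range k).map fun j : ℕ => 2 * (j : ℤ) + 1).map (· + 2)).Sublist
    ((List.range (2 * k)).map fun j : ℕ => (j : ℤ) + 2) := by
  induction k with
  | zero => simp
  | succ k ih =>
    rw [Nat.mul_succ, List.range_succ, List.range_succ (n := 2 * k + 1), List.range_succ]
    simp only [List.map_append, List.append_assoc]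
    refine ih.append ?_
    simp

lemma half_one (b2 : SB2) (c1 : SC1) (c1b : SC1b) (c3 : SC3) (b1 : SB1) (hn : 2 ≤ n)
    (h2 : n % 2 = 0) : Mnw n (Hw n 0) (half n 1 ++ [.t 1]) := by
  have := keep b2 c1 c1b c3 b1 hn (L := (List.range (n / 2).toNat).map fun j : ℕ => 2 * (j : ℤ) + 1)
    (fun i hi => by
      obtain ⟨j, hj, rfl⟩ := List.mem_map.mp hi
      have := List.mem_range.mp hj
      omega)
    (by rw [show n.toNat = 2 * (n / 2).toNat by omega]; exact odd_sub _)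
  simpa [half, Function.comp_def] using this

lemma half_zero (b2 : SB2) (c1 : SC1) (c1b : SC1b) (c3 : SC3) (b1 : SB1) (e3 : SE3) (hn : 2 ≤ n)
    (h2 : n % 2 = 0) : Mnw n (Hw n 0) (half n 0 ++ [.t 1]) := by
  have a1 : Eqw n (Hw n 0) ([.t 1, .t (-1)] ++ Hw n 0) :=
    b2.symm (ef b2 _ (tt b2 c1 hn (by norm_num)))
  have a2 := eb b2 [.t 1] rfl (e3.cm 0 (by omega) h2 (br_t (-1)))
  have a3 := mb b2 [.t 1] rfl (mf b2 [.t (-1)] (half_one b2 c1 c1b c3 b1 hn h2))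
  have hb : IsBr (.t 1 :: half n 1) := b1.br_app.mpr ⟨br_t 1, fun _ h => by
    obtain ⟨j, -, rfl⟩ := List.mem_map.mp h
    exact ⟨_, Or.inl rfl⟩⟩
  have a4 := eb b2 _ (b1.br_dn hb) (tt b2 c1 hn (show (1 : ℤ) + -1 = 0 by norm_num))
  have a5 := pullt (n := n) b2 c1 1 ((List.range (n / 2).toNat).map fun j : ℕ => 2 * (j : ℤ) + 1)
  refine b2.mtrans (em b2 (b2.trans a1 a2)) (b2.mtrans a3 (em b2 (b2.trans ?_
    (by simpa [half, Function.comp_def] using a5))))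
  simpa [half, Function.comp_def] using a4

lemma pk_add (n : ℤ) (a b : ℕ) : Pk n (a + b + 1) = Pk n a ++ .s 1 :: Pk n b := by
  induction a with
  | zero => simp [Pk]
  | succ a ih => rw [show a + 1 + b + 1 = a + b + 1 + 1 by omega, Pk, ih]; simp [Pk]

lemma hw_add (b1 : SB1) (b2 : SB2) (c3 : SC3) (hn : 0 ≤ n) (a b : ℕ) :
    Mnw n (Hw n (a + b + 1)) (Hw n a ++ Hw n b) := by
  have := b2.mctx (.u 0 :: Pk n a) (Pk n b ++ [.d 0]) (n := n)
    (c3.mn3 (by simp [dn, dl, b1.br_dn (b1.pk_br n a)]; omega))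
  simpa [Hw, pk_add] using this

lemma z_cons (n : ℤ) (k : ℕ) (ks : List ℕ) : Z n (k :: ks) = Hw n k ++ Z n ks := by simp [Z]

lemma hw_dn (b1 : SB1) (n : ℤ) (k : ℕ) : dn (Hw n k) = 0 := by simpa [Z] using b1.z_dn n [k]

lemma wind_cons (k : ℕ) (ks : List ℕ) : wind (k :: ks) = k + 1 + wind ks := by simp [wind]

lemma hw_split (b1 : SB1) (b2 : SB2) (c3 : SC3) (hn : 0 ≤ n) (k : ℕ) :
    Mnw n (Hw n k) (Z n (List.replicate (k + 1) 0)) := by
  induction k with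
  | zero => simpa [Z] using b2.mrefl n (Hw n 0)
  | succ k ih =>
    rw [List.replicate_succ, z_cons]
    refine b2.mtrans ?_ (mb b2 _ (hw_dn b1 n 0) ih)
    simpa using hw_add b1 b2 c3 hn 0 k

lemma z_split (b1 : SB1) (b2 : SB2) (c3 : SC3) (hn : 0 ≤ n) (ks : List ℕ) :
    Mnw n (Z n ks) (Z n (List.replicate (wind ks) 0)) := by
  induction ks with
  | nil => exact b2.mrefl _ _
  | cons k ks ih =>
    rw [wind_cons, List.replicate_add, b1.z_app, z_cons]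
    exact b2.mtrans (mb b2 _ (hw_dn b1 n k) ih) (mf b2 _ (hw_split b1 b2 c3 hn k))

lemma z_max (b1 : SB1) (b2 : SB2) (c3 : SC3) (hn : 0 ≤ n) (ks : List ℕ) :
    Mnw n (ZM n (wind ks)) (Z n ks) := by
  induction ks with
  | nil => exact b2.mrefl _ _
  | cons k ks ih =>
    rw [wind_cons, z_cons]
    refine b2.mtrans ?_ (mb b2 _ (hw_dn b1 n k) ih)
    rcases wind ks with _ | w
    · simpa [ZM] using b2.mrefl n (Hw n k)
    · have := hw_add b1 b2 c3 hn k w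
      rw [ZM, ZM, if_neg (by omega), if_neg (by omega),
        show k + 1 + (w + 1) - 1 = k + w + 1 by omega]
      exact this

lemma z_t (b2 : SB2) (c1 : SC1) (ht : Mnw n (Hw n 0) [.t 1]) (r : ℕ) (s : ℤ) :
    ∃ s', Mnw n (.t s :: Z n (List.replicate r 0)) [.t s'] := by
  induction r generalizing s with
  | zero => exact ⟨s, b2.mrefl _ _⟩
  | succ r ih =>
    obtain ⟨s', h⟩ := ih (s + 1)
    rw [List.replicate_succ, z_cons]
    exact ⟨s', b2.mtrans (mb b2 [.t s] rfl (mf b2 _ ht))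
      (b2.mtrans (mf b2 (Z n (List.replicate r 0)) (em b2 (c1.t1 n s 1))) h)⟩

/-- properties of closed words that are stable under moves and rotation -/
structure Inv (n : ℤ) (Q : List Lt → Prop) : Prop where
  eq : ∀ {D D'}, Eqw n D D' → Q D' → Q D
  rot : ∀ {A B}, dn A = 0 → Q (B ++ A) → Q (A ++ B)

lemma inv_good (b2 : SB2) : Inv n (Good n) :=
  ⟨fun h => b2.good_of h.2, fun hA h => b2.good_rot (by simpa [hA] using h)⟩

lemma inv_bad (b2 : SB2) : Inv n (BadW n) :=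
  ⟨fun h => b2.bad_of (em b2 h), fun hA h => b2.bad_rot (by simpa [hA] using h)⟩

lemma Inv.swap {Q : List Lt → Prop} (q : Inv n Q) (b1 : SB1) (b2 : SB2) (e3 : SE3) (hn : 2 ≤ n)
    (h2 : n % 2 = 0) (ks : List ℕ) {U V : List Lt} (hU : IsBr U) (hV : IsBr V)
    (h : Q (U ++ V ++ Z n ks)) : Q (V ++ U ++ Z n ks) := by
  rw [List.append_assoc] at h ⊢
  refine q.rot (b1.br_dn hV) (q.eq ?_ h)
  rw [List.append_assoc]
  exact eb b2 U (b1.br_dn hU) (b2.symm (e3.cmz ks (by omega) h2 hV))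

lemma Inv.conj {Q : List Lt → Prop} (q : Inv n Q) (b1 : SB1) (b2 : SB2) (c1 : SC1) (e3 : SE3)
    (hn : 2 ≤ n) (h2 : n % 2 = 0) (ks : List ℕ) {U : List Lt} (hU : IsBr U) (k : ℤ)
    (h : Q ([.t (-k)] ++ U ++ [.t k] ++ Z n ks)) : Q (U ++ Z n ks) :=
  q.eq (b2.symm (ef b2 (U ++ Z n ks) (tt b2 c1 hn (add_neg_cancel k))))
    (by simpa using q.swap b1 b2 e3 hn h2 ks (b1.br_app.mpr ⟨br_t _, hU⟩) (br_t k) h)

lemma pw_front (p : SP) (hn : 2 ≤ n) {U : List Lt} {i : ℤ} {w : ℤ → ℤ}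
    (h : pw n (.s i :: U) = w) : pw n (U ++ [.s i]) = fun j => sw n i (w (sw n i j)) := by
  ext j
  simp [p.pw_app, ← h, pw, p.sw_sw i j hn]

lemma pw_back (p : SP) (hn : 2 ≤ n) {U : List Lt} {i : ℤ} {w : ℤ → ℤ}
    (h : pw n (U ++ [.s i]) = w) : pw n ([.s i] ++ U) = fun j => sw n i (w (sw n i j)) := by
  ext j
  simp [p.pw_app, ← h, pw, p.sw_sw i _ hn]

lemma pw_conj (p : SP) (U : List Lt) (k : ℤ) :
    pw n ([.t (-k)] ++ U ++ [.t k]) = fun j => pw n U (j - k) + k := by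
  ext j
  simp [p.pw_app, pw, sub_eq_add_neg]

lemma cycG (b1 : SB1) (b2 : SB2) (c1 : SC1) (p : SP) (d1 : SD1) (e3 : SE3) (ks : List ℕ) (N : ℕ)
    (hn : 2 ≤ n) (h2 : n % 2 = 0) (hN : ∀ W', cr W' < N → Good n W') :
    Cyc n (PG n (Z n ks) N) := by
  have q : Inv n (Good n) := inv_good b2
  refine ⟨fun w i _ hw h U hU e hc => ?_, fun w k _ h U hU e hc => ?_⟩
  · subst e
    have hr : Rdc n U → Good n (U ++ Z n ks) := fun hr =>
      b2.good_rdc (b2.rctx [] _ (by simpa [dn] using hr)) fun W' hW =>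
        hN W' (by rw [b1.cr_app] at hW; omega)
    rcases hw with hw | ⟨a, b, hab, ha, hb⟩
    · rcases d1.d3 hn h2 hU hw with h' | ⟨U1, h1, e, e'⟩
      · exact hr h'
      · refine q.eq (ef b2 _ e') (q.swap b1 b2 e3 hn h2 ks h1 (br_s i)
          (h _ (b1.br_app.mpr ⟨h1, br_s i⟩) (pw_front p hn e) ?_))
        have := e'.1
        simp only [b1.cr_app, cr] at this ⊢
        omega
    · rcases d1.d3' hn h2 hU hab ha hb with h' | ⟨U1, h1, e, e'⟩
      · exact hr h'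
      · refine q.eq (ef b2 _ e') (q.swap b1 b2 e3 hn h2 ks (br_s i) h1
          (h _ (b1.br_app.mpr ⟨br_s i, h1⟩) (pw_back p hn e) ?_))
        have := e'.1
        simp only [b1.cr_app, cr] at this ⊢
        omega
  · subst e
    refine q.conj b1 b2 c1 e3 hn h2 ks hU k
      (h _ (b1.br_app.mpr ⟨b1.br_app.mpr ⟨br_t _, hU⟩, br_t k⟩) (pw_conj p U k) ?_)
    simp only [b1.cr_app, cr]
    omega

lemma cycB (b1 : SB1) (b2 : SB2) (c1 : SC1) (p : SP) (d2 : SD2) (e3 : SE3) (ks : List ℕ)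
    (hn : 2 ≤ n) (h2 : n % 2 = 0) : Cyc n (PB n (Z n ks)) := by
  have q : Inv n (BadW n) := inv_bad b2
  refine ⟨fun w i _ hw h U hU e => ?_, fun w k _ h U hU e => ?_⟩
  · subst e
    rcases hw with hw | ⟨a, b, hab, ha, hb⟩
    · obtain ⟨U1, h1, e, e'⟩ := d2.d5b hn h2 hU hw
      exact b2.bad_of (mf b2 _ e') (q.swap b1 b2 e3 hn h2 ks h1 (br_s i)
        (h _ (b1.br_app.mpr ⟨h1, br_s i⟩) (pw_front p hn e)))
    · obtain ⟨U1, h1, e, e'⟩ := d2.d5t hn h2 hU hab ha hb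
      exact b2.bad_of (mf b2 _ e') (q.swap b1 b2 e3 hn h2 ks (br_s i) h1
        (h _ (b1.br_app.mpr ⟨br_s i, h1⟩) (pw_back p hn e)))
  · subst e
    exact q.conj b1 b2 c1 e3 hn h2 ks hU k
      (h _ (b1.br_app.mpr ⟨b1.br_app.mpr ⟨br_t _, hU⟩, br_t k⟩) (pw_conj p U k))

end Haux

open Haux in
theorem pH (b1 : SB1) (b2 : SB2) (c1 : SC1) (c1b : SC1b) (c3 : SC3) (p : SP) (d1 : SD1) (d2 : SD2)
    (e3 : SE3) : SH := by
  have ht : ∀ {n : ℤ}, 2 ≤ n → Mnw n (Hw n 0) [.t 1] := fun hn =>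
    keep b2 c1 c1b c3 b1 hn (L := []) (by simp) (by simp)
  refine ⟨ht, fun hn h2 he => ?_, fun ks hn => z_split b1 b2 c3 hn ks,
    fun ks hn => z_max b1 b2 c3 hn ks, fun {n B} ks hn _ hB hk => ?_,
    fun ks N hn h2 hN => cycG b1 b2 c1 p d1 e3 ks N hn h2 hN,
    fun ks hn h2 => cycB b1 b2 c1 p d2 e3 ks hn h2, fun hn h2 hU hr h V hV e => ?_⟩
  · rcases he with rfl | rfl
    · exact half_zero b2 c1 c1b c3 b1 e3 hn h2
    · exact half_one b2 c1 c1b c3 b1 hn h2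
  · obtain ⟨r, hr⟩ : ∃ r, wind ks = r + 4 := ⟨wind ks - 4, by omega⟩
    obtain ⟨s, hs⟩ := z_t b2 c1 (ht hn) r (dc B)
    have := z_split b1 b2 c3 (show 0 ≤ n by omega) ks
    rw [hr, List.replicate_add, b1.z_app] at this
    exact ⟨s, b2.mtrans (mf b2 _ (d2.br_t hn hB)) (b2.mtrans (mb b2 [.t (dc B)] rfl this)
      (mf b2 (Z n [0, 0, 0, 0]) hs))⟩
  · obtain ⟨V0, h0, r0, e0, m0, -⟩ := d2.d5 hn h2 hV
    exact b2.bad_of (mf b2 _ (b2.mtrans m0 (em b2 (d1.d4 hn h2 h0 hU r0 hr (e0.trans e))))) h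

end Pool.Agent.P.MP_5af56b_co.Tor
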