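import Pool.Agent.P.MP_5af56b_co.Tor.Stmt

/-!
Many crossings across every cut give a grid.
-/

namespace Pool.Agent.P.MP_5af56b_co.Tor

namespace H1aux

/-- a piece of a layer -/
def hl (e : ℤ) (a m : ℕ) : List Lt := (List.range' a m).map fun j : ℕ => Lt.s (2 * (j : ℤ) + e)

/-- consecutive layers -/
def gl (n : ℤ) (a K : ℕ) : List Lt :=
  ((List.range' a K).map fun j : ℕ => half n ((j : ℤ) % 2)).flatten

theorem half_eq (n e : ℤ) : half n e = hl e 0 (n / 2).toNat := by
  rw [half, hl, List.range_eq_range']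

theorem grid_eq (n : ℤ) (K : ℕ) : grid n K = gl n 0 K := by
  rw [grid, gl, List.range_eq_range']

theorem hl_succ (e : ℤ) (a m : ℕ) : hl e a (m + 1) = .s (2 * (a : ℤ) + e) :: hl e (a + 1) m := by
  simp [hl, List.range'_succ]

theorem gl_succ (n : ℤ) (a K : ℕ) :
    gl n a (K + 1) = half n ((a : ℤ) % 2) ++ gl n (a + 1) K := by
  simp [gl, List.range'_succ]

theorem gl_zero (n : ℤ) (a : ℕ) : gl n a 0 = [] := by simp [gl]

theorem gl_add (n : ℤ) (K L : ℕ) : ∀ a, gl n a (K + L) = gl n a K ++ gl n (a + K) L := by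
  induction K with
  | zero => intro a; simp [gl_zero]
  | succ K ih =>
    intro a
    rw [show K + 1 + L = (K + L) + 1 by omega, gl_succ, gl_succ, ih,
      show a + 1 + K = a + (K + 1) by omega, List.append_assoc]

theorem hl_br (e : ℤ) (a m : ℕ) : IsBr (hl e a m) := by
  intro g hg
  obtain ⟨j, -, rfl⟩ := List.mem_map.1 hg
  exact ⟨_, Or.inl rfl⟩

theorem half_br (n e : ℤ) : IsBr (half n e) := by rw [half_eq]; exact hl_br _ _ _

theorem t_br (s : ℤ) : IsBr [.t s] := by
  intro g hg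
  rw [List.mem_singleton] at hg
  exact ⟨s, Or.inr hg⟩

theorem gl_br (b1 : SB1) (n : ℤ) (K : ℕ) : ∀ a, IsBr (gl n a K) := by
  induction K with
  | zero => intro a g hg; simp [gl_zero] at hg
  | succ K ih => intro a; rw [gl_succ]; exact b1.br_app.2 ⟨half_br _ _, ih _⟩

theorem hl_dc (e : ℤ) (m : ℕ) : ∀ a, dc (hl e a m) = 0 := by
  induction m with
  | zero => intro a; simp [hl, dc]
  | succ m ih => intro a; rw [hl_succ]; simpa [dc] using ih _

theorem gl_dc (b1 : SB1) (n : ℤ) (K : ℕ) : ∀ a, dc (gl n a K) = 0 := by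
  induction K with
  | zero => intro a; simp [gl_zero, dc]
  | succ K ih => intro a; rw [gl_succ, b1.dc_app, ih, half_eq, hl_dc]; rfl

theorem dvd_small {n q x y : ℤ} (h1 : -n < y) (h2 : y < n) (h : x = n * q + y) :
    n ∣ x ↔ y = 0 := by
  subst h
  constructor
  · intro hd
    have hy : n ∣ y := (dvd_add_right (dvd_mul_right n q)).1 hd
    exact Int.eq_zero_of_abs_lt_dvd hy (abs_lt.2 ⟨h1, h2⟩)
  · rintro rfl
    simp

theorem hl_pw {n : ℤ} (e : ℤ) (m : ℕ) : ∀ (a : ℕ) (q r : ℤ), 2 * ((a : ℤ) + m) ≤ n → 0 ≤ r → r < n →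
    pw n (hl e a m) (n * q + r + e - 1) = n * q + r + e - 1 +
      if 2 * (a : ℤ) ≤ r ∧ r < 2 * ((a : ℤ) + m) then (if r % 2 = 0 then 1 else -1) else 0 := by
  induction m with
  | zero =>
    intro a q r _ _ _
    rw [if_neg (by push_cast; omega)]
    simp [hl, pw]
  | succ m ih =>
    intro a q r h h0 h1
    push_cast at h
    rw [hl_succ]
    show pw n _ (sw n _ _) = _
    have d1 : n ∣ n * q + r + e - 1 - (2 * (a : ℤ) + e) ↔ r - 1 - 2 * a = 0 :=
      dvd_small (q := q) (by omega) (by omega) (by ring)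
    have d2 : n ∣ n * q + r + e - 1 - (2 * (a : ℤ) + e) + 1 ↔ r - 2 * a = 0 :=
      dvd_small (q := q) (by omega) (by omega) (by ring)
    unfold sw
    by_cases c1 : r - 1 - 2 * a = 0
    · rw [if_pos (d1.2 c1), show n * q + r + e - 1 - 1 = n * q + (r - 1) + e - 1 by ring,
        ih (a + 1) q (r - 1) (by push_cast; omega) (by omega) (by omega),
        if_neg (by push_cast; omega), if_pos (by push_cast; omega), if_neg (by omega)]
      ring
    · rw [if_neg (fun h => c1 (d1.1 h))]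
      by_cases c2 : r - 2 * a = 0
      · rw [if_pos (d2.2 c2), show n * q + r + e - 1 + 1 = n * q + (r + 1) + e - 1 by ring,
          ih (a + 1) q (r + 1) (by push_cast; omega) (by omega) (by omega),
          if_neg (by push_cast; omega), if_pos (by push_cast; omega), if_pos (by omega)]
        ring
      · rw [if_neg (fun h => c2 (d2.1 h)), ih (a + 1) q r (by push_cast; omega) h0 h1]
        congr 1
        push_cast
        exact if_congr (by omega) rfl rfl

theorem half_pw {n : ℤ} (hn : 2 ≤ n) (h2 : n % 2 = 0) (e j : ℤ) :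
    pw n (half n e) j = if (j + e) % 2 = 1 then j + 1 else j - 1 := by
  have hq := Int.mul_ediv_add_emod (j - e + 1) n
  have h0 := Int.emod_nonneg (j - e + 1) (show n ≠ 0 by omega)
  have h1 := Int.emod_lt_of_pos (j - e + 1) (show 0 < n by omega)
  generalize (j - e + 1) / n = q at hq
  generalize (j - e + 1) % n = r at hq h0 h1
  obtain ⟨k, rfl⟩ : ∃ k, n = 2 * k := ⟨n / 2, by omega⟩
  have hk : (((2 * k / 2).toNat : ℕ) : ℤ) = k := by omega
  have hj : j = 2 * k * q + r + e - 1 := by omega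
  have key := hl_pw (n := 2 * k) e (2 * k / 2).toNat 0 q r (by omega) h0 h1
  rw [← hj, if_pos (by omega)] at key
  rw [half_eq, key]
  have hm : 2 * k * q = 2 * (k * q) := by ring
  rw [hm] at hj
  generalize k * q = z at hj
  split_ifs <;> omega

theorem gl_pw (p : SP) {n : ℤ} (hn : 2 ≤ n) (h2 : n % 2 = 0) (K : ℕ) : ∀ (a : ℕ) (j : ℤ),
    pw n (gl n a K) j = if (j + a) % 2 = 1 then j + K else j - K := by
  induction K with
  | zero => intro a j; simp [gl_zero, pw]
  | succ K ih =>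
    intro a j
    rw [gl_succ, p.pw_app, ih, half_pw hn h2]
    push_cast
    split_ifs <;> omega

theorem hl_red (p : SP) {n : ℤ} (e : ℤ) {W : List Lt} (hW : RedW n W)
    (h : ∀ i, (i + e) % 2 = 0 → pw n W (i - 1) < pw n W i) (m : ℕ) :
    ∀ a : ℕ, 2 * ((a : ℤ) + m) ≤ n → RedW n (hl e a m ++ W) := by
  induction m with
  | zero => intro a _; simpa [hl] using hW
  | succ m ih =>
    intro a ha
    push_cast at ha
    rw [hl_succ]
    refine ⟨?_, ih (a + 1) (by push_cast; omega)⟩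
    have k1 := hl_pw (n := n) e m (a + 1) 0 (2 * a) (by push_cast; omega) (by omega) (by omega)
    have k2 := hl_pw (n := n) e m (a + 1) 0 (2 * a + 1) (by push_cast; omega) (by omega)
      (by omega)
    rw [if_neg (by push_cast; omega)] at k1 k2
    rw [show n * 0 + 2 * (a : ℤ) + e - 1 = 2 * (a : ℤ) + e - 1 by ring, add_zero] at k1
    rw [show n * 0 + (2 * (a : ℤ) + 1) + e - 1 = 2 * (a : ℤ) + e by ring, add_zero] at k2
    show pw n (hl e (a + 1) m ++ W) _ < pw n (hl e (a + 1) m ++ W) _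
    rw [p.pw_app, p.pw_app, k1, k2]
    exact h _ (by omega)

theorem glt_pw (p : SP) {n : ℤ} (hn : 2 ≤ n) (h2 : n % 2 = 0) (K a : ℕ) (s j : ℤ) :
    pw n (gl n a K ++ [.t s]) j = (if (j + a) % 2 = 1 then j + K else j - K) + s := by
  rw [p.pw_app, gl_pw p hn h2]
  rfl

theorem gl_red (p : SP) {n : ℤ} (hn : 2 ≤ n) (h2 : n % 2 = 0) (s : ℤ) (K : ℕ) :
    ∀ a : ℕ, RedW n (gl n a K ++ [.t s]) := by
  induction K with
  | zero => intro a; simp [gl_zero, RedW]
  | succ K ih =>
    intro a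
    rw [gl_succ, List.append_assoc, half_eq]
    refine hl_red p _ (ih _) (fun i hi => ?_) _ 0 (by omega)
    rw [glt_pw p hn h2, glt_pw p hn h2]
    push_cast
    split_ifs <;> omega

theorem rr_bound (p : SP) {n : ℤ} (hn : 0 < n) {g : ℤ → ℤ} (hg : AP n g) (K : ℕ) (s b : ℤ)
    (h : ∀ j, g j = (if j % 2 = 1 then j + K else j - K) + s) (m : ℕ) :
    rr n g (b - s - K + m) b ≤
      if (m : ℤ) ≤ 2 * K then (b - s - K + m) / 2 - (b - s - K) / 2 else m - K := by
  induction m with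
  | zero =>
    have : rr n g (b - s - K + (0 : ℕ)) b = 0 := by
      refine (p.rr_zero _ _ hn hg).2 fun k hk => ?_
      rw [h]
      split_ifs <;> omega
    rw [this]
    split_ifs <;> omega
  | succ m ih =>
    rw [show b - s - K + ((m + 1 : ℕ) : ℤ) = b - s - K + m + 1 by push_cast; ring,
      p.rr_succ _ _ hn hg, h]
    push_cast
    split_ifs at ih ⊢ <;> omega

theorem rr_le (p : SP) {n : ℤ} (hn : 0 < n) {g w : ℤ → ℤ} (hg : AP n g) (hw : AP n w) (K : ℕ)
    (h : ∀ j, g j = (if j % 2 = 1 then j + K else j - K) + dg n w)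
    (hK : ∀ a b, (K : ℤ) ≤ tc n (cut w a b)) (a b : ℤ) : rr n g a b ≤ rr n w a b := by
  have h1 := p.tc_cut a b hn hw
  have h2 := p.tc_ge n (cut w a b)
  rw [p.dg_cut a b hn hw] at h2
  have h3 := abs_le.1 h2
  have h4 := hK a b
  by_cases c : a ≤ b - dg n w - K
  · have : rr n g a b = 0 := by
      refine (p.rr_zero _ _ hn hg).2 fun k hk => ?_
      rw [h]
      split_ifs <;> omega
    rw [this]
    exact p.rr_nn _ _ _ _
  · obtain ⟨m, hm⟩ : ∃ m : ℕ, a = b - dg n w - K + m :=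
      ⟨(a - (b - dg n w - K)).toNat, by omega⟩
    have h5 := rr_bound p hn hg K (dg n w) b h m
    rw [← hm] at h5
    split_ifs at h5 <;> omega

theorem z_succ (n : ℤ) (N : ℕ) :
    Z n (List.replicate (N + 1) 0) = Hw n 0 ++ Z n (List.replicate N 0) := by
  simp [Z, List.replicate_succ]

theorem z_layers (b1 : SB1) (b2 : SB2) (c1 : SC1) (e3 : SE3) (h : SH) {n : ℤ} (hn : 2 ≤ n)
    (h2 : n % 2 = 0) (N : ℕ) : ∀ (a M : ℕ) (s : ℤ), M ≤ N →
      ∃ s', Mnw n (.t s :: Z n (List.replicate N 0)) (gl n a M ++ [.t s']) := by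
  induction N with
  | zero =>
    intro a M s hM
    obtain rfl : M = 0 := by omega
    refine ⟨s, ?_⟩
    simpa [gl_zero, Z] using b2.mrefl n [.t s]
  | succ N ih =>
    intro a M s hM
    have k1 : Mnw n (.t s :: Z n (List.replicate (N + 1) 0))
        (Hw n 0 ++ .t s :: Z n (List.replicate N 0)) := by
      have := b2.mctx (n := n) [] (Z n (List.replicate N 0))
        (by simpa [dn] using b2.mn_of (e3.cm 0 (by omega) h2 (t_br s)).2)
      rw [z_succ]
      simpa [List.append_assoc] using this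
    have k2 : ∀ A, IsBr A → Mnw n (A ++ .t 1 :: .t s :: Z n (List.replicate N 0))
        (A ++ .t (1 + s) :: Z n (List.replicate N 0)) := by
      intro A hA
      have := b2.mctx (n := n) A (Z n (List.replicate N 0))
        (b2.mn_of (c1.t1 (n + dn A) 1 s).2)
      simpa [List.append_assoc] using this
    rcases M with _ | M
    · obtain ⟨s', hs'⟩ := ih a 0 (1 + s) (by omega)
      refine ⟨s', b2.mtrans k1 (b2.mtrans ?_ hs')⟩
      have k3 := b2.mctx (n := n) [] (.t s :: Z n (List.replicate N 0))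
        (by simpa [dn] using h.h_t hn)
      have k4 := k2 [] (fun g hg => by simp at hg)
      exact b2.mtrans (by simpa using k3) (by simpa using k4)
    · obtain ⟨s', hs'⟩ := ih (a + 1) M (1 + s) (by omega)
      refine ⟨s', b2.mtrans k1 ?_⟩
      have k3 := b2.mctx (n := n) [] (.t s :: Z n (List.replicate N 0))
        (by simpa [dn] using h.h_half (e := (a : ℤ) % 2) hn h2 (by omega))
      have k4 := k2 _ (half_br n ((a : ℤ) % 2))
      have k5 := b2.mctx (n := n) (half n ((a : ℤ) % 2)) []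
        (by rw [b1.br_dn (half_br _ _), add_zero]; exact hs')
      rw [gl_succ]
      refine b2.mtrans (by simpa [List.append_assoc] using k3) (b2.mtrans k4 ?_)
      simpa [List.append_assoc] using k5

end H1aux

open H1aux in
theorem pH1 (b1 : SB1) (b2 : SB2) (c1 : SC1) (p : SP) (d1 : SD1) (d2 : SD2) (rc : SRC)
    (e3 : SE3) (h : SH) : SH1 := by
  intro n B ks K hn4 h2 hB hbad hK
  have hn : 2 ≤ n := by omega
  have hn0 : 0 < n := by omega
  obtain ⟨M, K', hM, hMK, hK'⟩ : ∃ M K' : ℕ, M ≤ wind ks ∧ K = K' + M ∧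
      ∀ a b, (K' : ℤ) ≤ tc n (cut (pw n B) a b) := by
    by_cases c : K ≤ wind ks
    · exact ⟨K, 0, c, by omega, fun a b => (abs_nonneg _).trans (p.tc_ge _ _)⟩
    · refine ⟨wind ks, K - wind ks, le_rfl, by omega, fun a b => ?_⟩
      have := hK a b
      omega
  obtain ⟨B0, hB0, hR0, hp0, hm0, -⟩ := d2.d5 hn h2 hB
  have hG : IsBr (gl n 0 K' ++ [.t (dc B)]) := b1.br_app.2 ⟨gl_br b1 _ _ _, t_br _⟩
  have hg := p.pw_ap (gl n 0 K' ++ [.t (dc B)]) hn
  obtain ⟨U, hU, hRU, hpU, hmU⟩ := rc hn hB0 hR0 hg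
    (by rw [hp0, p.dg_pw _ hn, p.dg_pw _ hn, b1.dc_app, gl_dc b1]; simp [dc])
    (by
      rw [hp0]
      refine rr_le p hn0 hg (p.pw_ap B hn) K' (fun j => ?_) hK'
      rw [glt_pw p hn h2, p.dg_pw _ hn]
      simp)
  have e1 := d1.d4 hn h2 hU hG hRU (gl_red p hn h2 _ _ _) hpU
  have m1 : Mnw n B (gl n 0 K' ++ [.t (dc B)]) :=
    b2.mtrans hm0 (b2.mtrans hmU (b2.mn_of e1.2))
  have m2 := b2.mctx (n := n) [] (Z n ks) (by simpa [dn] using m1)
  have m3 := b2.mctx (n := n) (gl n 0 K' ++ [.t (dc B)]) []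
    (by rw [b1.br_dn hG, add_zero]; exact h.z_split ks hn0.le)
  obtain ⟨s', hs'⟩ := z_layers b1 b2 c1 e3 h hn h2 (wind ks) (0 + K') M (dc B) hM
  have m4 := b2.mctx (n := n) (gl n 0 K') []
    (by rw [b1.br_dn (gl_br b1 _ _ _), add_zero]; exact hs')
  refine b2.bad_of ?_ (hbad s')
  rw [grid_eq, hMK, gl_add]
  refine b2.mtrans (by simpa [List.append_assoc] using m2)
    (b2.mtrans (by simpa [List.append_assoc] using m3) ?_)
  simpa [List.append_assoc] using m4

end Pool.Agent.P.MP_5af56b_co.Tor
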