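import Pool.Agent.P.MP_5af56b_co.Tor.Stmt

/-! Narrow closed words give graphs of path-width at most three. -/

namespace Pool.Agent.P.MP_5af56b_co.Tor

namespace Iaux

/-- the label occurs in the edge list -/
def occ (E : List (ℕ × ℕ)) (v : ℕ) : Prop := ∃ w, (v, w) ∈ E ∨ (w, v) ∈ E

/-- the clique on `S` together with the graph of `E` is reducible -/
def RK (S : ℕ → Prop) (E : List (ℕ × ℕ)) : Prop :=
  ∀ G : SG, (∀ x y, G.A x y → (S x ∧ S y) ∨ (gr E).A x y) → Rd G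

theorem occ_of {E : List (ℕ × ℕ)} {x y : ℕ} (h : (gr E).A x y) : occ E x := ⟨y, h.2⟩

theorem occ_app {E F : List (ℕ × ℕ)} {v : ℕ} : occ (E ++ F) v ↔ occ E v ∨ occ F v := by
  constructor
  · rintro ⟨w, h | h⟩ <;> rcases List.mem_append.1 h with h | h
    · exact Or.inl ⟨w, Or.inl h⟩
    · exact Or.inr ⟨w, Or.inl h⟩
    · exact Or.inl ⟨w, Or.inr h⟩
    · exact Or.inr ⟨w, Or.inr h⟩
  · rintro (⟨w, h | h⟩ | ⟨w, h | h⟩)
    · exact ⟨w, Or.inl (List.mem_append_left _ h)⟩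
    · exact ⟨w, Or.inr (List.mem_append_left _ h)⟩
    · exact ⟨w, Or.inl (List.mem_append_right _ h)⟩
    · exact ⟨w, Or.inr (List.mem_append_right _ h)⟩

theorem occ_one {p q v : ℕ} : occ [(p, q)] v ↔ v = p ∨ v = q := by
  constructor
  · rintro ⟨w, h | h⟩
    · exact Or.inl (Prod.mk.inj (List.mem_singleton.1 h)).1
    · exact Or.inr (Prod.mk.inj (List.mem_singleton.1 h)).2
  · rintro (rfl | rfl)
    · exact ⟨q, Or.inl (List.mem_singleton.2 rfl)⟩
    · exact ⟨p, Or.inr (List.mem_singleton.2 rfl)⟩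

theorem gr_cons {p q x y : ℕ} {E : List (ℕ × ℕ)} (h : (gr ((p, q) :: E)).A x y) :
    (x = p ∧ y = q) ∨ (x = q ∧ y = p) ∨ (gr E).A x y := by
  obtain ⟨h1, h | h⟩ := h <;> rcases List.mem_cons.1 h with h | h
  · exact Or.inl (Prod.mk.inj h)
  · exact Or.inr (Or.inr ⟨h1, Or.inl h⟩)
  · exact Or.inr (Or.inl (Prod.mk.inj h).symm)
  · exact Or.inr (Or.inr ⟨h1, Or.inr h⟩)

/-- a label that does not occur later leaves the clique -/
theorem drop (a1 : SA1) {S S' : ℕ → Prop} {E : List (ℕ × ℕ)} {a b c q : ℕ}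
    (h1 : ∀ x, S x → T3 a b c x) (h2 : ∀ x, S x → x ≠ q → S' x) (h3 : occ E q → S' q)
    (h : RK S' E) : RK S E := by
  intro G hG
  by_cases hq : S' q
  · have h4 : ∀ x, S x → S' x := fun x hx => by
      by_cases e : x = q
      · exact e ▸ hq
      · exact h2 x hx e
    exact h G fun x y hxy => (hG x y hxy).imp_left fun h => ⟨h4 x h.1, h4 y h.2⟩
  · have h5 : ∀ x, G.A q x → S x := fun x hx =>
      (hG q x hx).elim (fun h => h.2) fun h => absurd (h3 (occ_of h)) hq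
    refine (a1.rd_elim (v := q) fun x hx => h1 x (h5 x hx)).2 (h _ ?_)
    rintro x y ⟨-, hx, hy, hxy | hxy⟩
    · exact (hG x y hxy).imp_left fun h => ⟨h2 x h.1 hx, h2 y h.2 hy⟩
    · exact Or.inl ⟨h2 x (h5 x hxy.1) hx, h2 y (h5 y hxy.2) hy⟩

/-- an edge one of whose ends does not occur later -/
theorem edge (a1 : SA1) {S S' : ℕ → Prop} {E E' : List (ℕ × ℕ)} {a b c p q : ℕ}
    (hE : ∀ x y, (gr E').A x y → (x = p ∧ y = q) ∨ (x = q ∧ y = p) ∨ (gr E).A x y)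
    (h1 : ∀ x, S x → T3 a b c x) (h2 : ∀ x, S x → x ≠ p → x ≠ q → S' x) (hp : ¬ occ E p)
    (h3 : occ E q → S' q) (h : RK S' E) : RK S E' := by
  intro G hG
  have h5 : ∀ x, G.A p x → x ≠ p ∧ ((S p ∧ S x) ∨ x = q) := fun x hx => by
    have hne : x ≠ p := fun e => G.irr p (e ▸ hx)
    refine ⟨hne, (hG p x hx).imp_right fun h => ?_⟩
    rcases hE _ _ h with h | h | h
    · exact h.2
    · exact absurd h.2 hne
    · exact absurd (occ_of h) hp
  obtain ⟨a', b', c', h6, h7⟩ : ∃ a' b' c', (∀ x, S x → x ≠ p → T3 a' b' c' x) ∧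
      (S p → T3 a' b' c' q) := by
    by_cases hS : S p
    · rcases h1 p hS with e | e | e
      · exact ⟨q, b, c, fun x hx hne => (h1 x hx).imp_left fun e' => absurd (e'.trans e.symm) hne,
          fun _ => Or.inl rfl⟩
      · exact ⟨a, q, c, fun x hx hne => (h1 x hx).imp_right fun h' =>
          h'.imp_left fun e' => absurd (e'.trans e.symm) hne, fun _ => Or.inr (Or.inl rfl)⟩
      · exact ⟨a, b, q, fun x hx hne => (h1 x hx).imp_right fun h' =>
          h'.imp_right fun e' => absurd (e'.trans e.symm) hne, fun _ => Or.inr (Or.inr rfl)⟩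
    · exact ⟨a, b, c, fun x hx _ => h1 x hx, fun h => absurd h hS⟩
  have h8 : RK (fun x => (S x ∧ x ≠ p) ∨ (S p ∧ x = q)) E := by
    refine drop a1 (a := a') (b := b') (c := c') (q := q) ?_ ?_ h3 h
    · rintro x (hx | hx)
      · exact h6 x hx.1 hx.2
      · exact hx.2 ▸ h7 hx.1
    · rintro x (hx | hx) hne
      · exact h2 x hx.1 hx.2 hne
      · exact absurd hx.2 hne
  have h9 : Rd (G.elim p) := by
    refine h8 _ ?_
    rintro x y ⟨hxy0, hx, hy, hxy | hxy⟩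
    · rcases hG x y hxy with h | h
      · exact Or.inl ⟨Or.inl ⟨h.1, hx⟩, Or.inl ⟨h.2, hy⟩⟩
      · rcases hE _ _ h with h | h | h
        · exact absurd h.1 hx
        · exact absurd h.2 hy
        · exact Or.inr h
    · rcases (h5 x hxy.1).2 with h | h <;> rcases (h5 y hxy.2).2 with h' | h'
      · exact Or.inl ⟨Or.inl ⟨h.2, hx⟩, Or.inl ⟨h'.2, hy⟩⟩
      · exact Or.inl ⟨Or.inl ⟨h.2, hx⟩, Or.inr ⟨h.1, h'⟩⟩
      · exact Or.inl ⟨Or.inr ⟨h'.1, h⟩, Or.inl ⟨h'.2, hy⟩⟩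
      · exact absurd (h.trans h'.symm) hxy0
  by_cases hS : S p
  · refine (a1.rd_elim (v := p) (a := a') (b := b') (c := c') fun x hx => ?_).2 h9
    rcases (h5 x hx).2 with h | h
    · exact h6 x h.2 (h5 x hx).1
    · exact h ▸ h7 hS
  · refine (a1.rd_elim (v := p) (a := q) (b := q) (c := q) fun x hx => ?_).2 h9
    rcases (h5 x hx).2 with h | h
    · exact absurd h.1 hS
    · exact Or.inl h

/-- one more edge -/
theorem step (a1 : SA1) {E1 E2 : List (ℕ × ℕ)} {a b c p q : ℕ}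
    (h1 : ∀ x, occ E1 x → occ ([(p, q)] ++ E2) x → T3 a b c x)
    (h : RK (fun x => occ (E1 ++ [(p, q)]) x ∧ occ E2 x) E2) :
    RK (fun x => occ E1 x ∧ occ ([(p, q)] ++ E2) x) ([(p, q)] ++ E2) := by
  have h2 : ∀ x, occ E1 x ∧ occ ([(p, q)] ++ E2) x → x ≠ p → x ≠ q →
      occ (E1 ++ [(p, q)]) x ∧ occ E2 x := fun x hx e1 e2 =>
    ⟨occ_app.2 (Or.inl hx.1), (occ_app.1 hx.2).resolve_left fun h => (occ_one.1 h).elim e1 e2⟩
  have h3 : occ E2 p → occ (E1 ++ [(p, q)]) p ∧ occ E2 p := fun h =>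
    ⟨occ_app.2 (Or.inr (occ_one.2 (Or.inl rfl))), h⟩
  have h4 : occ E2 q → occ (E1 ++ [(p, q)]) q ∧ occ E2 q := fun h =>
    ⟨occ_app.2 (Or.inr (occ_one.2 (Or.inr rfl))), h⟩
  by_cases hp : occ E2 p
  · by_cases hq : occ E2 q
    · have h5 : ∀ x, occ E1 x ∧ occ ([(p, q)] ++ E2) x → occ (E1 ++ [(p, q)]) x ∧ occ E2 x :=
        fun x hx => by
          by_cases e1 : x = p
          · exact e1 ▸ h3 hp
          · by_cases e2 : x = q
            · exact e2 ▸ h4 hq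
            · exact h2 x hx e1 e2
      intro G hG
      refine h G fun x y hxy => ?_
      rcases hG x y hxy with h | h
      · exact Or.inl ⟨h5 x h.1, h5 y h.2⟩
      · rcases gr_cons h with h | h | h
        · exact Or.inl ⟨h.1 ▸ h3 hp, h.2 ▸ h4 hq⟩
        · exact Or.inl ⟨h.1 ▸ h4 hq, h.2 ▸ h3 hp⟩
        · exact Or.inr h
    · refine edge a1 (p := q) (q := p) (fun x y hxy => ?_) (fun x hx => h1 x hx.1 hx.2)
        (fun x hx e1 e2 => h2 x hx e2 e1) hq h3 h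
      rcases gr_cons hxy with h | h | h
      · exact Or.inr (Or.inl h)
      · exact Or.inl h
      · exact Or.inr (Or.inr h)
  · exact edge a1 (fun x y hxy => gr_cons hxy) (fun x hx => h1 x hx.1 hx.2) h2 hp h4 h

/-- the label sits at a vertex gap -/
def Vx (x : St) (v : ℕ) : Prop := ∃ j, ((if x.n = 0 then 0 else j) + x.c) % 2 = 0 ∧ x.b j = v

theorem mp2_fix {x : St} {v : ℕ} (z : ℕ) (h : ¬ Vx x v) : x.mp2 (ren z v) id = x := by
  obtain ⟨n, c, b⟩ := x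
  simp only [St.mp2, St.mk.injEq, true_and]
  funext j
  by_cases e : ((if n = 0 then 0 else j) + c) % 2 = 0
  · rw [if_pos e, ren, if_neg fun e' => h ⟨j, e, e'⟩]
  · rw [if_neg e, id]

theorem vx4 (b1 : SB1) {x : St} (hx : x.Ok) (h4 : x.n ≤ 4) {v : ℕ} (h : Vx x v) :
    v = x.b x.c ∨ v = x.b (x.c + 2) := by
  obtain ⟨j, h1, rfl⟩ := h
  have h0 := hx.1
  have h2 := hx.2.1
  by_cases e : x.n = 0
  · exact Or.inl ((hx.2.2.2.2 e j).trans (hx.2.2.2.2 e _).symm)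
  · rw [if_neg e] at h1
    by_cases e2 : x.n = 2
    · exact Or.inl (b1.per hx (by rw [e2]; omega))
    · have e4 : x.n = 4 := by omega
      by_cases e5 : (j - x.c) % 4 = 0
      · exact Or.inl (b1.per hx (by rw [e4]; omega))
      · exact Or.inr (b1.per hx (by rw [e4]; omega))

theorem vx2 (b1 : SB1) {x : St} (hx : x.Ok) (h4 : x.n ≤ 2) {v : ℕ} (h : Vx x v) :
    v = x.b x.c := by
  obtain ⟨j, h1, rfl⟩ := h
  have h0 := hx.1
  have h2 := hx.2.1
  by_cases e : x.n = 0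
  · exact (hx.2.2.2.2 e j).trans (hx.2.2.2.2 e _).symm
  · rw [if_neg e] at h1
    have e2 : x.n = 2 := by omega
    exact b1.per hx (by rw [e2]; omega)

theorem mp_eq {φ ψ : ℕ → ℕ} {E : List (ℕ × ℕ)} (h : mp φ E = mp ψ E) {v : ℕ} (hv : occ E v) :
    φ v = ψ v := by
  obtain ⟨w, h1 | h1⟩ := hv
  · exact (Prod.mk.inj (List.map_inj_left.1 h _ h1)).1
  · exact (Prod.mk.inj (List.map_inj_left.1 h _ h1)).2

/-- a label used before and after a level is visible at that level or at the start -/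
theorem sep (b1 : SB1) {n c : ℤ} {b : ℤ → ℕ} {P S : List Lt} {y : St} {E1 E2 : List (ℕ × ℕ)}
    (r1 : Run P ⟨n, c, b⟩ y E1) (r2 : Run S y ⟨n, c, b⟩ E2) (hF : Free n c (P ++ S) (E1 ++ E2))
    {v : ℕ} (o1 : occ E1 v) (o2 : occ E2 v) : Vx y v ∨ Vx ⟨n, c, b⟩ v := by
  by_contra hc
  rw [not_or] at hc
  have r3 := b1.map2 (ren (v + 1) v) id r2
  rw [mp2_fix _ hc.1, mp2_fix _ hc.2] at r3
  obtain ⟨φ, hφ⟩ := hF.2 _ ⟨b, b1.app.2 ⟨y, E1, _, r1, r3, rfl⟩⟩
  rw [mp, mp, List.map_append] at hφ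
  obtain ⟨e1, e2⟩ := List.append_inj hφ (by simp)
  have e3 : mp id E1 = mp φ E1 := by simpa [mp] using e1
  have e4 := mp_eq e3 o1
  have e5 := mp_eq (φ := ren (v + 1) v) (ψ := φ) e2 o2
  rw [ren, if_pos rfl, ← e4, id] at e5
  omega

theorem stp_e {g : Lt} {x y : St} {e : List (ℕ × ℕ)} (h : Stp g x y e) :
    e = [] ∨ ∃ p q, e = [(p, q)] := by
  cases g with
  | s i => exact Or.inr ⟨_, _, h.2.2.2.2⟩
  | t k => exact Or.inl h.2.2.2.2
  | u i => exact Or.inl h.2.2.2.2.2.2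
  | d i => exact Or.inl h.2.2.2.2.2.2

theorem main (a1 : SA1) (b1 : SB1) {n c : ℤ} {b : ℤ → ℕ} (hn : n ≤ 2) (S : List Lt) :
    ∀ (P : List Lt) (y : St) (E1 E2 : List (ℕ × ℕ)), Run P ⟨n, c, b⟩ y E1 →
      Run S y ⟨n, c, b⟩ E2 → Free n c (P ++ S) (E1 ++ E2) → Bnd 4 y.n S →
      RK (fun x => occ E1 x ∧ occ E2 x) E2 := by
  induction S with
  | nil =>
    intro P y E1 E2 _ r2 _ _ G hG
    obtain ⟨-, -, rfl⟩ := r2
    refine a1.small G 0 0 0 0 fun x y hxy => ?_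
    rcases hG x y hxy with h | h
    · obtain ⟨w, h | h⟩ := h.1.2 <;> simp at h
    · obtain ⟨w, h | h⟩ := occ_of h <;> simp at h
  | cons g S ih =>
    intro P y E1 E2 r1 r2 hF hB
    have hs := fun v => sep b1 (v := v) r1 r2 hF
    obtain ⟨hy, y', e, E', st, r3, rfl⟩ := r2
    have r4 : Run [g] y y' e := ⟨hy, y', e, [], st, ⟨b1.okl r3, rfl, rfl⟩, by simp⟩
    have hw : y'.n = y.n + dl g := by simpa [dn] using b1.wn r4
    have h := ih (P ++ [g]) y' (E1 ++ e) E' (b1.app.2 ⟨y, E1, e, r1, r4, rfl⟩) r3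
      (by simpa [List.append_assoc] using hF) (hw ▸ hB.2)
    rcases stp_e st with rfl | ⟨p, q, rfl⟩
    · simpa using h
    · refine step a1 (a := y.b y.c) (b := y.b (y.c + 2)) (c := b c) (fun x o1 o2 => ?_) h
      rcases hs x o1 o2 with h | h
      · exact (vx4 b1 hy hB.1 h).imp_right Or.inl
      · exact Or.inr (Or.inr (vx2 b1 (b1.okl r1) hn h))

theorem bnd_app {K : ℤ} (A B : List Lt) : ∀ n : ℤ, Bnd K n A → Bnd K (n + dn A) B →
    Bnd K n (A ++ B) := by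
  induction A with
  | nil => intro n _ h; simpa [dn] using h
  | cons g A ih =>
    intro n h1 h2
    exact ⟨h1.1, ih _ h1.2 (by simpa [dn, add_assoc] using h2)⟩

theorem bnd_br {K n : ℤ} (hn : n ≤ K) (A : List Lt) (h : IsBr A) : Bnd K n A := by
  induction A with
  | nil => exact hn
  | cons g A ih =>
    have h1 := ih fun x hx => h x (List.mem_cons_of_mem _ hx)
    obtain ⟨i, rfl | rfl⟩ := h g List.mem_cons_self
    · exact ⟨hn, by simpa [dl] using h1⟩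
    · exact ⟨hn, by simpa [dl] using h1⟩

theorem bnd_Z (b1 : SB1) {n : ℤ} (hn : n ≤ 2) (ks : List ℕ) : Bnd 4 n (Z n ks) := by
  induction ks with
  | nil => show n ≤ 4; omega
  | cons k ks ih =>
    have e : Z n (k :: ks) = .u 0 :: (Pk n k ++ (.d 0 :: Z n ks)) := by simp [Z, Hw]
    rw [e]
    refine ⟨by omega, bnd_app _ _ _ (bnd_br (by simp only [dl]; omega) _ (b1.pk_br n k)) ?_⟩
    rw [b1.br_dn (b1.pk_br n k)]
    exact ⟨by simp only [dl]; omega, by simpa [dl] using ih⟩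

end Iaux

open Iaux in
theorem pI (a1 : SA1) (b1 : SB1) : SI := by
  have tw : ∀ {n : ℤ} {W : List Lt}, n ≤ 2 → Bnd 4 n W → RdW n W := by
    intro n W hn hB c E hF
    obtain ⟨b, r⟩ := hF.1
    exact main a1 b1 hn W [] ⟨n, c, b⟩ [] E ⟨b1.okl r, rfl, rfl⟩ r hF hB _ fun x y h => Or.inr h
  refine ⟨tw, fun {n B} ks hn hB => tw hn (bnd_app _ _ _ (bnd_br (by omega) _ hB) ?_)⟩
  rw [b1.br_dn hB, add_zero]
  exact bnd_Z b1 hn ks

end Pool.Agent.P.MP_5af56b_co.Tor
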