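import Pool.Agent.P.MP_5af56b_co.Tor.Stmt

/-! Package K6: twisted grids with three long cycles contain `K6`. -/

namespace Pool.Agent.P.MP_5af56b_co.Tor

open Relation

namespace K6aux

/-- the cyclic interval of length `len` that starts at `s` -/
def Arc (m s len j : ℕ) : Prop := (s ≤ j ∧ j < s + len) ∨ j + m < s + len

instance (m s len j : ℕ) : Decidable (Arc m s len j) := by unfold Arc; infer_instance

def lab (l : ℕ) (b : Bool) : ℕ :=
  if l = 0 then (if b then 1 else 3) else 2 * l + 2 + (if b then 0 else 1)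

theorem lab_inj : ∀ l < 3, ∀ l' < 3, ∀ b b', lab l b = lab l' b' → l = l' ∧ b = b' := by decide

theorem succ_mod {m j j' : ℕ} (h' : j' < m) (h : j' = j + 1 ∨ (j' = 0 ∧ j + 1 = m)) :
    (j + 1) % m = j' := by
  rcases h with h | ⟨h, h1⟩
  · rw [← h, Nat.mod_eq_of_lt h']
  · rw [h1, h, Nat.mod_self]

theorem row_edge {m a l j j' : ℕ} (hm : 2 ≤ m) (hl : l < 3) (hj : j < m) (h' : j' < m)
    (h : j' = j + 1 ∨ (j' = 0 ∧ j + 1 = m)) : (gr (tgE m 3 a)).A (l * m + j) (l * m + j') := by
  refine ⟨by omega, Or.inl ?_⟩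
  simp only [tgE, List.mem_flatMap, List.mem_range]
  exact ⟨l, hl, j, hj, by rw [succ_mod h' h]; simp⟩

theorem col_edge {m a l j : ℕ} (hl : l + 1 < 3) (hj : j < m) :
    (gr (tgE m 3 a)).A (l * m + j) ((l + 1) * m + j) := by
  refine ⟨by rw [Nat.succ_mul]; omega, Or.inl ?_⟩
  simp only [tgE, List.mem_flatMap, List.mem_range]
  exact ⟨l, by omega, j, hj, by rw [if_pos hl]; simp⟩

theorem tw_edge {m a j : ℕ} (hj : j < m) :
    (gr (tgE m 3 a)).A (2 * m + j) (0 * m + (j + a) % m) := by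
  have := Nat.mod_lt (j + a) (show 0 < m by omega)
  refine ⟨by omega, Or.inl ?_⟩
  simp only [tgE, List.mem_flatMap, List.mem_range]
  exact ⟨2, by omega, j, hj, by simp⟩

theorem arc_conn {R : ℕ → ℕ → Prop} {m s len : ℕ} (hs : s < m) (hl : len ≤ m)
    (h : ∀ j < m, ∀ j' < m, Arc m s len j → Arc m s len j' →
      (j' = j + 1 ∨ (j' = 0 ∧ j + 1 = m)) → R j j') {j : ℕ} (hj : j < m) (ha : Arc m s len j) :
    ReflTransGen R s j := by
  have key : ∀ t < len, ∀ j < m, (j = s + t ∨ j + m = s + t) → ReflTransGen R s j := by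
    intro t
    induction t with
    | zero =>
      intro _ j hj e
      rw [show j = s by omega]
    | succ t ih =>
      intro ht j hj e
      by_cases h0 : j = 0
      · exact (ih (by omega) (m - 1) (by omega) (by omega)).tail
          (h _ (by omega) _ hj (by unfold Arc; omega) (by unfold Arc; omega) (by omega))
      · exact (ih (by omega) (j - 1) (by omega) (by omega)).tail
          (h _ (by omega) _ hj (by unfold Arc; omega) (by unfold Arc; omega) (by omega))
  rcases ha with ha | ha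
  · exact key (j - s) (by omega) j hj (by omega)
  · exact key (j + m - s) (by omega) j hj (by omega)

theorem arc_side {m u : ℕ} (hu : u < m) (b : Bool) : ∃ s < m, ∃ len ≤ m, ∀ j < m,
    (Arc m s len j ↔ decide (Arc m u (m / 2) j) = b) := by
  cases b
  · by_cases h : u + m / 2 < m
    · exact ⟨u + m / 2, h, m - m / 2, by omega, fun j hj => by
        rw [decide_eq_false_iff_not]; unfold Arc; omega⟩
    · exact ⟨u + m / 2 - m, by omega, m - m / 2, by omega, fun j hj => by
        rw [decide_eq_false_iff_not]; unfold Arc; omega⟩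
  · exact ⟨u, hu, m / 2, by omega, fun j _ => by rw [decide_eq_true_iff]⟩

/-- two arcs cross -/
def Cross (m u v : ℕ) : Prop := ∀ b b' : Bool, ∃ j < m,
  decide (Arc m u (m / 2) j) = b ∧ decide (Arc m v (m / 2) j) = b'

theorem Cross.symm {m u v : ℕ} (h : Cross m u v) : Cross m v u := fun b b' =>
  (h b' b).imp fun _ hj => ⟨hj.1, hj.2.2, hj.2.1⟩

theorem cross {m u v d : ℕ} (hu : u < m) (hv : v < m) (h1 : 1 ≤ d) (h2 : d < m / 2)
    (h : v = u + d ∨ v + m = u + d) : Cross m u v := by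
  intro b b'
  cases b <;> cases b' <;> simp only [decide_eq_false_iff_not, decide_eq_true_iff] <;> unfold Arc
  · by_cases h0 : u = 0
    · exact ⟨m - 1, by omega⟩
    · exact ⟨u - 1, by omega⟩
  · by_cases h0 : u + m / 2 < m
    · exact ⟨u + m / 2, by omega⟩
    · exact ⟨u + m / 2 - m, by omega⟩
  · exact ⟨u, by omega⟩
  · exact ⟨v, by omega⟩

theorem model {m a : ℕ} (hm : 6 ≤ m) (u : ℕ → ℕ) (hu : ∀ l, u l < m) (h0 : u 0 = a % m)
    (c01 : Cross m (u 0) (u 1)) (c12 : Cross m (u 1) (u 2)) (c20 : Cross m (u 2) 0) :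
    Bad (gr (tgE m 3 a)) := by
  let f : ℕ → ℕ := fun v => lab (v / m) (decide (Arc m (u (v / m)) (m / 2) (v % m)))
  have hf : ∀ l, ∀ j < m, f (l * m + j) = lab l (decide (Arc m (u l) (m / 2) j)) := fun l j hj => by
    have e1 : (l * m + j) / m = l := by
      rw [Nat.add_comm, Nat.add_mul_div_right _ _ (by omega), Nat.div_eq_of_lt hj, Nat.zero_add]
    have e2 : (l * m + j) % m = j := by
      rw [Nat.add_comm, Nat.add_mul_mod_self_right, Nat.mod_eq_of_lt hj]
    simp only [f, e1, e2]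
  let U : Set ℕ := {v | ∃ l < 3, ∃ j < m, v = l * m + j}
  refine ⟨LL.getD 5 [], by decide, U, f, ?_, ?_⟩
  · rintro _ ⟨l, hl, j, hj, rfl⟩ _ ⟨l', hl', j', hj', rfl⟩ e
    rw [hf l j hj, hf l' j' hj'] at e
    obtain ⟨rfl, e⟩ := lab_inj l hl l' hl' _ _ e
    obtain ⟨s, hs, len, hlen, H⟩ := arc_side (hu l) (decide (Arc m (u l) (m / 2) j))
    have key : ∀ i < m, Arc m s len i →
        ReflTransGen (FR (gr (tgE m 3 a)) U f) (l * m + s) (l * m + i) := fun i hi ha =>
      (arc_conn (R := fun p q => FR (gr (tgE m 3 a)) U f (l * m + p) (l * m + q)) hs hlen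
        (fun p hp q hq h1 h2 h3 => ⟨⟨l, hl, p, hp, rfl⟩, ⟨l, hl, q, hq, rfl⟩,
          by rw [hf l p hp, hf l q hq, (H p hp).1 h1, (H q hq).1 h2],
          row_edge (by omega) hl hp hq h3⟩) hi ha).lift (fun p => l * m + p) fun _ _ h => h
    exact (rtg_symm (fun _ _ => FR.symm) (key j hj ((H j hj).2 rfl))).trans
      (key j' hj' ((H j' hj').2 e.symm))
  · let P : ℕ → ℕ → Prop := fun x y => ∃ p ∈ U, ∃ q ∈ U, f p = x ∧ f q = y ∧ (gr (tgE m 3 a)).A p q
    have sy : ∀ {x y}, P x y → P y x := fun ⟨p, hp, q, hq, e1, e2, h⟩ =>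
      ⟨q, hq, p, hp, e2, e1, SG.symm _ _ _ h⟩
    have r : ∀ l < 3, P (lab l false) (lab l true) := fun l hl => by
      have := hu l
      obtain ⟨j, hj, e⟩ : ∃ j < m, u l = j + 1 ∨ (u l = 0 ∧ j + 1 = m) := by
        by_cases h : u l = 0
        · exact ⟨m - 1, by omega⟩
        · exact ⟨u l - 1, by omega⟩
      refine ⟨_, ⟨l, hl, j, hj, rfl⟩, _, ⟨l, hl, u l, this, rfl⟩, ?_, ?_,
        row_edge (by omega) hl hj this e⟩
      · rw [hf l j hj, decide_eq_false (by unfold Arc; omega)]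
      · rw [hf l _ this, decide_eq_true (by unfold Arc; omega)]
    have v : ∀ l, l + 1 < 3 → Cross m (u l) (u (l + 1)) → ∀ b b', P (lab l b) (lab (l + 1) b') :=
      fun l hl c b b' => by
      obtain ⟨j, hj, e1, e2⟩ := c b b'
      exact ⟨_, ⟨l, by omega, j, hj, rfl⟩, _, ⟨l + 1, hl, j, hj, rfl⟩, by rw [hf l j hj, e1],
        by rw [hf _ j hj, e2], col_edge hl hj⟩
    have w : ∀ b b', P (lab 2 b) (lab 0 b') := fun b b' => by
      obtain ⟨j, hj, e1, e2⟩ := c20 b b'
      have h1 := Nat.mod_lt (j + a) (show 0 < m by omega)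
      have h2 := Nat.mod_lt a (show 0 < m by omega)
      have h3 : (j + a) % m = j + a % m ∨ (j + a) % m + m = j + a % m := by
        rw [← Nat.add_mod_mod]
        by_cases h : j + a % m < m
        · exact Or.inl (Nat.mod_eq_of_lt h)
        · rw [Nat.mod_eq_sub_mod (by omega), Nat.mod_eq_of_lt (by omega)]
          omega
      refine ⟨_, ⟨2, by omega, j, hj, rfl⟩, _, ⟨0, by omega, _, h1, rfl⟩, by rw [hf 2 j hj, e1],
        ?_, tw_edge hj⟩
      have h4 : Arc m (a % m) (m / 2) ((j + a) % m) ↔ Arc m 0 (m / 2) j := by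
        unfold Arc
        omega
      rw [hf 0 _ h1, ← e2, h0, decide_eq_decide.2 h4]
    have all : ∀ l < 3, ∀ l' < 3, ∀ b b', lab l b ≠ lab l' b' → P (lab l b) (lab l' b') := by
      intro l hl l' hl' b b' hne
      have r' : ∀ l < 3, lab l b ≠ lab l b' → P (lab l b) (lab l b') := fun l hl h => by
        cases b <;> cases b'
        · exact absurd rfl h
        · exact r l hl
        · exact sy (r l hl)
        · exact absurd rfl h
      interval_cases l <;> interval_cases l'
      · exact r' 0 (by omega) hne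
      · exact v 0 (by omega) c01 b b'
      · exact sy (w b' b)
      · exact sy (v 0 (by omega) c01 b' b)
      · exact r' 1 (by omega) hne
      · exact v 1 (by omega) c12 b b'
      · exact w b b'
      · exact sy (v 1 (by omega) c12 b' b)
      · exact r' 2 (by omega) hne
    have mem : ∀ p ∈ LL.getD 5 [], (∃ l < 3, ∃ b, p.1 = lab l b) ∧ ∃ l < 3, ∃ b, p.2 = lab l b := by
      decide
    rintro x y ⟨hne, h | h⟩
    · obtain ⟨⟨l, hl, b, e1⟩, l', hl', b', e2⟩ := mem _ h
      simp only at e1 e2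
      subst e1 e2
      exact all l hl l' hl' b b' hne
    · obtain ⟨⟨l, hl, b, e1⟩, l', hl', b', e2⟩ := mem _ h
      simp only at e1 e2
      subst e1 e2
      exact all l' hl' l hl b' b hne

theorem k6 (m a : ℕ) (hm : 6 ≤ m) : Bad (gr (tgE m 3 a)) := by
  have h2 := Nat.mod_lt a (show 0 < m by omega)
  have c10 : Cross m 0 1 := cross (d := 1) (by omega) (by omega) (by omega) (by omega) (by omega)
  have c12 : Cross m 1 2 := cross (d := 1) (by omega) (by omega) (by omega) (by omega) (by omega)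
  have fin : ∀ x < m, Cross m (a % m) x → Cross m x 1 → Bad (gr (tgE m 3 a)) := fun x hx c c' =>
    model hm (fun l => if l = 0 then a % m else if l = 1 then x else 1)
      (fun l => by split_ifs <;> omega) rfl c c' c10.symm
  by_cases h0 : a % m = 0
  · exact fin 2 (by omega)
      (cross (d := 2) (by omega) (by omega) (by omega) (by omega) (by omega)) c12.symm
  by_cases h1 : a % m < m / 2
  · exact fin 0 (by omega)
      (cross (d := a % m) (by omega) (by omega) (by omega) (by omega) (by omega)).symm c10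
  by_cases h3 : m - a % m < m / 2
  · exact fin 0 (by omega)
      (cross (d := m - a % m) (by omega) (by omega) (by omega) (by omega) (by omega)) c10
  · exact fin 2 (by omega)
      (cross (d := a % m - 2) (by omega) (by omega) (by omega) (by omega) (by omega)).symm c12.symm

theorem grid_s (n : ℤ) (K : ℕ) : ∀ g ∈ grid n K, ∃ i, g = Lt.s i := by
  intro g hg
  simp only [grid, half, List.mem_flatten, List.mem_map] at hg
  obtain ⟨_, ⟨j, _, rfl⟩, hg⟩ := hg
  obtain ⟨i, _, rfl⟩ := List.mem_map.1 hg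
  exact ⟨_, rfl⟩

theorem dc_s : ∀ W : List Lt, (∀ g ∈ W, ∃ i, g = Lt.s i) → dc W = 0
  | [], _ => rfl
  | g :: W, h => by
    obtain ⟨i, rfl⟩ := h g List.mem_cons_self
    exact dc_s W fun g hg => h g (List.mem_cons_of_mem _ hg)

theorem grid_br (n : ℤ) (K : ℕ) : IsBr (grid n K) := fun g hg =>
  (grid_s n K g hg).imp fun _ => Or.inl

end K6aux

open K6aux in
theorem pK6 (a1 : SA1) (b1 : SB1) (b2 : SB2) (c1 : SC1) (j : SJ) (gs : SGs) : SK6 := by
  have hdc : ∀ n K s, dc (grid n K ++ [.t s]) = s := fun n K s => by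
    rw [b1.dc_app, dc_s _ (grid_s n K)]
    simp [dc]
  refine ⟨k6, fun {n} s hn c E hF => ?_, fun hG m hm G hmin => ?_⟩
  · obtain ⟨b, hR⟩ := hF.1
    have h1 : n % 2 = 0 := (b1.okl hR).2.1
    have h2 : c = (c + s) % 2 := by simpa only [hdc] using b1.wc hR
    obtain ⟨m, rfl⟩ : ∃ m : ℕ, n = 2 * m := ⟨(n / 2).toNat, by omega⟩
    have h3 := Int.emod_nonneg s (show (2 * m : ℤ) ≠ 0 by omega)
    have h4 := Int.emod_add_mul_ediv s (2 * m)
    have h5 : s % (2 * m) % 2 = s % 2 := Int.emod_emod_of_dvd s ⟨m, rfl⟩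
    obtain ⟨a, ha⟩ : ∃ a : ℕ, s % (2 * m) = 2 * a := ⟨(s % (2 * m) / 2).toNat, by omega⟩
    have e1 := b2.symm (c1.t1 (2 * m) (2 * a) (2 * m * (s / (2 * m))))
    rw [← ha, h4, ha] at e1
    have e2 := b2.ectx (n := 2 * m) [.t (2 * a)] []
      (by simpa [dn, dl] using c1.t2 (n := 2 * m) (s / (2 * m)) (by omega))
    have e3 := b2.ectx (n := 2 * m) (grid (2 * m) 6) []
      (by simpa [b1.br_dn (grid_br _ _)] using b2.trans e1 (by simpa using e2))
    simp only [List.append_nil] at e3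
    refine b2.bad_of (b2.mn_of e3.2) (fun c E h => ?_) c E hF
    exact (a1.mn (gs (b := 3) (by omega) (by omega) h)).2 (k6 m a (by omega))
  · have hb : IsBr (grid (2 * m) (2 * m) ++ [.t (2 * (0 : ℕ))]) :=
      b1.br_app.2 ⟨grid_br _ _, fun g hg => ⟨_, Or.inr (List.mem_singleton.1 hg)⟩⟩
    obtain ⟨E, hE⟩ := b1.ex_cl (n := 2 * m) (c := 0) (by omega) (by omega) (Or.inl rfl)
      (b1.br_val (by omega) hb) (b1.br_dn hb) (by rw [hdc]; rfl)
    obtain ⟨E', hE'⟩ := b2.ex_free hE
    exact j hG _ _ _ _ hE' G (a1.trans hmin (gs (by omega) (by omega) hE'))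

end Pool.Agent.P.MP_5af56b_co.Tor
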