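import Pool.Agent.P.MP_5af56b_co.Tor.Stmt

namespace Pool.Agent.P.MP_5af56b_co.Tor

namespace M2aux

/-- boolean test for reduced words -/
def redb (n : ℤ) : List Lt → Bool
  | [] => true
  | .s i :: W => decide (pw n W (i - 1) < pw n W i) && redb n W
  | _ :: W => redb n W

theorem red_of (n : ℤ) : ∀ W : List Lt, redb n W = true → RedW n W
  | [], _ => trivial
  | .s i :: W, h => by
    simp only [redb, Bool.and_eq_true, decide_eq_true_eq] at h
    exact ⟨h.1, red_of n W h.2⟩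
  | .t _ :: W, h => red_of n W h
  | .u _ :: W, h => red_of n W h
  | .d _ :: W, h => red_of n W h

theorem s4_red : ∀ c ∈ ([0, 1] : List ℤ), ∀ m ∈ S4, redb 4 (w4 c m) = true := by
  decide +kernel

theorem s4_cl : ∀ c ∈ ([0, 1] : List ℤ), ∀ i ∈ ([0, 1, 2] : List ℤ), ∀ m ∈ S4, ∃ m' ∈ S4,
    ∀ j ∈ ([0, 1, 2, 3] : List ℤ), pw 4 (w4 c (i :: m)) j = pw 4 (w4 c m') j := by
  decide +kernel

theorem w4_br (c : ℤ) (l : List ℤ) : IsBr (w4 c l) := by
  intro g hg
  simp only [w4, List.mem_map] at hg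
  obtain ⟨i, -, rfl⟩ := hg
  exact ⟨_, Or.inl rfl⟩

theorem w4_cr (c : ℤ) : ∀ l : List ℤ, cr (w4 c l) = l.length
  | [] => rfl
  | i :: l => by
    have := w4_cr c l
    simp only [w4, List.map_cons, cr, List.length_cons] at this ⊢
    omega

theorem ms_cr : ∀ l : List ℤ, cr (l.map Lt.s) = l.length
  | [] => rfl
  | i :: l => by
    have := ms_cr l
    simp only [List.map_cons, cr, List.length_cons] at this ⊢
    omega

theorem ex_s4 (p : SP) {c : ℤ} (hc : c = 0 ∨ c = 1) : ∀ l : List ℤ,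
    (∀ i ∈ l, i = 0 ∨ i = 1 ∨ i = 2) → ∃ m ∈ S4, pw 4 (w4 c l) = pw 4 (w4 c m)
  | [], _ => ⟨[], by simp [S4], rfl⟩
  | i :: l, h => by
    obtain ⟨m, hm, e⟩ := ex_s4 p hc l (fun j hj => h j (List.mem_cons_of_mem _ hj))
    have hi := h i List.mem_cons_self
    obtain ⟨m', hm', e'⟩ := s4_cl c (by simpa using hc) i (by simpa using hi) m hm
    refine ⟨m', hm', ?_⟩
    have e1 : pw 4 (w4 c (i :: l)) = pw 4 (w4 c (i :: m)) := by
      funext j
      change pw 4 (w4 c l) _ = pw 4 (w4 c m) _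
      rw [e]
    rw [e1]
    refine p.ext (n := 4) (by norm_num) (p.pw_ap _ (by norm_num)) (p.pw_ap _ (by norm_num)) ?_
    intro j h0 h4
    refine e' j ?_
    simp only [List.mem_cons, List.not_mem_nil, or_false]
    omega

theorem mp_id (E : List (ℕ × ℕ)) : mp id E = E := by
  simp [mp]

/-- the two crossings at opposite face gaps give the same edge -/
theorem cl_swap (b1 : SB1) {c i k : ℤ} (hi : (i + c) % 2 = 1) (hk : k = i + 2 ∨ k = i - 2)
    {X : List Lt} {E : List (ℕ × ℕ)} (h : Cl 4 c (.s i :: X) E) :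
    ∃ e E', E = e :: E' ∧ Cl 4 c (.s k :: X) (e.swap :: E') := by
  obtain ⟨b, h⟩ := h
  have h' : Run ([.s i] ++ X) ⟨4, c, b⟩ ⟨4, c, b⟩ E := h
  obtain ⟨y, E1, E2, r1, r2, rfl⟩ := b1.app.1 h'
  have q1 := b1.map2 id (fun _ => 0) r1
  have q2 := b1.map2 id (fun _ => 0) r2
  rw [mp_id] at q1 q2
  set x' : St := St.mp2 id (fun _ => 0) ⟨4, c, b⟩ with hx'
  set y' : St := St.mp2 id (fun _ => 0) y with hy'
  obtain ⟨ok, z, e, E3, st, ⟨okz, rfl, rfl⟩, rfl⟩ := q1
  obtain ⟨h2, hn, hc, hb, rfl⟩ := st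
  have xn : x'.n = 4 := rfl
  have xc : x'.c = c := rfl
  have hne : ¬ (i + x'.c) % 2 = 0 := by rw [xc]; omega
  have hke : ¬ (k + x'.c) % 2 = 0 := by rw [xc]; omega
  rw [if_neg hne]
  refine ⟨(x'.b (i - 1), x'.b (i + 1)), E2, by simp, x'.b, ?_⟩
  change Run (.s k :: X) x' x' _
  refine ⟨ok, y', [(x'.b (i + 1), x'.b (i - 1))], E2, ⟨h2, hn, hc, ?_, ?_⟩, q2, by simp⟩
  · intro j hj
    by_cases hd : x'.n ∣ j - i
    · have yn : y.n = 4 := hn
      have yc : y.c = c := hc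
      rw [xn] at hd
      have hjc : ¬ (j + c) % 2 = 0 := by omega
      simp only [hx', hy', St.mp2, yn, yc]
      simp [hjc]
    · exact hb j hd
  · rw [if_neg hke]
    have e1 : x'.b (k - 1) = x'.b (i + 1) := b1.per ok (by rw [xn]; omega)
    have e2 : x'.b (k + 1) = x'.b (i - 1) := b1.per ok (by rw [xn]; omega)
    rw [e1, e2]

theorem free_swap (a1 : SA1) (b1 : SB1) {c i k : ℤ} (hi : (i + c) % 2 = 1)
    (hk : k = i + 2 ∨ k = i - 2) {X : List Lt} {E : List (ℕ × ℕ)} (h : Free 4 c (.s i :: X) E) :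
    ∃ E', Free 4 c (.s k :: X) E' ∧ gr E = gr E' := by
  obtain ⟨e, E', rfl, hcl⟩ := cl_swap b1 hi hk h.1
  refine ⟨e.swap :: E', ⟨hcl, ?_⟩, ?_⟩
  · intro F hF
    obtain ⟨f, F', rfl, hcl'⟩ := cl_swap b1 (i := k) (k := i) (by omega) (by omega) hF
    obtain ⟨φ, hφ⟩ := h.2 _ hcl'
    refine ⟨φ, ?_⟩
    simp only [mp, List.map_cons, List.cons.injEq] at hφ ⊢
    refine ⟨?_, hφ.2⟩
    have := congrArg Prod.swap hφ.1
    rw [Prod.swap_swap] at this
    rw [this]
    rfl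
  · refine a1.ext fun x y => ?_
    obtain ⟨u, v⟩ := e
    simp only [gr, List.mem_cons, Prod.mk.injEq, Prod.swap_prod_mk]
    tauto

theorem relc_swap (a1 : SA1) (b1 : SB1) {c : ℤ} :
    RelC Eqv 4 c [.s (3 + c)] [.s (1 + c)] := by
  intro X
  constructor
  · intro E h
    obtain ⟨E', h', e⟩ := free_swap a1 b1 (i := 3 + c) (k := 1 + c) (by omega) (by omega) h
    exact ⟨E', h', by rw [e]; exact ⟨Iff.rfl, Iff.rfl⟩⟩
  · intro E h
    obtain ⟨E', h', e⟩ := free_swap a1 b1 (i := 1 + c) (k := 3 + c) (by omega) (by omega) h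
    exact ⟨E', h', by rw [e]; exact ⟨Iff.rfl, Iff.rfl⟩⟩

/-- the generator that replaces the crossing at gap `i` -/
def gen (c i : ℤ) : ℤ := if (i - c) % 4 = 3 then 1 else (i - c) % 4

theorem gen_mem (c i : ℤ) : gen c i = 0 ∨ gen c i = 1 ∨ gen c i = 2 := by
  unfold gen
  split_ifs <;> omega

theorem relc_one (a1 : SA1) (b1 : SB1) (b2 : SB2) (c1 : SC1) (c i : ℤ) :
    RelC Eqv 4 c [.s i] [.s (gen c i + c)] := by
  unfold gen
  split_ifs with h
  · exact b2.relC_trans ((c1.t4 (n := 4) (i := i) (j := 3 + c) (by omega)).2.2 c)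
      (relc_swap a1 b1)
  · exact (c1.t4 (n := 4) (i := i) (j := (i - c) % 4 + c) (by omega)).2.2 c

theorem relc_list (a1 : SA1) (b1 : SB1) (b2 : SB2) (c1 : SC1) {c : ℤ} (hc : c = 0 ∨ c = 1) :
    ∀ l : List ℤ, RelC Eqv 4 c (l.map Lt.s) (w4 c (l.map (gen c)))
  | [] => (b2.refl 4 []).2.2 c
  | i :: l => by
    have hcc : (c + 0) % 2 = c := by omega
    have h1 := b2.relC_ctx (R := Eqv) (n := 4) (c := c) (D := [.s i]) (D' := [.s (gen c i + c)])
      [] (l.map Lt.s) hc (by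
        simp only [dn, dc, add_zero] at hcc ⊢
        rw [hcc]
        exact relc_one a1 b1 b2 c1 c i)
    have h2 := b2.relC_ctx (R := Eqv) (n := 4) (c := c) (D := l.map Lt.s)
      (D' := w4 c (l.map (gen c))) [.s (gen c i + c)] [] hc (by
        simp only [dn, dl, dc, add_zero] at hcc ⊢
        rw [hcc]
        exact relc_list a1 b1 b2 c1 hc l)
    simp only [List.nil_append, List.append_nil, List.cons_append] at h1 h2
    exact b2.relC_trans h1 h2

theorem good_eqv {G G' : SG} (h : Eqv G G') (g : GoodG G') : GoodG G :=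
  g.elim (fun r => Or.inl (h.1.2 r)) (fun r => Or.inr (h.2.2 r))

end M2aux

open M2aux in
theorem pM2 (a1 : SA1) (b1 : SB1) (b2 : SB2) (c1 : SC1) (p : SP) (d1 : SD1) (h : SH) (t : ST) :
    SM2 := by
  intro B ks hB ih
  by_cases hw : 4 ≤ wind ks
  · obtain ⟨s, hs⟩ := h.z4 (n := 4) ks (by norm_num) (by norm_num) hB hw
    exact b2.good_bad (b2.bad_of hs (t.h4 4 (Or.inl rfl) s))
  obtain ⟨l, s, he⟩ := d1.nft (n := 4) (by norm_num) hB
  have he' := b2.ectx (n := 4) (D := B) (D' := l.map Lt.s ++ [.t s]) [] (Z 4 ks)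
    (by simpa [dn] using he)
  simp only [List.nil_append, List.append_assoc, List.cons_append] at he'
  refine b2.good_of he'.2 ?_
  intro c E hE
  have hc : c = 0 ∨ c = 1 := by
    obtain ⟨b, hb⟩ := hE.1
    exact (b1.okl hb).2.2.1
  obtain ⟨E', hE', q⟩ := (relc_list a1 b1 b2 c1 hc l (.t s :: Z 4 ks)).1 E hE
  refine good_eqv q ?_
  obtain ⟨m, hm, e⟩ := ex_s4 p hc (l.map (gen c)) (by
    intro i hi
    obtain ⟨j, -, rfl⟩ := List.mem_map.1 hi
    exact gen_mem c j)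
  rcases d1.d4' (n := 4) (by norm_num) (by norm_num) (w4_br c _) (w4_br c m)
    (red_of 4 _ (s4_red c (by simpa using hc) m hm)) e with r | r
  · have r' := b2.rctx (n := 4) (D := w4 c (l.map (gen c))) [] (.t s :: Z 4 ks)
      (by simpa [dn] using r)
    simp only [List.nil_append] at r'
    refine b2.good_rdc r' ?_ c E' hE'
    intro W' hW'
    refine ih W' ?_
    have e1 := he.1
    rw [b1.cr_app, ms_cr] at e1
    rw [b1.cr_app, w4_cr, List.length_map] at hW'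
    simp only [cr] at e1 hW'
    omega
  · obtain ⟨E'', hE'', q'⟩ := (r.2.2 c (.t s :: Z 4 ks)).1 E' hE'
    exact good_eqv q' (t.m2 c m s ks E'' hm (by omega) hE'')

end Pool.Agent.P.MP_5af56b_co.Tor
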