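import Pool.Agent.P.MP_5af56b_co.Tor.Stmt

namespace Pool.Agent.P.MP_5af56b_co.Tor

namespace Midaux

theorem br_t (k : ℤ) : IsBr [Lt.t k] := by
  intro g hg
  simp only [List.mem_singleton] at hg
  exact ⟨k, Or.inr hg⟩

theorem ex_min (p : SP) (n : ℤ) (w : ℤ → ℤ) :
    ∃ c0 x0 : ℤ, ∀ c x : ℤ, tc n (cut w c0 (c0 + n * x0)) ≤ tc n (cut w c (c + n * x)) := by
  obtain ⟨v, ⟨c0, x0, hv⟩, hmin⟩ := Int.exists_least_of_bdd
    (P := fun v => ∃ c x : ℤ, tc n (cut w c (c + n * x)) = v)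
    ⟨0, fun z hz => by
      obtain ⟨c, x, rfl⟩ := hz
      exact le_trans (abs_nonneg _) (p.tc_ge _ _)⟩
    ⟨_, 0, 0, rfl⟩
  exact ⟨c0, x0, fun c x => by rw [hv]; exact hmin _ ⟨c, x, rfl⟩⟩

theorem cut_tw (n : ℤ) (w : ℤ → ℤ) (x0 c x : ℤ) :
    cut (fun i => w i - n * x0) c (c + n * x) = cut w c (c + n * (x0 + x)) := by
  funext i
  simp only [cut]
  ring

theorem near (n a b : ℤ) (hn : n = 6 ∨ n = 8 ∨ n = 10) :
    ∃ x : ℤ, 2 * |b - (a + n * x)| ≤ n := by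
  refine ⟨(b - a + n / 2) / n, ?_⟩
  rcases abs_cases (b - (a + n * ((b - a + n / 2) / n))) with h | h <;>
    rcases hn with rfl | rfl | rfl <;> omega

theorem par_of (b1 : SB1) {n : ℤ} {U : List Lt} {ks : List ℕ}
    (hp : (dc U + wind ks) % 2 ≠ 0) : Good n (U ++ Z n ks) := by
  intro c E hE
  obtain ⟨b, hr⟩ := hE.1
  have h1 := b1.wc hr
  have h2 := (b1.okl hr).2.2.1
  rw [b1.dc_app, b1.z_dc] at h1
  simp only at h1 h2
  omega

theorem D0_pos {n : ℤ} (hn : 2 ≤ n) : 0 < D0 n := by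
  have h1 : (0 : ℤ) < QQ n := by
    unfold QQ
    exact_mod_cast Nat.factorial_pos _
  unfold D0
  positivity

/-- the reduced entry -/
theorem red_case (b1 : SB1) (b2 : SB2) (h : SH) (rb : SRB) {N : ℕ} {n D : ℤ} {ks : List ℕ}
    {w x : ℤ → ℤ} {γ : ℤ → ℕ} {M : List (ℤ × ℤ)} (hn : 2 ≤ n) (he : n % 2 = 0) (hH : Hyp N n)
    (hw : AP n w) (hx : Pos n D x) (hd : Dat0 n w x γ M) (hb : Blks w γ M)
    (hr : EntRed n (wind ks) M) : PG n (Z n ks) N w := by
  obtain ⟨U0, γ', y, D', β, e, hE, hrd⟩ := hr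
  have hc := h.cycG ks N hn he (fun W' hW => hH.1 n W' hW)
  obtain ⟨w3, -, hβ, hP⟩ := rb.rb1 hn hc hw hx hd hb hE
  apply hP
  intro V hV hVw hcr
  have hβ' : ∀ i, β (pw n V i) = β (pw n U0 i) := by
    intro i
    rw [hVw]
    exact hβ i
  rcases rb.rb2 hn he hE.c.br hV hE.c.red hE.blk hβ' with hR | hM
  · have h1 : Rdc n ([] ++ V ++ Z n ks) := b2.rctx [] (Z n ks) (by simpa [dn] using hR)
    rw [List.nil_append] at h1
    refine b2.good_rdc h1 fun W' hW => hH.1 n W' ?_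
    rw [b1.cr_app] at hW
    omega
  · have h1 : Mnw n ([] ++ U0 ++ ZM n (wind ks)) ([] ++ V ++ ZM n (wind ks)) :=
      b2.mctx [] _ (by simpa [dn] using hM)
    have h2 : Mnw n (V ++ ZM n (wind ks) ++ []) (V ++ Z n ks ++ []) :=
      b2.mctx V [] (by rw [b1.br_dn hV, add_zero]; exact h.z_max ks (by omega))
    rw [List.nil_append, List.nil_append] at h1
    rw [List.append_nil, List.append_nil] at h2
    exact b2.good_rd (b2.rd_of (b2.mtrans h1 h2) hrd)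

end Midaux

open Midaux in
theorem pMid (b1 : SB1) (b2 : SB2) (c1 : SC1) (p : SP) (h : SH) (g3 : SG3) (h1 : SH1) (t : ST)
    (cov : SCov) (f1 : SF1) (dat : SDat) (blk : SBlk) (bb : SBB) (rb : SRB) : SMid := by
  intro N n B ks hn hB hH hcr
  have hn2 : 2 ≤ n := by omega
  have hn4 : 4 ≤ n := by omega
  have he : n % 2 = 0 := by omega
  by_cases hw4 : 4 ≤ wind ks
  · obtain ⟨s, hs⟩ := h.z4 ks hn2 he hB hw4
    exact b2.good_bad (b2.bad_of hs (t.h4 n (Or.inr hn) s))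
  have hc := h.cycG ks N hn2 he (fun W' hW => hH.1 n W' hW)
  obtain ⟨w, x, σ, hS, hP⟩ := f1.f1 hn2 hc (p.pw_ap B hn2) (D0_pos hn2)
  refine hP ?_ B hB rfl hcr
  intro U hU hUw hUc
  rcases g3 N ks hn2 he hU hH hUc with hG | hcut
  · exact hG
  rw [hUw] at hcut
  obtain ⟨c0, x0, hmin⟩ := ex_min p n w
  have hU' : IsBr (U ++ [Lt.t (n * (-x0))]) := b1.br_app.2 ⟨hU, br_t _⟩
  have hpw : pw n (U ++ [Lt.t (n * (-x0))]) = fun i => w i - n * x0 := by
    funext j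
    rw [p.pw_app, hUw]
    simp only [pw]
    ring
  have hcr' : cr (U ++ [Lt.t (n * (-x0))]) = cr U := by
    rw [b1.cr_app]
    simp [cr]
  have hEq : Eqw n (U ++ [Lt.t (n * (-x0))] ++ Z n ks) (U ++ [] ++ Z n ks) :=
    b2.ectx U _ (by rw [b1.br_dn hU, add_zero]; exact c1.t2 _ hn2)
  rw [List.append_nil] at hEq
  refine b2.good_of (b2.symm hEq).2 ?_
  generalize U ++ [Lt.t (n * (-x0))] = U' at hU' hpw hcr' ⊢
  have hS' := f1.twist x0 hS
  obtain ⟨γ, M, hF⟩ := dat.fin1 hn2 le_rfl hS'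
  have hsc := dat.sc hn2 le_rfl hS' hF
  have hlb := dat.lb hn2 hS'.1 hF.dat
  have hle : ∀ ξ, FM M 0 ≤ FM M ξ := by
    intro ξ
    obtain ⟨c, hc⟩ := hsc ξ
    have h0 := hlb c0 0
    rw [cut_tw, add_zero] at h0
    rw [cut_tw] at hc
    have := hmin c (x0 + ξ)
    omega
  have hge : n ≤ FM M 0 + wind ks := by
    obtain ⟨c, hc⟩ := hsc 0
    rw [cut_tw, add_zero] at hc
    have h0 := hcut c (c + n * x0) x0
    have h2 : c + n * x0 - c - n * x0 = 0 := by ring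
    rw [h2, abs_zero, hc] at h0
    omega
  by_cases hpar : (dc U' + wind ks) % 2 = 0
  swap
  · exact par_of b1 hpar
  have hpar' : (FM M 0 + wind ks) % 2 = 0 := by
    have h0 := dat.par hn2 hF.dat
    have h2 := p.dg_pw U' hn2
    rw [hpw] at h2
    omega
  have hdat : Dat0 n (pw n U') x γ M := by
    rw [hpw]
    exact hF.dat
  have small : ∀ R : ℤ, Cov n (wind ks) R → FM M 0 + wind ks ≤ R → Good n (U' ++ Z n ks) := by
    intro R hC hR
    rcases hC M hF.dat.poly hR hge hpar' (hle 1) (hle (-1)) with ⟨a, b, hab, hE⟩ | hE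
    · exact b2.good_bad (bb ks a b hn2 he hU' hS'.2.1 hdat hab hE)
    · exact red_case b1 b2 h rb hn2 he hH hS'.1 hS'.2.1 hF.dat (blk hn2 le_rfl hS' hF) hE U' hU'
        hpw (by omega)
  have big : ∀ K : ℕ, (∀ s, BadW n (grid n K ++ [.t s])) →
      2 * (K : ℤ) + n ≤ 2 * (FM M 0 + wind ks) → Good n (U' ++ Z n ks) := by
    intro K hK hKn
    refine b2.good_bad (h1 ks K hn4 he hU' hK fun a b => ?_)
    obtain ⟨ξ, hξ⟩ := near n a b hn
    have h2 := p.lip a b (a + n * ξ) (by omega) hS'.1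
    have h3 := hlb a ξ
    have h4 := hle ξ
    rw [hpw]
    omega
  obtain ⟨c6, c8, c10⟩ := cov (wind ks) (by omega)
  rcases hn with rfl | rfl | rfl
  · by_cases hR : FM M 0 + wind ks ≤ 14
    · exact small 14 c6 hR
    · exact big 12 t.g6 (by push_cast; omega)
  · by_cases hR : FM M 0 + wind ks ≤ 10
    · exact small 10 c8 hR
    · exact big 8 t.g8 (by push_cast; omega)
  · by_cases hR : FM M 0 + wind ks ≤ 12
    · exact small 12 c10 hR
    · exact big 8 t.g10 (by push_cast; omega)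

end Pool.Agent.P.MP_5af56b_co.Tor
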