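import Pool.Agent.P.MP_5af56b_co.Tor.Stmt

/-! Ranks inside groups, fluxes and gaps. -/

namespace Pool.Agent.P.MP_5af56b_co.Tor

open Finset

namespace Raux

lemma diff (F G : ℤ → ℤ) (h : ∀ i, F (i + 1) - F i = G (i + 1) - G i) (i : ℤ) :
    F i - F 0 = G i - G 0 := by
  induction i using Int.induction_on with
  | zero => simp
  | succ k ih => have := h k; omega
  | pred k ih =>
    have := h (-(k : ℤ) - 1)
    rw [sub_add_cancel] at this
    omega

lemma per_mul {α : Type} {n : ℤ} {γ : ℤ → α} (h : ∀ i, γ (i + n) = γ i) (i k : ℤ) :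
    γ (i + n * k) = γ i := by
  induction k using Int.induction_on with
  | zero => simp
  | succ k ih => rw [mul_add, mul_one, ← add_assoc, h, ih]
  | pred k ih =>
    rw [← ih, ← h (i + n * (-(k : ℤ) - 1))]
    congr 1; ring

lemma add_mul' {n D : ℤ} {x : ℤ → ℤ} (h : ∀ i, x (i + n) = x i + D) (i k : ℤ) :
    x (i + n * k) = x i + D * k := by
  have := diff (fun k => x (i + n * k)) (fun k => D * k) (fun k => by
    have h1 := h (i + n * k)
    have e : i + n * (k + 1) = i + n * k + n := by ring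
    simp only [e, h1]; ring) k
  simp only [mul_zero, add_zero, sub_zero] at this
  omega

/-- signed sums -/
noncomputable def S (f : ℤ → ℤ) (i : ℤ) : ℤ := ∑ j ∈ Ico 0 i, f j - ∑ j ∈ Ico i 0, f j

lemma S_zero (f : ℤ → ℤ) : S f 0 = 0 := by simp [S]

lemma S_nonneg (f : ℤ → ℤ) {i : ℤ} (h : 0 ≤ i) : S f i = ∑ j ∈ Ico 0 i, f j := by
  rw [S, Ico_eq_empty (a := i) (by omega), sum_empty, sub_zero]

lemma S_succ (f : ℤ → ℤ) (i : ℤ) : S f (i + 1) = S f i + f i := by
  rcases le_or_gt 0 i with h | h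
  · have e : Ico 0 (i + 1) = insert i (Ico 0 i) := by
      ext j; simp only [mem_Ico, mem_insert]; omega
    rw [S_nonneg f h, S_nonneg f (by omega), e, sum_insert (by simp), add_comm]
  · have e : Ico i 0 = insert i (Ico (i + 1) 0) := by
      ext j; simp only [mem_Ico, mem_insert]; omega
    unfold S
    rw [Ico_eq_empty (a := 0) (b := i + 1) (by omega), Ico_eq_empty (a := 0) (b := i) (by omega),
      e, sum_insert (by simp)]
    ring

lemma tele (h : ℤ → ℤ) {n : ℤ} (hn : 0 ≤ n) : ∑ i ∈ Ico 0 n, (h (i + 1) - h i) = h n - h 0 := by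
  have := diff (S fun i => h (i + 1) - h i) h (fun i => by rw [S_succ]; ring) n
  rwa [S_zero, sub_zero, S_nonneg _ hn] at this

lemma succ (γ : ℤ → ℕ) (g : ℕ) (i : ℤ) :
    rk γ g (i + 1) = rk γ g i + if γ i = g then 1 else 0 :=
  S_succ (fun j => if γ j = g then 1 else 0) i

lemma rk_zero (γ : ℤ → ℕ) (g : ℕ) : rk γ g 0 = 0 := by simp [rk]

lemma per1 {n : ℤ} {γ : ℤ → ℕ} (g : ℕ) (i : ℤ) (hn : 0 < n) (h : ∀ i, γ (i + n) = γ i) :
    rk γ g (i + n) = rk γ g i + Yc n γ g := by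
  have h1 := diff (fun i => rk γ g (i + n)) (rk γ g) (fun i => by
    have e : i + 1 + n = i + n + 1 := by ring
    simp only [e, succ, h]; ring) i
  have h2 : rk γ g n = Yc n γ g := S_nonneg (fun j => if γ j = g then 1 else 0) hn.le
  simp only [zero_add, rk_zero, h2] at h1
  omega

lemma per {n : ℤ} {γ : ℤ → ℕ} (g : ℕ) (i k : ℤ) (hn : 0 < n) (h : ∀ i, γ (i + n) = γ i) :
    rk γ g (i + n * k) = rk γ g i + Yc n γ g * k :=
  add_mul' (fun i => per1 g i hn h) i k

lemma mono (γ : ℤ → ℕ) (g : ℕ) : Monotone (rk γ g) :=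
  monotone_int_of_le_succ fun i => by rw [succ]; split_ifs <;> omega

lemma lt {γ : ℤ → ℕ} {g : ℕ} {i j : ℤ} (h : γ i = g) (hij : i < j) : rk γ g i < rk γ g j := by
  have h1 := succ γ g i
  rw [if_pos h] at h1
  have h2 := mono γ g (show i + 1 ≤ j by omega)
  omega

lemma uniq {γ : ℤ → ℕ} {g : ℕ} {i j : ℤ} (hi : γ i = g) (hj : γ j = g)
    (h : rk γ g i = rk γ g j) : i = j := by
  rcases lt_trichotomy i j with h1 | h1 | h1
  · have := lt hi h1; omega
  · exact h1
  · have := lt hj h1; omega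

lemma surj {n : ℤ} {γ : ℤ → ℕ} {g : ℕ} (hn : 0 < n) (h : ∀ i, γ (i + n) = γ i)
    (hY : 0 < Yc n γ g) (r : ℤ) : ∃ i, γ i = g ∧ rk γ g i = r := by
  have hk : ∀ k, rk γ g (n * k) = Yc n γ g * k := fun k => by
    have := per g 0 k hn h
    rwa [zero_add, rk_zero, zero_add] at this
  have ha := abs_nonneg r
  have hb := le_abs_self r
  have hc := neg_abs_le r
  obtain ⟨z, hz, hmin⟩ := Int.exists_least_of_bdd (P := fun z => r < rk γ g z)
    ⟨n * (-|r|), fun z hz => by
      by_contra hlt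
      have h1 := mono γ g (not_le.1 hlt).le
      rw [hk] at h1
      nlinarith⟩
    ⟨n * (|r| + 1), by rw [hk]; nlinarith⟩
  have h1 : ¬ r < rk γ g (z - 1) := fun h1 => by have := hmin _ h1; omega
  have h2 := succ γ g (z - 1)
  rw [sub_add_cancel] at h2
  refine ⟨z - 1, ?_, ?_⟩
  · by_contra h3
    rw [if_neg h3] at h2; omega
  · split_ifs at h2 <;> omega

lemma yc_pos {n : ℤ} {γ : ℤ → ℕ} (hn : 0 < n) (h : ∀ i, γ (i + n) = γ i) (i : ℤ) :
    0 < Yc n γ (γ i) := by
  have h1 := lt (γ := γ) (g := γ i) (i := i) (j := i + n) rfl (by omega)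
  rw [per1 _ _ hn h] at h1
  omega

lemma mtch {n : ℤ} {γ γ' : ℤ → ℕ} (o : ℕ → ℤ) (hn : 0 < n) (h : ∀ i, γ (i + n) = γ i)
    (h' : ∀ i, γ' (i + n) = γ' i) (hY : ∀ g, Yc n γ g = Yc n γ' g) :
    ∃ φ, AP n φ ∧ ∀ i, γ' (φ i) = γ i ∧ rk γ' (γ i) (φ i) = rk γ (γ i) i + o (γ i) := by
  choose φ h1 h2 using fun i =>
    surj hn h' (hY (γ i) ▸ yc_pos hn h i) (rk γ (γ i) i + o (γ i))
  refine ⟨φ, ⟨⟨fun i j hij => ?_, fun y => ?_⟩, fun j => ?_⟩, fun i => ⟨h1 i, h2 i⟩⟩
  · have e : γ j = γ i := by rw [← h1 i, ← h1 j, hij]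
    have a := h2 i
    have b := h2 j
    rw [e, ← hij] at b
    exact uniq rfl e (by omega)
  · obtain ⟨i, hi, hr⟩ := surj hn h ((hY (γ' y)).symm ▸ yc_pos hn h' y)
      (rk γ' (γ' y) y - o (γ' y))
    refine ⟨i, uniq ((h1 i).trans hi) rfl ?_⟩
    have a := h2 i
    rw [hi] at a
    omega
  · refine uniq (g := γ j) ((h1 _).trans (h j)) ((h' _).trans (h1 j)) ?_
    have a := h2 (j + n)
    rw [h j, per1 _ _ hn h] at a
    rw [a, per1 _ _ hn h', h2 j, hY]; ring

lemma xc_pos (p : SP) {n D : ℤ} {w x : ℤ → ℤ} {γ : ℤ → ℕ} (g : ℕ) (hn : 0 < n) (hw : AP n w)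
    (hG : Grp n w γ) (hx : ∀ i, x (i + n) = x i + D) :
    D * Xc n w γ g = ∑ i ∈ Ico 0 n, if γ i = g then x (w i) - x i else 0 := by
  have h1 := p.sumper (fun j => if γ j = g then x (j % n) else 0) hn hw (fun j => by
    simp only [hG.1, Int.add_emod_right])
  have h2 : ∑ i ∈ Ico 0 n, (if γ i = g then x (i % n) else 0) =
      ∑ i ∈ Ico 0 n, if γ i = g then x i else 0 :=
    sum_congr rfl fun i hi => by
      rw [Int.emod_eq_of_lt (mem_Ico.1 hi).1 (mem_Ico.1 hi).2]
  simp only [hG.2] at h1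
  have h3 : ∑ i ∈ Ico 0 n, (if γ i = g then x (w i) - x i else 0) =
      ∑ i ∈ Ico 0 n, (D * (if γ i = g then w i / n else 0) +
        (if γ i = g then x (w i % n) else 0) - if γ i = g then x i else 0) := by
    refine sum_congr rfl fun i _ => ?_
    have h4 := add_mul' hx (w i % n) (w i / n)
    rw [Int.emod_add_mul_ediv] at h4
    split_ifs
    · rw [h4]; ring
    · ring
  rw [h3, sum_sub_distrib, sum_add_distrib, h1, h2, ← mul_sum, Xc]; ring

lemma xc_sum (p : SP) {n : ℤ} {w : ℤ → ℤ} {γ : ℤ → ℕ} (g : ℕ) (hn : 0 < n) (hw : AP n w)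
    (hG : Grp n w γ) : n * Xc n w γ g = ∑ i ∈ Ico 0 n, if γ i = g then w i - i else 0 :=
  xc_pos p (x := fun i => i) g hn hw hG fun _ => rfl

lemma xc_cut (p : SP) {n : ℤ} {w : ℤ → ℤ} {γ : ℤ → ℕ} (g : ℕ) (c ξ : ℤ) (hn : 0 < n)
    (hw : AP n w) (hG : Grp n w γ) :
    Xc n (cut w c (c + n * ξ)) (fun i => γ (i + c)) g = Xc n w γ g - ξ * Yc n γ g := by
  have hG' : Grp n (cut w c (c + n * ξ)) (fun i => γ (i + c)) := by
    refine ⟨fun i => ?_, fun i => ?_⟩
    · show γ (i + n + c) = γ (i + c)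
      rw [add_right_comm, hG.1]
    · show γ (w (i + c) - (c + n * ξ) + c) = γ (i + c)
      rw [← hG.2 (i + c), ← per_mul hG.1 (w (i + c)) (-ξ)]
      congr 1; ring
  have h1 := xc_sum p g hn (p.cut_ap c (c + n * ξ) hw) hG'
  have h2 := xc_sum p g hn hw hG
  have h3 := p.sumper (fun j => if γ j = g then w j - j - n * ξ else 0) hn (p.shift n c)
    (fun j => by simp only [hG.1, hw.2]; split_ifs <;> ring)
  refine mul_left_cancel₀ hn.ne' ?_
  rw [h1, mul_sub, h2, Yc, mul_sum, mul_sum, ← sum_sub_distrib]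
  refine Eq.trans (sum_congr rfl fun i _ => ?_) (h3.trans (sum_congr rfl fun i _ => ?_))
  · simp only [cut]; split_ifs <;> ring
  · split_ifs <;> ring

lemma window {n : ℤ} {γ : ℤ → ℕ} (g : ℕ) (hn : 0 < n) (h : ∀ i, γ (i + n) = γ i) (c : ℤ) :
    (∑ i ∈ Ico 0 n, if γ (i + c) = g then i + c else 0) -
      (∑ i ∈ Ico 0 n, if γ (i + 0) = g then i + 0 else 0) = n * rk γ g c := by
  have := diff (fun c => ∑ i ∈ Ico 0 n, if γ (i + c) = g then i + c else 0)
    (fun c => n * rk γ g c) (fun c => by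
      have h1 := tele (fun i => if γ (i + c) = g then i + c else 0) hn.le
      have e : ∀ i : ℤ, i + (c + 1) = i + 1 + c := fun i => by ring
      simp only [e, succ]
      rw [← sum_sub_distrib, h1, add_comm n c, h, zero_add]
      split_ifs <;> ring) c
  simpa only [rk_zero, mul_zero, sub_zero] using this

lemma flux (p : SP) {n : ℤ} {w : ℤ → ℤ} {γ : ℤ → ℕ} {g : ℕ} {c c' : ℤ} (hn : 0 < n)
    (hw : AP n w) (hG : Grp n w γ) (h : ∀ i, γ i = g → (c ≤ i ↔ c' ≤ w i)) :
    rk γ g c' = rk γ g c + Xc n w γ g := by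
  have hf : ∀ j, (if γ (j + n) = g then c' + (j + n - c') % n else 0) =
      if γ j = g then c' + (j - c') % n else 0 := fun j => by
    rw [hG.1, add_sub_right_comm, Int.add_emod_right]
  have h1 := p.sumper (fun j => if γ j = g then c' + (j - c') % n else 0) hn
    (p.comp hw (p.shift n c)) hf
  have h2 := p.sumper (fun j => if γ j = g then c' + (j - c') % n else 0) hn (p.shift n c') hf
  have h3 := p.sumper (fun j => if γ j = g then w j - j else 0) hn (p.shift n c)
    (fun j => by simp only [hG.1, hw.2]; split_ifs <;> ring)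
  have h4 : ∑ i ∈ Ico 0 n, (if γ (w (i + c)) = g then c' + (w (i + c) - c') % n else 0) =
      ∑ i ∈ Ico 0 n, ((if γ (i + c) = g then w (i + c) - (i + c) else 0) +
        if γ (i + c) = g then i + c else 0) := by
    refine sum_congr rfl fun i hi => ?_
    obtain ⟨hi0, hi1⟩ := mem_Ico.1 hi
    rw [hG.2]
    split_ifs with hg
    · have a := (h _ hg).1 (by omega)
      have e : i + c - n + n = i + c := by ring
      have hg' : γ (i + c - n) = g := by rw [← hG.1, e, hg]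
      have b := (h _ hg').2
      have d := hw.2 (i + c - n)
      rw [e] at d
      rw [Int.emod_eq_of_lt (by omega) (by omega)]; ring
    · ring
  have h5 : ∑ i ∈ Ico 0 n, (if γ (i + c') = g then c' + (i + c' - c') % n else 0) =
      ∑ i ∈ Ico 0 n, if γ (i + c') = g then i + c' else 0 := by
    refine sum_congr rfl fun i hi => ?_
    obtain ⟨hi0, hi1⟩ := mem_Ico.1 hi
    rw [add_sub_cancel_right, Int.emod_eq_of_lt hi0 hi1, add_comm c']
  have h6 := window g hn hG.1 c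
  have h7 := window g hn hG.1 c'
  have h8 := xc_sum p g hn hw hG
  rw [sum_add_distrib] at h4
  refine mul_left_cancel₀ hn.ne' ?_
  rw [mul_add]
  omega

lemma gap {n D C : ℤ} (v : ℤ → ℤ) (hn : 0 < n) (hC : 0 ≤ C) (hD : (n + 1) * (2 * C + 1) ≤ D) :
    ∃ p, ∀ i, 0 ≤ i → i < n → ∀ j, C < |v i - p - j * D| := by
  by_contra hc
  push Not at hc
  choose I h0 h1 J h2 using hc
  have key : ∀ t t' : ℤ, 0 ≤ t' → t' < t → t ≤ n →
      I (t * (2 * C + 1)) = I (t' * (2 * C + 1)) → False := by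
    intro t t' a b c e
    have u := abs_le.1 (h2 (t * (2 * C + 1)))
    have u' := abs_le.1 (h2 (t' * (2 * C + 1)))
    rw [e] at u
    have hD0 : 0 ≤ D := le_trans (by positivity) hD
    have l1 : 1 * (2 * C + 1) ≤ (t - t') * (2 * C + 1) :=
      mul_le_mul_of_nonneg_right (by omega) (by omega)
    have l2 : (t - t') * (2 * C + 1) ≤ n * (2 * C + 1) :=
      mul_le_mul_of_nonneg_right (by omega) (by omega)
    rcases le_or_gt (J (t' * (2 * C + 1))) (J (t * (2 * C + 1))) with m | m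
    · have := mul_le_mul_of_nonneg_right m hD0
      linarith [u.1, u'.2]
    · have := mul_le_mul_of_nonneg_right (show J (t * (2 * C + 1)) + 1 ≤ J (t' * (2 * C + 1)) by
        omega) hD0
      linarith [u.2, u'.1]
  obtain ⟨t, ht, t', ht', hne, e⟩ := exists_ne_map_eq_of_card_lt_of_maps_to
    (s := Icc (0 : ℤ) n) (t := Ico (0 : ℤ) n) (by simp; omega)
    (f := fun t => I (t * (2 * C + 1))) (fun t _ => by
      simp only [coe_Ico, Set.mem_Ico]; exact ⟨h0 _, h1 _⟩)
  obtain ⟨a, b⟩ := mem_Icc.1 ht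
  obtain ⟨a', b'⟩ := mem_Icc.1 ht'
  rcases lt_or_gt_of_ne hne with m | m
  · exact key t' t a m b' e.symm
  · exact key t t' a' m b e

end Raux

theorem pR (p : SP) : SR where
  succ := Raux.succ
  per := Raux.per
  mono := Raux.mono
  lt := Raux.lt
  surj := Raux.surj
  mtch := Raux.mtch
  xc_sum := Raux.xc_sum p
  xc_pos := Raux.xc_pos p
  xc_cut := Raux.xc_cut p
  flux := Raux.flux p
  gap := Raux.gap

end Pool.Agent.P.MP_5af56b_co.Tor
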