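import Pool.Agent.P.MP_5af56b_co.Tor.Stmt

namespace Pool.Agent.P.MP_5af56b_co.Tor

open Finset

namespace RBaux

theorem per_mul {n : ℤ} {β : ℤ → ℤ} (h : ∀ i, β (i + n) = β i + n) (i k : ℤ) :
    β (i + n * k) = β i + n * k := by
  induction k using Int.induction_on with
  | zero => simp
  | succ k ih =>
    have := h (i + n * k)
    rw [show i + n * ((k : ℤ) + 1) = i + n * k + n by ring, this, ih]
    ring
  | pred k ih =>
    have := h (i + n * (-(k : ℤ) - 1))
    rw [show i + n * (-(k : ℤ) - 1) + n = i + n * (-(k : ℤ)) by ring, ih] at this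
    linarith

theorem beta_sw {n i : ℤ} {β : ℤ → ℤ} (h : ∀ i, β (i + n) = β i + n) (hi : β (i - 1) = β i)
    (j : ℤ) : β (sw n i j) = β j := by
  unfold sw
  split_ifs with h1 h2
  · obtain ⟨k, hk⟩ := h1
    have e1 : j - 1 = (i - 1) + n * k := by linarith
    have e2 : j = i + n * k := by linarith
    rw [e1, per_mul h, hi]
    conv_rhs => rw [e2, per_mul h]
  · obtain ⟨k, hk⟩ := h2
    have e1 : j + 1 = i + n * k := by linarith
    have e2 : j = (i - 1) + n * k := by linarith
    rw [e1, per_mul h, ← hi]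
    conv_rhs => rw [e2, per_mul h]
  · rfl

theorem not_dvd_of_abs {n a : ℤ} (h0 : a ≠ 0) (h1 : -n < a) (h2 : a < n) : ¬ n ∣ a := by
  intro h
  have := Int.eq_zero_of_abs_lt_dvd h (abs_lt.2 ⟨h1, h2⟩)
  exact h0 this

theorem sw_self (n i : ℤ) : sw n i i = i - 1 := by
  unfold sw
  simp

theorem sw_pred {n i : ℤ} (hn : 2 ≤ n) : sw n i (i - 1) = i := by
  unfold sw
  have h1 : ¬ n ∣ i - 1 - i := not_dvd_of_abs (by omega) (by omega) (by omega)
  rw [if_neg h1, if_pos (by simp)]
  ring

theorem sw_other {n i j : ℤ} (hi1 : 1 ≤ i) (hi2 : i < n) (hj1 : 0 ≤ j) (hj2 : j < n)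
    (h1 : j ≠ i) (h2 : j ≠ i - 1) : sw n i j = j := by
  unfold sw
  rw [if_neg (not_dvd_of_abs (by omega) (by omega) (by omega)),
    if_neg (not_dvd_of_abs (by omega) (by omega) (by omega))]

noncomputable def ms (n : ℤ) (b v : ℤ → ℤ) : ℤ := ∑ j ∈ Ico 0 n, j * (v j - b j)

theorem ms_nn {n : ℤ} {b v : ℤ → ℤ} (h : ∀ j, b j ≤ v j) : 0 ≤ ms n b v := by
  unfold ms
  refine Finset.sum_nonneg fun j hj => ?_
  rw [Finset.mem_Ico] at hj
  exact mul_nonneg hj.1 (sub_nonneg.2 (h j))

theorem ms_sw {n i : ℤ} {b v : ℤ → ℤ} (hn : 2 ≤ n) (hi1 : 1 ≤ i) (hi2 : i < n)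
    (h : v (i - 1) < v i) : ms n b (fun j => v (sw n i j)) < ms n b v := by
  have key : ms n b (fun j => v (sw n i j)) - ms n b v =
      ∑ j ∈ Ico 0 n, j * (v (sw n i j) - v j) := by
    unfold ms
    rw [← Finset.sum_sub_distrib]
    refine Finset.sum_congr rfl fun j _ => ?_
    ring
  have h2 : ∑ j ∈ Ico 0 n, j * (v (sw n i j) - v j) =
      (i - 1) * (v (sw n i (i - 1)) - v (i - 1)) + i * (v (sw n i i) - v i) := by
    refine Finset.sum_eq_add_of_mem (i - 1) i (by rw [Finset.mem_Ico]; omega)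
      (by rw [Finset.mem_Ico]; omega) (by omega) ?_
    intro j hj hne
    rw [Finset.mem_Ico] at hj
    rw [sw_other hi1 hi2 hj.1 hj.2 hne.2 hne.1]
    simp
  rw [sw_pred hn, sw_self] at h2
  have : ms n b (fun j => v (sw n i j)) - ms n b v = -(v i - v (i - 1)) := by
    rw [key, h2]
    ring
  linarith

theorem eq_of_desc (p : SP) {n : ℤ} {β u v : ℤ → ℤ} (hu : AP n u) (hv : AP n v)
    (hb : Blk n β u) (hβ : ∀ i, β (v i) = β (u i))
    (hd : ∀ i, β (i - 1) = β i → v i < v (i - 1)) : v = u := by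
  obtain ⟨-, hmono, hle, h0, hdec, hiff⟩ := hb
  obtain ⟨ui, hui, hl, hr⟩ := p.inv hu
  have hπ : AP n (fun j => ui (v j)) := p.comp hui hv
  have hfix : ∀ j, β (ui (v j)) = β j := by
    intro j
    apply (hiff _ _).1
    rw [hr, hβ]
  have hinc : ∀ i, ui (v (i - 1)) < ui (v i) := by
    intro i
    rcases (hmono (show i - 1 ≤ i by omega)).lt_or_eq with h | h
    · by_contra hc
      have := hmono (not_lt.1 hc)
      rw [hfix, hfix] at this
      omega
    · have h1 := hd i h
      rcases lt_trichotomy (ui (v (i - 1))) (ui (v i)) with h2 | h2 | h2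
      · exact h2
      · have := congrArg u h2
        rw [hr, hr] at this
        omega
      · have := hdec _ _ (by rw [hfix, hfix, h]) h2
        rw [hr, hr] at this
        omega
  have hs := p.mono hπ hinc
  have hc : ui (v 0) = 0 := by
    rcases lt_trichotomy (ui (v 0)) 0 with h | h | h
    · have h1 := hfix 0
      have h2 := hle (ui (v 0))
      omega
    · exact h
    · have h1 := hfix (-1)
      have h2 := hs (-1)
      have h3 := hmono (show (0 : ℤ) ≤ ui (v (-1)) by omega)
      have h4 := hle (-1)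
      omega
  funext j
  have h2 := hs j
  simp only [hc, add_zero] at h2
  have := congrArg u h2
  rwa [hr] at this

theorem rb2_aux (b2 : SB2) (c3 : SC3) (p : SP) (d1 : SD1) {n : ℤ} {β : ℤ → ℤ} {U : List Lt}
    (hn : 2 ≤ n) (he : n % 2 = 0) (hU : IsBr U) (hR : RedW n U) (hb : Blk n β (pw n U)) :
    ∀ (m : ℕ) (V : List Lt), IsBr V → RedW n V → (∀ i, β (pw n V i) = β (pw n U i)) →
      ms n (fun j => β (pw n U j)) (pw n V) < m → Mnw n U V := by
  intro m
  induction m with
  | zero =>
    intro V _ _ hβ hm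
    have := ms_nn (n := n) (b := fun j => β (pw n U j)) (v := pw n V) fun j => by
      have := hb.2.2.1 (pw n V j)
      rw [hβ] at this
      exact this
    simp only [Nat.cast_zero] at hm
    omega
  | succ m ih =>
    intro V hV hRV hβ hm
    by_cases hx : ∃ i, 1 ≤ i ∧ i < n ∧ β (i - 1) = β i ∧ pw n V (i - 1) < pw n V i
    · obtain ⟨i, hi1, hi2, hi3, hi4⟩ := hx
      have hV' : IsBr (Lt.s i :: V) := by
        intro g hg
        rcases List.mem_cons.1 hg with rfl | hg
        · exact ⟨i, Or.inl rfl⟩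
        · exact hV g hg
      have hR' : RedW n (Lt.s i :: V) := ⟨hi4, hRV⟩
      have hβ' : ∀ j, β (pw n (Lt.s i :: V) j) = β (pw n U j) := by
        intro j
        show β (pw n V (sw n i j)) = _
        rw [hβ]
        exact (hb.2.2.2.2.2 _ _).2 (beta_sw hb.1 hi3 j)
      have hlt := ms_sw (b := fun j => β (pw n U j)) (v := pw n V) hn hi1 hi2 hi4
      have hm' : ms n (fun j => β (pw n U j)) (pw n (Lt.s i :: V)) < m := by
        have e : pw n (Lt.s i :: V) = fun j => pw n V (sw n i j) := rfl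
        rw [e]
        push_cast at hm
        omega
      have h1 := ih _ hV' hR' hβ' hm'
      have h2 : Mnw n (Lt.s i :: V) V := by
        have := b2.mctx (n := n) [] V (D := [Lt.s i]) (D' := [])
          (by simpa [dn] using c3.mn1 i hn)
        simpa using this
      exact b2.mtrans h1 h2
    · have hv := p.pw_ap V hn
      have hd : ∀ i, β (i - 1) = β i → pw n V i < pw n V (i - 1) := by
        intro i hi
        have e1 : i = i % n + n * (i / n) := (Int.emod_add_mul_ediv i n).symm
        have e2 : i - 1 = (i % n - 1) + n * (i / n) := by linarith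
        have h0 : 0 ≤ i % n := Int.emod_nonneg _ (by omega)
        have h1 : i % n < n := Int.emod_lt_of_pos _ (by omega)
        have hi' : β (i % n - 1) = β (i % n) := by
          have a1 := per_mul hb.1 (i % n) (i / n)
          have a2 := per_mul hb.1 (i % n - 1) (i / n)
          rw [← e1] at a1
          rw [← e2] at a2
          linarith
        have h2 : 1 ≤ i % n := by
          by_contra hc
          have h3 : i % n = 0 := by omega
          rw [h3] at hi'
          have := hb.2.2.1 (0 - 1)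
          have := hb.2.2.2.1
          omega
        have h4 : ¬ pw n V (i % n - 1) < pw n V (i % n) := fun h => hx ⟨_, h2, h1, hi', h⟩
        have h5 : pw n V (i % n - 1) ≠ pw n V (i % n) := fun h => by
          have := hv.1.1 h
          omega
        have a1 := p.mul hv (i % n) (i / n)
        have a2 := p.mul hv (i % n - 1) (i / n)
        rw [← e1] at a1
        rw [← e2] at a2
        omega
      have heq := eq_of_desc p (p.pw_ap U hn) hv hb hβ hd
      exact b2.mn_of (d1.d4 hn he hU hV hR hRV heq.symm).2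

end RBaux

theorem pRB (b1 : SB1) (b2 : SB2) (c3 : SC3) (p : SP) (d1 : SD1) (r : SR) (tl : STL) : SRB where
  rb1 := by
    intro n D D' e P w x y β γ γ' M U hn hc hw hx hd hb hE
    choose o ho using hb
    obtain ⟨φ, hφ, hm⟩ := r.mtch (n := n) (γ := γ) (γ' := γ') o (by omega) hd.grp.1 hE.c.grp.1
      fun g => by rw [hd.yc, hE.c.yc]
    obtain ⟨ψ, hψ, hl, hr⟩ := p.inv hφ
    have hw' : AP n (fun j => φ (w (ψ j))) := p.comp hφ (p.comp hw hψ)
    have hβ : ∀ j, β (φ (w (ψ j))) = β (pw n U j) := by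
      intro j
      obtain ⟨i, rfl⟩ := hφ.1.2 j
      rw [hl]
      have g1 : γ' (φ (w i)) = γ i := by rw [(hm _).1, hd.grp.2]
      have g2 : γ' (pw n U (φ i)) = γ i := by rw [hE.c.grp.2, (hm _).1]
      apply hE.same _ _ (g1.trans g2.symm)
      rw [g1]
      have s1 := hE.step (φ i)
      rw [(hm i).1] at s1
      have m1 := (hm (w i)).2
      rw [hd.grp.2] at m1
      rw [s1, m1, (hm i).2]
      exact ho (γ i) i rfl
    refine ⟨fun j => φ (w (ψ j)), hw', hβ, ?_⟩
    refine tl (φ := φ) (γ := γ) (γ' := γ') hn hc hw hw' hφ (fun i => by simp only [hl]) hd.grp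
      (fun i => (hm i).1) ?_ hx hE.c.pos hE.c.smono hd.sep ?_
    · intro i j hij hlt
      have h1 := r.lt (γ := γ) (g := γ i) rfl hlt
      have h2 := (hm i).2
      have h3 := (hm j).2
      rw [← hij] at h3
      by_contra hcon
      have := r.mono γ' (γ i) (not_lt.1 hcon)
      omega
    · intro i j hij
      have h1 := hE.sep i j hij
      have h2 := abs_le.1 (hE.near _ _ (hβ i))
      have h3 := abs_le.1 (hE.near _ _ (hβ j))
      show y (φ (w (ψ i))) - y i < y (φ (w (ψ j))) - y j
      omega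
  rb2 := by
    intro n β U V hn he hU hV hR hb hβ
    rcases d1.d1 hn he hV with h | h
    · exact Or.inl h
    · refine Or.inr (RBaux.rb2_aux b2 c3 p d1 hn he hU hR hb
        ((RBaux.ms n (fun j => β (pw n U j)) (pw n V)).toNat + 1) V hV h hβ ?_)
      push_cast
      omega

end Pool.Agent.P.MP_5af56b_co.Tor
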