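import Pool.Agent.P.MP_5af56b_co.Tor.Stmt

namespace Pool.Agent.P.MP_5af56b_co.Tor

open Finset

namespace TLaux

theorem bdd {n : ℤ} (hn : 0 < n) (δ : ℤ → ℤ) (h : ∀ i, δ (i + n) = δ i) :
    ∃ K, 0 ≤ K ∧ ∀ i, |δ i| ≤ K := by
  have hp : Function.Periodic δ n := h
  refine ⟨∑ i ∈ Ico 0 n, |δ i|, Finset.sum_nonneg fun _ _ => abs_nonneg _, fun i => ?_⟩
  have e : δ i = δ (i % n) := by
    have h1 := hp.int_mul (i / n) (i % n)
    have h2 : i % n + (i / n : ℤ) * n = i := by
      have := Int.emod_add_mul_ediv i n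
      linarith [mul_comm n (i / n)]
    simp only [Int.cast_id] at h1
    rw [h2] at h1
    exact h1
  rw [e]
  exact Finset.single_le_sum (f := fun i => |δ i|) (fun _ _ => abs_nonneg _)
    (Finset.mem_Ico.2 ⟨Int.emod_nonneg _ hn.ne', Int.emod_lt_of_pos _ hn⟩)

/-- one step of the interpolation -/
theorem step (p : SP) (f1 : SF1) {n E T K : ℤ} {P : (ℤ → ℤ) → Prop} {w u g z z' : ℤ → ℤ}
    {γ : ℤ → ℕ} (hn : 2 ≤ n) (hP : Cyc n P) (hw : AP n w) (hu : AP n u) (hg : AP n g)
    (hγ : ∀ i, γ (w i) = γ i) (hE : 0 < E) (hper : ∀ i, z' (i + n) = z' i + E)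
    (hc : ∀ i, u (g i) = g (w i)) (hin : ∀ i j, γ i = γ j → i < j → g i < g j)
    (hz : ∀ i j, g i ≤ g j → z i ≤ z j) (hin' : ∀ i j, γ i = γ j → i < j → z' i ≤ z' j)
    (hd : ∀ i, |z' i - z i| ≤ K) (hT : 2 * K ≤ T) (hK : 0 ≤ K)
    (hs : ∀ i j, γ i < γ j → z (w i) - z i + T ≤ z (w j) - z j)
    (hs' : ∀ i j, γ i < γ j → z' (w i) - z' i + T ≤ z' (w j) - z' j) :
    ∃ g' u', AP n g' ∧ AP n u' ∧ (∀ i, u' (g' i) = g' (w i)) ∧ (P u' → P u) ∧
      (∀ i j, γ i = γ j → i < j → g' i < g' j) ∧ ∀ i j, g' i ≤ g' j → z' i ≤ z' j := by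
  obtain ⟨h, hh, hhg, hgh⟩ := p.inv hg
  have key : ∀ k l, k < l → z' (h l) < z' (h k) →
      (u l < u k ∧ z' (h (u l)) ≤ z' (h (u k))) ∨
        ∃ k' l', u k' = k ∧ u l' = l ∧ l' < k' ∧ z' (h l') ≤ z' (h k') := by
    intro k l hkl hlt
    obtain ⟨i, rfl⟩ := hg.1.2 k
    obtain ⟨j, rfl⟩ := hg.1.2 l
    rw [hhg, hhg] at hlt
    have di := abs_le.1 (hd i)
    have dj := abs_le.1 (hd j)
    rcases lt_trichotomy (γ i) (γ j) with hγij | hγij | hγij
    · right
      obtain ⟨i', rfl⟩ := hw.1.2 i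
      obtain ⟨j', rfl⟩ := hw.1.2 j
      rw [hγ, hγ] at hγij
      have a1 := hs _ _ hγij
      have a2 := hs' _ _ hγij
      refine ⟨g i', g j', hc _, hc _, ?_, ?_⟩
      · by_contra hcon
        have := hz i' j' (not_lt.1 hcon)
        linarith
      · rw [hhg, hhg]
        linarith
    · exfalso
      rcases lt_trichotomy i j with hij | hij | hij
      · have := hin' i j hγij hij
        linarith
      · subst hij
        exact lt_irrefl _ hlt
      · have := hin j i hγij.symm hij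
        linarith
    · left
      have a1 := hs _ _ hγij
      have a2 := hs' _ _ hγij
      rw [hc, hc, hhg, hhg]
      refine ⟨?_, by linarith⟩
      by_contra hcon
      have := hz _ _ (not_lt.1 hcon)
      linarith
  obtain ⟨g', u', hg', hu', hc', hPu, hm, hst⟩ :=
    f1.bs (D := E) (P := P) (w := u) (x := fun k => z' (h k)) hn hP hu hE
      (fun k => by simp only [hh.2, hper]) key
  refine ⟨fun i => g' (g i), u', p.comp hg' hg, hu', fun i => ?_, hPu, fun i j hγij hij => ?_,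
    fun i j hij => ?_⟩
  · simp only [hc', hc]
  · refine hst _ _ (hin i j hγij hij) ?_
    simp only [hhg]
    exact hin' i j hγij hij
  · have := hm _ _ hij
    simpa only [hhg] using this

end TLaux

theorem pTL (p : SP) (f1 : SF1) : STL := by
  intro n D D' P w w' φ x y γ γ' hn hP hw hw' hφ hc hγ hγ' hin hx hy hys hsx hsy hPw
  obtain ⟨hD, hxm, hxp⟩ := hx
  obtain ⟨hD', -, hyp⟩ := hy
  obtain ⟨K, hK, hKb⟩ := TLaux.bdd (n := n) (by omega) (fun i => D * y (φ i) - D' * x i)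
    (fun i => by simp only [hφ.2, hyp, hxp]; ring)
  obtain ⟨T, hT⟩ : ∃ T : ℤ, T = 2 * K + 1 := ⟨_, rfl⟩
  have hT0 : 0 < T := by omega
  obtain ⟨z, hz⟩ : ∃ z : ℤ → ℤ → ℤ,
      ∀ t i, z t i = (T - t) * (D' * x i) + t * (D * y (φ i)) := ⟨_, fun _ _ => rfl⟩
  have hsep : ∀ t, 0 ≤ t → t ≤ T → ∀ i j, γ i < γ j →
      z t (w i) - z t i + T ≤ z t (w j) - z t j := by
    intro t h0 h1 i j hij
    have a1 := hsx i j hij
    have a2 := hsy (φ i) (φ j) (by rw [hγ', hγ']; exact hij)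
    rw [hc, hc] at a2
    have b1 : 1 ≤ D' * ((x (w j) - x j) - (x (w i) - x i)) := by
      have : 0 < D' * ((x (w j) - x j) - (x (w i) - x i)) := mul_pos hD' (by linarith)
      omega
    have b2 : 1 ≤ D * ((y (φ (w j)) - y (φ j)) - (y (φ (w i)) - y (φ i))) := by
      have : 0 < D * ((y (φ (w j)) - y (φ j)) - (y (φ (w i)) - y (φ i))) :=
        mul_pos hD (by linarith)
      omega
    have c1 := mul_le_mul_of_nonneg_left b1 (sub_nonneg.2 h1)
    have c2 := mul_le_mul_of_nonneg_left b2 h0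
    simp only [hz]
    linarith
  have hgrp : ∀ t, 0 ≤ t → t ≤ T → ∀ i j, γ i = γ j → i < j → z t i ≤ z t j := by
    intro t h0 h1 i j hij hlt
    have a1 := mul_le_mul_of_nonneg_left (hxm hlt.le) hD'.le
    have a2 := mul_le_mul_of_nonneg_left (hys (hin i j hij hlt)).le hD.le
    have c1 := mul_le_mul_of_nonneg_left a1 (sub_nonneg.2 h1)
    have c2 := mul_le_mul_of_nonneg_left a2 h0
    simp only [hz]
    linarith
  have main : ∀ t : ℕ, (t : ℤ) ≤ T → ∃ g u, AP n g ∧ AP n u ∧ (∀ i, u (g i) = g (w i)) ∧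
      (P u → P w) ∧ (∀ i j, γ i = γ j → i < j → g i < g j) ∧
      ∀ i j, g i ≤ g j → z t i ≤ z t j := by
    intro t
    induction t with
    | zero =>
      intro _
      refine ⟨fun i => i, w, ⟨Function.bijective_id, fun _ => rfl⟩, hw, fun _ => rfl, id,
        fun _ _ _ h => h, fun i j hij => ?_⟩
      have a1 := mul_le_mul_of_nonneg_left (hxm hij) hD'.le
      have c1 := mul_le_mul_of_nonneg_left a1 hT0.le
      simp only [hz]
      push_cast
      linarith
    | succ t ih =>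
      intro ht
      push_cast at ht
      have t0 : (0 : ℤ) ≤ t := Int.natCast_nonneg t
      obtain ⟨g, u, hg, hu, hcu, hPu, hgin, hgz⟩ := ih (by linarith)
      obtain ⟨g', u', hg', hu', hcu', hPu', hgin', hgz'⟩ :=
        TLaux.step p f1 (E := T * (D * D')) (T := T) (K := K) (z := z t) (z' := z (t + 1))
          hn hP hw hu hg hγ.2 (by positivity)
          (fun i => by simp only [hz, hφ.2, hyp, hxp]; ring) hcu hgin hgz
          (hgrp _ (by linarith) ht)
          (fun i => by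
            have e : z (t + 1) i - z t i = D * y (φ i) - D' * x i := by simp only [hz]; ring
            rw [e]; exact hKb i)
          (by omega) hK (hsep _ t0 (by linarith)) (hsep _ (by linarith) ht)
      refine ⟨g', u', hg', hu', hcu', fun h => hPu (hPu' h), hgin', ?_⟩
      push_cast
      exact hgz'
  obtain ⟨g, u, hg, hu, hcu, hPu, -, hgz⟩ := main T.toNat (by omega)
  have eT : ((T.toNat : ℕ) : ℤ) = T := by omega
  rw [eT] at hgz
  obtain ⟨h, hh, hhg, hgh⟩ := p.inv hg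
  have hψ : AP n (fun k => φ (h k)) := p.comp hφ hh
  have hm : ∀ k, φ (h (k - 1)) < φ (h k) := by
    intro k
    have a1 := hgz (h (k - 1)) (h k) (by rw [hgh, hgh]; omega)
    simp only [hz, sub_self, zero_mul, zero_add] at a1
    have a2 := le_of_mul_le_mul_left (le_of_mul_le_mul_left a1 hT0) hD
    have a3 := hys.le_iff_le.1 a2
    rcases a3.lt_or_eq with a4 | a4
    · exact a4
    · have := hψ.1.1 a4
      omega
  have hs := p.mono hψ hm
  apply hPu
  apply hP.2 u (φ (h 0)) hu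
  have e : (fun j => u (j - φ (h 0)) + φ (h 0)) = w' := by
    funext j
    have e1 := hs (j - φ (h 0))
    have e2 := hc (h (j - φ (h 0)))
    have e3 := hcu (h (j - φ (h 0)))
    have e4 := hs (g (w (h (j - φ (h 0)))))
    simp only [hhg, hgh] at e1 e2 e3 e4
    rw [e1, sub_add_cancel] at e2
    rw [e2, e3, e4]
  rw [e]
  exact hPw

end Pool.Agent.P.MP_5af56b_co.Tor
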