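import Pool.Agent.P.MP_5af56b_co.Tor.Fast2

namespace Pool.Agent.P.MP_5af56b_co.Tor

def r_6x2_0 : List (List (ℤ × ℤ) × ℕ × ℕ × ℕ × ℕ) := [
  ([(2, 5), (2, 1)], 1644718361997028708470261714290350352849042025864885410502745521645848178252381979213508672896419972, 1547443938788831803358576640, 212915665534053601940459883742410498734603590775441075386069483040250915584948742432969441633961358590629418738653237838177610190298913230507593294194486054550439964355879653054714556946835148953553545807957392715693432141421273788090351704868296706402813931160191011, 7419060052244120760957164845457075874720332330726672508787518049886511846369252818892953793608092922265069603843721809828087151055806756878604484285607253271367387881736630709176725516317574482279918599419526503677594013276330493845192749427781587611451933367667804371943460),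
  ([(-2, 3), (2, 3)], 11770378380919289484034781420427264114457302941790862968700105367552717471114108736860644873165469886896437376, 1547443938788831803358576640, 207425243402976738078068153813346525701605689574847474458880621259956654343849051595072090047540712005811452977027218012407454871067739867157067214375200206270460026545591432244772375579829352726298568019919274829909326335985183350749553633610853605271878903489234123495599451387348676632580200387930960781852180452349177443544890729860169773, 12363502937374670938415941447539551081380054440839486335884605069015097411750399450239548681472594896423631161765503128364000424494102681286816145024409428052012903434951194202880502941112113433471970778061289082476048779693818100272855455799987373468025551711303810923786143350962590262350894589788725037518909659968051405927468552236),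
  ([(-3, 5), (1, 1)], 1644718361997028708470261714290350352849042025864885410502745521645848178252381979213508672896419966, 1547443938788831803358576640, 180159433137344474757494518099673784195476018190329603351426005017617077170734803161123624194694915245169233830457680130230228644797433393131856998199079591861386510593029867441609507724967684439806886534148537019484286952138310713163295822547501525272273356667338787, 5613222457066826717652779473663508045487471314781492376671684870423328639394326125699583604846603366394556670743485174997135953853924058863851131690102348116100243309942377060327040457226267160223086496943337738816905951334506562848325679246962213341190422562),
  ([(-1, 1), (3, 5)], 2734071815247218466314150515188161721710867740281708001929785732836743417618360442974382723178743938, 1547443938788831803358576640, 160013720617996990431850121305282812897079809333352351788171189998513039790012115617522315724595582628313641515598564363807083290807586915261446881706790699481587003512896106104163730047855762136571094717501174594345723819277611401950940277244715597857, 7419060052243782501633751342693160756545837561989331668255660632337768464215085751589145620419670735759825108239936783631814539590505009255446721418581211648752284695414724076938371723306910312033370110807231953225064663182970729528587816544059629481933758945431638915231780),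
  ([(-2, 1), (-2, 5)], 2734071815247218466314150515188161721710867740281708001929785732836743417618360442974382723178743932, 1547443938788831803358576640, 160013720617996990431850121305282812897079809333352351788171189998513039790012115617522315724595582628313641515598564363807083290724955236841331371097958839644339873019844666840916943034742789780903113380207910226357168608061026009640853702742839918625, 5259362780021849926046718482491182211176765108247929400696771794434562599761412872426019203051172906503613588132728660363847224978125438332370144832035332284797281904385559929404662563701486803662716462412695372311683048418251822483034614742899971159584688491529232326648786939088773894182)]

theorem hr_6x2_0 : allR 6 2 r_6x2_0 = true := by decide +kernel

theorem hq_6x2 : q_6x2 = r_6x2_0.map Prod.fst := by decide +kernel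

theorem hr_6x2 (X : Ctx) : HR 6 2 q_6x2 := by
  rw [hq_6x2]
  exact allR_spec X.ent hr_6x2_0

end Pool.Agent.P.MP_5af56b_co.Tor
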