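import Pool.Agent.P.MP_5af56b_co.Tor.T6x0
import Pool.Agent.P.MP_5af56b_co.Tor.T6x1
import Pool.Agent.P.MP_5af56b_co.Tor.T6x2
import Pool.Agent.P.MP_5af56b_co.Tor.T6x3
import Pool.Agent.P.MP_5af56b_co.Tor.T8x0
import Pool.Agent.P.MP_5af56b_co.Tor.T8x1
import Pool.Agent.P.MP_5af56b_co.Tor.T8x2
import Pool.Agent.P.MP_5af56b_co.Tor.T8x3
import Pool.Agent.P.MP_5af56b_co.Tor.T10x0
import Pool.Agent.P.MP_5af56b_co.Tor.T10x1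
import Pool.Agent.P.MP_5af56b_co.Tor.T10x2
import Pool.Agent.P.MP_5af56b_co.Tor.T10x3
import Pool.Agent.P.MP_5af56b_co.Tor.TR0
import Pool.Agent.P.MP_5af56b_co.Tor.TR1
import Pool.Agent.P.MP_5af56b_co.Tor.TR2
import Pool.Agent.P.MP_5af56b_co.Tor.TR3

namespace Pool.Agent.P.MP_5af56b_co.Tor

theorem pTab (X : Ctx) : STab where
  t6x0 := ⟨h2_6x0 X, h3_6x0 X, hr_6x0 X⟩
  t6x1 := ⟨h2_6x1 X, h3_6x1 X, hr_6x1 X⟩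
  t6x2 := ⟨h2_6x2 X, h3_6x2 X, hr_6x2 X⟩
  t6x3 := ⟨h2_6x3 X, h3_6x3 X, hr_6x3 X⟩
  t8x0 := ⟨h2_8x0 X, h3_8x0 X, fun _ h => absurd h List.not_mem_nil⟩
  t8x1 := ⟨h2_8x1 X, h3_8x1 X, fun _ h => absurd h List.not_mem_nil⟩
  t8x2 := ⟨h2_8x2 X, h3_8x2 X, fun _ h => absurd h List.not_mem_nil⟩
  t8x3 := ⟨h2_8x3 X, h3_8x3 X, fun _ h => absurd h List.not_mem_nil⟩
  t10x0 := ⟨h2_10x0 X, h3_10x0 X, fun _ h => absurd h List.not_mem_nil⟩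
  t10x1 := ⟨h2_10x1 X, h3_10x1 X, fun _ h => absurd h List.not_mem_nil⟩
  t10x2 := ⟨h2_10x2 X, h3_10x2 X, fun _ h => absurd h List.not_mem_nil⟩
  t10x3 := ⟨h2_10x3 X, h3_10x3 X, fun _ h => absurd h List.not_mem_nil⟩

end Pool.Agent.P.MP_5af56b_co.Tor
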