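import Pool.Agent.P.MP_5af56b_co.Tor.A1
import Pool.Agent.P.MP_5af56b_co.Tor.A2
import Pool.Agent.P.MP_5af56b_co.Tor.All
import Pool.Agent.P.MP_5af56b_co.Tor.B1
import Pool.Agent.P.MP_5af56b_co.Tor.B2
import Pool.Agent.P.MP_5af56b_co.Tor.B3
import Pool.Agent.P.MP_5af56b_co.Tor.BB
import Pool.Agent.P.MP_5af56b_co.Tor.Blk
import Pool.Agent.P.MP_5af56b_co.Tor.C1
import Pool.Agent.P.MP_5af56b_co.Tor.C1b
import Pool.Agent.P.MP_5af56b_co.Tor.C2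
import Pool.Agent.P.MP_5af56b_co.Tor.C3
import Pool.Agent.P.MP_5af56b_co.Tor.D1
import Pool.Agent.P.MP_5af56b_co.Tor.D2
import Pool.Agent.P.MP_5af56b_co.Tor.Dat
import Pool.Agent.P.MP_5af56b_co.Tor.E0
import Pool.Agent.P.MP_5af56b_co.Tor.E1
import Pool.Agent.P.MP_5af56b_co.Tor.E2
import Pool.Agent.P.MP_5af56b_co.Tor.E3
import Pool.Agent.P.MP_5af56b_co.Tor.E4
import Pool.Agent.P.MP_5af56b_co.Tor.En
import Pool.Agent.P.MP_5af56b_co.Tor.Ev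
import Pool.Agent.P.MP_5af56b_co.Tor.F1
import Pool.Agent.P.MP_5af56b_co.Tor.Fin
import Pool.Agent.P.MP_5af56b_co.Tor.G1
import Pool.Agent.P.MP_5af56b_co.Tor.G2a
import Pool.Agent.P.MP_5af56b_co.Tor.G2b
import Pool.Agent.P.MP_5af56b_co.Tor.Gs
import Pool.Agent.P.MP_5af56b_co.Tor.H
import Pool.Agent.P.MP_5af56b_co.Tor.H1
import Pool.Agent.P.MP_5af56b_co.Tor.I
import Pool.Agent.P.MP_5af56b_co.Tor.K6
import Pool.Agent.P.MP_5af56b_co.Tor.M2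
import Pool.Agent.P.MP_5af56b_co.Tor.Mid
import Pool.Agent.P.MP_5af56b_co.Tor.P
import Pool.Agent.P.MP_5af56b_co.Tor.R
import Pool.Agent.P.MP_5af56b_co.Tor.RB
import Pool.Agent.P.MP_5af56b_co.Tor.RC
import Pool.Agent.P.MP_5af56b_co.Tor.ST
import Pool.Agent.P.MP_5af56b_co.Tor.TL
import Pool.Agent.P.MP_5af56b_co.Tor.Tab

namespace Pool.Agent.P.MP_5af56b_co.Tor

theorem qB2 : SB2 := pB2 pA1 pB1
theorem qC1 : SC1 := pC1 pA1 pB1 qB2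
theorem qC3 : SC3 := pC3 pA1 pB1 qB2 qC1
theorem qK6 : SK6 := pK6 pA1 pB1 qB2 qC1 (pJ pA1 pB1 qB2 qC3) (pGs pA1 pB1 qB2)
theorem qCk : SCk := pCk pA1 qB2 (pEv pB1)

theorem qAll : SAll := by
  have a1 := pA1
  have a2 := pA2 a1
  have b1 := pB1
  have b2 := qB2
  have b3 := pB3 a1 b1 b2
  have c1 := qC1
  have c1b := pC1b a1 b1 b2
  have c2 := pC2 a1 a2 b1 b2
  have c3 := qC3
  have p := pP
  have d1 := pD1 b1 b2 b3 c1 c2 p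
  have d2 := pD2 b1 b2 b3 c1 c3 p d1
  have rc : SRC := pRC b1 b2 c3 p
  have e0 := pE0 b1 b2 b3 c1 c2 p d1
  have e1 := pE1 b1 b2 c1 c1b p d1 e0
  have e2 : SE2 := pE2 b1 b2 c1 p d1 e0 e1
  have e3 := pE3 b1 b2 b3 c1 c1b p d1 d2 e0
  have e4 : SE4 := pE4 b1 b2 c1 e0 e2 e3
  have h := pH b1 b2 c1 c1b c3 p d1 d2 e3
  have g3 : SG3 := pG3 b1 b2 c1 p e3 (pG1 b1 b2 c1 p d1) (pG2a b1) (pG2b b1)
  have h1 : SH1 := pH1 b1 b2 c1 p d1 d2 rc e3 h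
  have r := pR p
  have t := pST b1 b2 c1 qCk
  have f1 := pF1 p
  have tl : STL := pTL p f1
  have cov : SCov := pCov pEn (pTab ⟨b2, pEv b1, p, r, pEnt b1 p r qCk⟩)
  have mid : SMid := pMid b1 b2 c1 p h g3 h1 t cov f1 (pDat p r) (pBlk p r)
    (pBB b1 b2 p d2 h r tl) (pRB b1 b2 c3 p d1 r tl)
  exact pAll p b2 e4 (pI a1 b1) (pM2 a1 b1 b2 c1 p d1 h t) mid g3 h1 qK6 b1

theorem qRes : (∀ G : MG, Toroidal G → TwoConn G →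
      (Reducible G ↔ ¬ ∃ H, (PetersenFamily H ∨ H = k55m) ∧ IsMinor H G)) ∧
    ∀ G : MG, Toroidal G → MinNonRed G → ∃ H, (PetersenFamily H ∨ H = k55m) ∧ Iso G H :=
  pRes pA1 (pA2 pA1) qK6 (pFin pA1) (pFam pA1 (pA2 pA1)) qAll

end Pool.Agent.P.MP_5af56b_co.Tor
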