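import Pool.Agent.P.MP_5af56b_co.Tor.Chk

namespace Pool.Agent.P.MP_5af56b_co.Tor

def dg16 : ℕ → ℕ → List ℤ
  | 0, _ => []
  | k + 1, C => ((C % 65536 : ℕ) : ℤ) :: dg16 k (C / 65536)

def chkB (n N : ℕ) (M : List (ℤ × ℤ)) (A C0 C1 : ℕ) : Bool :=
  entB n N M (dig (Nat.shiftRight A 264 % 256) (Nat.shiftRight A 272)) (((A % 256 : ℕ) : ℤ) - 128)
    (dig n (Nat.shiftRight A 24)) (dg16 n (Nat.shiftRight A 104)) ((A / 256 % 65536 : ℕ) : ℤ) C0 C1

def chkR (n N : ℕ) (M : List (ℤ × ℤ)) (A B C0 C1 : ℕ) : Bool :=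
  entRB n N M (dig (Nat.shiftRight A 264 % 256) (Nat.shiftRight A 272)) (((A % 256 : ℕ) : ℤ) - 128)
    (dig n (Nat.shiftRight A 24)) (dg16 n (Nat.shiftRight A 104)) ((A / 256 % 65536 : ℕ) : ℤ)
    (dg16 n (B / 256)) ((B % 256 : ℕ) : ℤ) C0 C1

def dat2 (n k : ℕ) : List (ℤ × ℤ) :=
  [(((k % 32 : ℕ) : ℤ) - 14, ((k / 32 % 32 : ℕ) : ℤ)),
   (((k / 1024 : ℕ) : ℤ) - 14, (n : ℤ) - ((k / 32 % 32 : ℕ) : ℤ)), (0, 0)]

def all2 (n N : ℕ) : List (ℕ × ℕ × ℕ × ℕ) → Bool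
  | [] => true
  | e :: T => chkB n N (dat2 n e.1) e.2.1 e.2.2.1 e.2.2.2 && all2 n N T

def all3 (n N : ℕ) : List (List (ℤ × ℤ) × ℕ × ℕ × ℕ) → Bool
  | [] => true
  | e :: T => chkB n N e.1 e.2.1 e.2.2.1 e.2.2.2 && all3 n N T

def allR (n N : ℕ) : List (List (ℤ × ℤ) × ℕ × ℕ × ℕ × ℕ) → Bool
  | [] => true
  | e :: T => chkR n N e.1 e.2.1 e.2.2.1 e.2.2.2.1 e.2.2.2.2 && allR n N T

def msk : List (ℕ × ℕ × ℕ × ℕ) → ℕ
  | [] => 0
  | e :: T => Nat.lor (one e.1) (msk T)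

def sumX : List (ℤ × ℤ) → ℤ
  | [] => 0
  | p :: M => p.1 + sumX M

def key2 (T X Y : ℤ) : ℕ := (X + 14).toNat + 32 * Y.toNat + 1024 * (T - X + 14).toNat

def ver2 (n m : ℕ) (M : List (ℤ × ℤ)) (a k : ℕ) : Bool :=
  m.testBit k && decide (dat2 n k = cut3 M a M.length) && Nat.ble a M.length

def try2 (n m : ℕ) (M : List (ℤ × ℤ)) (T : ℤ) : List (ℤ × ℤ) → ℕ → ℤ → ℤ → Bool
  | [], _, _, _ => false
  | p :: L, a, X, Y => ver2 n m M (a + 1) (key2 T (X + p.1) (Y + p.2)) ||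
      try2 n m M T L (a + 1) (X + p.1) (Y + p.2)

def try3 (K : List (List (ℤ × ℤ))) (M : List (ℤ × ℤ)) : Bool :=
  !allLt (fun b => allLt (fun a => !K.any fun q => decide (q = cut3 M a b)) (b + 1)) M.length

def leaf (n N m : ℕ) (K R : List (List (ℤ × ℤ))) (M : List (ℤ × ℤ)) : Bool :=
  try2 n m M (sumX M) M 0 0 0 ||
    !(decide ((n : ℤ) ≤ FM M 0 + N) && decide ((FM M 0 + N) % 2 = 0) && decide (FM M 0 ≤ FM M 1) &&
      decide (FM M 0 ≤ FM M (-1))) ||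
    R.any (fun q => decide (q = M)) || try3 K M

theorem allLt_spec {f : ℕ → Bool} : ∀ {k : ℕ}, allLt f k = true ↔ ∀ i < k, f i = true
  | 0 => by simp [allLt]
  | k + 1 => by
    rw [allLt, Bool.and_eq_true, allLt_spec]
    constructor
    · rintro ⟨h1, h2⟩ i hi
      rcases Nat.lt_succ_iff_lt_or_eq.1 hi with h | rfl
      · exact h2 i h
      · exact h1
    · intro h
      exact ⟨h k (Nat.lt_succ_self k), fun i hi => h i (Nat.lt_succ_of_lt hi)⟩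

theorem all2_spec (ent : SEnt) {n N : ℕ} : ∀ {T : List (ℕ × ℕ × ℕ × ℕ)}, all2 n N T = true →
    ∀ k, (msk T).testBit k = true → EntBad n N (dat2 n k)
  | [], _, k, hk => by simp [msk] at hk
  | e :: T, h, k, hk => by
    rw [all2, Bool.and_eq_true] at h
    rw [msk, tb_lor, tb_one] at hk
    rcases hk with rfl | hk
    · exact ent.bad _ _ _ _ _ _ _ _ _ _ h.1
    · exact all2_spec ent h.2 k hk

theorem all2_app {n N : ℕ} : ∀ {A B : List (ℕ × ℕ × ℕ × ℕ)}, all2 n N A = true →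
    all2 n N B = true → all2 n N (A ++ B) = true
  | [], _, _, h => h
  | e :: A, B, h1, h => by
    rw [all2, Bool.and_eq_true] at h1
    rw [List.cons_append, all2, h1.1, all2_app h1.2 h]
    rfl

theorem all3_spec (ent : SEnt) {n N : ℕ} : ∀ {T : List (List (ℤ × ℤ) × ℕ × ℕ × ℕ)},
    all3 n N T = true → ∀ q ∈ T.map Prod.fst, EntBad n N q
  | [], _, q, hq => by simp at hq
  | e :: T, h, q, hq => by
    rw [all3, Bool.and_eq_true] at h
    rw [List.map_cons, List.mem_cons] at hq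
    rcases hq with rfl | hq
    · exact ent.bad _ _ _ _ _ _ _ _ _ _ h.1
    · exact all3_spec ent h.2 q hq

theorem allR_spec (ent : SEnt) {n N : ℕ} : ∀ {T : List (List (ℤ × ℤ) × ℕ × ℕ × ℕ × ℕ)},
    allR n N T = true → ∀ q ∈ T.map Prod.fst, EntRed n N q
  | [], _, q, hq => by simp at hq
  | e :: T, h, q, hq => by
    rw [allR, Bool.and_eq_true] at h
    rw [List.map_cons, List.mem_cons] at hq
    rcases hq with rfl | hq
    · exact ent.red _ _ _ _ _ _ _ _ _ _ _ _ h.1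
    · exact allR_spec ent h.2 q hq

theorem try2_spec {n m : ℕ} {M : List (ℤ × ℤ)} {T : ℤ} : ∀ (L : List (ℤ × ℤ)) (a : ℕ) (X Y : ℤ),
    try2 n m M T L a X Y = true → ∃ a k, ver2 n m M a k = true
  | [], _, _, _, h => by simp [try2] at h
  | p :: L, a, X, Y, h => by
    rw [try2, Bool.or_eq_true] at h
    rcases h with h | h
    · exact ⟨_, _, h⟩
    · exact try2_spec L _ _ _ h

theorem cov_of (ent : SEnt) (en : SEnm) {n N a m : ℕ} {R : ℤ} (hR : R = a + N)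
    {T2 : List (ℕ × ℕ × ℕ × ℕ)} {T3 : List (List (ℤ × ℤ) × ℕ × ℕ × ℕ)}
    {TR : List (List (ℤ × ℤ) × ℕ × ℕ × ℕ × ℕ)} {K Q : List (List (ℤ × ℤ))}
    (h2 : all2 n N T2 = true) (h3 : all3 n N T3 = true) (hr : allR n N TR = true)
    (hm : msk T2 = m) (hK : T3.map Prod.fst = K) (hQ : TR.map Prod.fst = Q)
    (he : enm (leaf n N m K Q) n n a [] = true) : Cov n N R := by
  intro M hM h0 h1 hp hb hc
  have hl := en _ n a he M hM (by omega)
  simp only [leaf, Bool.or_eq_true] at hl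
  rcases hl with ((hl | hl) | hl) | hl
  · obtain ⟨a, k, hv⟩ := try2_spec _ _ _ _ hl
    simp only [ver2, Bool.and_eq_true, decide_eq_true_eq, Nat.ble_eq] at hv
    refine Or.inl ⟨a, M.length, hv.2, ?_⟩
    rw [← hv.1.2]
    exact all2_spec ent h2 k (hm ▸ hv.1.1)
  · simp [h1, hp, hb, hc] at hl
  · simp only [List.any_eq_true, decide_eq_true_eq] at hl
    obtain ⟨q, hq, rfl⟩ := hl
    exact Or.inr (allR_spec ent hr q (hQ ▸ hq))
  · rw [try3, Bool.not_eq_true', ← Bool.not_eq_true, allLt_spec] at hl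
    push Not at hl
    obtain ⟨b, -, hb⟩ := hl
    rw [Ne, allLt_spec] at hb
    push Not at hb
    obtain ⟨a, ha, hb⟩ := hb
    simp only [ne_eq, Bool.not_eq_true', Bool.not_eq_false, List.any_eq_true,
      decide_eq_true_eq] at hb
    obtain ⟨q, hq, rfl⟩ := hb
    exact Or.inl ⟨a, b, by omega, all3_spec ent h3 _ (hK ▸ hq)⟩

end Pool.Agent.P.MP_5af56b_co.Tor
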